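import Pool.Agent.MP_e30343_lc.Mg.SO_Real

/-! Forcing by type (for section 6). -/

open Filter Set

namespace Pool.Agent.MP_e30343_lc.SO

/-- forcing by type over the part below `α` -/
structure FcP (T : Tpl) (α : T.ι) (Cs : Set T.ι) (Ty : Type) (len : Ty → ℕ) (nx : Ty → L → Ty)
    (Fc : Ty → (T.X → Prop) → T.X → Prop) : Prop where
  md : ∀ s θ, MD (Iio α) (Fc s θ)
  mono : ∀ s (θ θ' R : T.X → Prop), MD (Iio α) R → (∀ᶠ x in T.μ, R x → θ x → θ' x) →
    ∀ᶠ x in T.μ, R x → Fc s θ x → Fc s θ' x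
  and : ∀ s θ θ', ∀ᶠ x in T.μ, Fc s θ x → Fc s θ' x → Fc s (fun y => θ y ∧ θ' y) x
  bot : ∀ s, ∀ᶠ x in T.μ, ¬ Fc s (fun _ => False) x
  cover : ∀ θ, MD (Iio α ∪ Cs) θ → ∀ᶠ x in T.μ, θ x → ∃ s, Fc s θ x
  next : ∀ s θ, ∃ S : T.X → Set L, (∀ e, MD (Iio α) fun x => e ∈ S x) ∧ (∀ x, S x ∈ KF gen) ∧
    ∀ᶠ x in T.μ, Fc s θ x → ∀ e ∈ S x, Fc (nx s e) (fun y => θ y ∧ y α (len s) = e) x
  dom : ∀ s (S : ℕ → T.X → Set L), (∀ i e, MD (Iio α) fun x => e ∈ S i x) →
    (∀ i x, S i x ∈ KF gen) → ∀ᶠ x in T.μ, Fc s (fun y => ∀ i, len s ≤ i → y α i ∈ S i y) x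

/-- countably many types of tails -/
theorem fc_types {ι : Type} {D : Set ι} (hD : D.Countable) (α : ι) :
    ∃ (Ty : Type) (_ : Countable Ty) (dm : Ty → Finset ι) (st : Ty → ι → List L),
      (∀ s, ↑(dm s) ⊆ D ∧ α ∈ dm s) ∧
      ∀ (F : Finset ι) (σ : ι → List L), ↑F ⊆ D → α ∈ F → ∃ s, dm s = F ∧ ∀ n ∈ F, st s n = σ n := by
  classical
  have h1 : {F : Finset ι | (F : Set ι) ⊆ D ∧ α ∈ F}.Countable :=
    ((countable_ofPred_finite_subset hD).preimage Finset.coe_injective).mono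
      fun F hF => And.intro F.finite_toSet hF.1
  have := h1.to_subtype
  refine ⟨Σ F : {F : Finset ι | (F : Set ι) ⊆ D ∧ α ∈ F}, (F.1 → List L), inferInstance,
    fun s => s.1.1,
    fun s n => if h : n ∈ s.1.1 then s.2 ⟨n, h⟩ else [], fun s => s.1.2, fun F σ hF hα => ?_⟩
  exact ⟨⟨⟨F, hF, hα⟩, fun n => σ n⟩, rfl, fun n hn => dif_pos hn⟩

namespace Tpl

variable {T : Tpl}

/-- `F` is the largest old set on which some valid tail with the given stems forces `θ` -/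
def FcS (B : Set T.ι) (α : T.ι) (d : Finset T.ι) (σ : T.ι → List L) (θ F : T.X → Prop) : Prop :=
  MD (Iio α) F ∧
  (∃ S, Val B ⟨d, σ, S⟩ ∧ ∀ᶠ x in T.μ, F x → Sem ⟨d, σ, S⟩ x → θ x) ∧
  ∀ R S, MD (Iio α) R → Val B ⟨d, σ, S⟩ → (∀ᶠ x in T.μ, R x → Sem ⟨d, σ, S⟩ x → θ x) →
    ∀ᶠ x in T.μ, R x → F x

theorem exists_fcS {B : Set T.ι} {α : T.ι} (hB : Iio α ⊆ B) {d : Finset T.ι} (hd : ↑d ⊆ B)
    (hd' : ∀ n ∈ d, α ≤ n) (σ : T.ι → List L) (θ : T.X → Prop) : ∃ F, FcS B α d σ θ F := by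
  obtain ⟨R, h1, h2⟩ := ess_sup T.μ (B := Iio α) {R | MD (Iio α) R ∧ ∃ S, Val B ⟨d, σ, S⟩ ∧
    ∀ᶠ x in T.μ, R x → Sem ⟨d, σ, S⟩ x → θ x} fun _ h => h.1
  have h3 : ∀ k, MD (Iio α) (R k) ∧ ∃ S, Val B ⟨d, σ, S⟩ ∧
      ∀ᶠ x in T.μ, R k x → Sem ⟨d, σ, S⟩ x → θ x := fun k => by
    rcases h1 k with h | h
    · exact h
    · rw [h]
      exact ⟨MD.const _, fun _ _ _ => univ, ⟨hd, fun n _ => vs_univ B n⟩,
        .of_forall fun _ h => h.elim⟩
  choose hm S hS hθ using h3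
  obtain ⟨f, hf, hf'⟩ := MD.sel hm
  refine ⟨fun x => ∃ k, R k x, MD.ex hm, ⟨fun n x τ => S (f x) n x τ, ⟨hd, fun n hn => ?_⟩, ?_⟩,
    fun R' S' h4 h5 h6 => h2 R' ⟨h4, S', h5, h6⟩⟩
  · exact vs_mix (S := fun k => S k n) (fun k => (hS k).2 n hn) (fun x _ => f x) fun _ k =>
      (hf k).mono fun m hm => ⟨hB hm, lt_of_lt_of_le hm (hd' n hn)⟩
  · filter_upwards [eventually_countable_forall.2 hθ] with x hx h h'
    exact hx (f x) (hf' x h) h'

end Tpl

theorem fc_pre_snoc {y : ℕ → L} {σ : List L} {e : L} (h : pre y (σ ++ [e]).length = σ ++ [e]) :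
    y σ.length = e := by
  have h1 : (pre y (σ ++ [e]).length)[σ.length]? = (σ ++ [e])[σ.length]? := by rw [h]
  rw [pre, List.getElem?_ofFn] at h1
  simpa using h1

open Tpl in
theorem exists_fc (T : Tpl) (α : T.ι) (hα : T.isK α) (Cs : Set T.ι) (h1 : Cs.Countable) :
    ∃ (Ty : Type) (_ : Countable Ty) (len : Ty → ℕ) (nx : Ty → L → Ty)
      (Fc : Ty → (T.X → Prop) → T.X → Prop), FcP T α Cs Ty len nx Fc := by
  classical
  set E := T.clo (insert α Cs) with hE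
  set B := Iio α ∪ E with hBd
  have hlo : IsLowerSet (Iio α) := isLowerSet_Iio α
  have hB : T.Clo B := (clo_lower hlo).union (clo_clo _)
  have hαE : α ∈ E := subset_clo _ (mem_insert _ _)
  have hI : Iio α ⊆ B := subset_union_left
  have hI' : Iio α ⊆ B ∩ Iio α := subset_inter hI Subset.rfl
  obtain ⟨Ty, hTy, dm, st, hdm, hsur⟩ := fc_types (D := E \ Iio α)
    ((clo_count (h1.insert α)).mono sdiff_subset) α
  have hd : ∀ s, ↑(dm s) ⊆ B := fun s n hn => Or.inr ((hdm s).1 hn).1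
  have hd' : ∀ s, ∀ n ∈ dm s, α ≤ n := fun s n hn => not_lt.1 ((hdm s).1 hn).2
  choose Fc hF using fun s θ => exists_fcS hI (hd s) (hd' s) (st s) θ
  choose nx hnx hnx' using fun s e =>
    hsur (dm s) (Function.update (st s) α (st s α ++ [e])) (hdm s).1 (hdm s).2
  refine ⟨Ty, hTy, fun s => (st s α).length, nx, Fc, fun s θ => (hF s θ).1, ?_, ?_, ?_, ?_, ?_, ?_⟩
  · intro s θ θ' R hR h
    obtain ⟨S, hS, h2⟩ := (hF s θ).2.1
    have := (hF s θ').2.2 (fun x => R x ∧ Fc s θ x) S (hR.and (hF s θ).1) hS (by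
      filter_upwards [h, h2] with x a b c d using a c.1 (b c.2 d))
    exact this.mono fun x a b c => a ⟨b, c⟩
  · intro s θ θ'
    obtain ⟨S, hS, h2⟩ := (hF s θ).2.1
    obtain ⟨S', hS', h2'⟩ := (hF s θ').2.1
    have := (hF s fun y => θ y ∧ θ' y).2.2 (fun x => Fc s θ x ∧ Fc s θ' x)
      (fun n x τ => S n x τ ∩ S' n x τ) ((hF s θ).1.and (hF s θ').1)
      ⟨hd s, fun n hn => (hS.2 n hn).inter (hS'.2 n hn)⟩ (by
        filter_upwards [h2, h2'] with x a b c d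
        exact ⟨a c.1 fun n hn => ⟨(d n hn).1, fun i hi => ((d n hn).2 i hi).1⟩,
          b c.2 fun n hn => ⟨(d n hn).1, fun i hi => ((d n hn).2 i hi).2⟩⟩)
    exact this.mono fun x a b c => a ⟨b, c⟩
  · intro s
    obtain ⟨S, hS, h2⟩ := (hF s fun _ => False).2.1
    by_contra h
    have h3 : ∃ᶠ x in T.μ, Fc s (fun _ => False) x := by simpa using h
    have h4 := amalg hlo (hF s _).1 h3 (hS.mono (subset_univ _)) (.of_forall fun x _ n hn => by
      simp only [Cond.res, Finset.mem_filter] at hn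
      exact absurd hn.2 (not_lt.2 (hd' s n hn.1)))
    obtain ⟨x, a, b⟩ := (h4.and_eventually h2).exists
    exact b a.1 a.2
  · intro θ hθ
    by_contra h
    have h3 : ∃ᶠ x in T.μ, θ x ∧ ∀ s, ¬ Fc s θ x := by simpa using h
    have hK : MD B fun x => θ x ∧ ∀ s, ¬ Fc s θ x :=
      (hθ.mono (union_subset_union_right _ ((subset_insert _ _).trans (subset_clo _)))).and
        (MD.all fun s => ((hF s θ).1.mono hI).not)
    obtain ⟨q, hq, h4, h5⟩ := bp_long hB hK h3 {α} (fun n hn => Or.inr (Finset.mem_singleton.1 hn ▸ hαE)) 0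
    have hm : ∀ n, n ∈ (q.res (Iio α)ᶜ).dom ↔ n ∈ q.dom ∧ n ∉ Iio α := fun n => by
      simp only [Cond.res, Finset.mem_filter, mem_compl_iff]
    obtain ⟨s, hs, hs'⟩ := hsur (q.res (Iio α)ᶜ).dom q.st
      (fun n hn => ⟨(hq.1 ((hm n).1 hn).1).resolve_left ((hm n).1 hn).2, ((hm n).1 hn).2⟩)
      ((hm α).2 ⟨(h4 α (Finset.mem_singleton_self _)).1, lt_irrefl α⟩)
    have h6 := (hF s θ).2.2 (Sem (q.res (Iio α))) q.S
      ((md_sem (hq.res_lower hlo)).mono inter_subset_right)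
      ⟨hd s, fun n hn => hq.2 n ((hm n).1 (hs ▸ hn)).1⟩ (by
        filter_upwards [h5] with x a b c
        refine (a ((sem_split q (Iio α) x).2 ⟨b, fun n hn => ?_⟩)).1
        have := c n (hs ▸ hn)
        rw [show (⟨dm s, st s, q.S⟩ : T.Cond).st n = q.st n from hs' n hn] at this
        exact this)
    obtain ⟨x, a, b, c⟩ := ((pos (hq.mono (subset_univ _))).and_eventually (h5.and h6)).exists
    exact (b a).2 s (c ((sem_split q (Iio α) x).1 a).1)
  · intro s θ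
    obtain ⟨S, hS, h2⟩ := (hF s θ).2.1
    obtain ⟨hm, P, -, -, hP⟩ := hS.2 α (hdm s).2
    have hm' : ∀ e, MD (Iio α) fun x => e ∈ S α x (st s α) := fun e =>
      (hm _ e).mono inter_subset_right
    refine ⟨fun x => S α x (st s α), hm', fun x => FF_K hα P x _ ▸ hP x _, ?_⟩
    have key : ∀ e, ∀ᶠ x in T.μ, Fc s θ x ∧ e ∈ S α x (st s α) →
        Fc (nx s e) (fun y => θ y ∧ y α (st s α).length = e) x := fun e => by
      refine (hF (nx s e) _).2.2 _ S ((hF s θ).1.and (hm' e))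
        ⟨hd _, fun n hn => hS.2 n (hnx s e ▸ hn)⟩ ?_
      filter_upwards [h2] with x a b c
      have c' : ∀ n ∈ dm s, Br (Function.update (st s) α (st s α ++ [e]) n) (S n x) (x n) :=
        fun n hn => hnx' s e n hn ▸ c n ((hnx s e).symm ▸ hn)
      have c0 := c' α (hdm s).2
      rw [Function.update_self] at c0
      refine ⟨a b.1 fun n hn => ?_, fc_pre_snoc c0.1⟩
      by_cases e' : n = α
      · subst e'
        exact ((InT.refl _ _).snoc b.2).br c0
      · have := c' n hn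
        rwa [Function.update_of_ne e'] at this
    filter_upwards [eventually_countable_forall.2 key] with x hx a e he using hx e ⟨a, he⟩
  · intro s S hS hS'
    have := (hF s fun y => ∀ i, (st s α).length ≤ i → y α i ∈ S i y).2.2 (fun _ => True)
      (fun n x τ => if n = α then S τ.length x else univ) (MD.const _)
      ⟨hd s, fun n _ => by
        by_cases e : n = α
        · subst e
          simp only [if_true]
          exact vs_K hα (fun τ e => (hS _ e).mono hI') fun x τ => hS' _ x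
        · simp only [if_neg e]
          exact vs_univ B n⟩
      (.of_forall fun x _ h i hi => by simpa [pre] using (h α (hdm s).2).2 i hi)
    exact this.mono fun x h => h trivial

end Pool.Agent.MP_e30343_lc.SO
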