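import Pool.Agent.MP_e30343_lc.Mg.SO_Not3Num
import Pool.Agent.MP_e30343_lc.SO.BG

-- part MP_e30343_lc.SO.In2D
section

/-! Interfaces for the group of order 2: outside description and names. -/

open Filter Set Pool.Agent.Lib.Forcing

namespace Pool.Agent.MP_e30343_lc.SO

variable {Ω : Type} [MeasurableSpace Ω]

/-- Outside description of a subgroup of `2 ^ J` of the extension, of sequential order 2. -/
structure OG (l : Filter Ω) {J : Type} (S : AddSubgroup (J → Ω → ZMod 2)) : Prop where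
  meas : ∀ (g : S) j c, Measurable fun x => g.1 j x = c
  cdet : ∀ g h : S, ∃ C : Set J, C.Countable ∧
    ∀ x, (∀ j ∈ C, g.1 j x = h.1 j x) → ∀ j, g.1 j x = h.1 j x
  mix : ∀ (f : Ω → ℕ) (g : ℕ → S), (∀ n, Measurable fun x => f x = n) →
    ∃ h : S, ∀ j x, h.1 j x = (g (f x)).1 j x
  two : ∀ (A : S → Ω → Prop) (R : Ω → Prop) (g : S), (∀ a, Measurable (A a)) → Measurable R →
    (∀ a b : S, ∀ᶠ x in l, (∀ j, a.1 j x = b.1 j x) → A a x → A b x) →
    (∀ F : Finset J, ∃ a : S, ∀ᶠ x in l, R x → A a x ∧ ∀ j ∈ F, a.1 j x = g.1 j x) →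
    ∃ (a : ℕ → ℕ → S) (b : ℕ → S), (∀ p m, ∀ᶠ x in l, R x → A (a p m) x) ∧
      (∀ p j, ∀ᶠ x in l, R x → ∀ᶠ m in atTop, (a p m).1 j x = (b p).1 j x) ∧
      ∀ j, ∀ᶠ x in l, R x → ∀ᶠ p in atTop, (b p).1 j x = g.1 j x
  one : ∃ e : ℕ → S, (∀ F : Finset J, ∀ᶠ x in l, ∃ z, ∀ j ∈ F, (e z).1 j x = 0) ∧
    ∀ (ζ : ℕ → Ω → ℕ) (R : Ω → Prop), (∀ n z, Measurable fun x => ζ n x = z) → Measurable R →
      (∀ j, ∀ᶠ x in l, R x → ∀ᶠ n in atTop, (e (ζ n x)).1 j x = 0) → ∀ᶠ x in l, ¬ R x

/-- Names for the group, its elements and its basic open sets. -/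
structure NG (l : Filter Ω) [CountableInterFilter l] [CCC l] {J : Type}
    (S : AddSubgroup (J → Ω → ZMod 2)) where
  G : Nm (IAlg l)
  m : Nm (IAlg l)
  T : Nm (IAlg l)
  nm : S → Nm (IAlg l)
  nb : S → Finset J → Nm (IAlg l)
  tg : ∀ U : Ult (IAlg l), TG U.E (U.cl G) (U.cl m) (U.cl T)
  mem : ∀ (U : Ult (IAlg l)) g, U.E (U.cl (nm g)) (U.cl G)
  full : ∀ x : Nm (IAlg l), ∃ g, ∀ U : Ult (IAlg l), U.E (U.cl x) (U.cl G) → U.cl x = U.cl (nm g)
  eq : ∀ g h, Tr (fun U : Ult (IAlg l) => U.cl (nm g) = U.cl (nm h)) fun x => ∀ j, g.1 j x = h.1 j x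
  opn : ∀ (U : Ult (IAlg l)) g F, U.E (U.cl (nb g F)) (U.cl T)
  mnb : ∀ g h F, Tr (fun U : Ult (IAlg l) => U.E (U.cl (nm h)) (U.cl (nb g F)))
    fun x => ∀ j ∈ F, h.1 j x = g.1 j x
  base : ∀ (P : Ult (IAlg l) → Prop) [Rep P] (W : Nm (IAlg l)) (g : S),
    (∀ (U : Ult (IAlg l)) F, Sub U.E (U.cl (nb g F)) (U.cl W) → P U) →
    ∀ U : Ult (IAlg l), U.E (U.cl W) (U.cl T) → U.E (U.cl (nm g)) (U.cl W) → P U

end Pool.Agent.MP_e30343_lc.SO

end

-- part MP_e30343_lc.SO.In2B
section

/-! The outside description of the group of order 2 given by a family of characters. -/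

open Filter Set

namespace Pool.Agent.MP_e30343_lc.SO

namespace In2B

variable {Ω : Type} [MeasurableSpace Ω]

theorem ms_sub {α : Type} [Countable α] {f : Ω → α} (hf : ∀ a, Measurable fun x => f x = a)
    {P : α → Ω → Prop} (hP : ∀ a, Measurable (P a)) : Measurable fun x => P (f x) x := by
  have : (fun x => P (f x) x) = fun x => ∃ a, f x = a ∧ P a x := by
    funext x; simp
  rw [this]
  exact .exists fun a => (hf a).and (hP a)

theorem ms_sel {α : Type} [Countable α] [Nonempty α] {P : α → Ω → Prop}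
    (hP : ∀ a, Measurable (P a)) :
    ∃ f : Ω → α, (∀ a, Measurable fun x => f x = a) ∧ ∀ x, (∃ a, P a x) → P (f x) x := by
  classical
  obtain ⟨e, he⟩ := exists_surjective_nat α
  let g : Ω → ℕ := fun x => if h : ∃ n, P (e n) x then Nat.find h else 0
  have hg : ∀ n, Measurable fun x => g x = n := fun n => by
    have : (fun x => g x = n) = fun x => (P (e n) x ∧ ∀ m, m < n → ¬ P (e m) x) ∨
        (0 = n ∧ ¬ ∃ m, P (e m) x) := by
      funext x
      by_cases h : ∃ n, P (e n) x
      · simp only [g, dif_pos h, Nat.find_eq_iff, h, not_true, and_false, or_false]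
      · simp only [g, dif_neg h, h, not_false_iff, and_true, eq_iff_iff]
        exact ⟨Or.inr, fun h' => h'.elim (fun h'' => (h ⟨n, h''.1⟩).elim) id⟩
    rw [this]
    exact ((hP _).and (.forall fun m => measurable_const.imp (hP _).not)).or
      (measurable_const.and (Measurable.exists fun m => hP _).not)
  refine ⟨fun x => e (g x), fun a => ms_sub (P := fun n _ => e n = a) hg fun _ => measurable_const,
    fun x ⟨a, ha⟩ => ?_⟩
  obtain ⟨n, rfl⟩ := he a
  have h : ∃ n, P (e n) x := ⟨n, ha⟩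
  simp only [g, dif_pos h]
  exact Nat.find_spec h

theorem ms_fr {P : ℕ → Ω → Prop} (hP : ∀ n, Measurable (P n)) :
    Measurable fun x => ∃ᶠ n in atTop, P n x := by
  simp only [frequently_atTop]
  exact .forall fun _ => .exists fun n => measurable_const.and (hP n)

/-- measurable diagonal subsequence -/
theorem diag (s : Ω → ℕ → ℕ → ZMod 2) (hs : ∀ m r c, Measurable fun x => s x m r = c) :
    ∃ (σ : Ω → ℕ → ZMod 2) (ν : Ω → ℕ → ℕ), (∀ r c, Measurable fun x => σ x r = c) ∧
      (∀ m n, Measurable fun x => ν x m = n) ∧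
      ∀ x m, m ≤ ν x m ∧ ∀ r < m, s x (ν x m) r = σ x r := by
  let Gd : Ω → ℕ → V → Prop := fun x r u => ∃ᶠ m in atTop, ∀ r' < r, s x m r' = u r'
  have mG : ∀ r u, Measurable fun x => Gd x r u := fun r u =>
    ms_fr fun m => .forall fun r' => measurable_const.imp (hs m r' _)
  have st : ∀ x r u, Gd x r u → ∃ u', Gd x (r + 1) u' ∧ ∀ r' < r, u' r' = u r' := by
    intro x r u h
    have h1 : ∃ᶠ m in atTop, ∃ c : ZMod 2, (∀ r' < r, s x m r' = u r') ∧ s x m r = c :=
      h.mono fun m hm => ⟨_, hm, rfl⟩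
    obtain ⟨c, hc⟩ := frequently_exists.1 h1
    refine ⟨u.update r c, hc.mono fun m hm r' hr' => ?_, fun r' hr' => ?_⟩
    · rcases Nat.lt_succ_iff_lt_or_eq.1 hr' with h' | rfl
      · rw [Finsupp.update_apply, if_neg h'.ne, hm.1 r' h']
      · rw [Finsupp.update_apply, if_pos rfl, hm.2]
    · rw [Finsupp.update_apply, if_neg hr'.ne]
  choose ex hex hex' using fun (r : ℕ) (u : V) =>
    ms_sel (P := fun (u' : V) x => Gd x (r + 1) u' ∧ ∀ r' < r, u' r' = u r')
      fun u' => (mG _ _).and measurable_const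
  let w : ℕ → Ω → V := fun r => Nat.rec (fun _ => 0) (fun r f x => ex r (f x) x) r
  have hw : ∀ r v, Measurable fun x => w r x = v := by
    intro r
    induction r with
    | zero => exact fun v => measurable_const (a := (0 : V) = v)
    | succ r ih => exact fun v => ms_sub (P := fun u x => ex r u x = v) ih fun u => hex r u v
  have gw : ∀ x r, Gd x r (w r x) := by
    intro x r
    induction r with
    | zero => exact (Eventually.of_forall fun _ _ h => absurd h (Nat.not_lt_zero _)).frequently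
    | succ r ih => exact (hex' r _ x (st x r _ ih)).1
  have cw : ∀ x r m, r < m → w m x r = w (r + 1) x r := by
    intro x r m hm
    induction m, hm using Nat.le_induction with
    | base => rfl
    | succ m hm ih => exact ((hex' m _ x (st x m _ (gw x m))).2 r hm).trans ih
  choose ν hν hν' using fun m : ℕ =>
    ms_sel (P := fun (n : ℕ) x => m ≤ n ∧ ∀ r < m, s x n r = w m x r) fun n =>
      measurable_const.and (.forall fun r => measurable_const.imp
        (ms_sub (P := fun u x => s x n r = u r) (hw m) fun u => hs n r _))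
  refine ⟨fun x r => w (r + 1) x r, fun x m => ν m x, fun r c =>
    ms_sub (P := fun u _ => u r = c) (hw (r + 1)) fun _ => measurable_const, hν, fun x m => ?_⟩
  obtain ⟨h1, h2⟩ := hν' m x (frequently_atTop.1 (gw x m) m)
  exact ⟨h1, fun r hr => (h2 r hr).trans (cw x r m hr)⟩

/-- closing up under countably many countable sets -/
theorem closing {J : Type} (en : Finset J → ℕ → J) :
    ∃ F : ℕ → Finset J, ∀ r s, ∀ᶠ p in atTop, en (F r) s ∈ F p := by
  classical
  let st : ℕ → Finset J × Finset (Finset J) := fun p => Nat.rec (∅, ∅) (fun p a =>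
    ((insert a.1 a.2).biUnion fun F' => (Finset.range (p + 1)).image (en F'), insert a.1 a.2)) p
  have h1 : ∀ r p, r ≤ p → (st r).1 ∈ insert (st p).1 (st p).2 := by
    intro r p h
    induction p, h using Nat.le_induction with
    | base => exact Finset.mem_insert_self _ _
    | succ p _ ih => exact Finset.mem_insert_of_mem ih
  refine ⟨fun p => (st p).1, fun r s => eventually_atTop.2 ⟨max r s + 1, fun p hp => ?_⟩⟩
  obtain ⟨p, rfl⟩ : ∃ q, p = q + 1 := ⟨p - 1, by omega⟩
  exact Finset.mem_biUnion.2 ⟨_, h1 r p (by omega),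
    Finset.mem_image.2 ⟨s, Finset.mem_range.2 (by omega), rfl⟩⟩

variable {l : Filter Ω} {I : Type} {φ : I → Ω → V → ZMod 2}

/-- `g = (q, φ q + σ)` with `σ` supported in `C` -/
structure Is (φ : I → Ω → V → ZMod 2) (g : ℕ ⊕ I → Ω → ZMod 2) (q : Ω → V) (C : Set I) : Prop where
  mq : ∀ v, Measurable fun x => q x = v
  ct : C.Countable
  lf : ∀ n x, g (.inl n) x = q x n
  mr : ∀ i c, Measurable fun x => g (.inr i) x = c
  off : ∀ i, i ∉ C → ∀ x, g (.inr i) x = φ i x (q x)

theorem phi_zero (h : Chr l I φ) (i : I) (x : Ω) : φ i x 0 = 0 := by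
  have := h.add i x 0 0
  rw [add_zero] at this
  exact left_eq_add.1 this

/-- the group -/
def grp (h : Chr l I φ) : AddSubgroup (ℕ ⊕ I → Ω → ZMod 2) where
  carrier := {g | ∃ q C, Is φ g q C}
  zero_mem' := ⟨fun _ => 0, ∅, fun _ => measurable_const, countable_empty, fun _ _ => rfl,
    fun _ c => measurable_const (a := (0 : ZMod 2) = c), fun i _ x => (phi_zero h i x).symm⟩
  add_mem' := by
    rintro g g' ⟨q, C, a⟩ ⟨q', C', a'⟩
    refine ⟨fun x => q x + q' x, C ∪ C', fun v => ?_, a.ct.union a'.ct, fun n x => ?_,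
      fun i c => ?_, fun i hi x => ?_⟩
    · exact ms_sub (P := fun u x => u + q' x = v) a.mq fun u =>
        ms_sub (P := fun u' _ => u + u' = v) a'.mq fun _ => measurable_const
    · simp only [Pi.add_apply, a.lf, a'.lf, Finsupp.add_apply]
    · exact ms_sub (P := fun u x => u + g' (.inr i) x = c) (a.mr i) fun u =>
        ms_sub (P := fun u' _ => u + u' = c) (a'.mr i) fun _ => measurable_const
    · rw [h.add, Pi.add_apply, Pi.add_apply, a.off i fun e => hi (Or.inl e),
        a'.off i fun e => hi (Or.inr e)]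
  neg_mem' := by
    intro g hg
    have : -g = g := by
      funext j x
      exact CharTwo.neg_eq _
    rwa [this]

theorem spec {h : Chr l I φ} (g : grp h) : ∃ q C, Is φ g.1 q C := g.2

theorem mem_of {h : Chr l I φ} {g : ℕ ⊕ I → Ω → ZMod 2} {q : Ω → V} {C : Set I} (a : Is φ g q C) :
    g ∈ grp h := ⟨q, C, a⟩

theorem meas1 (h : Chr l I φ) (g : grp h) (j : ℕ ⊕ I) (c : ZMod 2) :
    Measurable fun x => g.1 j x = c := by
  obtain ⟨q, C, a⟩ := spec g
  rcases j with n | i
  · simp only [a.lf]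
    exact ms_sub (P := fun u _ => u n = c) a.mq fun _ => measurable_const
  · exact a.mr i c

theorem meas_eq (h : Chr l I φ) (g g' : grp h) (j : ℕ ⊕ I) :
    Measurable fun x => g.1 j x = g'.1 j x :=
  ms_sub (P := fun c x => g.1 j x = c) (meas1 h g' j) (meas1 h g j)

theorem mix (h : Chr l I φ) (f : Ω → ℕ) (g : ℕ → grp h) (hf : ∀ n, Measurable fun x => f x = n) :
    ∃ k : grp h, ∀ j x, k.1 j x = (g (f x)).1 j x := by
  choose q C a using fun n => spec (g n)
  refine ⟨⟨fun j x => (g (f x)).1 j x, mem_of (q := fun x => q (f x) x) (C := ⋃ n, C n) ⟨fun v => ?_,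
    countable_iUnion fun n => (a n).ct, fun n x => (a _).lf n x, fun i c => ?_,
    fun i hi x => (a _).off i (fun e => hi (mem_iUnion.2 ⟨_, e⟩)) x⟩⟩, fun _ _ => rfl⟩
  · exact ms_sub (P := fun n x => q n x = v) hf fun n => (a n).mq v
  · exact ms_sub (P := fun n x => (g n).1 (.inr i) x = c) hf fun n => (a n).mr i c

variable [CountableInterFilter l]

/-- limits of convergent sequences that differ from `g` only at countably many places -/
theorem first (h : Chr l I φ) (A : grp h → Ω → Prop) (R : Ω → Prop) (g : grp h)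
    (hA : ∀ a, Measurable (A a))
    (inv : ∀ a b : grp h, ∀ᶠ x in l, (∀ j, a.1 j x = b.1 j x) → A a x → A b x)
    (cl : ∀ F : Finset (ℕ ⊕ I), ∃ a : grp h, ∀ᶠ x in l, R x → A a x ∧ ∀ j ∈ F, a.1 j x = g.1 j x)
    (F : Finset (ℕ ⊕ I)) :
    ∃ (a : ℕ → grp h) (b : grp h) (c : ℕ → ℕ ⊕ I), (∀ m, ∀ᶠ x in l, R x → A (a m) x) ∧
      (∀ j, ∀ᶠ x in l, R x → ∀ᶠ m in atTop, (a m).1 j x = b.1 j x) ∧
      (∀ᶠ x in l, R x → ∀ j ∈ F, b.1 j x = g.1 j x) ∧
      ∀ j, j ∉ range c → ∀ x, b.1 j x = g.1 j x := by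
  classical
  choose a ha using fun k => cl (F ∪ (Finset.range k).image Sum.inl)
  choose qd Cd hd using fun k => spec (a k - g)
  have hsub : ∀ k j x, (a k - g).1 j x = (a k).1 j x - g.1 j x := fun _ _ _ => rfl
  let Q : ℕ → V → Ω → Prop := fun k v x =>
    A (a k) x ∧ (∀ j : F, (a k).1 j x = g.1 j x) ∧ qd k x = v
  have mQ : ∀ k v, Measurable (Q k v) := fun k v =>
    (hA _).and ((Measurable.forall fun j : F => meas_eq h _ _ j).and
      ((hd k).mq v))
  obtain ⟨q, I1, mq, hI, s1, s2⟩ := h.star (fun x v => ∃ k, Q k v x) fun v => .exists (mQ · v)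
  have far : ∀ᶠ x in l, R x → ∀ k, ∃ v ∈ W k, ∃ k', Q k' v x := by
    filter_upwards [eventually_countable_forall.2 ha] with x hx hR k
    obtain ⟨h1, h2⟩ := hx k hR
    refine ⟨qd k x, fun n hn => ?_, k, h1, fun j => h2 j (Finset.mem_union_left _ j.2), rfl⟩
    rw [← (hd k).lf, hsub, h2 _ (Finset.mem_union_right _
      (Finset.mem_image_of_mem _ (Finset.mem_range.2 hn))), sub_self]
  choose κ mκ hκ using fun m : ℕ => ms_sel (P := fun (k : ℕ) x => Q k (q x m) x) fun k =>
    ms_sub (P := fun v x => Q k v x) (mq m) (mQ k)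
  have hC : (insert (Sum.inl 0) (Sum.inr '' (I1 ∪ ⋃ k, Cd k)) : Set (ℕ ⊕ I)).Countable :=
    ((hI.union (countable_iUnion fun k => (hd k).ct)).image _).insert _
  obtain ⟨c, hc⟩ := hC.exists_eq_range (insert_nonempty _ _)
  obtain ⟨σ, ν, mσ, mν, hν⟩ := diag (fun x m r => (a (κ m x) - g).1 (c r) x) fun m r v =>
    ms_sub (P := fun k x => (a k - g).1 (c r) x = v) (mκ m) fun k => meas1 h _ _ _
  choose a' ha' using fun m => mix h (fun x => κ (ν x m) x) a fun k =>
    ms_sub (P := fun n x => κ n x = k) (mν m) fun n => mκ n k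
  let β : ℕ ⊕ I → Ω → ZMod 2 := fun j x =>
    j.elim (fun _ => 0) fun i => if e : ∃ r, c r = .inr i then σ x e.choose else 0
  have hβ : β ∈ grp h := by
    refine mem_of (q := fun _ => 0) (C := Sum.inr ⁻¹' range c) ⟨fun _ => measurable_const,
      (countable_range c).preimage Sum.inr_injective, fun _ _ => rfl, fun i v => ?_,
      fun i hi x => ?_⟩
    · by_cases e : ∃ r, c r = .inr i
      · simp only [β, Sum.elim_inr, dif_pos e]
        exact mσ _ _
      · simp only [β, Sum.elim_inr, dif_neg e]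
        exact measurable_const
    · rw [phi_zero h]
      exact dif_neg hi
  have gQ : ∀ᶠ x in l, R x → ∀ m, Q (κ m x) (q x m) x ∧ q x m ∈ W m := by
    filter_upwards [far, s1] with x h1 h2 hR m
    exact ⟨hκ m x (h2 (h1 hR) m).1, (h2 (h1 hR) m).2⟩
  have cv : ∀ j, ∀ᶠ x in l, R x → ∀ᶠ m in atTop, (a' m).1 j x = (g + ⟨β, hβ⟩ : grp h).1 j x := by
    intro j
    have key : ∀ᶠ x in l, R x → ∀ᶠ m in atTop, (a (κ (ν x m) x) - g).1 j x = β j x := by
      rcases j with n | i
      · filter_upwards [gQ] with x hx hR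
        filter_upwards [eventually_gt_atTop n] with m hm
        rw [(hd _).lf, (hx hR _).1.2.2]
        exact (hx hR _).2 n (hm.trans_le (hν x m).1)
      · by_cases e : ∃ r, c r = .inr i
        · refine Eventually.of_forall fun x _ => ?_
          filter_upwards [eventually_gt_atTop e.choose] with m hm
          have := (hν x m).2 _ hm
          rw [e.choose_spec] at this
          exact this.trans (show β (.inr i) x = _ from dif_pos e).symm
        · have hi : i ∉ I1 ∪ ⋃ k, Cd k := fun hi =>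
            e (show Sum.inr i ∈ range c from hc ▸ mem_insert_of_mem _ ⟨i, hi, rfl⟩)
          filter_upwards [gQ, far, s2 i fun h' => hi (Or.inl h')] with x hx h1 h2 hR
          obtain ⟨m0, hm0⟩ := eventually_atTop.1 (h2 (h1 hR))
          filter_upwards [eventually_ge_atTop m0] with m hm
          rw [(hd _).off i fun h' => hi (Or.inr (mem_iUnion.2 ⟨_, h'⟩)), (hx hR _).1.2.2,
            hm0 _ (hm.trans (hν x m).1)]
          exact (show β (.inr i) x = _ from dif_neg e).symm
    filter_upwards [key] with x hx hR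
    filter_upwards [hx hR] with m hm
    rw [hsub] at hm
    rw [ha']
    exact (sub_eq_iff_eq_add'.1 hm)
  refine ⟨a', g + ⟨β, hβ⟩, c, fun m => ?_, cv, ?_, fun j hj x => ?_⟩
  · filter_upwards [gQ, eventually_countable_forall.2 fun k => inv (a k) (a' m)] with x h1 h2 hR
    exact h2 _ (fun j => (ha' m j x).symm) (h1 hR _).1.1
  · filter_upwards [gQ, (eventually_all_finset F).2 fun j _ => cv j] with x h1 h2 hR j hj
    obtain ⟨m, hm⟩ := (h2 j hj hR).exists
    rw [← hm, ha', (h1 hR _).1.2.1 ⟨j, hj⟩]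
  · change g.1 j x + β j x = _
    rcases j with n | i
    · exact add_zero _
    · exact add_eq_left.2 (dif_neg hj)

end In2B

open In2B in
theorem Chr.og {Ω : Type} [MeasurableSpace Ω] {l : Filter Ω} [CountableInterFilter l] {I : Type}
    {φ : I → Ω → V → ZMod 2} (h : Chr l I φ) :
    ∃ S : AddSubgroup (ℕ ⊕ I → Ω → ZMod 2), OG l S := by
  classical
  refine ⟨grp h, meas1 h, fun g g' => ?_, mix h, fun A R g hA _ inv cl => ?_, ?_⟩
  · obtain ⟨q, C, a⟩ := spec g
    obtain ⟨q', C', a'⟩ := spec g'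
    refine ⟨range Sum.inl ∪ Sum.inr '' (C ∪ C'),
      (countable_range _).union ((a.ct.union a'.ct).image _), fun x hx j => ?_⟩
    have e : q x = q' x := Finsupp.ext fun n => by
      rw [← a.lf, ← a'.lf, hx _ (Or.inl ⟨n, rfl⟩)]
    rcases j with n | i
    · exact hx _ (Or.inl ⟨n, rfl⟩)
    · by_cases hi : i ∈ C ∪ C'
      · exact hx _ (Or.inr ⟨i, hi, rfl⟩)
      · rw [a.off i fun e => hi (Or.inl e), a'.off i fun e => hi (Or.inr e), e]
  · choose a b c h1 h2 h3 h4 using first h A R g hA inv cl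
    obtain ⟨F, hF⟩ := closing c
    refine ⟨fun p => a (F p), fun p => b (F p), fun p => h1 _, fun p => h2 _, fun j => ?_⟩
    by_cases hj : ∃ r, j ∈ range (c (F r))
    · obtain ⟨r, s, rfl⟩ := hj
      filter_upwards [eventually_countable_forall.2 fun p => h3 (F p)] with x hx hR
      exact (hF r s).mono fun p hp => hx p hR _ hp
    · exact .of_forall fun x _ => .of_forall fun p => h4 _ j (fun e => hj ⟨p, e⟩) x
  · refine ⟨fun z => ⟨fun j x => j.elim (fun n => (Finsupp.single z 1 : V) n)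
      fun i => φ i x (Finsupp.single z 1), mem_of (q := fun _ => Finsupp.single z 1) (C := ∅)
      ⟨fun _ => measurable_const, countable_empty, fun _ _ => rfl, fun i c => h.meas i _ c,
      fun _ _ _ => rfl⟩⟩, fun F => ?_, fun ζ R hζ _ cv => ?_⟩
    · filter_upwards [h.prop F.toRight] with x hx
      obtain ⟨z, h1, h2⟩ := (hx.and_eventually (eventually_gt_atTop (F.toLeft.sup id))).exists
      refine ⟨z, fun j hj => ?_⟩
      rcases j with n | i
      · have : n ≤ F.toLeft.sup id := Finset.le_sup (f := id) (Finset.mem_toLeft.2 hj)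
        exact Finsupp.single_eq_of_ne (by omega)
      · exact h1 i (Finset.mem_toRight.2 hj)
    · obtain ⟨I1, hI, ht⟩ := h.tall (fun x z => ∃ n, ζ n x = z) fun z => .exists (hζ · z)
      filter_upwards [ht, eventually_countable_forall.2 fun n => cv (.inl n),
        (eventually_countable_ball hI).2 fun i _ => cv (.inr i)] with x h1 h2 h3 hR
      have hinf : ∃ᶠ z in atTop, ∃ n, ζ n x = z := by
        refine frequently_atTop.2 fun k => ?_
        obtain ⟨n, hn⟩ := ((eventually_all_finset (Finset.range k)).2 fun m _ => h2 m hR).exists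
        refine ⟨ζ n x, not_lt.1 fun e => ?_, n, rfl⟩
        have := hn _ (Finset.mem_range.2 e)
        simp at this
      obtain ⟨i, hi, hf⟩ := h1 hinf
      obtain ⟨n0, hn0⟩ := eventually_atTop.1 (h3 i hi hR)
      obtain ⟨z, ⟨⟨n, rfl⟩, h4⟩, h5⟩ := (hf.and_eventually
        (eventually_gt_atTop ((Finset.range n0).sup fun n => ζ n x))).exists
      by_cases e : n < n0
      · exact absurd (Finset.le_sup (f := fun n => ζ n x) (Finset.mem_range.2 e)) (not_le.2 h5)
      · exact h4 (hn0 n (not_lt.1 e))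

end Pool.Agent.MP_e30343_lc.SO

end
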