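import Mathlib
import Pool.Agent.MP_e30343_lc.SO.Base

-- part MP_e30343_lc.SO.KI
section

/-! The ideal of null sets on a group with a family of routes (section 1). -/

open Filter Set
open scoped Pointwise

namespace Pool.Agent.MP_e30343_lc.SO

section
variable {Q : Type} [Group Q] [DecidableEq Q] (γ : ℕ → ℕ → Q)

/-- the route `(g, c)` -/
def route (g : Q) (c n : ℕ) : Q := g * γ c n * g⁻¹

/-- finite sets with a right translate inside `E H` -/
def FFin (E : Finset Q) (H : Set Q) (S : Finset Q) : Prop :=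
  ∃ y, ∀ r ∈ S, ∃ ε ∈ E, ε⁻¹ * r * y ∈ H

/-- closed families -/
def ClosedFam (G : Set (Finset Q)) : Prop :=
  ∀ S ∈ G, ∀ g c, ∀ᶠ n in atTop, S * {1, route γ g c n} ∈ G

/-- the union of all closed families inside `FFin E H` -/
def WFam (E : Finset Q) (H : Set Q) (S : Finset Q) : Prop :=
  ∃ G, ClosedFam γ G ∧ (∀ S' ∈ G, FFin E H S') ∧ S ∈ G

/-- positive sets -/
def KPos (H : Set Q) : Prop := ∃ E, WFam γ E H {1}

variable {γ}

theorem WFam.ffin {E S : Finset Q} {H : Set Q} (h : WFam γ E H S) : FFin E H S := by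
  obtain ⟨G, -, hF, hS⟩ := h
  exact hF S hS

theorem WFam.closed (E : Finset Q) (H : Set Q) : ClosedFam γ {S | WFam γ E H S} := by
  rintro S ⟨G, hG, hF, hS⟩ g c
  exact (hG S hS g c).mono fun n hn => ⟨G, hG, hF, hn⟩

theorem WFam.imp {E E' S : Finset Q} {H H' : Set Q} (h : WFam γ E H S)
    (e : ∀ S', FFin E H S' → FFin E' H' S') : WFam γ E' H' S := by
  obtain ⟨G, hG, hF, hS⟩ := h
  exact ⟨G, hG, fun S' h' => e S' (hF S' h'), hS⟩

omit [DecidableEq Q] in
theorem FFin.imp {E E' S : Finset Q} {H H' : Set Q} (h : FFin E H S)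
    (e : ∀ ε ∈ E, ∃ ε' ∈ E', ∀ q, ε⁻¹ * q ∈ H → ε'⁻¹ * q ∈ H') : FFin E' H' S := by
  obtain ⟨y, hy⟩ := h
  refine ⟨y, fun r hr => ?_⟩
  obtain ⟨ε, hε, h1⟩ := hy r hr
  obtain ⟨ε', hε', h2⟩ := e ε hε
  refine ⟨ε', hε', ?_⟩
  rw [mul_assoc] at h1 ⊢
  exact h2 _ h1

theorem ClosedFam.shift {G : Set (Finset Q)} (hG : ClosedFam γ G) (A : Finset Q) :
    ClosedFam γ {S | A * S ∈ G} := by
  intro S hS g c
  refine (hG _ hS g c).mono fun n hn => ?_
  show A * (S * _) ∈ G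
  rwa [← mul_assoc]

theorem mul_one_sing (A : Finset Q) : A * {1} = A := by
  rw [Finset.singleton_one, mul_one]

theorem mem_mul_pair {S : Finset Q} {c x : Q} (h : x ∈ S * {1, c}) :
    x ∈ S ∨ ∃ s ∈ S, x = s * c := by
  obtain ⟨s, hs, t, ht, rfl⟩ := Finset.mem_mul.1 h
  rcases Finset.mem_insert.1 ht with rfl | ht
  · left; simpa using hs
  · right; exact ⟨s, hs, by rw [Finset.mem_singleton.1 ht]⟩

theorem KPos.mono {H H' : Set Q} (h : KPos γ H) (e : H ⊆ H') : KPos γ H' := by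
  obtain ⟨E, hE⟩ := h
  exact ⟨E, hE.imp fun S hS => hS.imp fun ε hε => ⟨ε, hε, fun q hq => e hq⟩⟩

theorem kpos_univ : KPos γ univ := by
  refine ⟨{1}, univ, fun S _ g c => Eventually.of_forall fun _ => trivial, fun S _ => ?_, trivial⟩
  exact ⟨1, fun r _ => ⟨1, Finset.mem_singleton_self _, trivial⟩⟩

theorem not_kpos_empty : ¬ KPos γ ∅ := by
  rintro ⟨E, hE⟩
  obtain ⟨y, hy⟩ := hE.ffin
  obtain ⟨ε, -, h⟩ := hy 1 (Finset.mem_singleton_self _)
  exact h

theorem k1_gen {Γ : Type} (P : Set Q) (J : Γ → Set Q) (T : Finset Γ) :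
    ∀ (G : Set (Finset Q)) (E : Finset Q), ClosedFam γ G → {1} ∈ G →
      (∀ S ∈ G, ∀ x ∈ S, ∀ e ∈ E, x⁻¹ * e ∈ P) →
      (∀ S ∈ G, ∃ R : Γ → Finset Q, (∀ g ∈ T, FFin E (J g) (R g)) ∧ ∀ r ∈ S, ∃ g ∈ T, r ∈ R g) →
      ∃ g ∈ T, ∃ E' : Finset Q, (↑E' : Set Q) ⊆ P ∧ WFam γ E' (J g) {1} := by
  classical
  induction T using Finset.induction_on with
  | empty =>
    intro G E _ h1 _ h
    obtain ⟨R, -, hR⟩ := h _ h1
    obtain ⟨g, hg, -⟩ := hR 1 (Finset.mem_singleton_self _)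
    simp at hg
  | insert g0 T _ ih =>
    intro G E hG h1 hP h
    by_cases hc : ∀ S ∈ G, FFin E (J g0) S
    · refine ⟨g0, Finset.mem_insert_self _ _, E, fun e he => ?_, G, hG, hc, h1⟩
      simpa using hP _ h1 1 (Finset.mem_singleton_self _) e he
    · push Not at hc
      obtain ⟨A, hA, hn⟩ := hc
      refine (ih {S | A * S ∈ G} (A⁻¹ * E) (hG.shift A)
        (by show A * {1} ∈ G; rwa [mul_one_sing]) ?_ ?_).imp
        fun g hg => ⟨Finset.mem_insert_of_mem hg.1, hg.2⟩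
      · intro S hS x hx e he
        obtain ⟨a, ha, e', he', rfl⟩ := Finset.mem_mul.1 he
        have := hP _ hS (a⁻¹ * x) (Finset.mul_mem_mul (Finset.mem_inv'.1 ha) hx) e' he'
        simpa [mul_assoc] using this
      · intro S hS
        obtain ⟨R, hR, hcov⟩ := h _ hS
        refine ⟨fun g => S.filter fun r => ∃ a ∈ A, a * r ∈ R g, fun g hg => ?_, fun r hr => ?_⟩
        · obtain ⟨y, hy⟩ := hR g (Finset.mem_insert_of_mem hg)
          refine ⟨y, fun r hr => ?_⟩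
          obtain ⟨a, ha, har⟩ := (Finset.mem_filter.1 hr).2
          obtain ⟨ε, hε, hm⟩ := hy _ har
          refine ⟨a⁻¹ * ε, Finset.mul_mem_mul (Finset.inv_mem_inv ha) hε, ?_⟩
          simpa [mul_assoc] using hm
        · by_contra hno
          apply hn
          obtain ⟨y, hy⟩ := hR g0 (Finset.mem_insert_self _ _)
          refine ⟨r * y, fun a ha => ?_⟩
          obtain ⟨g, hg, hm⟩ := hcov _ (Finset.mul_mem_mul ha hr)
          rcases Finset.mem_insert.1 hg with rfl | hg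
          · obtain ⟨ε, hε, hm⟩ := hy _ hm
            exact ⟨ε, hε, by simpa [mul_assoc] using hm⟩
          · exact (hno ⟨g, hg, Finset.mem_filter.2 ⟨hr, a, ha, hm⟩⟩).elim

/-- K1 -/
theorem k1_cover {Γ : Type} [Finite Γ] {G : Set (Finset Q)} (hG : ClosedFam γ G) (h1 : {1} ∈ G)
    (E : Finset Q) (J : Γ → Set Q)
    (h : ∀ S ∈ G, ∃ R : Γ → Finset Q, (∀ g, FFin E (J g) (R g)) ∧ ∀ r ∈ S, ∃ g, r ∈ R g) :
    ∃ g, KPos γ (J g) := by
  classical
  have := Fintype.ofFinite Γ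
  obtain ⟨g, -, E', -, h'⟩ := k1_gen univ J Finset.univ G E hG h1 (fun _ _ _ _ _ _ => trivial)
    fun S hS => by
      obtain ⟨R, h1, h2⟩ := h S hS
      exact ⟨R, fun g _ => h1 g, fun r hr => (h2 r hr).imp fun g hg => ⟨Finset.mem_univ _, hg⟩⟩
  exact ⟨g, E', h'⟩

theorem KPos.union {H H' : Set Q} (h : KPos γ (H ∪ H')) : KPos γ H ∨ KPos γ H' := by
  classical
  obtain ⟨E, G, hG, hF, h1⟩ := h
  obtain ⟨b, hb⟩ := k1_cover hG h1 E (fun b : Bool => if b then H else H') fun S hS => by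
    obtain ⟨y, hy⟩ := hF S hS
    refine ⟨fun b => S.filter fun r => ∃ ε ∈ E, ε⁻¹ * r * y ∈ (if b then H else H'),
      fun b => ⟨y, fun r hr => (Finset.mem_filter.1 hr).2⟩, fun r hr => ?_⟩
    obtain ⟨ε, hε, hm | hm⟩ := hy r hr
    · exact ⟨true, Finset.mem_filter.2 ⟨hr, ε, hε, hm⟩⟩
    · exact ⟨false, Finset.mem_filter.2 ⟨hr, ε, hε, hm⟩⟩
  cases b
  · exact Or.inr hb
  · exact Or.inl hb

theorem KPos.left {H : Set Q} (h : KPos γ H) (g : Q) : KPos γ {q | g * q ∈ H} := by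
  obtain ⟨E, hE⟩ := h
  refine ⟨E.image (· * g), hE.imp fun S hS => hS.imp fun ε hε =>
    ⟨ε * g, Finset.mem_image_of_mem _ hε, fun q hq => ?_⟩⟩
  simpa [mul_assoc] using hq

theorem KPos.right {H : Set Q} (h : KPos γ H) (g : Q) : KPos γ {q | q * g ∈ H} := by
  obtain ⟨E, hE⟩ := h
  refine ⟨E, hE.imp fun S ⟨y, hy⟩ => ⟨y * g⁻¹, fun r hr => ?_⟩⟩
  obtain ⟨ε, hε, hm⟩ := hy r hr
  exact ⟨ε, hε, by simpa [mul_assoc] using hm⟩

variable (γ) in
/-- the filter of co-null sets -/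
def KF : Filter Q where
  sets := {S | ¬ KPos γ Sᶜ}
  univ_sets := by simpa using not_kpos_empty
  sets_of_superset := fun h e h' => h (h'.mono (compl_subset_compl.2 e))
  inter_sets := fun h h' h'' => by
    rw [compl_inter] at h''
    exact h''.union.elim h h'

theorem mem_KF {S : Set Q} : S ∈ KF γ ↔ ¬ KPos γ Sᶜ := Iff.rfl

theorem freq_KF {H : Q → Prop} : (∃ᶠ q in KF γ, H q) ↔ KPos γ {q | H q} := by
  unfold Filter.Frequently Filter.Eventually
  rw [mem_KF, not_not]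
  have : {x | ¬ H x}ᶜ = {q | H q} := by ext; simp
  rw [this]

theorem KF_left {J : Set Q} (hJ : J ∈ KF γ) (g : Q) : ∀ᶠ q in KF γ, g * q ∈ J := by
  intro h
  refine hJ ((h.left g⁻¹).mono fun q hq => ?_)
  simpa using hq

theorem KF_right {J : Set Q} (hJ : J ∈ KF γ) (g : Q) : ∀ᶠ q in KF γ, q * g ∈ J := by
  intro h
  refine hJ ((h.right g⁻¹).mono fun q hq => ?_)
  simpa using hq

instance KF_neBot : (KF γ).NeBot := ⟨fun h => by
  have : (∅ : Set Q) ∈ KF γ := by rw [h]; trivial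
  exact this (by simpa using kpos_univ)⟩

/-- K2 -/
theorem k2_keep {E S : Finset Q} {H J : Set Q} (h : WFam γ E H S) (hJ : J ∈ KF γ) :
    FFin E (H ∩ J) S := by
  have h1 : ∃ᶠ y in KF γ, ∀ r ∈ S, ∃ ε ∈ E, ε⁻¹ * r * y ∈ H := by
    rw [freq_KF]
    refine ⟨{1}, {S' | S * S' ∈ {S | WFam γ E H S}}, (WFam.closed E H).shift S, fun S' hS' => ?_, ?_⟩
    · obtain ⟨y, hy⟩ := WFam.ffin hS'
      refine ⟨y, fun s hs => ⟨1, Finset.mem_singleton_self _, fun r hr => ?_⟩⟩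
      obtain ⟨ε, hε, hm⟩ := hy _ (Finset.mul_mem_mul hr hs)
      exact ⟨ε, hε, by simpa [mul_assoc] using hm⟩
    · show WFam γ E H (S * {1})
      rwa [mul_one_sing]
  have h2 : ∀ᶠ y in KF γ, ∀ r ∈ S, ∀ ε ∈ E, ε⁻¹ * r * y ∈ J :=
    (eventually_all_finset S).2 fun r _ => (eventually_all_finset E).2 fun ε _ => KF_left hJ _
  obtain ⟨y, hy1, hy2⟩ := (h1.and_eventually h2).exists
  refine ⟨y, fun r hr => ?_⟩
  obtain ⟨ε, hε, hm⟩ := hy1 r hr
  exact ⟨ε, hε, hm, hy2 r hr ε hε⟩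

/-- K3 -/
theorem k3_normal (K : Subgroup Q) [K.Normal]
    (h : ∀ w, ∀ᶠ n in atTop, w⁻¹ * γ 0 n ∉ K) : ∀ᶠ q in KF γ, q ∉ K := by
  classical
  rintro ⟨E, G, hG, hF, h1⟩
  let π : Q →* Q ⧸ K := QuotientGroup.mk' K
  have up : ∀ S ∈ G, (S.image π).card ≤ E.card := by
    intro S hS
    obtain ⟨y, hy⟩ := hF S hS
    refine le_trans (Finset.card_le_card_of_injOn (t := E.image π) (· * π y) ?_ ?_)
      Finset.card_image_le
    · intro a ha
      obtain ⟨r, hr, rfl⟩ := Finset.mem_image.1 (Finset.mem_coe.1 ha)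
      obtain ⟨ε, hε, hm⟩ := hy r hr
      have hm' : ε⁻¹ * (r * y) ∈ K := by simpa [mul_assoc] using hm
      refine Finset.mem_coe.2 (Finset.mem_image.2 ⟨ε, hε, ?_⟩)
      show π ε = π r * π y
      rw [← map_mul]
      exact QuotientGroup.eq.2 hm'
    · intro a _ b _ hab
      exact mul_right_cancel hab
  have grow : ∀ m, ∃ S ∈ G, (1 : Q) ∈ S ∧ m ≤ (S.image π).card := by
    intro m
    induction m with
    | zero => exact ⟨_, h1, Finset.mem_singleton_self _, Nat.zero_le _⟩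
    | succ m ih =>
      obtain ⟨S, hS, hone, hm⟩ := ih
      obtain ⟨n, hn1, hn2⟩ :=
        ((hG S hS 1 0).and ((eventually_all_finset S).2 fun w _ => h w)).exists
      have hsub : S ⊆ S * {1, route γ 1 0 n} := fun x hx =>
        Finset.mem_mul.2 ⟨x, hx, 1, Finset.mem_insert_self _ _, mul_one _⟩
      refine ⟨_, hn1, hsub hone, lt_of_le_of_lt hm (Finset.card_lt_card ⟨Finset.image_subset_image hsub, ?_⟩)⟩
      intro hle
      have hc : γ 0 n ∈ S * {1, route γ 1 0 n} :=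
        Finset.mem_mul.2 ⟨1, hone, route γ 1 0 n, by simp, by simp [route]⟩
      obtain ⟨w, hw, e⟩ := Finset.mem_image.1 (hle (Finset.mem_image_of_mem π hc))
      exact hn2 w hw (QuotientGroup.eq.1 e)
  obtain ⟨S, hS, -, hm⟩ := grow (E.card + 1)
  have := up S hS
  omega

theorem k3_finite (h : Function.Injective (γ 0)) {s : Set Q} (hs : s.Finite) :
    ∀ᶠ q in KF γ, q ∉ s := by
  have h1 : ∀ᶠ q in KF γ, q ∉ (⊥ : Subgroup Q) := k3_normal ⊥ fun w => by
    have : ∀ᶠ n in cofinite, γ 0 n ≠ w := by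
      refine eventually_cofinite.2 ((Set.finite_singleton w).preimage h.injOn |>.subset ?_)
      intro n hn
      simpa using hn
    rw [Nat.cofinite_eq_atTop] at this
    refine this.mono fun n hn hm => hn ?_
    rw [Subgroup.mem_bot, inv_mul_eq_one] at hm
    exact hm.symm
  have h2 : ∀ᶠ q in KF γ, ∀ a ∈ s, q ≠ a := (eventually_all_finite hs).2 fun a _ =>
    (KF_left h1 a⁻¹).mono fun q hq e => hq (by simp [e])
  exact h2.mono fun q hq hm => hq q hm rfl

/-- K4 -/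
theorem k4_deriv {W0 J : Set Q} (h : KPos γ W0) (c : ℕ → Q)
    (hc : ∀ x ∈ W0, ∀ᶠ l in atTop, x * c l ∈ J) : KPos γ J := by
  obtain ⟨E, hE⟩ := h
  refine ⟨E, hE.imp fun S ⟨y, hy⟩ => ?_⟩
  have : ∀ᶠ l in atTop, ∀ r ∈ S, ∃ ε ∈ E, ε⁻¹ * r * (y * c l) ∈ J :=
    (eventually_all_finset S).2 fun r hr => by
      obtain ⟨ε, hε, hm⟩ := hy r hr
      exact (hc _ hm).mono fun l hl => ⟨ε, hε, by simpa [mul_assoc] using hl⟩
  obtain ⟨l, hl⟩ := this.exists
  exact ⟨_, hl⟩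

theorem closed_sub {U : Set Q} (h : ∀ u ∈ U, ∀ g c, ∀ᶠ n in atTop, u * route γ g c n ∈ U) :
    ClosedFam γ {S | ∀ x ∈ S, x ∈ U} := by
  intro S hS g c
  refine ((eventually_all_finset S).2 fun u hu => h u (hS u hu) g c).mono fun n hn x hx => ?_
  rcases mem_mul_pair hx with hx | ⟨s, hs, rfl⟩
  · exact hS x hx
  · exact hn s hs

/-- K5 -/
theorem k5_open {U : Set Q} (h1 : (1 : Q) ∈ U)
    (h : ∀ u ∈ U, ∀ g c, ∀ᶠ n in atTop, u * route γ g c n ∈ U) : KPos γ U := by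
  refine ⟨{1}, _, closed_sub h, fun S hS => ⟨1, fun r hr => ⟨1, Finset.mem_singleton_self _, ?_⟩⟩,
    fun x hx => by rwa [Finset.mem_singleton.1 hx]⟩
  simpa using hS r hr

theorem WFam.conj {E : Finset Q} {H : Set Q} (h : WFam γ E H {1}) (g : Q) :
    WFam γ (E.image (g * ·)) H {1} := by
  obtain ⟨G, hG, hF, h1⟩ := h
  refine ⟨{S | S.image (MulAut.conj g⁻¹) ∈ G}, fun S hS k c => ?_, fun S hS => ?_, by simpa using h1⟩
  · refine (hG _ hS (g⁻¹ * k) c).mono fun n hn => ?_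
    show Finset.image _ _ ∈ G
    rw [Finset.image_mul]
    have : Finset.image (MulAut.conj g⁻¹) {1, route γ k c n} = {1, route γ (g⁻¹ * k) c n} := by
      simp [Finset.image_insert, route, mul_assoc]
    rwa [this]
  · obtain ⟨y, hy⟩ := hF _ hS
    refine ⟨g * y, fun r hr => ?_⟩
    obtain ⟨ε, hε, hm⟩ := hy _ (Finset.mem_image_of_mem _ hr)
    exact ⟨g * ε, Finset.mem_image_of_mem _ hε, by simpa [mul_assoc] using hm⟩

/-- K6 -/
theorem k6_small {H W0 : Set Q} (hH : KPos γ H) (h1 : (1 : Q) ∈ W0)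
    (h : ∀ u ∈ W0, ∀ g c, ∀ᶠ n in atTop, (route γ g c n)⁻¹ * u ∈ W0) :
    ∃ E : Finset Q, (↑E : Set Q) ⊆ W0 ∧ WFam γ E H {1} := by
  classical
  obtain ⟨E0, G, hG, hF, hG1⟩ := hH
  let W1 : Set Q := {u | ∀ ε ∈ E0, ε⁻¹ * u * ε ∈ W0}
  have hU : ClosedFam γ {S | ∀ x ∈ S, x ∈ {x : Q | x⁻¹ ∈ W1}} := closed_sub fun u hu g c => by
    refine ((eventually_all_finset E0).2 fun ε hε => h _ (hu ε hε) (ε⁻¹ * g) c).mono
      fun n hn ε hε => ?_
    simpa [route, mul_assoc] using hn ε hε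
  obtain ⟨ε, hε, E', hE', hW⟩ := k1_gen (γ := γ) W1 (fun ε : Q => {q | ε⁻¹ * q ∈ H}) E0
    (G ∩ {S | ∀ x ∈ S, x ∈ {x : Q | x⁻¹ ∈ W1}}) {1}
    (fun S hS g c => (hG S hS.1 g c).and (hU S hS.2 g c))
    ⟨hG1, fun x hx ε _ => by simpa [Finset.mem_singleton.1 hx] using h1⟩
    (fun S hS x hx e he => by simpa [Finset.mem_singleton.1 he] using hS.2 x hx)
    fun S hS => by
      obtain ⟨y, hy⟩ := hF S hS.1
      refine ⟨fun ε => S.filter fun r => ε⁻¹ * r * y ∈ H, fun ε _ => ⟨y, fun r hr =>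
        ⟨1, Finset.mem_singleton_self _, ?_⟩⟩, fun r hr => ?_⟩
      · simpa [mul_assoc] using (Finset.mem_filter.1 hr).2
      · obtain ⟨ε, hε, hm⟩ := hy r hr
        exact ⟨ε, hε, Finset.mem_filter.2 ⟨hr, hm⟩⟩
  refine ⟨E'.image fun e => ε⁻¹ * e * ε, fun x hx => ?_,
    (hW.conj ε⁻¹).imp fun S hS => hS.imp fun a ha => ?_⟩
  · obtain ⟨e, he, rfl⟩ := Finset.mem_image.1 (Finset.mem_coe.1 hx)
    exact hE' (Finset.mem_coe.2 he) ε hε
  · obtain ⟨e, he, rfl⟩ := Finset.mem_image.1 ha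
    exact ⟨_, Finset.mem_image_of_mem _ he, fun q hq => by simpa [mul_assoc] using hq⟩

end

end Pool.Agent.MP_e30343_lc.SO

end

-- part MP_e30343_lc.SO.Tpl
section

/-! Templates, conditions, the filter of conull sets (section 2, definitions). -/

open Filter Set

namespace Pool.Agent.MP_e30343_lc.SO

/-- templates -/
structure Tpl : Type 1 where
  ι : Type
  lo : LinearOrder ι
  wf : @WellFoundedLT ι lo.toLT
  ne : Nonempty ι
  isK : ι → Prop
  supp : ι → Set ι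
  supp_c : ∀ n, (supp n).Countable
  supp_lt : ∀ n, ∀ m ∈ supp n, lo.lt m n
  supp_cl : ∀ n, ∀ m ∈ supp n, supp m ⊆ supp n
  dm : ι → (ι → ℕ → L) → ℕ → Obj → Prop
  dm_md : ∀ n i o, MD (supp n) fun x => dm n x i o
  dm_card : ∀ n x i o, dm n x i o → o.2.card ≤ 2 ^ i
  dm_far : ∀ n x i k, ∃ o, dm n x i o ∧ far k o

namespace Tpl

instance (T : Tpl) : LinearOrder T.ι := T.lo
instance (T : Tpl) : WellFoundedLT T.ι := T.wf
instance (T : Tpl) : Nonempty T.ι := T.ne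

variable (T : Tpl)

/-- points -/
abbrev X : Type := T.ι → ℕ → L

/-- sets of nodes closed under supports -/
def Clo (B : Set T.ι) : Prop := ∀ n ∈ B, T.supp n ⊆ B

/-- closure of a set of nodes -/
def clo (B : Set T.ι) : Set T.ι := B ∪ ⋃ n ∈ B, T.supp n

/-- goodness at the node `a` (no demand at nodes of kind K) -/
def gd (a : T.ι) (y : ℕ → L) (D : ℕ) (o : Obj) : Prop := T.isK a ∨ good y D o

/-- goodness at all nodes of a finite set -/
def GoodP (π : Finset T.ι) (D : ℕ) (x : T.X) (o : Obj) : Prop := ∀ a ∈ π, T.gd a (x a) D o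

/-- basic sets of the filter at a node of kind Y -/
def Bas (n : T.ι) (x : T.X) (i : ℕ) (π : Finset T.ι) (k : ℕ) (e : L) : Prop :=
  T.dm n x i e.ob ∧ far k e.ob ∧ T.GoodP π k x e.ob

open Classical in
/-- the filter on letters at node `n`, point `x`, level `i`, with side nodes from `P` -/
noncomputable def FF (P : Set T.ι) (n : T.ι) (x : T.X) (i : ℕ) : Filter L :=
  if T.isK n then KF gen
  else ⨅ (π : Finset T.ι) (_ : ↑π ⊆ P) (k : ℕ), 𝓟 {e | T.Bas n x i π k e}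

/-- successor-set functions -/
abbrev Suc : Type := T.X → List L → Set L

/-- `S` is valid at `n` over `B` -/
def VS (B : Set T.ι) (n : T.ι) (S : T.Suc) : Prop :=
  (∀ τ e, MD (B ∩ Iio n) fun x => e ∈ S x τ) ∧
    ∃ P : Set T.ι, P.Countable ∧ P ⊆ (B ∩ Iio n) \ T.supp n ∧ ∀ x τ, S x τ ∈ T.FF P n x τ.length

/-- conditions -/
structure Cond : Type where
  dom : Finset T.ι
  st : T.ι → List L
  S : T.ι → T.Suc

end Tpl

/-- `y` is a branch of the tree with stem `τ` and successor sets `S` -/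
def Br (τ : List L) (S : List L → Set L) (y : ℕ → L) : Prop :=
  pre y τ.length = τ ∧ ∀ i, τ.length ≤ i → y i ∈ S (pre y i)

/-- `ρ` is a node of the tree above the stem -/
def InT (τ : List L) (S : List L → Set L) (ρ : List L) : Prop :=
  τ <+: ρ ∧ ∀ σ e, τ <+: σ → σ ++ [e] <+: ρ → e ∈ S σ

namespace Tpl

variable {T : Tpl}

/-- valid conditions over `B` -/
def Val (B : Set T.ι) (p : T.Cond) : Prop := ↑p.dom ⊆ B ∧ ∀ n ∈ p.dom, T.VS B n (p.S n)

/-- the set of points of a condition -/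
def Sem (p : T.Cond) (x : T.X) : Prop := ∀ n ∈ p.dom, Br (p.st n) (p.S n x) (x n)

open Classical in
/-- restriction of a condition -/
noncomputable def Cond.res (p : T.Cond) (c : Set T.ι) : T.Cond :=
  ⟨p.dom.filter (· ∈ c), p.st, p.S⟩

/-- the order, relative to filters `l n` for the parts below `n` -/
def LeW (l : T.ι → Filter T.X) (q p : T.Cond) : Prop :=
  p.dom ⊆ q.dom ∧ ∀ n ∈ p.dom, (∀ x τ, q.S n x τ ⊆ p.S n x τ) ∧ p.st n <+: q.st n ∧
    ∀ᶠ x in l n, Sem (q.res (Iio n)) x → InT (p.st n) (p.S n x) (q.st n)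

/-- predense families -/
def PreD (B : Set T.ι) (l : T.ι → Filter T.X) (A : Set T.Cond) : Prop :=
  (∀ p ∈ A, Val B p) ∧ ∀ q, Val B q → ∃ p ∈ A, ∃ r, Val B r ∧ LeW l r p ∧ LeW l r q

/-- the filter generated by the unions of countable predense families -/
def genF (B : Set T.ι) (l : T.ι → Filter T.X) : Filter T.X :=
  countableGenerate {Z | ∃ A : Set T.Cond, A.Countable ∧ PreD B l A ∧ Z = {x | ∃ p ∈ A, Sem p x}}

open Classical in
/-- the filter for `B ∩ Iio n`, by recursion on `n` -/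
noncomputable def aeAt (B : Set T.ι) : T.ι → Filter T.X :=
  (wellFounded_lt (α := T.ι)).fix fun n ih =>
    genF (B ∩ Iio n) fun m => if h : m < n then ih m h else ⊤

variable (T) in
/-- the filter of conull sets for the forcing on `B` -/
noncomputable def ae (B : Set T.ι) : Filter T.X := genF B (aeAt B)

variable (T) in
/-- the filter of conull sets for the whole template -/
noncomputable def μ : Filter T.X := T.ae univ

instance (B : Set T.ι) : CountableInterFilter (T.ae B) := by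
  unfold ae genF; infer_instance

instance : CountableInterFilter T.μ := by
  unfold μ; infer_instance

/-- the order used after section 2 -/
def Le (q p : T.Cond) : Prop := LeW (fun _ => T.μ) q p

end Tpl

/-- levelwise twist of a word -/
noncomputable def twW (g : ℕ → Aut) (τ : List L) : List L := τ.mapIdx fun i a => twL (g i) a

/-- morphisms of templates, defined on `B` -/
structure Mor (T : Tpl) (B : Set T.ι) (T' : Tpl) : Type where
  h : T.ι → T'.ι
  tw : T.ι → ℕ → Aut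
  mono : StrictMonoOn h B
  isK : ∀ n ∈ B, T'.isK (h n) ↔ T.isK n
  supp : ∀ n ∈ B, T'.supp (h n) = h '' T.supp n
  dm : ∀ n ∈ B, ∀ (x : T'.X) i o,
    T'.dm (h n) x i o ↔ T.dm n (fun m j => twL (tw m j) (x (h m) j)) i o
  twK : ∀ n ∈ B, T.isK n → ∀ i, tw n i = LinearEquiv.refl _ _
  twE : ∀ n ∈ B, ∃ i0 D0, ∀ i, i0 ≤ i → tw n i = tw n i0 ∧ Pres (tw n i0) D0

namespace Mor

variable {T T' T'' : Tpl} {B : Set T.ι}

/-- pull back of points -/
noncomputable def pull (M : Mor T B T') (x : T'.X) : T.X := fun m j => twL (M.tw m j) (x (M.h m) j)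

/-- untwisted at `n` -/
def Unt (M : Mor T B T') (n : T.ι) : Prop := ∀ i, M.tw n i = LinearEquiv.refl _ _

/-- restriction -/
def res (M : Mor T B T') {B' : Set T.ι} (e : B' ⊆ B) : Mor T B' T' where
  h := M.h
  tw := M.tw
  mono := M.mono.mono e
  isK n hn := M.isK n (e hn)
  supp n hn := M.supp n (e hn)
  dm n hn := M.dm n (e hn)
  twK n hn := M.twK n (e hn)
  twE n hn := M.twE n (e hn)

end Mor

/-- finitely many copies of `(T, c)` in one template, agreeing on `C` -/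
structure Ext (T : Tpl) (c C : Set T.ι) (Γ : Type) : Type 1 where
  T' : Tpl
  M : Γ → Mor T c T'
  agree : ∀ g g', ∀ n ∈ C ∩ c, (M g).h n = (M g').h n ∧ (M g).tw n = (M g').tw n

end Pool.Agent.MP_e30343_lc.SO

end
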