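import Pool.Agent.MP_e30343_lc.SO.Base
import Pool.Agent.MP_e30343_lc.Mg.SO_Tpl
import Pool.Agent.MP_e30343_lc.SO.MDl

-- part MP_e30343_lc.SO.Vec
section

/-! Elementary facts on vectors, objects, words, linked families and on `MD`. -/

open Filter Set

namespace Pool.Agent.MP_e30343_lc.SO

theorem W_anti {k k' : ℕ} (h : k ≤ k') : W k' ≤ W k := fun _ hv j hj => hv j (hj.trans_le h)

theorem far.mono {k k' : ℕ} {o : Obj} (h : far k' o) (e : k ≤ k') : far k o :=
  ⟨W_anti e h.1, fun z hz => e.trans (h.2 z hz)⟩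

theorem far_o0 (k : ℕ) : far k o0 := ⟨zero_mem _, by simp [o0]⟩

theorem far_iff_tr {k : ℕ} {o : Obj} : far k o ↔ tr k o = o0 := by
  simp only [far, tr, o0, Prod.mk.injEq, mem_W, Finsupp.filter_eq_zero_iff,
    Finset.filter_eq_empty_iff, not_lt]

theorem tr_tr {k k' : ℕ} (h : k ≤ k') (o : Obj) : tr k (tr k' o) = tr k o := by
  refine Prod.ext (Finsupp.ext fun j => ?_) (Finset.ext fun j => ?_)
  · simp only [tr, Finsupp.filter_apply]
    split_ifs <;> first | rfl | omega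
  · simp only [tr, Finset.mem_filter, and_assoc]
    exact and_congr_right fun _ => by omega

theorem tr_tr' {k k' : ℕ} (h : k ≤ k') (o : Obj) : tr k' (tr k o) = tr k o := by
  refine Prod.ext (Finsupp.ext fun j => ?_) (Finset.ext fun j => ?_)
  · simp only [tr, Finsupp.filter_apply]
    split_ifs <;> first | rfl | omega
  · simp only [tr, Finset.mem_filter, and_assoc]
    exact and_congr_right fun _ => by omega

theorem tr_card (k : ℕ) (o : Obj) : (tr k o).2.card ≤ o.2.card := Finset.card_filter_le _ _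

theorem tr_fix {k : ℕ} {o : Obj} (h : tr k o = o) :
    (∀ j, o.1 j ≠ 0 → j < k) ∧ ∀ z ∈ o.2, z < k :=
  ⟨fun j hj => by_contra fun n => hj (by rw [← h]; simp [tr, n]),
    fun z hz => (Finset.mem_filter.1 (show z ∈ (tr k o).2 by rwa [h])).2⟩

theorem finite_tr (k : ℕ) : {o : Obj | tr k o = o}.Finite := by
  refine Set.Finite.of_finite_image
    (f := fun o : Obj => ((fun j : Fin k => o.1 j), fun j : Fin k => j.1 ∈ o.2)) (Set.toFinite _) ?_
  intro o ho o' ho' h
  obtain ⟨h1, h2⟩ := Prod.mk.inj h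
  obtain ⟨a, b⟩ := tr_fix ho
  obtain ⟨a', b'⟩ := tr_fix ho'
  refine Prod.ext (Finsupp.ext fun j => ?_) (Finset.ext fun j => ?_)
  · by_cases hj : j < k
    · exact congrFun h1 ⟨j, hj⟩
    · rw [not_not.1 (mt (a j) hj), not_not.1 (mt (a' j) hj)]
  · exact ⟨fun e => (congrFun h2 ⟨j, b j e⟩).mp e, fun e => (congrFun h2 ⟨j, b' j e⟩).mpr e⟩

theorem good.mono {y : ℕ → L} {D D' : ℕ} {o : Obj} (h : good y D' o) (e : D ≤ D') : good y D o :=
  ⟨W_anti e h.1, fun z hz => W_anti e (h.2 z hz)⟩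

theorem good_zero (y : ℕ → L) (o : Obj) : good y 0 o :=
  ⟨fun _ h => absurd h (Nat.not_lt_zero _), fun _ _ _ h => absurd h (Nat.not_lt_zero _)⟩

theorem good_o0 (y : ℕ → L) (D : ℕ) : good y D o0 := by
  simp [good, o0, eta]

theorem eta_add (y : ℕ → L) (t t' : V) : eta y (t + t') = eta y t + eta y t' :=
  Finsupp.sum_add_index' (fun _ => zero_smul _ _) fun _ _ _ => add_smul _ _ _

theorem length_pre (y : ℕ → L) (i : ℕ) : (pre y i).length = i := List.length_ofFn

theorem pre_succ (y : ℕ → L) (i : ℕ) : pre y (i + 1) = pre y i ++ [y i] := by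
  rw [pre, List.ofFn_succ_last]
  rfl

theorem pre_le (y : ℕ → L) {i j : ℕ} (h : i ≤ j) : pre y i <+: pre y j := by
  induction j, h using Nat.le_induction with
  | base => exact List.prefix_rfl
  | succ j _ ih => exact pre_succ y j ▸ ih.trans (List.prefix_append _ _)

theorem ofL_pre (y : ℕ → L) (n i : ℕ) : ofL (pre y n) i = if i < n then y i else L.z := by
  split_ifs with h <;> simp [ofL, pre, h, List.getD_eq_getElem?_getD]

theorem psi_zero {y : ℕ → L} {z : ℕ} (h : ∀ i, z ∉ (y i).u) : psi y z = 0 :=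
  Finset.sum_eq_zero fun i hi => absurd (Finset.mem_filter.1 hi).2 (h i)

theorem nu_zero {y : ℕ → L} {z : ℕ} (h : ∀ i, (y i).t z = 0) : nu y z = 0 :=
  Finset.sum_eq_zero fun i _ => by rw [h i, zero_smul]

theorem eta_zero {y : ℕ → L} {t : V} (h : ∀ z, t z ≠ 0 → psi y z = 0) : eta y t = 0 :=
  Finset.sum_eq_zero fun z hz => by
    show t z • psi y z = 0
    rw [h z (Finsupp.mem_support_iff.1 hz), smul_zero]

theorem lt_bnd {τ : List L} (i z : ℕ) (h : (ofL τ i).t z ≠ 0 ∨ z ∈ (ofL τ i).u) : z < bnd τ := by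
  by_cases hi : i < τ.length
  · rw [ofL, List.getD_eq_getElem _ _ hi] at h
    refine lt_of_lt_of_le ?_ (List.le_max_of_le (List.mem_map_of_mem (List.getElem_mem hi)) le_rfl)
    rw [lt_max_iff]
    exact h.imp (fun h => Finset.le_sup (f := (· + 1)) (Finsupp.mem_support_iff.2 h))
      fun h => Finset.le_sup (f := (· + 1)) h
  · rw [ofL, List.getD_eq_default _ _ (not_lt.1 hi)] at h
    simp [L.z] at h

/-- the low part sees only the truncation -/
theorem good_ofL_tr {τ : List L} {k D : ℕ} (h : bnd τ ≤ k) (o : Obj) :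
    good (ofL τ) D o ↔ good (ofL τ) D (tr k o) := by
  have e : eta (ofL τ) o.1 = eta (ofL τ) (tr k o).1 := by
    conv_lhs => rw [← Finsupp.filter_add_filter_not o.1 (· < k), eta_add]
    refine add_eq_left.2 (eta_zero fun z hz => psi_zero fun i hi => hz ?_)
    exact Finsupp.filter_apply_neg _ _ (not_not.2 ((lt_bnd i z (Or.inr hi)).trans_le h))
  refine and_congr (by rw [e]) ⟨fun H z hz => H z (Finset.mem_filter.1 hz).1, fun H z hz => ?_⟩
  by_cases hk : z < k
  · exact H z (Finset.mem_filter.2 ⟨hz, hk⟩)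
  · rw [nu_zero fun i => by_contra fun n => hk ((lt_bnd i z (Or.inl n)).trans_le h)]
    exact zero_mem _

theorem psi_split (y : ℕ → L) (n z : ℕ) :
    psi y z = psi (ofL (pre y n)) z + psi (cutHi n y) z := by
  simp only [psi, Finset.sum_filter, ← Finset.sum_add_distrib, ofL_pre, cutHi]
  refine Finset.sum_congr rfl fun i _ => ?_
  by_cases h : i < n <;> simp [h, L.z]

theorem nu_split (y : ℕ → L) (n z : ℕ) : nu y z = nu (ofL (pre y n)) z + nu (cutHi n y) z := by
  simp only [nu, ← Finset.sum_add_distrib, ofL_pre, cutHi]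
  refine Finset.sum_congr rfl fun i _ => ?_
  by_cases h : i < n <;> simp [h, L.z]

theorem eta_split (y : ℕ → L) (n : ℕ) (t : V) :
    eta y t = eta (ofL (pre y n)) t + eta (cutHi n y) t := by
  simp only [eta, Finsupp.sum, ← Finset.sum_add_distrib, psi_split y n, smul_add]

/-- if the high part is good, goodness is decided by the stem -/
theorem good_split {y : ℕ → L} {n D : ℕ} {o : Obj} (h : good (cutHi n y) D o) :
    good y D o ↔ good (ofL (pre y n)) D o := by
  refine and_congr ?_ (forall₂_congr fun z hz => ?_)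
  · rw [eta_split y n, Submodule.add_mem_iff_left _ h.1]
  · rw [nu_split y n, Submodule.add_mem_iff_left _ (h.2 z hz)]

/-- far letters do not see an object of small depth -/
theorem good_cutHi {y : ℕ → L} {n k : ℕ} (h : ∀ i, n ≤ i → far k (y i).ob) (D : ℕ) {o : Obj}
    (ho : tr k o = o) : good (cutHi n y) D o := by
  obtain ⟨a, b⟩ := tr_fix ho
  have H : ∀ i, far k (cutHi n y i).ob := fun i => by
    unfold cutHi
    split_ifs with hi
    exacts [far_o0 k, h i (not_lt.1 hi)]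
  refine ⟨?_, fun z hz => ?_⟩
  · rw [eta_zero fun z hz => psi_zero fun i hi => (a z hz).not_ge ((H i).2 z hi)]
    exact zero_mem _
  · rw [nu_zero fun i => (H i).1 z (b z hz)]
    exact zero_mem _

theorem psi_tw (g : Aut) (y : ℕ → L) (z : ℕ) : psi (fun i => twL g (y i)) z = g (psi y z) := by
  simp only [psi, twL, map_sum]

theorem nu_tw (g : Aut) (y : ℕ → L) (z : ℕ) : nu (fun i => twL g (y i)) z = g (nu y z) := by
  simp only [nu, twL, map_sum, map_smul]

theorem eta_tw (g : Aut) (y : ℕ → L) (t : V) : eta (fun i => twL g (y i)) t = g (eta y t) := by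
  simp only [eta, Finsupp.sum, psi_tw, map_sum, map_smul]

theorem good_tw (g : Aut) (y : ℕ → L) (D : ℕ) (o : Obj) : good (fun i => twL g (y i)) D o ↔
    g (eta y o.1) ∈ W D ∧ ∀ z ∈ o.2, g (nu y z) ∈ W D := by
  simp only [good, eta_tw, nu_tw]

/-- a twist that is constant from level `n` on -/
theorem good_cutHi_tw {y : ℕ → L} {g : ℕ → Aut} {n D0 D : ℕ} (h : ∀ i, n ≤ i → g i = g n)
    (hp : Pres (g n) D0) (hD : D0 ≤ D) (o : Obj) :
    good (cutHi n fun i => twL (g i) (y i)) D o ↔ good (cutHi n y) D o := by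
  have e : (cutHi n fun i => twL (g i) (y i)) = fun i => twL (g n) (cutHi n y i) := by
    funext i
    unfold cutHi
    split_ifs with hi
    · simp [twL, L.z]
    · exact congrArg (twL · _) (h i (not_lt.1 hi))
  simp only [e, good, eta_tw, nu_tw, hp D hD]

theorem vec_self (v : V) : v + v = 0 := by
  ext j; simp only [Finsupp.coe_add, Pi.add_apply, CharTwo.add_self_eq_zero, Finsupp.coe_zero, Pi.zero_apply]

theorem vec_cases (a : ZMod 2) : a = 0 ∨ a = 1 := by
  revert a; decide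

/-- automorphisms acting on the first `D` coordinates only -/
def GLs (D : ℕ) : Set (Aut) := {g | (∀ v ∈ W D, g v = v) ∧ ∀ v j, D ≤ j → g v j = v j}

theorem GLs_mono {D D' : ℕ} (h : D ≤ D') : GLs D ⊆ GLs D' :=
  fun _ hg => ⟨fun v hv => hg.1 v (W_anti h hv), fun v j hj => hg.2 v j (h.trans hj)⟩

theorem refl_mem_GLs (D : ℕ) : LinearEquiv.refl (ZMod 2) V ∈ GLs D := ⟨fun _ _ => rfl, fun _ _ _ => rfl⟩

theorem trans_mem_GLs {D : ℕ} {g h : Aut} (hg : g ∈ GLs D) (hh : h ∈ GLs D) :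
    g.trans h ∈ GLs D :=
  ⟨fun v hv => by simp [hg.1 v hv, hh.1 v hv], fun v j hj => by simp [hh.2 _ j hj, hg.2 v j hj]⟩

theorem GLs_pres {D D' : ℕ} {g : Aut} (hg : g ∈ GLs D) (h : D ≤ D') (v : V) :
    g v ∈ W D' ↔ v ∈ W D' := by
  constructor
  · intro hv
    have : g v = v := g.injective (hg.1 _ (W_anti h hv))
    rwa [this] at hv
  · intro hv
    rwa [hg.1 v (W_anti h hv)]

theorem finite_GLs (D : ℕ) : (GLs D).Finite := by
  let f : (Aut) → Fin D → Fin D → (ZMod 2) := fun g i j => g (Finsupp.single i 1) j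
  refine Set.Finite.of_finite_image (f := f) (Set.toFinite _) ?_
  intro g hg g' hg' h
  refine LinearEquiv.toLinearMap_injective ?_
  refine Finsupp.lhom_ext' fun i => LinearMap.ext_ring ?_
  simp only [LinearMap.comp_apply, Finsupp.lsingle_apply, LinearEquiv.coe_coe]
  by_cases hi : i < D
  · ext j
    by_cases hj : j < D
    · exact congrFun (congrFun h ⟨i, hi⟩) ⟨j, hj⟩
    · rw [hg.2 _ j (by omega), hg'.2 _ j (by omega)]
  · have : (Finsupp.single i 1 : V) ∈ W D := fun j hj => by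
      rw [Finsupp.single_apply, if_neg (by omega)]
    rw [hg.1 _ this, hg'.1 _ this]

/-- transvection `w ↦ w + w j • p` -/
noncomputable def tvec (j : ℕ) (p : V) (hp : p j = 0) : Aut :=
  LinearEquiv.ofInvolutive (LinearMap.id + (Finsupp.lapply j).smulRight p) (by
    intro w
    simp only [LinearMap.add_apply, LinearMap.id_apply, LinearMap.smulRight_apply,
      Finsupp.lapply_apply, Finsupp.add_apply, Finsupp.smul_apply, hp, smul_zero, add_zero]
    rw [add_assoc, vec_self, add_zero])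

theorem tvec_apply (j : ℕ) (p : V) (hp : p j = 0) (w : V) : tvec j p hp w = w + w j • p := rfl

theorem tvec_mem {D j : ℕ} {p : V} (hp : p j = 0) (hj : j < D) (hb : ∀ j, D ≤ j → p j = 0) :
    tvec j p hp ∈ GLs D :=
  ⟨fun v hv => by rw [tvec_apply, hv j hj, zero_smul, add_zero],
   fun v i hi => by simp only [tvec_apply, Finsupp.coe_add, Finsupp.coe_smul, Pi.add_apply, Pi.smul_apply, hb i hi, smul_eq_mul, mul_zero, add_zero]⟩

theorem exists_gl_one (D : ℕ) (v : V) : ∃ g ∈ GLs (D + 1), g v ∈ W D := by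
  have key : ∀ v : V, v D = 1 → ∃ g ∈ GLs (D + 1), g v ∈ W D := by
    intro v hv
    have hp : (v.filter (· < D)) D = 0 := by simp
    refine ⟨tvec D _ hp, tvec_mem hp (by omega) fun j hj => ?_, fun j hj => ?_⟩
    · rw [Finsupp.filter_apply, if_neg (by omega)]
    · simp only [tvec_apply, hv, one_smul, Finsupp.coe_add, Pi.add_apply, hj, Finsupp.filter_apply_pos, CharTwo.add_self_eq_zero]
  by_cases h : v ∈ W D
  · exact ⟨_, refl_mem_GLs _, h⟩
  rcases vec_cases (v D) with h0 | h1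
  · obtain ⟨j, hj, hvj⟩ : ∃ j < D, v j = 1 := by
      by_contra hc
      refine h fun j hj => ?_
      rcases vec_cases (v j) with h' | h'
      · exact h'
      · exact absurd ⟨j, hj, h'⟩ hc
    have hp : (Finsupp.single D 1 : V) j = 0 := by
      rw [Finsupp.single_apply, if_neg (by omega)]
    obtain ⟨g, hg, hgv⟩ := key (tvec j _ hp v) (by simp [tvec_apply, h0, hvj])
    refine ⟨(tvec j _ hp).trans g, trans_mem_GLs (tvec_mem hp (by omega) fun i hi => ?_) hg, hgv⟩
    rw [Finsupp.single_apply, if_neg (by omega)]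
  · exact key v h1

/-- any `r` vectors are moved into `W D` by a member of `GLs (D + r)` -/
theorem exists_gl (r : ℕ) : ∀ (D : ℕ) (s : Finset V), s.card ≤ r →
    ∃ g ∈ GLs (D + r), ∀ v ∈ s, g v ∈ W D := by
  classical
  induction r with
  | zero =>
    intro D s hs
    refine ⟨_, refl_mem_GLs _, fun v hv => ?_⟩
    rw [Finset.card_eq_zero.1 (Nat.le_zero.1 hs)] at hv
    simp at hv
  | succ r ih =>
    intro D s hs
    rcases s.eq_empty_or_nonempty with rfl | ⟨w, hw⟩
    · exact ⟨_, refl_mem_GLs _, by simp⟩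
    obtain ⟨g, hg, hgs⟩ := ih (D + 1) (s.erase w) (by rw [Finset.card_erase_of_mem hw]; omega)
    obtain ⟨h, hh, hhw⟩ := exists_gl_one D (g w)
    refine ⟨g.trans h, trans_mem_GLs (GLs_mono (by omega) hg) (GLs_mono (by omega) hh),
      fun v hv => ?_⟩
    by_cases hvw : v = w
    · subst hvw; exact hhw
    · have := hgs v (Finset.mem_erase.2 ⟨hvw, hv⟩)
      rw [LinearEquiv.trans_apply, hh.1 _ this]
      exact W_anti (by omega) this

/-- finitely many automorphisms move any `N` vectors into `W D` -/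
theorem gl_lemma (D N : ℕ) : ∃ (Γ : Type) (_ : Fintype Γ) (a : Γ → Aut) (D0 : ℕ),
    (∀ g, Pres (a g) D0) ∧ ∀ s : Finset V, s.card ≤ N → ∃ g, ∀ v ∈ s, a g v ∈ W D :=
  ⟨GLs (D + N), (finite_GLs _).fintype, Subtype.val, D + N, fun g _ h => GLs_pres g.2 h,
    fun s hs => (exists_gl N D s hs).elim fun g hg => ⟨⟨g, hg.1⟩, hg.2⟩⟩

/-- the twist lemma in the form used by the basic copy -/
theorem gl_linked (D N m n : ℕ) : ∃ (Γ : Type) (_ : Fintype Γ) (a : Γ → Aut) (D0 : ℕ)
    (GG : Set (Set Γ)), (∀ g, Pres (a g) D0) ∧ IsUpperSet GG ∧ Linked n GG ∧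
    ∀ (y : ℕ → L) (κ : Type) [Fintype κ], Fintype.card κ ≤ N → ∀ o : κ → Obj,
      (∀ j, (o j).2.card ≤ m) → {g | ∀ j, good (fun i => twL (a g) (y i)) D (o j)} ∈ GG := by
  classical
  obtain ⟨Γ, i, a, D0, h1, h2⟩ := gl_lemma D (n * (N * (m + 1)))
  refine ⟨Γ, i, a, D0, {A | ∃ s : Finset V, s.card ≤ N * (m + 1) ∧
    ∀ g, (∀ v ∈ s, a g v ∈ W D) → g ∈ A}, h1, fun A B hAB ⟨s, hs, hA⟩ =>
      ⟨s, hs, fun g hg => hAB (hA g hg)⟩, fun κ _ hκ G hG => ?_, fun y κ _ hκ o ho => ?_⟩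
  · choose s hs hA using hG
    obtain ⟨g, hg⟩ := h2 (Finset.univ.biUnion s)
      ((Finset.card_biUnion_le_card_mul _ _ _ fun j _ => hs j).trans (Nat.mul_le_mul_right _ hκ))
    exact ⟨g, fun j => hA j g fun v hv => hg v (Finset.mem_biUnion.2 ⟨j, Finset.mem_univ _, hv⟩)⟩
  · refine ⟨Finset.univ.biUnion fun j => insert (eta y (o j).1) ((o j).2.image (nu y)),
      (Finset.card_biUnion_le_card_mul _ _ _ fun j _ => (Finset.card_insert_le _ _).trans
        (Nat.succ_le_succ (Finset.card_image_le.trans (ho j)))).trans (Nat.mul_le_mul_right _ hκ),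
      fun g hg j => (good_tw _ _ _ _).2 ⟨hg _ ?_, fun z hz => hg _ ?_⟩⟩
    · exact Finset.mem_biUnion.2 ⟨j, Finset.mem_univ _, Finset.mem_insert_self _ _⟩
    · exact Finset.mem_biUnion.2 ⟨j, Finset.mem_univ _,
        Finset.mem_insert_of_mem (Finset.mem_image_of_mem _ hz)⟩

theorem Linked.mono {Γ : Type} {n n' : ℕ} {GG : Set (Set Γ)} (h : Linked n' GG) (e : n ≤ n') :
    Linked n GG := fun κ _ hκ => h κ (hκ.trans e)

theorem Linked.nonempty {Γ : Type} {n : ℕ} {GG : Set (Set Γ)} (h : Linked n GG) : Nonempty Γ :=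
  (h Empty (by simp) Empty.elim fun i => i.elim).elim fun g _ => ⟨g⟩

/-- Fubini product of up-sets -/
def Fub {Γ Γ' : Type} (GG : Set (Set Γ)) (GG' : Set (Set Γ')) : Set (Set (Γ × Γ')) :=
  {G | {g | {g' | (g, g') ∈ G} ∈ GG'} ∈ GG}

theorem Fub.upper {Γ Γ' : Type} {GG : Set (Set Γ)} {GG' : Set (Set Γ')} (h : IsUpperSet GG)
    (h' : IsUpperSet GG') : IsUpperSet (Fub GG GG') := fun _ _ hAB hA =>
  h (fun _ hg => h' (fun _ hd => hAB hd) hg) hA

theorem Fub.linked {Γ Γ' : Type} {n : ℕ} {GG : Set (Set Γ)} {GG' : Set (Set Γ')} (h : Linked n GG)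
    (h' : Linked n GG') : Linked n (Fub GG GG') := fun κ _ hκ G hG => by
  obtain ⟨g, hg⟩ := h κ hκ _ hG
  obtain ⟨d, hd⟩ := h' κ hκ _ hg
  exact ⟨(g, d), hd⟩

end Pool.Agent.MP_e30343_lc.SO

end

-- part MP_e30343_lc.SO.Cnd
section

/-! Elementary facts on closures, filters, valid trees and conditions (no main induction). -/

open Filter Set

namespace Pool.Agent.MP_e30343_lc.SO

theorem pre_of_prefix {σ : List L} {y : ℕ → L} {i : ℕ} (h : σ <+: pre y i) :
    pre y σ.length = σ := by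
  have h1 : σ.length ≤ i := by simpa [length_pre] using h.length_le
  exact (List.prefix_of_prefix_length_le (pre_le y h1) h (length_pre y _).le).eq_of_length
    (length_pre y _)

theorem Br.mono {τ : List L} {S S' : List L → Set L} {y : ℕ → L} (h : Br τ S y)
    (e : ∀ σ, S σ ⊆ S' σ) : Br τ S' y := ⟨h.1, fun i hi => e _ (h.2 i hi)⟩

theorem InT.mono {τ ρ : List L} {S S' : List L → Set L} (h : InT τ S ρ)
    (e : ∀ σ, S σ ⊆ S' σ) : InT τ S' ρ := ⟨h.1, fun σ a b c => e _ (h.2 σ a b c)⟩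

namespace Tpl

variable {T : Tpl} {B B' C P P' : Set T.ι} {n : T.ι}

theorem subset_clo (B : Set T.ι) : B ⊆ T.clo B := by
  exact subset_union_left

theorem clo_clo (B : Set T.ι) : T.Clo (T.clo B) := by
  rintro n (hn | hn) m hm
  · exact Or.inr (mem_biUnion hn hm)
  · obtain ⟨k, hk, hnk⟩ := mem_iUnion₂.1 hn
    exact Or.inr (mem_biUnion hk (T.supp_cl k n hnk hm))

theorem clo_count (h : B.Countable) : (T.clo B).Countable := by
  exact h.union (h.biUnion fun n _ => T.supp_c n)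

theorem clo_min (hC : T.Clo C) (h : B ⊆ C) : T.clo B ⊆ C := by
  exact union_subset h (iUnion₂_subset fun n hn => hC n (h hn))

theorem clo_lower (h : IsLowerSet B) : T.Clo B := by
  exact fun n hn m hm => h (T.supp_lt n m hm : m < n).le hn

theorem clo_supp (n : T.ι) : T.Clo (T.supp n) := by
  exact T.supp_cl n

theorem Clo.inter (h : T.Clo B) (h' : T.Clo B') : T.Clo (B ∩ B') := by
  exact fun n hn => subset_inter (h n hn.1) (h' n hn.2)

theorem Clo.union (h : T.Clo B) (h' : T.Clo B') : T.Clo (B ∪ B') := by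
  exact fun n hn => hn.elim (fun a => (h n a).trans subset_union_left)
    fun a => (h' n a).trans subset_union_right

theorem clo_iUnion {κ : Sort*} {D : κ → Set T.ι} (h : ∀ k, T.Clo (D k)) : T.Clo (⋃ k, D k) := by
  intro n hn
  obtain ⟨k, hk⟩ := mem_iUnion.1 hn
  exact (h k n hk).trans (subset_iUnion D k)

theorem md_goodP {π : Finset T.ι} (h : ↑π ⊆ B) (D : ℕ) (o : Obj) :
    MD B fun x => T.GoodP π D x o := by
  exact MD.ball (s := (↑π : Set T.ι)) π.countable_toSet fun a ha =>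
    (MD.const _).or (MD.good (h ha) D o)

theorem GoodP.mono {π π' : Finset T.ι} {D D' : ℕ} {x : T.X} {o : Obj} (h : T.GoodP π' D' x o)
    (e : π ⊆ π') (e' : D ≤ D') : T.GoodP π D x o := by
  exact fun a ha => (h a (e ha)).imp id fun g => g.mono e'

theorem Bas.mono {π π' : Finset T.ι} {k k' i : ℕ} {x : T.X} {a : L} (h : T.Bas n x i π' k' a)
    (e : π ⊆ π') (e' : k ≤ k') : T.Bas n x i π k a :=
  ⟨h.1, h.2.1.mono e', h.2.2.mono e e'⟩

theorem FF_K (h : T.isK n) (P : Set T.ι) (x : T.X) (i : ℕ) : T.FF P n x i = KF gen := by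
  unfold FF; rw [if_pos h]

theorem mem_FF_Y (h : ¬ T.isK n) {x : T.X} {i : ℕ} {S : Set L} : S ∈ T.FF P n x i ↔
    ∃ (π : Finset T.ι) (k : ℕ), ↑π ⊆ P ∧ ∀ e, T.Bas n x i π k e → e ∈ S := by
  classical
  unfold FF
  rw [if_neg h]
  constructor
  · intro hS
    let G : Filter L :=
      { sets := {S | ∃ (π : Finset T.ι) (k : ℕ), ↑π ⊆ P ∧ ∀ e, T.Bas n x i π k e → e ∈ S}
        univ_sets := ⟨∅, 0, by simp, fun _ _ => trivial⟩
        sets_of_superset := fun ⟨π, k, a, b⟩ c => ⟨π, k, a, fun e he => c (b e he)⟩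
        inter_sets := fun ⟨π, k, a, b⟩ ⟨π', k', a', b'⟩ =>
          ⟨π ∪ π', max k k', by rw [Finset.coe_union]; exact union_subset a a', fun e he =>
            ⟨b e (he.mono Finset.subset_union_left (le_max_left _ _)),
              b' e (he.mono Finset.subset_union_right (le_max_right _ _))⟩⟩ }
    have : G ≤ ⨅ (π : Finset T.ι) (_ : ↑π ⊆ P) (k : ℕ), 𝓟 {e | T.Bas n x i π k e} :=
      le_iInf fun π => le_iInf fun a => le_iInf fun k =>
        le_principal_iff.2 ⟨π, k, a, fun _ he => he⟩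
    exact this hS
  · rintro ⟨π, k, a, b⟩
    exact mem_iInf_of_mem π (mem_iInf_of_mem a (mem_iInf_of_mem k b))

theorem FF_anti (h : P ⊆ P') (n : T.ι) (x : T.X) (i : ℕ) : T.FF P' n x i ≤ T.FF P n x i := by
  by_cases hk : T.isK n
  · rw [FF_K hk, FF_K hk]
  · intro S hS
    obtain ⟨π, k, a, b⟩ := (mem_FF_Y hk).1 hS
    exact (mem_FF_Y hk).2 ⟨π, k, a.trans h, b⟩

theorem VS.congr {S : T.Suc} (h : T.VS B n S) (e : B ∩ Iio n ⊆ B') : T.VS B' n S := by
  have e' : B ∩ Iio n ⊆ B' ∩ Iio n := subset_inter e inter_subset_right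
  obtain ⟨a, P, hP, b, c⟩ := h
  exact ⟨fun τ e => (a τ e).mono e', P, hP, b.trans (sdiff_subset_sdiff_left e'), c⟩

theorem VS.mono {S : T.Suc} (h : T.VS B n S) (e : B ⊆ B') : T.VS B' n S := by
  exact h.congr (inter_subset_left.trans e)

theorem vs_univ (B : Set T.ι) (n : T.ι) : T.VS B n fun _ _ => univ := by
  exact ⟨fun _ _ => MD.const _, ∅, countable_empty, empty_subset _, fun _ _ => univ_mem⟩

theorem VS.inter {S S' : T.Suc} (h : T.VS B n S) (h' : T.VS B n S') :
    T.VS B n fun x τ => S x τ ∩ S' x τ := by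
  obtain ⟨a, P, hP, b, c⟩ := h
  obtain ⟨a', P', hP', b', c'⟩ := h'
  exact ⟨fun τ e => (a τ e).and (a' τ e), P ∪ P', hP.union hP', union_subset b b', fun x τ =>
    inter_mem (FF_anti subset_union_left _ _ _ (c x τ)) (FF_anti subset_union_right _ _ _ (c' x τ))⟩

/-- for every word only finitely many of countably many valid trees are imposed -/
theorem vs_diag {κ : Type} [Countable κ] {S : κ → T.Suc} (h : ∀ k, T.VS B n (S k))
    (F : List L → Set κ) (hF : ∀ τ, (F τ).Finite) :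
    T.VS B n fun x τ => {e | ∀ k ∈ F τ, e ∈ S k x τ} := by
  choose P hP b c using fun k => (h k).2
  refine ⟨fun τ e => MD.ball (hF τ).countable fun k _ => (h k).1 τ e, ⋃ k, P k,
    countable_iUnion hP, iUnion_subset b, fun x τ => ?_⟩
  exact (eventually_all_finite (hF τ)).2 fun k _ => FF_anti (subset_iUnion P k) _ _ _ (c k x τ)

/-- mixing countably many valid trees along a partition -/
theorem vs_mix {κ : Type} [Countable κ] {S : κ → T.Suc} (h : ∀ k, T.VS B n (S k))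
    (f : T.X → List L → κ) (hf : ∀ τ k, MD (B ∩ Iio n) fun x => f x τ = k) :
    T.VS B n fun x τ => S (f x τ) x τ := by
  choose P hP b c using fun k => (h k).2
  exact ⟨fun τ e => MD.sub (φ := fun k x => e ∈ S k x τ) (fun k => (h k).1 τ e) (hf τ), ⋃ k, P k,
    countable_iUnion hP, iUnion_subset b, fun x τ =>
      FF_anti (subset_iUnion P (f x τ)) _ _ _ (c _ x τ)⟩

theorem vs_far (h : ¬ T.isK n) (B : Set T.ι) (k : ℕ) : T.VS B n fun _ _ => {e | far k e.ob} := by
  exact ⟨fun _ _ => MD.const _, ∅, countable_empty, empty_subset _, fun _ _ =>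
    (mem_FF_Y h).2 ⟨∅, k, by simp, fun _ he => he.2.1⟩⟩

theorem vs_K (h : T.isK n) {S : T.Suc} (h1 : ∀ τ e, MD (B ∩ Iio n) fun x => e ∈ S x τ)
    (h2 : ∀ x τ, S x τ ∈ KF gen) : T.VS B n S := by
  exact ⟨h1, ∅, countable_empty, empty_subset _, fun x τ => by rw [FF_K h]; exact h2 x τ⟩

theorem vs_nb (h : T.isK n) (B : Set T.ι) (k : ℕ) : T.VS B n fun _ _ => {e | k ≤ nb e} := by
  refine vs_K h (fun _ _ => MD.const _) fun _ _ => ?_
  have hf : (nb ⁻¹' Iio k).Finite := (finite_Iio k).preimage nb_inj.injOn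
  exact (k3_finite (gen_inj 0) hf).mono fun q hq => not_lt.1 hq

theorem md_inT {S : T.Suc} (h : T.VS B n S) (τ ρ : List L) :
    MD (B ∩ Iio n) fun x => InT τ (S x) ρ := by
  exact (MD.const _).and (MD.all fun σ => MD.all fun e => (MD.const _).imp
    ((MD.const _).imp (h.1 σ e)))

theorem md_br {S : T.Suc} (h : T.VS B n S) (hn : n ∈ B) (τ : List L) :
    MD (B ∩ Iic n) fun x => Br τ (S x) (x n) := by
  have hn' : n ∈ B ∩ Iic n := ⟨hn, le_refl n⟩
  refine (MD.word hn' τ.length (φ := fun σ _ => σ = τ) fun _ => MD.const _).and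
    (MD.all fun i => (MD.const _).imp ?_)
  refine MD.word hn' i (φ := fun σ x => x n i ∈ S x σ) fun σ => ?_
  exact MD.sub (φ := fun e x => e ∈ S x σ) (f := fun x => x n i)
    (fun e => (h.1 σ e).mono (inter_subset_inter_right _ Iio_subset_Iic_self))
    fun e => MD.letter hn' i (· = e)

theorem mem_res {p : T.Cond} {c : Set T.ι} : n ∈ (p.res c).dom ↔ n ∈ p.dom ∧ n ∈ c := by
  classical
  exact Finset.mem_filter

theorem sem_res {p : T.Cond} {c : Set T.ι} {x : T.X} :
    Sem (p.res c) x ↔ ∀ n ∈ p.dom, n ∈ c → Br (p.st n) (p.S n x) (x n) :=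
  ⟨fun h n a b => h n (mem_res.2 ⟨a, b⟩), fun h n a => h n (mem_res.1 a).1 (mem_res.1 a).2⟩

theorem Val.mono {p : T.Cond} (h : Val B p) (e : B ⊆ B') : Val B' p := by
  exact ⟨h.1.trans e, fun n hn => (h.2 n hn).mono e⟩

theorem Val.res {p : T.Cond} (h : Val B p) (c : Set T.ι) : Val B (p.res c) := by
  exact ⟨fun n hn => h.1 (mem_res.1 hn).1, fun n hn => h.2 n (mem_res.1 hn).1⟩

theorem Val.res_lower {p : T.Cond} (h : Val B p) {c : Set T.ι} (hc : IsLowerSet c) :
    Val (B ∩ c) (p.res c) := by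
  exact ⟨fun n hn => ⟨h.1 (mem_res.1 hn).1, (mem_res.1 hn).2⟩, fun n hn =>
    (h.2 n (mem_res.1 hn).1).congr fun m hm => ⟨hm.1, hc (le_of_lt hm.2) (mem_res.1 hn).2⟩⟩

theorem md_sem {p : T.Cond} (h : Val B p) : MD B (Sem p) := by
  exact MD.ball (s := (↑p.dom : Set T.ι)) p.dom.countable_toSet fun n hn =>
    (md_br (h.2 n hn) (h.1 hn) _).mono inter_subset_left

theorem sem_split (p : T.Cond) (c : Set T.ι) (x : T.X) :
    Sem p x ↔ Sem (p.res c) x ∧ Sem (p.res cᶜ) x := by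
  rw [sem_res, sem_res]
  refine ⟨fun h => ⟨fun n hn _ => h n hn, fun n hn _ => h n hn⟩, fun h n hn => ?_⟩
  by_cases a : n ∈ c
  · exact h.1 n hn a
  · exact h.2 n hn a

/-- the empty condition -/
def top (T : Tpl) : T.Cond := ⟨∅, fun _ => [], fun _ _ _ => univ⟩

theorem val_top (B : Set T.ι) : Val B T.top := by
  exact ⟨by simp [top], fun n hn => by simp [top] at hn⟩

theorem sem_top (x : T.X) : Sem T.top x := by
  exact fun n hn => by simp [top] at hn

/-- a condition with one node -/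
def one (n : T.ι) (τ : List L) (S : T.Suc) : T.Cond := ⟨{n}, fun _ => τ, fun _ => S⟩

theorem sem_one {τ : List L} {S : T.Suc} {x : T.X} : Sem (one n τ S) x ↔ Br τ (S x) (x n) := by
  simp [Sem, one]

/-- conditions with equal stems on common nodes have a meet -/
theorem meet {κ : Type} [Finite κ] (p : κ → T.Cond) (h : ∀ k, Val B (p k))
    (e : ∀ k k' n, n ∈ (p k).dom → n ∈ (p k').dom → (p k).st n = (p k').st n) :
    ∃ q, Val B q ∧ (∀ n, n ∈ q.dom ↔ ∃ k, n ∈ (p k).dom) ∧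
      (∀ k, ∀ n ∈ (p k).dom, q.st n = (p k).st n ∧ ∀ x τ, q.S n x τ ⊆ (p k).S n x τ) ∧
      ∀ x, Sem q x ↔ ∀ k, Sem (p k) x := by
  classical
  have := Fintype.ofFinite κ
  have hd : ∀ n, n ∈ Finset.univ.biUnion (fun k => (p k).dom) ↔ ∃ k, n ∈ (p k).dom := by simp only [Finset.mem_biUnion, Finset.mem_univ, true_and, implies_true]
  have hs : ∀ n, ∃ τ, ∀ k, n ∈ (p k).dom → τ = (p k).st n := by
    intro n
    by_cases a : ∃ k, n ∈ (p k).dom
    · obtain ⟨k, hk⟩ := a
      exact ⟨(p k).st n, fun k' hk' => e k k' n hk hk'⟩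
    · exact ⟨[], fun k hk => (a ⟨k, hk⟩).elim⟩
  choose st hst using hs
  refine ⟨⟨Finset.univ.biUnion fun k => (p k).dom, st,
    fun n x τ => {a | ∀ k, n ∈ (p k).dom → a ∈ (p k).S n x τ}⟩, ⟨fun n hn => ?_, fun n _ => ?_⟩, hd,
    fun k n hn => ⟨hst n k hn, fun x τ a ha => ha k hn⟩, fun x => ⟨fun hx k n hn => ?_, ?_⟩⟩
  · obtain ⟨k, hk⟩ := (hd n).1 hn
    exact (h k).1 hk
  · have := vs_diag (κ := {k // n ∈ (p k).dom}) (S := fun k => (p k.1).S n)
      (fun k => (h k.1).2 n k.2) (fun _ => univ) fun _ => toFinite _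
    convert this using 4
    simp only [mem_univ, forall_const, Subtype.forall]
  · have := hx n ((hd n).2 ⟨k, hn⟩)
    rw [← hst n k hn]
    exact this.mono fun τ a ha => ha k hn
  · intro hx n hn
    obtain ⟨k, hk⟩ := (hd n).1 hn
    refine ⟨?_, fun i hi k' hk' => (hx k' n hk').2 i ?_⟩
    · show pre (x n) (st n).length = st n
      rw [hst n k hk]
      exact (hx k n hk).1
    · rw [← hst n k' hk']
      exact hi

theorem leW_congr {l l' : T.ι → Filter T.X} (e : ∀ m ∈ B, l m = l' m) {p : T.Cond} (h : Val B p)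
    (q : T.Cond) : LeW l q p ↔ LeW l' q p :=
  and_congr_right fun _ => forall₂_congr fun m hm => by rw [e m (h.1 hm)]

theorem preD_congr {l l' : T.ι → Filter T.X} (e : ∀ m ∈ B, l m = l' m) (A : Set T.Cond) :
    PreD B l A ↔ PreD B l' A :=
  and_congr_right fun hA => forall₂_congr fun q hq => exists_congr fun p =>
    and_congr_right fun hp => exists_congr fun r => by
      rw [leW_congr e (hA p hp), leW_congr e hq]

theorem genF_congr {l l' : T.ι → Filter T.X} (e : ∀ m ∈ B, l m = l' m) : genF B l = genF B l' := by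
  unfold genF
  simp only [preD_congr e]

theorem aeAt_unfold (B : Set T.ι) (n : T.ι) :
    aeAt B n = genF (B ∩ Iio n) fun m => if m < n then aeAt B m else ⊤ := by
  unfold aeAt
  rw [WellFounded.fix_eq]
  congr 1

theorem aeAt_congr (n : T.ι) : ∀ B B' : Set T.ι, B ∩ Iio n = B' ∩ Iio n → aeAt B n = aeAt B' n := by
  induction n using WellFoundedLT.induction with
  | ind n ih =>
    intro B B' e
    rw [aeAt_unfold, aeAt_unfold, ← e]
    refine genF_congr fun m hm => ?_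
    have hm' : m < n := hm.2
    rw [if_pos hm', if_pos hm']
    refine ih m hm' _ _ ?_
    ext k
    exact ⟨fun a => ⟨((Set.ext_iff.1 e k).1 ⟨a.1, lt_trans a.2 hm'⟩).1, a.2⟩,
      fun a => ⟨((Set.ext_iff.1 e k).2 ⟨a.1, lt_trans a.2 hm'⟩).1, a.2⟩⟩

theorem aeAt_eq (B : Set T.ι) (n : T.ι) : aeAt B n = T.ae (B ∩ Iio n) := by
  rw [aeAt_unfold]
  refine genF_congr fun m hm => ?_
  rw [if_pos (show m < n from hm.2)]
  refine aeAt_congr m _ _ ?_
  ext k
  exact ⟨fun a => ⟨⟨a.1, lt_trans a.2 hm.2⟩, a.2⟩, fun a => ⟨a.1.1, a.2⟩⟩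

end Tpl

theorem Br.inT {τ : List L} {S : List L → Set L} {y : ℕ → L} (h : Br τ S y) {i : ℕ}
    (hi : τ.length ≤ i) : InT τ S (pre y i) := by
  refine ⟨h.1 ▸ pre_le y hi, fun σ e a b => ?_⟩
  have h1 := pre_of_prefix b
  rw [List.length_append, List.length_singleton, pre_succ] at h1
  obtain ⟨h2, h3⟩ := List.append_inj' h1 rfl
  have := h.2 σ.length a.length_le
  rw [h2] at this
  exact (List.singleton_inj.1 h3) ▸ this

theorem InT.br {τ ρ : List L} {S : List L → Set L} {y : ℕ → L} (h : InT τ S ρ) (h' : Br ρ S y) :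
    Br τ S y := by
  have h1 : τ <+: pre y ρ.length := h'.1.symm ▸ h.1
  refine ⟨pre_of_prefix h1, fun i hi => ?_⟩
  by_cases a : ρ.length ≤ i
  · exact h'.2 i a
  · refine h.2 _ _ ?_ ?_
    · rw [← pre_of_prefix h1]; exact pre_le y hi
    · rw [← pre_succ, ← h'.1]; exact pre_le y (by omega)

theorem InT.refl (τ : List L) (S : List L → Set L) : InT τ S τ := by
  refine ⟨List.prefix_refl _, fun σ e a b => ?_⟩
  have := a.length_le
  have := b.length_le
  simp at this
  omega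

theorem InT.snoc {τ ρ : List L} {S : List L → Set L} {e : L} (h : InT τ S ρ) (he : e ∈ S ρ) :
    InT τ S (ρ ++ [e]) := by
  refine ⟨h.1.trans (List.prefix_append _ _), fun σ e' a b => ?_⟩
  rcases List.prefix_concat_iff.1 b with c | c
  · obtain ⟨h2, h3⟩ := List.append_inj' c rfl
    rw [h2, List.singleton_inj.1 h3]
    exact he
  · exact h.2 σ e' a c

theorem InT.trans {τ ρ σ : List L} {S : List L → Set L} (h : InT τ S ρ) (h' : InT ρ S σ) :
    InT τ S σ := by
  refine ⟨h.1.trans h'.1, fun σ' e a b => ?_⟩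
  by_cases c : ρ.length ≤ σ'.length
  · exact h'.2 σ' e (List.prefix_of_prefix_length_le h'.1 ((List.prefix_append _ _).trans b) c) b
  · exact h.2 σ' e a (List.prefix_of_prefix_length_le b h'.1 (by simp; omega))

end Pool.Agent.MP_e30343_lc.SO

end

-- part MP_e30343_lc.SO.Mor
section

/-! Morphisms: pure transport (no main induction). -/

open Filter Set

namespace Pool.Agent.MP_e30343_lc.SO

namespace Mor

open Tpl

theorem twL_refl (a : L) : twL (LinearEquiv.refl _ _) a = a := rfl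

theorem twL_symm (g : Aut) (a : L) : twL g (twL g.symm a) = a := by
  simp [twL]

theorem twL_symm' (g : Aut) (a : L) : twL g.symm (twL g a) = a := by
  simp [twL]

theorem twL_ob (g : Aut) (a : L) : (twL g a).ob = a.ob := rfl

theorem length_twW (g : ℕ → Aut) (τ : List L) : (twW g τ).length = τ.length := by
  simp [twW]

theorem twW_symm (g : ℕ → Aut) (τ : List L) : twW g (twW (fun i => (g i).symm) τ) = τ := by
  refine List.ext_getElem (by simp [twW]) fun i h1 h2 => ?_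
  simp [twW, twL_symm]

theorem twW_symm' (g : ℕ → Aut) (τ : List L) : twW (fun i => (g i).symm) (twW g τ) = τ := by
  refine List.ext_getElem (by simp [twW]) fun i h1 h2 => ?_
  simp [twW, twL_symm']

theorem twW_inj (g : ℕ → Aut) : Function.Injective (twW g) :=
  Function.LeftInverse.injective (twW_symm' g)

theorem twW_eq {g : ℕ → Aut} {τ : List L} (h : ∀ i < τ.length, g i = LinearEquiv.refl _ _) :
    twW g τ = τ := by
  refine List.ext_getElem (by simp [twW]) fun i h1 h2 => ?_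
  simp [twW, h i h2, twL_refl]

theorem twW_pre (g : ℕ → Aut) (y : ℕ → L) (i : ℕ) :
    twW g (pre y i) = pre (fun j => twL (g j) (y j)) i := by
  refine List.ext_getElem (by simp [twW, pre]) fun j h1 h2 => ?_
  simp [twW, pre]

theorem twW_snoc (g : ℕ → Aut) (τ : List L) (e : L) :
    twW g (τ ++ [e]) = twW g τ ++ [twL (g τ.length) e] := by
  simp [twW, List.mapIdx_append]

theorem twW_prefix (g : ℕ → Aut) {τ ρ : List L} (h : τ <+: ρ) : twW g τ <+: twW g ρ := by
  obtain ⟨t, rfl⟩ := h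
  unfold twW
  rw [List.mapIdx_append]
  exact List.prefix_append _ _

theorem twW_prefix_iff (g : ℕ → Aut) {τ ρ : List L} : twW g τ <+: twW g ρ ↔ τ <+: ρ :=
  ⟨fun h => by simpa only [twW_symm'] using twW_prefix (fun i => (g i).symm) h, twW_prefix g⟩

theorem br_tw (g : ℕ → Aut) (τ : List L) (S : List L → Set L) (y : ℕ → L) :
    Br (twW (fun i => (g i).symm) τ) (fun ρ => {e | twL (g ρ.length) e ∈ S (twW g ρ)}) y ↔
      Br τ S fun j => twL (g j) (y j) := by
  simp only [Br, length_twW, mem_ofPred_eq, length_pre, twW_pre]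
  refine and_congr_left fun _ => ?_
  rw [← twW_pre, ← (twW_inj g).eq_iff, twW_symm]

theorem inT_tw (g : ℕ → Aut) (τ ρ : List L) (S : List L → Set L) :
    InT τ (fun σ => {e | twL (g σ.length) e ∈ S (twW g σ)}) ρ ↔ InT (twW g τ) S (twW g ρ) := by
  refine and_congr (twW_prefix_iff g).symm ⟨fun h σ e h1 h2 => ?_, fun h σ e h1 h2 => ?_⟩
  · have := h (twW (fun i => (g i).symm) σ) (twL (g σ.length).symm e)
      ((twW_prefix_iff g).1 (by rwa [twW_symm]))
      ((twW_prefix_iff g).1 (by rwa [twW_snoc, twW_symm, length_twW, twL_symm]))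
    simpa only [mem_ofPred_eq, length_twW, twL_symm, twW_symm] using this
  · exact h _ _ (twW_prefix g h1) (by rw [← twW_snoc]; exact twW_prefix g h2)

theorem pres_symm {g : Aut} {D : ℕ} (h : Pres g D) : Pres g.symm D := fun D' e v => by
  rw [← h D' e, LinearEquiv.apply_symm_apply]

theorem pres_mono {g : Aut} {D D' : ℕ} (h : Pres g D) (e : D ≤ D') : Pres g D' :=
  fun D'' e' => h D'' (e.trans e')

theorem pres_trans {g g' : Aut} {D : ℕ} (h : Pres g D) (h' : Pres g' D) : Pres (g.trans g') D :=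
  fun D' e v => by rw [LinearEquiv.trans_apply, h' D' e, h D' e]

theorem pres_refl (D : ℕ) : Pres (LinearEquiv.refl _ _) D := fun _ _ _ => Iff.rfl

/-- for far objects only the high part matters -/
theorem good_far_iff {y : ℕ → L} {n k D : ℕ} {o : Obj} (hb : bnd (pre y n) ≤ k) (ho : far k o) :
    good y D o ↔ good (cutHi n y) D o := by
  have h : good (ofL (pre y n)) D o := by
    rw [good_ofL_tr hb, far_iff_tr.1 ho]; exact good_o0 _ _
  refine ⟨fun H => ⟨?_, fun z hz => ?_⟩, fun H => (good_split H).2 h⟩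
  · have := sub_mem H.1 h.1
    rwa [eta_split y n, add_sub_cancel_left] at this
  · have := sub_mem (H.2 z hz) (h.2 z hz)
    rwa [nu_split y n, add_sub_cancel_left] at this

/-- far objects do not see an eventually constant twist -/
theorem good_tw_far {g : ℕ → Aut} {i0 D0 : ℕ} (h : ∀ i, i0 ≤ i → g i = g i0)
    (hp : Pres (g i0) D0) (y : ℕ → L) : ∃ k0, ∀ k D, k0 ≤ k → D0 ≤ D → ∀ o, far k o →
      (good (fun i => twL (g i) (y i)) D o ↔ good y D o) := by
  refine ⟨max (bnd (pre y i0)) (bnd (pre (fun i => twL (g i) (y i)) i0)), fun k D hk hD o ho => ?_⟩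
  rw [good_far_iff ((le_max_right _ _).trans hk) ho, good_far_iff ((le_max_left _ _).trans hk) ho,
    good_cutHi_tw h hp hD]

theorem leW_congr {T : Tpl} {l : T.ι → Filter T.X} {r p q : T.Cond} (h : LeW l r p)
    (hd : ∀ n ∈ q.dom, n ∈ p.dom ∧ p.st n = q.st n ∧ p.S n = q.S n) : LeW l r q := by
  refine ⟨fun n hn => h.1 (hd n hn).1, fun n hn => ?_⟩
  obtain ⟨h1, h2, h3⟩ := hd n hn
  rw [← h2, ← h3]
  exact h.2 n h1

variable {T T' T'' : Tpl} {B B0 : Set T.ι}

/-- the identity -/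
noncomputable def id (T : Tpl) (B : Set T.ι) : Mor T B T where
  h n := n
  tw _ _ := LinearEquiv.refl _ _
  mono := fun _ _ _ _ h => h
  isK _ _ := Iff.rfl
  supp _ _ := by simp
  dm _ _ _ _ _ := Iff.rfl
  twK _ _ _ _ := rfl
  twE _ _ := ⟨0, 0, fun _ _ => ⟨rfl, fun _ _ _ => Iff.rfl⟩⟩

theorem id_pull (x : T.X) : (Mor.id T B).pull x = x := rfl

/-- composition -/
noncomputable def comp (M : Mor T B T') (N : Mor T' univ T'') : Mor T B T'' where
  h n := N.h (M.h n)
  tw n i := (N.tw (M.h n) i).trans (M.tw n i)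
  mono := fun a ha b hb h => N.mono trivial trivial (M.mono ha hb h)
  isK n hn := (N.isK _ trivial).trans (M.isK n hn)
  supp n hn := by rw [N.supp _ trivial, M.supp n hn, image_image]
  dm n hn x i o := (N.dm _ trivial x i o).trans (M.dm n hn _ i o)
  twK n hn hK i := by
    rw [N.twK _ trivial ((M.isK n hn).2 hK), M.twK n hn hK]; rfl
  twE n hn := by
    obtain ⟨i1, D1, h1⟩ := M.twE n hn
    obtain ⟨i2, D2, h2⟩ := N.twE (M.h n) trivial
    refine ⟨max i1 i2, max D1 D2, fun i hi => ?_⟩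
    rw [(h1 i ((le_max_left _ _).trans hi)).1, (h2 i ((le_max_right _ _).trans hi)).1,
      (h1 _ (le_max_left _ _)).1, (h2 _ (le_max_right _ _)).1]
    exact ⟨rfl, pres_trans (pres_mono (h2 _ le_rfl).2 (le_max_right _ _))
      (pres_mono (h1 _ le_rfl).2 (le_max_left _ _))⟩

theorem comp_pull (M : Mor T B T') (N : Mor T' univ T'') (x : T''.X) :
    (M.comp N).pull x = M.pull (N.pull x) := rfl

theorem res_pull (M : Mor T B T') (e : B0 ⊆ B) (x : T'.X) : (M.res e).pull x = M.pull x := rfl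

theorem Unt.pull {M : Mor T B T'} {n : T.ι} (h : M.Unt n) (x : T'.X) : M.pull x n = x (M.h n) := by
  funext j
  rw [Mor.pull, h j, twL_refl]

theorem inj (M : Mor T B T') : InjOn M.h B := M.mono.injOn

theorem lt_iff (M : Mor T B T') {a b : T.ι} (ha : a ∈ B) (hb : b ∈ B) : M.h a < M.h b ↔ a < b :=
  M.mono.lt_iff_lt ha hb

theorem le_iff (M : Mor T B T') {a b : T.ι} (ha : a ∈ B) (hb : b ∈ B) : M.h a ≤ M.h b ↔ a ≤ b :=
  M.mono.le_iff_le ha hb

theorem image_Iio (M : Mor T B T') (e : B0 ⊆ B) {n : T.ι} (hn : n ∈ B) :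
    M.h '' (B0 ∩ Iio n) = M.h '' B0 ∩ Iio (M.h n) := by
  ext m
  constructor
  · rintro ⟨a, ha, rfl⟩
    exact ⟨⟨a, ha.1, rfl⟩, (M.lt_iff (e ha.1) hn).2 ha.2⟩
  · rintro ⟨⟨a, ha, rfl⟩, h⟩
    exact ⟨a, ⟨ha, (M.lt_iff (e ha) hn).1 h⟩, rfl⟩

theorem image_Iic (M : Mor T B T') (e : B0 ⊆ B) {n : T.ι} (hn : n ∈ B) :
    M.h '' (B0 ∩ Iic n) = M.h '' B0 ∩ Iic (M.h n) := by
  ext m
  constructor
  · rintro ⟨a, ha, rfl⟩
    exact ⟨⟨a, ha.1, rfl⟩, (M.le_iff (e ha.1) hn).2 ha.2⟩
  · rintro ⟨⟨a, ha, rfl⟩, h⟩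
    exact ⟨a, ⟨ha, (M.le_iff (e ha) hn).1 h⟩, rfl⟩

theorem meas_pull (M : Mor T B T') : Measurable M.pull :=
  measurable_pi_lambda _ fun m => measurable_pi_lambda _ fun j =>
    (Measurable.of_discrete (f := twL (M.tw m j))).comp
      ((measurable_pi_apply j).comp (measurable_pi_apply (M.h m)))

theorem pull_congr (M : Mor T B T') {x y : T'.X} {n : T.ι} (h : x (M.h n) = y (M.h n)) :
    M.pull x n = M.pull y n := by
  funext j
  rw [Mor.pull, Mor.pull, h]

theorem clo_image (M : Mor T B T') (e : B0 ⊆ B) (h : T.Clo B0) : T'.Clo (M.h '' B0) := by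
  rintro _ ⟨n, hn, rfl⟩
  rw [M.supp n (e hn)]
  exact image_mono (h n hn)

theorem md_pull (M : Mor T B T') {P : T.X → Prop} (h : MD B0 P) :
    MD (M.h '' B0) fun x => P (M.pull x) :=
  ⟨h.1.comp M.meas_pull, fun _ _ e => h.2 _ _ fun n hn => M.pull_congr (e _ ⟨n, hn, rfl⟩)⟩

/-- the inverse on nodes -/
noncomputable def inv (M : Mor T B T') : T'.ι → T.ι := Function.invFunOn M.h B

theorem inv_h (M : Mor T B T') {n : T.ι} (hn : n ∈ B) : M.inv (M.h n) = n :=
  M.inj.leftInvOn_invFunOn hn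

theorem inv_image (M : Mor T B T') (e : B0 ⊆ B) : M.inv '' (M.h '' B0) = B0 := by
  rw [image_image, image_congr fun n hn => M.inv_h (e hn), image_id']

/-- a section of `pull` -/
noncomputable def sec (M : Mor T B T') (y : T.X) : T'.X := fun m j =>
  twL (M.tw (M.inv m) j).symm (y (M.inv m) j)

theorem meas_sec (M : Mor T B T') : Measurable M.sec :=
  measurable_pi_lambda _ fun m => measurable_pi_lambda _ fun j =>
    (Measurable.of_discrete (f := twL (M.tw (M.inv m) j).symm)).comp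
      ((measurable_pi_apply j).comp (measurable_pi_apply (M.inv m)))

theorem pull_sec (M : Mor T B T') (y : T.X) {n : T.ι} (hn : n ∈ B) : M.pull (M.sec y) n = y n := by
  funext j
  rw [Mor.pull, Mor.sec, M.inv_h hn, twL_symm]

theorem sec_pull (M : Mor T B T') (x : T'.X) {m : T'.ι} (hm : m ∈ M.h '' B) :
    M.sec (M.pull x) m = x m := by
  obtain ⟨n, hn, rfl⟩ := hm
  funext j
  rw [Mor.sec, M.inv_h hn, Mor.pull, twL_symm']

theorem md_sec (M : Mor T B T') (e : B0 ⊆ B) {P : T'.X → Prop} (h : MD (M.h '' B0) P) :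
    MD B0 fun y => P (M.sec y) := by
  refine ⟨h.1.comp M.meas_sec, fun y y' e' => h.2 _ _ ?_⟩
  rintro _ ⟨n, hn, rfl⟩
  funext j
  rw [Mor.sec, Mor.sec, M.inv_h (e hn), e' n hn]

/-- the inverse morphism -/
noncomputable def symm (M : Mor T B T') (hB : T.Clo B) : Mor T' (M.h '' B) T where
  h := M.inv
  tw m i := (M.tw (M.inv m) i).symm
  mono := by
    rintro _ ⟨a, ha, rfl⟩ _ ⟨b, hb, rfl⟩ h
    rw [M.inv_h ha, M.inv_h hb]
    exact (M.lt_iff ha hb).1 h
  isK := by
    rintro _ ⟨n, hn, rfl⟩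
    rw [M.inv_h hn, M.isK n hn]
  supp := by
    rintro _ ⟨n, hn, rfl⟩
    rw [M.inv_h hn, M.supp n hn, M.inv_image (hB n hn)]
  dm := by
    rintro _ ⟨n, hn, rfl⟩ y i o
    rw [M.inv_h hn]
    exact ((T.dm_md n i o).2 _ _ fun m hm => (M.pull_sec y (hB n hn hm)).symm).trans
      (M.dm n hn (M.sec y) i o).symm
  twK := by
    rintro _ ⟨n, hn, rfl⟩ hK i
    rw [M.inv_h hn, M.twK n hn ((M.isK n hn).1 hK)]
    rfl
  twE := by
    rintro _ ⟨n, hn, rfl⟩
    obtain ⟨i0, D0, h⟩ := M.twE n hn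
    rw [M.inv_h hn]
    exact ⟨i0, D0, fun i hi => ⟨by rw [(h i hi).1], pres_symm (h i hi).2⟩⟩

theorem symm_h (M : Mor T B T') (hB : T.Clo B) : (M.symm hB).h = M.inv := rfl

theorem symm_pull (M : Mor T B T') (hB : T.Clo B) : (M.symm hB).pull = M.sec := rfl

/-- every set that depends on the image is a pull back -/
theorem md_push (M : Mor T B T') (e : B0 ⊆ B) {P : T'.X → Prop} (h : MD (M.h '' B0) P) :
    ∃ Q, MD B0 Q ∧ ∀ x, P x ↔ Q (M.pull x) :=
  ⟨_, M.md_sec e h, fun x => h.2 _ _ fun _ hm => (M.sec_pull x (image_mono e hm)).symm⟩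

/-- transport of a successor-set function -/
def pushS (M : Mor T B T') (n : T.ι) (S : T.Suc) : T'.Suc := fun x τ =>
  {e | twL (M.tw n τ.length) e ∈ S (M.pull x) (twW (M.tw n) τ)}

theorem pushS_unt (M : Mor T B T') {n : T.ι} (h : M.Unt n) (S : T.Suc) (x : T'.X) :
    M.pushS n S x = S (M.pull x) := by
  funext τ
  rw [pushS, h, twW_eq fun i _ => h i]
  rfl

/-- far objects do not see the twists -/
theorem goodP_pull (M : Mor T B T') {π : Finset T.ι} (hπ : ↑π ⊆ B) (x : T'.X) :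
    ∃ k0, ∀ k D, k0 ≤ k → k0 ≤ D → ∀ o, far k o →
      (T.GoodP π D (M.pull x) o ↔ ∀ a ∈ π, T'.gd (M.h a) (x (M.h a)) D o) := by
  have h1 : ∀ a, ∃ k0, a ∈ π → ∀ k D, k0 ≤ k → k0 ≤ D → ∀ o, far k o →
      (T.gd a (M.pull x a) D o ↔ T'.gd (M.h a) (x (M.h a)) D o) := by
    intro a
    by_cases ha : a ∈ π
    · obtain ⟨i0, D0, h⟩ := M.twE a (hπ ha)
      obtain ⟨k0, hk⟩ := good_tw_far (fun i hi => (h i hi).1) (h i0 le_rfl).2 (x (M.h a))
      exact ⟨max k0 D0, fun _ k D h1 h2 o ho => or_congr (M.isK a (hπ ha)).symm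
        (hk k D ((le_max_left _ _).trans h1) ((le_max_right _ _).trans h2) o ho)⟩
    · exact ⟨0, fun h => absurd h ha⟩
  choose f hf using h1
  exact ⟨π.sup f, fun k D h1 h2 o ho => forall₂_congr fun a ha =>
    hf a ha k D ((Finset.le_sup ha).trans h1) ((Finset.le_sup ha).trans h2) o ho⟩

/-- transport of the filters on letters -/
theorem FF_pull (M : Mor T B T') (hB : T.Clo B) {n : T.ι} (hn : n ∈ B) {P : Set T.ι} (hP : P ⊆ B)
    (x : T'.X) (i : ℕ) (S : Set L) :
    S ∈ T.FF P n (M.pull x) i ↔ {e | twL (M.tw n i) e ∈ S} ∈ T'.FF (M.h '' P) (M.h n) x i := by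
  classical
  by_cases hK : T.isK n
  · rw [FF_K hK, FF_K ((M.isK n hn).2 hK), M.twK n hn hK]
    rfl
  rw [mem_FF_Y hK, mem_FF_Y (mt (M.isK n hn).1 hK)]
  constructor
  · rintro ⟨π, k, hπ, h⟩
    obtain ⟨k0, hk⟩ := M.goodP_pull (hπ.trans hP) x
    refine ⟨π.image M.h, max k k0, by rw [Finset.coe_image]; exact image_mono hπ,
      fun e he => h _ ⟨(M.dm n hn x i _).1 he.1, he.2.1.mono (le_max_left _ _), ?_⟩⟩
    exact ((hk _ _ (le_max_right _ _) (le_max_right _ _) _ he.2.1).2 fun a ha =>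
      he.2.2 _ (Finset.mem_image_of_mem _ ha)).mono subset_rfl (le_max_left _ _)
  · rintro ⟨π', k, hπ', h⟩
    obtain ⟨π, hπ, rfl⟩ := Finset.subset_set_image_iff.1 hπ'
    obtain ⟨k0, hk⟩ := M.goodP_pull (hπ.trans hP) x
    refine ⟨π, max k k0, hπ, fun e he => ?_⟩
    have h1 : T'.GoodP (π.image M.h) (max k k0) x e.ob := fun b hb => by
      obtain ⟨a, ha, rfl⟩ := Finset.mem_image.1 hb
      exact (hk _ _ (le_max_right _ _) (le_max_right _ _) _ he.2.1).1 he.2.2 a ha
    have := h (twL (M.tw n i).symm e) ⟨(M.dm n hn x i _).2 he.1, he.2.1.mono (le_max_left _ _),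
      h1.mono subset_rfl (le_max_left _ _)⟩
    rwa [mem_ofPred_eq, twL_symm] at this

theorem vs_push (M : Mor T B T') (hB : T.Clo B) (e : B0 ⊆ B) {n : T.ι} (hn : n ∈ B) {S : T.Suc}
    (h : T.VS B0 n S) : T'.VS (M.h '' B0) (M.h n) (M.pushS n S) := by
  obtain ⟨h1, P, hc, hP, h2⟩ := h
  refine ⟨fun τ a => ?_, M.h '' P, hc.image _, ?_, fun x τ => ?_⟩
  · rw [← M.image_Iio e hn]
    exact M.md_pull (h1 _ _)
  · rintro _ ⟨a, ha, rfl⟩
    refine ⟨M.image_Iio e hn ▸ ⟨a, (hP ha).1, rfl⟩, ?_⟩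
    rw [M.supp n hn]
    rintro ⟨b, hb, hab⟩
    exact (hP ha).2 (M.inj (hB n hn hb) (e (hP ha).1.1) hab ▸ hb)
  · have := h2 (M.pull x) (twW (M.tw n) τ)
    rw [length_twW] at this
    exact (M.FF_pull hB hn (fun a ha => e (hP ha).1.1) x _ _).1 this

theorem pushS_symm (M : Mor T B T') (hB : T.Clo B) (e : B0 ⊆ B) {n : T.ι} (hn : n ∈ B)
    {S : T'.Suc} (h : ∀ τ a, MD (M.h '' B0) fun x => a ∈ S x τ) :
    M.pushS n ((M.symm hB).pushS (M.h n) S) = S := by
  funext x τ
  ext a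
  change twL (M.tw (M.inv (M.h n)) (twW (M.tw n) τ).length).symm (twL (M.tw n τ.length) a) ∈
    S (M.sec (M.pull x)) (twW (fun i => (M.tw (M.inv (M.h n)) i).symm) (twW (M.tw n) τ)) ↔ _
  rw [M.inv_h hn, length_twW, twL_symm', twW_symm']
  exact (h τ a).2 _ _ fun m hm => M.sec_pull x (image_mono e hm)

/-- every valid tree over the image is a transported one -/
theorem vs_pull (M : Mor T B T') (hB : T.Clo B) (e : B0 ⊆ B) {n : T.ι} (hn : n ∈ B) {S' : T'.Suc}
    (h : T'.VS (M.h '' B0) (M.h n) S') : ∃ S, T.VS B0 n S ∧ M.pushS n S = S' := by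
  refine ⟨_, ?_, M.pushS_symm hB e hn fun τ a => (h.1 τ a).mono inter_subset_left⟩
  have := (M.symm hB).vs_push (M.clo_image subset_rfl hB) (image_mono e) ⟨n, hn, rfl⟩ h
  rwa [symm_h, M.inv_image e, M.inv_h hn] at this

open Classical in
/-- transport of a condition -/
noncomputable def push (M : Mor T B T') (p : T.Cond) : T'.Cond where
  dom := p.dom.image M.h
  st m := if h : ∃ n ∈ p.dom, M.h n = m then twW (fun i => (M.tw h.choose i).symm) (p.st h.choose)
    else []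
  S m := if h : ∃ n ∈ p.dom, M.h n = m then M.pushS h.choose (p.S h.choose) else fun _ _ => univ

theorem mem_push_dom (M : Mor T B T') (p : T.Cond) (m : T'.ι) :
    m ∈ (M.push p).dom ↔ ∃ n ∈ p.dom, M.h n = m := by
  simp only [push, Finset.mem_image]

theorem push_st (M : Mor T B T') {p : T.Cond} (hp : ↑p.dom ⊆ B) {n : T.ι} (hn : n ∈ p.dom) :
    (M.push p).st (M.h n) = twW (fun i => (M.tw n i).symm) (p.st n) ∧
      (M.push p).S (M.h n) = M.pushS n (p.S n) := by
  have h : ∃ a ∈ p.dom, M.h a = M.h n := ⟨n, hn, rfl⟩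
  have e : h.choose = n := M.inj (hp h.choose_spec.1) (hp hn) h.choose_spec.2
  simp only [push, dif_pos h, e, and_self]

theorem push_st_eq (M : Mor T B T') {p : T.Cond} (hp : ↑p.dom ⊆ B) {n : T.ι} (hn : n ∈ p.dom)
    (h : ∀ i < (p.st n).length, M.tw n i = LinearEquiv.refl _ _) :
    (M.push p).st (M.h n) = p.st n := by
  rw [(M.push_st hp hn).1]
  exact twW_eq fun i hi => by rw [h i hi]; rfl

theorem push_val (M : Mor T B T') (hB : T.Clo B) (e : B0 ⊆ B) {p : T.Cond} (h : Val B0 p) :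
    Val (M.h '' B0) (M.push p) := by
  refine ⟨fun m hm => ?_, fun m hm => ?_⟩
  · obtain ⟨n, hn, rfl⟩ := (M.mem_push_dom p m).1 hm
    exact ⟨n, h.1 hn, rfl⟩
  · obtain ⟨n, hn, rfl⟩ := (M.mem_push_dom p m).1 hm
    rw [(M.push_st (h.1.trans e) hn).2]
    exact M.vs_push hB e (e (h.1 hn)) (h.2 n hn)

theorem br_push (M : Mor T B T') (n : T.ι) (τ : List L) (S : T.Suc) (x : T'.X) :
    Br (twW (fun i => (M.tw n i).symm) τ) (M.pushS n S x) (x (M.h n)) ↔
      Br τ (S (M.pull x)) (M.pull x n) := br_tw _ _ _ _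

theorem inT_push (M : Mor T B T') (n : T.ι) (τ ρ : List L) (S : T.Suc) (x : T'.X) :
    InT τ (M.pushS n S x) ρ ↔ InT (twW (M.tw n) τ) (S (M.pull x)) (twW (M.tw n) ρ) :=
  inT_tw _ _ _ _

theorem push_sem (M : Mor T B T') {p : T.Cond} (hp : ↑p.dom ⊆ B) (x : T'.X) :
    Sem (M.push p) x ↔ Sem p (M.pull x) := by
  constructor
  · intro h n hn
    have := h _ ((M.mem_push_dom p _).2 ⟨n, hn, rfl⟩)
    rwa [(M.push_st hp hn).1, (M.push_st hp hn).2, br_push] at this
  · intro h m hm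
    obtain ⟨n, hn, rfl⟩ := (M.mem_push_dom p m).1 hm
    rw [(M.push_st hp hn).1, (M.push_st hp hn).2, br_push]
    exact h n hn

/-- restriction commutes with transport -/
theorem push_res_sem (M : Mor T B T') {p : T.Cond} (hp : ↑p.dom ⊆ B) {c : Set T.ι}
    {c' : Set T'.ι} (hc : ∀ n ∈ p.dom, M.h n ∈ c' ↔ n ∈ c) (x : T'.X) :
    Sem ((M.push p).res c') x ↔ Sem (p.res c) (M.pull x) := by
  classical
  constructor
  · intro h n hn
    have hn' := Finset.mem_filter.1 hn
    have := h (M.h n) (Finset.mem_filter.2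
      ⟨(M.mem_push_dom p _).2 ⟨n, hn'.1, rfl⟩, (hc n hn'.1).2 hn'.2⟩)
    change Br ((M.push p).st _) ((M.push p).S _ x) _ at this
    rwa [(M.push_st hp hn'.1).1, (M.push_st hp hn'.1).2, br_push] at this
  · intro h m hm
    have hm' := Finset.mem_filter.1 hm
    obtain ⟨n, hn, rfl⟩ := (M.mem_push_dom p m).1 hm'.1
    change Br ((M.push p).st _) ((M.push p).S _ x) _
    rw [(M.push_st hp hn).1, (M.push_st hp hn).2, br_push]
    exact h n (Finset.mem_filter.2 ⟨hn, (hc n hn).1 hm'.2⟩)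

/-- transport of the order -/
theorem push_leW (M : Mor T B T') {l : T.ι → Filter T.X} {l' : T'.ι → Filter T'.X}
    {q p : T.Cond} (hq : ↑q.dom ⊆ B) (hl : ∀ n ∈ p.dom, Tendsto M.pull (l' (M.h n)) (l n))
    (h : LeW l q p) : LeW l' (M.push q) (M.push p) := by
  have hp : ↑p.dom ⊆ B := (Finset.coe_subset.2 h.1).trans hq
  refine ⟨fun m hm => ?_, fun m hm => ?_⟩
  · obtain ⟨n, hn, rfl⟩ := (M.mem_push_dom p m).1 hm
    exact (M.mem_push_dom q _).2 ⟨n, h.1 hn, rfl⟩
  obtain ⟨n, hn, rfl⟩ := (M.mem_push_dom p m).1 hm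
  obtain ⟨h1, h2, h3⟩ := h.2 n hn
  rw [(M.push_st hp hn).1, (M.push_st hp hn).2, (M.push_st hq (h.1 hn)).1,
    (M.push_st hq (h.1 hn)).2]
  refine ⟨fun x τ a ha => h1 _ _ ha, twW_prefix _ h2, ?_⟩
  filter_upwards [(hl n hn).eventually h3] with x hx hs
  rw [inT_push, twW_symm, twW_symm]
  exact hx ((M.push_res_sem hq (c := Iio n) (c' := Iio (M.h n))
    (fun a ha => M.lt_iff (hq ha) (hp hn)) x).1 hs)

/-- every valid condition over the image is a transported one -/
theorem val_pull (M : Mor T B T') (hB : T.Clo B) (e : B0 ⊆ B) {q' : T'.Cond}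
    (h : Val (M.h '' B0) q') : ∃ q, Val B0 q ∧ (∀ m, m ∈ (M.push q).dom ↔ m ∈ q'.dom) ∧
      ∀ m ∈ q'.dom, (M.push q).st m = q'.st m ∧ (M.push q).S m = q'.S m := by
  have hv : Val B0 ((M.symm hB).push q') := by
    have := (M.symm hB).push_val (M.clo_image subset_rfl hB) (image_mono e) h
    rwa [symm_h, M.inv_image e] at this
  have hd : ∀ n ∈ B0, n ∈ ((M.symm hB).push q').dom ↔ M.h n ∈ q'.dom := by
    intro n hn
    rw [mem_push_dom]
    constructor
    · rintro ⟨m, hm, e'⟩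
      obtain ⟨a, ha, rfl⟩ := h.1 hm
      rw [symm_h, M.inv_h (e ha)] at e'
      exact e' ▸ hm
    · exact fun h' => ⟨_, h', M.inv_h (e hn)⟩
  refine ⟨_, hv, fun m => ?_, fun m hm => ?_⟩
  · rw [mem_push_dom]
    constructor
    · rintro ⟨n, hn, rfl⟩
      exact (hd n (hv.1 hn)).1 hn
    · intro hm
      obtain ⟨n, hn, rfl⟩ := h.1 hm
      exact ⟨n, (hd n hn).2 hm, rfl⟩
  · obtain ⟨n, hn, rfl⟩ := h.1 hm
    have h1 := M.push_st (hv.1.trans e) ((hd n hn).2 hm)
    have h2 := (M.symm hB).push_st (h.1.trans (image_mono e)) hm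
    rw [symm_h, M.inv_h (e hn)] at h2
    rw [h1.1, h1.2, h2.1, h2.2]
    refine ⟨?_, M.pushS_symm hB e (e hn) fun τ a => ((h.2 _ hm).1 τ a).mono inter_subset_left⟩
    change twW _ (twW (fun i => (M.tw (M.inv (M.h n)) i).symm.symm) _) = _
    rw [M.inv_h (e hn)]
    exact twW_symm' _ _

theorem push_preD (M : Mor T B T') (hB : T.Clo B) (e : B0 ⊆ B) {l : T.ι → Filter T.X}
    {l' : T'.ι → Filter T'.X} (hl : ∀ n ∈ B0, Tendsto M.pull (l' (M.h n)) (l n))
    {A : Set T.Cond} (h : PreD B0 l A) : PreD (M.h '' B0) l' (M.push '' A) := by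
  refine ⟨?_, fun q' hq' => ?_⟩
  · rintro _ ⟨p, hp, rfl⟩
    exact M.push_val hB e (h.1 p hp)
  obtain ⟨q, hq, h1, h2⟩ := M.val_pull hB e hq'
  obtain ⟨p, hp, r, hr, h3, h4⟩ := h.2 q hq
  exact ⟨_, ⟨p, hp, rfl⟩, M.push r, M.push_val hB e hr,
    M.push_leW (hr.1.trans e) (fun n hn => hl n ((h.1 p hp).1 hn)) h3,
    leW_congr (M.push_leW (hr.1.trans e) (fun n hn => hl n (hq.1 hn)) h4)
      fun m hm => ⟨(h1 m).2 hm, h2 m hm⟩⟩

theorem pull_step (M : Mor T B T') (hB : T.Clo B) (e : B0 ⊆ B)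
    (ih : ∀ n ∈ B0, Tendsto M.pull (T'.ae (M.h '' (B0 ∩ Iio n))) (T.ae (B0 ∩ Iio n))) :
    Tendsto M.pull (T'.ae (M.h '' B0)) (T.ae B0) := by
  refine le_countableGenerate_iff_of_countableInterFilter.2 ?_
  rintro _ ⟨A, hc, hA, rfl⟩
  have h1 : PreD (M.h '' B0) (aeAt (M.h '' B0)) (M.push '' A) :=
    M.push_preD hB e (fun n hn => by
      rw [aeAt_eq, aeAt_eq, ← M.image_Iio e (e hn)]; exact ih n hn) hA
  have h2 : {x | ∃ p ∈ M.push '' A, Sem p x} ∈ T'.ae (M.h '' B0) :=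
    CountableGenerateSets.basic ⟨_, hc.image _, h1, rfl⟩
  refine mem_map.2 (mem_of_superset h2 ?_)
  rintro x ⟨_, ⟨p, hp, rfl⟩, hx⟩
  exact ⟨p, hp, (M.push_sem ((hA.1 p hp).1.trans e) x).1 hx⟩

/-- transport for every subset of the domain -/
theorem pull_ae_sub (M : Mor T B T') (hB : T.Clo B) (e : B0 ⊆ B) :
    Tendsto M.pull (T'.ae (M.h '' B0)) (T.ae B0) := by
  refine M.pull_step hB e fun n _ => ?_
  induction n using WellFoundedLT.induction with
  | ind n ih =>
    refine M.pull_step hB (inter_subset_left.trans e) fun m hm => ?_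
    have : B0 ∩ Iio n ∩ Iio m = B0 ∩ Iio m := by
      rw [inter_assoc, inter_eq_right.2 (Iio_subset_Iio hm.2.le)]
    rw [this]
    exact ih m hm.2 hm.1

/-- the main transport statement -/
theorem pull_ae (M : Mor T B T') (hB : T.Clo B) : Tendsto M.pull (T'.ae (M.h '' B)) (T.ae B) :=
  M.pull_ae_sub hB subset_rfl

theorem sec_ae (M : Mor T B T') (hB : T.Clo B) (e : B0 ⊆ B) :
    Tendsto M.sec (T.ae B0) (T'.ae (M.h '' B0)) := by
  have := (M.symm hB).pull_ae_sub (M.clo_image subset_rfl hB) (image_mono e)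
  rwa [symm_h, M.inv_image e] at this

/-- the converse for sets that depend on `B` -/
theorem pull_ae' (M : Mor T B T') (hB : T.Clo B) {P : T.X → Prop} (hP : MD B P)
    (h : ∀ᶠ x in T'.ae (M.h '' B), P (M.pull x)) : ∀ᶠ x in T.ae B, P x :=
  ((M.sec_ae hB subset_rfl).eventually h).mono fun x hx =>
    (hP.2 _ _ fun _ hn => M.pull_sec x hn).1 hx

open Classical in
/-- twisting the node `a` by `g` from level `k` on -/
noncomputable def twist (T : Tpl) (B : Set T.ι) (a : T.ι) (ha : ¬ T.isK a)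
    (hB : ∀ n ∈ B, a ∉ T.supp n) (g : Aut) (D0 : ℕ) (hg : Pres g D0) (k : ℕ) : Mor T B T where
  h n := n
  tw n i := if n = a ∧ k ≤ i then g else LinearEquiv.refl _ _
  mono := fun _ _ _ _ h => h
  isK _ _ := Iff.rfl
  supp _ _ := by simp
  dm n hn x i o := (T.dm_md n i o).2 _ _ fun m hm => by
    funext j
    rw [if_neg fun h : m = a ∧ k ≤ j => hB n hn (h.1 ▸ hm), twL_refl]
  twK n _ hK i := if_neg fun h : n = a ∧ k ≤ i => ha (h.1 ▸ hK)
  twE n _ := by
    refine ⟨k, D0, fun i hi => ?_⟩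
    by_cases h : n = a
    · rw [if_pos ⟨h, hi⟩, if_pos ⟨h, le_rfl⟩]
      exact ⟨rfl, hg⟩
    · rw [if_neg fun h' : n = a ∧ k ≤ i => h h'.1, if_neg fun h' : n = a ∧ k ≤ k => h h'.1]
      exact ⟨rfl, pres_refl _⟩

end Mor

end Pool.Agent.MP_e30343_lc.SO

end
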