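import Mathlib
import Pool.Agent.MP_e30343_lc.Mg.SO_Mor
import Pool.Agent.MP_e30343_lc.SO.BG
import Pool.Agent.MP_e30343_lc.SO.RealA

attribute [-instance] Unique.instInhabited RKHS.instFunLike GeneralizedCoheytingAlgebra.toLattice
  ConditionallyCompletePartialOrderSup.toPartialOrder Nontrivial.to_nonempty NeZero.charZero_one
  instInhabitedOfMonad GrpTypeEquivalenceGrp.grpGroup HasDistribNeg.toInvolutiveNeg instCoeTCOfCoe
  bot_nonempty ContinuousMonoidHom.instCoeOutOfMonoidHomClassOfContinuousMapClass Zero.instNonempty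
  One.instNonempty AddTorsor.nonempty Order.Coframe.toCompleteLattice IdemSemiring.toMulLeftMono
  GeneralizedHeytingAlgebra.toLattice ConnectedSpace.toNonempty Fintype.decidableForallFintype
  BoundedOrder.toOrderBot CompletelyDistribLattice.toCompleteLattice DivisionMonoid.toInvolutiveInv
  Torsor.nonempty CategoryTheory.IsConnected.is_nonempty IrreducibleSpace.toNonempty top_nonempty
  OmegaCompletePartialOrder.toPartialOrder supSet_to_nonempty infSet_to_nonempty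
  Group.IsPerfect.subsingleton_of_isMulCommutative ChainCompletePartialOrder.toPartialOrder
  ContinuousSemilinearMapClass.toSemilinearMapClass SubtractionMonoid.toInvolutiveNeg
  instCoeHTCTOfCoeTailOfCoeHTC instFintypeProd Quantale.instMulLeftMono
  ConditionallyCompletePartialOrderInf.toPartialOrder Order.Frame.toCompleteLattice
  CompleteSemilatticeInf.toPartialOrder CompleteSemilatticeSup.toPartialOrder
  instCoeHTCOfCoeHeadOfCoeOTC IsOrderedMonoid.toMulLeftMono Std.instDecidableLE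

-- part MP_e30343_lc.SO.Gen
section

namespace Pool.Agent.MP_e30343_lc.SO

open Filter Set

/-- Rasiowa-Sikorski with requirements produced along the way. -/
theorem dyn_rs {σ τ : Type} (R : σ → σ → Prop) (Sol : σ → τ → Prop) (gen : σ → ℕ → τ)
    (h : ∀ s t, ∃ s', R s s' ∧ Sol s' t) (s0 : σ) :
    ∃ f : ℕ → σ, f 0 = s0 ∧ (∀ j, R (f j) (f (j + 1))) ∧
      ∀ j i, ∃ k, Sol (f (k + 1)) (gen (f j) i) := by
  classical
  choose nx hR hS using h
  let F : ℕ → ℕ → σ := fun k => Nat.rec (motive := fun _ => ℕ → σ) (fun _ => s0)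
    (fun k g => Function.update g (k + 1) (nx (g k) (gen (g k.unpair.1) k.unpair.2))) k
  have hF : ∀ k, F (k + 1) =
      Function.update (F k) (k + 1) (nx (F k k) (gen (F k k.unpair.1) k.unpair.2)) := fun _ => rfl
  have hst : ∀ k j, j ≤ k → F k j = F j j := by
    intro k
    induction k with
    | zero => intro j hj; obtain rfl : j = 0 := by omega
              rfl
    | succ k ih =>
      intro j hj
      rcases Nat.lt_or_eq_of_le hj with h | h
      · rw [hF, Function.update_of_ne (by omega)]; exact ih j (by omega)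
      · rw [h]
  have hs : ∀ k, F (k + 1) (k + 1) =
      nx (F k k) (gen (F k.unpair.1 k.unpair.1) k.unpair.2) := by
    intro k
    rw [hF, Function.update_self, hst k _ (Nat.unpair_left_le k)]
  refine ⟨fun k => F k k, rfl, fun j => ?_, fun j i => ⟨Nat.pair j i, ?_⟩⟩
  · simp only [hs]; exact hR _ _
  · simp only [hs, Nat.unpair_pair]; exact hS _ _

/-- A measurable predicate on a product depends on countably many coordinates. -/
theorem exists_ctble_dep {ι Y : Type} [MeasurableSpace Y] {P : (ι → Y) → Prop}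
    (hP : Measurable P) : ∃ J : Set ι, J.Countable ∧ DependsOn P J := by
  have key : ∀ s : Set (ι → Y), MeasurableSet s →
      ∃ J : Set ι, J.Countable ∧ DependsOn (fun x => x ∈ s) J := by
    intro s hs
    refine MeasurableSpace.induction_on_inter (C := fun s _ =>
      ∃ J : Set ι, J.Countable ∧ DependsOn (fun x => x ∈ s) J)
      MeasureTheory.generateFrom_measurableCylinders.symm
      MeasureTheory.isPiSystem_measurableCylinders ?_ ?_ ?_ ?_ s hs
    · exact ⟨∅, countable_empty, fun _ _ _ => rfl⟩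
    · intro t ht
      obtain ⟨I, S, -, rfl⟩ := (MeasureTheory.mem_measurableCylinders t).1 ht
      refine ⟨I, I.countable_toSet, fun x y hxy => ?_⟩
      have : I.restrict x = I.restrict y := by
        funext i; exact hxy i i.2
      simp only [MeasureTheory.mem_cylinder, this]
    · rintro t - ⟨J, hJ, h⟩
      exact ⟨J, hJ, fun x y hxy => congrArg Not (h hxy)⟩
    · intro f _ _ h
      choose J hJ h using h
      refine ⟨⋃ k, J k, countable_iUnion hJ, fun x y hxy => ?_⟩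
      simp only [mem_iUnion]
      exact congrArg Exists (funext fun k => h k fun i hi => hxy i (mem_iUnion.2 ⟨k, hi⟩))
  exact key {x | P x} (measurableSet_setOfPred.2 hP)

theorem dependsOn_inter {ι Y Z : Type} {P : (ι → Y) → Z} {B J : Set ι} (hB : DependsOn P B)
    (hJ : DependsOn P J) : DependsOn P (B ∩ J) := by
  classical
  intro x y hxy
  have h1 : P x = P (B.piecewise x y) := hB fun i hi => by rw [piecewise_eq_of_mem _ _ _ hi]
  rw [h1]
  refine hJ fun i hi => ?_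
  by_cases h : i ∈ B
  · rw [piecewise_eq_of_mem _ _ _ h]; exact hxy i ⟨h, hi⟩
  · rw [piecewise_eq_of_notMem _ _ _ h]

end Pool.Agent.MP_e30343_lc.SO

end

-- part MP_e30343_lc.SO.Gen54
section

/-!
Two general tools: countable coherent subfamilies of finite functions, and measurable versions of
greatest fixed points.
-/


namespace Pool.Agent.MP_e30343_lc.SO

open Set Filter

/-- One step: relative to a countable set `I` of nodes, countably many members realise all traces. -/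
theorem g54_step {ι A P : Type*} [Countable A] (dom : P → Finset ι) (st : P → ι → A) (S : Set P)
    {I : Set ι} (hI : I.Countable) :
    ∃ C ⊆ S, C.Countable ∧ ∀ p ∈ S, ∃ q ∈ C, ∀ n ∈ I, (n ∈ dom p ↔ n ∈ dom q) ∧
      (n ∈ dom p → st p n = st q n) := by
  classical
  have := hI.to_subtype
  let tr : P → Finset (I × A) := fun p =>
    ((dom p).subtype (· ∈ I)).image fun n => (n, st p n)
  have key : ∀ p q, tr p = tr q → ∀ n ∈ I, n ∈ dom p → n ∈ dom q ∧ st p n = st q n := by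
    intro p q h n hn hp
    have h1 : ((⟨n, hn⟩ : I), st p n) ∈ tr q :=
      h ▸ Finset.mem_image.2 ⟨⟨n, hn⟩, Finset.mem_subtype.2 hp, rfl⟩
    obtain ⟨m, hm, e⟩ := Finset.mem_image.1 h1
    obtain ⟨e1, e2⟩ := Prod.mk.inj e
    subst e1
    exact ⟨Finset.mem_subtype.1 hm, e2.symm⟩
  have h1 : ∀ t : tr '' S, ∃ p ∈ S, tr p = t := fun t => t.2
  choose f hf hf' using h1
  refine ⟨range f, range_subset_iff.2 hf, countable_range f, fun p hp => ?_⟩
  refine ⟨f ⟨tr p, p, hp, rfl⟩, mem_range_self _, fun n hn => ?_⟩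
  have e : tr p = tr (f ⟨tr p, p, hp, rfl⟩) := (hf' ⟨tr p, p, hp, rfl⟩).symm
  exact ⟨⟨fun h => (key _ _ e n hn h).1, fun h => (key _ _ e.symm n hn h).1⟩,
    fun h => (key _ _ e n hn h).2⟩

/-- Every family of finite functions into a countable type has a countable subfamily such that each
member agrees with a member of the subfamily on the common domain. -/
theorem g54_ccc {ι A P : Type*} [Countable A] (dom : P → Finset ι) (st : P → ι → A) (S : Set P) :
    ∃ C ⊆ S, C.Countable ∧ ∀ p ∈ S, ∃ q ∈ C, ∀ n ∈ dom p, n ∈ dom q → st p n = st q n := by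
  classical
  choose F hF hFc hFp using fun I : {I : Set ι // I.Countable} => g54_step dom st S I.2
  let nx : {I : Set ι // I.Countable} → {I : Set ι // I.Countable} := fun I =>
    ⟨I.1 ∪ ⋃ q ∈ F I, (dom q : Set ι),
      I.2.union ((hFc I).biUnion fun q _ => (dom q).countable_toSet)⟩
  let J : ℕ → {I : Set ι // I.Countable} := fun k => nx^[k] ⟨∅, countable_empty⟩
  have hJ : ∀ k, J (k + 1) = nx (J k) := fun k => Function.iterate_succ_apply' _ _ _
  have mono : Monotone fun k => (J k).1 :=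
    monotone_nat_of_le_succ fun k => by rw [hJ]; exact subset_union_left
  refine ⟨⋃ k, F (J k), iUnion_subset fun k => hF _, countable_iUnion fun k => hFc _,
    fun p hp => ?_⟩
  have h1 : ∃ k, ∀ n ∈ dom p, (∃ j, n ∈ (J j).1) → n ∈ (J k).1 := by
    have h2 : ∀ n, ∃ k, (∃ j, n ∈ (J j).1) → n ∈ (J k).1 := fun n => by
      by_cases h : ∃ j, n ∈ (J j).1
      · exact h.imp fun j hj _ => hj
      · exact ⟨0, fun h' => absurd h' h⟩
    choose g hg using h2
    exact ⟨(dom p).sup g, fun n hn h => mono (Finset.le_sup hn) (hg n h)⟩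
  obtain ⟨k, hk⟩ := h1
  obtain ⟨q, hq, h⟩ := hFp (J k) p hp
  refine ⟨q, mem_iUnion.2 ⟨k, hq⟩, fun n hn hn' => (h n (hk n hn ⟨k + 1, ?_⟩)).2 hn⟩
  rw [hJ]
  exact Or.inr (mem_biUnion hq hn')

/-- Greatest fixed points of monotone operators that preserve a class `M` of measurable predicates
agree almost everywhere with a measurable family containing them.  `M` is any class of predicates
closed under complements and countable intersections; `ess` is the essential supremum property. -/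
theorem g54_gfp {X A : Type*} [Countable A] (l : Filter X) [CountableInterFilter l]
    (M : (X → Prop) → Prop) (top : M fun _ => True) (neg : ∀ P, M P → M fun x => ¬ P x)
    (all : ∀ P : ℕ → X → Prop, (∀ n, M (P n)) → M fun x => ∀ n, P n x)
    (ess : ∀ F : Set (X → Prop), (∀ P ∈ F, M P) →
      ∃ C ⊆ F, C.Countable ∧ ∀ P ∈ F, ∀ᶠ x in l, P x → ∃ Q ∈ C, Q x)
    (Φ : X → Set A → Set A) (mono : ∀ x, Monotone (Φ x))
    (meas : ∀ G : X → Set A, (∀ a, M fun x => a ∈ G x) → ∀ a, M fun x => a ∈ Φ x (G x)) :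
    ∃ G : X → Set A, (∀ a, M fun x => a ∈ G x) ∧ (∀ x W, W ⊆ Φ x W → W ⊆ G x) ∧
      ∀ᶠ x in l, G x ⊆ Φ x (G x) := by
  classical
  let 𝒢 : Set (X → Set A) :=
    {G | (∀ a, M fun x => a ∈ G x) ∧ ∀ x W, W ⊆ Φ x W → W ⊆ G x}
  have h0 : (fun _ => univ) ∈ 𝒢 := ⟨fun _ => top, fun _ _ _ => subset_univ _⟩
  have h1 : ∀ a, ∃ D ⊆ 𝒢, D.Countable ∧ ∀ G ∈ 𝒢, ∀ᶠ x in l, a ∉ G x → ∃ G' ∈ D, a ∉ G' x := by
    intro a
    obtain ⟨C, hC, hc, h⟩ := ess ((fun G x => a ∉ G x) '' 𝒢)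
      (by rintro _ ⟨G, hG, rfl⟩; exact neg _ (hG.1 a))
    have h2 : ∀ Q : C, ∃ G ∈ 𝒢, (fun x => a ∉ G x) = Q := fun Q => hC Q.2
    choose f hf hf' using h2
    have := hc.to_subtype
    refine ⟨range f, range_subset_iff.2 hf, countable_range f, fun G hG => ?_⟩
    filter_upwards [h _ ⟨G, hG, rfl⟩] with x hx ha
    obtain ⟨Q, hQ, hq⟩ := hx ha
    exact ⟨_, mem_range_self ⟨Q, hQ⟩, (congrFun (hf' ⟨Q, hQ⟩) x).mpr hq⟩
  choose D hD hc h using h1
  have hc' : (insert (fun _ => univ) (⋃ a, D a)).Countable := (countable_iUnion hc).insert _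
  obtain ⟨e, he⟩ := hc'.exists_eq_range (insert_nonempty _ _)
  have he' : ∀ n, e n ∈ 𝒢 := fun n => by
    have : e n ∈ insert (fun _ => univ) (⋃ a, D a) := he ▸ mem_range_self n
    rcases this with h' | h'
    · exact h' ▸ h0
    · obtain ⟨a, ha⟩ := mem_iUnion.1 h'
      exact hD a ha
  have hG : (fun x => {a | ∀ n, a ∈ e n x}) ∈ 𝒢 :=
    ⟨fun a => all (fun n x => a ∈ e n x) fun n => (he' n).1 a,
      fun x W hW a ha n => (he' n).2 x W hW ha⟩
  refine ⟨_, hG.1, hG.2, ?_⟩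
  have hΦ : (fun x => Φ x {a | ∀ n, a ∈ e n x}) ∈ 𝒢 :=
    ⟨meas _ hG.1, fun x W hW => hW.trans (mono x (hG.2 x W hW))⟩
  filter_upwards [eventually_countable_forall.2 fun a => h a _ hΦ] with x hx a ha
  by_contra hn
  obtain ⟨G', hG', h'⟩ := hx a hn
  obtain ⟨n, rfl⟩ : G' ∈ range e := he ▸ mem_insert_of_mem _ (mem_iUnion.2 ⟨a, hG'⟩)
  exact h' (ha n)

end Pool.Agent.MP_e30343_lc.SO

end

-- part MP_e30343_lc.SO.ApiA
section

/-! The order on conditions over a set of nodes; gluing; initial segments. -/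

open Filter Set

namespace Pool.Agent.MP_e30343_lc.SO

theorem ap_inT_mono {S S' : List L → Set L} {σ τ : List L} (h : InT σ S τ)
    (hS : ∀ ρ, S ρ ⊆ S' ρ) : InT σ S' τ := ⟨h.1, fun ρ e a b => hS _ (h.2 ρ e a b)⟩

theorem ap_br_mono {S S' : List L → Set L} {σ : List L} {y : ℕ → L} (h : Br σ S y)
    (hS : ∀ ρ, S ρ ⊆ S' ρ) : Br σ S' y := ⟨h.1, fun i h' => hS _ (h.2 i h')⟩

theorem ap_pre_eq {σ : List L} {y : ℕ → L} {i : ℕ} (h : σ <+: pre y i) :
    pre y σ.length = σ := by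
  have h1 : σ.length ≤ i := by simpa [length_pre] using h.length_le
  exact (List.prefix_of_prefix_length_le (pre_le y h1) h (by simp [length_pre])).eq_of_length
    (by simp [length_pre])

theorem ap_br_of_inT {S : List L → Set L} {σ : List L} {y : ℕ → L}
    (h : ∀ i, ∃ j, i ≤ j ∧ InT σ S (pre y j)) : Br σ S y := by
  obtain ⟨j0, -, h0⟩ := h 0
  refine ⟨ap_pre_eq h0.1, fun i hi => ?_⟩
  obtain ⟨j, hij, hj⟩ := h (i + 1)
  refine hj.2 _ _ ?_ (pre_succ y i ▸ pre_le y hij)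
  rw [← ap_pre_eq h0.1]; exact pre_le y hi

theorem ap_inT_cut {S : List L → Set L} {σ τ ρ : List L} (h : InT σ S ρ) (h1 : σ <+: τ)
    (h2 : τ <+: ρ) : InT σ S τ := ⟨h1, fun a e b c => h.2 a e b (c.trans h2)⟩

theorem ap_lim (σ : ℕ → List L) (ok : ℕ → Prop)
    (h : ∀ j k, j ≤ k → ok j → ok k → σ j <+: σ k) :
    ∃ y : ℕ → L, ∀ j, ok j → pre y (σ j).length = σ j := by
  classical
  refine ⟨fun i => if h : ∃ j, ok j ∧ i < (σ j).length then (σ h.choose)[i]'h.choose_spec.2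
    else default, fun j hj => ?_⟩
  refine List.ext_getElem (by simp [pre]) fun i h1 h2 => ?_
  have h3 : ∃ j, ok j ∧ i < (σ j).length := ⟨j, hj, h2⟩
  simp only [pre, List.getElem_ofFn, dif_pos h3]
  rcases le_total j h3.choose with h4 | h4
  · exact ((h _ _ h4 hj h3.choose_spec.1).getElem h2).symm
  · exact (h _ _ h4 h3.choose_spec.1 hj).getElem _

theorem ap_Iio {ι : Type} [LinearOrder ι] (B : Set ι) {m n : ι} (h : m ≤ n) :
    B ∩ Iio n ∩ Iio m = B ∩ Iio m := by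
  rw [inter_assoc, Iio_inter_Iio, min_eq_right h]

namespace Tpl

variable {T : Tpl} {B C c : Set T.ι} {p q r s w : T.Cond} {n m : T.ι} {x : T.X}
  {l l' : T.ι → Filter T.X} {P : T.X → Prop}

theorem mem_res_dom : m ∈ (p.res c).dom ↔ m ∈ p.dom ∧ m ∈ c := by simp [Cond.res]
theorem res_st : (p.res c).st = p.st := rfl
theorem res_S : (p.res c).S = p.S := rfl

theorem sem_res39 : Sem (p.res c) x ↔ ∀ m ∈ p.dom, m ∈ c → Br (p.st m) (p.S m x) (x m) := by
  simp only [Sem, mem_res_dom, and_imp, res_st, res_S]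

theorem Sem.res (h : Sem p x) (c : Set T.ι) : Sem (p.res c) x := sem_res39.2 fun m hm _ => h m hm

theorem sem_res_res (h : m ≤ n) : Sem ((p.res (Iio n)).res (Iio m)) x ↔ Sem (p.res (Iio m)) x := by
  simp only [sem_res39, mem_res_dom, res_st, res_S]
  exact ⟨fun a k b d => a k ⟨b, lt_of_lt_of_le d h⟩ d, fun a k b d => a k b.1 d⟩

theorem sem_res_of (h : ∀ m ∈ p.dom, m ∈ c) : Sem (p.res c) x ↔ Sem p x :=
  ⟨fun h' m hm => sem_res39.1 h' m hm (h m hm), fun h' => h'.res c⟩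

/-- direct extension -/
def Dx (q p : T.Cond) : Prop :=
  ∀ n ∈ p.dom, n ∈ q.dom ∧ q.st n = p.st n ∧ ∀ x τ, q.S n x τ ⊆ p.S n x τ

theorem Dx.refl (p : T.Cond) : Dx p p := fun _ h => ⟨h, rfl, fun _ _ => Subset.rfl⟩

theorem Dx.trans (h : Dx r q) (h' : Dx q p) : Dx r p := fun n hn =>
  ⟨(h n (h' n hn).1).1, (h n (h' n hn).1).2.1.trans (h' n hn).2.1,
    fun x τ => ((h n (h' n hn).1).2.2 x τ).trans ((h' n hn).2.2 x τ)⟩

theorem Dx.sem (h : Dx q p) (hx : Sem q x) : Sem p x := fun n hn =>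
  (h n hn).2.1 ▸ ap_br_mono (hx n (h n hn).1) ((h n hn).2.2 x)

theorem Dx.res (h : Dx q p) (c : Set T.ι) : Dx (q.res c) (p.res c) := fun m hm =>
  ⟨mem_res_dom.2 ⟨(h m (mem_res_dom.1 hm).1).1, (mem_res_dom.1 hm).2⟩,
    (h m (mem_res_dom.1 hm).1).2⟩

theorem dx_res (p : T.Cond) (c : Set T.ι) : Dx p (p.res c) := fun _ hm =>
  ⟨(mem_res_dom.1 hm).1, rfl, fun _ _ => Subset.rfl⟩

/-- union of two conditions, the stems of the first one having priority -/
def join (q r : T.Cond) : T.Cond :=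
  ⟨q.dom ∪ r.dom, fun n => if n ∈ q.dom then q.st n else r.st n,
    fun n x τ => {e | n ∈ q.dom → e ∈ q.S n x τ} ∩ {e | n ∈ r.dom → e ∈ r.S n x τ}⟩

theorem mem_join_dom : n ∈ (join q r).dom ↔ n ∈ q.dom ∨ n ∈ r.dom := by simp [join]

theorem join_st_left (h : n ∈ q.dom) : (join q r).st n = q.st n := if_pos h
theorem join_st_right (h : n ∉ q.dom) : (join q r).st n = r.st n := if_neg h

theorem join_dx (q r : T.Cond) : Dx (join q r) q := fun _ hn =>
  ⟨mem_join_dom.2 (Or.inl hn), join_st_left hn, fun _ _ _ he => he.1 hn⟩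

theorem join_dx_right (h : ∀ n ∈ q.dom, n ∈ r.dom → q.st n = r.st n) : Dx (join q r) r :=
  fun n hn => ⟨mem_join_dom.2 (Or.inr hn), by
    by_cases h' : n ∈ q.dom
    · rw [join_st_left h', h n h' hn]
    · exact join_st_right h', fun _ _ _ he => he.2 hn⟩

theorem Clo.init (h : T.Clo B) (n : T.ι) : T.Clo (B ∩ Iio n) :=
  h.inter (clo_lower (isLowerSet_Iio n))

theorem vs_imp {a : Prop} {S : T.Suc} (h : a → T.VS B n S) :
    T.VS B n fun x τ => {e | a → e ∈ S x τ} := by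
  by_cases ha : a
  · simpa [ha] using h ha
  · simpa [ha] using vs_univ B n

theorem Val.init (h : Val B p) (n : T.ι) : Val (B ∩ Iio n) (p.res (Iio n)) :=
  h.res_lower (isLowerSet_Iio n)

theorem Val.lt (h : Val (B ∩ Iio n) p) : ∀ m ∈ p.dom, m < n := fun _ hm => (h.1 hm).2

theorem Val.join (hq : Val B q) (hr : Val B r) : Val B (join q r) :=
  ⟨fun _ hn => (mem_join_dom.1 hn).elim (fun h => hq.1 h) fun h => hr.1 h,
    fun n _ => (vs_imp fun h => hq.2 n h).inter (vs_imp fun h => hr.2 n h)⟩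

theorem mem_one {σ : List L} {S : T.Suc} : m ∈ (one n σ S).dom ↔ m = n := by simp [one]

theorem val_one {σ : List L} {S : T.Suc} (hn : n ∈ B) (h : T.VS B n S) : Val B (one n σ S) :=
  ⟨fun _ hm => mem_one.1 hm ▸ hn, fun _ hm => mem_one.1 hm ▸ h⟩

theorem leW_iff : LeW l q p ↔ ∀ n ∈ p.dom, n ∈ q.dom ∧ p.st n <+: q.st n ∧
    (∀ x τ, q.S n x τ ⊆ p.S n x τ) ∧
    ∀ᶠ x in l n, Sem (q.res (Iio n)) x → InT (p.st n) (p.S n x) (q.st n) :=
  ⟨fun h n hn => ⟨h.1 hn, (h.2 n hn).2.1, (h.2 n hn).1, (h.2 n hn).2.2⟩,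
    fun h => ⟨fun n hn => (h n hn).1, fun n hn => ⟨(h n hn).2.2.1, (h n hn).2.1, (h n hn).2.2.2⟩⟩⟩

theorem LeW.mono' (h : LeW l q p) (e : ∀ n ∈ p.dom, l' n ≤ l n) : LeW l' q p :=
  ⟨h.1, fun n hn => ⟨(h.2 n hn).1, (h.2 n hn).2.1, e n hn (h.2 n hn).2.2⟩⟩

theorem Dx.le (h : Dx q p) : LeW l q p := leW_iff.2 fun n hn =>
  ⟨(h n hn).1, (h n hn).2.1 ▸ List.prefix_refl _, (h n hn).2.2,
    Eventually.of_forall fun _ _ => (h n hn).2.1 ▸ InT.refl _ _⟩

theorem LeW.dx_left (h' : LeW l q p) (h : Dx r q) : LeW l r p := leW_iff.2 fun n hn => by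
  obtain ⟨h1, h2, h3, h4⟩ := leW_iff.1 h' n hn
  obtain ⟨g1, g2, g3⟩ := h n h1
  exact ⟨g1, g2 ▸ h2, fun x τ => (g3 x τ).trans (h3 x τ),
    h4.mono fun x hx hr => g2 ▸ hx ((h.res _).sem hr)⟩

theorem LeW.dx_right (h' : LeW l r q) (h : Dx q p) : LeW l r p := leW_iff.2 fun n hn => by
  obtain ⟨g1, g2, g3⟩ := h n hn
  obtain ⟨h1, h2, h3, h4⟩ := leW_iff.1 h' n g1
  exact ⟨h1, g2 ▸ h2, fun x τ => (h3 x τ).trans (g3 x τ),
    h4.mono fun x hx hr => g2 ▸ ap_inT_mono (hx hr) (g3 x)⟩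

/-- the order implies inclusion for every filter finer than the level filters -/
theorem LeW.sub (h : LeW l q p) {F : Filter T.X} (hF : ∀ n ∈ p.dom, F ≤ l n) :
    ∀ᶠ x in F, Sem q x → Sem p x := by
  have : ∀ᶠ x in F, ∀ m ∈ p.dom, Sem (q.res (Iio m)) x → InT (p.st m) (p.S m x) (q.st m) :=
    (eventually_all_finset _).2 fun m hm => hF m hm (h.2 m hm).2.2
  filter_upwards [this] with x hx hq m hm
  exact (hx m hm (hq.res _)).br (ap_br_mono (hq m (h.1 hm)) ((h.2 m hm).1 x))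

/-- the order over `B` -/
def LeB (B : Set T.ι) (q p : T.Cond) : Prop := LeW (fun n => T.ae (B ∩ Iio n)) q p

/-- predense families over `B` -/
def Pd (B : Set T.ι) (D : Set T.Cond) : Prop := PreD B (fun n => T.ae (B ∩ Iio n)) D

theorem ae_eq (B : Set T.ι) : T.ae B = genF B fun n => T.ae (B ∩ Iio n) := by
  rw [ae, show aeAt B = fun n => T.ae (B ∩ Iio n) from funext (aeAt_eq B)]

theorem Pd.ev {D : Set T.Cond} (h : Pd B D) (hc : D.Countable) :
    ∀ᶠ x in T.ae B, ∃ d ∈ D, Sem d x := by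
  rw [ae_eq]
  exact CountableGenerateSets.basic ⟨D, hc, h, rfl⟩

theorem ev_elim (h : ∀ᶠ x in T.ae B, P x) :
    ∃ 𝒟 : Set (Set T.Cond), 𝒟.Countable ∧ (∀ D ∈ 𝒟, D.Countable ∧ Pd B D) ∧
      ∀ x, (∀ D ∈ 𝒟, ∃ d ∈ D, Sem d x) → P x := by
  rw [ae_eq] at h
  obtain ⟨S, hS, hc, hP⟩ := mem_countableGenerate_iff.1 h
  choose! D hD using fun A (hA : A ∈ S) => hS hA
  refine ⟨D '' S, hc.image _, ?_, fun x hx => hP fun A hA => ?_⟩
  · rintro _ ⟨A, hA, rfl⟩
    exact ⟨(hD A hA).1, (hD A hA).2.1⟩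
  · rw [(hD A hA).2.2]; exact hx _ ⟨A, hA, rfl⟩

theorem ae_le_of_pd (h : ∀ D, Pd C D → Pd B D) : T.ae B ≤ T.ae C := by
  intro A hA
  obtain ⟨𝒟, hc, h1, h2⟩ := ev_elim (P := fun x => x ∈ A) hA
  have : ∀ᶠ x in T.ae B, ∀ D ∈ 𝒟, ∃ d ∈ D, Sem d x :=
    (eventually_countable_ball hc).2 fun D hD => (h D (h1 D hD).2).ev (h1 D hD).1
  exact this.mono h2

theorem LeB.refl (p : T.Cond) : LeB B p p := (Dx.refl p).le

theorem LeB.of_init (h : LeB (B ∩ Iio n) q p) (hp : ∀ m ∈ p.dom, m < n) : LeB B q p :=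
  LeW.mono' h fun m hm => by rw [ap_Iio B (hp m hm).le]

theorem LeB.res (h : LeB B q p) (n : T.ι) : LeB (B ∩ Iio n) (q.res (Iio n)) (p.res (Iio n)) :=
  leW_iff.2 fun m hm => by
    obtain ⟨hm1, hm2⟩ := mem_res_dom.1 hm
    obtain ⟨h1, h2, h3, h4⟩ := leW_iff.1 h m hm1
    refine ⟨mem_res_dom.2 ⟨h1, hm2⟩, h2, h3, ?_⟩
    simpa only [ap_Iio B (le_of_lt hm2), sem_res_res (le_of_lt hm2), res_S, res_st] using h4

/-- gluing below a node -/
theorem glue (hs : Val (B ∩ Iio n) s) (hw : Val B w) (hr : Val B r)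
    (h1 : LeB (B ∩ Iio n) s (w.res (Iio n))) (h2 : LeB (B ∩ Iio n) s (r.res (Iio n)))
    (h : ∀ m ∈ w.dom, m ∈ r.dom → n ≤ m → w.st m = r.st m ∨ (m = n ∧ r.st n <+: w.st n ∧
      ∀ᶠ x in T.ae (B ∩ Iio n), Sem s x → InT (r.st n) (r.S n x) (w.st n))) :
    ∃ t, Val B t ∧ LeB B t w ∧ LeB B t r ∧ Dx t s := by
  have hlt := hs.lt
  have hdx : Dx (join (join s w) r) s := (join_dx _ _).trans (join_dx _ _)
  have h1' := leW_iff.1 (LeW.dx_left (h1.of_init fun m hm => (mem_res_dom.1 hm).2) hdx)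
  have h2' := leW_iff.1 (LeW.dx_left (h2.of_init fun m hm => (mem_res_dom.1 hm).2) hdx)
  have hst : ∀ m ∈ w.dom, n ≤ m → (join (join s w) r).st m = w.st m := fun m hm hn => by
    rw [join_st_left (mem_join_dom.2 (Or.inr hm)), join_st_right fun h => (hlt m h).not_ge hn]
  refine ⟨join (join s w) r, ((hs.mono inter_subset_left).join hw).join hr,
    leW_iff.2 fun m hm => ?_, leW_iff.2 fun m hm => ?_, hdx⟩
  · rcases lt_or_ge m n with hn | hn
    · exact h1' m (mem_res_dom.2 ⟨hm, hn⟩)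
    · rw [hst m hm hn]
      exact ⟨by simp [mem_join_dom, hm], List.prefix_refl _,
        fun x τ e he => (he.1 (mem_join_dom.2 (Or.inr hm))).2 hm,
        Eventually.of_forall fun _ _ => InT.refl _ _⟩
  · rcases lt_or_ge m n with hn | hn
    · exact h2' m (mem_res_dom.2 ⟨hm, hn⟩)
    · have h0 : (join (join s w) r).st m = r.st m → r.st m <+: (join (join s w) r).st m ∧
          ∀ᶠ x in T.ae (B ∩ Iio m), Sem ((join (join s w) r).res (Iio m)) x →
            InT (r.st m) (r.S m x) ((join (join s w) r).st m) := fun e => by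
        rw [e]; exact ⟨List.prefix_refl _, Eventually.of_forall fun _ _ => InT.refl _ _⟩
      have h3 : r.st m <+: (join (join s w) r).st m ∧
          ∀ᶠ x in T.ae (B ∩ Iio m), Sem ((join (join s w) r).res (Iio m)) x →
            InT (r.st m) (r.S m x) ((join (join s w) r).st m) := by
        by_cases hmw : m ∈ w.dom
        · rcases h m hmw hm hn with e | ⟨rfl, e1, e2⟩
          · exact h0 ((hst m hmw hn).trans e)
          · rw [hst m hmw hn]
            exact ⟨e1, e2.mono fun x hx hm' => hx ((sem_res_of hlt).1 ((hdx.res _).sem hm'))⟩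
        · exact h0 (join_st_right fun h' => (mem_join_dom.1 h').elim
            (fun h' => (hlt m h').not_ge hn) hmw)
      exact ⟨by simp [mem_join_dom, hm], h3.1, fun x τ e he => he.2 hm, h3.2⟩

theorem Pd.of_init {D : Set T.Cond} (h : Pd (B ∩ Iio n) D) : Pd B D := by
  refine ⟨fun d hd => (h.1 d hd).mono inter_subset_left, fun r hr => ?_⟩
  obtain ⟨d, hd, q, hq, h2, h1⟩ := h.2 _ (hr.init n)
  obtain ⟨t, ht, h3, -, h4⟩ := glue hq hr hr h1 h1 fun _ _ _ _ => Or.inl rfl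
  exact ⟨d, hd, t, ht, LeW.dx_left (LeB.of_init h2 (h.1 d hd).lt) h4, h3⟩

theorem ae_le_init (B : Set T.ι) (n : T.ι) : T.ae B ≤ T.ae (B ∩ Iio n) :=
  ae_le_of_pd fun _ h => h.of_init

theorem LeB.sub (h : LeB B q p) : ∀ᶠ x in T.ae B, Sem q x → Sem p x :=
  LeW.sub h fun n _ => ae_le_init B n

theorem LeB.trans (h : LeB B r q) (h' : LeB B q p) : LeB B r p := leW_iff.2 fun n hn => by
  obtain ⟨g1, g2, g3, g4⟩ := leW_iff.1 h' n hn
  obtain ⟨h1, h2, h3, h4⟩ := leW_iff.1 h n g1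
  refine ⟨h1, g2.trans h2, fun x τ => (h3 x τ).trans (g3 x τ), ?_⟩
  filter_upwards [g4, h4, (h.res n).sub] with x a b c hx
  exact (a (c hx)).trans (ap_inT_mono (b hx) (g3 x))

/-- compatible conditions -/
def Cp (B : Set T.ι) (p q : T.Cond) : Prop := ∃ s, Val B s ∧ LeB B s p ∧ LeB B s q

theorem Cp.symm (h : Cp B p q) : Cp B q p := h.imp fun _ h => ⟨h.1, h.2.2, h.2.1⟩

theorem cp_of_st (hp : Val B p) (hq : Val B q) (h : ∀ n ∈ p.dom, n ∈ q.dom → p.st n = q.st n) :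
    Cp B p q := ⟨join p q, hp.join hq, (join_dx _ _).le, (join_dx_right h).le⟩

theorem Cp.le_left (h : Cp B p q) (h' : LeB B p r) : Cp B r q :=
  h.imp fun _ h => ⟨h.1, h.2.1.trans h', h.2.2⟩

theorem exists_ctble_cp (E : Set T.Cond) (hE : ∀ p ∈ E, Val B p) :
    ∃ D ⊆ E, D.Countable ∧ ∀ p ∈ E, ∃ d ∈ D, Cp B p d := by
  obtain ⟨D, hD, hc, h⟩ := g54_ccc Cond.dom Cond.st E
  refine ⟨D, hD, hc, fun p hp => ?_⟩
  obtain ⟨d, hd, h'⟩ := h p hp
  exact ⟨d, hd, cp_of_st (hE p hp) (hE d (hD hd)) h'⟩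

/-- what is forced densely holds almost everywhere -/
theorem ev_of_dense (h : ∀ r, Val B r → ∃ q, Val B q ∧ LeB B q r ∧
    ∀ᶠ x in T.ae B, Sem q x → P x) : ∀ᶠ x in T.ae B, P x := by
  obtain ⟨D, hD, hc, h'⟩ := exists_ctble_cp (B := B)
    {q | Val B q ∧ ∀ᶠ x in T.ae B, Sem q x → P x} fun _ h => h.1
  have hp : Pd B D := ⟨fun d hd => (hD hd).1, fun r hr => by
    obtain ⟨q, hq, h1, h2⟩ := h r hr
    obtain ⟨d, hd, h3⟩ := h' q ⟨hq, h2⟩
    exact ⟨d, hd, (h3.le_left h1).symm⟩⟩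
  filter_upwards [hp.ev hc, (eventually_countable_ball hc).2 fun d hd => (hD hd).2]
    with x ⟨d, hd, hx⟩ h2 using h2 d hd hx

end Tpl

end Pool.Agent.MP_e30343_lc.SO

end

-- part MP_e30343_lc.SO.ApiB
section

/-! Conditions are positive; compatibility; measurable sets are decided. -/

open Filter Set

namespace Pool.Agent.MP_e30343_lc.SO

theorem dyn_rs' {σ τ : Type} [Nonempty τ] (R : σ → σ → Prop) (Sol : σ → τ → Prop)
    (gen : σ → Set τ) (hc : ∀ s, (gen s).Countable)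
    (h : ∀ s t, ∃ s', R s s' ∧ Sol s' t) (s0 : σ) :
    ∃ f : ℕ → σ, f 0 = s0 ∧ (∀ j, R (f j) (f (j + 1))) ∧
      ∀ j, ∀ t ∈ gen (f j), ∃ k, Sol (f k) t := by
  have h1 : ∀ s, ∃ g : ℕ → τ, gen s ⊆ range g := fun s =>
    (countable_iff_exists_subset_range).1 (hc s)
  choose g hg using h1
  obtain ⟨f, h0, h2, h3⟩ := dyn_rs R Sol g h s0
  refine ⟨f, h0, h2, fun j t ht => ?_⟩
  obtain ⟨i, rfl⟩ := hg _ ht
  exact (h3 j i).elim fun k hk => ⟨k + 1, hk⟩

namespace Tpl

variable {T : Tpl} {B C c : Set T.ι} {p q r s w : T.Cond} {n m : T.ι} {x : T.X}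
  {P K : T.X → Prop}

/-- stems can be lengthened -/
def Long (B : Set T.ι) : Prop :=
  ∀ q n i, Val B q → n ∈ B → ∃ r, Val B r ∧ LeB B r q ∧ n ∈ r.dom ∧ i ≤ (r.st n).length

/-- conditions are positive -/
def PosB (B : Set T.ι) : Prop := ∀ p, Val B p → ∃ᶠ x in T.ae B, Sem p x

theorem Long.pos (hL : Long B) : PosB B := by
  intro p hp hn
  obtain ⟨𝒟, hc, h𝒟, hD⟩ := ev_elim hn
  -- requirements hidden in an order relation
  have hrel : ∀ q c : T.Cond, ∃ G : Set {D // Pd B D}, G.Countable ∧ (LeB B q c →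
      ∀ x, ∀ m ∈ c.dom, (∀ D ∈ G, ∃ d ∈ D.1, Sem (d.res (Iio m)) x) → Sem (q.res (Iio m)) x →
        InT (c.st m) (c.S m x) (q.st m)) := by
    intro q c
    by_cases hle : LeB B q c
    swap
    · exact ⟨∅, countable_empty, fun h => absurd h hle⟩
    have : ∀ m, ∃ G : Set (Set (T.Cond)), G.Countable ∧
        (∀ D ∈ G, D.Countable ∧ Pd (B ∩ Iio m) D) ∧ (m ∈ c.dom →
        ∀ x, (∀ D ∈ G, ∃ d ∈ D, Sem d x) → Sem (q.res (Iio m)) x →
          InT (c.st m) (c.S m x) (q.st m)) := fun m => by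
      by_cases h : m ∈ c.dom
      · obtain ⟨G, a, b, e⟩ := ev_elim (hle.2 m h).2.2
        exact ⟨G, a, b, fun _ => e⟩
      · exact ⟨∅, countable_empty, by simp only [mem_empty_iff_false, IsEmpty.forall_iff, implies_true], fun a => absurd a h⟩
    choose G hG1 hG2 hG3 using this
    refine ⟨Subtype.val ⁻¹' ⋃ m ∈ c.dom, G m, (c.dom.countable_toSet.biUnion
      fun m _ => hG1 m).preimage Subtype.val_injective, fun _ x m hm h => hG3 m hm x ?_⟩
    intro D hD
    obtain ⟨d, hd, h'⟩ := h ⟨D, (hG2 m D hD).2.of_init⟩ (mem_biUnion hm hD)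
    exact ⟨d, hd, (sem_res_of ((hG2 m D hD).2.1 d hd).lt).1 h'⟩
  choose G hG hG' using hrel
  let lg : T.ι → ℕ → Set (T.Cond) := fun n i => {d | Val B d ∧ n ∈ d.dom ∧ i ≤ (d.st n).length}
  have hlg : ∀ n ∈ B, ∀ i, Pd B (lg n i) := fun n hn i => ⟨fun _ h => h.1, fun r hr => by
    obtain ⟨q, a, b, c⟩ := hL r n i hr hn
    exact ⟨q, ⟨a, c⟩, q, a, LeB.refl q, b⟩⟩
  have : Nonempty {D // Pd B D} :=
    ⟨⟨{d | Val B d}, fun _ h => h, fun r hr => ⟨r, hr, r, hr, LeB.refl r, LeB.refl r⟩⟩⟩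
  obtain ⟨f, h0, hR, hS⟩ := dyn_rs'
    (σ := {s : T.Cond × T.Cond × T.Cond // Val B s.1 ∧ Val B s.2.1 ∧ Val B s.2.2 ∧
      LeB B s.1 s.2.1 ∧ LeB B s.1 s.2.2}) (τ := {D // Pd B D})
    (fun s s' => s'.1.2.1 = s.1.1) (fun s D => s.1.2.2 ∈ D.1)
    (fun s => Subtype.val ⁻¹' (𝒟 ∪ ⋃ n ∈ s.1.1.dom, range (lg n)) ∪ (G s.1.1 s.1.2.1 ∪ G s.1.1 s.1.2.2))
    (fun s => ((hc.union (s.1.1.dom.countable_toSet.biUnion fun _ _ => countable_range _)).preimage
      Subtype.val_injective).union ((hG _ _).union (hG _ _)))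
    (fun s D => by
      obtain ⟨d, hd, q, a, c, b⟩ := D.2.2 _ s.2.1
      exact ⟨⟨(q, s.1.1, d), a, s.2.1, D.2.1 d hd, b, c⟩, rfl, hd⟩)
    ⟨(p, p, p), hp, hp, hp, LeB.refl p, LeB.refl p⟩
  set q : ℕ → T.Cond := fun j => (f j).1.1 with hq
  set d : ℕ → T.Cond := fun j => (f j).1.2.2 with hd
  have hqq : ∀ j, LeB B (q (j + 1)) (q j) := fun j => by
    have := (f (j + 1)).2.2.2.2.1
    rwa [hR j] at this
  have hch : ∀ m j k, j ≤ k → m ∈ (q j).dom → m ∈ (q k).dom ∧ (q j).st m <+: (q k).st m ∧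
      ∀ x τ, (q k).S m x τ ⊆ (q j).S m x τ := by
    intro m j k hjk hm
    induction k, hjk using Nat.le_induction with
    | base => exact ⟨hm, List.prefix_refl _, fun _ _ => Subset.rfl⟩
    | succ k _ ih =>
      obtain ⟨a, b, c, -⟩ := leW_iff.1 (hqq k) m ih.1
      exact ⟨a, ih.2.1.trans b, fun x τ => (c x τ).trans (ih.2.2 x τ)⟩
  choose x hx using fun m => ap_lim (fun j => (q j).st m) (fun j => m ∈ (q j).dom)
    fun j k h a _ => (hch m j k h a).2.1
  have key : ∀ m, (∀ j, m ∈ (q j).dom → Br ((q j).st m) ((q j).S m x) (x m)) ∧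
      ∀ j, m ∈ (d j).dom → Br ((d j).st m) ((d j).S m x) (x m) := by
    intro m
    induction m using WellFoundedLT.induction with
    | ind m ih =>
      have hA : ∀ j, Sem ((q j).res (Iio m)) x := fun j => sem_res39.2 fun k hk h => (ih k h).1 j hk
      have hA' : ∀ j, Sem ((d j).res (Iio m)) x := fun j => sem_res39.2 fun k hk h => (ih k h).2 j hk
      have hB : ∀ j c, (c = (f j).1.2.1 ∨ c = (f j).1.2.2) → m ∈ c.dom →
          InT (c.st m) (c.S m x) ((q j).st m) := by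
        intro j c hc hm
        have h1 : LeB B (q j) c ∧ Val B c := by
          rcases hc with rfl | rfl
          exacts [⟨(f j).2.2.2.2.1, (f j).2.2.1⟩, ⟨(f j).2.2.2.2.2, (f j).2.2.2.1⟩]
        refine hG' _ _ h1.1 x m hm (fun D hD => ?_) (hA j)
        obtain ⟨k, hk⟩ := hS j D (Or.inr (by rcases hc with rfl | rfl <;> simp_all))
        exact ⟨_, hk, hA' k⟩
      have hC : ∀ j k, j ≤ k → m ∈ (q j).dom → InT ((q j).st m) ((q j).S m x) ((q k).st m) := by
        intro j k hjk hm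
        induction k, hjk using Nat.le_induction with
        | base => exact InT.refl _ _
        | succ k hk ih =>
          exact ih.trans (ap_inT_mono (hB (k + 1) (q k) (Or.inl (hR k).symm) (hch m j k hk hm).1)
            ((hch m j k hk hm).2.2 x))
      have hE : ∀ j, m ∈ (q j).dom → Br ((q j).st m) ((q j).S m x) (x m) := by
        intro j hm
        refine ap_br_of_inT fun i => ?_
        obtain ⟨k, hk⟩ := hS j ⟨lg m i, hlg m ((f j).2.1.1 hm) i⟩
          (Or.inl (Or.inr (mem_biUnion hm (mem_range_self i))))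
        obtain ⟨a, b, -⟩ := leW_iff.1 (f k).2.2.2.2.2 m hk.2.1
        refine ⟨((q (max j k)).st m).length, hk.2.2.trans (b.length_le.trans
          (hch m k _ (le_max_right _ _) a).2.1.length_le), ?_⟩
        rw [hx m _ (hch m j _ (le_max_left _ _) hm).1]
        exact hC j _ (le_max_left _ _) hm
      refine ⟨hE, fun j hm => ?_⟩
      obtain ⟨a, -, c, -⟩ := leW_iff.1 (f j).2.2.2.2.2 m hm
      exact (hB j _ (Or.inr rfl) hm).br (ap_br_mono (hE j a) (c x))
  refine hD x (fun D hD => ?_) fun m hm => ?_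
  · obtain ⟨k, hk⟩ := hS 0 ⟨D, (h𝒟 D hD).2⟩ (Or.inl (Or.inl hD))
    exact ⟨_, hk, fun m hm => (key m).2 k hm⟩
  · have e : q 0 = p := by simp only [hq, h0]
    have := (key m).1 0
    rw [e] at this
    exact this hm

/-- positive sets below two conditions contain a common extension -/
def BP2 (B : Set T.ι) : Prop := ∀ (K : T.X → Prop) q r, MD B K → Val B q → Val B r →
  (∃ᶠ x in T.ae B, Sem q x ∧ Sem r x ∧ K x) →
    ∃ s, Val B s ∧ LeB B s q ∧ LeB B s r ∧ ∀ᶠ x in T.ae B, Sem s x → K x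

theorem long_of (hb : ∀ n ∈ B, BP2 (B ∩ Iio n)) (hp : ∀ n ∈ B, PosB (B ∩ Iio n))
    (hn : ∀ n ∈ B, ∀ S, T.VS B n S → ∀ τ, ∀ᶠ x in T.ae (B ∩ Iio n), (S x τ).Nonempty) :
    Long B := by
  intro q n i hq hB
  induction i with
  | zero =>
    exact ⟨join q (one n [] fun _ _ => univ), hq.join (val_one hB (vs_univ B n)), (join_dx _ _).le,
      mem_join_dom.2 (Or.inr (mem_one.2 rfl)), Nat.zero_le _⟩
  | succ i ih =>
    obtain ⟨r, hr, h1, h2, h3⟩ := ih
    obtain ⟨e, he⟩ := freq_ex (P := fun e x => Sem (r.res (Iio n)) x ∧ Sem (r.res (Iio n)) x ∧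
        e ∈ r.S n x (r.st n))
      (((hp n hB _ (hr.init n)).and_eventually (hn n hB _ (hr.2 n h2) (r.st n))).mono
        fun x ⟨a, e, b⟩ => ⟨e, a, a, b⟩)
    obtain ⟨s, hs, a, -, b⟩ := hb n hB _ _ _ ((hr.2 n h2).1 _ e) (hr.init n) (hr.init n) he
    obtain ⟨t, ht, c, d, -⟩ := glue (w := one n (r.st n ++ [e]) fun _ _ => univ) hs
      (val_one hB (vs_univ B n)) hr
      (leW_iff.2 fun m hm => absurd (mem_res_dom.1 hm).2 (mem_one.1 (mem_res_dom.1 hm).1 ▸ lt_irrefl _))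
      a fun m hm _ _ => Or.inr ⟨mem_one.1 hm, List.prefix_append _ _,
        b.mono fun x hx hs => (InT.refl _ _).snoc (hx hs)⟩
    obtain ⟨c1, c2, -⟩ := leW_iff.1 c n (mem_one.2 rfl)
    refine ⟨t, ht, d.trans h1, c1, le_trans ?_ c2.length_le⟩
    simpa [one] using h3

theorem exists_top (s : Finset T.ι) : s = ∅ ∨ ∃ n ∈ s, ∀ m ∈ s, m ≤ n :=
  s.eq_empty_or_nonempty.imp_right fun h => ⟨s.max' h, s.max'_mem h, fun m hm => s.le_max' m hm⟩

theorem cp_of_freq (hb : ∀ n ∈ B, BP2 (B ∩ Iio n)) (hq : Val B q) (hr : Val B r)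
    (h : ∃ᶠ x in T.ae B, Sem q x ∧ Sem r x) : Cp B q r := by
  classical
  rcases exists_top (q.dom ∩ r.dom) with h0 | ⟨n, hn, htop⟩
  · refine cp_of_st hq hr fun n a b => absurd (Finset.mem_inter.2 ⟨a, b⟩) (by simp [h0])
  obtain ⟨hnq, hnr⟩ := Finset.mem_inter.1 hn
  wlog hl : (r.st n).length ≤ (q.st n).length generalizing q r
  · exact (this hr hq (h.mono fun _ h => h.symm) (Finset.inter_comm q.dom r.dom ▸ hn)
      (Finset.inter_comm q.dom r.dom ▸ htop) hnr hnq (le_of_not_ge hl)).symm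
  have h1 : ∀ x, Sem q x → Sem r x → InT (r.st n) (r.S n x) (q.st n) := fun x a b =>
    (a n hnq).1 ▸ (b n hnr).inT hl
  obtain ⟨s, hs, a, b, c⟩ := hb n (hq.1 hnq) _ _ _ (md_inT (hr.2 n hnr) (r.st n) (q.st n))
    (hq.init n) (hr.init n)
    ((h.mono fun x hx => ⟨hx.1.res _, hx.2.res _, h1 x hx.1 hx.2⟩).filter_mono (ae_le_init B n))
  obtain ⟨x, hx⟩ := h.exists
  obtain ⟨t, ht, d, e, -⟩ := glue hs hq hr a b fun m hm hm' hnm => Or.inr
    ⟨le_antisymm (htop m (Finset.mem_inter.2 ⟨hm, hm'⟩)) hnm, (h1 x hx.1 hx.2).1, c⟩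
  exact ⟨t, ht, d, e⟩

theorem decide_of (hL : Long B) (hc : ∀ q r, Val B q → Val B r →
    (∃ᶠ x in T.ae B, Sem q x ∧ Sem r x) → Cp B q r) (hK : MD B K) :
    ∀ r, Val B r → ∃ q, Val B q ∧ LeB B q r ∧
      ((∀ᶠ x in T.ae B, Sem q x → K x) ∨ ∀ᶠ x in T.ae B, Sem q x → ¬ K x) := by
  refine MD.ind (Φ := fun K => ∀ r, Val B r → ∃ q, Val B q ∧ LeB B q r ∧
      ((∀ᶠ x in T.ae B, Sem q x → K x) ∨ ∀ᶠ x in T.ae B, Sem q x → ¬ K x)) ?_ ?_ ?_ ?_ hK
  · intro n hn i a r hr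
    obtain ⟨q, hq, h1, h2, h3⟩ := hL r n (i + 1) hr hn
    have h4 : ∀ x, Sem q x → x n i = (q.st n)[i] := fun x hx => by
      have := (hx n h2).1
      rw [List.getElem_of_eq this.symm]; simp [pre]
    refine ⟨q, hq, h1, ?_⟩
    by_cases h : (q.st n)[i] = a
    · exact Or.inl (Eventually.of_forall fun x hx => (h4 x hx).trans h)
    · exact Or.inr (Eventually.of_forall fun x hx e => h ((h4 x hx).symm.trans e))
  · exact fun r hr => ⟨r, hr, LeB.refl r, Or.inl (Eventually.of_forall fun _ _ => trivial)⟩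
  · intro P _ h r hr
    obtain ⟨q, a, b, c⟩ := h r hr
    exact ⟨q, a, b, c.symm.imp_right fun h => h.mono fun x hx hq => not_not.2 (hx hq)⟩
  · intro P _ h r hr
    by_cases h1 : ∃ k q, Val B q ∧ LeB B q r ∧ ∀ᶠ x in T.ae B, Sem q x → P k x
    · obtain ⟨k, q, a, b, c⟩ := h1
      exact ⟨q, a, b, Or.inl (c.mono fun x hx hq => ⟨k, hx hq⟩)⟩
    · refine ⟨r, hr, LeB.refl r, Or.inr ?_⟩
      have : ∀ k, ∀ᶠ x in T.ae B, Sem r x → ¬ P k x := fun k => ev_of_dense fun s hs => by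
        by_cases h2 : ∃ᶠ x in T.ae B, Sem s x ∧ Sem r x
        · obtain ⟨t, ht, a, b⟩ := hc s r hs hr h2
          obtain ⟨q, hq, c, d | d⟩ := h k t ht
          · exact absurd ⟨k, q, hq, c.trans b, d⟩ h1
          · exact ⟨q, hq, c.trans a, d.mono fun x hx h _ => hx h⟩
        · exact ⟨s, hs, LeB.refl s, (not_frequently.1 h2).mono fun x hx a b => absurd ⟨a, b⟩ hx⟩
      exact (eventually_countable_forall.2 this).mono fun x hx a ⟨k, hk⟩ => hx k a hk

theorem bp2_of (hL : Long B) (hc : ∀ q r, Val B q → Val B r →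
    (∃ᶠ x in T.ae B, Sem q x ∧ Sem r x) → Cp B q r) : BP2 B := by
  intro K q r hK hq hr h
  by_contra hn
  refine h (ev_of_dense fun s hs => ?_)
  by_cases h1 : ∃ᶠ x in T.ae B, Sem s x ∧ Sem q x
  swap
  · exact ⟨s, hs, LeB.refl s, (not_frequently.1 h1).mono fun x hx a b => hx ⟨a, b.1⟩⟩
  obtain ⟨t, ht, a, b⟩ := hc s q hs hq h1
  by_cases h2 : ∃ᶠ x in T.ae B, Sem t x ∧ Sem r x
  swap
  · exact ⟨t, ht, a, (not_frequently.1 h2).mono fun x hx a b => hx ⟨a, b.2.1⟩⟩
  obtain ⟨u, hu, c, d⟩ := hc t r ht hr h2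
  obtain ⟨v, hv, e, f | f⟩ := decide_of hL hc hK u hu
  · exact absurd ⟨v, hv, e.trans (c.trans b), e.trans d, f⟩ hn
  · exact ⟨v, hv, e.trans (c.trans a), f.mono fun x hx a b => hx a b.2.2⟩

theorem BP2.one (hb : BP2 B) (hK : MD B K) (h : ∃ᶠ x in T.ae B, K x) :
    ∃ s, Val B s ∧ ∀ᶠ x in T.ae B, Sem s x → K x := by
  obtain ⟨s, a, -, -, b⟩ := hb K T.top T.top hK (val_top B) (val_top B)
    (h.mono fun x hx => ⟨sem_top x, sem_top x, hx⟩)
  exact ⟨s, a, b⟩

/-- essential suprema of sets that depend on `B` -/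
theorem ess_of (hp : PosB B) (hb : BP2 B) (A : Set (T.X → Prop)) (hA : ∀ P ∈ A, MD B P) :
    ∃ C ⊆ A, C.Countable ∧ ∀ P ∈ A, ∀ᶠ x in T.ae B, P x → ∃ Q ∈ C, Q x := by
  obtain ⟨D, hD, hc, h⟩ := exists_ctble_cp (B := B)
    {q | Val B q ∧ ∃ P ∈ A, ∀ᶠ x in T.ae B, Sem q x → P x} fun _ h => h.1
  choose! f hf hf' using fun d (hd : d ∈ D) => (hD hd).2
  refine ⟨f '' D, image_subset_iff.2 hf, hc.image f, fun P hP => ?_⟩
  by_contra hn
  have hm : MD B fun x => ¬ (P x → ∃ Q ∈ f '' D, Q x) :=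
    ((hA P hP).imp (MD.bex (hc.image f) fun Q hQ => hA Q (image_subset_iff.2 hf hQ))).not
  obtain ⟨q, hq, h1⟩ := hb.one hm (not_eventually.1 hn)
  obtain ⟨d, hd, s, hs, a, b⟩ := h q ⟨hq, P, hP, h1.mono fun x hx h => (Classical.not_imp.1 (hx h)).1⟩
  obtain ⟨x, h2, h3, h4, h5, h6⟩ := ((hp s hs).and_eventually
    (a.sub.and (b.sub.and (h1.and (hf' d hd))))).exists
  exact h5 (h3 h2) fun _ => ⟨_, mem_image_of_mem f hd, h6 (h4 h2)⟩

end Tpl

end Pool.Agent.MP_e30343_lc.SO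

end

-- part MP_e30343_lc.SO.Gfp
section

/-! Essential suprema, greatest fixed points, measurable versions of positivity. -/

open Filter Set
open scoped Pointwise

namespace Pool.Agent.MP_e30343_lc.SO

set_option linter.unusedSectionVars false

section G
variable {ι : Type} (l : Filter (ι → ℕ → L)) [CountableInterFilter l] [CCC l]

/-- essential supremum of a family of sets that depend on `B` -/
theorem ess_sup {B : Set ι} (A : Set ((ι → ℕ → L) → Prop)) (hA : ∀ P ∈ A, MD B P) :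
    ∃ R : ℕ → (ι → ℕ → L) → Prop, (∀ k, R k ∈ A ∨ R k = fun _ => False) ∧
      ∀ P ∈ A, ∀ᶠ x in l, P x → ∃ k, R k x := by
  obtain ⟨C, hC, hc, h⟩ := CCC.sup (l := l) A fun P hP => (hA P hP).1
  obtain ⟨R, hR⟩ := (hc.insert fun _ => False).exists_eq_range (insert_nonempty _ _)
  refine ⟨R, fun k => ?_, fun P hP => (h P hP).mono fun x hx hp => ?_⟩
  · have : R k ∈ insert (fun _ => False) C := hR ▸ mem_range_self k
    exact this.symm.imp_left fun h' => hC h'
  · obtain ⟨Q, hQ, hq⟩ := hx hp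
    obtain ⟨k, rfl⟩ : Q ∈ range R := hR ▸ mem_insert_of_mem _ hQ
    exact ⟨k, hq⟩

/-- greatest fixed points are almost everywhere equal to a measurable superset -/
theorem gfp_meas {B : Set ι} {I : Type} [Countable I] (Φ : (ι → ℕ → L) → Set I → Set I)
    (hm : ∀ x, Monotone (Φ x))
    (hΦ : ∀ A : (ι → ℕ → L) → Set I, (∀ i, MD B fun x => i ∈ A x) →
      ∀ i, MD B fun x => i ∈ Φ x (A x)) :
    ∃ A : (ι → ℕ → L) → Set I, (∀ i, MD B fun x => i ∈ A x) ∧
      (∀ x G, G ⊆ Φ x G → G ⊆ A x) ∧ ∀ᶠ x in l, A x ⊆ Φ x (A x) := by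
  let 𝒢 : Set ((ι → ℕ → L) → Set I) :=
    {A | (∀ i, MD B fun x => i ∈ A x) ∧ ∀ x G, G ⊆ Φ x G → G ⊆ A x}
  have h1 : ∀ i, ∃ D : ℕ → (ι → ℕ → L) → Set I, (∀ k, D k ∈ 𝒢) ∧
      ∀ A ∈ 𝒢, ∀ᶠ x in l, i ∉ A x → ∃ k, i ∉ D k x := fun i => by
    obtain ⟨R, hR, h⟩ := ess_sup l (B := B) ((fun A x => i ∉ A x) '' 𝒢)
      (by rintro _ ⟨A, hA, rfl⟩; exact (hA.1 i).not)
    have h2 : ∀ k, ∃ A ∈ 𝒢, ∀ x, R k x → i ∉ A x := fun k => by
      rcases hR k with ⟨A, hA, e⟩ | e
      · exact ⟨A, hA, fun x hx => (congrFun e x).mpr hx⟩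
      · exact ⟨fun _ => univ, ⟨fun _ => MD.const True, fun _ _ _ => subset_univ _⟩,
          fun x hx => ((congrFun e x).mp hx).elim⟩
    choose D hD hD' using h2
    exact ⟨D, hD, fun A hA => (h _ ⟨A, hA, rfl⟩).mono fun x hx hi =>
      (hx hi).imp fun k hk => hD' k x hk⟩
  choose D hD h using h1
  have hG : (fun x => {i | ∀ j k, i ∈ D j k x}) ∈ 𝒢 :=
    ⟨fun i => MD.all fun j => MD.all fun k => (hD j k).1 i,
      fun x G hG i hi j k => (hD j k).2 x G hG hi⟩
  have hF : (fun x => Φ x {i | ∀ j k, i ∈ D j k x}) ∈ 𝒢 :=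
    ⟨hΦ _ hG.1, fun x G hG' => hG'.trans (hm x (hG.2 x G hG'))⟩
  refine ⟨_, hG.1, hG.2, ?_⟩
  filter_upwards [eventually_countable_forall.2 fun i => h i _ hF] with x hx i hi
  by_contra hn
  obtain ⟨k, hk⟩ := hx i hn
  exact hk (hi i k)

theorem wfam_meas {B : Set ι} (H : (ι → ℕ → L) → L → Prop) (hH : ∀ e, MD B fun x => H x e) :
    ∃ Wm : (ι → ℕ → L) → Finset L → Finset L → Prop, (∀ E S, MD B fun x => Wm x E S) ∧
      (∀ x E S, WFam gen E {e | H x e} S → Wm x E S) ∧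
      ∀ᶠ x in l, ∀ E S, Wm x E S → WFam gen E {e | H x e} S := by
  obtain ⟨A, h1, h2, h3⟩ := gfp_meas l (B := B) (I := Finset L × Finset L)
    (fun x G => {p | FFin p.1 {e | H x e} p.2 ∧
      ∀ g c, ∀ᶠ n in atTop, (p.1, p.2 * {1, route gen g c n}) ∈ G})
    (fun x G G' e p hp => ⟨hp.1, fun g c => (hp.2 g c).mono fun n hn => e hn⟩)
    (fun A hA p => MD.and (MD.ex fun y => MD.all fun r => MD.all fun _ => MD.ex fun ε =>
      (MD.const _).and (hH _)) (MD.all fun g => MD.all fun c => MD.ev fun n => hA _))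
  refine ⟨fun x E S => (E, S) ∈ A x, fun E S => h1 _, fun x E S h => ?_,
    h3.mono fun x hx E S h => ⟨{S' | (E, S') ∈ A x}, fun S' h' => (hx h').2,
      fun S' h' => (hx h').1, h⟩⟩
  obtain ⟨G, g1, g2, g3⟩ := h
  refine h2 x {p | p.1 = E ∧ p.2 ∈ G} ?_ ⟨rfl, g3⟩
  rintro ⟨E', S'⟩ ⟨rfl, h'⟩
  exact ⟨g2 _ h', fun g c => (g1 _ h' g c).mono fun n hn => ⟨rfl, hn⟩⟩

end G

namespace Tpl

variable {T : Tpl} {B P : Set T.ι} {n : T.ι}

/-- at nodes of kind Y positivity is measurable -/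
theorem pos_md_Y (h : ¬ T.isK n) (hP : P.Countable) (hPB : P ⊆ B) (hn : T.supp n ⊆ B) (i : ℕ)
    (H : T.X → L → Prop) (hH : ∀ e, MD B fun x => H x e) :
    MD B fun x => ∃ᶠ e in T.FF P n x i, H x e := by
  have hc : {π : Finset T.ι | ↑π ⊆ P}.Countable :=
    ((countable_ofPred_finite_subset hP).preimage_of_injOn (f := fun π : Finset T.ι => (π : Set T.ι))
      Finset.coe_injective.injOn).mono fun π hπ => And.intro π.finite_toSet hπ
  have h1 : MD B fun x => ¬ ∃ π ∈ {π : Finset T.ι | ↑π ⊆ P}, ∃ k, ∀ e,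
      T.Bas n x i π k e → ¬ H x e :=
    (MD.bex hc fun π hπ => MD.ex fun k => MD.all fun e =>
      (((T.dm_md n i e.ob).mono hn).and
        ((MD.const _).and (md_goodP (hπ.trans hPB) k e.ob))).imp (hH e).not).not
  refine cast (congrArg (MD B) (funext fun x => propext (not_congr ?_))) h1
  exact ⟨fun ⟨π, h2, k, h3⟩ => (mem_FF_Y h).2 ⟨π, k, h2, h3⟩,
    fun h' => ((mem_FF_Y h).1 h').imp fun π ⟨k, h2, h3⟩ => ⟨h2, k, h3⟩⟩

/-- measurable version of positivity -/
theorem pos_meas (l : Filter T.X) [CountableInterFilter l] [CCC l] (hP : P.Countable) (hPB : P ⊆ B)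
    (hn : T.supp n ⊆ B) (i : ℕ) (H : T.X → L → Prop) (hH : ∀ e, MD B fun x => H x e) :
    ∃ Pm : T.X → Prop, MD B Pm ∧ (∀ x, (∃ᶠ e in T.FF P n x i, H x e) → Pm x) ∧
      ∀ᶠ x in l, Pm x → ∃ᶠ e in T.FF P n x i, H x e := by
  by_cases h : T.isK n
  · obtain ⟨Wm, h1, h2, h3⟩ := wfam_meas l H hH
    simp only [FF_K h, freq_KF]
    exact ⟨fun x => ∃ E, Wm x E {1}, MD.ex fun E => h1 E _, fun x hx => hx.imp fun E => h2 x E _,
      h3.mono fun x hx h' => h'.imp fun E => hx E _⟩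
  · exact ⟨_, pos_md_Y h hP hPB hn i H hH, fun _ hx => hx, Eventually.of_forall fun _ hx => hx⟩

end Tpl

end Pool.Agent.MP_e30343_lc.SO

end

-- part MP_e30343_lc.SO.ApiZ
section

/-! The statement (Z) and its consequences, from positivity and decision as hypotheses. -/

open Filter Set

namespace Pool.Agent.MP_e30343_lc.SO

theorem az_twL_z (g : Aut) : twL g L.z = L.z := by
  simp [twL, L.z]

theorem az_twL_refl (a : L) : twL (LinearEquiv.refl _ _) a = a := rfl

namespace Tpl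

variable {T : Tpl} {B C P : Set T.ι} {n : T.ι}

/-- (Z) over `B` -/
def ZedB (B : Set T.ι) : Prop :=
  ∀ C, C ⊆ B → T.Clo C → ∀ π : Finset T.ι, ↑π ⊆ B → (∀ a ∈ π, a ∉ C) →
    ∀ (m k0 : ℕ) (WW : T.X → Obj → Prop), (∀ o, MD C fun x => WW x o) →
      (∀ x o, WW x o → o.2.card ≤ m) →
      ∀ᶠ x in T.ae B, (∀ k, ∃ o, WW x o ∧ far k o) →
        ∀ k, ∃ o, WW x o ∧ far k o ∧ T.GoodP π k0 x o

theorem md_gd {a : T.ι} (ha : a ∈ B) (D : ℕ) (o : Obj) : MD B fun x : T.X => T.gd a (x a) D o :=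
  (MD.const _).or (MD.good ha D o)

theorem clo_plus (hC : T.Clo C) (a : T.ι) : T.Clo (C ∪ T.supp a ∪ {a}) := by
  rintro n ((hn | hn) | hn)
  · exact (hC n hn).trans (subset_union_left.trans subset_union_left)
  · exact (T.supp_cl a n hn).trans (subset_union_right.trans subset_union_left)
  · rw [mem_singleton_iff.1 hn]
    exact subset_union_right.trans subset_union_left

theorem not_mem_supp_plus (hC : T.Clo C) {a : T.ι} (ha : a ∉ C) :
    ∀ n ∈ C ∪ T.supp a ∪ {a}, a ∉ T.supp n := by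
  have h0 : a ∉ T.supp a := fun h => lt_irrefl a (T.supp_lt a a h)
  rintro n ((hn | hn) | hn) h
  · exact ha (hC n hn h)
  · exact h0 (T.supp_cl a n hn h)
  · rw [mem_singleton_iff.1 hn] at h
    exact h0 h

/-- one twisted node -/
theorem zed_one (hC : T.Clo C) {a : T.ι} (ha : a ∉ C)
    (hpos : ∀ p, Val (C ∪ T.supp a ∪ {a}) p → ∃ᶠ x in T.ae (C ∪ T.supp a ∪ {a}), Sem p x)
    (hbl : ∀ K, MD (C ∪ T.supp a ∪ {a}) K → (∃ᶠ x in T.ae (C ∪ T.supp a ∪ {a}), K x) →
      ∃ q, Val (C ∪ T.supp a ∪ {a}) q ∧ a ∈ q.dom ∧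
        ∀ᶠ x in T.ae (C ∪ T.supp a ∪ {a}), Sem q x → K x)
    (m k0 : ℕ) (WW : T.X → Obj → Prop) (h1 : ∀ o, MD C fun x => WW x o)
    (h2 : ∀ x o, WW x o → o.2.card ≤ m) :
    ∀ᶠ x in T.ae (C ∪ T.supp a ∪ {a}), (∀ k, ∃ o, WW x o ∧ far k o) →
      ∀ k, ∃ o, WW x o ∧ far k o ∧ T.gd a (x a) k0 o := by
  classical
  by_cases hK : T.isK a
  · refine Eventually.of_forall fun x hx k => ?_
    obtain ⟨o, ho, hf⟩ := hx k
    exact ⟨o, ho, hf, Or.inl hK⟩
  set C2 := C ∪ T.supp a ∪ {a} with hC2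
  have hc2 : T.Clo C2 := clo_plus hC a
  have hns : ∀ n ∈ C2, a ∉ T.supp n := not_mem_supp_plus hC ha
  have hCC : C ⊆ C2 := subset_union_left.trans subset_union_left
  have haC : a ∈ C2 := Or.inr rfl
  suffices h : ∀ k, ∀ᶠ x in T.ae C2, ¬ ((∀ k, ∃ o, WW x o ∧ far k o) ∧
      ¬ ∃ o, WW x o ∧ far k o ∧ T.gd a (x a) k0 o) by
    filter_upwards [eventually_countable_forall.2 h] with x hx hx' k
    by_contra hn
    exact hx k ⟨hx', hn⟩
  intro k
  by_contra hfr
  have hmd : MD C2 fun x => (∀ k, ∃ o, WW x o ∧ far k o) ∧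
      ¬ ∃ o, WW x o ∧ far k o ∧ T.gd a (x a) k0 o :=
    (MD.all fun k => MD.ex fun o => ((h1 o).mono hCC).and (MD.const _)).and
      (MD.ex fun o => ((h1 o).mono hCC).and ((MD.const _).and (md_gd haC k0 o))).not
  obtain ⟨q, hq, haq, hqK⟩ := hbl _ hmd hfr
  obtain ⟨Γ, _, A, D0, GG, hA, -, hlk, hgl⟩ := gl_linked k0 1 m 1
  set n0 := (q.st a).length with hn0
  let M : Γ → Mor T C2 T := fun g => Mor.twist T C2 a hK hns (A g) D0 (hA g) n0
  have hMh : ∀ g n, (M g).h n = n := fun _ _ => rfl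
  have hMt : ∀ g n i, (M g).tw n i =
      if n = a ∧ n0 ≤ i then A g else LinearEquiv.refl _ _ := fun _ _ _ => rfl
  have him : ∀ g, (M g).h '' C2 = C2 := fun g => by
    ext n
    simp [hMh]
  have hst : ∀ g, ∀ n ∈ q.dom, ((M g).push q).st n = q.st n := fun g n hn => by
    have := (M g).push_st_eq hq.1 hn (fun i hi => by
      rw [hMt, if_neg]
      rintro ⟨rfl, h⟩
      omega)
    rwa [hMh] at this
  obtain ⟨q', hq', -, -, hsem⟩ := meet (B := C2) (fun g => (M g).push q)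
    (fun g => by simpa only [him g] using (M g).push_val hc2 subset_rfl hq)
    (fun g g' n hn _ => by
      obtain ⟨n', hn', rfl⟩ := ((M g).mem_push_dom q n).1 hn
      rw [hMh, hst g n' hn', hst g' n' hn'])
  have hae : ∀ g, ∀ᶠ x in T.ae C2, Sem q ((M g).pull x) →
      (∀ k, ∃ o, WW ((M g).pull x) o ∧ far k o) ∧
        ¬ ∃ o, WW ((M g).pull x) o ∧ far k o ∧ T.gd a ((M g).pull x a) k0 o := fun g => by
    have := (M g).pull_ae hc2
    rw [him g] at this
    exact this.eventually hqK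
  obtain ⟨x, hx, hx'⟩ := ((hpos q' hq').and_eventually (eventually_all.2 hae)).exists
  have hb := fun g => hx' g (((M g).push_sem hq.1 x).1 ((hsem x).1 hx g))
  have hW : ∀ g o, WW ((M g).pull x) o ↔ WW x o := fun g o => by
    refine (h1 o).2 _ _ fun n hn => ?_
    funext j
    have : n ≠ a := fun e => ha (e ▸ hn)
    simp only [Mor.pull, hMt, hMh, this, false_and, if_false, az_twL_refl]
  obtain ⟨g0⟩ := hlk.nonempty
  obtain ⟨o, ho, hf⟩ := (hb g0).1 (max k (bnd (pre (x a) n0)))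
  rw [hW] at ho
  obtain ⟨g, hg⟩ := hlk Unit (by simp) (fun _ => _)
    (fun _ => hgl (cutHi n0 (x a)) Unit (by simp) (fun _ => o) fun _ => h2 x o ho)
  have hg' := hg () ()
  refine (hb g).2 ⟨o, (hW g o).2 ho, hf.mono (le_max_left _ _), Or.inr ?_⟩
  have e1 : cutHi n0 ((M g).pull x a) = fun i => twL (A g) (cutHi n0 (x a) i) := by
    funext i
    by_cases hi : i < n0
    · simp only [cutHi, hi, if_true, az_twL_z]
    · simp only [cutHi, hi, if_false, Mor.pull, hMt, hMh, true_and, not_lt.1 hi, if_true]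
  have e2 : pre ((M g).pull x a) n0 = pre (x a) n0 := by
    unfold pre
    congr 1
    funext j
    simp only [Mor.pull, hMt, hMh, true_and, not_le.2 j.2, if_false, az_twL_refl]
  rw [good_split (n := n0) (by rw [e1]; exact hg'), e2,
    good_ofL_tr (le_max_right k _), far_iff_tr.1 hf]
  exact good_o0 _ _

/-- (Z) from positivity, decision and complete embedding below `B` -/
theorem zed_of (hpos : ∀ C ⊆ B, T.Clo C → ∀ p, Val C p → ∃ᶠ x in T.ae C, Sem p x)
    (hbl : ∀ C ⊆ B, T.Clo C → ∀ K, MD C K → (∃ᶠ x in T.ae C, K x) → ∀ a ∈ C,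
      ∃ q, Val C q ∧ a ∈ q.dom ∧ ∀ᶠ x in T.ae C, Sem q x → K x)
    (hce : ∀ C ⊆ B, T.Clo C → T.ae B ≤ T.ae C) (hB : T.Clo B) : ZedB B := by
  classical
  intro C hCB hC π
  induction π using Finset.induction_on_min generalizing C with
  | empty =>
    intro _ _ m k0 WW _ _
    refine Eventually.of_forall fun x hx k => ?_
    obtain ⟨o, ho, hf⟩ := hx k
    exact ⟨o, ho, hf, fun a ha => absurd ha (Finset.notMem_empty a)⟩
  | insert a s hs ih =>
    intro hπ hπC m k0 WW h1 h2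
    have haB : a ∈ B := hπ (by simp)
    have haC : a ∉ C := hπC a (by simp)
    have hc2 : T.Clo (C ∪ T.supp a ∪ {a}) := clo_plus hC a
    have hs2 : C ∪ T.supp a ∪ {a} ⊆ B :=
      union_subset (union_subset hCB (hB a haB)) (singleton_subset_iff.2 haB)
    have hCC : C ⊆ C ∪ T.supp a ∪ {a} := subset_union_left.trans subset_union_left
    have z1 := hce _ hs2 hc2 (zed_one hC haC (hpos _ hs2 hc2)
      (fun K hK h => hbl _ hs2 hc2 K hK h a (Or.inr rfl)) m k0 WW h1 h2)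
    have z2 := ih _ hs2 hc2 (fun b hb => hπ (by simp [Finset.mem_coe.1 hb]))
      (fun b hb => by
        rintro ((h | h) | h)
        · exact hπC b (by simp [hb]) h
        · exact lt_asymm (hs b hb) (T.supp_lt a b h)
        · exact (hs b hb).ne' h)
      m k0 (fun x o => WW x o ∧ T.gd a (x a) k0 o)
      (fun o => ((h1 o).mono hCC).and (md_gd (Or.inr rfl) k0 o)) (fun x o h => h2 x o h.1)
    filter_upwards [z1, z2] with x hx1 hx2 hx k
    obtain ⟨o, ⟨ho, hg⟩, hf, hg'⟩ := hx2 (fun k => by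
      obtain ⟨o, ho, hf, hg⟩ := hx1 hx k
      exact ⟨o, ⟨ho, hg⟩, hf⟩) k
    refine ⟨o, ho, hf, fun b hb => ?_⟩
    rcases Finset.mem_insert.1 hb with rfl | hb
    · exact hg
    · exact hg' b hb

theorem freq_FF_Y (h : ¬ T.isK n) {x : T.X} {i : ℕ} {H : L → Prop} :
    (∃ᶠ e in T.FF P n x i, H e) ↔
      ∀ (π : Finset T.ι) (k : ℕ), ↑π ⊆ P → ∃ e, T.Bas n x i π k e ∧ H e := by
  unfold Filter.Frequently Filter.Eventually
  rw [mem_FF_Y h]
  push Not
  simp only [mem_ofPred_eq, not_not]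

theorem countable_finsets (hP : P.Countable) : {π : Finset T.ι | ↑π ⊆ P}.Countable := by
  refine Countable.mono ?_ ((countable_ofPred_finite_subset hP).preimage_of_injOn
    (f := fun π : Finset T.ι => (π : Set T.ι)) Finset.coe_injective.injOn)
  exact fun π hπ => And.intro π.finite_toSet hπ

/-- (PT) -/
theorem pt_of (hZ : ZedB B) (hC : T.Clo C) (hCB : C ⊆ B) (hn : T.supp n ⊆ C) (hP : P.Countable)
    (hP' : P ⊆ B \ T.supp n) (i : ℕ) (H : T.X → L → Prop) (hH : ∀ e, MD C fun x => H x e) :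
    ∀ᶠ x in T.ae B, (∃ᶠ e in T.FF (C \ T.supp n) n x i, H x e) →
      ∃ᶠ e in T.FF P n x i, H x e := by
  classical
  by_cases hK : T.isK n
  · refine Eventually.of_forall fun x hx => ?_
    rwa [FF_K hK] at hx ⊢
  have key : ∀ π ∈ {π : Finset T.ι | ↑π ⊆ P}, ∀ᶠ x in T.ae B, ∀ k,
      (∃ᶠ e in T.FF (C \ T.supp n) n x i, H x e) → ∃ e, T.Bas n x i π k e ∧ H x e := by
    intro π hπ
    refine eventually_countable_forall.2 fun k => ?_
    have z := hZ C hCB hC (π.filter (· ∉ C))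
      (fun a ha => (hP' (hπ (Finset.mem_filter.1 ha).1)).1)
      (fun a ha => (Finset.mem_filter.1 ha).2) (2 ^ i) k
      (fun x o => T.dm n x i o ∧ T.GoodP (π.filter (· ∈ C)) k x o ∧ ∃ e : L, e.ob = o ∧ H x e)
      (fun o => ((T.dm_md n i o).mono hn).and
        ((md_goodP (fun a ha => (Finset.mem_filter.1 ha).2) k o).and
          (MD.ex fun e => (MD.const _).and (hH e))))
      (fun x o h => T.dm_card n x i o h.1)
    filter_upwards [z] with x hx hf
    rw [freq_FF_Y hK] at hf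
    obtain ⟨o, ⟨h1, h2, e, rfl, h3⟩, h4, h5⟩ := hx (fun k' => by
      obtain ⟨e, ⟨h1, h2, h3⟩, h4⟩ := hf (π.filter (· ∈ C)) (max k k') fun a ha =>
        ⟨(Finset.mem_filter.1 ha).2, (hP' (hπ (Finset.mem_filter.1 ha).1)).2⟩
      exact ⟨e.ob, ⟨h1, h3.mono subset_rfl (le_max_left _ _), e, rfl, h4⟩,
        h2.mono (le_max_right _ _)⟩) k
    refine ⟨e, ⟨h1, h4, fun a ha => ?_⟩, h3⟩
    by_cases h : a ∈ C
    · exact h2 a (Finset.mem_filter.2 ⟨ha, h⟩)
    · exact h5 a (Finset.mem_filter.2 ⟨ha, h⟩)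
  filter_upwards [(eventually_countable_ball (countable_finsets hP)).2 key] with x hx hf
  rw [freq_FF_Y hK]
  exact fun π k hπ => hx π hπ k hf

theorem FF_empty_freq (n : T.ι) (x : T.X) (i : ℕ) : ∃ᶠ _e in T.FF ∅ n x i, True := by
  by_cases hK : T.isK n
  · rw [FF_K hK, freq_KF]
    simpa using kpos_univ
  · rw [freq_FF_Y hK]
    intro π k hπ
    obtain ⟨o, h1, h2⟩ := T.dm_far n x i k
    refine ⟨⟨o.1, o.2, 0⟩, ⟨h1, h2, fun a ha => (hπ ha).elim⟩, trivial⟩

theorem neBot_of (hZ : ZedB B) (hn : T.supp n ⊆ B) (hP : P.Countable) (hP' : P ⊆ B \ T.supp n) :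
    ∀ᶠ x in T.ae B, ∀ i, (T.FF P n x i).NeBot := by
  refine eventually_countable_forall.2 fun i => ?_
  filter_upwards [pt_of hZ (clo_supp n) hn subset_rfl hP hP' i (fun _ _ => True)
    fun _ => MD.const _] with x hx
  rw [sdiff_self] at hx
  exact (frequently_true_iff_neBot _).1 (hx (FF_empty_freq n x i))

end Tpl

end Pool.Agent.MP_e30343_lc.SO

end

-- part MP_e30343_lc.SO.ApiC
section

/-! Closed sets of nodes give complete suborders; the main induction. -/

open Filter Set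

namespace Pool.Agent.MP_e30343_lc.SO

theorem ap_inT_ind {S : List L → Set L} {σ ρ : List L} (h : InT σ S ρ) {Q : List L → Prop}
    (h0 : Q σ) (h1 : ∀ τ e, Q τ → e ∈ S τ → Q (τ ++ [e])) : Q ρ := by
  obtain ⟨t, rfl⟩ := h.1
  induction t using List.reverseRecOn with
  | nil => simpa using h0
  | append_singleton t e ih =>
    rw [← List.append_assoc] at h ⊢
    exact h1 _ _ (ih (ap_inT_cut h (List.prefix_append _ _) (List.prefix_append _ _)))
      (h.2 _ _ (List.prefix_append _ _) (List.prefix_refl _))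

namespace Tpl

variable {T : Tpl} {B C c : Set T.ι} {p q r s w : T.Cond} {n m : T.ι} {x : T.X}
  {K : T.X → Prop}

/-- the statement of the main induction -/
structure Core (B : Set T.ι) : Prop where
  long : Long B
  pos : PosB B
  bp : BP2 B
  ce : ∀ C ⊆ B, T.Clo C → T.ae B ≤ T.ae C
  zed : ZedB B

theorem proj_of (hp : PosB B) (hb : BP2 B) (hC : C ⊆ B) (K : T.X → Prop) :
    ∃ R, MD C R ∧ (∀ᶠ x in T.ae B, K x → R x) ∧
      ∀ R', MD C R' → (∀ᶠ x in T.ae B, K x → R' x) → ∀ᶠ x in T.ae B, R x → R' x := by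
  obtain ⟨D, hD, hc, h⟩ := ess_of hp hb {Q | MD C Q ∧ ∀ᶠ x in T.ae B, K x → ¬ Q x}
    fun _ h => h.1.mono hC
  refine ⟨fun x => ∀ Q ∈ D, ¬ Q x, MD.ball hc fun Q hQ => (hD hQ).1.not, ?_, fun R' h1 h2 => ?_⟩
  · exact ((eventually_countable_ball hc).2 fun Q hQ => (hD hQ).2).mono
      fun x hx hK Q hQ => hx Q hQ hK
  · refine (h _ ⟨h1.not, h2.mono fun x hx hK => not_not.2 (hx hK)⟩).mono fun x hx hR => ?_
    by_contra hn
    obtain ⟨Q, hQ, h'⟩ := hx hn
    exact hR Q hQ h'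

open Classical in
/-- retraction onto the coordinates in `B` -/
noncomputable def rs (B : Set T.ι) (x : T.X) : T.X := fun n => if n ∈ B then x n else default

theorem rs_eq (x : T.X) (h : n ∈ B) : rs B x n = x n := if_pos h

theorem md_rs (hK : Measurable K) : MD B fun x => K (rs B x) := by
  refine ⟨hK.comp (measurable_pi_lambda _ fun n => ?_), fun x y h => ?_⟩
  · by_cases hn : n ∈ B
    · simpa only [rs_eq _ hn] using measurable_pi_apply n
    · simp only [rs, if_neg hn]; exact measurable_const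
  · have : rs B x = rs B y := funext fun n => by
      by_cases hn : n ∈ B
      · rw [rs_eq _ hn, rs_eq _ hn, h n hn]
      · simp only [rs, if_neg hn]
    simp only [this]

theorem ccc_of (hp : PosB B) (hb : BP2 B) : CCC (map (rs B) (T.ae B)) := by
  refine ⟨fun A hA => ?_⟩
  obtain ⟨D, hD, hc, h⟩ := ess_of hp hb ((fun P x => P (rs B x)) '' A)
    (by rintro _ ⟨P, hP, rfl⟩; exact md_rs (hA P hP))
  choose! f hf hf' using fun Q (hQ : Q ∈ D) => hD hQ
  refine ⟨f '' D, image_subset_iff.2 hf, hc.image f, fun P hP => ?_⟩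
  refine eventually_map.2 ((h _ (mem_image_of_mem _ hP)).mono fun x hx h' => ?_)
  obtain ⟨Q, hQ, h''⟩ := hx h'
  exact ⟨f Q, mem_image_of_mem f hQ, (congrFun (hf' Q hQ) x).mpr h''⟩

theorem FF_congr {P : Set T.ι} (hP : P ⊆ B) (hn : T.supp n ⊆ B) {x y : T.X}
    (h : ∀ m ∈ B, x m = y m) (i : ℕ) : T.FF P n x i = T.FF P n y i := by
  by_cases hK : T.isK n
  · rw [FF_K hK, FF_K hK]
  ext S
  simp only [mem_FF_Y hK]
  refine exists_congr fun π => exists_congr fun k => and_congr_right fun hπ =>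
    forall_congr' fun e => imp_congr_left ?_
  exact and_congr ((T.dm_md n i e.ob).2 x y fun m hm => h m (hn hm))
    (and_congr_right fun _ => (md_goodP (hπ.trans hP) k e.ob).2 x y h)

theorem pm_of (hp : PosB B) (hb : BP2 B) (hC : C.Countable) (hCB : C ⊆ B) (hn : T.supp n ⊆ C)
    (i : ℕ) (H : T.X → L → Prop) (hH : ∀ e, MD C fun x => H x e) :
    ∃ Pm : T.X → Prop, MD C Pm ∧ (∀ x, (∃ᶠ e in T.FF (C \ T.supp n) n x i, H x e) → Pm x) ∧
      ∀ᶠ x in T.ae B, Pm x → ∃ᶠ e in T.FF (C \ T.supp n) n x i, H x e := by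
  have := ccc_of hp hb
  obtain ⟨Pm, h1, h2, h3⟩ := pos_meas (map (rs B) (T.ae B)) (hC.mono sdiff_subset) sdiff_subset
    hn i H hH
  refine ⟨Pm, h1, h2, (eventually_map.1 h3).mono fun x hx h => ?_⟩
  have e : ∀ m ∈ C, rs B x m = x m := fun m hm => rs_eq x (hCB hm)
  have := hx ((h1.2 _ _ e).2 h)
  rw [FF_congr sdiff_subset hn e] at this
  exact this.mono fun a ha => ((hH a).2 _ _ e).1 ha

theorem supp_init (hB : T.Clo B) (hn : n ∈ B) : T.supp n ⊆ B ∩ Iio n :=
  fun m hm => ⟨hB n hn hm, T.supp_lt n m hm⟩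

/-- reductions -/
theorem red_of (hC : T.Clo C) (hCB : C ⊆ B) (h1 : ∀ n ∈ B, Core (B ∩ Iio n))
    (h2 : ∀ n ∈ B, Core (C ∩ Iio n)) (hr : Val B r) :
    ∃ r', Val C r' ∧ ∀ w, Val C w → LeB C w r' → Cp B w r := by
  rcases exists_top r.dom with h0 | ⟨n, hn, htop⟩
  · exact ⟨T.top, val_top C, fun w hw _ => cp_of_st (hw.mono hCB) hr fun m _ h => by simp [h0] at h⟩
  have cB := h1 n (hr.1 hn)
  have cC := h2 n (hr.1 hn)
  have hsub : C ∩ Iio n ⊆ B ∩ Iio n := inter_subset_inter_left _ hCB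
  have hce := cB.ce _ hsub (hC.init n)
  choose θ hθ1 hθ2 hθ3 using fun ρ => proj_of cB.pos cB.bp hsub
    fun x => Sem (r.res (Iio n)) x ∧ InT (r.st n) (r.S n x) ρ
  have fin : ∀ w ρ, Val C w → (∀ᶠ x in T.ae (B ∩ Iio n), Sem (w.res (Iio n)) x → θ ρ x) →
      ∃ s, Val (B ∩ Iio n) s ∧ LeB (B ∩ Iio n) s (w.res (Iio n)) ∧
        LeB (B ∩ Iio n) s (r.res (Iio n)) ∧
        ∀ᶠ x in T.ae (B ∩ Iio n), Sem s x → InT (r.st n) (r.S n x) ρ := by
    intro w ρ hw h
    refine cB.bp _ _ _ (md_inT (hr.2 n hn) _ _) ((hw.mono hCB).init n) (hr.init n) fun hn' => ?_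
    refine cB.pos _ ((hw.mono hCB).init n) ?_
    filter_upwards [h, hθ3 ρ _ (md_sem (hw.init n)).not (hn'.mono fun x hx a b => hx ⟨b, a⟩)]
      with x a b c using b (a c) c
  obtain ⟨u, hu, hu'⟩ := cC.bp.one (hθ1 (r.st n)) (Frequently.filter_mono
    (((cB.pos _ (hr.init n)).and_eventually (hθ2 (r.st n))).mono
      fun x hx => hx.2 ⟨hx.1, InT.refl _ _⟩) hce)
  have low : ∀ w, LeB C w u → ∀ᶠ x in T.ae (B ∩ Iio n), Sem (w.res (Iio n)) x → θ (r.st n) x :=
    fun w h => hce (((h.res n).sub.and hu').mono fun x hx a =>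
      hx.2 ((sem_res_of hu.lt).1 (hx.1 a)))
  by_cases hnC : n ∈ C
  swap
  · refine ⟨u, hu.mono inter_subset_left, fun w hw hle => ?_⟩
    obtain ⟨s, hs, a, b, -⟩ := fin w _ hw (low w hle)
    obtain ⟨t, ht, c, d, -⟩ := glue hs (hw.mono hCB) hr a b fun m hm hm' hnm =>
      absurd (le_antisymm (htop m hm') hnm ▸ hw.1 hm) hnC
    exact ⟨t, ht, c, d⟩
  choose J hJ1 hJ2 hJ3 using fun ρ => (hθ1 ρ).count
  have hc0 : (T.clo (T.supp n ∪ ⋃ ρ, J ρ)).Countable :=
    clo_count ((T.supp_c n).union (countable_iUnion hJ2))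
  have hs0 : T.clo (T.supp n ∪ ⋃ ρ, J ρ) ⊆ C ∩ Iio n :=
    clo_min (hC.init n) (union_subset (supp_init hC hnC) (iUnion_subset hJ1))
  have hn0 : T.supp n ⊆ T.clo (T.supp n ∪ ⋃ ρ, J ρ) := subset_union_left.trans (subset_clo _)
  have hm0 : ∀ ρ, MD (T.clo (T.supp n ∪ ⋃ ρ, J ρ)) (θ ρ) := fun ρ =>
    (hJ3 ρ).mono (((subset_iUnion J ρ).trans subset_union_right).trans (subset_clo _))
  have hcl0 := clo_clo (T.supp n ∪ ⋃ ρ, J ρ)
  generalize T.clo (T.supp n ∪ ⋃ ρ, J ρ) = C0 at hc0 hs0 hn0 hm0 hcl0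
  choose Pm hP1 hP2 hP3 using fun τ : List L => pm_of cB.pos cB.bp hc0 (hs0.trans hsub) hn0
    τ.length (fun x e => ¬ θ (τ ++ [e]) x) fun e => (hm0 _).not
  have hG : ∀ τ, ∀ᶠ x in T.ae (B ∩ Iio n), θ τ x → ¬ Pm τ x := fun τ => by
    refine hθ3 τ _ ((hP1 τ).mono hs0).not ?_
    obtain ⟨P, a, b, c⟩ := (hr.2 n hn).2
    filter_upwards [hP3 τ, pt_of cB.zed hcl0 (hs0.trans hsub) hn0 a b τ.length
      (fun x e => ¬ θ (τ ++ [e]) x) fun e => (hm0 _).not,
      eventually_countable_forall.2 fun e : L => hθ2 (τ ++ [e])] with x d e f g h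
    obtain ⟨a, h1, h2⟩ := ((e (d h)).and_eventually (c x τ)).exists
    exact h1 (f a ⟨g.1, g.2.snoc h2⟩)
  have hS : T.VS C n fun x τ => {e | ¬ Pm τ x → θ (τ ++ [e]) x} := by
    refine ⟨fun τ e => ((hP1 τ).mono hs0).not.imp (hθ1 _), C0 \ T.supp n, hc0.mono sdiff_subset,
      sdiff_subset_sdiff_left hs0, fun x τ => ?_⟩
    by_cases h : Pm τ x
    · simp [h]
    · exact (not_frequently.1 (mt (hP2 τ x) h)).mono fun e he _ => not_not.1 he
  refine ⟨join u (one n (r.st n) fun x τ => {e | ¬ Pm τ x → θ (τ ++ [e]) x}),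
    (hu.mono inter_subset_left).join (val_one hnC hS), fun w hw hle => ?_⟩
  have hle' := LeW.dx_right hle (join_dx_right fun m a b => absurd (hu.lt m a)
    (mem_one.1 b ▸ lt_irrefl _))
  obtain ⟨-, e2, -, e4⟩ := leW_iff.1 hle' n (mem_one.2 rfl)
  obtain ⟨s, hs, a, b, c⟩ := fin w (w.st n) hw (by
    filter_upwards [low w (LeW.dx_right hle (join_dx _ _)), hce e4,
      eventually_countable_forall.2 hG] with x a b c d
    exact ap_inT_ind (Q := fun τ => θ τ x) (b d) (a d) fun τ e f g => g (c τ f))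
  obtain ⟨t, ht, d, e, -⟩ := glue hs (hw.mono hCB) hr a b fun m hm hm' hnm =>
    Or.inr ⟨le_antisymm (htop m hm') hnm, e2, c⟩
  exact ⟨t, ht, d, e⟩

theorem core_step (hB : T.Clo B) (ih : ∀ n ∈ B, ∀ C ⊆ Iio n, T.Clo C → Core C) : Core B := by
  have h0 : ∀ C ⊆ B, T.Clo C → ∀ n ∈ B, Core (C ∩ Iio n) := fun C _ hC n hn =>
    ih n hn _ inter_subset_right (hC.init n)
  have hL : ∀ C ⊆ B, T.Clo C → Long C := fun C h hC =>
    long_of (fun n hn => (h0 C h hC n (h hn)).bp) (fun n hn => (h0 C h hC n (h hn)).pos)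
      fun n hn S hS τ => by
        obtain ⟨P, a, b, c⟩ := hS.2
        filter_upwards [neBot_of (h0 C h hC n (h hn)).zed (supp_init hC hn) a b] with x hx
        exact (hx _).nonempty_of_mem (c x τ)
  have hb : ∀ C ⊆ B, T.Clo C → BP2 C := fun C h hC =>
    bp2_of (hL C h hC) fun _ _ => cp_of_freq fun n hn => (h0 C h hC n (h hn)).bp
  have hce : ∀ C ⊆ B, T.Clo C → T.ae B ≤ T.ae C := fun C h hC => ae_le_of_pd fun D hD => by
    have up : ∀ q p, Val C p → LeB C q p → LeB B q p := fun q p hp hq =>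
      LeW.mono' hq fun n hn => (h0 B subset_rfl hB n (h (hp.1 hn))).ce _
        (inter_subset_inter_left _ h) (hC.init n)
    refine ⟨fun d hd => (hD.1 d hd).mono h, fun r hr => ?_⟩
    obtain ⟨r', a, b⟩ := red_of hC h (h0 B subset_rfl hB) (h0 C h hC) hr
    obtain ⟨d, hd, t, c, e, f⟩ := hD.2 r' a
    obtain ⟨s, g, i, j⟩ := b t c f
    exact ⟨d, hd, s, g, i.trans (up t d (hD.1 d hd) e), j⟩
  refine ⟨hL B subset_rfl hB, (hL B subset_rfl hB).pos, hb B subset_rfl hB, hce,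
    zed_of (fun C h hC => (hL C h hC).pos) (fun C h hC K hK hf a ha => ?_) hce hB⟩
  obtain ⟨s, a1, a2⟩ := (hb C h hC).one hK hf
  obtain ⟨q, b1, b2, b3, -⟩ := hL C h hC s a 0 a1 ha
  exact ⟨q, b1, b3, (b2.sub.and a2).mono fun x hx h => hx.2 (hx.1 h)⟩

theorem core (hB : T.Clo B) : Core B := by
  have h : ∀ n : T.ι, ∀ C ⊆ Iio n, T.Clo C → Core C := by
    intro n
    induction n using WellFoundedLT.induction with
    | ind n ih => exact fun C h hC => core_step hC fun m hm => ih m (h hm)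
  exact core_step hB fun n _ => h n

end Tpl

end Pool.Agent.MP_e30343_lc.SO

end

-- part MP_e30343_lc.SO.Api
section

/-! The forcing facts in terms of the single filter `T.μ` (consequences of the main induction). -/

open Filter Set

namespace Pool.Agent.MP_e30343_lc.SO

namespace Tpl

variable {T : Tpl} {B C D c P : Set T.ι} {n : T.ι} {p q r : T.Cond} {K θ : T.X → Prop}

theorem core_univ : Core (univ : Set T.ι) := core (clo_lower isLowerSet_univ)

instance : NeBot T.μ :=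
  (frequently_true_iff_neBot _).1 ((core_univ.pos _ (val_top univ)).mono fun _ _ => trivial)

instance : CCC T.μ :=
  ⟨fun A hA => ess_of core_univ.pos core_univ.bp A fun P hP => MD.of_meas (hA P hP)⟩

theorem mu_le (hB : T.Clo B) : T.μ ≤ T.ae B := core_univ.ce B (subset_univ B) hB

theorem ae_of_mu (hB : T.Clo B) (hK : MD B K) (h : ∀ᶠ x in T.μ, K x) : ∀ᶠ x in T.ae B, K x := by
  by_contra hn
  obtain ⟨s, hs, h'⟩ := (core hB).bp.one hK.not (not_eventually.1 hn)
  obtain ⟨x, a, b, c⟩ := ((core_univ.pos s (hs.mono (subset_univ B))).and_eventually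
    (Eventually.and h (mu_le hB h'))).exists
  exact c a b

theorem mu_meas (h : ∀ᶠ x in T.μ, K x) :
    ∃ Q : T.X → Prop, Measurable Q ∧ (∀ᶠ x in T.μ, Q x) ∧ ∀ x, Q x → K x := by
  obtain ⟨𝒟, hc, h1, h2⟩ := ev_elim h
  exact ⟨fun x => ∀ D ∈ 𝒟, ∃ d ∈ D, Sem d x,
    (MD.ball hc fun D hD => MD.bex (h1 D hD).1 fun d hd => md_sem ((h1 D hD).2.1 d hd)).1,
    (eventually_countable_ball hc).2 fun D hD => (h1 D hD).2.ev (h1 D hD).1, h2⟩

theorem pos (h : Val univ p) : ∃ᶠ x in T.μ, Sem p x := core_univ.pos p h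

theorem Le.sem (h : Le q p) : ∀ᶠ x in T.μ, Sem q x → Sem p x := LeW.sub h fun _ _ => le_rfl

theorem Le.refl (p : T.Cond) : Le p p := (Dx.refl p).le

theorem Le.trans (h : Le r q) (h' : Le q p) : Le r p := leW_iff.2 fun n hn => by
  obtain ⟨g1, g2, g3, g4⟩ := leW_iff.1 h' n hn
  obtain ⟨h1, h2, h3, h4⟩ := leW_iff.1 h n g1
  refine ⟨h1, g2.trans h2, fun x τ => (h3 x τ).trans (g3 x τ), ?_⟩
  have h5 : Le (r.res (Iio n)) (q.res (Iio n)) := leW_iff.2 fun m hm => by
    obtain ⟨a, b⟩ := mem_res_dom.1 hm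
    obtain ⟨c, d, e, f⟩ := leW_iff.1 h m a
    refine ⟨mem_res_dom.2 ⟨c, b⟩, d, e, ?_⟩
    simpa only [sem_res_res (le_of_lt b), res_S, res_st] using f
  filter_upwards [g4, h4, h5.sem] with x a b c hx
  exact (a (c hx)).trans (ap_inT_mono (b hx) (g3 x))

theorem LeB.le (hB : T.Clo B) (h : LeB B q p) : Le q p :=
  LeW.mono' h fun n _ => mu_le (hB.init n)

theorem bp (hB : T.Clo B) (hK : MD B K) (hp : Val B p) (h : ∃ᶠ x in T.μ, Sem p x ∧ K x) :
    ∃ q, Val B q ∧ Le q p ∧ ∀ᶠ x in T.μ, Sem q x → K x := by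
  obtain ⟨s, a, b, -, c⟩ := (core hB).bp K p p hK hp hp
    ((h.mono fun x hx => ⟨hx.1, hx⟩).filter_mono (mu_le hB))
  exact ⟨s, a, b.le hB, mu_le hB c⟩

theorem long (hB : T.Clo B) (hp : Val B p) (s : Finset T.ι) (hs : ↑s ⊆ B) (k : ℕ) :
    ∃ q, Val B q ∧ Le q p ∧ ∀ n ∈ s, n ∈ q.dom ∧ k ≤ (q.st n).length := by
  classical
  induction s using Finset.induction_on with
  | empty => exact ⟨p, hp, Le.refl p, by simp⟩
  | insert a s _ ih =>
    rw [Finset.coe_insert, insert_subset_iff] at hs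
    obtain ⟨q, h1, h2, h3⟩ := ih hs.2
    obtain ⟨r, g1, g2, g3⟩ := (core hB).long q a k h1 hs.1
    refine ⟨r, g1, (g2.le hB).trans h2, fun n hn => ?_⟩
    rcases Finset.mem_insert.1 hn with rfl | hn
    · exact g3
    · exact ⟨g2.1 (h3 n hn).1, (h3 n hn).2.trans (g2.2 n (h3 n hn).1).2.1.length_le⟩

theorem az_mem_res {m : T.ι} : m ∈ (p.res c).dom ↔ m ∈ p.dom ∧ m ∈ c := by
  unfold Cond.res
  simp only [Finset.mem_filter]

/-- inside a positive set there is a condition with long stems at prescribed nodes -/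
theorem bp_long (hB : T.Clo B) (hK : MD B K) (h : ∃ᶠ x in T.μ, K x) (s : Finset T.ι)
    (hs : ↑s ⊆ B) (k : ℕ) : ∃ q, Val B q ∧ (∀ n ∈ s, n ∈ q.dom ∧ k ≤ (q.st n).length) ∧
      ∀ᶠ x in T.μ, Sem q x → K x := by
  obtain ⟨q, hq, -, h1⟩ := bp hB hK (val_top B) (h.mono fun x hx => ⟨sem_top x, hx⟩)
  obtain ⟨r, hr, h2, h3⟩ := long hB hq s hs k
  refine ⟨r, hr, h3, ?_⟩
  filter_upwards [h1, h2.sem] with x a1 a2 hx
  exact a1 (a2 hx)

/-- (Z) -/
theorem zed (hC : T.Clo C) (π : Finset T.ι) (hπ : ∀ a ∈ π, a ∉ C) (m k0 : ℕ)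
    (WW : T.X → Obj → Prop) (h1 : ∀ o, MD C fun x => WW x o) (h2 : ∀ x o, WW x o → o.2.card ≤ m) :
    ∀ᶠ x in T.μ, (∀ k, ∃ o, WW x o ∧ far k o) →
      ∀ k, ∃ o, WW x o ∧ far k o ∧ T.GoodP π k0 x o :=
  core_univ.zed C (subset_univ C) hC π (subset_univ _) hπ m k0 WW h1 h2

theorem az_amalg (hc : IsLowerSet c) (hK : MD c K) (h : ∃ᶠ x in T.μ, K x) (hp : Val univ p)
    (e : ∀ᶠ x in T.μ, K x → Sem (p.res c) x) :
    ∃ q, Val univ q ∧ (∀ n ∈ p.dom, n ∉ c → n ∈ q.dom ∧ q.st n = p.st n) ∧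
      ∀ᶠ x in T.μ, Sem q x → K x ∧ Sem p x := by
  obtain ⟨s, hs, -, h1⟩ := bp (clo_lower hc) hK (val_top c) (h.mono fun x hx => ⟨sem_top x, hx⟩)
  obtain ⟨q, hq, hdom, hd, hsem⟩ := meet (B := univ)
    (fun b : Bool => bif b then s else p.res cᶜ)
    (fun b => by
      cases b
      · exact hp.res _
      · exact hs.mono (subset_univ _))
    (fun b b' m hm hm' => by
      cases b <;> cases b'
      · rfl
      · exact absurd (hs.1 hm') (az_mem_res.1 hm).2
      · exact absurd (hs.1 hm) (az_mem_res.1 hm').2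
      · rfl)
  refine ⟨q, hq, fun n hn hn' => ?_, ?_⟩
  · have h2 : n ∈ (p.res cᶜ).dom := az_mem_res.2 ⟨hn, hn'⟩
    exact ⟨(hdom n).2 ⟨false, h2⟩, (hd false n h2).1⟩
  · filter_upwards [h1, e] with x a1 a2 hx
    have a3 := (hsem x).1 hx
    exact ⟨a1 (a3 true), (sem_split p c x).2 ⟨a2 (a1 (a3 true)), a3 false⟩⟩

/-- AMALG -/
theorem amalg (hc : IsLowerSet c) (hK : MD c K) (h : ∃ᶠ x in T.μ, K x) (hp : Val univ p)
    (e : ∀ᶠ x in T.μ, K x → Sem (p.res c) x) : ∃ᶠ x in T.μ, K x ∧ Sem p x := by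
  obtain ⟨q, hq, -, h1⟩ := az_amalg hc hK h hp e
  exact ((pos hq).and_eventually h1).mono fun x hx => hx.2 hx.1

/-- AMALG as a condition that keeps the stems of the tail -/
theorem amalg_cond (hc : IsLowerSet c) (hK : MD c K) (h : ∃ᶠ x in T.μ, K x) (hp : Val univ p)
    (e : ∀ᶠ x in T.μ, K x → Sem (p.res c) x) :
    ∃ q, Val univ q ∧ (∀ n ∈ p.dom, n ∉ c → n ∈ q.dom ∧ q.st n = p.st n) ∧
      ∀ᶠ x in T.μ, Sem q x → K x ∧ Sem p x := by
  exact az_amalg hc hK h hp e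

theorem az_val_one {S : T.Suc} (hn : n ∈ B) (h : T.VS B n S) (τ : List L) : Val B (one n τ S) :=
  ⟨fun m hm => by
    obtain rfl : m = n := by simpa [one] using hm
    exact hn, fun m hm => by
    obtain rfl : m = n := by simpa [one] using hm
    exact h⟩

/-- the generic sequence is eventually inside every valid tree -/
theorem generic {S : T.Suc} (h : T.VS univ n S) :
    ∀ᶠ x in T.μ, ∀ᶠ i in atTop, x n i ∈ S x (pre (x n) i) := by
  by_contra hfr
  have hmd : MD univ fun x : T.X => ¬ ∀ᶠ i in atTop, x n i ∈ S x (pre (x n) i) := by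
    refine (MD.ev fun i => ?_).not
    refine MD.word (φ := fun τ x => x n i ∈ S x τ) (mem_univ n) i fun τ => ?_
    refine MD.sub (φ := fun e x => e ∈ S x τ) (f := fun x => x n i)
      (fun e => (h.1 τ e).mono (subset_univ _)) fun e => ?_
    exact MD.letter (mem_univ n) i fun a => a = e
  obtain ⟨q, hq, hs, hK⟩ := bp_long (clo_lower isLowerSet_univ) hmd
    (by simpa only [Filter.Frequently, not_not] using hfr) {n} (subset_univ _) 0
  obtain ⟨q', hq', -, -, hsem⟩ := meet (B := univ)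
    (fun b : Bool => bif b then q else one n (q.st n) S)
    (fun b => by
      cases b
      · exact az_val_one (mem_univ n) h _
      · exact hq)
    (fun b b' m hm hm' => by
      cases b <;> cases b'
      · rfl
      · obtain rfl : m = n := by simpa [one] using hm
        rfl
      · obtain rfl : m = n := by simpa [one] using hm'
        rfl
      · rfl)
  obtain ⟨x, hx, hx'⟩ := ((pos hq').and_eventually hK).exists
  have h1 := (hsem x).1 hx
  exact hx' (h1 true) (eventually_atTop.2 ⟨_, (sem_one.1 (h1 false)).2⟩)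

/-- the generic sequence meets positive sets infinitely often -/
theorem generic' (H : T.X → List L → L → Prop) (h1 : ∀ τ e, MD (Iio n) fun x => H x τ e)
    (h2 : ∀ S, T.VS univ n S → ∀ τ, ∀ᶠ x in T.μ, ∃ e ∈ S x τ, H x τ e) :
    ∀ᶠ x in T.μ, ∃ᶠ i in atTop, H x (pre (x n) i) (x n i) := by
  classical
  suffices h : ∀ k, ∀ᶠ x in T.μ, ∃ i, k ≤ i ∧ H x (pre (x n) i) (x n i) by
    filter_upwards [eventually_countable_forall.2 h] with x hx
    exact frequently_atTop.2 hx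
  intro k
  by_contra hfr
  have hmd : MD univ fun x : T.X => ¬ ∃ i, k ≤ i ∧ H x (pre (x n) i) (x n i) := by
    refine (MD.ex fun i => (MD.const _).and ?_).not
    refine MD.word (φ := fun τ x => H x τ (x n i)) (mem_univ n) i fun τ => ?_
    refine MD.sub (φ := fun e x => H x τ e) (f := fun x => x n i)
      (fun e => (h1 τ e).mono (subset_univ _)) fun e => ?_
    exact MD.letter (mem_univ n) i fun a => a = e
  obtain ⟨q, hq, hs, hK⟩ := bp_long (clo_lower isLowerSet_univ) hmd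
    (by simpa only [Filter.Frequently, not_not] using hfr) {n} (subset_univ _) k
  obtain ⟨hn, hk⟩ := hs n (Finset.mem_singleton_self n)
  have hS := hq.2 n hn
  obtain ⟨e, he⟩ := freq_ex (P := fun e x =>
      Sem (q.res (Iio n)) x ∧ e ∈ q.S n x (q.st n) ∧ H x (q.st n) e)
    (((pos (hq.res (Iio n))).and_eventually (h2 _ hS (q.st n))).mono
      fun x ⟨hx, e, he⟩ => ⟨e, hx, he⟩)
  let q' : T.Cond := ⟨q.dom, fun m => if m = n then q.st n ++ [e] else q.st m, q.S⟩
  have hq' : Val univ q' := hq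
  have hmd' : MD (Iio n) fun x : T.X =>
      Sem (q.res (Iio n)) x ∧ e ∈ q.S n x (q.st n) ∧ H x (q.st n) e :=
    ((md_sem (hq.res_lower (isLowerSet_Iio n))).mono inter_subset_right).and
      (((hS.1 _ e).mono inter_subset_right).and (h1 _ e))
  have hf := amalg (isLowerSet_Iio n) hmd' he hq' (Eventually.of_forall fun x hx m hm => by
    have hm' : m < n := (az_mem_res.1 hm).2
    have := hx.1 m hm
    simpa only [q', Cond.res, hm'.ne, if_false] using this)
  obtain ⟨x, ⟨⟨-, h3, h4⟩, h5⟩, hx'⟩ := (hf.and_eventually hK).exists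
  have h6 : Br (q.st n ++ [e]) (q.S n x) (x n) := by
    simpa only [q', if_true] using h5 n hn
  have h7 : Br (q.st n) (q.S n x) (x n) := ((InT.refl _ _).snoc h3).br h6
  refine hx' (fun m hm => ?_) ⟨(q.st n).length, hk, ?_⟩
  · by_cases hmn : m = n
    · rw [hmn]
      exact h7
    · simpa only [q', hmn, if_false] using h5 m hm
  · have h8 := h6.1
    rw [List.length_append, List.length_singleton, pre_succ, h7.1] at h8
    have h9 : x n (q.st n).length = e := by simpa using h8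
    rw [h7.1, h9]
    exact h4

/-- at a node of kind Y the generic letters are eventually in the domain -/
theorem generic_dm (h : ¬ T.isK n) : ∀ᶠ x in T.μ, ∀ᶠ i in atTop, T.dm n x i (x n i).ob := by
  have hS : T.VS univ n fun x τ => {e | T.dm n x τ.length e.ob} :=
    ⟨fun τ e => (T.dm_md n τ.length e.ob).mono fun m hm => ⟨mem_univ m, T.supp_lt n m hm⟩,
      ∅, countable_empty, empty_subset _,
      fun x τ => (mem_FF_Y h).2 ⟨∅, 0, by simp, fun e he => he.1⟩⟩
  filter_upwards [generic hS] with x hx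
  filter_upwards [hx] with i hi
  simpa only [mem_ofPred_eq, length_pre] using hi

theorem FF_neBot (hP : P.Countable) (hP' : P ⊆ Iio n \ T.supp n) :
    ∀ᶠ x in T.μ, ∀ i, (T.FF P n x i).NeBot :=
  neBot_of core_univ.zed (subset_univ _) hP fun _ h => ⟨trivial, (hP' h).2⟩

/-- (PT) -/
theorem pt (hC : T.Clo C) (hC' : C.Countable) (hn : T.supp n ⊆ C) (hP : P.Countable)
    (hP' : P ⊆ Iio n \ T.supp n) (i : ℕ) (H : T.X → L → Prop)
    (hH : ∀ e, MD (C ∩ Iio n) fun x => H x e) :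
    ∀ᶠ x in T.μ, (∃ᶠ e in T.FF ((C ∩ Iio n) \ T.supp n) n x i, H x e) →
      ∃ᶠ e in T.FF P n x i, H x e :=
  have _ := hC'
  pt_of core_univ.zed (hC.init n) (subset_univ _) (fun m hm => ⟨hn hm, T.supp_lt n m hm⟩) hP
    (fun _ h => ⟨trivial, (hP' h).2⟩) i H hH

/-- defining property of the projection -/
def ProjP (C : Set T.ι) (K R : T.X → Prop) : Prop :=
  MD C R ∧ (∀ᶠ x in T.μ, K x → R x) ∧
    ∀ R', MD C R' → (∀ᶠ x in T.μ, K x → R' x) → ∀ᶠ x in T.μ, R x → R' x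

/-- projection of `K` to the coordinates in `C` -/
noncomputable def Proj (C : Set T.ι) (K : T.X → Prop) : T.X → Prop :=
  Classical.epsilon (ProjP C K)

theorem proj_spec (C : Set T.ι) (K : T.X → Prop) : ProjP C K (Proj C K) := by
  refine Classical.epsilon_spec (p := ProjP C K) ?_
  obtain ⟨R, h1, h2⟩ := ess_sup T.μ (B := C) {P | MD C P ∧ ∀ᶠ x in T.μ, P x → ¬ K x}
    fun P hP => hP.1
  have h3 : ∀ k, MD C (R k) ∧ ∀ᶠ x in T.μ, R k x → ¬ K x := fun k => by
    rcases h1 k with h | h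
    · exact h
    · rw [h]
      exact ⟨MD.const _, Eventually.of_forall fun _ h => h.elim⟩
  refine ⟨fun x => ¬ ∃ k, R k x, (MD.ex fun k => (h3 k).1).not, ?_, fun R' hR' h => ?_⟩
  · filter_upwards [eventually_countable_forall.2 fun k => (h3 k).2] with x hx hK
    exact fun ⟨k, hk⟩ => hx k hk hK
  · filter_upwards [h2 (fun x => ¬ R' x) ⟨hR'.not, h.mono fun x hx h1 h2 => h1 (hx h2)⟩]
      with x hx h1
    by_contra h2
    exact h1 (hx h2)

theorem proj_pos {R : T.X → Prop} (hR : MD C R) (h : ∃ᶠ x in T.μ, R x ∧ Proj C K x) :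
    ∃ᶠ x in T.μ, R x ∧ K x := by
  by_contra h'
  have h1 : ∀ᶠ x in T.μ, K x → ¬ R x :=
    (not_frequently.1 h').mono fun x hx h1 h2 => hx ⟨h2, h1⟩
  exact h (((proj_spec C K).2.2 _ hR.not h1).mono fun x hx h2 => hx h2.2 h2.1)

theorem proj_mono {R K' : T.X → Prop} (hR : MD C R) (h : ∀ᶠ x in T.μ, R x → K x → K' x) :
    ∀ᶠ x in T.μ, R x → Proj C K x → Proj C K' x := by
  have h1 : ∀ᶠ x in T.μ, K x → R x → Proj C K' x := by
    filter_upwards [h, (proj_spec C K').2.1] with x h1 h2 h3 h4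
    exact h2 (h1 h4 h3)
  exact ((proj_spec C K).2.2 _ (hR.imp (proj_spec C K').1) h1).mono fun x hx h2 h3 => hx h3 h2

theorem proj_ex {κ : Type} [Countable κ] (K : κ → T.X → Prop) :
    ∀ᶠ x in T.μ, Proj C (fun x => ∃ k, K k x) x → ∃ k, Proj C (K k) x := by
  refine (proj_spec C _).2.2 _ (MD.ex fun k => (proj_spec C (K k)).1) ?_
  filter_upwards [eventually_countable_forall.2 fun k => (proj_spec C (K k)).2.1] with x hx
  exact fun ⟨k, hk⟩ => ⟨k, hx k hk⟩

theorem proj_sub {R : T.X → Prop} (hR : MD C R) (h : ∀ᶠ x in T.μ, K x → R x) :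
    ∀ᶠ x in T.μ, Proj C K x → R x := (proj_spec C K).2.2 R hR h

/-- a set that depends on a closed set is a countable union of conditions -/
theorem exhaust (hD : T.Clo D) (hθ : MD D θ) : ∃ R : ℕ → T.X → Prop,
    (∀ k, (∃ t, Val D t ∧ (∀ᶠ x in T.μ, Sem t x → θ x) ∧ R k = Sem t) ∨ R k = fun _ => False) ∧
      ∀ᶠ x in T.μ, θ x → ∃ k, R k x := by
  obtain ⟨R, h1, h2⟩ := ess_sup T.μ (B := D)
    {P | ∃ t, Val D t ∧ (∀ᶠ x in T.μ, Sem t x → θ x) ∧ P = Sem t}
    (by rintro _ ⟨t, ht, -, rfl⟩; exact md_sem ht)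
  refine ⟨R, h1, ?_⟩
  have h3 : ∀ k, MD D (R k) := fun k => by
    rcases h1 k with ⟨t, ht, -, h⟩ | h
    · rw [h]
      exact md_sem ht
    · rw [h]
      exact MD.const _
  by_contra hfr
  obtain ⟨t, ht, -, hK⟩ := bp_long hD (hθ.imp (MD.ex h3)).not
    (by simpa only [Filter.Frequently, not_not] using hfr) ∅ (by simp) 0
  obtain ⟨x, hx, h4, h5⟩ := ((pos (ht.mono (subset_univ _))).and_eventually (hK.and
    (h2 _ ⟨t, ht, hK.mono fun x hx h => by
      by_contra h'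
      exact hx h fun h'' => absurd h'' h', rfl⟩))).exists
  exact h4 hx fun _ => h5 hx

/-- commuting projections, with a tail that avoids `D` -/
theorem cq (hc : IsLowerSet c) (hD : T.Clo D) (hθ : MD D θ) (hK : MD c K) (h : ∃ᶠ x in T.μ, K x)
    (e : ∀ᶠ x in T.μ, K x → Proj (D ∩ c) θ x) (hr : Val univ r)
    (hr' : ∀ n ∈ r.dom, n ∉ c → n ∉ D) (e' : ∀ᶠ x in T.μ, K x → Sem (r.res c) x) :
    ∃ᶠ x in T.μ, K x ∧ θ x ∧ Sem r x := by
  classical
  obtain ⟨R, h1, h2⟩ := exhaust hD hθ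
  have h3 : ∀ᶠ x in T.μ, K x → ∃ k, Proj (D ∩ c) (R k) x := by
    filter_upwards [e, proj_mono (C := D ∩ c) (K := θ) (K' := fun x => ∃ k, R k x)
      (MD.const True) (h2.mono fun x hx _ => hx), proj_ex (C := D ∩ c) R] with x a1 a2 a3 hx
    exact a3 (a2 trivial (a1 hx))
  obtain ⟨k, hk⟩ := freq_ex (P := fun k x => K x ∧ Proj (D ∩ c) (R k) x)
    ((h.and_eventually h3).mono fun x ⟨hx, hx'⟩ => (hx' hx).imp fun k hk => ⟨hx, hk⟩)
  rcases h1 k with ⟨t, ht, ht', h4⟩ | h4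
  swap
  · rw [h4] at hk
    obtain ⟨x, hx, hx'⟩ := (hk.and_eventually (proj_sub (C := D ∩ c) (K := fun _ => False)
      (MD.const False) (Eventually.of_forall fun _ h => h))).exists
    exact (hx' hx.2).elim
  rw [h4] at hk
  have hmd : MD (D ∩ c) (Sem (t.res c)) := md_sem (ht.res_lower hc)
  have h5 : ∃ᶠ x in T.μ, K x ∧ Sem (t.res c) x :=
    (hk.and_eventually (proj_sub hmd (Eventually.of_forall fun x hx =>
      ((sem_split t c x).1 hx).1))).mono fun x ⟨hx, hx'⟩ => ⟨hx.1, hx' hx.2⟩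
  obtain ⟨p, hp, hd, -, hsem⟩ := meet (B := univ)
    (fun b : Bool => bif b then t.res cᶜ else r.res cᶜ)
    (fun b => by
      cases b
      · exact hr.res _
      · exact (ht.mono (subset_univ _)).res _)
    (fun b b' m hm hm' => by
      cases b <;> cases b'
      · rfl
      · exact absurd (ht.1 (az_mem_res.1 hm').1)
          (hr' m (az_mem_res.1 hm).1 (az_mem_res.1 hm).2)
      · exact absurd (ht.1 (az_mem_res.1 hm).1)
          (hr' m (az_mem_res.1 hm').1 (az_mem_res.1 hm').2)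
      · rfl)
  have h6 := amalg hc (hK.and (hmd.mono inter_subset_right)) h5 hp
    (Eventually.of_forall fun x _ m hm => by
      obtain ⟨hm1, hm2⟩ := az_mem_res.1 hm
      obtain ⟨b, hb⟩ := (hd m).1 hm1
      cases b <;> exact absurd hm2 (az_mem_res.1 hb).2)
  refine (h6.and_eventually (ht'.and e')).mono fun x ⟨⟨⟨a1, a2⟩, a3⟩, a4, a5⟩ => ?_
  have a6 := (hsem x).1 a3
  exact ⟨a1, a4 ((sem_split t c x).2 ⟨a2, a6 true⟩), (sem_split r c x).2 ⟨a5 a1, a6 false⟩⟩

end Tpl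

namespace Mor

open Tpl

variable {T T' : Tpl} {B D : Set T.ι} {K : T.X → Prop}

theorem ae_iff (M : Mor T B T') (hB : T.Clo B) (hK : MD B K) :
    (∀ᶠ x in T'.μ, K (M.pull x)) ↔ ∀ᶠ x in T.μ, K x := by
  have hc := M.clo_image subset_rfl hB
  constructor
  · exact fun h => mu_le hB (M.pull_ae' hB hK (ae_of_mu hc (M.md_pull hK) h))
  · exact fun h => mu_le hc ((M.pull_ae hB).eventually (ae_of_mu hB hK h))

theorem freq_iff (M : Mor T B T') (hB : T.Clo B) (hK : MD B K) :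
    (∃ᶠ x in T'.μ, K (M.pull x)) ↔ ∃ᶠ x in T.μ, K x := by
  exact not_congr (M.ae_iff hB hK.not)

theorem tendsto_univ (M : Mor T univ T') : Tendsto M.pull T'.μ T.μ := by
  have hB : T.Clo univ := clo_lower isLowerSet_univ
  exact (M.pull_ae hB).mono_left (mu_le (M.clo_image subset_rfl hB))

theorem proj_pull (M : Mor T B T') (hB : T.Clo B) (hD : D ⊆ B) (hK : MD B K) :
    ∀ᶠ x in T'.μ, Proj (M.h '' D) (fun y => K (M.pull y)) x ↔ Proj D K (M.pull x) := by
  have p1 := proj_spec D K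
  have p2 := proj_spec (M.h '' D) fun y => K (M.pull y)
  have h1 := p2.2.2 _ (M.md_pull p1.1)
    ((M.ae_iff (K := fun x => K x → Proj D K x) hB (hK.imp (p1.1.mono hD))).2 p1.2.1)
  obtain ⟨Q, hQ, hQ'⟩ := M.md_push hD p2.1
  have h2 := (M.ae_iff (K := fun x => Proj D K x → Q x) hB ((p1.1.imp hQ).mono hD)).2
    (p1.2.2 Q hQ ((M.ae_iff (K := fun x => K x → Q x) hB (hK.imp (hQ.mono hD))).1
      (p2.2.1.mono fun x hx h => (hQ' x).1 (hx h))))
  filter_upwards [h1, h2] with x a1 a2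
  exact ⟨a1, fun h => (hQ' x).2 (a2 h)⟩

end Mor

end Pool.Agent.MP_e30343_lc.SO

end

-- part MP_e30343_lc.SO.Refl
section

/-! Closure points of cofinality `ω₁` for countably many operations on measurable families. -/

open Filter Set Cardinal MeasureTheory

namespace Pool.Agent.MP_e30343_lc.SO

/-- the order type `ω₁` -/
abbrev W1 : Type := (Cardinal.aleph 1).ord.ToType

theorem w1_iio (a : W1) : (Iio a).Countable := by
  have h := (Cardinal.mk_Iio_lt a (by simp only [mk_toType, ord_aleph, Ordinal.card_omega, Ordinal.type_toType])).trans_eq (Cardinal.mk_ord_toType _)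
  rw [← Cardinal.le_aleph0_iff_set_countable]
  exact Order.lt_succ_iff.1 (h.trans_eq Cardinal.succ_aleph0.symm)

theorem w1_bdd {S : Set W1} (hS : S.Countable) : ∃ b, ∀ s ∈ S, s < b := by
  by_contra hcon
  push Not at hcon
  have h1 : (univ : Set W1) ⊆ ⋃ s ∈ S, insert s (Iio s) := by
    intro b _
    obtain ⟨s, hs, hb⟩ := hcon b
    simp only [mem_iUnion]
    exact ⟨s, hs, hb.eq_or_lt.elim (fun h => Or.inl h) (fun h => Or.inr h)⟩
  have h2 : (univ : Set W1).Countable :=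
    (hS.biUnion fun s _ => (w1_iio s).insert s).mono h1
  rw [← Cardinal.le_aleph0_iff_set_countable, Cardinal.mk_univ, Cardinal.mk_ord_toType] at h2
  exact absurd h2 (not_le.2 Cardinal.aleph0_lt_aleph_one)

theorem closure_point {ι : Type} [LinearOrder ι] [WellFoundedLT ι] {I : Type}
    (old : ι → I → Prop) (out : I → Set ι)
    (hb : ∀ S : Set ι, #S ≤ 𝔠 → ∃ a, ∀ s ∈ S, s < a)
    (hmono : ∀ b c f, b ≤ c → old b f → old c f)
    (hcard : ∀ a, #{f | old a f} ≤ 𝔠) (hout : ∀ f, (out f).Countable) (b0 : ι) :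
    ∃ α, b0 < α ∧ (∀ S ⊆ Iio α, S.Countable → ∃ b < α, ∀ s ∈ S, s < b) ∧
      ∀ b < α, ∀ f, old b f → out f ⊆ Iio α := by
  classical
  have hstep : ∀ S : Set ι, ∃ a, S.Countable → (b0 < a ∧ (∀ s ∈ S, s < a) ∧
      ∀ s ∈ S, ∀ f, old s f → out f ⊆ Iio a) := by
    intro S
    by_cases hS : S.Countable
    · obtain ⟨b, hb1⟩ := hb (insert b0 S) (((hS.insert b0).le_aleph0).trans aleph0_le_continuum)
      have h2 : #(insert b (⋃ f : {f | old b f}, out f.1) : Set ι) ≤ 𝔠 := by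
        refine mk_insert_le.trans ?_
        refine add_le_of_le aleph0_le_continuum ?_ (one_le_aleph0.trans aleph0_le_continuum)
        refine (mk_iUnion_le _).trans ?_
        refine (mul_le_mul' (hcard b) (ciSup_le' fun f : {f | old b f} => (hout f.1).le_aleph0)).trans ?_
        simp
      obtain ⟨a, ha⟩ := hb _ h2
      have hba : b < a := ha b (mem_insert _ _)
      refine ⟨a, fun _ => ⟨(hb1 b0 (mem_insert _ _)).trans hba,
        fun s hs => (hb1 s (mem_insert_of_mem _ hs)).trans hba, fun s hs f hf n hn => ?_⟩⟩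
      exact ha n (mem_insert_of_mem _ (mem_iUnion.2
        ⟨⟨f, hmono s b f (hb1 s (mem_insert_of_mem _ hs)).le hf⟩, hn⟩))
    · exact ⟨b0, fun h => absurd h hS⟩
  choose step hstep using hstep
  let a : W1 → ι := (wellFounded_lt (α := W1)).fix
    fun ξ ih => step (range fun η : Iio ξ => ih η.1 η.2)
  have ha : ∀ ξ, a ξ = step (range fun η : Iio ξ => a η.1) := fun ξ =>
    (wellFounded_lt (α := W1)).fix_eq _ ξ
  have ha' : ∀ ξ, b0 < a ξ ∧ (∀ η < ξ, a η < a ξ) ∧
      ∀ η < ξ, ∀ f, old (a η) f → out f ⊆ Iio (a ξ) := by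
    intro ξ
    have := (w1_iio ξ).to_subtype
    have := hstep _ (countable_range fun η : Iio ξ => a η.1)
    rw [← ha] at this
    exact ⟨this.1, fun η hη => this.2.1 _ ⟨⟨η, hη⟩, rfl⟩, fun η hη => this.2.2 _ ⟨⟨η, hη⟩, rfl⟩⟩
  have hex : {c | ∀ ξ, a ξ < c}.Nonempty := by
    obtain ⟨c, hc⟩ := hb (range a) (mk_range_le.trans (by
      rw [Cardinal.mk_ord_toType]; exact aleph_one_le_continuum))
    exact ⟨c, fun ξ => hc _ ⟨ξ, rfl⟩⟩
  have hα := (wellFounded_lt (α := ι)).min_mem _ hex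
  set α := (wellFounded_lt (α := ι)).min _ hex with hαd
  have hlt : ∀ b < α, ∃ ξ, b ≤ a ξ := by
    intro b hbα
    by_contra hcon
    push Not at hcon
    exact (wellFounded_lt (α := ι)).not_lt_min {c | ∀ ξ, a ξ < c} (x := b) hcon hbα
  obtain ⟨ξ0, -⟩ := w1_bdd countable_empty
  have : Nonempty W1 := ⟨ξ0⟩
  refine ⟨α, (ha' ξ0).1.trans (hα ξ0), fun S hS hSc => ?_, fun b hbα f hf => ?_⟩
  · choose! ξ hξ using hlt
    obtain ⟨ζ, hζ⟩ := w1_bdd (hSc.image ξ)
    exact ⟨a ζ, hα ζ, fun s hs =>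
      (hξ s (hS hs)).trans_lt ((ha' ζ).2.1 _ (hζ _ (mem_image_of_mem _ hs)))⟩
  · obtain ⟨ξ, hξ⟩ := hlt b hbα
    obtain ⟨ζ, hζ⟩ := w1_bdd (countable_singleton ξ)
    intro n hn
    exact ((ha' ζ).2.2 ξ (hζ ξ rfl) f (hmono _ _ _ hξ hf) hn).trans (hα ζ)

section Count
variable {ι Y : Type} [MeasurableSpace Y]

/-- measurable and depending only on the coordinates in `B` -/
def MDp (B : Set ι) (P : (ι → Y) → Prop) : Prop :=
  Measurable P ∧ ∀ x x', (∀ n ∈ B, x n = x' n) → (P x ↔ P x')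

theorem card_measurableSet_pi {J : Type} [MeasurableSpace.CountablyGenerated Y] (hJ : #J ≤ 𝔠) :
    #{t : Set (J → Y) | MeasurableSet t} ≤ 𝔠 := by
  have e : (MeasurableSpace.pi : MeasurableSpace (J → Y)) = MeasurableSpace.generateFrom
      (⋃ j : J, preimage (fun x : J → Y => x j) '' MeasurableSpace.countableGeneratingSet Y) := by
    rw [← MeasurableSpace.iSup_generateFrom]
    unfold MeasurableSpace.pi
    congr 1
    funext j
    rw [← MeasurableSpace.comap_generateFrom, MeasurableSpace.generateFrom_countableGeneratingSet]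
  have := MeasurableSpace.cardinal_measurableSet_le_continuum
    (s := ⋃ j : J, preimage (fun x : J → Y => x j) '' MeasurableSpace.countableGeneratingSet Y)
    ((mk_iUnion_le _).trans ((mul_le_mul' hJ (ciSup_le' fun j =>
      (MeasurableSpace.countable_countableGeneratingSet.image _).le_aleph0)).trans (by simp)))
  rw [← e] at this
  exact this

theorem card_mdp [MeasurableSpace.CountablyGenerated Y] [Nonempty Y] {B : Set ι} (hB : #B ≤ 𝔠) :
    #{P : (ι → Y) → Prop | MDp B P} ≤ 𝔠 := by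
  classical
  obtain ⟨y0⟩ := ‹Nonempty Y›
  let ex : (B → Y) → ι → Y := fun z n => if h : n ∈ B then z ⟨n, h⟩ else y0
  have hex : Measurable ex := by
    refine measurable_pi_lambda _ fun n => ?_
    by_cases h : n ∈ B
    · simpa [ex, h] using measurable_pi_apply _
    · simp [ex, h]
  refine le_trans (mk_le_of_injective (f := fun P : {P : (ι → Y) → Prop | MDp B P} =>
    (⟨{z | P.1 (ex z)}, measurableSet_setOfPred.2 (P.2.1.comp hex)⟩ :
      {t : Set (B → Y) | MeasurableSet t})) ?_) (card_measurableSet_pi hB)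
  intro P P' h
  have h1 : ∀ z, P.1 (ex z) ↔ P'.1 (ex z) := fun z => Set.ext_iff.1 (congrArg Subtype.val h) z
  refine Subtype.ext (funext fun x => propext ?_)
  have h2 : ∀ n ∈ B, x n = ex (fun n : B => x n.1) n := fun n hn => by simp [ex, hn]
  exact (P.2.2 x _ h2).trans ((h1 fun n : B => x n.1).trans (P'.2.2 x _ h2).symm)

theorem exists_mdp {P : (ι → Y) → Prop} (hP : Measurable P) :
    ∃ S : Set ι, S.Countable ∧ MDp S P := by
  obtain ⟨S, t, hS, ht⟩ := (measurableSet_setOfPred.2 hP).eq_preimage_restrict_countable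
  refine ⟨S, hS, hP, fun x x' h => ?_⟩
  have e : ∀ x, P x ↔ S.domRestrict x ∈ t := fun x => Set.ext_iff.1 ht x
  rw [e, e]
  have : S.domRestrict x = S.domRestrict x' := funext fun n => h n.1 n.2
  rw [this]

theorem MDp.mono {B C : Set ι} {P : (ι → Y) → Prop} (h : MDp B P) (hBC : B ⊆ C) : MDp C P :=
  ⟨h.1, fun x x' e => h.2 x x' fun n hn => e n (hBC hn)⟩

theorem MDp.inter {B C : Set ι} {P : (ι → Y) → Prop} (h : MDp B P) (h' : MDp C P) :
    MDp (B ∩ C) P := by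
  classical
  refine ⟨h.1, fun x x' e => ?_⟩
  rw [h.2 x (fun n => if n ∈ B then x n else x' n) fun n hn => by simp [hn]]
  refine h'.2 _ _ fun n hn => ?_
  by_cases hB : n ∈ B
  · simp [hB, e n ⟨hB, hn⟩]
  · simp [hB]

/-- reflection: a limit point closed under countably many operations -/
theorem reflect [LinearOrder ι] [WellFoundedLT ι] [MeasurableSpace.CountablyGenerated Y]
    [Nonempty Y] {κ J : Type} [Countable κ] [Countable J]
    (hb : ∀ S : Set ι, #S ≤ 𝔠 → ∃ a, ∀ s ∈ S, s < a) (hi : ∀ a : ι, #(Iio a) ≤ 𝔠)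
    (Φ : J → (κ → (ι → Y) → Prop) → (κ → (ι → Y) → Prop) → Prop) (b0 : ι) :
    ∃ α, b0 < α ∧ (∀ b < α, ∃ c < α, b < c) ∧ ∀ j f, (∀ k, MDp (Iio α) (f k)) →
      (∃ h, (∀ k, Measurable (h k)) ∧ Φ j f h) → ∃ h, (∀ k, MDp (Iio α) (h k)) ∧ Φ j f h := by
  classical
  have hout : ∀ j f, ∃ S : Set ι, S.Countable ∧ ((∃ h, (∀ k, Measurable (h k)) ∧ Φ j f h) →
      ∃ h, (∀ k, MDp S (h k)) ∧ Φ j f h) := by
    intro j f
    by_cases hh : ∃ h, (∀ k, Measurable (h k)) ∧ Φ j f h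
    · obtain ⟨h, hm, hΦ⟩ := hh
      choose S hS using fun k => exists_mdp (hm k)
      exact ⟨⋃ k, S k, countable_iUnion fun k => (hS k).1,
        fun _ => ⟨h, fun k => (hS k).2.mono (subset_iUnion S k), hΦ⟩⟩
    · exact ⟨∅, countable_empty, fun h => absurd h hh⟩
  choose out hout using hout
  obtain ⟨α, h0, hcof, hcl⟩ := closure_point (I := κ → (ι → Y) → Prop)
    (fun a f => ∀ k, MDp (Iio a) (f k)) (fun f => ⋃ j, out j f) hb
    (fun b c f hbc hf k => (hf k).mono (Iio_subset_Iio hbc))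
    (fun a => by
      refine le_trans (mk_le_of_injective
        (f := fun f : {f : κ → (ι → Y) → Prop | ∀ k, MDp (Iio a) (f k)} =>
          fun k => (⟨f.1 k, f.2 k⟩ : {P : (ι → Y) → Prop | MDp (Iio a) P})) ?_) ?_
      · intro f g h
        exact Subtype.ext (funext fun k => congrArg Subtype.val (congrFun h k))
      · rw [← power_def]
        refine (power_le_power_right (card_mdp (hi a))).trans ?_
        refine (power_le_power_left continuum_ne_zero mk_le_aleph0).trans ?_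
        simp)
    (fun f => countable_iUnion fun j => (hout j f).1) b0
  refine ⟨α, h0, fun b hbα => ?_, fun j f hf hex => ?_⟩
  · obtain ⟨c, hc, hc'⟩ := hcof {b} (by simpa only [singleton_subset_iff, mem_Iio] using hbα) (countable_singleton b)
    exact ⟨c, hc, hc' b rfl⟩
  · choose S hS using fun k => exists_mdp (hf k).1
    obtain ⟨b, hbα, hb'⟩ := hcof ((⋃ k, S k) ∩ Iio α) inter_subset_right
      ((countable_iUnion fun k => (hS k).1).mono inter_subset_left)
    have h1 : ∀ k, MDp (Iio b) (f k) := fun k =>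
      ((hS k).2.inter (hf k)).mono fun n hn => hb' n ⟨mem_iUnion.2 ⟨k, hn.1⟩, hn.2⟩
    obtain ⟨h, hh, hΦ⟩ := (hout j f).2 hex
    exact ⟨h, fun k => (hh k).mono fun n hn => hcl b hbα f h1 (mem_iUnion.2 ⟨j, hn⟩), hΦ⟩

end Count

end Pool.Agent.MP_e30343_lc.SO

end

-- part MP_e30343_lc.SO.RealK
section

/-! Bookkeeping: the index order and the list of all measurable parameters. -/

open Filter Set Cardinal

namespace Pool.Agent.MP_e30343_lc.SO

/-- the order type of the successor of the continuum -/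
abbrev Kap : Type := (Order.succ 𝔠 : Cardinal).ord.ToType

/-- the nodes: `(a, false)` has kind `K`, `(a, true)` has kind `Y` -/
abbrev Nd : Type := Kap ×ₗ Bool

theorem kap_iio (a : Kap) : #(Iio a) ≤ 𝔠 :=
  Order.lt_succ_iff.1
    ((Cardinal.mk_Iio_lt a (by simp only [mk_toType, card_ord, Ordinal.type_toType])).trans_eq (Cardinal.mk_ord_toType _))

theorem mk_Iic_le {ι : Type} [LinearOrder ι] (hi : ∀ a : ι, #(Iio a) ≤ 𝔠) (a : ι) :
    #(Iic a) ≤ 𝔠 := by
  rw [← Iio_insert]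
  exact mk_insert_le.trans (add_le_of_le aleph0_le_continuum (hi a)
    (one_le_aleph0.trans aleph0_le_continuum))

theorem mk_biU_le {ι β : Type} {c : Cardinal} (hc : ℵ₀ ≤ c) {S : Set ι} (hS : #S ≤ c)
    {A : ι → Set β} (hA : ∀ s, #(A s) ≤ c) : #(⋃ s ∈ S, A s : Set β) ≤ c :=
  (mk_biUnion_le A S).trans (mul_le_of_le hc hS (ciSup_le' fun s => hA s))

theorem kap_bdd (S : Set Kap) (hS : #S ≤ 𝔠) : ∃ a, ∀ s ∈ S, s < a := by
  by_contra hcon
  push Not at hcon
  have h1 : (univ : Set Kap) ⊆ ⋃ s ∈ S, Iic s := fun b _ => by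
    obtain ⟨s, hs, hb⟩ := hcon b
    exact mem_biUnion hs hb
  have h2 : #(⋃ s ∈ S, Iic s : Set Kap) ≤ 𝔠 :=
    mk_biU_le aleph0_le_continuum hS (mk_Iic_le kap_iio)
  have h3 := (mk_le_mk_of_subset h1).trans h2
  rw [mk_univ, Cardinal.mk_ord_toType] at h3
  exact absurd h3 (Order.lt_succ _).not_ge

theorem nd_iio (a : Nd) : #(Iio a) ≤ 𝔠 := by
  have h : Iio a ⊆ (fun p : Kap × Bool => toLex p) '' (Iic (ofLex a).1 ×ˢ Set.univ) := fun n hn =>
    ⟨ofLex n, ⟨Prod.Lex.monotone_fst_ofLex (le_of_lt hn), trivial⟩, rfl⟩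
  refine (mk_le_mk_of_subset h).trans (mk_image_le.trans ?_)
  rw [mk_setProd]
  exact mul_le_of_le aleph0_le_continuum (mk_Iic_le kap_iio _)
    (mk_le_aleph0.trans aleph0_le_continuum)

theorem nd_lt {n : Nd} {a : Kap} (h : (ofLex n).1 < a) (c : Bool) : n < toLex (a, c) :=
  Prod.Lex.toLex_lt_toLex.2 (Or.inl h)

theorem nd_bdd (S : Set Nd) (hS : #S ≤ 𝔠) : ∃ a, ∀ s ∈ S, s < a := by
  obtain ⟨a, ha⟩ := kap_bdd ((fun n : Nd => (ofLex n).1) '' S) (mk_image_le.trans hS)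
  exact ⟨toLex (a, false), fun s hs => nd_lt (ha _ ⟨s, hs, rfl⟩) _⟩

theorem nd_cof (c : Bool) (a : Nd) : ∃ n : Nd, (ofLex n).2 = c ∧ a < n := by
  obtain ⟨b, hb⟩ := kap_bdd {(ofLex a).1} (by simpa only [mk_fintype, Fintype.card_unique, Nat.cast_one] using one_le_aleph0.trans aleph0_le_continuum)
  exact ⟨toLex (b, c), rfl, nd_lt (hb _ rfl) _⟩

/-- a limit node has kind `K` -/
theorem nd_limit {α : Nd} (h : ∀ b < α, ∃ c < α, b < c) : (ofLex α).2 = false := by
  by_contra hn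
  have e : α = toLex ((ofLex α).1, true) := by
    rw [← (Bool.not_eq_false _).mp hn]; rfl
  obtain ⟨c, h1, h2⟩ := h (toLex ((ofLex α).1, false))
    (by rw [e]; exact Prod.Lex.toLex_lt_toLex.2 (Or.inr ⟨rfl, Bool.false_lt_true⟩))
  rw [e] at h1
  obtain ⟨c1, c2⟩ := c
  rcases Prod.Lex.toLex_lt_toLex.1 h1 with h1 | ⟨h1, h3⟩ <;>
    rcases Prod.Lex.toLex_lt_toLex.1 h2 with h2 | ⟨h2, h4⟩
  · exact lt_asymm h1 h2
  · exact h1.ne h2.symm
  · exact h2.ne h1.symm
  · revert h3 h4; cases c2 <;> simp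

section Book
variable {ι : Type} [LinearOrder ι]

theorem exists_book (hb : ∀ S : Set ι, #S ≤ 𝔠 → ∃ a, ∀ s ∈ S, s < a)
    (hi : ∀ a : ι, #(Iio a) ≤ 𝔠) (Y : Set ι) (hY : ∀ a, ∃ n ∈ Y, a < n) {I : Type} (f0 : I)
    (old : ι → I → Prop) (hcard : ∀ a, #{f | old a f} ≤ 𝔠) :
    ∃ e : ι → I, ∀ a f, old a f → ∃ n ∈ Y, a < n ∧ e n = f := by
  classical
  have big : ∀ S : Set ι, (∀ a, ∃ n ∈ S, a < n) → 𝔠 < #S := fun S hS => by
    by_contra h
    obtain ⟨a, ha⟩ := hb S (not_lt.1 h)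
    obtain ⟨n, hn, h'⟩ := hS a
    exact lt_asymm h' (ha n hn)
  have hYc := big Y hY
  have hinf : ℵ₀ ≤ #Y := aleph0_le_continuum.trans hYc.le
  have hιY : #ι ≤ #Y := by
    have h1 : (univ : Set ι) ⊆ ⋃ n ∈ Y, Iio n := fun a _ => by
      obtain ⟨n, hn, h⟩ := hY a
      exact mem_biUnion hn h
    rw [← mk_univ]
    exact (mk_le_mk_of_subset h1).trans
      (mk_biU_le hinf le_rfl fun n => (hi n).trans hYc.le)
  have hT : #((Σ a : ι, {f | old a f}) × ι) ≤ #Y := by
    rw [mk_prod, lift_id, lift_id]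
    refine mul_le_of_le hinf ?_ hιY
    rw [mk_sigma]
    refine (sum_le_sum _ (fun _ => 𝔠) hcard).trans ?_
    rw [sum_const']
    exact mul_le_of_le hinf hιY hYc.le
  obtain ⟨g⟩ := (Cardinal.le_def _ _).1 hT
  refine ⟨fun n => if h : ∃ p, (g p : ι) = n then h.choose.1.2.1 else f0, fun a f hf => ?_⟩
  have hex : ∃ c, a < (g (⟨a, f, hf⟩, c) : ι) := by
    by_contra hn
    push Not at hn
    have h1 : #ι ≤ #(Iic a) := mk_le_of_injective
      (f := fun c => ⟨g (⟨a, f, hf⟩, c), hn c⟩) fun c c' h =>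
        (Prod.mk.inj (g.injective (Subtype.ext (congrArg (fun z : Iic a => z.1) h)))).2
    have h2 : #Y ≤ #ι := mk_set_le _
    exact absurd (h2.trans (h1.trans (mk_Iic_le hi a))) hYc.not_ge
  obtain ⟨c, hc⟩ := hex
  refine ⟨_, (g (⟨a, f, hf⟩, c)).2, hc, ?_⟩
  have h : ∃ p, (g p : ι) = g (⟨a, f, hf⟩, c) := ⟨_, rfl⟩
  beta_reduce
  rw [dif_pos h, g.injective (Subtype.ext h.choose_spec)]

theorem exists_closed [WellFoundedLT ι] (base : ι → Set ι) (h1 : ∀ n, base n ⊆ Iio n)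
    (h2 : ∀ n, (base n).Countable) : ∃ supp : ι → Set ι, (∀ n, base n ⊆ supp n) ∧
      (∀ n, supp n ⊆ Iio n) ∧ (∀ n, (supp n).Countable) ∧ ∀ n, ∀ b ∈ supp n, supp b ⊆ supp n := by
  refine ⟨fun n => {b | Relation.TransGen (fun b m => b ∈ base m) b n},
    fun n b hb => .single hb, fun n b hb => ?_, fun n => ?_, fun n b hb c hc => .trans hc hb⟩
  · induction hb with
    | single h => exact h1 _ h
    | tail _ h ih => exact lt_trans ih (h1 _ h)
  · induction n using WellFoundedLT.induction with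
    | ind n ih =>
      refine ((h2 n).union ((h2 n).biUnion fun m hm => ih m (h1 n hm))).mono fun b hb => ?_
      cases hb with
      | single h => exact Or.inl h
      | tail h h' => exact Or.inr (mem_biUnion h' h)

/-- every measurable parameter occurs at a node of `Y` -/
theorem exists_par [WellFoundedLT ι] {A κ : Type} [MeasurableSpace A]
    [MeasurableSpace.CountablyGenerated A] [Nonempty A] [Countable κ]
    (hb : ∀ S : Set ι, #S ≤ 𝔠 → ∃ a, ∀ s ∈ S, s < a) (hi : ∀ a : ι, #(Iio a) ≤ 𝔠)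
    (Y : Set ι) (hY : ∀ a, ∃ n ∈ Y, a < n) :
    ∃ (supp : ι → Set ι) (par : ι → κ → (ι → A) → Prop), (∀ n, supp n ⊆ Iio n) ∧
      (∀ n, (supp n).Countable) ∧ (∀ n, ∀ b ∈ supp n, supp b ⊆ supp n) ∧
      (∀ n k, MDp (supp n) (par n k)) ∧
      ∀ P : κ → (ι → A) → Prop, (∀ k, Measurable (P k)) → ∃ n ∈ Y, par n = P := by
  classical
  obtain ⟨e, he⟩ := exists_book hb hi Y hY (I := κ → (ι → A) → Prop) (fun _ _ => False)
    (fun a f => ∀ k, MDp (Iio a) (f k)) fun a => by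
      refine le_trans (mk_le_of_injective
        (f := fun f : {f : κ → (ι → A) → Prop | ∀ k, MDp (Iio a) (f k)} =>
          fun k => (⟨f.1 k, f.2 k⟩ : {P : (ι → A) → Prop | MDp (Iio a) P})) ?_) ?_
      · intro f g h
        exact Subtype.ext (funext fun k => congrArg Subtype.val (congrFun h k))
      · rw [← power_def]
        refine (power_le_power_right (card_mdp (hi a))).trans ?_
        refine (power_le_power_left continuum_ne_zero mk_le_aleph0).trans ?_
        simp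
  let ok : ι → Prop := fun n => ∃ S : Set ι, S ⊆ Iio n ∧ S.Countable ∧ ∀ k, MDp S (e n k)
  obtain ⟨supp, s0, s1, s2, s3⟩ := exists_closed (fun n => if h : ok n then h.choose else ∅)
    (fun n => by
      by_cases h : ok n
      · rw [dif_pos h]; exact h.choose_spec.1
      · rw [dif_neg h]; exact empty_subset _)
    (fun n => by
      by_cases h : ok n
      · rw [dif_pos h]; exact h.choose_spec.2.1
      · rw [dif_neg h]; exact countable_empty)
  refine ⟨supp, fun n => if ok n then e n else fun _ _ => False, s1, s2, s3, fun n k => ?_,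
    fun P hP => ?_⟩
  · beta_reduce
    by_cases h : ok n
    · have := s0 n
      rw [dif_pos h] at this
      rw [if_pos h]
      exact (h.choose_spec.2.2 k).mono this
    · rw [if_neg h]
      exact ⟨measurable_const, fun _ _ _ => Iff.rfl⟩
  · choose S hS using fun k => exists_mdp (hP k)
    have hc : (⋃ k, S k).Countable := countable_iUnion fun k => (hS k).1
    obtain ⟨a, ha⟩ := hb _ (hc.le_aleph0.trans aleph0_le_continuum)
    obtain ⟨n, hn, han, hen⟩ := he a P fun k =>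
      (hS k).2.mono fun m hm => ha m (mem_iUnion.2 ⟨k, hm⟩)
    refine ⟨n, hn, ?_⟩
    have h : ok n := ⟨⋃ k, S k, fun m hm => (ha m hm).trans han, hc,
      fun k => hen ▸ (hS k).2.mono (subset_iUnion S k)⟩
    simp only [if_pos h, hen]

end Book

end Pool.Agent.MP_e30343_lc.SO

end

-- part MP_e30343_lc.SO.Real
section

/-! The real template (section 3). -/

open Filter Set

namespace Pool.Agent.MP_e30343_lc.SO

/-- pairing of a finite set with a vector -/
noncomputable def ip (u : Finset ℕ) (t : V) : ZMod 2 := ∑ z ∈ u, t z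

/-- the real demand on an object -/
def RD {ι : Type} (isK : ι → Prop) (en : ℕ → Option ι) (par : V → Prop) (x : ι → ℕ → L) (i : ℕ)
    (o : Obj) : Prop :=
  par o.1 ∧ o.2.card ≤ 2 ^ i ∧ ip o.2 o.1 = 1 ∧
    ∀ l < i, ∀ b, en l = some b → ¬ isK b → ∀ j, (x b j).e ∉ W i → ip o.2 (x b j).t = 0

/-- the level is real -/
def RealL {ι : Type} (isK : ι → Prop) (en : ℕ → Option ι) (par : V → Prop) (x : ι → ℕ → L)
    (i : ℕ) : Prop := ∀ k, ∃ o, RD isK en par x i o ∧ far k o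

/-- templates whose domains come from parameters, every parameter occurring -/
structure RT (T : Tpl) (en : T.ι → ℕ → Option T.ι) (par : T.ι → T.X → V → Prop) : Prop where
  en_supp : ∀ n b, b ∈ T.supp n ↔ ∃ l, en n l = some b
  par_md : ∀ n v, MD (T.supp n) fun x => par n x v
  dm_iff : ∀ n x i o, T.dm n x i o ↔
    (RealL T.isK (en n) (par n x) x i ∧ RD T.isK (en n) (par n x) x i o) ∨
    (¬ RealL T.isK (en n) (par n x) x i ∧ o = o0)
  all : ∀ P : T.X → V → Prop, (∀ v, Measurable fun x => P x v) → ∃ n, ¬ T.isK n ∧ par n = P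

/-- reflection: some node of kind K is closed under countably many operations -/
def Tpl.Refl (T : Tpl) : Prop :=
  ∀ (J : Type) [Countable J] (κ : J → Type) [∀ j, Countable (κ j)]
    (Φ : ∀ j, (κ j → T.X → Prop) → Set T.ι), (∀ j P, (Φ j P).Countable) →
    ∃ α, T.isK α ∧ ∀ j P, (∀ k, MD (Iio α) (P k)) → Φ j P ⊆ Iio α

theorem md_RD {ι : Type} {B : Set ι} (isK : ι → Prop) {en : ℕ → Option ι}
    (he : ∀ l b, en l = some b → b ∈ B) {par : (ι → ℕ → L) → V → Prop}
    (hp : ∀ v, MD B fun x => par x v) (i : ℕ) (o : Obj) :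
    MD B fun x => RD isK en (par x) x i o := by
  refine (hp _).and ((MD.const _).and ((MD.const _).and
    (MD.all fun l => (MD.const (l < i)).imp ?_)))
  cases e : en l with
  | none => simpa using MD.const (B := B) True
  | some b =>
    simp only [Option.some.injEq, forall_eq']
    exact (MD.const _).imp (MD.all fun j =>
      MD.letter (he l b e) j fun a => a.e ∉ W i → ip o.2 a.t = 0)

theorem exists_en {ι : Type} {s : Set ι} (hs : s.Countable) :
    ∃ en : ℕ → Option ι, ∀ b, b ∈ s ↔ ∃ l, en l = some b := by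
  rcases s.eq_empty_or_nonempty with rfl | hne
  · exact ⟨fun _ => none, by simp⟩
  obtain ⟨f, rfl⟩ := hs.exists_eq_range hne
  exact ⟨fun l => some (f l), by simp⟩

open Cardinal in
theorem refl_nd (J : Type) [Countable J] (κ : J → Type) [∀ j, Countable (κ j)]
    (Φ : ∀ j, (κ j → (Nd → ℕ → L) → Prop) → Set Nd) (hΦ : ∀ j P, (Φ j P).Countable) :
    ∃ α : Nd, (ofLex α).2 = false ∧ ∀ j P, (∀ k, MD (Iio α) (P k)) → Φ j P ⊆ Iio α := by
  obtain ⟨α, -, hcof, hcl⟩ := closure_point (I := Σ j, κ j → (Nd → ℕ → L) → Prop)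
    (fun a f => ∀ k, MDp (Iio a) (f.2 k)) (fun f => Φ f.1 f.2) nd_bdd
    (fun b c f hbc hf k => (hf k).mono (Iio_subset_Iio hbc))
    (fun a => by
      refine le_trans (mk_le_of_injective (β := Σ j, κ j → {P | MDp (Y := ℕ → L) (Iio a) P})
        (f := fun f => ⟨f.1.1, fun k => ⟨f.1.2 k, f.2 k⟩⟩) ?_) ?_
      · rintro ⟨⟨j, f⟩, hf⟩ ⟨⟨j', g⟩, hg⟩ h
        obtain ⟨rfl, h⟩ := Sigma.mk.inj h
        have := eq_of_heq h
        obtain rfl : f = g := funext fun k => congrArg Subtype.val (congrFun this k)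
        rfl
      · rw [mk_sigma]
        refine (sum_le_sum _ (fun _ => 𝔠) fun j => ?_).trans ?_
        · rw [← power_def]
          refine (power_le_power_right (card_mdp (nd_iio a))).trans ?_
          refine (power_le_power_left continuum_ne_zero mk_le_aleph0).trans ?_
          simp
        · rw [sum_const']
          exact mul_le_of_le aleph0_le_continuum (mk_le_aleph0.trans aleph0_le_continuum) le_rfl)
    (fun f => hΦ f.1 f.2) (nd_bdd ∅ (by simp)).choose
  refine ⟨α, nd_limit fun b hb => ?_, fun j P hP => ?_⟩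
  · obtain ⟨c, hc, hc'⟩ := hcof {b} (by simpa only [singleton_subset_iff, mem_Iio] using hb) (countable_singleton b)
    exact ⟨c, hc, hc' b rfl⟩
  · choose S hS using fun k => (hP k).count
    obtain ⟨b, hb, hb'⟩ := hcof (⋃ k, S k) (iUnion_subset fun k => (hS k).1)
      (countable_iUnion fun k => (hS k).2.1)
    exact hcl b hb ⟨j, P⟩ fun k =>
      (hS k).2.2.mono fun n hn => hb' n (mem_iUnion.2 ⟨k, hn⟩)

theorem exists_real : ∃ (T : Tpl) (en : T.ι → ℕ → Option T.ι) (par : T.ι → T.X → V → Prop),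
    RT T en par ∧ T.Refl := by
  obtain ⟨supp, par, s1, s2, s3, s4, s5⟩ := exists_par (ι := Nd) (A := ℕ → L) (κ := V)
    nd_bdd nd_iio {n | (ofLex n).2 = true} (nd_cof true)
  choose en hen using fun n => exists_en (s2 n)
  let isK : Nd → Prop := fun n => (ofLex n).2 = false
  have hrd : ∀ n i o, MD (supp n) fun x => RD isK (en n) (fun v => par n v x) x i o :=
    fun n => md_RD isK (fun l b e => (hen n b).2 ⟨l, e⟩) (s4 n)
  have hre : ∀ n i, MD (supp n) fun x => RealL isK (en n) (fun v => par n v x) x i :=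
    fun n i => MD.all fun k => MD.ex fun o => (hrd n i o).and (MD.const _)
  refine ⟨⟨Nd, inferInstance, inferInstance, ⟨(nd_bdd ∅ (by simp)).choose⟩, isK, supp, s2,
    fun n m hm => s1 n hm, s3, fun n x i o =>
      (RealL isK (en n) (fun v => par n v x) x i ∧ RD isK (en n) (fun v => par n v x) x i o) ∨
      (¬ RealL isK (en n) (fun v => par n v x) x i ∧ o = o0),
    fun n i o => ((hre n i).and (hrd n i o)).or ((hre n i).not.and (MD.const _)), ?_, ?_⟩,
    en, fun n x v => par n v x, ⟨hen, s4, fun _ _ _ _ => Iff.rfl, fun P hP => ?_⟩, refl_nd⟩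
  · rintro n x i o (h | h)
    · exact h.2.2.1
    · rw [h.2]; simp [o0]
  · intro n x i k
    by_cases h : RealL isK (en n) (fun v => par n v x) x i
    · obtain ⟨o, h1, h2⟩ := h k
      exact ⟨o, Or.inl ⟨h, h1⟩, h2⟩
    · exact ⟨o0, Or.inr ⟨h, rfl⟩, far_o0 k⟩
  · obtain ⟨n, hn, e⟩ := s5 (fun v x => P x v) hP
    refine ⟨n, fun h => ?_, by rw [e]⟩
    exact Bool.noConfusion ((show (ofLex n).2 = true from hn).symm.trans h)

open Classical in
/-- the characters given by the nodes of kind Y -/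
noncomputable def Tpl.chr (T : Tpl) (i : T.ι × ℕ) (x : T.X) (v : V) : ZMod 2 :=
  if T.isK i.1 then 0 else eta (x i.1) v i.2

open Classical in
/-- the letters of a node as triples, zero at nodes of kind K -/
noncomputable def Tpl.yy (T : Tpl) (b : T.ι) (x : T.X) (i : ℕ) : R3.Lt :=
  if T.isK b then (0, ∅, 0) else L.eqv (x b i)

theorem Tpl.yy_K {T : Tpl} {b : T.ι} (h : T.isK b) (x : T.X) :
    T.yy b x = fun _ => (0, ∅, 0) := funext fun _ => if_pos h

theorem Tpl.yy_Y {T : Tpl} {b : T.ι} (h : ¬ T.isK b) (x : T.X) :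
    T.yy b x = fun i => L.eqv (x b i) := funext fun _ => if_neg h

theorem Tpl.chr_eq (T : Tpl) (i : T.ι × ℕ) (x : T.X) (v : V) :
    T.chr i x v = R3.eta (T.yy i.1 x) v i.2 := by
  unfold Tpl.chr
  split_ifs with h
  · rw [Tpl.yy_K h, R3.eta_eq_zero fun i => by simp [R3.pr]]; rfl
  · rw [Tpl.yy_Y h]; rfl

/-- the first `i` nodes of an enumeration -/
noncomputable def enF {ι : Type} [LinearOrder ι] (en : ℕ → Option ι) (i : ℕ) : Finset ι :=
  (Finset.range i).biUnion fun l => (en l).toFinset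

theorem mem_enF {ι : Type} [LinearOrder ι] {en : ℕ → Option ι} {i : ℕ} {b : ι} :
    b ∈ enF en i ↔ ∃ l < i, en l = some b := by
  simp [enF]

theorem rd_eq {T : Tpl} (en : ℕ → Option T.ι) (par : V → Prop) (x : T.X) (i : ℕ) :
    RD T.isK en par x i = R3.RDp (fun b => T.yy b x) {v | par v} (enF en i) i := by
  funext o
  refine propext (and_congr Iff.rfl (and_congr Iff.rfl (and_congr Iff.rfl ⟨?_, ?_⟩)))
  · intro h b hb j
    obtain ⟨l, hl, e⟩ := mem_enF.1 hb
    beta_reduce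
    by_cases hK : T.isK b
    · rw [Tpl.yy_K hK]
      exact fun h0 => absurd (zero_mem _) h0
    · rw [Tpl.yy_Y hK]
      exact h l hl b e hK j
  · intro h l hl b e hK j
    have := h b (mem_enF.2 ⟨l, hl, e⟩) j
    beta_reduce at this
    rwa [Tpl.yy_Y hK] at this

theorem RT.ra {T : Tpl} {en : T.ι → ℕ → Option T.ι} {par : T.ι → T.X → V → Prop}
    (h : RT T en par) : R3.RA T.μ T.yy (fun n => ¬ T.isK n) T.supp (fun n v x => par n x v)
      fun n => enF (en n) where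
  ym b i φ := by
    by_cases hK : T.isK b
    · simp only [Tpl.yy_K hK]; exact measurable_const
    · simp only [Tpl.yy_Y hK]
      exact (MD.letter (B := univ) (mem_univ b) i fun a => φ (L.eqv a)).1
  yK b x hb := Tpl.yy_K (not_not.1 hb) x
  cl := T.supp_cl
  cnt := T.supp_c
  Fc n i := by
    refine Finset.card_biUnion_le.trans ?_
    refine (Finset.sum_le_card_nsmul _ _ 1 fun l _ => ?_).trans (by simp)
    cases en n l <;> simp
  Fs n i b hb := by
    obtain ⟨l, -, e⟩ := mem_enF.1 hb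
    exact (h.en_supp n b).2 ⟨l, e⟩
  Fe n b hb := by
    obtain ⟨l, e⟩ := (h.en_supp n b).1 hb
    exact (eventually_gt_atTop l).mono fun i hi => mem_enF.2 ⟨l, hi, e⟩
  book P hP := by
    obtain ⟨n, hn, e⟩ := h.all (fun x v => P v x) hP
    exact ⟨n, hn, by rw [e]⟩
  dom n hn := (Tpl.generic_dm hn).mono fun x hx => hx.mono fun i hi => by
    rw [h.dm_iff, RealL, rd_eq] at hi
    rw [Tpl.yy_Y hn]
    exact hi
  good n hn a ha hs D := by
    have hv : T.VS univ n fun x _ => {e | T.GoodP {a} D x e.ob} :=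
      ⟨fun _ e => Tpl.md_goodP (by simpa only [Finset.coe_singleton, univ_inter, singleton_subset_iff, mem_Iio] using ha) D e.ob, {a}, countable_singleton a,
        by simpa only [univ_inter, singleton_subset_iff, Set.mem_sdiff, mem_Iio] using ⟨ha, hs⟩,
        fun x τ => (Tpl.mem_FF_Y hn).2 ⟨{a}, D, by simp, fun e he => he.2.2⟩⟩
    refine (Tpl.generic hv).mono fun x hx => hx.mono fun i hi => ?_
    by_cases hK : T.isK a
    · rw [Tpl.yy_K hK]; exact R3.good_zero_seq _ _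
    · rw [Tpl.yy_Y hK, Tpl.yy_Y hn]
      exact (hi a (Finset.mem_singleton_self a)).resolve_left hK
  far n hn k bd h1 h2 h3 := by
    have hv : T.VS univ n fun x τ =>
        {e | far (k x (bd (fun j => L.eqv (ofL τ j)) τ.length)) e.ob} := by
      refine ⟨fun τ e => ⟨(measurable_from_top (f := fun c : ℕ => far c e.ob)).comp (h1 _),
        fun x y hxy => ?_⟩, ∅, countable_empty, empty_subset _,
        fun x τ => (Tpl.mem_FF_Y hn).2 ⟨∅, _, by simp, fun e he => he.2.1⟩⟩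
      beta_reduce
      rw [h2 x y fun b hb => ?_]
      unfold Tpl.yy
      rw [hxy b ⟨trivial, hb⟩]
    refine (Tpl.generic hv).mono fun x hx => hx.mono fun i hi => ?_
    rw [mem_ofPred_eq, length_pre, h3 _ (fun j => L.eqv (x n j)) i fun j hj => by
      simp [ofL, pre, hj]] at hi
    rw [Tpl.yy_Y hn]
    exact hi
  eps n hn := by
    refine (Tpl.generic' (n := n) (fun _ _ e => e.e ∉ W 1) (fun _ _ => MD.const _) ?_).mono
      fun x hx => by rw [Tpl.yy_Y hn]; exact hx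
    rintro S ⟨-, P, p1, p2, p3⟩ τ
    refine (Tpl.FF_neBot (n := n) p1 fun b hb => ⟨(p2 hb).1.2, (p2 hb).2⟩).mono fun x hx => ?_
    obtain ⟨π, k, e1, e2⟩ := (Tpl.mem_FF_Y hn).1 (p3 x τ)
    obtain ⟨e, he⟩ := (hx τ.length).nonempty_of_mem
      ((Tpl.mem_FF_Y (S := {e | T.Bas n x τ.length π k e}) hn).2 ⟨π, k, e1, fun _ h => h⟩)
    refine ⟨⟨e.t, e.u, Finsupp.single 0 1⟩, e2 _ he, fun h0 => ?_⟩
    simpa only [Finsupp.single_eq_same, one_ne_zero] using h0 0 one_pos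

theorem RT.chr {T : Tpl} {en : T.ι → ℕ → Option T.ι} {par : T.ι → T.X → V → Prop}
    (h : RT T en par) : Chr T.μ (T.ι × ℕ) T.chr where
  meas i v c := by
    unfold Tpl.chr
    split_ifs
    · exact measurable_const
    · exact (MD.etaW (B := univ) (mem_univ i.1) v fun w => w i.2 = c).1
  add i x v v' := by simp only [Tpl.chr_eq, map_add, Finsupp.add_apply]
  star XX hX := by
    obtain ⟨E, q, h1, h2, h3, h4⟩ := h.ra.star (fun v x => XX x v) hX
    refine ⟨q, E ×ˢ univ, h2, h1.prod countable_univ, h3.mono fun x hx h0 => hx fun k => ?_,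
      fun i hi => (h4 i.1 fun e => hi ⟨e, trivial⟩).mono fun x hx h0 => ?_⟩
    · obtain ⟨v, a, b⟩ := h0 k
      exact ⟨v, b, a⟩
    · refine (hx (fun k => ?_) (i.2 + 1)).mono fun m hm => ?_
      · obtain ⟨v, a, b⟩ := h0 k
        exact ⟨v, b, a⟩
      · rw [Tpl.chr_eq]; exact hm _ (Nat.lt_succ_self _)
  tall Zs hZ := by
    obtain ⟨E, h1, h2⟩ := h.ra.tall (fun z x => Zs x z) hZ
    refine ⟨E ×ˢ univ, h1.prod countable_univ, h2.mono fun x hx h0 => ?_⟩
    obtain ⟨b, hb, j, hj⟩ := hx h0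
    exact ⟨(b, j), ⟨hb, trivial⟩, hj.mono fun z hz => ⟨hz.1, by rw [Tpl.chr_eq]; exact hz.2⟩⟩
  prop F := by
    refine (Tpl.zed (C := ∅) (fun _ hn => hn.elim) (F.image Prod.fst) (fun _ _ => id) 0
      (F.sup fun i => i.2 + 1) (fun _ o => ∃ z, o = (Finsupp.single z 1, ∅))
      (fun _ => MD.const _) ?_).mono fun x hx => frequently_atTop.2 fun k => ?_
    · rintro - _ ⟨z, rfl⟩; simp
    obtain ⟨_, ⟨z, rfl⟩, h1, h2⟩ :=
      hx (fun k => ⟨_, ⟨k, rfl⟩, R3.single_mem_W.2 le_rfl, by simp⟩) k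
    refine ⟨z, R3.single_mem_W.1 h1.1, fun i hi => ?_⟩
    unfold Tpl.chr
    split_ifs with hK
    · rfl
    · exact ((h2 i.1 (Finset.mem_image_of_mem _ hi)).resolve_left hK).1 _
        (Finset.le_sup (f := fun i : T.ι × ℕ => i.2 + 1) hi)

end Pool.Agent.MP_e30343_lc.SO

end
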