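import Pool.Agent.MP_e30343_lc.SO.No3H
import Pool.Agent.MP_e30343_lc.Mg.SO_Tpl
import Pool.Agent.MP_e30343_lc.Mg.SO_Real
import Pool.Agent.MP_e30343_lc.Mg.SO_Fc

-- part MP_e30343_lc.SO.No3S
section

/-! Selection of convergent sequences when T1 fails; evaluation of words. -/

open Filter Set

namespace Pool.Agent.MP_e30343_lc.SO.N3

universe u

variable {X : Type} [MeasurableSpace X] {ν : Filter X} [CountableInterFilter ν] {B : BG.{u} ν}

theorem nt1_all [CCC ν] (h : NT1 B) (q : X → ℕ → ℕ → B.G) (hq : ∀ i, Ms fun x n => q x i n)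
    (hn : ∀ i, Nl B (fun _ => True) fun x n => q x i n) :
    ∃ (i n : X → ℕ → ℕ) (g : B.G), Ms i ∧ Ms n ∧ (∀ᶠ x in ν, Tendsto (i x) atTop atTop) ∧
      Nl B (fun _ => True) fun x l => g⁻¹ * q x (i x l) (n x l) := by
  choose cols hcols using fun i n => mix' (hq i n)
  have hc : ∀ i, Nl B (fun _ => True) fun _ n => cols i n := fun i =>
    nl_congr (hn i) (hq i) (fun _ => Mx.const _)
      ((eventually_countable_forall.2 (hcols i)).mono fun x h _ => .of_forall h)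
  obtain ⟨R, f, hR, hf, hae⟩ := exh (ν := ν) (fun R => ∃ (i n : X → ℕ → ℕ) (g : B.G), Ms i ∧ Ms n ∧
      (∀ᶠ x in ν, R x → Tendsto (i x) atTop atTop) ∧
      Nl B R fun x l => g⁻¹ * cols (i x l) (n x l))
    ⟨fun _ _ => 0, fun _ _ => 0, 1, fun _ => Mx.const _, fun _ => Mx.const _,
      .of_forall fun _ h => h.elim, fun _ => .of_forall fun _ h => h.elim⟩
    fun R hR hp => by
      obtain ⟨R', i, n, g, h1, h2, h3⟩ := h cols hc R hR hp
      exact ⟨R', h1, h2, i, n, g, h3⟩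
  choose i n g hi hn' ht hcv using hR
  obtain ⟨g0, hg0⟩ := mix' (B := B) (hf.map g)
  have hI : Ms fun x l => i (f x) x l := fun l => hf.comp (p := fun m x => i m x l) fun m => hi m l
  have hN : Ms fun x l => n (f x) x l := fun l => hf.comp (p := fun m x => n m x l) fun m => hn' m l
  have hQ : Ms fun x l => q x (i (f x) x l) (n (f x) x l) := fun l =>
    (hI l).comp (p := fun a x => q x a (n (f x) x l)) fun a => Ms.sub (hq a) (hN l)
  have hC : Ms fun x l => cols (i (f x) x l) (n (f x) x l) := fun l => (hI l).map2 (hN l) cols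
  refine ⟨fun x l => i (f x) x l, fun x l => n (f x) x l, g0, hI, hN, ?_, ?_⟩
  · filter_upwards [hae, eventually_countable_forall.2 ht] with x h1 h2 using h2 _ h1
  · have h1 : Nl B (fun _ => True) fun x l => (g (f x))⁻¹ * cols (i (f x) x l) (n (f x) x l) :=
      fun U => by
        filter_upwards [hae, eventually_countable_forall.2 fun m => hcv m U] with x h1 h2 _
          using h2 _ h1
    refine nl_congr h1 (fun l => (hf.map g).inv.mul (hC l)) (fun l => (Mx.const _).mul (hQ l)) ?_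
    filter_upwards [hg0, (hf.map g).ae fun a => eq_inv (B := B) a g0,
      eventually_countable_forall.2 fun a => eventually_countable_forall.2 (hcols a),
      hQ.ae2 hC (φ := fun a b x => B.nul (a⁻¹ * b) x → B.nul (b⁻¹ * a) x) eq_symm,
      Ms.ae3 (q := fun x _ => (g (f x))⁻¹) (fun _ => (hf.map g).inv) hC hQ
        (φ := fun a b c x => B.nul (a⁻¹ * g0⁻¹) x → B.nul (b⁻¹ * c) x →
          B.nul ((a * b)⁻¹ * (g0⁻¹ * c)) x) fun a b c => eq_mul a g0⁻¹ b c]
      with x h2 h3 h4 h5 h6 _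
    exact .of_forall fun l => h6 l (h3 h2) (h5 l (h4 _ _))

/-- SEL* -/
theorem selstar [CCC ν] (h : NT1 B) {Q : Type} [Countable Q] [Nonempty Q] (v : Q → B.G)
    (A : ℕ → X → Q → Prop) (hA : ∀ n w, Measurable fun x => A n x w)
    (hacc : ∀ U n, ∀ᶠ x in ν, ∃ w, (∀ j ≤ n, A j x w) ∧ B.mem (v w) U x) :
    ∃ (y : X → ℕ → Q) (g : B.G), Ms y ∧ (Nl B (fun _ => True) fun x l => g⁻¹ * v (y x l)) ∧
      ∀ n, ∀ᶠ x in ν, ∀ᶠ l in atTop, A n x (y x l) := by
  obtain ⟨e, he⟩ := exists_surjective_nat Q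
  choose a b c ha haD hc hb hn using fun n => B.o3a (fun m => v (e m))
    (fun x m => ∀ j ≤ n, A j x (e m)) (fun _ => True)
    (fun m => Measurable.forall fun j => measurable_const.imp (hA j _)) measurable_const
    fun U => by
      filter_upwards [hacc U n] with x ⟨w, h3, h4⟩ _
      obtain ⟨m, rfl⟩ := he w
      exact ⟨m, h3, h4⟩
  obtain ⟨i1, n1, g1, hi1, hn1, ht1, hc1⟩ := nt1_all h (fun _ i m => c i m)
    (fun _ _ => Mx.const _) hc
  have m1 : Ms fun x l => (i1 x l, n1 x l) := fun l => (hi1 l).map2 (hn1 l) Prod.mk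
  obtain ⟨i2, n2, g2, hi2, hn2, ht2, hc2⟩ := nt1_all h
    (fun x l j => (c (i1 x l) (n1 x l))⁻¹ * b (i1 x l) (n1 x l) j)
    (fun l j => (m1 l).map fun p => (c p.1 p.2)⁻¹ * b p.1 p.2 j)
    fun l => nl_param (κ := ℕ × ℕ) (q := fun p _ j => (c p.1 p.2)⁻¹ * b p.1 p.2 j)
      (fun p => hb p.1 p.2) fun x => (i1 x l, n1 x l)
  have m2 : Ms fun x l => ((i1 x (i2 x l), n1 x (i2 x l)), n2 x l) := fun l =>
    (Ms.sub m1 (hi2 l)).map2 (hn2 l) Prod.mk
  have ma : ∀ (p : (ℕ × ℕ) × ℕ) k, Mx fun x => e (a p.1.1 x p.1.2 p.2 k) := fun p k =>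
    (Mx.of_meas (ha _ _ _ _)).map e
  obtain ⟨i3, n3, g3, hi3, hn3, ht3, hc3⟩ := nt1_all h
    (fun x l k => (b (i1 x (i2 x l)) (n1 x (i2 x l)) (n2 x l))⁻¹ *
      v (e (a (i1 x (i2 x l)) x (n1 x (i2 x l)) (n2 x l) k)))
    (fun l k => (m2 l).comp (p := fun p x => (b p.1.1 p.1.2 p.2)⁻¹ * v (e (a p.1.1 x p.1.2 p.2 k)))
      fun p => (ma p k).map fun w => (b p.1.1 p.1.2 p.2)⁻¹ * v w)
    fun l => nl_param (κ := (ℕ × ℕ) × ℕ)
      (q := fun p x k => (b p.1.1 p.1.2 p.2)⁻¹ * v (e (a p.1.1 x p.1.2 p.2 k)))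
      (fun p => hn p.1.1 p.1.2 p.2) fun x => ((i1 x (i2 x l), n1 x (i2 x l)), n2 x l)
  have m3 : Ms fun x l => ((i1 x (i2 x (i3 x l)), n1 x (i2 x (i3 x l))), n2 x (i3 x l)) :=
    fun l => Ms.sub m2 (hi3 l)
  have my : Ms fun x l => e (a (i1 x (i2 x (i3 x l))) x (n1 x (i2 x (i3 x l))) (n2 x (i3 x l))
      (n3 x l)) := fun l => (m3 l).comp (p := fun p x => e (a p.1.1 x p.1.2 p.2 (n3 x l)))
    fun p => Ms.sub (q := fun x k => e (a p.1.1 x p.1.2 p.2 k)) (ma p) (hn3 l)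
  have ht23 : ∀ᶠ x in ν, Tendsto (fun l => i2 x (i3 x l)) atTop atTop := by
    filter_upwards [ht2, ht3] with x h2 h3 using h2.comp h3
  refine ⟨_, g1 * g2 * g3, my, ?_, fun n => ?_⟩
  · have u1 := nl_sub hc1 (ht23.mono fun _ h _ => h)
    have u2 := nl_sub hc2 (ht3.mono fun _ h _ => h)
    have w1 : Ms fun x l => g1⁻¹ * c (i1 x (i2 x (i3 x l))) (n1 x (i2 x (i3 x l))) := fun l =>
      (m3 l).map fun p => g1⁻¹ * c p.1.1 p.1.2
    have w2 : Ms fun x l => g2⁻¹ * ((c (i1 x (i2 x (i3 x l))) (n1 x (i2 x (i3 x l))))⁻¹ *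
        b (i1 x (i2 x (i3 x l))) (n1 x (i2 x (i3 x l))) (n2 x (i3 x l))) := fun l =>
      (m3 l).map fun p => g2⁻¹ * ((c p.1.1 p.1.2)⁻¹ * b p.1.1 p.1.2 p.2)
    have w3 := fun l => (m3 l).map2 (my l) fun p w => g3⁻¹ * ((b p.1.1 p.1.2 p.2)⁻¹ * v w)
    have c1 := fun l => ((Mx.const g2⁻¹).mul (w1 l)).mul (Mx.const g2⁻¹⁻¹)
    have u3 := nl_mul (nl_conj u1 w1 g2⁻¹) u2 c1 w2
    have c2 := fun l => (c1 l).mul (w2 l)
    have u4 := nl_mul (nl_conj u3 c2 g3⁻¹) hc3
      (fun l => ((Mx.const g3⁻¹).mul (c2 l)).mul (Mx.const g3⁻¹⁻¹)) w3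
    convert u4 using 3
    group
  · filter_upwards [ht1, ht23, eventually_countable_forall.2 haD] with x h1 h2 h3
    filter_upwards [(h1.comp h2).eventually (eventually_ge_atTop n)] with l hl
    exact h3 _ trivial _ _ _ n hl

/-- limits of sequences of leaves do not tend to `1` -/
theorem o3b_sep [CCC ν] {Q : Type} [Countable Q] (v : Q → B.G) (y : ℕ → X → ℕ → Q)
    (hy : ∀ p, Ms (y p)) (g : ℕ → B.G)
    (hg : ∀ p, Nl B (fun _ => True) fun x l => (g p)⁻¹ * v (y p x l))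
    (ha : ∀ p, ∀ᶠ x in ν, ∀ᶠ l in atTop, ∃ t, v (y p x l) = B.a0 t) :
    ∃ U : ℕ → B.O, ∀ᶠ x in ν, ∃ j, ∃ᶠ p in atTop, ∀ᶠ l in atTop, ¬ B.mem (v (y p x l)) (U j) x := by
  classical
  have h0 : ∀ w : Q, ∃ t, (∃ t, v w = B.a0 t) → v w = B.a0 t := fun w => by
    by_cases h : ∃ t, v w = B.a0 t
    · exact h.imp fun t ht _ => ht
    · exact ⟨0, fun h' => absurd h' h⟩
  choose t ht using h0
  obtain ⟨R, f, hR, -, hae⟩ := exh (ν := ν) (fun R => ∃ U : B.O, ∀ᶠ x in ν, R x →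
      ∃ᶠ p in atTop, ∀ᶠ l in atTop, ¬ B.mem (v (y p x l)) U x)
    ⟨B.U0, .of_forall fun _ h => h.elim⟩ fun R hR hp => by
      have h1 : ¬ Nl B R fun _ p => g p := fun h1 =>
        hp (B.no2 R (fun x p l => t (y p x l)) g hR (fun p l => ((hy p l).map t).measurable) h1
          fun p => nl_ev (nl_mono (hg p) (.of_forall fun _ _ => trivial)) (by
            filter_upwards [ha p] with x h _
            filter_upwards [h] with l hl
            rw [ht _ hl]))
      obtain ⟨U, hU⟩ := not_forall.1 h1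
      obtain ⟨V, hV⟩ := B.tri U
      refine ⟨fun x => ∃ᶠ p in atTop, ¬ B.mem (g p) U x,
        cls_meas.fr fun p => (B.mem_meas _ _).not, ?_, V, ?_⟩
      · rw [not_eventually] at hU
        exact hU.mono fun x hx => ⟨(Classical.not_imp.1 hx).1, not_eventually.1 (Classical.not_imp.1 hx).2⟩
      · filter_upwards [eventually_countable_forall.2 fun p => hg p V, B.mem_one V,
          eventually_countable_forall.2 fun p => eventually_countable_forall.2
            fun w => hV (v w) ((g p)⁻¹ * v w) 1] with x h2 h3 h4 h5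
        refine h5.mono fun p hp => ?_
        filter_upwards [h2 p trivial] with l hl h6
        refine hp ?_
        convert h4 p _ h6 hl h3 using 1
        group
  choose U hU using hR
  refine ⟨U, ?_⟩
  filter_upwards [hae, eventually_countable_forall.2 hU] with x h1 h2 using ⟨_, h2 _ h1⟩

omit [CountableInterFilter ν] in
theorem exists_ev (B : BG.{u} ν) : ∃ (ev : L →* B.G) (c1 : ℕ → ℕ) (c2 : ℕ → ℕ → ℕ),
    (∀ c, Nl B (fun _ => True) fun _ n => ev (gen c n)) ∧ (∀ n, ev (gen 0 n) = B.c0 n) ∧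
    (∀ i j, ev (gen (c1 i) j) = (B.c0 i)⁻¹ * B.b0 i j) ∧
    ∀ i j k, ev (gen (c2 i j) k) = (B.b0 i j)⁻¹ * B.a0 (i, j, k) := by
  refine ⟨evL fun c n => if c = 0 then B.c0 n else if c % 2 = 1 then (B.c0 (c / 2))⁻¹ * B.b0 (c / 2) n
    else (B.b0 (c / 2 - 1).unpair.1 (c / 2 - 1).unpair.2)⁻¹ *
      B.a0 ((c / 2 - 1).unpair.1, (c / 2 - 1).unpair.2, n), fun i => 2 * i + 1,
    fun i j => 2 * Nat.pair i j + 2, fun c => ?_, fun n => by simp only [evL_gen, ↓ reduceIte], fun i j => ?_,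
    fun i j k => ?_⟩
  · simp only [evL_gen]
    split_ifs
    · exact B.c0_nl
    · exact B.b0_nl _
    · exact B.a0_nl _ _
  · have : (2 * i + 1) / 2 = i := by omega
    simp only [evL_gen, Nat.add_eq_zero_iff, mul_eq_zero, OfNat.ofNat_ne_zero, false_or, one_ne_zero, and_false, ↓ reduceIte, Nat.mul_add_mod_self_left, Nat.mod_succ, this]
  · have h1 : (2 * Nat.pair i j + 2) / 2 - 1 = Nat.pair i j := by omega
    have h2 : ¬ (2 * Nat.pair i j + 2) % 2 = 1 := by omega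
    simp only [evL_gen, h1, h2, Nat.unpair_pair]
    simp

section ev
variable {ev : L →* B.G} (hc : ∀ c, Nl B (fun _ => True) fun _ n => ev (gen c n))
include hc

theorem nl_route (g : L) (c : ℕ) : Nl B (fun _ => True) fun _ n => ev (route gen g c n) := by
  simpa only [route, map_mul, map_inv] using nl_conj (hc c) (fun _ => Mx.const _) (ev g)

theorem tr_right (U : B.O) : ∀ᶠ x in ν, ∀ u, B.mem (ev u) U x → ∀ g c, ∀ᶠ n in atTop,
    B.mem (ev (u * route gen g c n)) U x := by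
  filter_upwards [eventually_countable_forall.2 fun u => eventually_countable_forall.2 fun g =>
    eventually_countable_forall.2 fun c =>
      nl_opn (nl_route hc g c) (fun _ => Mx.const _) (ev u) U] with x h u hu g c
  simpa only [map_mul, eventually_atTop] using h u g c trivial hu

theorem tr_left (U : B.O) : ∀ᶠ x in ν, ∀ u, B.mem (ev u) U x → ∀ g c, ∀ᶠ n in atTop,
    B.mem (ev ((route gen g c n)⁻¹ * u)) U x := by
  filter_upwards [eventually_countable_forall.2 fun u => eventually_countable_forall.2 fun g =>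
    eventually_countable_forall.2 fun c => nl_opn' (nl_inv (nl_route hc g c) fun _ => Mx.const _)
      (fun _ => Mx.const _) (ev u) U] with x h u hu g c
  simpa only [map_mul, map_inv, eventually_atTop] using h u g c trivial hu

theorem tr_pos (U : B.O) : ∀ᶠ x in ν, KPos gen {w | B.mem (ev w) U x} := by
  filter_upwards [tr_right hc U, B.mem_one U] with x h1 h2
  exact k5_open (by simpa using h2) h1

omit hc in
theorem ker_null (h0 : ∀ n, ev (gen 0 n) = B.c0 n) :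
    ∀ᶠ x in ν, ∀ᶠ q in KF gen, ¬ B.nul (ev q) x := by
  filter_upwards [B.nul_one, eventually_countable_forall.2 fun u => nul_inv (B := B) (ev u),
    eventually_countable_forall.2 fun u => eventually_countable_forall.2 fun w =>
      nul_mul (B := B) (ev u) (ev w),
    eventually_countable_forall.2 fun u => eventually_countable_forall.2 fun w =>
      B.nul_conj (ev u) (ev w), eventually_countable_forall.2 fun u => c0_ne' (B := B) (ev u)]
    with x h1 h2 h3 h4 h5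
  let K : Subgroup L :=
    { carrier := {q | B.nul (ev q) x}
      mul_mem' := fun {a b} ha hb => by simpa only [mem_ofPred_eq, map_mul] using h3 a b ha hb
      one_mem' := by simpa using h1
      inv_mem' := fun {a} ha => by simpa using h2 a ha }
  have : K.Normal := ⟨fun a ha g => by
    change B.nul (ev (g * a * g⁻¹)) x
    simpa only [map_mul, map_inv] using h4 a g ha⟩
  refine k3_normal K fun w => ?_
  filter_upwards [h5 w] with n hn
  change ¬ B.nul (ev (w⁻¹ * gen 0 n)) x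
  simpa only [map_mul, map_inv, h0] using hn

end ev

theorem tr_leaves (U : B.O) : ∀ᶠ x in ν, ∀ᶠ i in atTop, ∀ᶠ j in atTop, ∀ᶠ k in atTop,
    B.mem (B.a0 (i, j, k)) U x := by
  filter_upwards [B.c0_nl U, eventually_countable_forall.2 fun i =>
    nl_opn (B.b0_nl i) (fun _ => Mx.const _) (B.c0 i) U, eventually_countable_forall.2 fun i =>
    eventually_countable_forall.2 fun j => nl_opn (B.a0_nl i j) (fun _ => Mx.const _) (B.b0 i j) U]
    with x h1 h2 h3
  filter_upwards [h1 trivial] with i hi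
  filter_upwards [h2 i trivial hi] with j hj
  simpa only [eventually_atTop, mul_inv_cancel_left] using h3 i j trivial (by simpa using hj)

omit [CountableInterFilter ν] in
/-- a neighbourhood whose fourfold products stay inside `U` -/
theorem exists_four (U : B.O) : ∃ V, ∀ a b c d, ∀ᶠ x in ν, B.mem a V x → B.mem b V x →
    B.mem c V x → B.mem d V x → B.mem (a * b * c⁻¹ * d⁻¹) U x := by
  obtain ⟨U1, h1⟩ := B.tri U
  obtain ⟨V, h2⟩ := B.tri U1
  refine ⟨V, fun a b c d => ?_⟩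
  filter_upwards [h2 a 1 b, h2 d 1 c, h1 (a * 1⁻¹ * b) (d * 1⁻¹ * c) 1, B.mem_one V, B.mem_one U1]
    with x e1 e2 e3 e4 e5 ha hb hc hd
  convert e3 (e1 ha e4 hb) (e2 hd e4 hc) e5 using 1
  group

end Pool.Agent.MP_e30343_lc.SO.N3

end

-- part MP_e30343_lc.SO.No3C
section

/-! The combinatorial crux, reflection of operations, sealing. -/

open Filter Set
open scoped Pointwise

namespace Pool.Agent.MP_e30343_lc.SO.N3

universe u

theorem cf_step {G : Set (Finset L)} (hG : ClosedFam gen G) {u : L} (c : ℕ)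
    (h : ∃ S ∈ G, 1 ∈ S ∧ u ∈ S) : ∀ᶠ n in atTop, ∃ S ∈ G, 1 ∈ S ∧ u * gen c n ∈ S := by
  obtain ⟨S, hS, h1, hu⟩ := h
  filter_upwards [hG S hS 1 c] with n hn
  refine ⟨_, hn, ?_, ?_⟩
  · simpa using Finset.mul_mem_mul h1 (Finset.mem_insert_self 1 {route gen 1 c n})
  · simpa only [route, one_mul, inv_one, mul_one] using Finset.mul_mem_mul hu
      (Finset.mem_insert_of_mem (b := 1) (Finset.mem_singleton_self (route gen 1 c n)))

theorem cf_acc {G : Set (Finset L)} (hG : ClosedFam gen G) (c1 : ℕ → ℕ) (c2 : ℕ → ℕ → ℕ) :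
    ∀ᶠ i in atTop, ∀ᶠ j in atTop, ∀ᶠ k in atTop, {1} ∈ G →
      ∃ S ∈ G, 1 ∈ S ∧ gen 0 i * gen (c1 i) j * gen (c2 i j) k ∈ S := by
  by_cases h : {1} ∈ G
  · filter_upwards [cf_step hG (u := 1) 0 ⟨_, h, by simp, by simp⟩] with i hi
    filter_upwards [cf_step hG (c1 i) hi] with j hj
    filter_upwards [cf_step hG (c2 i j) hj] with k hk _
    simpa only [one_mul] using hk
  · simp only [h, IsEmpty.forall_iff, eventually_atTop, implies_true, exists_const]

theorem crux {Γ : Type} [Finite Γ] {H J : Set L} (hH : KPos gen H) (hJ : J ∈ KF gen)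
    (U0 U1 : Γ → L → Prop) (z0 : L) (h1 : ∀ g, U1 g 1)
    (hl : ∀ g u, U1 g u → ∀ a c, ∀ᶠ n in atTop, U1 g ((route gen a c n)⁻¹ * u))
    (h4 : ∀ g a b c d, U1 g a → U1 g b → U1 g c → U1 g d → U0 g (a * b * c⁻¹ * d⁻¹))
    (hp : ∀ z ∈ J, ∀ z' ∈ J, z ∈ H → z' ∈ H → ∃ g, U1 g (z * z0⁻¹) ∧ U1 g (z' * z0⁻¹))
    (y : ℕ → L) (hy : ∀ E, ∀ᶠ l in atTop, WFam gen E H {1} → ∃ S, WFam gen E H S ∧ 1 ∈ S ∧ y l ∈ S)
    (hbad : ∀ g, ∀ᶠ l in atTop, ¬ U0 g (y l)) : False := by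
  obtain ⟨E, hE, hW⟩ := k6_small (W0 := {u | ∀ g, U1 g u}) hH h1
    fun u hu a c => eventually_all.2 fun g => hl g u (hu g) a c
  obtain ⟨l, h2, h3⟩ := ((hy E).and (eventually_all.2 hbad)).exists
  obtain ⟨S, hS, h5, h6⟩ := h2 hW
  obtain ⟨v, hv⟩ := k2_keep hS hJ
  obtain ⟨e1, he1, hz⟩ := hv 1 h5
  obtain ⟨e2, he2, hz'⟩ := hv _ h6
  obtain ⟨g, a, b⟩ := hp _ hz.2 _ hz'.2 hz.1 hz'.1
  refine h3 g ?_
  convert h4 g _ _ _ _ (hE he2 g) b a (hE he1 g) using 1
  group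

theorem cls_md {ι : Type} (B : Set ι) : Cls (MD B) := ⟨MD.const, MD.not, MD.all⟩

theorem md_supp {ι κ : Type} [Countable κ] {B : Set ι} {P : κ → (ι → ℕ → L) → Prop}
    (h : ∀ k, MD B (P k)) : ∃ C ⊆ B, C.Countable ∧ ∀ k, MD C (P k) := by
  choose C h1 h2 h3 using fun k => (h k).count
  exact ⟨⋃ k, C k, iUnion_subset h1, countable_iUnion h2, fun k => (h3 k).mono (subset_iUnion C k)⟩

theorem refl_ops {T : Tpl} (hT : T.Refl) {J κ : Type} [Countable J] [Countable κ]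
    (Ψ : J → (κ → T.X → Prop) → (κ → T.X → Prop) → Prop) :
    ∃ α, T.isK α ∧ ∀ j f, (∀ k, MD (Iio α) (f k)) → (∃ h, (∀ k, Measurable (h k)) ∧ Ψ j f h) →
      ∃ h, (∀ k, MD (Iio α) (h k)) ∧ Ψ j f h := by
  have hout : ∀ j f, ∃ S : Set T.ι, S.Countable ∧ ((∃ h, (∀ k, Measurable (h k)) ∧ Ψ j f h) →
      ∃ h, (∀ k, MD S (h k)) ∧ Ψ j f h) := by
    intro j f
    by_cases hh : ∃ h, (∀ k, Measurable (h k)) ∧ Ψ j f h
    · obtain ⟨h, hm, hΨ⟩ := hh
      obtain ⟨S, -, hS, hS'⟩ := md_supp fun k => MD.of_meas (hm k)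
      exact ⟨S, hS, fun _ => ⟨h, hS', hΨ⟩⟩
    · exact ⟨∅, countable_empty, fun h => absurd h hh⟩
  choose out hout using hout
  obtain ⟨α, hα, h⟩ := hT J (fun _ => κ) out fun j f => (hout j f).1
  refine ⟨α, hα, fun j f hf hex => ?_⟩
  obtain ⟨g, hg, hΨ⟩ := (hout j f).2 hex
  exact ⟨g, fun k => (hg k).mono (h j f hf), hΨ⟩

/-- a measurable version of `WFam` which is exact on an old conull set -/
theorem wfam_old {T : Tpl} {B : Set T.ι} (H : T.X → L → Prop) (hH : ∀ e, MD B fun x => H x e) :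
    ∃ (Wm : T.X → Finset L → Finset L → Prop) (Ψ : T.X → Prop), (∀ E S, MD B fun x => Wm x E S) ∧
      MD B Ψ ∧ (∀ᶠ x in T.μ, Ψ x) ∧ (∀ x E S, WFam gen E {e | H x e} S → Wm x E S) ∧
      ∀ x, Ψ x → ∀ E S, Wm x E S → WFam gen E {e | H x e} S := by
  obtain ⟨Wm, h1, h2, h3⟩ := wfam_meas T.μ H hH
  refine ⟨Wm, fun x => ∀ E, ClosedFam gen {S | Wm x E S} ∧ ∀ S, Wm x E S → FFin E {e | H x e} S,
    h1, MD.all fun E => MD.and ?_ ?_, ?_, h2, fun x hx E S hS => ⟨_, (hx E).1, (hx E).2, hS⟩⟩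
  · exact MD.all fun S => (h1 E S).imp (MD.all fun g => MD.all fun c => MD.ev fun n => h1 E _)
  · exact MD.all fun S => (h1 E S).imp (MD.ex fun y => MD.all fun r => (MD.const _).imp
      (MD.ex fun ε => (MD.const _).and (hH _)))
  · filter_upwards [h3] with x hx E
    have e : {S | Wm x E S} = {S | WFam gen E {e | H x e} S} :=
      Set.ext fun S => ⟨hx E S, h2 x E S⟩
    exact ⟨e ▸ WFam.closed E _, fun S hS => (hx E S hS).ffin⟩

theorem null_left {S : Set L} (hS : S ∈ KF gen) (w : L) : ¬ KPos gen {u | w * u ∉ S} := fun h =>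
  mem_KF.1 hS ((h.left w⁻¹).mono fun q hq => by simpa using hq)

theorem sealing {T : Tpl} {α : T.ι} {Cs : Set T.ι} {Ty : Type} [Countable Ty] {len : Ty → ℕ}
    {nx : Ty → L → Ty} {Fc : Ty → (T.X → Prop) → T.X → Prop} (F : FcP T α Cs Ty len nx Fc)
    {U0 U1 K : T.X → L → Prop} {R R0 : T.X → Prop}
    (hU1 : ∀ w, MD (Iio α ∪ Cs) fun x => U1 x w) (hRS : MD (Iio α ∪ Cs) R)
    (hK : ∀ w, MD (Iio α) fun x => K x w) (hR : ∃ᶠ x in T.μ, R x)
    (hRR : ∀ x, R x → R0 x) (hKn : ∀ᶠ x in T.μ, R0 x → ∀ᶠ q in KF gen, ¬ K x q)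
    (h01 : ∀ᶠ x in T.μ, R x → ∀ u v, U1 x u → U1 x v → U0 x (u * v))
    (hfail : ∀ x, R x → ∀ i, U0 x (x α i) → K x (x α i))
    (hseq : ∀ N : Option (Ty × Option L) → T.X → L → Prop, (∀ n w, MD (Iio α) fun x => N n x w) →
      (∀ n x, ¬ KPos gen {w | N n x w}) → ∃ c : T.X → ℕ → L,
        (∀ m w, MD (Iio α) fun x => c x m = w) ∧
        (∀ n, ∀ᶠ x in T.μ, R0 x → ∀ᶠ m in atTop, ¬ N n x (c x m)) ∧
        ∀ᶠ x in T.μ, R0 x → ∀ᶠ m in atTop, U1 x (c x m)) : False := by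
  choose S hSO hSK hSn using fun (s : Ty) (w : L) => F.next s fun y => U1 y w
  choose Wm Ψ hWm _ hΨ hW1 hW2 using fun s : Ty =>
    wfam_old (T := T) (B := Iio α) (fun x w => Fc s (fun y => U1 y w) x) fun w => F.md s _
  let N : Option (Ty × Option L) → T.X → L → Prop := fun n x u =>
    match n with
    | none => False
    | some (s, none) => (¬ ∃ E, Wm s x E {1}) ∧ Fc s (fun y => U1 y u) x
    | some (s, some w) => w * u ∉ S s w x
  obtain ⟨c, hcO, hcN, hcU⟩ := hseq N (by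
      rintro (_ | ⟨s, _ | w⟩) u
      · exact MD.const _
      · exact (MD.ex fun E => hWm s E _).not.and (F.md s _)
      · exact (hSO s w _).not) (by
      rintro (_ | ⟨s, _ | w⟩) x
      · exact not_kpos_empty
      · intro h
        by_cases h1 : ∃ E, Wm s x E {1}
        · exact not_kpos_empty (h.mono fun u hu => hu.1 h1)
        · obtain ⟨E, hE⟩ := h.mono (H' := {w | Fc s (fun y => U1 y w) x}) fun u hu => hu.2
          exact h1 ⟨E, hW1 s x E _ hE⟩
      · exact null_left (hSK s w x) w)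
  have h1 : ∃ᶠ x in T.μ, ∃ m0, R x ∧ ∀ m, m0 ≤ m → U1 x (c x m) := by
    refine (hR.and_eventually hcU).mono fun x hx => ?_
    obtain ⟨m0, h⟩ := eventually_atTop.1 (hx.2 (hRR x hx.1))
    exact ⟨m0, hx.1, h⟩
  obtain ⟨m0, h1⟩ := fr_ex h1
  set θ : T.X → Prop := fun x => R x ∧ ∀ m, m0 ≤ m → U1 x (c x m) with hθ
  have hθm : MD (Iio α ∪ Cs) θ := hRS.and (MD.all fun m => (MD.const _).imp
    (MD.sub (φ := fun w x => U1 x w) hU1 fun a => (hcO m a).mono subset_union_left))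
  choose S0 _ hS0K hS0n using fun s => F.next s θ
  have h2 : ∀ s w, ∀ᶠ x in T.μ, (∃ m, m0 ≤ m ∧ c x m = w) → Fc s θ x → Fc s (fun y => U1 y w) x :=
    fun s w => F.mono s _ _ _ (MD.ex fun m => (MD.const _).and (hcO m w))
      (.of_forall fun x ⟨m, hm, e⟩ h => e ▸ h.2 m hm)
  have h3 : ∀ s w m u, ∀ᶠ x in T.μ, (m0 ≤ m ∧ c x m = u ∧ ¬ K x (w * u)) →
      Fc (nx s (w * u)) (fun y => θ y ∧ y α (len s) = w * u) x →
      ¬ Fc (nx s (w * u)) (fun y => U1 y w ∧ y α (len s) = w * u) x := by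
    intro s w m u
    have h4 := F.mono (nx s (w * u)) (fun y => (θ y ∧ y α (len s) = w * u) ∧
      (U1 y w ∧ y α (len s) = w * u)) (fun _ => False) (fun x => m0 ≤ m ∧ c x m = u ∧ ¬ K x (w * u))
      ((MD.const _).and ((hcO m u).and (hK _).not)) (by
        filter_upwards [h01] with x h5 ⟨a1, a2, a3⟩ ⟨⟨⟨b1, b2⟩, b3⟩, b4, _⟩
        exact a3 (b3 ▸ hfail x b1 _ (b3 ▸ h5 b1 w u b4 (a2 ▸ b2 m a1))))
    filter_upwards [h4, F.and (nx s (w * u)) (fun y => θ y ∧ y α (len s) = w * u)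
      (fun y => U1 y w ∧ y α (len s) = w * u), F.bot (nx s (w * u))] with x e1 e2 e3 a b c
      using e3 (e1 a (e2 b c))
  refine h1 ?_
  filter_upwards [F.cover θ hθm, eventually_countable_forall.2 hcN, hKn,
    eventually_countable_forall.2 hΨ, eventually_countable_forall.2 hS0n,
    eventually_countable_forall.2 fun s => eventually_countable_forall.2 (hSn s),
    eventually_countable_forall.2 fun s => eventually_countable_forall.2 (h2 s),
    eventually_countable_forall.2 fun s => eventually_countable_forall.2 fun w =>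
      eventually_countable_forall.2 fun m => eventually_countable_forall.2 (h3 s w m)]
    with x e1 eN eK eΨ eS0 eS e2 e3 hx
  obtain ⟨s, hs⟩ := e1 hx
  have hx0 := hRR x hx.1
  have hpos : KPos gen {w | Fc s (fun y => U1 y w) x} := by
    obtain ⟨m, hm, hm0⟩ := ((eN (some (s, none)) hx0).and (eventually_ge_atTop m0)).exists
    by_contra hn
    exact hm ⟨fun ⟨E, hE⟩ => hn ⟨E, hW2 s x (eΨ s) E _ hE⟩, e2 s _ ⟨m, hm0, rfl⟩ hs⟩
  have hJ := k4_deriv (J := (S0 s x ∩ {q | ¬ K x q})ᶜ) hpos (c x) fun w hw => by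
    filter_upwards [eN (some (s, some w)) hx0, eventually_ge_atTop m0] with m hm hm0 h5
    exact e3 s w m _ ⟨hm0, rfl, h5.2⟩ (eS0 s hs _ h5.1) (eS s w hw _ (not_not.1 hm))
  exact mem_KF.1 (inter_mem (hS0K s x) (eK hx0)) hJ

section
variable {ι : Type} {ν : Filter (ι → ℕ → L)} [CountableInterFilter ν] {B : BG.{u} ν} {O : Set ι}
  {ev : L →* B.G}

/-- old null sequences that avoid countably many old null sets -/
theorem nullseq (hc : ∀ c, Nl B (fun _ => True) fun _ n => ev (gen c n))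
    (hsel : ∀ A : ℕ → (ι → ℕ → L) → L → Prop, (∀ n w, MD O fun x => A n x w) →
      (∀ U n, ∀ᶠ x in ν, ∃ w, (∀ j ≤ n, A j x w) ∧ B.mem (ev w) U x) →
      ∃ (y : (ι → ℕ → L) → ℕ → L) (g : B.G), (∀ l w, MD O fun x => y x l = w) ∧
        (Nl B (fun _ => True) fun x l => g⁻¹ * ev (y x l)) ∧
        ∀ n, ∀ᶠ x in ν, ∀ᶠ l in atTop, A n x (y x l))
    {κ : Type} [Countable κ] [Nonempty κ] (N : κ → (ι → ℕ → L) → L → Prop)
    (hN : ∀ n w, MD O fun x => N n x w) (hn : ∀ n x, ¬ KPos gen {w | N n x w}) (U : B.O) :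
    ∃ c : (ι → ℕ → L) → ℕ → L, (∀ m w, MD O fun x => c x m = w) ∧
      (∀ n, ∀ᶠ x in ν, ∀ᶠ m in atTop, ¬ N n x (c x m)) ∧
      ∀ᶠ x in ν, ∀ᶠ m in atTop, B.mem (ev (c x m)) U x := by
  obtain ⟨e, he⟩ := exists_surjective_nat (κ × L)
  obtain ⟨y, g, hy, hg, hA⟩ := hsel (fun n x w => ¬ N (e n).1 x ((e n).2⁻¹ * w))
    (fun n w => (hN _ _).not) fun V n => by
      filter_upwards [tr_pos hc V] with x hx
      have h1 : ∀ᶠ w in KF gen, ∀ j ∈ Iic n, ¬ N (e j).1 x ((e j).2⁻¹ * w) :=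
        (eventually_all_finite (finite_Iic n)).2 fun j _ => by
          have := null_left (S := {w | ¬ N (e j).1 x w}) (mem_KF.2 (by
            simpa [compl_ofPred] using hn (e j).1 x)) (e j).2⁻¹
          refine mem_KF.2 ?_
          simpa only [compl_ofPred, not_not, mem_ofPred_eq] using this
      obtain ⟨w, h2, h3⟩ := ((freq_KF.2 hx).and_eventually h1).exists
      exact ⟨w, h3, h2⟩
  have hsub : ∀ m l (φ : L → L → (ι → ℕ → L) → Prop), (∀ a b, MD O (φ a b)) →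
      MD O fun x => φ (y x m) (y x l) x := fun m l φ h =>
    MD.sub (φ := fun a x => φ a (y x l) x) (fun a => MD.sub (h a) (hy l)) (hy m)
  choose f hf hf' using fun m => MD.sel (B := O)
    (φ := fun l x => m ≤ l ∧ ∀ j ≤ m, ¬ N (e j).1 x ((y x m)⁻¹ * y x l))
    fun l => (MD.const _).and (MD.all fun j => (MD.const _).imp
      (hsub m l (fun a b x => ¬ N (e j).1 x (a⁻¹ * b)) fun a b => (hN _ _).not))
  have hex : ∀ᶠ x in ν, ∀ m, m ≤ f m x ∧ ∀ j ≤ m, ¬ N (e j).1 x ((y x m)⁻¹ * y x (f m x)) := by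
    filter_upwards [eventually_countable_forall.2 hA] with x hx m
    refine hf' m x ((eventually_ge_atTop m).and
      ((eventually_all_finite (finite_Iic m)).2 fun j _ => ?_)).exists
    obtain ⟨n, hn⟩ := he ((e j).1, y x m)
    simpa only [eventually_atTop, hn] using hx n
  refine ⟨fun x m => (y x m)⁻¹ * y x (f m x), fun m w => ?_, fun n => ?_, ?_⟩
  · exact MD.sub (φ := fun l x => (y x m)⁻¹ * y x l = w)
      (fun l => hsub m l (fun a b _ => a⁻¹ * b = w) fun _ _ => MD.const _) (hf m)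
  · obtain ⟨j, hj⟩ := he (n, 1)
    filter_upwards [hex] with x hx
    filter_upwards [eventually_ge_atTop j] with m hm
    simpa [hj] using (hx m).2 j hm
  · filter_upwards [hex, nl_cauchy hg (fun l => (Mx.of_cnt fun w => (hy l w).1).map ev) U]
      with x hx h1
    obtain ⟨k, hk⟩ := h1 trivial
    filter_upwards [eventually_ge_atTop k] with m hm
    simpa only [map_mul, map_inv] using (hk m (f m x) hm (hm.trans (hx m).1)).1

end

end Pool.Agent.MP_e30343_lc.SO.N3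

end
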