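import Pool.Agent.MP_e30343_lc.Mg.SO_No3TD
import Pool.Agent.MP_e30343_lc.Mg.SO_Fc
import Pool.Agent.MP_e30343_lc.Mg.SO_Real

/-! Case T1 of section 6: null columns without a convergent transversal. -/

open Filter Set

namespace Pool.Agent.MP_e30343_lc.SO.T1

universe u

section Gen
variable {ι : Type} {ν : Filter (ι → ℕ → L)} {G : BG.{u} ν} {d : ℕ → ℕ → G.G}
  {R : (ι → ℕ → L) → Prop}

/-- no convergent transversal on `R` -/
def NoTr (G : BG.{u} ν) (d : ℕ → ℕ → G.G) (R : (ι → ℕ → L) → Prop) : Prop :=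
  ∀ (R' : (ι → ℕ → L) → Prop) (κ m : (ι → ℕ → L) → ℕ → ℕ) (l : G.G), Measurable R' →
    (∀ t, Measurable fun x => κ x t) → (∀ t, Measurable fun x => m x t) →
    (∀ᶠ x in ν, R' x → Tendsto (κ x) atTop atTop) →
    (Nl G R' fun x t => l⁻¹ * d (κ x t) (m x t)) → ∀ᶠ x in ν, R x → ¬ R' x

theorem NoTr.mono (h : NoTr G d R) {R1 : (ι → ℕ → L) → Prop} (e : ∀ x, R1 x → R x) :
    NoTr G d R1 := fun R' κ m l h1 h2 h3 h4 h5 =>
  (h R' κ m l h1 h2 h3 h4 h5).mono fun x hx r => hx (e x r)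

theorem NoTr.shift (h : NoTr G d R) (i : ℕ) : NoTr G (fun k n => d (k + i) n) R :=
  fun R' κ m l h1 h2 h3 h4 h5 => h R' (fun x t => κ x t + i) m l h1
    (fun t => (h2 t).add_const i) h3
    (h4.mono fun _ hx r => (tendsto_add_atTop_nat i).comp (hx r)) h5

theorem NoTr.pairs (h : NoTr G d R) {R' : (ι → ℕ → L) → Prop} (hm : Measurable R')
    {p : (ι → ℕ → L) → ℕ → ℕ × ℕ} (hp : ∀ t, MF univ fun x => p x t)
    (ht : ∀ᶠ x in ν, R' x → ∀ t, t ≤ (p x t).1) (l : G.G)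
    (hl : Nl G R' fun x t => l⁻¹ * d (p x t).1 (p x t).2) : ∀ᶠ x in ν, R x → ¬ R' x :=
  h R' (fun x t => (p x t).1) (fun x t => (p x t).2) l hm (fun t => ((hp t).map Prod.fst).meas)
    (fun t => ((hp t).map Prod.snd).meas)
    (ht.mono fun _ hx r => tendsto_atTop_mono (hx r) tendsto_id) hl

variable [CountableInterFilter ν]

/-- almost all columns consist of non-trivial elements -/
theorem step1 (h : NoTr G d R) (hR : Measurable R) (hp : ∃ᶠ x in ν, R x) :
    ∃ i, ∃ᶠ x in ν, R x ∧ ∀ k n, ¬ G.nul (d (k + i) n) x := by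
  by_contra hc
  have hc' : ∀ i, ∀ᶠ x in ν, R x → ∃ k n, G.nul (d (k + i) n) x := fun i =>
    (not_frequently.1 fun h' => hc ⟨i, h'⟩).mono fun x hx r => by
      by_contra h2
      exact hx ⟨r, fun k n h3 => h2 ⟨k, n, h3⟩⟩
  choose f hf1 hf2 using fun t => MD.sel (B := univ)
    (φ := fun (q : ℕ × ℕ) x => t ≤ q.1 ∧ G.nul (d q.1 q.2) x)
    fun q => (MD.const _).and (MD.of_meas (G.nul_meas _))
  have key : ∀ᶠ x in ν, R x → ∀ t, t ≤ (f t x).1 ∧ G.nul (d (f t x).1 (f t x).2) x := by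
    filter_upwards [eventually_countable_forall.2 hc'] with x hx r t
    obtain ⟨k, n, h1⟩ := hx t r
    exact hf2 t x ⟨(k + t, n), Nat.le_add_left _ _, h1⟩
  have := h.pairs hR (p := fun x t => f t x) hf1 (key.mono fun x hx r t => (hx r t).1) 1
    (nl_of_nul ((CR.const _).mul (CR.of_ct (fun q : ℕ × ℕ => d q.1 q.2) fun x t => f t x))
      (key.mono fun x hx r => Eventually.of_forall fun t => by simpa using (hx r t).2))
  obtain ⟨x, h1, h2⟩ := (hp.and_eventually this).exists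
  exact h2 h1 h1

/-- a neighbourhood that misses the part of the columns below a given function -/
theorem step3 (h : NoTr G d R) (hR : Measurable R) (hp : ∃ᶠ x in ν, R x)
    (hne : ∀ x, R x → ∀ k n, ¬ G.nul (d k n) x) (f : (ι → ℕ → L) → ℕ → ℕ)
    (hf : ∀ k n, Measurable fun x => n ≤ f x k) :
    ∃ U, ∃ᶠ x in ν, R x ∧ ∀ k n, n ≤ f x k → ¬ G.mem (d k n) U x := by
  by_contra hc
  obtain ⟨R', z, l, h1, h2, h3, h4, h5, h6⟩ := tri_seq (B := G) (fun q : ℕ × ℕ => d q.1 q.2)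
    (fun x q => q.2 ≤ f x q.1) (fun q => hf _ _) hR hp
    (fun U => (not_frequently.1 fun h' => hc ⟨U, h'⟩).mono fun x hx r => by
      by_contra h2
      exact hx ⟨r, fun k n h3 h4 => h2 ⟨(k, n), h3, h4⟩⟩)
    (Eventually.of_forall fun x r q _ => hne x r _ _)
  obtain ⟨κ, p, h7, h8⟩ := subq (B := univ) (fun x t k (p : ℕ × ℕ) => z x k = p ∧ t ≤ p.1)
    fun t k p => (MD.of_meas (h2 k p)).and (MD.const _)
  have key : ∀ᶠ x in ν, R' x → Tendsto (κ x) atTop atTop ∧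
      ∀ t, z x (κ x t) = p x t ∧ t ≤ (p x t).1 := by
    filter_upwards [h5] with x hx r
    refine h8 x fun t => ?_
    by_contra h9
    refine (hx r).2 ((((finite_Iio t).image (z x)).union ((finite_Iio t).biUnion
      (t := fun k => (fun n => (k, n)) '' Iic (f x k))
      fun k _ => (finite_Iic _).image _)).subset ?_)
    rintro _ ⟨k, rfl⟩
    by_cases e : k < t
    · exact Or.inl ⟨k, e, rfl⟩
    · refine Or.inr (mem_biUnion (x := (z x k).1) ?_ ⟨(z x k).2, (hx r).1 k, rfl⟩)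
      by_contra e'
      exact h9 ⟨k, not_lt.1 e, _, rfl, not_lt.1 e'⟩
  have := h.pairs h1 h7 (key.mono fun x hx r t => ((hx r).2 t).2) l
    ((h6.comp (key.mono fun x hx r => (hx r).1)).congr_eq
      (key.mono fun x hx r => Eventually.of_forall fun t => by rw [((hx r).2 t).1]))
  obtain ⟨x, e1, e2⟩ := (h3.and_eventually this).exists
  exact e2 (h4 x e1) e1

/-- non-trivial words stay non-trivial after multiplication by far members of a column -/
theorem nn (hc : ∀ k, Nl G (fun _ => True) fun _ n => d k n) :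
    ∀ᶠ x in ν, ∀ v, ¬ G.nul (evL d v) x → ∀ k, ∀ᶠ n in atTop,
      ¬ G.nul (evL d (v * gen k n)) x ∧ ¬ G.nul (evL d (v * (gen k n)⁻¹)) x := by
  refine eventually_countable_forall.2 fun v => ?_
  obtain ⟨U, hU⟩ := G.haus (evL d v)
  obtain ⟨W, hW⟩ := G.tri U
  filter_upwards [hU, G.mem_one W, eventually_countable_forall.2 fun k => hc k W,
    eventually_countable_forall.2 fun w : L => mem_of_nul (evL d w) W,
    eventually_countable_forall.2 fun q : L × L × L => hW (evL d q.1) (evL d q.2.1) (evL d q.2.2)]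
    with x h1 h2 h3 h4 h5 hv k
  filter_upwards [h3 k trivial] with n hn
  refine ⟨fun h => hv (h1 ?_), fun h => hv (h1 ?_)⟩
  · simpa using h5 (v * gen k n, gen k n, 1) (h4 _ h) (by simpa [evL_gen] using hn)
      (by simpa using h2)
  · simpa using h5 (v * (gen k n)⁻¹, 1, gen k n) (h4 _ h) (by simpa using h2)
      (by simpa [evL_gen] using hn)

/-- the leaves of the adversary tree accumulate at `1` -/
theorem clos (hc : ∀ k, Nl G R fun _ n => d k n) {T : (ι → ℕ → L) → AdvT}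
    (hg : ∀ᶠ x in ν, R x → (T x).Grow) (i0 : ℕ) (U : G.O) :
    ∀ᶠ x in ν, R x → ∃ w, (∃ i n m l, i0 ≤ i ∧ (T x).L4 gen (gen 0) i n m l = w) ∧
      G.mem (evL d w) U x := by
  have s : ∀ᶠ x in ν, R x → R x := Eventually.of_forall fun _ h => h
  have a2 := fun i => Nl.mem (cr_ev (d := d) fun x n => (T x).L2 gen (gen 0) i n)
    (l := fun _ => evL d (gen 0 i)) (CR.const _)
    ((nl_gen hc s (fun _ => i) (hg.mono fun x hx r t => (hx r).a i t)).of_eq fun x t => by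
      simp [AdvT.L2, AdvT.xx]) U
  have a3 := fun i n => Nl.mem (cr_ev (d := d) fun x m => (T x).L3 gen (gen 0) i n m)
    (l := fun x => evL d ((T x).L2 gen (gen 0) i n)) (cr_ev _)
    ((((nl_gen hc s (fun _ => i) (hg.mono fun x hx r t => ((hx r).b1 i n t).2)).inv
      (cr_ev _)).mul (nl_gen hc s (fun x => (T x).k2 i n)
        (hg.mono fun x hx r t => (hx r).b2 i n t)) (cr_ev _).inv (cr_ev _)).of_eq fun x t => by
      simp [AdvT.L3, AdvT.xx', AdvT.yy]) U
  have a4 := fun i n m => Nl.mem (cr_ev (d := d) fun x l => (T x).L4 gen (gen 0) i n m l)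
    (l := fun x => evL d ((T x).L3 gen (gen 0) i n m)) (cr_ev _)
    ((((nl_gen hc s (fun x => (T x).k2 i n)
      (hg.mono fun x hx r t => ((hx r).d1 i n m t).2)).inv
      (cr_ev _)).mul (nl_gen hc s (fun x => (T x).k3 i n m)
        (hg.mono fun x hx r t => (hx r).d2 i n m t)) (cr_ev _).inv (cr_ev _)).of_eq fun x t => by
      simp [AdvT.L4, AdvT.yy', AdvT.zz]) U
  filter_upwards [hc 0 U, eventually_countable_forall.2 a2,
    eventually_countable_forall.2 fun i => eventually_countable_forall.2 (a3 i),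
    eventually_countable_forall.2 fun i => eventually_countable_forall.2 fun n =>
      eventually_countable_forall.2 (a4 i n)] with x b1 b2 b3 b4 r
  obtain ⟨i, hi, hi0⟩ := ((b1 r).and (eventually_ge_atTop i0)).exists
  obtain ⟨n, hn⟩ := (b2 i r (by simpa [evL_gen] using hi)).exists
  obtain ⟨m, hm⟩ := (b3 i n r hn).exists
  obtain ⟨l, hl⟩ := (b4 i n m r hm).exists
  exact ⟨_, ⟨i, n, m, l, hi0, rfl⟩, hl⟩

end Gen

/-- a countable support for countably many measurable predicates -/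
theorem supp_ct {ι κ : Type} [Countable κ] (P : κ → (ι → ℕ → L) → Prop)
    (h : ∀ k, Measurable (P k)) : ∃ C : Set ι, C.Countable ∧ ∀ k, MD C (P k) := by
  choose C _ h2 h3 using fun k => (MD.of_meas (h k)).count
  exact ⟨⋃ k, C k, countable_iUnion h2, fun k => (h3 k).mono (subset_iUnion _ k)⟩

/-- a node of kind K below which the given facts and the trees of old sets are decided -/
theorem old_alpha {T : Tpl} (hT : T.Refl) {ν : Filter T.X} (G : BG.{u} ν) (d : ℕ → ℕ → G.G)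
    {R : T.X → Prop} (hR : Measurable R) {κ : Type} [Countable κ] (P : κ → T.X → Prop)
    (hP : ∀ k, Measurable (P k)) : ∃ α, T.isK α ∧ (∀ k, MD (Iio α) (P k)) ∧
      ∀ D : L → T.X → Prop, (∀ w, MD (Iio α) (D w)) →
        (∀ U, ∀ᶠ x in ν, R x → ∃ w, D w x ∧ G.mem (evL d w) U x) →
        ∃ (a : T.X → ℕ → ℕ → ℕ → L) (b : ℕ → ℕ → G.G) (c : ℕ → G.G),
          (∀ i j k, MF (Iio α) fun x => a x i j k) ∧
          (∀ᶠ x in ν, R x → ∀ i j k, D (a x i j k) x) ∧
          Nl G R (fun _ i => c i) ∧ (∀ i, Nl G R fun _ j => (c i)⁻¹ * b i j) ∧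
          ∀ i j, Nl G R fun x k => (b i j)⁻¹ * evL d (a x i j k) := by
  obtain ⟨C0, h1, h2⟩ := supp_ct P hP
  have key : ∀ D : L → T.X → Prop, ∃ C : Set T.ι, C.Countable ∧ ((∀ w, Measurable (D w)) →
      (∀ U, ∀ᶠ x in ν, R x → ∃ w, D w x ∧ G.mem (evL d w) U x) →
        ∃ (a : T.X → ℕ → ℕ → ℕ → L) (b : ℕ → ℕ → G.G) (c : ℕ → G.G),
          (∀ i j k, MF C fun x => a x i j k) ∧
          (∀ᶠ x in ν, R x → ∀ i j k, D (a x i j k) x) ∧
          Nl G R (fun _ i => c i) ∧ (∀ i, Nl G R fun _ j => (c i)⁻¹ * b i j) ∧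
          ∀ i j, Nl G R fun x k => (b i j)⁻¹ * evL d (a x i j k)) := by
    intro D
    by_cases e : (∀ w, Measurable (D w)) ∧
      ∀ U, ∀ᶠ x in ν, R x → ∃ w, D w x ∧ G.mem (evL d w) U x
    · obtain ⟨a, b, c, g1, g2⟩ := o3a' (B := G) (evL d) (fun x w => D w x) e.1 hR e.2
      obtain ⟨C, g3, g4⟩ := supp_ct
        (fun (q : (ℕ × ℕ × ℕ) × L) x => a x q.1.1 q.1.2.1 q.1.2.2 = q.2) fun q => g1 _ _ _ _
      exact ⟨C, g3, fun _ _ => ⟨a, b, c, fun i j k w => g4 ((i, j, k), w), g2⟩⟩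
    · exact ⟨∅, countable_empty, fun e1 e2 => absurd ⟨e1, e2⟩ e⟩
  choose C h3 h4 using key
  obtain ⟨α, g1, g2⟩ := hT Unit (fun _ => L) (fun _ D => C0 ∪ C D) fun _ D => h1.union (h3 D)
  refine ⟨α, g1, fun k => (h2 k).mono (subset_union_left.trans
    (g2 () (fun _ _ => True) fun _ => MD.const _)), fun D hD hcl => ?_⟩
  obtain ⟨a, b, c, g3, g4⟩ := h4 D (fun w => (hD w).1) hcl
  exact ⟨a, b, c, fun i j k w => (g3 i j k w).mono (subset_union_right.trans (g2 () D hD)), g4⟩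

section Fc
variable {T : Tpl} {α : T.ι} {Cs : Set T.ι} {Ty : Type} {len : Ty → ℕ} {nx : Ty → L → Ty}
  {Fc : Ty → (T.X → Prop) → T.X → Prop} (H : FcP T α Cs Ty len nx Fc) {R0 : T.X → Prop}
  (h0 : MD (Iio α) R0)
include H h0

theorem fc_mono (s : Ty) (θ θ' R : T.X → Prop) (hR : MD (Iio α) R)
    (h : ∀ᶠ x in T.μ ⊓ 𝓟 {x | R0 x}, R x → θ x → θ' x) :
    ∀ᶠ x in T.μ ⊓ 𝓟 {x | R0 x}, R x → Fc s θ x → Fc s θ' x := by
  rw [eventually_inf_principal] at h ⊢
  filter_upwards [H.mono s θ θ' _ (h0.and hR) (h.mono fun x hx r => hx r.1 r.2)] with x hx r r'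
  exact hx ⟨r, r'⟩

theorem fc_frc (s : Ty) : Frc (T.μ ⊓ 𝓟 {x | R0 x}) (Iio α) (Fc s) where
  md := H.md s
  mono θ θ' h := (fc_mono H h0 s θ θ' (fun _ => True) (MD.const _)
    (h.mono fun _ hx _ => hx)).mono fun _ hx => hx trivial
  and θ θ' := (H.and s θ θ').filter_mono inf_le_left
  bot := (H.bot s).filter_mono inf_le_left
  top := by
    refine Eventually.filter_mono inf_le_left ?_
    filter_upwards [H.dom s (fun _ _ => univ) (fun _ _ => MD.const _) fun _ _ => univ_mem,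
      H.mono s (fun y => ∀ i, len s ≤ i → y α i ∈ (univ : Set L)) (fun _ => True) (fun _ => True)
        (MD.const _) (Eventually.of_forall fun _ _ _ => trivial)] with x h1 h2 using h2 trivial h1

omit h0 in
theorem fc_dom (s : Ty) (n : ℕ) : ∀ᶠ x in T.μ, Fc s (fun y => ∀ i, len s ≤ i → n ≤ nb (y α i)) x :=
  H.dom s (fun _ _ => {q | n ≤ nb q}) (fun _ _ => MD.const _) fun _ _ =>
    (k3_finite (gen_inj 0) ((finite_Iio n).preimage nb_inj.injOn)).mono fun _ h => not_lt.1 h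

/-- the virtual traces are faithful along old sequences -/
theorem faith [Countable Ty] {t : ℕ × L → T.X → Prop} {b : Ty → ℕ × L → T.X → Prop}
    (ht : ∀ i, MD (Iio α ∪ Cs) (t i))
    (b1 : ∀ s θ i, (∀ᶠ y in T.μ ⊓ 𝓟 {x | R0 x}, θ y → t i y) →
      ∀ᶠ x in T.μ ⊓ 𝓟 {x | R0 x}, Fc s θ x → b s i x)
    (b2 : ∀ s θ i, (∀ᶠ y in T.μ ⊓ 𝓟 {x | R0 x}, θ y → ¬ t i y) →
      ∀ᶠ x in T.μ ⊓ 𝓟 {x | R0 x}, Fc s θ x → ¬ b s i x)
    {R : T.X → Prop} (hR : MD (Iio α ∪ Cs) R)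
    (hR' : ∀ y, R y → ∀ k n, n ≤ nb (y α k) → ¬ t (0, gen k n) y)
    (j : ℕ) (w : T.X → ℕ → L) (hw : ∀ m, MF (Iio α) fun x => w x m) :
    ∀ᶠ x in T.μ ⊓ 𝓟 {x | R0 x}, R x → (∀ᶠ m in atTop, t (j, w x m) x) → ∃ s, ∀ᶠ m in atTop,
      b s (j, w x m) x ∧ ∀ k, len s ≤ k → ∀ n, ¬ b s (0, gen k n) x := by
  let θ : ℕ → T.X → Prop := fun m0 y => R y ∧ ∀ m, m0 ≤ m → t (j, w y m) y
  have hθ : ∀ m0, MD (Iio α ∪ Cs) (θ m0) := fun m0 => hR.and (MD.all fun m => (MD.const _).imp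
    (MD.sub (φ := fun v y => t (j, v) y) (fun v => ht _)
      fun v => (hw m v).mono subset_union_left))
  have e1 : ∀ q : ℕ × Ty × ℕ × L, ∀ᶠ x in T.μ ⊓ 𝓟 {x | R0 x}, q.1 ≤ q.2.2.1 →
      w x q.2.2.1 = q.2.2.2 → Fc q.2.1 (θ q.1) x → b q.2.1 (j, q.2.2.2) x := by
    rintro ⟨m0, s, m, v⟩
    filter_upwards [fc_mono H h0 s (θ m0) (t (j, v)) (fun y => m0 ≤ m ∧ w y m = v)
      ((MD.const _).and (hw m v)) (Eventually.of_forall fun y h1 h2 => h1.2 ▸ h2.2 m h1.1),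
      b1 s (t (j, v)) (j, v) (Eventually.of_forall fun _ h => h)] with x h1 h2 h3 h4 h5
    exact h2 (h1 ⟨h3, h4⟩ h5)
  have e2 : ∀ q : ℕ × Ty × ℕ × ℕ, ∀ᶠ x in T.μ ⊓ 𝓟 {x | R0 x}, len q.2.1 ≤ q.2.2.1 →
      Fc q.2.1 (θ q.1) x → ¬ b q.2.1 (0, gen q.2.2.1 q.2.2.2) x := by
    rintro ⟨m0, s, k, n⟩
    by_cases e : len s ≤ k
    · filter_upwards [(fc_dom H s n).filter_mono inf_le_left,
        (H.and s (θ m0) fun y => ∀ i, len s ≤ i → n ≤ nb (y α i)).filter_mono inf_le_left,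
        b2 s (fun y => θ m0 y ∧ ∀ i, len s ≤ i → n ≤ nb (y α i)) (0, gen k n)
          (Eventually.of_forall fun y h => hR' y h.1.1 k n (h.2 k e))] with x h1 h2 h3 _ h5
      exact h3 (h2 h5 h1)
    · exact Eventually.of_forall fun _ h => absurd h e
  filter_upwards [eventually_countable_forall.2 e1, eventually_countable_forall.2 e2,
    eventually_countable_forall.2 fun m0 => (H.cover _ (hθ m0)).filter_mono inf_le_left]
    with x h1 h2 h3 r h4
  obtain ⟨m0, h5⟩ := eventually_atTop.1 h4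
  obtain ⟨s, hs⟩ := h3 m0 ⟨r, h5⟩
  exact ⟨s, (eventually_ge_atTop m0).mono fun m hm =>
    ⟨h1 (m0, s, m, w x m) hm rfl hs, fun k hk n => h2 (m0, s, k, n) hk hs⟩⟩

end Fc

theorem main (T : Tpl) (hT : T.Refl) (R0 : T.X → Prop) (h1 : Measurable R0)
    (G : BG.{u} (T.μ ⊓ 𝓟 {x | R0 x})) (d : ℕ → ℕ → G.G)
    (hc : ∀ k, Nl G (fun _ => True) fun _ n => d k n) (R : T.X → Prop) (hR : Measurable R)
    (hp : ∃ᶠ x in T.μ ⊓ 𝓟 {x | R0 x}, R x) (hne : ∀ x, R x → ∀ k n, ¬ G.nul (d k n) x)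
    (hT1 : NoTr G d R) : False := by
  obtain ⟨α, hα, old, tree⟩ := old_alpha hT G d hR
    (fun q : Option (Option L) => match q with
      | none => R0
      | some none => R
      | some (some w) => G.nul (evL d w))
    fun q => match q with
      | none => h1
      | some none => hR
      | some (some _) => G.nul_meas _
  have o0 : MD (Iio α) R0 := old none
  have o1 : MD (Iio α) R := old (some none)
  have o2 : ∀ w, MD (Iio α) (G.nul (evL d w)) := fun w => old (some (some w))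
  obtain ⟨U0, hp2⟩ := step3 hT1 hR hp hne (fun x k => nb (x α k))
    fun k n => (MD.letter (mem_univ α) k fun e => n ≤ nb e).1
  choose nU hnU using G.tri
  let U : ℕ → G.O := fun k => nU^[k] U0
  have hU : ∀ j g h k, ∀ᶠ x in T.μ ⊓ 𝓟 {x | R0 x}, G.mem g (U (j + 1)) x →
      G.mem h (U (j + 1)) x → G.mem k (U (j + 1)) x → G.mem (g * h⁻¹ * k) (U j) x := by
    intro j
    simpa only [U, Function.iterate_succ_apply'] using hnU (U j)
  let t : ℕ × L → T.X → Prop := fun i => G.mem (evL d i.2) (U i.1)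
  obtain ⟨C, hC, mC⟩ := supp_ct t fun i => G.mem_meas _ _
  obtain ⟨Ty, _, len, nx, Fc, H⟩ := exists_fc T α hα (insert α C) (hC.insert α)
  have ht : ∀ i, MD (Iio α ∪ insert α C) (t i) := fun i =>
    (mC i).mono ((subset_insert _ _).trans subset_union_right)
  have : Nonempty Ty := by
    obtain ⟨x, -, hx⟩ := (hp.and_eventually ((H.cover (fun _ => True)
      (MD.const _)).filter_mono inf_le_left)).exists
    exact ⟨(hx trivial).choose⟩
  obtain ⟨s, hs⟩ := exists_surjective_nat Ty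
  choose b mb b1 b2 b3 using fun s => exists_bits (fc_frc H o0 s) t
  let R2 : T.X → Prop := fun x => R x ∧ ∀ k n, n ≤ nb (x α k) → ¬ G.mem (d k n) U0 x
  have m2 : MD (Iio α ∪ insert α C) R2 := (o1.mono subset_union_left).and
    (MD.all fun k => MD.all fun n =>
      (MD.letter (mem_union_right _ (mem_insert α C)) k fun e => n ≤ nb e).imp (by
        have := (ht (0, gen k n)).not
        simp only [t, evL_gen] at this
        exact this))
  let P : ℕ → T.X → ℕ → Set L := fun k x j => {w | b (s j) (k, w) x ∧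
    ∀ k, len (s j) ≤ k → ∀ n, ¬ b (s j) (0, gen k n) x}
  have mP : ∀ k j w, MD (Iio α) fun x => w ∈ P k x j := fun k j w =>
    (mb _ _).and (MD.all fun _ => (MD.const _).imp (MD.all fun _ => (mb _ _).not))
  have fa : ∀ j (w : T.X → ℕ → L), (∀ m, MF (Iio α) fun x => w x m) →
      ∀ᶠ x in T.μ ⊓ 𝓟 {x | R0 x}, R2 x → (∀ᶠ m in atTop, G.mem (evL d (w x m)) (U j) x) →
        ∃ i, ∀ᶠ m in atTop, w x m ∈ P j x i := by
    intro j w hw
    filter_upwards [faith H o0 ht b1 b2 m2 (fun y r k n h => by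
      simp only [t, evL_gen]
      exact r.2 k n h) j w hw] with x hx r h
    obtain ⟨s', h'⟩ := hx r h
    obtain ⟨i, rfl⟩ := hs s'
    exact ⟨i, h'⟩
  let N : T.X → Set L := fun x => {w | ¬ G.nul (evL d w) x}
  obtain ⟨A, mA, hA⟩ := adv_tree (B := Iio α) gen (gen 0) (P 0) (P 1) (P 2) N (mP 1) (mP 2)
    fun w => (o2 w).not
  have law : ∀ k, ∀ᶠ x in T.μ ⊓ 𝓟 {x | R0 x}, ∀ j u v w, u ∈ P (k + 1) x j → v ∈ P (k + 1) x j →
      w ∈ P (k + 1) x j → u * v⁻¹ * w ∈ P k x j := fun k =>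
    eventually_countable_forall.2 fun j => eventually_countable_forall.2 fun u =>
      eventually_countable_forall.2 fun v => eventually_countable_forall.2 fun w =>
        (b3 (s j) (k + 1, u) (k + 1, v) (k + 1, w) (k, u * v⁻¹ * w) (by
          simpa only [t, map_mul, map_inv] using hU k _ _ _)).mono fun x hx e1 e2 e3 =>
            ⟨hx e1.1 e2.1 e3.1, e1.2⟩
  have gN : ∀ x, R x → ∀ i, gen 0 i ∈ N x := fun x r i => by
    simpa only [N, mem_ofPred_eq, evL_gen] using hne x r 0 i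
  have gw : ∀ᶠ x in T.μ ⊓ 𝓟 {x | R0 x}, R x →
      (A x).Grow ∧ (A x).Win gen (gen 0) (P 1 x) (P 2 x) (N x) := by
    filter_upwards [law 0, law 1, nn hc] with x e1 e2 e3 r
    exact hA x ⟨e1, e2, fun j => (eventually_ge_atTop (len (s j))).mono fun k hk n h =>
      h.2 k hk n h.1, gN x r, e3⟩
  obtain ⟨i0, hp3⟩ : ∃ i0, ∃ᶠ x in T.μ ⊓ 𝓟 {x | R0 x},
      R2 x ∧ ∀ i, i0 ≤ i → G.mem (d 0 i) (U 3) x :=
    freq_ex ((hp2.and_eventually (hc 0 (U 3))).mono fun x hx =>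
      let ⟨i0, h⟩ := eventually_atTop.1 (hx.2 trivial); ⟨i0, hx.1, h⟩)
  obtain ⟨a, b', c, g1, g2, g3, g4, g5⟩ := tree
    (fun w x => ∃ i n m l, i0 ≤ i ∧ (A x).L4 gen (gen 0) i n m l = w)
    (fun w => MD.ex fun i => MD.ex fun n => MD.ex fun m => MD.ex fun l =>
      (MD.const _).and (mA.L4 i n m l w))
    (clos (fun k => (hc k).of_true R) (gw.mono fun x hx r => (hx r).1) i0)
  let R3 : T.X → Prop := fun x => R2 x ∧ ∀ i, i0 ≤ i → G.mem (d 0 i) (U 3) x
  have s3 : ∀ᶠ x in T.μ ⊓ 𝓟 {x | R0 x}, R3 x → R x := Eventually.of_forall fun _ h => h.1.1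
  have K : Ctx (Iio α) G d R3 A (P 1) (P 2) N (U 1) (U 2) (U 3) i0 :=
    { mR := m2.1.and (Measurable.forall fun i => measurable_const.imp (G.mem_meas _ _))
      col := fun k => (hc k).of_true _
      trans := hT1.mono fun _ h => h.1.1
      mT := mA
      gw := gw.mono fun _ hx r => hx r.1.1
      f1 := fun w hw => (fa 1 w hw).mono fun _ hx r => hx r.1
      f2 := fun w hw => (fa 2 w hw).mono fun _ hx r => hx r.1
      u32 := hU 2
      u21 := hU 1
      g3 := Eventually.of_forall fun _ h => h.2 }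
  have := K.no_tree (Eventually.of_forall fun x r => gN x r.1.1)
    (Eventually.of_forall fun x w h => h) g1
    (g2.mono fun x hx r i j k => let ⟨i', n, m, l, e1, e2⟩ := hx r.1.1 i j k
      ⟨4, le_rfl, le_rfl, (i', n, m, l), e1, (lab4 _ _).trans e2⟩)
    (g3.mono s3) (fun i => (g4 i).mono s3) fun i j => (g5 i j).mono s3
  obtain ⟨x, e1, e2⟩ := (hp3.and_eventually this).exists
  exact e2 e1

end Pool.Agent.MP_e30343_lc.SO.T1

namespace Pool.Agent.MP_e30343_lc.SO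

universe u

/-- case T1: null columns without a convergent transversal on a positive set -/
theorem no3_t1 (T : Tpl) (hT : T.Refl) (R0 : T.X → Prop) (h1 : Measurable R0)
    (B : BG.{u} (T.μ ⊓ 𝓟 {x | R0 x})) (cols : ℕ → ℕ → B.G)
    (hc : ∀ i, NlR (T.μ ⊓ 𝓟 {x | R0 x}) B.mem (fun _ => True) fun _ n => cols i n)
    (R : T.X → Prop) (hR : Measurable R) (hRp : ∃ᶠ x in T.μ ⊓ 𝓟 {x | R0 x}, R x)
    (hT1 : ∀ (R' : T.X → Prop) (i n : T.X → ℕ → ℕ) (g : B.G), Measurable R' →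
      (∀ l, Measurable fun x => i x l) → (∀ l, Measurable fun x => n x l) →
      (∀ᶠ x in T.μ ⊓ 𝓟 {x | R0 x}, R' x → Tendsto (i x) atTop atTop) →
      NlR (T.μ ⊓ 𝓟 {x | R0 x}) B.mem R' (fun x l => g⁻¹ * cols (i x l) (n x l)) →
      ∀ᶠ x in T.μ ⊓ 𝓟 {x | R0 x}, R x → ¬ R' x) : False := by
  have h : T1.NoTr B cols R := hT1
  obtain ⟨i, hi⟩ := T1.step1 h hR hRp
  exact T1.main T hT R0 h1 B (fun k n => cols (k + i) n) (fun k => hc (k + i)) _
    (hR.and (Measurable.forall fun k => Measurable.forall fun n => (B.nul_meas _).not)) hi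
    (fun _ h => h.2) ((h.shift i).mono fun _ h => h.1)

end Pool.Agent.MP_e30343_lc.SO
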