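import Pool.Agent.MP_e30343_lc.Mg.SO_ThmDSys
import Pool.Agent.MP_e30343_lc.Mg.SO_No3C
import Pool.Agent.MP_e30343_lc.Mg.SO_No3T

attribute [-instance] Distrib.toMul instNonemptyOfMonad NonUnitalRingHomClass.toMulHomClass
  MonTypeEquivalenceMon.monMonoid GeneralizedCoheytingAlgebra.toLattice
  ConditionallyCompletePartialOrderSup.toPartialOrder DivisionCommMonoid.toDivisionMonoid
  MulZeroOneClass.toMulOneClass NonUnitalAlgSemiHomClass.toMulHomClass AddMonoidWithOne.toOne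
  MulZeroClass.toMul CompletelyDistribLattice.toCompleteLattice GeneralizedHeytingAlgebra.toLattice
  Order.Coframe.toCompleteLattice Fintype.decidableExistsFintype Subtype.preorder
  OmegaCompletePartialOrder.toPartialOrder ChainCompletePartialOrder.toPartialOrder
  Order.Frame.toCompleteLattice CompleteSemilatticeInf.toPartialOrder
  ConditionallyCompletePartialOrderInf.toPartialOrder
  ContinuousMonoidHom.instCoeOutOfMonoidHomClassOfContinuousMapClass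
  CompleteSemilatticeSup.toPartialOrder Group.IsPerfect.subsingleton_of_isMulCommutative

-- part MP_e30343_lc.SO.ThmDAl
section

/-! Section 4: the alignment lemma and its consequences. -/

open Filter Set

namespace Pool.Agent.MP_e30343_lc.SO

open Tpl

variable {T : Tpl} {S S' : Type} {C : Set T.ι} {cc : Cc T S} {mu : S → ℕ} {n : ℕ}
  {R : T.X → Prop} {p : Kl S} {U : T.X → Set (Kl S)}

theorem exists_bounds [Finite S] (cc : Cc T S) (mu : S → ℕ) : ∃ (Pi : Finset T.ι) (D m : ℕ),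
    (∀ a, a ∈ Pi ↔ ∃ s, a ∈ (cc s).1) ∧ (∀ s, (cc s).2 ≤ D) ∧ ∀ s, mu s ≤ m := by
  classical
  have := Fintype.ofFinite S
  exact ⟨Finset.univ.biUnion fun s => (cc s).1, Finset.univ.sup fun s => (cc s).2,
    Finset.univ.sup mu, fun a => by simp only [Finset.mem_biUnion, Finset.mem_univ, true_and],
    fun s => Finset.le_sup (f := fun s => (cc s).2) (Finset.mem_univ s),
    fun s => Finset.le_sup (Finset.mem_univ s)⟩

theorem mem_fub {Γ Δ : Type} {GG : Set (Set Γ)} {HH : Set (Set Δ)} (h1 : IsUpperSet GG)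
    (h2 : IsUpperSet HH) {A : Set (Γ × Δ)} {G : Set Γ} {H : Γ → Set Δ} (hG : G ∈ GG)
    (hH : ∀ g, H g ∈ HH) (hA : ∀ g ∈ G, ∀ d ∈ H g, (g, d) ∈ A) : A ∈ Fub GG HH :=
  h1 (fun g hg => h2 (fun d hd => hA g hg d hd) (hH g)) hG

/-- the alignment lemma -/
theorem al1 [Finite S] [Finite S'] {Λ Γ : Type} [Finite Λ] [Finite Γ] {E : Ext T univ C Γ}
    {K : E.T'.X → Prop} {GG : Set (Set Γ)} (H : SysP E K GG cc mu n R p) (hC : T.Clo C)
    (hcc : CcIn cc Cᶜ) (g0 : Γ) (e : Λ → S → S') (cc' : Set Λ → Cc T S') (mu' : S' → ℕ)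
    (h1 : ∀ A s', (cc' A s').1 = ∅ ∨ ∃ r ∈ A, ∃ s, e r s = s' ∧ cc' A s' = cc s)
    (h2 : ∀ r s, mu' (e r s) ≤ mu s) {U' : T.X → Set (Kl S')} (hU : MT C U')
    (hP : ∀ᶠ x in T.μ, Pr mu' (U' x)) (q : Kl S') (h3 : q.1 = p.1)
    (h4 : ∀ r s, q.2 (e r s) = p.2 s) :
    ∀ᶠ x in E.T'.μ, K x → q ∈ U' ((E.M g0).pull x) → ∃ G : Λ → Set Γ, (∀ r, G r ∈ GG) ∧
      ∀ g, Al C (cc' {r | g ∈ G r}) mu' U' ((E.M g).pull x) := by
  classical
  have := Fintype.ofFinite S'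
  have := Fintype.ofFinite (Γ × Set Λ)
  choose B m hB hm hcov using fun A : Set Λ => al_block C (cc' A) mu' U'
  by_contra hc
  -- decide the pattern
  have h5 : ∃ᶠ x in E.T'.μ, ∃ f : Γ × Set Λ → Option ℕ,
      (∀ G : Λ → Set Γ, (∀ r, G r ∈ GG) → ∃ g k, f (g, {r | g ∈ G r}) = some k) ∧
      K x ∧ q ∈ U' ((E.M g0).pull x) ∧
        ∀ b : Γ × Set Λ, ∀ k, f b = some k → B b.2 k ((E.M b.1).pull x) := by
    refine ((not_eventually.1 hc).and_eventually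
      (eventually_all.2 fun A => ev_pull E (hcov A))).mono fun x hx => ?_
    obtain ⟨h6, h7⟩ := hx
    push Not at h6
    obtain ⟨hK, hq, h6⟩ := h6
    refine ⟨fun b => if h : ∃ k, B b.2 k ((E.M b.1).pull x) then some h.choose else none,
      fun G hG => ?_, hK, hq, fun b k hk => ?_⟩
    · obtain ⟨g, hg⟩ := h6 G hG
      have h8 := (h7 _ g).resolve_left hg
      exact ⟨g, h8.choose, dif_pos h8⟩
    · dsimp only at hk
      split_ifs at hk with h8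
      exact Option.some.inj hk ▸ h8.choose_spec
  obtain ⟨f, h5⟩ := freq_ex h5
  have hf := h5.exists.choose_spec.1
  have hK1 : Measurable fun x => K x ∧ q ∈ U' ((E.M g0).pull x) ∧
      ∀ b : Γ × Set Λ, ∀ k, f b = some k → B b.2 k ((E.M b.1).pull x) :=
    ((MD.of_meas H.meas).and ((MD.of_meas ((E.M g0).meas_pullD (hU q))).and
      (MD.all fun b : Γ × Set Λ => MD.all fun k => (MD.const _).imp
        (MD.of_meas ((E.M b.1).meas_pullD (hB b.2 k)))))).1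
  obtain ⟨Pi, D, -, hPi, hD, -⟩ := exists_bounds cc mu
  obtain ⟨-, -, m0, -, -, hm0⟩ := exists_bounds (cc' ∅) mu'
  obtain ⟨Δ, _, E2, q', GG2, σ, k0, St, h6, h7⟩ := step_pos E hC hK1 (h5.mono fun x hx => hx.2) Pi
    (fun a ha => by obtain ⟨s, hs⟩ := (hPi a).1 ha; exact hcc s a hs) D (Fintype.card S') m0
    (max 1 (Finset.univ.sup fun b : Γ × Set Λ => m b.2 ((f b).getD 0))) 0
  obtain ⟨d0⟩ := St.lk.nonempty
  -- decide the refinement
  have h8 : ∃ᶠ x in E2.T'.μ, ∃ q1 : Kl S', (Okc mu' q1 ∧ q1.1 = max q.1 k0 ∧ Ref q q1) ∧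
      Sem q' x ∧ q1 ∈ U' ((E.M g0).pull ((E2.M d0).pull x)) := by
    refine (((pos St.val).and_eventually h7).and_eventually
      (ev_pull E2 (ev_pull E hP))).mono fun x hx => ?_
    obtain ⟨q1, h9, h10⟩ := (hx.2 d0 g0 q (hx.1.2 hx.1.1 d0).2.1).2 _ (le_max_left q.1 k0)
    exact ⟨q1, ⟨(hx.2 d0 g0 q1 h9).1, h10⟩, hx.1.1, h9⟩
  obtain ⟨q1, h8⟩ := freq_ex h8
  obtain ⟨ho1, hk1, hr1⟩ := h8.exists.choose_spec.1
  -- the sets of aligned copies
  obtain ⟨x0, ⟨hx0, h9⟩, h10⟩ :=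
    ((h8.and_eventually h7).and_eventually (ev_pull E2 H.copy)).exists
  obtain ⟨d1, hd1⟩ := St.lk.one (le_max_left _ _)
    (St.hi x0 hx0.2.1 S' le_rfl q1.2 fun s => (ho1 s).2.trans (hm0 s))
  obtain ⟨g, A, k, hk, hA⟩ : ∃ g A k, f (g, A) = some k ∧
      ∀ r ∈ A, GoodC cc ((E.M g).pull ((E2.M d1).pull x0)) fun s => q1.2 (e r s) := by
    obtain ⟨g, k, hk⟩ := hf
      (fun r => {g | GoodC cc ((E.M g).pull ((E2.M d1).pull x0)) fun s => q1.2 (e r s)})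
      fun r => h10 d1 (h9 hx0.2.1 d1).1 _ fun s =>
        ⟨by rw [← h3, hr1.2, h4], (ho1 _).2.trans (h2 r s)⟩
    exact ⟨g, _, k, hk, fun r hr => hr⟩
  refine hm A k q1 ⟨ho1, Δ, inferInstance, E.comp E2 fun d => (d, g), fun x => Sem q' x ∧
    q1 ∈ U' ((E.M g0).pull ((E2.M d0).pull x)), GG2, ?_, h8.mono fun x hx => hx.2, St.up,
    St.lk.mono ?_, ?_, ?_⟩
  · exact ((md_sem St.val).and
      (MD.of_meas (((E.M g0).comp (E2.M d0)).meas_pullD (hU q1)))).1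
  · refine le_trans ?_ (le_max_right _ _)
    have := Finset.le_sup (f := fun b : Γ × Set Λ => m b.2 ((f b).getD 0)) (Finset.mem_univ (g, A))
    rwa [hk] at this
  · filter_upwards [h7] with x hx hs d
    exact ⟨(hx hs.1 d).2.2 _ k hk,
      ((E.comp E2 id).md_iff' (d0, g0) (d, g) x (hU q1)).1 hs.2⟩
  · refine Eventually.of_forall fun x hs o ho => St.up (fun d hd s' a ha => ?_)
      (St.hi x hs.1 S' le_rfl o fun s => (ho s).2.trans (hm0 s))
    rcases h1 A s' with h11 | ⟨r, hr, s, rfl, h11⟩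
    · rw [h11] at ha; exact absurd ha (Finset.notMem_empty a)
    rw [h11] at ha ⊢
    have ha' := (hPi a).2 ⟨s, ha⟩
    refine (hd g a ha' _ _ (hD s)).2 ?_
    refine (gd_ofL_tr (k := q1.1) ((h6 g a ha').2.trans (hk1 ▸ le_max_right _ _))
      ((ho _).1.trans (ho1 _).1.symm)).2 ?_
    exact (hd1 g a ha' _ _ (hD s)).1 (hA r hr s a ha)

/-- the alignment lemma for one row -/
theorem al1_one [Finite S] {Γ : Type} [Finite Γ] {E : Ext T univ C Γ}
    {K : E.T'.X → Prop} {GG : Set (Set Γ)} (H : SysP E K GG cc mu n R p) (hC : T.Clo C)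
    (hcc : CcIn cc Cᶜ) (g0 : Γ) (hU : MT C U) (hP : ∀ᶠ x in T.μ, Pr mu (U x)) :
    ∀ᶠ x in E.T'.μ, K x → p ∈ U ((E.M g0).pull x) → ∃ G ∈ GG,
      ∀ g ∈ G, Al C cc mu U ((E.M g).pull x) := by
  classical
  filter_upwards [al1 H hC hcc g0 (Λ := Unit) (fun _ s => s)
    (fun A s => if () ∈ A then cc s else (∅, 0)) mu (fun A s => by
      by_cases h : () ∈ A
      · exact Or.inr ⟨(), h, s, rfl, if_pos h⟩
      · exact Or.inl (by rw [if_neg h])) (fun _ _ => le_rfl) hU hP p rfl fun _ _ => rfl]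
    with x hx h1 h2
  obtain ⟨G, hG, h3⟩ := hx h1 h2
  refine ⟨G (), hG (), fun g hg => ?_⟩
  have := h3 g
  simpa [hg] using this

theorem HS.sub [Finite S] (hC : T.Clo C) (hcc : CcIn cc Cᶜ) (hU : MT C U)
    (hP : ∀ᶠ x in T.μ, Pr mu (U x)) (h0 : ∀ᶠ x in T.μ, R x → ¬ Al C cc mu U x) (hn : 1 ≤ n)
    (H : HS C cc mu n R p) : HS C cc mu n (fun x => R x ∧ p ∉ U x) p := by
  obtain ⟨ho, Γ, _, E, K, GG, H⟩ := H
  refine ⟨ho, Γ, inferInstance, E, K, GG, H.meas, H.pos, H.up, H.lk, ?_, H.copy⟩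
  filter_upwards [H.sub, ev_pull E h0,
    eventually_all.2 fun g => al1_one H hC hcc g hU hP] with x h1 h2 h3 hK g
  refine ⟨h1 hK g, fun h4 => ?_⟩
  obtain ⟨G, hG, h5⟩ := h3 g hK h4
  obtain ⟨g', hg'⟩ := H.lk.one hn hG
  exact h2 g' (h1 hK g') (h5 g' hg')

/-- finitely many points that agree on `C`, with a linked family that serves the listed trees -/
def Pts (C : Set T.ι) (cc : Cc T S) (mu : S → ℕ) (n : ℕ) (R : T.X → Prop) (p : Kl S)
    {I J : Type} (U : I → T.X → Set (Kl S)) (Λ : J → Type)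
    (U' : ∀ j, T.X → Set (Kl (Λ j × S))) : Prop :=
  ∃ (Γ : Type) (_ : Finite Γ) (g0 : Γ) (y : Γ → T.X) (GG : Set (Set Γ)), Linked n GG ∧
    (∀ g, R (y g)) ∧ (∀ g, ∀ a ∈ C, y g a = y g0 a) ∧
    (∀ i, p ∈ U i (y g0) → ∃ G ∈ GG, ∀ g ∈ G, Al C cc mu (U i) (y g)) ∧
    ∀ j, diag (Λ j) p ∈ U' j (y g0) → ∃ G : Λ j → Set Γ, (∀ r, G r ∈ GG) ∧
      ∀ g, Al C (ccRows cc {r | g ∈ G r}) (fun a => mu a.2) (U' j) (y g)

theorem HS.pts [Finite S] {I J : Type} [Countable I] [Countable J] (U : I → T.X → Set (Kl S))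
    (Λ : J → Type) [∀ j, Finite (Λ j)] (U' : ∀ j, T.X → Set (Kl (Λ j × S))) (hC : T.Clo C)
    (hcc : CcIn cc Cᶜ) (h1 : ∀ i, MT C (U i)) (h2 : ∀ i, ∀ᶠ x in T.μ, Pr mu (U i x))
    (h3 : ∀ j, MT C (U' j)) (h4 : ∀ j, ∀ᶠ x in T.μ, Pr (fun a => mu a.2) (U' j x))
    (H : HS C cc mu n R p) : Pts C cc mu n R p U Λ U' := by
  classical
  obtain ⟨-, Γ, _, E, K, GG, H⟩ := H
  obtain ⟨g0⟩ := H.lk.nonempty
  obtain ⟨x, ⟨⟨hK, h5⟩, h6⟩, h7⟩ := (((H.pos.and_eventually H.sub).and_eventually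
    (eventually_countable_forall.2 fun i => al1_one H hC hcc g0 (h1 i) (h2 i))).and_eventually
    (eventually_countable_forall.2 fun j => al1 H hC hcc g0 (fun r s => ((r, s) : Λ j × S))
      (ccRows cc) (fun a => mu a.2) (fun A a => by
        by_cases h : a.1 ∈ A
        · exact Or.inr ⟨a.1, h, a.2, rfl, if_pos h⟩
        · exact Or.inl (by rw [ccRows, if_neg h])) (fun _ _ => le_rfl) (h3 j) (h4 j)
      (diag (Λ j) p) rfl fun _ _ => rfl)).exists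
  exact ⟨Γ, inferInstance, g0, fun g => (E.M g).pull x, GG, H.lk, h5 hK,
    fun g a ha => E.pull_eq g g0 x ⟨ha, trivial⟩, fun i => h6 i hK, fun j => h7 j hK⟩

/-- deciding a deeper class after a step -/
theorem step_refine {Γ Δ : Type} [Finite Γ] [Finite Δ] {E : Ext T univ C Γ} {K : E.T'.X → Prop}
    {GG : Set (Set Γ)} [Finite S] (H : SysP E K GG cc mu n (fun x => R x ∧ p ∈ U x) p)
    {E2 : Ext E.T' univ E.baseD Δ} {q' : E2.T'.Cond} (hq : Val univ q')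
    (h7 : ∀ᶠ x in E2.T'.μ, Sem q' x → ∀ d, K ((E2.M d).pull x)) (hU : MT C U)
    (hP : ∀ᶠ x in T.μ, Pr mu (U x)) (k0 : ℕ) (d0 : Δ) :
    ∃ (q : Kl S) (K' : E2.T'.X → Prop), Okc mu q ∧ k0 ≤ q.1 ∧ Ref p q ∧ Measurable K' ∧
      (∃ᶠ x in E2.T'.μ, K' x) ∧ (∀ x, K' x → Sem q' x) ∧
      (∀ᶠ x in E2.T'.μ, K' x → ∀ d g, R ((E.M g).pull ((E2.M d).pull x)) ∧
        q ∈ U ((E.M g).pull ((E2.M d).pull x))) ∧
      ∀ᶠ x in E2.T'.μ, K' x → ∀ d o, Mem mu q o →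
        {g | GoodC cc ((E.M g).pull ((E2.M d).pull x)) o} ∈ GG := by
  obtain ⟨g0⟩ := H.lk.nonempty
  have h8 : ∃ᶠ x in E2.T'.μ, ∃ q1 : Kl S, (Okc mu q1 ∧ q1.1 = max p.1 k0 ∧ Ref p q1) ∧
      Sem q' x ∧ q1 ∈ U ((E.M g0).pull ((E2.M d0).pull x)) := by
    refine ((((pos hq).and_eventually h7).and_eventually
      (ev_pull E2 (ev_pull E hP))).and_eventually (ev_pull E2 H.sub)).mono fun x hx => ?_
    obtain ⟨q1, h9, h10⟩ :=
      (hx.1.2 d0 g0 p (hx.2 d0 (hx.1.1.2 hx.1.1.1 d0) g0).2).2 _ (le_max_left p.1 k0)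
    exact ⟨q1, ⟨(hx.1.2 d0 g0 q1 h9).1, h10⟩, hx.1.1.1, h9⟩
  obtain ⟨q1, h8⟩ := freq_ex h8
  obtain ⟨ho1, hk1, hr1⟩ := h8.exists.choose_spec.1
  refine ⟨q1, fun x => Sem q' x ∧ q1 ∈ U ((E.M g0).pull ((E2.M d0).pull x)), ho1,
    hk1 ▸ le_max_right _ _, hr1,
    ((md_sem hq).and (MD.of_meas (((E.M g0).comp (E2.M d0)).meas_pullD (hU q1)))).1,
    h8.mono fun x hx => hx.2, fun x hx => hx.1, ?_, ?_⟩
  · filter_upwards [h7, ev_pull E2 H.sub] with x h1 h2 hs d g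
    exact ⟨(h2 d (h1 hs.1 d) g).1, ((E.comp E2 id).md_iff' (d0, g0) (d, g) x (hU q1)).1 hs.2⟩
  · filter_upwards [h7, ev_pull E2 H.copy] with x h1 h2 hs d o ho
    exact h2 d (h1 hs.1 d) o (ho.ref hr1)

theorem HS.slot [Finite S] (c : Finset T.ι × ℕ) (m : ℕ) (hC : T.Clo C) (hc : ∀ a ∈ c.1, a ∉ C)
    (hU : MT C U) (hP : ∀ᶠ x in T.μ, Pr mu (U x))
    (H : HS C cc mu n (fun x => R x ∧ p ∈ U x) p) : ∃ q : Kl S,
      HS C (fun a : Option S => a.elim c cc) (fun a => a.elim m mu) n (fun x => R x ∧ q ∈ U x)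
        (q.1, fun a => a.elim o0 q.2) := by
  obtain ⟨-, Γ, _, E, K, GG, H⟩ := H
  obtain ⟨Δ, _, E2, q', GG2, σ, k0, St, h6, h7⟩ := step_pos E hC H.meas H.pos c.1 hc c.2 1 m n 0
  obtain ⟨d0⟩ := St.lk.nonempty
  obtain ⟨q, K', ho, hk, -, h1, h2, h3, h4, h5⟩ := step_refine H St.val h7 hU hP k0 d0
  refine ⟨q, fun a => ?_, Δ × Γ, inferInstance, E.comp E2 id, K', Fub GG2 GG, h1, h2,
    Fub.upper St.up H.up, Fub.linked St.lk H.lk, h4.mono fun x hx hK b => hx hK b.1 b.2,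
    h5.mono fun x hx hK o hm => ?_⟩
  · rcases a with _ | s
    · exact ⟨far_iff_tr.1 (far_o0 _), Nat.zero_le _⟩
    · exact ho s
  refine mem_fub St.up H.up (St.hi x (h3 x hK) Unit (by simp) (fun _ => o none)
    fun _ => (hm none).2) (fun d => hx hK d (fun s => o (some s)) fun s => hm (some s))
    fun d hd g hg a => ?_
  rcases a with _ | s
  · intro a ha
    refine (hd g a ha () _ le_rfl).2 ((gd_ofL_tr (o' := o0) ((h6 g a ha).2.trans hk) ?_).2
      (Or.inr (good_o0 _ _)))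
    exact (hm none).1.trans (far_iff_tr.1 (far_o0 _)).symm
  · exact hg s

/-- the class `q` is aligned with the stem `σ` at the node `a` -/
def Sta (a : T.ι) (σ : List L) (cc : Cc T S) (q : Kl S) : Prop :=
  bnd σ ≤ q.1 ∧ ∀ s, a ∈ (cc s).1 → T.gd a (ofL σ) (cc s).2 (q.2 s)

theorem HS.boost [Finite S] (a : T.ι) (n0 : ℕ) (hC : T.Clo C) (hcc : CcIn cc Cᶜ) (ha : a ∉ C)
    (hU : MT C U) (hP : ∀ᶠ x in T.μ, Pr mu (U x))
    (H : HS C cc mu 2 (fun x => R x ∧ p ∈ U x) p) : ∃ (σ : List L) (q : Kl S), n0 ≤ σ.length ∧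
      Sta a σ cc q ∧ ∃ᶠ x in T.μ, R x ∧ pre (x a) σ.length = σ ∧
        Al C cc mu (fun x => {r | Ref q r ∧ r ∈ U x}) x := by
  have := Fintype.ofFinite S
  obtain ⟨-, Γ, _, E, K, GG, H⟩ := H
  obtain ⟨-, D, m, -, hD, hm⟩ := exists_bounds cc mu
  obtain ⟨Δ, _, E2, q', GG2, σ, k0, St, h6, h7⟩ := step_pos E hC H.meas H.pos {a}
    (fun b hb => Finset.mem_singleton.1 hb ▸ ha) D (Fintype.card S) m 2 n0
  obtain ⟨d0⟩ := St.lk.nonempty
  obtain ⟨g0⟩ := H.lk.nonempty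
  obtain ⟨q, K', ho, hk, -, h1, h2, h3, h4, h5⟩ := step_refine H St.val h7 hU hP k0 d0
  have ha' := Finset.mem_singleton_self a
  have H' : SysP (E.comp E2 id) K' (Fub GG2 GG) cc mu 2 R q :=
    ⟨h1, h2, Fub.upper St.up H.up, Fub.linked St.lk H.lk,
      h4.mono fun x hx hK b => (hx hK b.1 b.2).1, h5.mono fun x hx hK o hm' =>
        mem_fub St.up H.up (St.hi x (h3 x hK) S le_rfl o fun s => (hm' s).2.trans (hm s))
          (fun d => hx hK d o hm') fun d _ g hg => hg⟩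
  have h8 := al1_one H' hC hcc (d0, g0) (U := fun x => {r | Ref q r ∧ r ∈ U x})
    (fun r => (MD.const _).and (hU r)) (hP.mono fun x hx => pr_above hx q)
  obtain ⟨b, hb⟩ := freq_ex (l := E2.T'.μ) (P := fun (b : Δ × Γ) (x : E2.T'.X) => Sta a (σ b.2 a) cc q ∧
      (fun y => R y ∧ pre (y a) (σ b.2 a).length = σ b.2 a ∧
        Al C cc mu (fun x => {r | Ref q r ∧ r ∈ U x}) y) (((E.comp E2 id).M b).pull x))
    ((((h2.and_eventually h4).and_eventually h5).and_eventually h8).mono fun x hx => by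
      obtain ⟨⟨⟨hK, h9⟩, h10⟩, h11⟩ := hx
      obtain ⟨G, hG, h12⟩ := h11 hK ⟨ho.ref, (h9 hK d0 g0).2⟩
      obtain ⟨b, hb, hb'⟩ := H'.lk.two le_rfl hG (mem_fub (A := {b | ∀ s, a ∈ (cc s).1 →
          T.gd a (ofL (σ b.2 a)) (cc s).2 (q.2 s)}) St.up H.up
        (St.hi x (h3 x hK) S le_rfl q.2 fun s => (ho s).2.trans (hm s))
        (fun d => h10 hK d q.2 ho.mem) fun d hd g hg s hs =>
          (hd g a ha' s _ (hD s)).1 (hg s a hs))
      exact ⟨b, ⟨(h6 _ a ha').2.trans hk, hb'⟩, (h9 hK b.1 b.2).1,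
        St.st x (h3 x hK) b.1 b.2 a ha', h12 b hb⟩)
  exact ⟨σ b.2 a, q, (h6 _ a ha').1, hb.exists.choose_spec.1,
    ((E.comp E2 id).M b).tendsto_univ.frequently (hb.mono fun x hx => hx.2)⟩

end Pool.Agent.MP_e30343_lc.SO

end

-- part MP_e30343_lc.SO.ThmDLift
section

/-! Section 4: raising the level of a system. -/

open Filter Set

namespace Pool.Agent.MP_e30343_lc.SO

open Tpl

variable {T : Tpl} {S : Type} {C B c : Set T.ι} {cc : Cc T S} {mu : S → ℕ} {n : ℕ}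
  {R Q θ : T.X → Prop} {p : Kl S}

theorem val_one {a : T.ι} {τ : List L} {St : T.Suc} (h : T.VS univ a St) :
    Val univ (one a τ St) := ⟨subset_univ _, fun _ hb => Finset.mem_singleton.1 hb ▸ h⟩

theorem sem_one_res {a : T.ι} {τ : List L} {St : T.Suc} (x : T.X) :
    Sem ((one a τ St).res (Iio a)) x := fun b hb => by
  simp only [Cond.res, one, Finset.mem_filter, Finset.mem_singleton, mem_Iio] at hb
  exact absurd hb.2 (hb.1 ▸ lt_irrefl b)

/-- a system over fresh copies of the nodes outside `c` -/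
theorem SysP.over {Γ : Type} [Finite Γ] {E : Ext T univ C Γ} {K : E.T'.X → Prop}
    {GG : Set (Set Γ)} (H : SysP E K GG cc mu n R p) {E' : Ext T univ C Γ}
    {J : Mor (E.res (subset_univ c)).T' univ E'.T'} (O : Over (E.res (subset_univ c)) E' J)
    (hR : MD c R) (hcc : CcIn cc c) {K' : E'.T'.X → Prop} (h1 : Measurable K')
    (h2 : ∃ᶠ x in E'.T'.μ, K' x)
    (h3 : ∀ᶠ x in E'.T'.μ, K' x → K (J.pull x) ∧ ∀ g, Q ((E'.M g).pull x)) :
    SysP E' K' GG cc mu n (fun x => R x ∧ Q x) p := by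
  refine ⟨h1, h2, H.up, H.lk, ?_, ?_⟩
  · filter_upwards [h3, J.tendsto_univ.eventually H.sub] with x h4 h5 hK g
    exact ⟨(O.md_iff g x hR).2 (h5 (h4 hK).1 g), (h4 hK).2 g⟩
  · filter_upwards [h3, J.tendsto_univ.eventually H.copy] with x h4 h5 hK o ho
    exact H.up (fun g hg => (goodC_congr hcc (fun a ha => O.pull g x ha) o).2 hg)
      (h5 (h4 hK).1 o ho)

theorem HS.fav {d : T.ι} {St : T.Suc} (ρ : List L) (hC : T.Clo C) (hBC : B ⊆ C) (hB : TopN B d)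
    (hcc : CcIn cc (Iio d)) (hR : MD (Iio d) R) (hθ : MD B θ) (hSt : T.VS univ d St)
    (H : HS C cc mu n (fun x => R x ∧ Fav B d ρ θ x) p) :
    HS C cc mu n (fun x => R x ∧ Br ρ (St x) (x d) ∧ θ x) p := by
  obtain ⟨ho, Γ, _, E, K, GG, H⟩ := H
  obtain ⟨g0⟩ := H.lk.nonempty
  have : Nonempty Γ := ⟨g0⟩
  obtain ⟨E', J, O⟩ := ext_lemma (isLowerSet_Iio d) hC (E.res (subset_univ _))
  have hd : d ∉ Iio d := lt_irrefl d
  have he : ∀ g, (E'.M g).h d = (E'.M g0).h d := fun g =>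
    (E'.agree g g0 d ⟨hBC hB.2.1, trivial⟩).1
  have hF : MD (Iio d) (Fav B d ρ θ) := fav_md.mono inter_subset_right
  have hK : MD (Iio ((E'.M g0).h d)) fun x => K (J.pull x) :=
    (J.md_pull (MD.of_meas H.meas)).mono (by rintro _ ⟨m, -, rfl⟩; exact O.lt g0 hd m)
  have hv : E'.T'.VS univ ((E'.M g0).h d)
      fun x τ => {e | ∀ g ∈ (univ : Set Γ), e ∈ (E'.M g).pushS d St x τ} :=
    vs_diag (fun g => he g ▸
      ((E'.M g).vs_push (fun _ _ => subset_univ _) Subset.rfl trivial hSt).mono (subset_univ _))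
      (fun _ => univ) fun _ => finite_univ
  have h1 := fav2 (E'.M g0) (subset_univ _) (O.new g0 d hd).1 hB.1.2 hB.1.1 hB.2.1 hB.2.2 hθ hK
    (((J.freq_iff (fun _ _ => subset_univ _) (MD.of_meas H.meas))).2 H.pos)
    ((J.tendsto_univ.eventually H.sub).mono fun x hx hK => (O.md_iff g0 x hF).2 (hx hK g0).2) hv
  have H' := H.over O (Q := fun x => Br ρ (St x) (x d) ∧ θ x) (hR.and hF) hcc
    (hK.univ'.and ((md_br hv trivial ρ).univ'.and (MD.of_meas ((E'.M g0).meas_pullD hθ)))).1 h1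
    (Eventually.of_forall fun x hx => ⟨hx.1, fun g => ⟨?_,
      (E'.md_iff' g0 g x (hθ.mono hBC)).1 hx.2.2⟩⟩)
  · exact HS.mono' (fun x hx => ⟨hx.1.1, hx.2⟩) ⟨ho, Γ, inferInstance, E', _, GG, H'⟩
  · rw [(O.new g d hd).1.pull, he]
    refine hx.2.1.mono fun τ e h => ?_
    have := h g trivial
    rwa [(E'.M g).pushS_unt (O.new g d hd).1] at this

theorem hs_proj {R0 : T.X → Prop} (h0 : MD univ R0) (h0' : ∃ᶠ x in T.μ, R0 x) :
    ∃ F : Finset T.ι, ∀ c, IsLowerSet c → ∃ Rl, MD c Rl ∧ (∃ᶠ x in T.μ, Rl x) ∧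
      (∀ R, MD c R → (∃ᶠ x in T.μ, R x ∧ Rl x) → ∃ᶠ x in T.μ, R x ∧ R0 x) ∧
      ∀ {C B : Set T.ι} {S : Type} {cc : Cc T S} {mu : S → ℕ} {n : ℕ} {R θ : T.X → Prop}
        {p : Kl S}, T.Clo C → B ⊆ C → T.Clo B → (∀ a ∈ F, a ∈ B → a ∈ c) → CcIn cc c → MD c R →
        MD B θ → HS C cc mu n (fun x => R x ∧ Rl x ∧ Proj (B ∩ c) θ x) p →
        HS C cc mu n (fun x => R x ∧ R0 x ∧ θ x) p := by
  obtain ⟨r, hr, -, h1⟩ := bp_long (fun _ _ => subset_univ _) h0 h0' ∅ (subset_univ _) 0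
  refine ⟨r.dom, fun c hc => ?_⟩
  have hl : MD c (Sem (r.res c)) := (md_sem (hr.res_lower hc)).mono inter_subset_right
  refine ⟨Sem (r.res c), hl, pos (hr.res c), fun R hR h => ?_, ?_⟩
  · exact ((amalg hc (hR.and hl) h hr (Eventually.of_forall fun x hx => hx.2)).and_eventually
      h1).mono fun x hx => ⟨hx.1.1.1, hx.2 hx.1.2⟩
  intro C B S cc mu n R θ p hC hBC hB hF hcc hR hθ H
  obtain ⟨ho, Γ, _, E, K, GG, H⟩ := H
  obtain ⟨g0⟩ := H.lk.nonempty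
  have : Nonempty Γ := ⟨g0⟩
  obtain ⟨E', J, O⟩ := ext_lemma hc hC (E.res (subset_univ _))
  have h2 := O.cq hc hB hBC hθ H.meas H.pos g0 (H.sub.mono fun x hx hK => (hx hK g0).2.2) hr
    (fun a ha h3 h4 => h3 (hF a ha h4)) fun g => H.sub.mono fun x hx hK => (hx hK g).2.1
  have H' := H.over O (Q := fun x => R0 x ∧ θ x)
    (hR.and (hl.and ((proj_spec _ _).1.mono inter_subset_right))) hcc
    ((MD.of_meas (J.meas_pullD (MD.of_meas H.meas))).and
      ((MD.of_meas ((E'.M g0).meas_pullD hθ)).and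
        (MD.all fun g => MD.of_meas ((E'.M g).meas_pullD (md_sem hr))))).1 h2
    ((ev_pull E' h1).mono fun x hx h3 => ⟨h3.1, fun g => ⟨hx g (h3.2.2 g),
      (E'.md_iff' g0 g x (hθ.mono hBC)).1 h3.2.1⟩⟩)
  exact HS.mono' (fun x hx => ⟨hx.1.1, hx.2⟩) ⟨ho, Γ, inferInstance, E', _, GG, H'⟩

theorem HS.elim [Finite S] {a : T.ι} {St : T.Suc} {σ : List L} {q : Kl S} (hC : T.Clo C)
    (ha : a ∉ C) (hcc : CcIn cc (Iic a)) (hR : MD (Iio a) R) (hSt : T.VS univ a St)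
    (hq : Sta a σ cc q) (hp : Ref q p)
    (H : HS C (fun s => ((cc s).1.erase a, (cc s).2)) mu n R p) :
    HS C cc mu n (fun x => R x ∧ Br σ (St x) (x a)) p := by
  have := Fintype.ofFinite S
  obtain ⟨ho, Γ, _, E, K, GG, H⟩ := H
  obtain ⟨g0⟩ := H.lk.nonempty
  have : Nonempty Γ := ⟨g0⟩
  obtain ⟨E', J, O⟩ := ext_lemma (isLowerSet_Iio a) hC (E.res (subset_univ _))
  have hd : a ∉ Iio a := lt_irrefl a
  obtain ⟨r, hr, h1, h2⟩ := O.cond (isLowerSet_Iio a) H.meas H.pos (fun _ => one a σ St)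
    (fun _ => val_one hSt) (fun _ _ _ _ _ _ _ => rfl)
    fun g => Eventually.of_forall fun x _ => sem_one_res _
  have H' := H.over O (Q := fun x => Br σ (St x) (x a)) hR (fun s b hb => by
      have := Finset.mem_erase.1 hb
      exact lt_of_le_of_ne (hcc s b this.2) this.1) (md_sem hr).1 (Tpl.pos hr)
    (h2.mono fun x hx h3 => ⟨(hx h3).1, fun g => sem_one.1 ((hx h3).2 g)⟩)
  obtain ⟨-, D, m, -, hD, hm⟩ := exists_bounds cc mu
  have ha' := Finset.mem_singleton_self a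
  obtain ⟨Δ, _, E2, q', GG2, τ, Sp, h6, h7⟩ := step_cond E' hC r hr {a}
    (fun b hb => Finset.mem_singleton.1 hb ▸ ha) (fun g b hb => by
      obtain rfl := Finset.mem_singleton.1 hb
      refine ⟨(h1 g b ha' hd).1, 0, fun i _ => ?_, ?_⟩
      · rw [(O.new g b hd).1, (O.new g b hd).1]
      · rw [(O.new g b hd).1]; exact fun _ _ _ => Iff.rfl) D (Fintype.card S) m n
  refine ⟨ho, Δ × Γ, inferInstance, E'.comp E2 id, Sem q', Fub GG2 GG, (md_sem Sp.val).1,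
    Tpl.pos Sp.val, Fub.upper Sp.up H.up, Fub.linked Sp.lk H.lk, ?_, ?_⟩
  · filter_upwards [ev_pull E2 H'.sub] with x hx hs b
    exact hx b.1 (h7 x hs b.1) b.2
  · filter_upwards [ev_pull E2 H'.sub, ev_pull E2 H'.copy] with x hx hx' hs o hm'
    refine mem_fub Sp.up H.up (Sp.hi x hs S le_rfl o fun s => (hm' s).2.trans (hm s))
      (fun d => hx' d (h7 x hs d) o hm') fun d hd' g hg s b hb => ?_
    by_cases hba : b = a
    · subst hba
      have h8 : τ g b = σ := by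
        rw [← Sp.st x hs d g b ha', h6, (h1 g b ha' hd).2]
        exact (hx d (h7 x hs d) g).2.1
      refine (hd' g b ha' s _ (hD s)).2 ?_
      rw [h8]
      refine (gd_ofL_tr hq.1 ?_).2 (hq.2 s hb)
      rw [((hm'.ref hp) s).1, ← hp.2 s, tr_tr le_rfl]
    · exact hg s b (Finset.mem_erase.2 ⟨hba, hb⟩)

end Pool.Agent.MP_e30343_lc.SO

end

-- part MP_e30343_lc.SO.ThmDApi
section

/-! The calculus of aligned trees, and additive operators. -/

open Filter Set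

namespace Pool.Agent.MP_e30343_lc.SO

open Tpl

variable {T : Tpl} {S S' : Type} {C B c : Set T.ι} {cc : Cc T S} {mu : S → ℕ}
  {R : T.X → Prop} {p : Kl S} {U U0 : T.X → Set (Kl S)}

theorem proj_add (B : Set T.ι) : AddOp T.μ (fun _ => True) (Proj B) where
  mono _ _ _ _ h := (proj_mono (MD.const True) (h.mono fun _ h _ => h)).mono fun _ h => h trivial
  add θ θ' _ _ := by
    have e : (fun y => θ y ∨ θ' y) = fun y => ∃ b : Bool, (bif b then θ else θ') y := by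
      funext y; simp [or_comm]
    rw [e]
    filter_upwards [proj_ex (C := B) fun b : Bool => bif b then θ else θ'] with x hx h
    obtain ⟨b, hb⟩ := hx h
    cases b
    exacts [Or.inr hb, Or.inl hb]
  bot := proj_sub (MD.const False) (Eventually.of_forall fun _ h => h)
  mbot := trivial
  mor _ _ _ _ := trivial

theorem fav_add (B : Set T.ι) (d : T.ι) (ρ : List L) :
    AddOp T.μ (fun _ => True) (Fav B d ρ) where
  mono _ _ _ _ h := (fav_mono (MD.const True) (h.mono fun _ h _ => h)).mono fun _ h => h trivial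
  add θ θ' _ _ := by
    have e : (fun y => θ y ∨ θ' y) = fun y => ∃ b : Bool, (bif b then θ else θ') y := by
      funext y; simp [or_comm]
    rw [e]
    filter_upwards [fav_fin (C := B) (d := d) (ρ := ρ) fun b : Bool => bif b then θ else θ']
      with x hx h
    obtain ⟨b, hb⟩ := hx h
    cases b
    exacts [Or.inr hb, Or.inl hb]
  bot := fav_sub (MD.const False) (Eventually.of_forall fun _ h => h)
  mbot := trivial
  mor _ _ _ _ := trivial

theorem fav_imp {d : T.ι} {ρ : List L} {θ θ' : T.X → Prop} (h : ∀ x, θ x → θ' x) :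
    ∀ᶠ x in T.μ, Fav B d ρ θ x → Fav B d ρ θ' x :=
  (fav_add B d ρ).mono _ _ trivial trivial (Eventually.of_forall h)

theorem mem_pre {y : ℕ → L} {i n : ℕ} (h : i < n) : y i ∈ pre y n :=
  List.mem_ofFn.2 ⟨⟨i, h⟩, rfl⟩

/-- a letter outside the stem can be avoided at a node of kind K -/
theorem fav_range {d : T.ι} {θ : T.X → Prop} (ρ : List L) (hK : T.isK d) (j : L)
    (h' : ∀ᶠ x in T.μ, θ x → ∃ i, x d i = j) : ∀ᶠ x in T.μ, Fav B d ρ θ x → j ∈ ρ := by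
  by_cases hj : j ∈ ρ
  · exact Eventually.of_forall fun _ _ => hj
  have hv : T.VS B d fun _ _ => {e | e ∉ ({j} : Set L)} :=
    vs_K hK (fun _ _ => MD.const _) fun _ _ => k3_finite (gen_inj 0) (finite_singleton j)
  refine ((fav_spec B d ρ θ).2.2 _ _ (MD.const True) hv
    (h'.mono fun x hx _ hb ht => ?_)).mono fun x hx hf => absurd hf (hx trivial)
  obtain ⟨i, hi⟩ := hx ht
  rcases lt_or_ge i ρ.length with h1 | h1
  · exact hj (hb.1 ▸ hi ▸ mem_pre h1)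
  · exact hb.2 i h1 hi

theorem split_top {d : T.ι} (hR : MD (Iic d) R) (h : ∃ᶠ x in T.μ, R x) :
    ∃ R' ρ St, MD (Iio d) R' ∧ (∃ᶠ x in T.μ, R' x) ∧ T.VS univ d St ∧
      ∀ᶠ x in T.μ, R' x → Br ρ (St x) (x d) → R x := by
  obtain ⟨r, hr, h1, h2⟩ := bp_long (clo_lower (isLowerSet_Iic d)) hR h {d}
    (by simp) 0
  have hd := (h1 d (Finset.mem_singleton_self d)).1
  have hr' := hr.mono (subset_univ _)
  refine ⟨Sem (r.res (Iio d)), r.st d, r.S d,
    (md_sem (hr'.res_lower (isLowerSet_Iio d))).mono inter_subset_right, pos (hr'.res _),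
    hr'.2 d hd, h2.mono fun x hx h3 h4 => hx fun a ha => ?_⟩
  rcases (show a ≤ d from hr.1 ha).lt_or_eq with h5 | rfl
  · exact h3 a (by simp only [Cond.res, Finset.mem_filter, mem_Iio]; exact ⟨ha, h5⟩)
  · exact h4

theorem amalg_one {d : T.ι} {St : T.Suc} (ρ : List L) (hR : MD (Iio d) R) (hS : T.VS univ d St)
    (h : ∃ᶠ x in T.μ, R x) : ∃ᶠ x in T.μ, R x ∧ Br ρ (St x) (x d) :=
  (amalg (isLowerSet_Iio d) hR h (val_one (τ := ρ) hS)
    (Eventually.of_forall fun x _ => sem_one_res x)).mono fun _ hx => ⟨hx.1, sem_one.1 hx.2⟩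

/-- slot maps, weaker constraints, larger trees -/
theorem al_map {cc' : Cc T S'} {mu' : S' → ℕ} {U' : T.X → Set (Kl S')} (j : S' → S)
    (hj : Function.Injective j)
    (hc : ∀ s, (cc' s).1 ⊆ (cc (j s)).1 ∧ (cc' s).2 ≤ (cc (j s)).2) (hm : ∀ s, mu' s = mu (j s))
    (hR : MD univ R)
    (hT : ∀ p, ∀ᶠ x in T.μ, R x → p ∈ U x → ((p.1, fun s => p.2 (j s)) : Kl S') ∈ U' x) :
    ∀ᶠ x in T.μ, R x → Al C cc mu U x → Al C cc' mu' U' x := by
  have := hs_al (C := C) (cc := cc') (mu := mu') (U := U')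
    (hR.and (al_md C cc mu U)) fun R' h1 h2 h3 n => by
      obtain ⟨p, hp⟩ := al_hs n h1 (h3.mono fun x hx => ⟨hx, (h2 x hx).2⟩)
      exact ⟨_, (hp.map j hj hc hm).mono le_rfl
        ((hT p).mono fun x hx h4 => ⟨h4.1, hx (h2 x h4.1).1 h4.2⟩)⟩
  exact this.mono fun x hx h1 h2 => hx ⟨h1, h2⟩

theorem al_mono {U' : T.X → Set (Kl S)} (hR : MD univ R)
    (hT : ∀ p, ∀ᶠ x in T.μ, R x → p ∈ U x → p ∈ U' x) :
    ∀ᶠ x in T.μ, R x → Al C cc mu U x → Al C cc mu U' x :=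
  al_map id Function.injective_id (fun _ => ⟨Finset.Subset.refl _, le_rfl⟩) (fun _ => rfl) hR hT

/-- an event that holds whenever the tree is nonempty holds on the aligned set -/
theorem al_sub_ev {Q : T.X → Prop} (hQ : MD univ Q) (h : ∀ p, ∀ᶠ x in T.μ, p ∈ U x → Q x) :
    ∀ᶠ x in T.μ, Al C cc mu U x → Q x := by
  refine ev_of_not_freq fun hf => ?_
  obtain ⟨p, hp⟩ := al_hs 0 hQ.not (hf.mono fun x hx => ⟨hx.2, hx.1⟩)
  obtain ⟨x, hx, h'⟩ := (hp.pos.and_eventually (h p)).exists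
  exact hx.1 (h' hx.2)

/-- a system meets the aligned set of one of countably many pruned trees -/
theorem HS.hit [Finite S] {I : Type} [Countable I] (U : I → T.X → Set (Kl S)) (hC : T.Clo C)
    (hc : CcIn cc Cᶜ) (hm : ∀ i, MT C (U i)) (hp : ∀ i, ∀ᶠ x in T.μ, Pr mu (U i x))
    (hR : ∀ᶠ x in T.μ, R x → ∃ i, p ∈ U i x) (h : HS C cc mu 1 R p) :
    ∃ i, ∃ᶠ x in T.μ, R x ∧ Al C cc mu (U i) x := by
  by_contra hn
  have h1 : ∀ᶠ x in T.μ, ∀ i, ¬ (R x ∧ Al C cc mu (U i) x) :=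
    eventually_countable_forall.2 fun i => not_frequently.1 fun h' => hn ⟨i, h'⟩
  have h2 := h.mono (R' := fun x => R x ∧ (∃ i, p ∈ U i x) ∧ ∀ i, ¬ Al C cc mu (U i) x)
    le_rfl (by
      filter_upwards [h1, hR] with x h3 h4 h5
      exact ⟨h5, h4 h5, fun i hi => h3 i ⟨h5, hi⟩⟩)
  obtain ⟨Γ, _, g0, y, GG, hL, hy, -, hT, -⟩ := h2.pts U (J := Empty) (fun _ => Empty)
    (fun j => j.elim) hC hc hm hp (fun j => j.elim) (fun j => j.elim)
  obtain ⟨i, hi⟩ := (hy g0).2.1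
  obtain ⟨G, hG, hA⟩ := hT i hi
  obtain ⟨g, hg⟩ := hL.one le_rfl hG
  exact (hy g).2.2 i (hA g hg)

/-- countable additivity -/
theorem al_cover [Finite S] {I : Type} [Countable I] (U : I → T.X → Set (Kl S)) (hC : T.Clo C)
    (hc : CcIn cc Cᶜ) (hm : ∀ i, MT C (U i)) (hp : ∀ i, ∀ᶠ x in T.μ, Pr mu (U i x))
    (hR : MD univ R) (hT : ∀ p, ∀ᶠ x in T.μ, R x → p ∈ U0 x → ∃ i, p ∈ U i x)
    (h : ∃ᶠ x in T.μ, R x ∧ Al C cc mu U0 x) : ∃ i, ∃ᶠ x in T.μ, R x ∧ Al C cc mu (U i) x := by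
  obtain ⟨p, hp'⟩ := al_hs 1 hR h
  obtain ⟨i, hi⟩ := hp'.hit U hC hc hm hp ((hT p).mono fun x hx h1 => hx h1.1 h1.2)
  exact ⟨i, hi.mono fun x hx => ⟨hx.1.1, hx.2⟩⟩

/-- removing a tree whose aligned set is null -/
theorem al_diff [Finite S] (hC : T.Clo C) (hc : CcIn cc Cᶜ) (hm : MT C U)
    (hp : ∀ᶠ x in T.μ, Pr mu (U x)) (hR : MD univ R)
    (h0 : ∀ᶠ x in T.μ, R x → ¬ Al C cc mu U x) :
    ∀ᶠ x in T.μ, R x → Al C cc mu U0 x → Al C cc mu (fun x => U0 x \ U x) x := by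
  have := hs_al (C := C) (cc := cc) (mu := mu) (U := fun x => U0 x \ U x)
    (hR.and (al_md C cc mu U0)) fun R' h1 h2 h3 n => by
      obtain ⟨p, hp'⟩ := al_hs (max n 1) h1 (h3.mono fun x hx => ⟨hx, (h2 x hx).2⟩)
      exact ⟨p, (hp'.sub hC hc hm hp (h0.mono fun x hx h4 => hx (h2 x h4.1).1)
        (le_max_right _ _)).mono (le_max_left _ _)
        (Eventually.of_forall fun x hx => ⟨hx.1.1, hx.1.2, hx.2⟩)⟩
  exact this.mono fun x hx h1 h2 => hx ⟨h1, h2⟩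

/-- alignment is decided at the level of the tree and the constraints -/
theorem al_loc (hC : T.Clo C) (hc : IsLowerSet c) (hcc : CcIn cc c) (hm : MT c U)
    (h : ∀ᶠ x in T.μ, R x → Al C cc mu U x) : ∀ᶠ x in T.μ, Proj c R x → Al C cc mu U x := by
  refine hs_al (proj_spec c R).1.univ' fun R' h1 h2 h3 n => ?_
  obtain ⟨F, hF⟩ := hs_proj h1 h3
  obtain ⟨Rl, hl1, hl2, hl3, hl4⟩ := hF c hc
  have h4 : ∀ᶠ x in T.μ, Rl x → Proj c R x := ev_of_not_freq fun hf => by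
    obtain ⟨x, hx⟩ := (hl3 _ (proj_spec c R).1.not (hf.mono fun x hx => ⟨hx.2, hx.1⟩)).exists
    exact hx.1 (h2 x hx.2)
  have h5 := proj_pos hl1 ((hl2.and_eventually h4).mono fun x hx => ⟨hx.1, hx.2 hx.1⟩)
  obtain ⟨p, hp⟩ := al_hs (U := U) n hl1.univ'
    ((h5.and_eventually h).mono fun x hx => ⟨hx.1.1, hx.2 hx.1.2⟩)
  refine ⟨p, (hl4 (B := ∅) (θ := fun _ => True) (R := fun x => p ∈ U x) hC (empty_subset _)
      (fun n hn => hn.elim) (fun n _ hn => hn.elim) hcc (hm p) (MD.const _)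
      (hp.mono le_rfl ?_)).mono' fun x hx => ⟨hx.2.1, hx.1⟩⟩
  exact (proj_spec (∅ ∩ c) fun _ => True).2.1.mono fun x hx h6 => ⟨h6.2, h6.1, hx trivial⟩

/-- a positive aligned event can be replaced by one that is decided at the given level -/
theorem al_shrink {W Q : T.X → Prop} (hC : T.Clo C) (hc : IsLowerSet c) (hcc : CcIn cc c)
    (hm : MT c U) (hQ : MD c Q) (h : ∃ᶠ x in T.μ, W x ∧ Al C cc mu U x)
    (hWQ : ∀ᶠ x in T.μ, W x → Q x) :
    ∃ R, MD c R ∧ (∃ᶠ x in T.μ, R x) ∧ (∀ x, R x → Q x) ∧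
      ∀ᶠ x in T.μ, R x → Al C cc mu U x := by
  have h1 := proj_spec c fun x => W x ∧ Al C cc mu U x
  refine ⟨fun x => Q x ∧ Proj c (fun x => W x ∧ Al C cc mu U x) x, hQ.and h1.1, ?_,
    fun x hx => hx.1, (al_loc hC hc hcc hm (Eventually.of_forall fun x hx => hx.2)).mono
      fun x hx h1 => hx h1.2⟩
  refine ((h.and_eventually hWQ).and_eventually h1.2.1).mono fun x hx => ?_
  exact ⟨hx.1.2 hx.1.1.1, hx.2 hx.1.1⟩

/-- a slot that follows a fixed object meets its constraint -/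
theorem al_real (s : S) (o : Obj) (ho : o.2.card ≤ mu s) (hT : ∀ x, ∀ p ∈ U x, p.2 s = tr p.1 o) :
    ∀ᶠ x in T.μ, Al C cc mu U x → T.GoodP (cc s).1 (cc s).2 x o := by
  refine ev_of_not_freq fun hf => ?_
  obtain ⟨p, hp⟩ := al_hs 1 (md_goodP (subset_univ _) _ _).not (hf.mono fun x hx => ⟨hx.2, hx.1⟩)
  obtain ⟨x, hx⟩ := hp.pos.exists
  obtain ⟨z, hz⟩ := (hp.real s o ho (hT x p hx.2)).exists
  exact hz.1.1 hz.2

/-- a new slot with the empty class -/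
theorem al_slot [Finite S] {U' : T.X → Set (Kl (Option S))} (c : Finset T.ι × ℕ) (m : ℕ)
    (hC : T.Clo C) (hc : ∀ a ∈ c.1, a ∉ C) (hm : MT C U) (hp : ∀ᶠ x in T.μ, Pr mu (U x))
    (hT : ∀ q, ∀ᶠ x in T.μ, q ∈ U x → ((q.1, fun a => a.elim o0 q.2) : Kl (Option S)) ∈ U' x) :
    ∀ᶠ x in T.μ, Al C cc mu U x →
      Al C (fun a : Option S => a.elim c cc) (fun a => a.elim m mu) U' x :=
  hs_al (al_md C cc mu U) fun R' h1 h2 h3 n => by
    obtain ⟨p, hp'⟩ := al_hs n h1 (h3.mono fun x hx => ⟨hx, h2 x hx⟩)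
    obtain ⟨q, hq⟩ := hp'.slot c m hC hc hm hp
    exact ⟨_, hq.mono le_rfl ((hT q).mono fun x hx h4 => ⟨h4.1, hx h4.2⟩)⟩

/-- no slots -/
theorem al_triv [IsEmpty S] (hm : MT univ U) :
    ∀ᶠ x in T.μ, (∃ p, p ∈ U x) → Al C cc mu U x := by
  refine hs_al (MD.ex hm) fun R' h1 h2 h3 n => ?_
  obtain ⟨p, hp⟩ := freq_ex' h3 (Eventually.of_forall h2)
  exact ⟨p, hs_triv n p (h1.and (hm p)) hp⟩

/-- raising through a favoured event -/
theorem al_fav [Finite S] {d : T.ι} {St : T.Suc} {I : Type} [Countable I] (ρ : List L)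
    (U : I → T.X → Set (Kl S)) (θ : Kl S → T.X → Prop) (hC : T.Clo C) (hBC : B ⊆ C) (hB : TopN B d)
    (hc : CcIn cc Cᶜ) (hc' : CcIn cc (Iio d)) (hR : MD (Iio d) R) (hSt : T.VS univ d St)
    (hθ : ∀ p, MD B (θ p)) (hm : ∀ i, MT C (U i)) (hp : ∀ i, ∀ᶠ x in T.μ, Pr mu (U i x))
    (h1 : ∀ p, ∀ᶠ x in T.μ, R x → p ∈ U0 x → Fav B d ρ (θ p) x)
    (h2 : ∀ p, ∀ᶠ x in T.μ, θ p x → ∃ i, p ∈ U i x)
    (h : ∃ᶠ x in T.μ, R x ∧ Al C cc mu U0 x) :
    ∃ i, ∃ᶠ x in T.μ, R x ∧ Br ρ (St x) (x d) ∧ Al C cc mu (U i) x := by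
  obtain ⟨p, hp'⟩ := al_hs 1 hR.univ' h
  obtain ⟨i, hi⟩ := (HS.fav ρ hC hBC hB hc' hR (hθ p) hSt (hp'.mono le_rfl
    ((h1 p).mono fun x hx h3 => ⟨h3.1, hx h3.1 h3.2⟩))).hit U hC hc hm hp
    ((h2 p).mono fun x hx h3 => hx h3.2.2)
  exact ⟨i, hi.mono fun x hx => ⟨hx.1.1, hx.1.2.1, hx.2⟩⟩

end Pool.Agent.MP_e30343_lc.SO

end

-- part MP_e30343_lc.SO.ThmDFam
section

/-! Section 5: families of trees, the derived families, the trichotomy at a node. -/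

open Filter Set

namespace Pool.Agent.MP_e30343_lc.SO

open Tpl

variable {T : Tpl}

/-- defining property of the measurable version of positivity -/
def PMP (B : Set T.ι) (d : T.ι) (i : ℕ) (H : T.X → L → Prop) (N : T.X → Prop) : Prop :=
  MD (B ∩ Iio d) N ∧ (∀ x, (∃ᶠ e in T.FF ((B ∩ Iio d) \ T.supp d) d x i, H x e) → N x) ∧
    ∀ᶠ x in T.μ, N x → ∃ᶠ e in T.FF ((B ∩ Iio d) \ T.supp d) d x i, H x e

/-- measurable version of positivity -/
noncomputable def PM (B : Set T.ι) (d : T.ι) (i : ℕ) (H : T.X → L → Prop) : T.X → Prop :=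
  Classical.epsilon (PMP B d i H)

theorem TopN.supp {B : Set T.ι} {d : T.ι} (h : TopN B d) : T.supp d ⊆ B ∩ Iio d :=
  fun m hm => ⟨h.1.2 d h.2.1 hm, T.supp_lt d m hm⟩

theorem pm_spec {B : Set T.ι} {d : T.ι} (h : TopN B d) (i : ℕ) {H : T.X → L → Prop}
    (hH : ∀ e, MD (B ∩ Iio d) fun x => H x e) : PMP B d i H (PM B d i H) :=
  Classical.epsilon_spec (pos_meas T.μ (h.1.1.mono (sdiff_subset.trans inter_subset_left))
    sdiff_subset h.supp i H hH)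

theorem CC.inter {B c : Set T.ι} (h : CC B) (hc : IsLowerSet c) : CC (B ∩ c) :=
  ⟨h.1.mono inter_subset_left, h.2.inter (clo_lower hc)⟩

theorem md_bas {B : Set T.ι} {d : T.ι} {π : Finset T.ι} (h1 : T.supp d ⊆ B) (h2 : ↑π ⊆ B)
    (i k : ℕ) (e : L) : MD B fun x => T.Bas d x i π k e :=
  ((T.dm_md d i _).mono h1).and ((MD.const _).and (md_goodP h2 _ _))

theorem md_range {B : Set T.ι} {α : T.ι} (h : α ∈ B) (s : Finset L) :
    MD B fun x => ∀ j ∈ s, ∃ i, x α i = j :=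
  MD.all fun j => (MD.const _).imp (MD.ex fun i => MD.letter h i (· = j))

/-- families of trees -/
structure Fam (T : Tpl) : Type 1 where
  S : Type
  fin : Finite S
  I : Type
  cnt : Countable I
  w : I → Finset L
  U : I → T.X → Set (Kl S)
  sup : Set T.ι
  mu : S → ℕ
  M : ℕ

namespace Fam

instance (F : Fam T) : Finite F.S := F.fin
instance (F : Fam T) : Countable F.I := F.cnt

variable (F : Fam T)

/-- admissible families -/
structure OK (α : T.ι) : Prop where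
  cc : CC F.sup
  mem : α ∈ F.sup
  mt : ∀ m, MT F.sup (F.U m)
  pr : ∀ m, ∀ᶠ x in T.μ, Pr F.mu (F.U m x)
  rg : ∀ m p, ∀ᶠ x in T.μ, p ∈ F.U m x → (F.w m).card ≤ F.M ∧ ∀ j ∈ F.w m, ∃ i, x α i = j

/-- the limit tree -/
def Inf (x : T.X) : Set (Kl F.S) := {p | ∀ u : Finset L, ∃ m, Disjoint (F.w m) u ∧ p ∈ F.U m x}

/-- some member contains `s` and is otherwise far -/
def Ev (s u : Finset L) (p : Kl F.S) (y : T.X) : Prop :=
  ∃ m, (s ⊆ F.w m ∧ Disjoint (F.w m \ s) u) ∧ p ∈ F.U m y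

/-- the tree of a position -/
def Ps (d : T.ι) (ρ : List L) (s : Finset L) (x : T.X) : Set (Kl F.S) :=
  {p | ∀ u, Fav F.sup d ρ (F.Ev s u p) x}

/-- the position can be enlarged by a far set -/
def Hot (d : T.ι) (ρ : List L) (s u : Finset L) (p : Kl F.S) (x : T.X) : Prop :=
  ∃ s' : Finset L, (s'.Nonempty ∧ Disjoint s' u) ∧ p ∈ F.Ps d ρ (s ∪ s') x

/-- positively many successors can be enlarged -/
def Pc (d : T.ι) (ρ : List L) (s : Finset L) (x : T.X) : Set (Kl F.S) :=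
  {p | ∀ u, PM F.sup d ρ.length (fun x e => F.Hot d (ρ ++ [e]) s u p x) x}

/-- the strong form -/
def Pk (d : T.ι) (ρ : List L) (s : Finset L) (p : Kl F.S) (x : T.X) : Prop :=
  ∃ u1, PM F.sup d ρ.length (fun x e => F.Hot d (ρ ++ [e]) s u1 p x) x ∧ ∀ u, ¬ PM F.sup d ρ.length
    (fun x e => F.Hot d (ρ ++ [e]) s u1 p x ∧ ¬ F.Hot d (ρ ++ [e]) s u p x) x

/-- the strong form occurs along the generic branch -/
def Oc (d : T.ι) (ρ : List L) (s : Finset L) (p : Kl F.S) (y : T.X) : Prop :=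
  ∃ τ, ρ <+: τ ∧ pre (y d) τ.length = τ ∧ F.Pk d τ s p y

/-- a member with word set exactly `s` is favoured -/
def Ta (d : T.ι) (ρ : List L) (s : Finset L) (x : T.X) : Set (Kl F.S) :=
  {p | Fav F.sup d ρ (fun y => p ∈ {p | ∃ m : {m // F.w m = s}, p ∈ F.U m y}) x}

/-- projection -/
noncomputable def proj (B : Set T.ι) : Fam T :=
  { F with U := fun m x => {p | Proj B (fun y => p ∈ F.U m y) x}, sup := B }

/-- the parts above a class -/
def above (q : Kl F.S) : Fam T := { F with U := fun m x => {r | Ref q r ∧ r ∈ F.U m x} }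

/-- enlargements at the same stem -/
def stepB (d : T.ι) (ρ : List L) (s : Finset L) : Fam T :=
  { F with
    I := {s' : Finset L // s'.Nonempty}, cnt := inferInstance, w := fun i => i.1,
    U := fun i => F.Ps d ρ (s ∪ i.1), sup := F.sup ∩ Iio d }

/-- enlargements at a successor, kind Y -/
def stepY (d : T.ι) (ρ : List L) (s : Finset L) (k : ℕ) (π : Finset T.ι) : Fam T where
  S := Option F.S
  fin := inferInstance
  I := L × {s' : Finset L // s'.Nonempty}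
  cnt := inferInstance
  w i := i.2.1
  U i x := {p | T.Bas d x ρ.length π k i.1 ∧ p ∈ {p : Kl (Option F.S) | p.2 none = tr p.1 i.1.ob ∧
    ((p.1, fun a => p.2 (some a)) : Kl F.S) ∈ F.Ps d (ρ ++ [i.1]) (s ∪ i.2.1) x}}
  sup := T.clo ((F.sup ∩ Iio d) ∪ π)
  mu a := a.elim (2 ^ ρ.length) F.mu
  M := F.M

/-- lists of enlargements at successors, kind K -/
noncomputable def stepK (d : T.ι) (ρ : List L) (s E Q : Finset L) : Fam T where
  S := Q × F.S
  fin := inferInstance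
  I := L × (Q → L × Finset L)
  cnt := inferInstance
  w i := Finset.univ.biUnion fun r => (i.2 r).2
  U i x := {p | (∀ r : Q, (∃ ε ∈ E, ε⁻¹ * r * i.1 = (i.2 r).1) ∧ (i.2 r).2.Nonempty) ∧
    p ∈ {p : Kl (Q × F.S) | ∀ r, ((p.1, fun a => p.2 (r, a)) : Kl F.S) ∈
      F.Ps d (ρ ++ [(i.2 r).1]) (s ∪ (i.2 r).2) x}}
  sup := F.sup ∩ Iio d
  mu a := F.mu a.2
  M := Q.card * F.M

variable {F} {α d : T.ι}

theorem mt_inf {B : Set T.ι} (h : ∀ m, MT B (F.U m)) : MT B F.Inf :=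
  fun p => MD.all fun _ => MD.ex fun m => (MD.const _).and (h m p)

theorem OK.pr_all (h : F.OK α) : ∀ᶠ x in T.μ, ∀ m, Pr F.mu (F.U m x) :=
  eventually_countable_forall.2 h.pr

theorem OK.pr_inf (h : F.OK α) : ∀ᶠ x in T.μ, Pr F.mu (F.Inf x) :=
  h.pr_all.mono fun x hx => pr_forall
    (T := fun u => {p | ∃ m, p ∈ {p | Disjoint (F.w m) u ∧ p ∈ F.U m x}})
    (fun _ _ e _ hp => hp.imp fun _ hm => ⟨hm.1.mono_right e, hm.2⟩)
    fun _ => pr_exists fun m => pr_and _ fun _ => hx m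

theorem mt_ps (ρ : List L) (s : Finset L) : MT (F.sup ∩ Iio d) (F.Ps d ρ s) :=
  fun _ => MD.all fun _ => fav_md

theorem md_hot (ρ : List L) (s u : Finset L) (p : Kl F.S) : MD (F.sup ∩ Iio d) (F.Hot d ρ s u p) :=
  MD.ex fun _ => (MD.const _).and (mt_ps ρ _ p)

theorem OK.pr_ps (h : F.OK α) (ρ : List L) (s : Finset L) :
    ∀ᶠ x in T.μ, Pr F.mu (F.Ps d ρ s x) := by
  have h1 : ∀ u, ∀ᶠ x in T.μ, Pr F.mu {p | Fav F.sup d ρ (F.Ev s u p) x} := fun u =>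
    (fav_add F.sup d ρ).pr (T := fun y => {p | ∃ m, p ∈ {p | (s ⊆ F.w m ∧
      Disjoint (F.w m \ s) u) ∧ p ∈ F.U m y}}) (fun _ => trivial)
      (h.pr_all.mono fun x hx => pr_exists fun m => pr_and _ fun _ => hx m)
  have h2 : ∀ (u u' : Finset L) (p : Kl F.S), ∀ᶠ x in T.μ, u ⊆ u' →
      Fav F.sup d ρ (F.Ev s u' p) x → Fav F.sup d ρ (F.Ev s u p) x := fun u u' p => by
    by_cases e : u ⊆ u'
    · exact (fav_imp fun y hy => hy.imp fun m hm => ⟨⟨hm.1.1, hm.1.2.mono_right e⟩, hm.2⟩).mono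
        fun x hx _ => hx
    · exact Eventually.of_forall fun _ h => absurd h e
  filter_upwards [eventually_countable_forall.2 h1, eventually_countable_forall.2 fun u =>
    eventually_countable_forall.2 fun u' => eventually_countable_forall.2 (h2 u u')] with x h3 h4
  exact pr_forall (T := fun u => {p | Fav F.sup d ρ (F.Ev s u p) x})
    (fun u u' e p hp => h4 u u' p e hp) h3

theorem OK.pr_ps_all (h : F.OK α) : ∀ᶠ x in T.μ, ∀ ρ s, Pr F.mu (F.Ps d ρ s x) :=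
  eventually_countable_forall.2 fun ρ => eventually_countable_forall.2 (h.pr_ps ρ)

theorem OK.ps_card (h : F.OK α) (ρ : List L) (s : Finset L) (p : Kl F.S) :
    ∀ᶠ x in T.μ, p ∈ F.Ps d ρ s x → s.card ≤ F.M := by
  refine (fav_sub (θ := F.Ev s ∅ p) (MD.const _) ?_).mono fun x hx hp => hx (hp ∅)
  filter_upwards [eventually_countable_forall.2 fun m => h.rg m p] with y hy ⟨m, h1, h2⟩
  exact (Finset.card_le_card h1.1).trans (hy m h2).1

theorem OK.ps_rg (h : F.OK α) (hd : α < d) (ρ : List L) (s : Finset L) (p : Kl F.S) :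
    ∀ᶠ x in T.μ, p ∈ F.Ps d ρ s x → ∀ j ∈ s, ∃ i, x α i = j := by
  refine (fav_sub (θ := F.Ev s ∅ p) (md_range (mem_inter h.mem hd) s) ?_).mono fun x hx hp => hx (hp ∅)
  filter_upwards [eventually_countable_forall.2 fun m => h.rg m p] with y hy ⟨m, h1, h2⟩ j hj
  exact (hy m h2).2 j (h1.1 hj)

theorem OK.ps_stem (h : F.OK α) (hK : T.isK α) (ρ : List L) (s : Finset L) (p : Kl F.S) :
    ∀ᶠ x in T.μ, p ∈ F.Ps α ρ s x → ∀ j ∈ s, j ∈ ρ := by
  have h1 : ∀ j ∈ s, ∀ᶠ x in T.μ, Fav F.sup α ρ (F.Ev s ∅ p) x → j ∈ ρ := fun j hj => by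
    refine fav_range ρ hK j ?_
    filter_upwards [eventually_countable_forall.2 fun m => h.rg m p] with y hy ⟨m, h1, h2⟩
    exact (hy m h2).2 j (h1.1 hj)
  filter_upwards [(eventually_all_finset s).2 h1] with x hx hp j hj
  exact hx j hj (hp ∅)

theorem mt_pc (ht : TopN F.sup d) (ρ : List L) (s : Finset L) : MT (F.sup ∩ Iio d) (F.Pc d ρ s) :=
  fun p => MD.all fun u => (pm_spec ht _ fun _ => md_hot _ s u p).1

theorem md_pk (ht : TopN F.sup d) (ρ : List L) (s : Finset L) (p : Kl F.S) :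
    MD (F.sup ∩ Iio d) (F.Pk d ρ s p) :=
  MD.ex fun u1 => (pm_spec ht _ fun _ => md_hot _ s u1 p).1.and (MD.all fun u =>
    (pm_spec ht _ fun _ => (md_hot _ s u1 p).and (md_hot _ s u p).not).1.not)

theorem md_oc (ht : TopN F.sup d) (ρ : List L) (s : Finset L) (p : Kl F.S) :
    MD F.sup (F.Oc d ρ s p) :=
  MD.ex fun τ => (MD.const _).and ((MD.word ht.2.1 _ (φ := fun σ _ => σ = τ)
    fun _ => MD.const _).and ((md_pk ht τ s p).mono inter_subset_left))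

theorem pc_iff (ht : TopN F.sup d) (ρ : List L) (s : Finset L) : ∀ᶠ x in T.μ, ∀ p,
    p ∈ F.Pc d ρ s x ↔ ∀ u, ∃ᶠ e in T.FF ((F.sup ∩ Iio d) \ T.supp d) d x ρ.length,
      F.Hot d (ρ ++ [e]) s u p x := by
  filter_upwards [eventually_countable_forall.2 fun p => eventually_countable_forall.2 fun u =>
    (pm_spec ht ρ.length fun e => md_hot (ρ ++ [e]) s u p).2.2] with x hx p
  exact forall_congr' fun u => ⟨hx p u, (pm_spec ht _ fun _ => md_hot _ s u p).2.1 x⟩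

theorem OK.pr_pc (h : F.OK α) (ht : TopN F.sup d) (ρ : List L) (s : Finset L) :
    ∀ᶠ x in T.μ, Pr F.mu (F.Pc d ρ s x) := by
  filter_upwards [pc_iff ht ρ s, h.pr_ps_all (d := d)] with x h1 h2
  rw [show F.Pc d ρ s x = _ from Set.ext h1]
  exact pr_forall (T := fun u => {p | ∃ᶠ e in T.FF ((F.sup ∩ Iio d) \ T.supp d) d x ρ.length,
    p ∈ {p | ∃ s' : Finset L, p ∈ {p | (s'.Nonempty ∧ Disjoint s' u) ∧
      p ∈ F.Ps d (ρ ++ [e]) (s ∪ s') x}}})
    (fun _ _ e _ hp => Frequently.mono hp fun _ he => he.imp fun _ hm =>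
      ⟨⟨hm.1.1, hm.1.2.mono_right e⟩, hm.2⟩)
    fun _ => pr_frequently _ fun _ => pr_exists fun _ => pr_and _ fun _ => h2 _ _

theorem pk_elim (ht : TopN F.sup d) (ρ : List L) (s : Finset L) (p : Kl F.S) :
    ∀ᶠ x in T.μ, F.Pk d ρ s p x → ∃ u1,
      (∃ᶠ e in T.FF ((F.sup ∩ Iio d) \ T.supp d) d x ρ.length, F.Hot d (ρ ++ [e]) s u1 p x) ∧
      ∀ u, ∀ᶠ e in T.FF ((F.sup ∩ Iio d) \ T.supp d) d x ρ.length,
        F.Hot d (ρ ++ [e]) s u1 p x → F.Hot d (ρ ++ [e]) s u p x := by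
  filter_upwards [eventually_countable_forall.2 fun u =>
    (pm_spec ht ρ.length fun e => md_hot (ρ ++ [e]) s u p).2.2] with x hx ⟨u1, h1, h2⟩
  exact ⟨u1, hx u1 h1, fun u => ev_of_not_freq fun h3 => h2 u
    ((pm_spec ht _ fun _ => (md_hot _ s u1 p).and (md_hot _ s u p).not).2.1 x h3)⟩

theorem pk_pc (ht : TopN F.sup d) (ρ : List L) (s : Finset L) (p : Kl F.S) :
    ∀ᶠ x in T.μ, F.Pk d ρ s p x → p ∈ F.Pc d ρ s x := by
  filter_upwards [pk_elim ht ρ s p, pc_iff ht ρ s] with x h1 h2 h3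
  obtain ⟨u1, h4, h5⟩ := h1 h3
  exact (h2 p).2 fun u => (h4.and_eventually (h5 u)).mono fun e he => he.2 he.1

theorem OK.pr_ta (h : F.OK α) (ρ : List L) (s : Finset L) :
    ∀ᶠ x in T.μ, Pr F.mu (F.Ta d ρ s x) :=
  (fav_add F.sup d ρ).pr (fun _ => trivial) (h.pr_all.mono fun _ hx => pr_exists fun m => hx m.1)

/-- below a stem that cannot be enlarged, the enlargements of the successors are far -/
theorem OK.hot (h : F.OK α) (τ : List L) (s u1 : Finset L) (p : Kl F.S) :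
    ∀ᶠ x in T.μ, ¬ F.Hot d τ s u1 p x → ∀ u,
      ∀ᶠ e in T.FF ((F.sup ∩ Iio d) \ T.supp d) d x τ.length,
        F.Hot d (τ ++ [e]) s u1 p x → F.Hot d (τ ++ [e]) s u p x := by
  have h1 : ∀ (e : L) (s1 s2 u : Finset L), ∀ᶠ x in T.μ, s1 ⊆ s2 ∧ Disjoint (s2 \ s1) u →
      Fav F.sup d (τ ++ [e]) (F.Ev (s ∪ s2) u p) x →
        Fav F.sup d (τ ++ [e]) (F.Ev (s ∪ s1) u p) x := fun e s1 s2 u => by
    by_cases hc : s1 ⊆ s2 ∧ Disjoint (s2 \ s1) u
    · refine (fav_imp fun y hy => hy.imp fun m hm => ⟨⟨?_, ?_⟩, hm.2⟩).mono fun x hx _ => hx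
      · exact (Finset.union_subset_union_right hc.1).trans hm.1.1
      · refine Finset.disjoint_left.2 fun j hj hu => ?_
        simp only [Finset.mem_sdiff, Finset.mem_union, not_or] at hj
        by_cases h2 : j ∈ s2
        · exact Finset.disjoint_left.1 hc.2 (Finset.mem_sdiff.2 ⟨h2, hj.2.2⟩) hu
        · exact Finset.disjoint_left.1 hm.1.2
            (Finset.mem_sdiff.2 ⟨hj.1, by simp [hj.2.1, h2]⟩) hu
    · exact Eventually.of_forall fun _ h => absurd h hc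
  filter_upwards [eventually_countable_forall.2 fun e => eventually_countable_forall.2 fun s1 =>
      eventually_countable_forall.2 fun s2 => eventually_countable_forall.2 (h1 e s1 s2),
    eventually_countable_forall.2 fun e => eventually_countable_forall.2 fun s' =>
      h.ps_card (d := d) (τ ++ [e]) s' p,
    eventually_countable_forall.2 fun s1 => eventually_countable_forall.2 fun u =>
      fav4 F.sup d τ (F.Ev (s ∪ s1) u p)] with x h2 h3 h4 h5 u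
  choose! f hf hf' using fun e (he : F.Hot d (τ ++ [e]) s u1 p x) => he
  rcases common_part (T.FF ((F.sup ∩ Iio d) \ T.supp d) d x τ.length)
    (fun e => F.Hot d (τ ++ [e]) s u1 p x) f F.M (fun e he =>
      (Finset.card_le_card Finset.subset_union_right).trans (h3 e _ (hf' e he))) with h6 | h6
  · filter_upwards [(eventually_all_finset u).2 fun j _ => h6 j] with e he h7
    exact ⟨f e, ⟨(hf e h7).1, Finset.disjoint_right.2 fun j hj => he j hj h7⟩, hf' e h7⟩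
  · obtain ⟨s1, h7, h8⟩ := h6
    obtain ⟨e0, h9⟩ := (h8 ∅).exists
    exact absurd ⟨s1, ⟨h7, (hf e0 h9.1).2.mono_left h9.2.1⟩, fun u' => h4 s1 u'
      ((h8 u').mono fun e he => h2 e s1 _ u' he.2 (hf' e he.1 u'))⟩ h5

/-- the trichotomy -/
theorem OK.tri (h : F.OK α) (ht : TopN F.sup d) (ρ : List L) (s : Finset L) (p : Kl F.S) :
    ∀ᶠ x in T.μ, p ∈ F.Ps d ρ s x → p ∈ F.Ta d ρ s x ∨ p ∈ (F.stepB d ρ s).Inf x ∨
      Fav F.sup d ρ (F.Oc d ρ s p) x := by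
  have key : ∀ u1, ∀ᶠ x in T.μ, ¬ F.Hot d ρ s u1 p x → ¬ Fav F.sup d ρ
      (fun y => (∃ m, (s ⊆ F.w m ∧ Disjoint (F.w m \ s) u1 ∧ F.w m ≠ s) ∧ p ∈ F.U m y) ∧
        ¬ F.Oc d ρ s p y) x := fun u1 => by
    have hv : T.VS F.sup d fun x τ => {e | ¬ F.Hot d (τ ++ [e]) s u1 p x ∨
        PM F.sup d τ.length (fun x e => F.Hot d (τ ++ [e]) s u1 p x) x} := by
      refine ⟨fun τ e => (md_hot _ s u1 p).not.or (pm_spec ht _ fun _ => md_hot _ s u1 p).1,
        _, ht.1.1.mono (sdiff_subset.trans inter_subset_left), Subset.rfl, fun x τ => ?_⟩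
      by_cases hc : PM F.sup d τ.length (fun x e => F.Hot d (τ ++ [e]) s u1 p x) x
      · exact Eventually.of_forall fun _ => Or.inr hc
      · exact (not_frequently.1 fun h' =>
          hc ((pm_spec ht _ fun _ => md_hot _ s u1 p).2.1 x h')).mono fun _ h' => Or.inl h'
    refine (fav_spec F.sup d ρ _).2.2 _ _ (md_hot ρ s u1 p).not hv ?_
    filter_upwards [eventually_countable_forall.2 fun m => fav3 F.sup d fun y => p ∈ F.U m y,
      eventually_countable_forall.2 fun τ => eventually_countable_forall.2 fun m =>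
        eventually_countable_forall.2 fun u => fav_imp (B := F.sup) (d := d) (ρ := τ)
          (θ := fun y => p ∈ F.U m y) (θ' := F.Ev (F.w m) u p)
          fun y hy => ⟨m, ⟨Finset.Subset.refl _, by simp⟩, hy⟩,
      eventually_countable_forall.2 fun τ => h.hot (d := d) τ s u1 p,
      eventually_countable_forall.2 fun τ : List L => eventually_countable_forall.2 fun u =>
        (pm_spec ht τ.length fun e =>
          (md_hot (τ ++ [e]) s u1 p).and (md_hot (τ ++ [e]) s u p).not).2.2]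
      with y h1 h2 h3 h4 h5 hb ⟨⟨m, hm, hp⟩, h6⟩
    have h7 : ∀ i, ρ.length ≤ i → ¬ F.Hot d (pre (y d) i) s u1 p y := by
      intro i hi
      induction i, hi using Nat.le_induction with
      | base => rwa [hb.1]
      | succ i hi ih =>
        rw [pre_succ]
        refine (hb.2 i hi).resolve_right fun h8 => h6 ⟨pre (y d) i, hb.1 ▸ pre_le _ hi,
          by rw [length_pre], u1, h8, fun u h9 => ?_⟩
        obtain ⟨e, he, he'⟩ := ((h4 _ u h9).and_eventually (h3 _ ih u)).exists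
        exact he.2 (he' he.1)
    obtain ⟨i, h8, hi⟩ := ((h1 m hp).and (eventually_ge_atTop ρ.length)).exists
    refine h7 i hi ⟨F.w m \ s, ⟨?_, hm.2.1⟩, fun u => ?_⟩
    · exact Finset.sdiff_nonempty.2 fun h9 => hm.2.2 (Finset.Subset.antisymm h9 hm.1)
    · rw [Finset.union_sdiff_of_subset hm.1]
      exact h2 _ m u h8
  have k2 : ∀ u1, ∀ᶠ x in T.μ, Fav F.sup d ρ (F.Ev s u1 p) x → p ∈ F.Ta d ρ s x ∨
      Fav F.sup d ρ (F.Oc d ρ s p) x ∨ Fav F.sup d ρ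
      (fun y => (∃ m, (s ⊆ F.w m ∧ Disjoint (F.w m \ s) u1 ∧ F.w m ≠ s) ∧ p ∈ F.U m y) ∧
        ¬ F.Oc d ρ s p y) x := fun u1 => by
    refine ((((fav_add F.sup d ρ).add _ _ trivial trivial).and
      ((fav_add F.sup d ρ).add _ _ trivial trivial)).and (fav_imp fun y hy => ?_)).mono
      fun x hx h1 => (hx.1.1 (hx.2 h1)).imp_right hx.1.2
    obtain ⟨m, hm, hp⟩ := hy
    by_cases e : F.w m = s
    · exact Or.inl ⟨⟨m, e⟩, hp⟩
    · exact Or.inr ((em _).imp_right fun h' => ⟨⟨m, ⟨hm.1, hm.2, e⟩, hp⟩, h'⟩)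
  filter_upwards [eventually_countable_forall.2 key, eventually_countable_forall.2 k2]
    with x h1 h2 hp
  by_cases hc : ∀ u, F.Hot d ρ s u p x
  · refine Or.inr (Or.inl fun u => ?_)
    obtain ⟨s', h3, h4⟩ := hc u
    exact ⟨⟨s', h3.1⟩, h3.2, h4⟩
  · obtain ⟨u1, h3⟩ := not_forall.1 hc
    exact (h2 u1 (hp u1)).imp_right fun h4 => Or.inr (h4.resolve_right (h1 u1 h3))

/-! ### the derived families are admissible -/

theorem OK.proj (h : F.OK α) {c : Set T.ι} (hc : IsLowerSet c) (hα : α ∈ c) :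
    (F.proj (F.sup ∩ c)).OK α where
  cc := h.cc.inter hc
  mem := ⟨h.mem, hα⟩
  mt _ _ := (proj_spec _ _).1
  pr m := (proj_add _).pr (fun _ => trivial) (h.pr m)
  rg m p := proj_sub ((MD.const _).and (md_range (mem_inter h.mem hα) _)) (h.rg m p)

theorem OK.above (h : F.OK α) (q : Kl F.S) : (F.above q).OK α where
  cc := h.cc
  mem := h.mem
  mt m p := (MD.const _).and (h.mt m p)
  pr m := (h.pr m).mono fun _ hx => pr_above hx q
  rg m p := (h.rg m p).mono fun _ hx hp => hx hp.2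

theorem OK.ps_both (h : F.OK α) (hd : α < d) (ρ : List L) (s s' : Finset L) (p : Kl F.S) :
    ∀ᶠ x in T.μ, p ∈ F.Ps d ρ (s ∪ s') x → s'.card ≤ F.M ∧ ∀ j ∈ s', ∃ i, x α i = j :=
  ((h.ps_card ρ _ p).and (h.ps_rg hd ρ _ p)).mono fun _ hx hp =>
    ⟨(Finset.card_le_card Finset.subset_union_right).trans (hx.1 hp),
      fun j hj => hx.2 hp j (Finset.mem_union_right _ hj)⟩

theorem OK.stepB (h : F.OK α) (hd : α < d) (ρ : List L) (s : Finset L) :
    (F.stepB d ρ s).OK α where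
  cc := h.cc.inter (isLowerSet_Iio d)
  mem := ⟨h.mem, hd⟩
  mt _ := mt_ps _ _
  pr _ := h.pr_ps _ _
  rg m p := h.ps_both hd ρ s m.1 p

theorem OK.stepY (h : F.OK α) (ht : TopN F.sup d) (hd : α < d) (ρ : List L) (s : Finset L) (k : ℕ)
    (π : Finset T.ι) : (F.stepY d ρ s k π).OK α where
  cc := ⟨clo_count ((h.cc.1.mono inter_subset_left).union π.countable_toSet), clo_clo _⟩
  mem := subset_clo _ (Or.inl ⟨h.mem, hd⟩)
  mt _ _ := (md_bas (ht.supp.trans (subset_union_left.trans (subset_clo _)))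
    (subset_union_right.trans (subset_clo _)) _ _ _).and ((MD.const _).and
      ((mt_ps _ _ _).mono (subset_union_left.trans (subset_clo _))))
  pr _ := (h.pr_ps _ _).mono fun x hx => pr_and _ fun hb =>
    pr_slot hx _ _ (T.dm_card d x _ _ hb.1)
  rg m _ := (h.ps_both hd _ s m.2.1 _).mono fun _ hx hp => hx hp.2.2

theorem OK.stepK (h : F.OK α) (hd : α < d) (ρ : List L) (s E Q : Finset L) :
    (F.stepK d ρ s E Q).OK α where
  cc := h.cc.inter (isLowerSet_Iio d)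
  mem := ⟨h.mem, hd⟩
  mt _ _ := (MD.const _).and (MD.all fun _ => mt_ps _ _ _)
  pr _ := (h.pr_ps_all (d := d)).mono fun _ hx => pr_and _ fun _ => pr_prod fun _ => hx _ _
  rg m p := by
    filter_upwards [eventually_all.2 fun r : Q =>
      h.ps_both hd (ρ ++ [(m.2 r).1]) s (m.2 r).2 (p.1, fun a => p.2 (r, a))] with x hx hp
    refine ⟨Finset.card_biUnion_le.trans ?_, fun j hj => ?_⟩
    · refine (Finset.sum_le_card_nsmul _ _ F.M fun r _ => (hx r (hp.2 r)).1).trans ?_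
      simp only [Finset.univ_eq_attach, Finset.card_attach, smul_eq_mul, Fam.stepK, Subtype.forall, mem_ofPred_eq, Std.le_refl]
    · obtain ⟨r, -, hr⟩ := Finset.mem_biUnion.1 hj
      exact (hx r (hp.2 r)).2 j hr

end Fam

end Pool.Agent.MP_e30343_lc.SO

end

-- part MP_e30343_lc.SO.ThmDStep
section

/-! Section 5: the steps of the descent. -/

open Filter Set

namespace Pool.Agent.MP_e30343_lc.SO

open Tpl

variable {T : Tpl}

namespace Fam

/-- the families derived in one step, with new nodes from `P` -/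
def Succ (P : Set T.ι) (F F' : Fam T) : Prop :=
  (∃ d, F' = F.proj (F.sup ∩ Iic d)) ∨ (∃ q, F' = F.above q) ∨
    ∃ d ∈ F.sup, ∃ ρ s, F' = F.stepB d ρ s ∨ (∃ E Q, F' = F.stepK d ρ s E Q) ∨
      ∃ (k : ℕ) (π : Finset T.ι), ↑π ⊆ P ∧ F' = F.stepY d ρ s k π

/-- the sets listed for a family -/
def Hl (F : Fam T) (α : T.ι) (ρ : List L) (s : Finset L) (p : Kl F.S) (x : T.X) (e : L) : Prop :=
  p ∈ F.Ps α (ρ ++ [e]) (s ∪ {e}) x

end Fam

open Fam

variable (C : Set T.ι) (α : T.ι) (A : T.X → L → Prop) (R0 : T.X → Prop)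

/-- the standing assumptions -/
structure Ctx : Prop where
  clo : T.Clo C
  isK : T.isK α
  mA : ∀ e, MD (Iio α) fun x => A x e
  mR : MD (Iio α) R0

/-- failure at level `c` -/
structure FailP (F : Fam T) (c : Set T.ι) (cc : Cc T F.S) (R : T.X → Prop) (u : Finset L) :
    Prop where
  ok : F.OK α
  sC : F.sup ⊆ C
  sc : F.sup ⊆ c
  cC : CcIn cc Cᶜ
  cl : CcIn cc c
  md : MD c R
  pos : ∃ᶠ x in T.μ, R x
  sub : ∀ᶠ x in T.μ, R x → R0 x
  al : ∀ᶠ x in T.μ, R x → Al C cc F.mu F.Inf x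
  no : ∀ m, Disjoint (F.w m) u →
    ∀ᶠ x in T.μ, R x → (∀ j ∈ F.w m, ¬ A x j) → ¬ Al C cc F.mu (F.U m) x

/-- failure at level `c` -/
def Fail (F : Fam T) (c : Set T.ι) : Prop := ∃ cc R u, FailP C α A R0 F c cc R u

/-- the conclusion of the descent -/
def Goal (F : Fam T) : Prop :=
  ∃ R' : T.X → Prop, MD (Iio α) R' ∧ (∃ᶠ x in T.μ, R' x) ∧ (∀ᶠ x in T.μ, R' x → R0 x) ∧
    ∀ R'' : T.X → Prop, MD (Iio α) R'' → (∃ᶠ x in T.μ, R'' x) → (∀ᶠ x in T.μ, R'' x → R' x) →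
      ∃ (Γ : Type) (_ : Finite Γ) (g0 : Γ) (y : Γ → T.X) (ρ : List L) (s : Finset L) (p : Kl F.S)
        (J : Set L), (∀ g, R'' (y g)) ∧ (∀ g, ∀ a ∈ C, y g a = y g0 a) ∧ J ∈ KF gen ∧
        KPos gen {e | F.Hl α ρ s p (y g0) e} ∧ ∀ z ∈ J, ∀ z' ∈ J, F.Hl α ρ s p (y g0) z →
          F.Hl α ρ s p (y g0) z' → ∃ g, A (y g) z ∧ A (y g) z'

variable {C α A R0} {F : Fam T} {c : Set T.ι} {cc : Cc T F.S} {R : T.X → Prop} {u : Finset L}

theorem Ctx.md_off (X : Ctx C α A R0) (h : Iio α ⊆ c) (s : Finset L) :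
    MD c fun x => ∀ j ∈ s, ¬ A x j :=
  MD.all fun j => (MD.const _).imp ((X.mA j).mono h).not

theorem ev_of_not_freq3 {X : Type*} {l : Filter X} {P Q W : X → Prop}
    (h : ¬ ∃ᶠ x in l, (P x ∧ Q x) ∧ W x) : ∀ᶠ x in l, P x → Q x → ¬ W x :=
  (not_frequently.1 h).mono fun _ hx hp hq hw => hx ⟨⟨hp, hq⟩, hw⟩

/-- PROJ -/
theorem FailP.proj (X : Ctx C α A R0) (H : FailP C α A R0 F c cc R u) :
    ∃ d ∈ c, Fail C α A R0 (F.proj (F.sup ∩ Iic d)) (Iic d) ∧ (d ∈ F.sup ∨ d ∉ C) := by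
  classical
  obtain ⟨F0, hF⟩ := hs_proj H.md.univ' H.pos
  obtain ⟨Pi, -, -, hPi, -, -⟩ := exists_bounds cc F.mu
  obtain ⟨d, hd, hmax⟩ := Finset.exists_max_image (insert α (F0.filter (· ∈ F.sup) ∪ Pi)) id
    (Finset.insert_nonempty _ _)
  simp only [Finset.mem_insert, Finset.mem_union, Finset.mem_filter, id] at hd hmax
  have hd' : (d ∈ F.sup ∨ d ∉ C) ∧ d ∈ c := by
    rcases hd with rfl | h | h
    · exact ⟨Or.inl H.ok.mem, H.sc H.ok.mem⟩
    · exact ⟨Or.inl h.2, H.sc h.2⟩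
    · obtain ⟨s, hs⟩ := (hPi d).1 h
      exact ⟨Or.inr (H.cC s d hs), H.cl s d hs⟩
  have hα : α ≤ d := hmax α (Or.inl rfl)
  have hα' : Iio α ⊆ Iic d := fun a ha => (le_of_lt ha).trans hα
  have hcc : CcIn cc (Iic d) := fun s a ha => hmax a (Or.inr (Or.inr ((hPi a).2 ⟨s, ha⟩)))
  obtain ⟨Rl, h1, h2, h3, h4⟩ := hF _ (isLowerSet_Iic d)
  have ok := H.ok.proj (isLowerSet_Iic d) hα
  have h5 : ∀ Q, MD (Iic d) Q → (∀ᶠ x in T.μ, R x → Q x) → ∀ᶠ x in T.μ, Rl x → Q x :=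
    fun Q hQ h => ev_of_not_freq fun hf => by
      obtain ⟨x, hx, h'⟩ :=
        ((h3 _ hQ.not (hf.mono fun x hx => ⟨hx.2, hx.1⟩)).and_eventually h).exists
      exact hx.1 (h' hx.2)
  refine ⟨d, hd'.2, ⟨cc, Rl, u, ok, inter_subset_left.trans H.sC, inter_subset_right, H.cC, hcc, h1,
    h2, h5 _ (X.mR.mono hα') H.sub, ?_, fun m hm => ev_of_not_freq3 fun hf => ?_⟩, hd'.1⟩
  · have h6 : ∀ᶠ x in T.μ, R x → Al C cc F.mu (F.proj (F.sup ∩ Iic d)).Inf x := by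
      refine (H.al.and (al_mono H.md.univ' fun p => ?_)).mono fun x hx h => hx.2 h (hx.1 h)
      filter_upwards [eventually_countable_forall.2 fun m =>
        (proj_spec (F.sup ∩ Iic d) fun y => p ∈ F.U m y).2.1] with x hx _ hp u'
      exact (hp u').imp fun m hm => ⟨hm.1, hx m hm.2⟩
    filter_upwards [h5 _ (proj_spec _ R).1 (proj_spec _ R).2.1, al_loc X.clo (isLowerSet_Iic d) hcc
      ((mt_inf ok.mt).mono inter_subset_right) h6] with x h7 h8 h9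
    exact h8 (h7 h9)
  · obtain ⟨p, hp⟩ := al_hs 1 (h1.and (X.md_off hα' _)).univ' hf
    obtain ⟨-, h6⟩ := (h4 (R := fun x => ∀ j ∈ F.w m, ¬ A x j) X.clo H.sC H.ok.cc.2
      (fun a ha hs => hmax a (Or.inr (Or.inl ⟨ha, hs⟩))) hcc (X.md_off hα' _) (H.ok.mt m p)
      (hp.mono' fun x hx => ⟨hx.1.2, hx.1.1, hx.2⟩)).hit (fun _ : Unit => F.U m) X.clo H.cC
      (fun _ => (H.ok.mt m).mono H.sC) (fun _ => H.ok.pr m)
      (Eventually.of_forall fun x hx => ⟨(), hx.2.2⟩)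
    obtain ⟨x, hx, h7⟩ := (h6.and_eventually (H.no m hm)).exists
    exact h7 hx.1.2.1 hx.1.1 hx.2

theorem lower_sub {d : T.ι} {St : T.Suc} {ρ : List L} {R' Q : T.X → Prop} (h1 : MD (Iio d) R')
    (hS : T.VS univ d St) (hQ : MD (Iio d) Q)
    (h : ∀ᶠ x in T.μ, R' x → Br ρ (St x) (x d) → Q x) : ∀ᶠ x in T.μ, R' x → Q x :=
  ev_of_not_freq fun hf => by
    obtain ⟨x, hx, h'⟩ := ((amalg_one ρ (h1.and hQ.not) hS hf).and_eventually h).exists
    exact hx.1.2 (h' hx.1.1 hx.2)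

theorem md_inT' {d : T.ι} {St : T.Suc} (hS : T.VS univ d St) (ρ τ : List L) :
    MD (Iio d) fun x => InT ρ (St x) τ := (md_inT hS ρ τ).mono inter_subset_right

theorem Br.inT' {τ ρ : List L} {St : List L → Set L} {y : ℕ → L} (h : Br τ St y)
    (h1 : τ.length ≤ ρ.length) (h2 : pre y ρ.length = ρ) : InT τ St ρ := h2 ▸ h.inT h1

/-- ELIM -/
theorem FailP.elim (X : Ctx C α A R0) {a : T.ι} (ha : a ∉ C)
    (H : FailP C α A R0 F (Iic a) cc R u) : ∃ q, Fail C α A R0 (F.above q) (Iio a) := by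
  have hs : F.sup ⊆ Iio a := fun b hb =>
    lt_of_le_of_ne (H.sc hb) fun e => ha (e ▸ H.sC hb)
  have hα : Iio α ⊆ Iio a := Iio_subset_Iio (le_of_lt (hs H.ok.mem))
  obtain ⟨Rl, ρ, St, h1, h2, hS, h3⟩ := split_top H.md H.pos
  have hW : MD univ fun x => Rl x ∧ Br ρ (St x) (x a) := h1.univ'.and (md_br hS trivial ρ).univ'
  obtain ⟨p, hp⟩ := al_hs (U := F.Inf) 2 hW ((((amalg_one ρ h1 hS h2).and_eventually
    h3).and_eventually H.al).mono fun x hx => ⟨hx.1.1, hx.2 (hx.1.2 hx.1.1.1 hx.1.1.2)⟩)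
  obtain ⟨σ, q, h4, h5, h6⟩ := hp.boost a ρ.length X.clo H.cC ha ((mt_inf H.ok.mt).mono H.sC)
    H.ok.pr_inf
  have ok := H.ok.above q
  have hcc : CcIn (fun s => ((cc s).1.erase a, (cc s).2)) (Iio a) := fun s b hb =>
    lt_of_le_of_ne (H.cl s b (Finset.mem_erase.1 hb).2) (Finset.mem_erase.1 hb).1
  have h7 := al_map (C := C) (cc := cc) (mu := F.mu) (R := fun _ => True)
    (U := fun x => {r | Ref q r ∧ r ∈ F.Inf x}) (U' := (F.above q).Inf)
    (cc' := fun s => ((cc s).1.erase a, (cc s).2)) (mu' := F.mu) id Function.injective_id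
    (fun s => ⟨Finset.erase_subset _ _, le_rfl⟩) (fun _ => rfl) (MD.const _)
    fun p => Eventually.of_forall fun x _ hp u' => (hp.2 u').imp fun m hm => ⟨hm.1, hp.1, hm.2⟩
  obtain ⟨R', h8, h9, h10, h11⟩ := al_shrink
    (W := fun x => (Rl x ∧ Br ρ (St x) (x a)) ∧ pre (x a) σ.length = σ) X.clo (isLowerSet_Iio a) hcc
    ((mt_inf ok.mt).mono hs) (h1.and (md_inT' hS ρ σ))
    ((h6.and_eventually h7).mono fun x hx => ⟨⟨hx.1.1, hx.1.2.1⟩, hx.2 trivial hx.1.2.2⟩)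
    (Eventually.of_forall fun x hx => ⟨hx.1.1, hx.1.2.inT' h4 hx.2⟩)
  refine ⟨q, _, R', u, ok, H.sC, hs, fun s b hb => H.cC s b (Finset.mem_erase.1 hb).2, hcc, h8, h9,
    ?_, h11, fun m hm => ev_of_not_freq3 fun hf => ?_⟩
  · refine (lower_sub (ρ := ρ) h1 hS (X.mR.mono hα) ?_).mono fun x hx h => hx (h10 x h).1
    filter_upwards [h3, H.sub] with x h12 h13 h14 h15
    exact h13 (h12 h14 h15)
  · have h12 := h8.and (X.md_off hα (F.w m))
    obtain ⟨p, hp⟩ := al_hs 1 h12.univ' hf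
    obtain ⟨-, h13⟩ := (HS.elim X.clo ha H.cl (h12.and ((ok.mt m p).mono hs)) hS h5
      hp.pos.exists.choose_spec.2.1 hp).hit (fun _ : Unit => F.U m) X.clo H.cC
      (fun _ => (H.ok.mt m).mono H.sC) (fun _ => H.ok.pr m)
      (Eventually.of_forall fun x hx => ⟨(), hx.1.2.2⟩)
    obtain ⟨x, ⟨hx, h14⟩, h15⟩ := ((h13.and_eventually (H.no m hm)).and_eventually h3).exists
    have h16 := h10 x hx.1.1.1.1
    exact h14 (h15 h16.1 (h16.2.br hx.1.2)) hx.1.1.1.2 hx.2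

/-- positions -/
structure PosP (C : Set T.ι) (A : T.X → L → Prop) (F : Fam T) (cc : Cc T F.S) (R : T.X → Prop)
    (u : Finset L) (d : T.ι) (St : T.Suc) (R' : T.X → Prop) (ρ : List L) (s : Finset L) : Prop where
  md : MD (Iio d) R'
  pos : ∃ᶠ x in T.μ, R' x
  sub : ∀ᶠ x in T.μ, R' x → Br ρ (St x) (x d) → R x
  dis : Disjoint s u
  off : ∀ᶠ x in T.μ, R' x → ∀ j ∈ s, ¬ A x j
  al : ∀ᶠ x in T.μ, R' x → Al C cc F.mu (F.Ps d ρ s) x

/-- the situation at a node of the support, with a maximal position -/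
structure Node (C : Set T.ι) (α : T.ι) (A : T.X → L → Prop) (R0 : T.X → Prop) (F : Fam T)
    (cc : Cc T F.S) (R : T.X → Prop) (u : Finset L) (d : T.ι) (St : T.Suc) (R' : T.X → Prop)
    (ρ : List L) (s : Finset L) : Prop where
  X : Ctx C α A R0
  H : FailP C α A R0 F (Iic d) cc R u
  top : TopN F.sup d
  lt : CcIn cc (Iio d)
  vs : T.VS univ d St
  P : PosP C A F cc R u d St R' ρ s
  sub : ∀ᶠ x in T.μ, R' x → R0 x
  max : ∀ τ s', s'.Nonempty → Disjoint s' (u ∪ s) → ∀ᶠ x in T.μ, R' x → InT ρ (St x) τ →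
    (∀ j ∈ s', ¬ A x j) → ¬ Al C cc F.mu (F.Ps d τ (s ∪ s')) x

theorem FailP.node (X : Ctx C α A R0) {d : T.ι} (hd : d ∈ F.sup)
    (H : FailP C α A R0 F (Iic d) cc R u) : ∃ St R' ρ s, Node C α A R0 F cc R u d St R' ρ s := by
  have top : TopN F.sup d := ⟨H.ok.cc, hd, H.sc⟩
  have hlt : CcIn cc (Iio d) := fun s a ha =>
    lt_of_le_of_ne (H.cl s a ha) fun e => H.cC s a ha (e ▸ H.sC hd)
  have hα : Iio α ⊆ Iio d := Iio_subset_Iio (H.sc H.ok.mem)
  have hps : ∀ τ s, MT (Iio d) (F.Ps d τ s) := fun τ s => (mt_ps τ s).mono inter_subset_right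
  obtain ⟨Rl, ρ0, St, h1, h2, hS, h3⟩ := split_top H.md H.pos
  -- a first position
  have h4 : ∃ R' ρ, PosP C A F cc R u d St R' ρ ∅ := by
    obtain ⟨τ, h4⟩ := al_cover (U0 := F.Inf)
      (fun (τ : List L) x => {p | (ρ0.length ≤ τ.length ∧ pre (x d) τ.length = τ) ∧
        p ∈ F.Ps d τ ∅ x}) X.clo H.cC
      (fun τ p => ((MD.const _).and (MD.word (H.sC hd) _ (φ := fun σ _ => σ = τ)
        fun _ => MD.const _)).and ((mt_ps τ ∅ p).mono (inter_subset_left.trans H.sC)))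
      (fun τ => (H.ok.pr_ps τ ∅).mono fun x hx => pr_and _ fun _ => hx)
      (h1.univ'.and (md_br hS trivial ρ0).univ') (fun p => by
        filter_upwards [fav3 F.sup d fun y => p ∈ F.Inf y, eventually_countable_forall.2 fun τ =>
          eventually_countable_forall.2 fun u' => fav_imp (B := F.sup) (d := d) (ρ := τ)
            (θ := fun y => p ∈ F.Inf y) (θ' := F.Ev ∅ u' p) fun y hy => (hy u').imp fun m hm =>
              ⟨⟨Finset.empty_subset _, by simpa using hm.1⟩, hm.2⟩] with x h5 h6 _ hp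
        obtain ⟨i, h7, hi⟩ := ((h5 hp).and (eventually_ge_atTop ρ0.length)).exists
        exact ⟨pre (x d) i, ⟨by rwa [length_pre], by rw [length_pre]⟩, fun u' => h6 _ u' h7⟩)
      ((((amalg_one ρ0 h1 hS h2).and_eventually h3).and_eventually H.al).mono fun x hx =>
        ⟨hx.1.1, hx.2 (hx.1.2 hx.1.1.1 hx.1.1.2)⟩)
    have h5 := al_sub_ev (C := C) (cc := cc) (mu := F.mu)
      (U := fun x => {p | (ρ0.length ≤ τ.length ∧ pre (x d) τ.length = τ) ∧ p ∈ F.Ps d τ ∅ x})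
      (Q := fun x => ρ0.length ≤ τ.length ∧ pre (x d) τ.length = τ)
      ((MD.const _).and (MD.word (mem_univ d) _ (φ := fun σ _ => σ = τ) fun _ => MD.const _))
      fun p => Eventually.of_forall fun x hx => hx.1
    have h6 := al_mono (C := C) (cc := cc) (mu := F.mu) (R := fun _ => True)
      (U := fun x => {p | (ρ0.length ≤ τ.length ∧ pre (x d) τ.length = τ) ∧ p ∈ F.Ps d τ ∅ x})
      (U' := F.Ps d τ ∅) (MD.const _) fun p => Eventually.of_forall fun x _ hx => hx.2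
    obtain ⟨R', h7, h8, h9, h10⟩ := al_shrink (W := fun x => Rl x ∧ InT ρ0 (St x) τ) X.clo
      (isLowerSet_Iio d) hlt (hps τ ∅) (h1.and (md_inT' hS ρ0 τ))
      (((h4.and_eventually h5).and_eventually h6).mono fun x hx =>
        ⟨⟨hx.1.1.1.1, hx.1.1.1.2.inT' (hx.1.2 hx.1.1.2).1 (hx.1.2 hx.1.1.2).2⟩,
          hx.2 trivial hx.1.1.2⟩) (Eventually.of_forall fun _ h => h)
    exact ⟨R', τ, h7, h8, h3.mono fun x hx h hb => hx (h9 x h).1 ((h9 x h).2.br hb),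
      Finset.disjoint_empty_left _, Eventually.of_forall fun _ _ _ h => by simp at h, h10⟩
  -- a maximal position
  have h5 : ∀ R' ρ s, PosP C A F cc R u d St R' ρ s → s.card ≤ F.M := fun R' ρ s P => by
    obtain ⟨x, ⟨hx, h5⟩, h6⟩ := ((P.pos.and_eventually P.al).and_eventually
      (al_sub_ev (MD.const _) (H.ok.ps_card ρ s))).exists
    exact h6 (h5 hx)
  obtain ⟨R', ρ, s, P, hmax⟩ : ∃ R' ρ s, PosP C A F cc R u d St R' ρ s ∧
      ∀ R2 τ s2, PosP C A F cc R u d St R2 τ s2 → s2.card ≤ s.card := by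
    have hb : BddAbove {k | ∃ R' ρ s, PosP C A F cc R u d St R' ρ s ∧ s.card = k} :=
      ⟨F.M, fun _ ⟨R', ρ, s, P, e⟩ => e ▸ h5 R' ρ s P⟩
    obtain ⟨R', ρ, P⟩ := h4
    obtain ⟨R', ρ, s, P, e⟩ := Nat.sSup_mem (s := {k | ∃ R' ρ s,
      PosP C A F cc R u d St R' ρ s ∧ s.card = k}) ⟨_, R', ρ, ∅, P, rfl⟩ hb
    exact ⟨R', ρ, s, P, fun R2 τ s2 P2 => e ▸ le_csSup hb ⟨R2, τ, s2, P2, rfl⟩⟩
  refine ⟨St, R', ρ, s, X, H, top, hlt, hS, P, ?_, fun τ s' h6 h7 => ?_⟩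
  · refine lower_sub (ρ := ρ) P.md hS (X.mR.mono hα) ?_
    filter_upwards [P.sub, H.sub] with x h6 h7 h8 h9
    exact h7 (h6 h8 h9)
  by_contra hc
  rw [Finset.disjoint_union_right] at h7
  obtain ⟨R2, h8, h9, h10, h11⟩ := al_shrink
    (W := fun x => R' x ∧ InT ρ (St x) τ ∧ ∀ j ∈ s', ¬ A x j) X.clo (isLowerSet_Iio d) hlt
    (hps τ (s ∪ s')) (P.md.and ((md_inT' hS ρ τ).and (X.md_off hα s')))
    ((not_eventually.1 hc).mono fun x hx => by
      push Not at hx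
      exact ⟨⟨hx.1, hx.2.1, hx.2.2.1⟩, hx.2.2.2⟩) (Eventually.of_forall fun _ h => h)
  have h12 := hmax R2 τ (s ∪ s') ⟨h8, h9,
    P.sub.mono fun x hx h hb => hx (h10 x h).1 ((h10 x h).2.1.br hb),
    Finset.disjoint_union_left.2 ⟨P.dis, h7.1⟩, P.off.mono fun x hx h j hj =>
      (Finset.mem_union.1 hj).elim (hx (h10 x h).1 j) ((h10 x h).2.2 j), h11⟩
  rw [Finset.card_union_of_disjoint h7.2.symm] at h12
  have := h6.card_pos
  omega

end Pool.Agent.MP_e30343_lc.SO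

end

-- part MP_e30343_lc.SO.ThmDNode
section

/-! Section 5: the step at a node of the support. -/

open Filter Set

namespace Pool.Agent.MP_e30343_lc.SO

open Tpl Fam

variable {T : Tpl} {C : Set T.ι} {α d : T.ι} {A : T.X → L → Prop} {R0 R R' : T.X → Prop}
  {F : Fam T} {cc : Cc T F.S} {u s : Finset L} {St : T.Suc} {ρ : List L}

theorem countable_finsets {ι : Type} {P : Set ι} (h : P.Countable) :
    Countable {π : Finset ι // ↑π ⊆ P} := by
  have := (countable_ofPred_finite_subset h).to_subtype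
  exact Function.Injective.countable
    (f := fun π : {π : Finset ι // ↑π ⊆ P} =>
      (⟨(π.1 : Set ι), π.1.finite_toSet, π.2⟩ : {t : Set ι | t.Finite ∧ t ⊆ P}))
    fun a b e => Subtype.ext (Finset.coe_injective (congrArg Subtype.val e))

theorem vs_KF {St : T.Suc} (hK : T.isK d) (h : T.VS univ d St) (x : T.X) (τ : List L) :
    St x τ ∈ KF gen := by
  obtain ⟨P, -, -, h1⟩ := h.2
  exact FF_K hK P x τ.length ▸ h1 x τ

namespace Node

variable (N : Node C α A R0 F cc R u d St R' ρ s)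
include N

theorem lowC : F.sup ∩ Iio d ⊆ C := inter_subset_left.trans N.H.sC

theorem iio : Iio α ⊆ Iio d := Iio_subset_Iio (N.H.sc N.H.ok.mem)

theorem caseA : ∀ᶠ x in T.μ, R' x → ¬ Al C cc F.mu (F.Ta d ρ s) x := by
  refine (not_frequently.1 fun hf => ?_).mono fun x hx h1 h2 => hx (And.intro h1 h2)
  obtain ⟨m, hm⟩ := al_fav ρ (fun m : {m // F.w m = s} => F.U m.1)
    (fun p y => p ∈ {p | ∃ m : {m // F.w m = s}, p ∈ F.U m y}) N.X.clo N.H.sC N.top N.H.cC N.lt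
    N.P.md N.vs (fun p => MD.ex fun m => N.H.ok.mt m.1 p) (fun m => (N.H.ok.mt m.1).mono N.H.sC)
    (fun m => N.H.ok.pr m.1) (fun p => Eventually.of_forall fun x _ h => h)
    (fun p => Eventually.of_forall fun x h => h) hf
  obtain ⟨x, ⟨⟨hx, h1⟩, h2⟩, h3⟩ := (((hm.and_eventually N.P.sub).and_eventually
    N.P.off).and_eventually (N.H.no m.1 (m.2.symm ▸ N.P.dis))).exists
  exact h3 (h1 hx.1 hx.2.1) (m.2.symm ▸ h2 hx.1) hx.2.2

theorem caseB (hd : α < d) (h : ∃ᶠ x in T.μ, R' x ∧ Al C cc F.mu (F.stepB d ρ s).Inf x) :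
    Fail C α A R0 (F.stepB d ρ s) (Iio d) := by
  have ok := N.H.ok.stepB hd ρ s
  obtain ⟨R2, h1, h2, h3, h4⟩ := al_shrink N.X.clo (isLowerSet_Iio d) N.lt
    ((mt_inf ok.mt).mono inter_subset_right) N.P.md h (Eventually.of_forall fun _ h => h)
  exact ⟨cc, R2, u ∪ s, ok, N.lowC, inter_subset_right, N.H.cC, N.lt, h1, h2,
    N.sub.mono fun x hx h => hx (h3 x h), h4, fun m hm =>
      (N.max ρ m.1 m.2 hm).mono fun x hx h => hx (h3 x h) (InT.refl _ _)⟩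

theorem caseB' (hd : d = α) : ∀ᶠ x in T.μ, ¬ Al C cc F.mu (F.stepB d ρ s).Inf x := by
  subst hd
  refine al_sub_ev (Q := fun _ => False) (MD.const _) fun p => ?_
  filter_upwards [eventually_countable_forall.2 fun s' => N.H.ok.ps_stem N.X.isK ρ s' p] with x hx hp
  obtain ⟨m, h1, h2⟩ := hp ρ.toFinset
  obtain ⟨j, hj⟩ := m.2
  exact Finset.disjoint_left.1 h1 hj
    (List.mem_toFinset.2 (hx _ h2 j (Finset.mem_union_right _ hj)))

/-- the third case -/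
theorem caseC (h : ∀ᶠ x in T.μ, R' x → ¬ Al C cc F.mu (F.stepB d ρ s).Inf x) :
    ∀ᶠ x in T.μ, R' x → Al C cc F.mu (fun x => {p | Fav F.sup d ρ (F.Oc d ρ s p) x}) x := by
  have h1 := al_diff (U0 := F.Ps d ρ s) N.X.clo N.H.cC (fun p => fav_md.mono N.lowC)
    (N.H.ok.pr_ta (d := d) ρ s) N.P.md.univ' N.caseA
  have h2 := al_diff (U0 := fun x => F.Ps d ρ s x \ F.Ta d ρ s x) N.X.clo N.H.cC
    (mt_inf (F := F.stepB d ρ s) fun m => (mt_ps _ _).mono N.lowC)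
    ((N.H.ok.pr_ps_all (d := d)).mono fun x hx => pr_forall
      (T := fun u => {p | ∃ m : {s' : Finset L // s'.Nonempty},
        p ∈ {p | Disjoint m.1 u ∧ p ∈ F.Ps d ρ (s ∪ m.1) x}})
      (fun _ _ e _ hp => hp.imp fun _ hm => ⟨hm.1.mono_right e, hm.2⟩)
      fun _ => pr_exists fun m => pr_and _ fun _ => hx _ _) N.P.md.univ' h
  have h3 := al_mono (C := C) (cc := cc) (mu := F.mu) (R := fun _ => True)
    (U := fun x => (F.Ps d ρ s x \ F.Ta d ρ s x) \ (F.stepB d ρ s).Inf x)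
    (U' := fun x => {p | Fav F.sup d ρ (F.Oc d ρ s p) x}) (MD.const _) fun p =>
      (N.H.ok.tri N.top ρ s p).mono fun x hx _ hp =>
        ((hx hp.1.1).resolve_left hp.1.2).resolve_left hp.2
  filter_upwards [h1, h2, h3, N.P.al] with x h4 h5 h6 h7 h8
  exact h6 trivial (h5 h8 (h4 h8 (h7 h8)))

/-- a longer stem with positively many enlargeable successors -/
theorem stem
    (h : ∀ᶠ x in T.μ, R' x → Al C cc F.mu (fun x => {p | Fav F.sup d ρ (F.Oc d ρ s p) x}) x) :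
    ∃ τ R2, MD (Iio d) R2 ∧ (∃ᶠ x in T.μ, R2 x) ∧ (∀ x, R2 x → R' x ∧ InT ρ (St x) τ) ∧
      ∀ᶠ x in T.μ, R2 x → Al C cc F.mu (F.Pc d τ s) x := by
  obtain ⟨τ, h1⟩ := al_fav ρ (fun (τ : List L) x => {p | (ρ.length ≤ τ.length ∧
      pre (x d) τ.length = τ) ∧ p ∈ F.Pc d τ s x}) (F.Oc d ρ s) N.X.clo N.H.sC N.top N.H.cC N.lt
    N.P.md N.vs (md_oc N.top ρ s)
    (fun τ p => ((MD.const _).and (MD.word (N.H.sC N.top.2.1) _ (φ := fun σ _ => σ = τ)
      fun _ => MD.const _)).and ((mt_pc N.top τ s p).mono N.lowC))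
    (fun τ => (N.H.ok.pr_pc N.top τ s).mono fun x hx => pr_and _ fun _ => hx)
    (fun p => Eventually.of_forall fun x _ h => h)
    (fun p => (eventually_countable_forall.2 fun τ => pk_pc N.top τ s p).mono
      fun x hx ⟨τ, h1, h2, h3⟩ => ⟨τ, ⟨h1.length_le, h2⟩, hx τ h3⟩)
    ((N.P.pos.and_eventually h).mono fun x hx => ⟨hx.1, hx.2 hx.1⟩)
  have h5 := al_sub_ev (C := C) (cc := cc) (mu := F.mu)
    (U := fun x => {p | (ρ.length ≤ τ.length ∧ pre (x d) τ.length = τ) ∧ p ∈ F.Pc d τ s x})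
    (Q := fun x => ρ.length ≤ τ.length ∧ pre (x d) τ.length = τ)
    ((MD.const _).and (MD.word (mem_univ d) _ (φ := fun σ _ => σ = τ) fun _ => MD.const _))
    fun p => Eventually.of_forall fun x hx => hx.1
  have h6 := al_mono (C := C) (cc := cc) (mu := F.mu) (R := fun _ => True)
    (U := fun x => {p | (ρ.length ≤ τ.length ∧ pre (x d) τ.length = τ) ∧ p ∈ F.Pc d τ s x})
    (U' := F.Pc d τ s) (MD.const _) fun p => Eventually.of_forall fun x _ hx => hx.2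
  exact ⟨τ, al_shrink (W := fun x => R' x ∧ InT ρ (St x) τ) N.X.clo
    (isLowerSet_Iio d) N.lt ((mt_pc N.top τ s).mono inter_subset_right)
    (N.P.md.and (md_inT' N.vs ρ τ)) (((h1.and_eventually h5).and_eventually h6).mono fun x hx =>
      ⟨⟨hx.1.1.1, hx.1.1.2.1.inT' (hx.1.2 hx.1.1.2.2).1 (hx.1.2 hx.1.1.2.2).2⟩,
        hx.2 trivial hx.1.1.2.2⟩) (Eventually.of_forall fun _ h => h)⟩

theorem caseY (hK : ¬ T.isK d) (hd : α < d)
    (h : ∀ᶠ x in T.μ, R' x → Al C cc F.mu (fun x => {p | Fav F.sup d ρ (F.Oc d ρ s p) x}) x) :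
    ∃ (τ : List L) (k : ℕ) (π : Finset T.ι), ↑π ⊆ C ∧
      Fail C α A R0 (F.stepY d τ s k π) (Iio d) := by
  classical
  obtain ⟨τ, R2, h1, h2, h3, h4⟩ := N.stem h
  obtain ⟨P, hP, hP', hS⟩ := N.vs.2
  have := countable_finsets hP
  obtain ⟨⟨⟨π, hπ⟩, k⟩, h5⟩ := freq_ex' (P := fun (b : {π : Finset T.ι // ↑π ⊆ P} × ℕ) x =>
      ∀ e, T.Bas d x τ.length b.1.1 b.2 e → e ∈ St x τ) h2 (Eventually.of_forall fun x _ => by
    obtain ⟨π, k, h5, h6⟩ := (mem_FF_Y hK).1 (hS x τ)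
    exact ⟨(⟨π, h5⟩, k), h6⟩)
  have hπ' : (π : Set T.ι) ⊆ Iio d \ T.supp d := fun a ha => ⟨(hP' (hπ ha)).1.2, (hP' (hπ ha)).2⟩
  have hf : ∀ (q : T.ι → Prop) [DecidablePred q], (↑(π.filter q) : Set T.ι) ⊆ Iio d \ T.supp d :=
    fun q _ a ha => hπ' (Finset.mem_filter.1 ha).1
  have hC : (↑(π.filter (· ∈ C)) : Set T.ι) ⊆ C := fun a ha => (Finset.mem_filter.1 ha).2
  have ok := N.H.ok.stepY N.top hd τ s k (π.filter (· ∈ C))
  have hno : ∀ a ∈ π.filter (· ∉ C), a ∉ C := fun a ha => (Finset.mem_filter.1 ha).2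
  refine ⟨τ, k, _, hC, fun a => a.elim (π.filter (· ∉ C), k) cc,
    fun x => R2 x ∧ ∀ e, T.Bas d x τ.length π k e → e ∈ St x τ, u ∪ s, ok,
    clo_min N.X.clo (union_subset N.lowC hC), clo_min (clo_lower (isLowerSet_Iio d))
      (union_subset inter_subset_right fun a ha => (hf _ ha).1), fun a => ?_, fun a => ?_,
    h1.and (MD.all fun e => (md_bas (T.supp_lt d) (fun a ha => (hπ' ha).1) _ _ e).imp
      ((N.vs.1 τ e).mono inter_subset_right)), h5, N.sub.mono fun x hx h => hx (h3 x h.1).1, ?_,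
    fun m hm => ?_⟩
  · rcases a with _ | a
    exacts [hno, N.H.cC a]
  · rcases a with _ | a
    exacts [fun b hb => (hf _ hb).1, N.lt a]
  · refine (h4.and (al_slot (π.filter (· ∉ C), k) (2 ^ τ.length) N.X.clo hno
      ((mt_pc N.top τ s).mono N.lowC) (N.H.ok.pr_pc N.top τ s) fun q => ?_)).mono
      fun x hx h => hx.2 (hx.1 h.1)
    filter_upwards [pc_iff N.top τ s, eventually_countable_forall.2 fun u' =>
      pt N.top.1.2 N.top.1.1 (N.top.supp.trans inter_subset_left) (Finset.countable_toSet _)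
        (hf (· ∈ C)) τ.length (fun x e => F.Hot d (τ ++ [e]) s u' q x)
        fun e => md_hot _ s u' q] with x h6 h7 hq u'
    have h8 : ∀ᶠ e in T.FF (↑(π.filter (· ∈ C))) d x τ.length,
        T.Bas d x τ.length (π.filter (· ∈ C)) (Max.max k q.1) e :=
      (mem_FF_Y hK).2 ⟨_, _, Subset.rfl, fun _ h => h⟩
    obtain ⟨e, ⟨s', h9, h10⟩, h11⟩ := ((h7 u' ((h6 q).1 hq u')).and_eventually h8).exists
    exact ⟨(e, ⟨s', h9.1⟩), h9.2, ⟨h11.1, h11.2.1.mono (le_max_left _ _),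
      h11.2.2.mono (Finset.Subset.refl _) (le_max_left _ _)⟩,
      (far_iff_tr.1 (h11.2.1.mono (le_max_right _ _))).symm, h10⟩
  · have h6 := al_sub_ev (C := C) (cc := fun a : Option F.S => a.elim (π.filter (· ∉ C), k) cc)
      (mu := (F.stepY d τ s k (π.filter (· ∈ C))).mu)
      (U := (F.stepY d τ s k (π.filter (· ∈ C))).U m)
      (Q := fun x => T.Bas d x τ.length (π.filter (· ∈ C)) k m.1)
      (md_bas (subset_univ _) (subset_univ _) _ _ _) fun p => Eventually.of_forall fun x hx => hx.1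
    by_cases hc : m.1.ob.2.card ≤ 2 ^ τ.length
    swap
    · exact h6.mono fun x hx _ _ h => hc (T.dm_card d x _ _ (hx h).1)
    have h7 := al_real (C := C) (cc := fun a : Option F.S => a.elim (π.filter (· ∉ C), k) cc)
      (mu := (F.stepY d τ s k (π.filter (· ∈ C))).mu)
      (U := (F.stepY d τ s k (π.filter (· ∈ C))).U m) none m.1.ob hc fun x p hp => hp.2.1
    have h8 := al_map (C := C) (cc := fun a : Option F.S => a.elim (π.filter (· ∉ C), k) cc)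
      (mu := (F.stepY d τ s k (π.filter (· ∈ C))).mu) (R := fun _ => True)
      (U := (F.stepY d τ s k (π.filter (· ∈ C))).U m) (cc' := cc) (mu' := F.mu)
      (U' := F.Ps d (τ ++ [m.1]) (s ∪ m.2.1)) some (Option.some_injective _)
      (fun _ => ⟨Finset.Subset.refl _, le_rfl⟩) (fun _ => rfl) (MD.const _)
      fun p => Eventually.of_forall fun x _ hp => hp.2.2
    filter_upwards [h6, h7, h8, N.max (τ ++ [m.1]) m.2.1 m.2.2 hm] with x h9 h10 h11 h12 hx h13 h14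
    refine h12 (h3 x hx.1).1 ((h3 x hx.1).2.snoc (hx.2 _ ⟨(h9 h14).1, (h9 h14).2.1, fun a ha => ?_⟩))
      h13 (h11 trivial h14)
    by_cases haC : a ∈ C
    · exact (h9 h14).2.2 a (Finset.mem_filter.2 ⟨ha, haC⟩)
    · exact h10 h14 a (Finset.mem_filter.2 ⟨ha, haC⟩)

theorem caseAlpha (hd : d = α)
    (h : ∀ᶠ x in T.μ, R' x → Al C cc F.mu (fun x => {p | Fav F.sup d ρ (F.Oc d ρ s p) x}) x) :
    Goal C α A R0 F := by
  subst hd
  obtain ⟨τ, R2, h1, h2, h3, h4⟩ := N.stem h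
  refine ⟨R2, h1, h2, N.sub.mono fun x hx h => hx (h3 x h).1, fun R'' h5 h6 h7 => ?_⟩
  obtain ⟨p, hp⟩ := al_hs (U := F.Pc d τ s) 2 h5.univ' (((h6.and_eventually h7).and_eventually
    h4).mono fun x hx => ⟨hx.1.1, hx.2 (hx.1.2 hx.1.1)⟩)
  have h8 := hp.mono (R' := fun x => R'' x ∧ (∃ᶠ e in KF gen, e ∉ u ∪ s ∧ F.Hl d τ s p x e) ∧
      ∀ z, z ∉ u ∪ s → z ∈ St x τ → Al C cc F.mu (F.Ps d (τ ++ [z]) (s ∪ {z})) x → A x z)
    le_rfl (by
      filter_upwards [h7, pc_iff N.top τ s, eventually_countable_forall.2 fun e =>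
        eventually_countable_forall.2 fun s' => N.H.ok.ps_stem N.X.isK (τ ++ [e]) s' p,
        eventually_countable_forall.2 fun z : {z // z ∉ u ∪ s} => N.max (τ ++ [z.1]) {z.1}
          (Finset.singleton_nonempty _) (Finset.disjoint_singleton_left.2 z.2)]
        with x h8 h9 h10 h11 hx
      refine ⟨hx.1, ?_, fun z hz h12 h13 => by_contra fun h14 => h11 ⟨z, hz⟩ (h3 x (h8 hx.1)).1
        ((h3 x (h8 hx.1)).2.snoc h12) (fun j hj => Finset.mem_singleton.1 hj ▸ h14) h13⟩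
      have h12 := (h9 p).1 hx.2 (u ∪ s ∪ τ.toFinset)
      rw [FF_K N.X.isK] at h12
      refine h12.mono fun e ⟨s', h13, h14⟩ => ?_
      have h15 : s' = {e} := by
        refine (h13.1.subset_singleton_iff).1 fun j hj => ?_
        rcases List.mem_append.1 (h10 e _ h14 j (Finset.mem_union_right _ hj)) with h | h
        · exact absurd (Finset.mem_union_right _ (List.mem_toFinset.2 h))
            (Finset.disjoint_left.1 h13.2 hj)
        · simpa using h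
      subst h15
      exact ⟨fun h => Finset.disjoint_singleton_left.1 h13.2 (Finset.mem_union_left _ h), h14⟩)
  obtain ⟨Γ, _, g0, y, GG, hL, hy, hC, hT, -⟩ := h8.pts
    (fun z : L => F.Ps d (τ ++ [z]) (s ∪ {z})) (J := Empty) (fun _ => Empty) (fun j => j.elim)
    N.X.clo N.H.cC (fun z => (mt_ps _ _).mono N.lowC) (fun z => N.H.ok.pr_ps _ _)
    (fun j => j.elim) fun j => j.elim
  refine ⟨Γ, inferInstance, g0, y, τ, s, p, {e | e ∉ (↑(u ∪ s) : Set L) ∧ ∀ g, e ∈ St (y g) τ},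
    fun g => (hy g).1, hC, (k3_finite (gen_inj 0) (Finset.finite_toSet _)).and
      (eventually_all.2 fun g => vs_KF N.X.isK N.vs _ _),
    freq_KF.1 ((hy g0).2.1.mono fun e he => he.2), fun z hz z' hz' h9 h10 => ?_⟩
  obtain ⟨G, hG, h11⟩ := hT z h9
  obtain ⟨G', hG', h12⟩ := hT z' h10
  obtain ⟨g, hg, hg'⟩ := hL.two le_rfl hG hG'
  exact ⟨g, (hy g).2.2 z hz.1 (hz.2 g) (h11 g hg), (hy g).2.2 z' hz'.1 (hz'.2 g) (h12 g hg')⟩

end Node

open Classical in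
/-- the finite set of letters given by a set of rows -/
noncomputable def rows (Q : Finset L) (B : Set Q) : Finset L :=
  Q.filter fun r => ∃ h : r ∈ Q, (⟨r, h⟩ : Q) ∈ B

theorem md_ffin {St : T.Suc} (h : T.VS univ d St) (τ : List L) (E Q : Finset L) :
    MD (Iio d) fun x => FFin E (St x τ)ᶜ Q :=
  MD.ex fun _ => MD.all fun _ => (MD.const _).imp (MD.ex fun _ => (MD.const _).and
    ((h.1 τ _).mono inter_subset_right).not)

theorem Node.caseK (N : Node C α A R0 F cc R u d St R' ρ s) (hK : T.isK d) (hd : α < d)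
    (h : ∀ᶠ x in T.μ, R' x → Al C cc F.mu (fun x => {p | Fav F.sup d ρ (F.Oc d ρ s p) x}) x) :
    ∃ τ E Q, Fail C α A R0 (F.stepK d τ s E Q) (Iio d) := by
  classical
  have ok := fun τ E Q => N.H.ok.stepK hd τ s E Q
  have key : ∃ (τ : List L) (E Q : Finset L) (B : Set Q), ∃ᶠ x in T.μ,
      (R' x ∧ InT ρ (St x) τ ∧ ¬ FFin E (St x τ)ᶜ (rows Q B)) ∧
        Al C (ccRows cc B) (fun a => F.mu a.2) (F.stepK d τ s E Q).Inf x := by
    by_contra hn
    obtain ⟨p, hp⟩ := al_hs 1 N.P.md.univ'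
      ((N.P.pos.and_eventually h).mono fun x hx => ⟨hx.1, hx.2 hx.1⟩)
    have h1 := (HS.fav ρ N.X.clo N.H.sC N.top N.lt N.P.md (md_oc N.top ρ s p) N.vs hp).mono
      (R' := fun x => Br ρ (St x) (x d) ∧ (∃ τ, ρ <+: τ ∧ pre (x d) τ.length = τ ∧ ∃ u1,
        (∃ᶠ e in KF gen, F.Hot d (τ ++ [e]) s u1 p x) ∧ ∀ u', ∀ᶠ e in KF gen,
          F.Hot d (τ ++ [e]) s u1 p x → F.Hot d (τ ++ [e]) s u' p x) ∧
        ∀ (τ : List L) (E Q : Finset L) (B : Set Q), InT ρ (St x) τ →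
          Al C (ccRows cc B) (fun a => F.mu a.2) (F.stepK d τ s E Q).Inf x →
          FFin E (St x τ)ᶜ (rows Q B)) le_rfl (by
      filter_upwards [eventually_countable_forall.2 fun τ => pk_elim N.top τ s p,
        eventually_countable_forall.2 fun τ => eventually_countable_forall.2 fun E =>
          eventually_countable_forall.2 fun Q => eventually_countable_forall.2 fun B =>
            not_frequently.1 fun h' => hn ⟨τ, E, Q, B, h'⟩] with x h1 h2 ⟨h3, h4, τ, h5, h6, h7⟩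
      refine ⟨h4, ⟨τ, h5, h6, ?_⟩, fun τ E Q B h8 h9 =>
        by_contra fun h10 => h2 τ E Q B ⟨⟨h3, h8, h10⟩, h9⟩⟩
      have := h1 τ h7
      rwa [FF_K hK] at this)
    obtain ⟨Γ, _, g0, y, GG, hL, hy, hC, -, hT⟩ := h1.pts (I := Empty) (fun i => i.elim)
      (J := List L × Finset L × Finset L) (fun j => j.2.2)
      (fun j => (F.stepK d j.1 s j.2.1 j.2.2).Inf) N.X.clo N.H.cC (fun i => i.elim)
      (fun i => i.elim) (fun j => (mt_inf (ok _ _ _).mt).mono N.lowC) fun j => (ok _ _ _).pr_inf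
    obtain ⟨τ, h2, h3, u1, h4, h5⟩ := (hy g0).2.1
    obtain ⟨E, hE⟩ := freq_KF.1 h4
    obtain ⟨g, hg⟩ := k1_cover (WFam.closed E _) hE E (fun g => (St (y g) τ)ᶜ) fun Q hQ => by
      obtain ⟨G, hG, h6⟩ := hT (τ, E, Q) fun u' => by
        obtain ⟨y0, h6⟩ := k2_keep hQ (h5 u')
        choose ε hε h7 using fun r : Q => h6 r r.2
        choose s' h8 h9 using fun r => (h7 r).2 (h7 r).1
        exact ⟨(y0, fun r => ((ε r)⁻¹ * r * y0, s' r)),
          (Finset.disjoint_biUnion_left _ _ _).2 fun r _ => (h8 r).2,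
          fun r => ⟨⟨ε r, hε r, rfl⟩, (h8 r).1⟩, h9⟩
      refine ⟨fun g => rows Q {r | g ∈ G r}, fun g => (hy g).2.2 τ E Q _
        ((hy g).1.inT' h2.length_le ((hC g d (N.H.sC N.top.2.1)).symm ▸ h3)) (h6 g),
        fun r hr => ?_⟩
      obtain ⟨g, hg⟩ := hL.one le_rfl (hG ⟨r, hr⟩)
      exact ⟨g, Finset.mem_filter.2 ⟨hr, hr, hg⟩⟩
    exact mem_KF.1 (vs_KF hK N.vs _ _) hg
  obtain ⟨τ, E, Q, B, h1⟩ := key
  have hcc : ∀ D : Set T.ι, CcIn cc D → CcIn (ccRows cc B) D := fun D hD a b hb => by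
    by_cases h : a.1 ∈ B
    · rw [ccRows, if_pos h] at hb; exact hD _ b hb
    · rw [ccRows, if_neg h] at hb; exact absurd hb (Finset.notMem_empty b)
  obtain ⟨R2, h2, h3, h4, h5⟩ := al_shrink N.X.clo (isLowerSet_Iio d) (hcc _ N.lt)
    ((mt_inf (ok τ E Q).mt).mono inter_subset_right)
    (N.P.md.and ((md_inT' N.vs ρ τ).and (md_ffin N.vs τ E _).not)) h1
    (Eventually.of_forall fun _ h => h)
  refine ⟨τ, E, Q, ccRows cc B, R2, u ∪ s, ok τ E Q, N.lowC, inter_subset_right, hcc _ N.H.cC,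
    hcc _ N.lt, h2, h3, N.sub.mono fun x hx h => hx (h4 x h).1, h5, fun m hm => ?_⟩
  have h6 := al_sub_ev (C := C) (cc := ccRows cc B) (mu := (F.stepK d τ s E Q).mu)
    (U := (F.stepK d τ s E Q).U m) (MD.const _) fun p => Eventually.of_forall fun x hx => hx.1
  by_cases hc : ∀ r : Q, (∃ ε ∈ E, ε⁻¹ * r * m.1 = (m.2 r).1) ∧ (m.2 r).2.Nonempty
  swap
  · exact h6.mono fun x hx _ _ h => hc (hx h)
  have hw : ∀ r : Q, (m.2 r).2 ⊆ (F.stepK d τ s E Q).w m := fun r =>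
    Finset.subset_biUnion_of_mem (fun r => (m.2 r).2) (Finset.mem_univ r)
  have h7 : ∀ r : B, ∀ᶠ x in T.μ, True → Al C (ccRows cc B) (F.stepK d τ s E Q).mu
      ((F.stepK d τ s E Q).U m) x → Al C cc F.mu (F.Ps d (τ ++ [(m.2 r).1]) (s ∪ (m.2 r).2)) x :=
    fun r => al_map (fun a => (r.1, a)) (fun _ _ e => (Prod.mk.inj e).2)
      (fun a => by rw [ccRows, if_pos r.2]; exact ⟨Finset.Subset.refl _, le_rfl⟩) (fun _ => rfl)
      (MD.const _) fun p => Eventually.of_forall fun x _ hp => hp.2 r.1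
  filter_upwards [eventually_all.2 h7, eventually_all.2 fun r : Q =>
    N.max (τ ++ [(m.2 r).1]) (m.2 r).2 (hc r).2 (hm.mono_left (hw r))] with x h8 h9 hx h10 h11
  refine (h4 x hx).2.2 ⟨m.1, fun r hr => ?_⟩
  obtain ⟨-, hr, hB⟩ := Finset.mem_filter.1 hr
  obtain ⟨ε, hε, e⟩ := (hc ⟨r, hr⟩).1
  exact ⟨ε, hε, fun h12 => h9 ⟨r, hr⟩ (h4 x hx).1 ((h4 x hx).2.1.snoc (e ▸ h12))
    (fun j hj => h10 j (hw _ hj)) (h8 ⟨_, hB⟩ trivial h11)⟩

/-- NODE -/
theorem FailP.step (X : Ctx C α A R0) (hd : d ∈ F.sup) (H : FailP C α A R0 F (Iic d) cc R u) :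
    Goal C α A R0 F ∨ ∃ F', Succ C F F' ∧ Fail C α A R0 F' (Iio d) := by
  obtain ⟨St, R', ρ, s, N⟩ := H.node X hd
  rcases (show α ≤ d from H.sc H.ok.mem).lt_or_eq with h | h
  · right
    by_cases hb : ∃ᶠ x in T.μ, R' x ∧ Al C cc F.mu (F.stepB d ρ s).Inf x
    · exact ⟨_, Or.inr (Or.inr ⟨d, hd, ρ, s, Or.inl rfl⟩), N.caseB h hb⟩
    have hc := N.caseC ((not_frequently.1 hb).mono fun x hx h1 h2 => hx ⟨h1, h2⟩)
    by_cases hK : T.isK d
    · obtain ⟨τ, E, Q, h1⟩ := N.caseK hK h hc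
      exact ⟨_, Or.inr (Or.inr ⟨d, hd, τ, s, Or.inr (Or.inl ⟨E, Q, rfl⟩)⟩), h1⟩
    · obtain ⟨τ, k, π, h1, h2⟩ := N.caseY hK h hc
      exact ⟨_, Or.inr (Or.inr ⟨d, hd, τ, s, Or.inr (Or.inr ⟨k, π, h1, rfl⟩)⟩), h2⟩
  · exact Or.inl (N.caseAlpha h.symm (N.caseC ((N.caseB' h.symm).mono fun x hx _ => hx)))

/-- the descent -/
theorem descent (X : Ctx C α A R0) (Dv : Fam T → Prop) (hD : ∀ F F', Dv F → Succ C F F' → Dv F')
    {c : Set T.ι} (h1 : Dv F) (h2 : Fail C α A R0 F c) : ∃ F', Dv F' ∧ Goal C α A R0 F' := by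
  have one : ∀ F c, Dv F → Fail C α A R0 F c → (∃ F', Dv F' ∧ Goal C α A R0 F') ∨
      ∃ d ∈ c, ∃ F', Dv F' ∧ Fail C α A R0 F' (Iio d) := by
    rintro F c h1 ⟨cc, R, u, H⟩
    obtain ⟨d, hd, ⟨cc', R', u', H'⟩, h⟩ := H.proj X
    have h3 := hD _ _ h1 (Or.inl ⟨d, rfl⟩)
    rcases h with h | h
    · rcases H'.step X (show d ∈ F.sup ∩ Iic d from ⟨h, mem_Iic.2 le_rfl⟩) with h4 | ⟨F', h4, h5⟩
      · exact Or.inl ⟨_, h3, h4⟩
      · exact Or.inr ⟨d, hd, F', hD _ _ h3 h4, h5⟩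
    · obtain ⟨q, h4⟩ := H'.elim X h
      exact Or.inr ⟨d, hd, _, hD _ _ h3 (Or.inr (Or.inl ⟨q, rfl⟩)), h4⟩
  have all : ∀ d : T.ι, ∀ F, Dv F → Fail C α A R0 F (Iio d) → ∃ F', Dv F' ∧ Goal C α A R0 F' := by
    intro d
    induction d using WellFoundedLT.induction with
    | ind d ih =>
      intro F h1 h2
      rcases one F _ h1 h2 with h | ⟨d', hd', F', h3, h4⟩
      exacts [h, ih d' hd' F' h3 h4]
  rcases one F c h1 h2 with h | ⟨d', -, F', h3, h4⟩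
  exacts [h, all d' F' h3 h4]

end Pool.Agent.MP_e30343_lc.SO

end

-- part MP_e30343_lc.SO.ThmD
section

/-! Sections 4 and 5: the descent theorem. -/

open Filter Set

namespace Pool.Agent.MP_e30343_lc.SO

open Tpl Fam

section

variable {T : Tpl} {P P' : Set T.ι} {F0 F F' : Fam T}

/-- a countable set of nodes has countably many cuts -/
theorem cuts_countable {ι : Type} [LinearOrder ι] [WellFoundedLT ι] {B : Set ι}
    (h : B.Countable) : (range fun d => B ∩ Iic d).Countable := by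
  refine ((h.image fun e => B ∩ Iio e).insert B).mono ?_
  rintro _ ⟨d, rfl⟩
  by_cases hd : {e | e ∈ B ∧ d < e}.Nonempty
  · have h1 := wellFounded_lt.min_mem _ hd
    refine Or.inr ⟨_, h1.1, Set.ext fun a => and_congr_right fun ha => ⟨fun h2 => ?_, fun h2 =>
      lt_of_le_of_lt h2 h1.2⟩⟩
    exact not_lt.1 fun h3 => wellFounded_lt.not_lt_min _ (show a ∈ {e | e ∈ B ∧ d < e} from
      ⟨ha, h3⟩) h2
  · exact Or.inl (inter_eq_left.2 fun a ha => not_lt.1 fun h2 => hd ⟨a, ha, h2⟩)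

theorem Fam.Succ.mono (h : Succ P F F') (e : P ⊆ P') : Succ P' F F' :=
  h.imp_right fun h => h.imp_right fun ⟨d, hd, ρ, s, h⟩ => ⟨d, hd, ρ, s, h.imp_right fun h =>
    h.imp_right fun ⟨k, π, h1, h2⟩ => ⟨k, π, h1.trans e, h2⟩⟩

theorem Fam.Succ.sup_count (h : Succ P F F') (hF : F.sup.Countable) : F'.sup.Countable := by
  rcases h with ⟨d, rfl⟩ | ⟨q, rfl⟩ | ⟨d, -, ρ, s, rfl | ⟨E, Q, rfl⟩ | ⟨k, π, -, rfl⟩⟩
  exacts [hF.mono inter_subset_left, hF, hF.mono inter_subset_left, hF.mono inter_subset_left,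
    clo_count ((hF.mono inter_subset_left).union π.countable_toSet)]

theorem Fam.Succ.sup_sub (h : Succ P F F') (hP : T.Clo P) (hF : F.sup ⊆ P) : F'.sup ⊆ P := by
  rcases h with ⟨d, rfl⟩ | ⟨q, rfl⟩ | ⟨d, -, ρ, s, rfl | ⟨E, Q, rfl⟩ | ⟨k, π, h, rfl⟩⟩
  exacts [inter_subset_left.trans hF, hF, inter_subset_left.trans hF, inter_subset_left.trans hF,
    clo_min hP (union_subset (inter_subset_left.trans hF) h)]

theorem succ_countable (hP : P.Countable) (hF : F.sup.Countable) :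
    {F' | Succ P F F'}.Countable := by
  have h1 : {π : Finset T.ι | ↑π ⊆ P}.Countable :=
    ((countable_ofPred_finite_subset hP).preimage (f := fun π : Finset T.ι => (π : Set T.ι))
      Finset.coe_injective).mono fun π h => And.intro π.finite_toSet h
  refine ((((cuts_countable hF).image F.proj).union (countable_range F.above)).union
    (hF.biUnion fun d _ => countable_iUnion fun ρ => countable_iUnion fun s =>
      ((countable_range fun a : Finset L × Finset L => F.stepK d ρ s a.1 a.2).union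
        (countable_iUnion fun k => h1.image (F.stepY d ρ s k))).insert (F.stepB d ρ s))).mono ?_
  rintro F' (⟨d, rfl⟩ | ⟨q, rfl⟩ | ⟨d, hd, ρ, s, h⟩)
  · exact Or.inl (Or.inl ⟨_, ⟨d, rfl⟩, rfl⟩)
  · exact Or.inl (Or.inr ⟨q, rfl⟩)
  · refine Or.inr (mem_iUnion₂.2 ⟨d, hd, mem_iUnion.2 ⟨ρ, mem_iUnion.2 ⟨s, ?_⟩⟩⟩)
    rcases h with rfl | ⟨E, Q, rfl⟩ | ⟨k, π, h, rfl⟩
    exacts [Or.inl rfl, Or.inr (Or.inl ⟨(E, Q), rfl⟩),
      Or.inr (Or.inr (mem_iUnion.2 ⟨k, π, h, rfl⟩))]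

/-- the families derived in `n` steps -/
def DerN (P : Set T.ι) (F0 : Fam T) : ℕ → Set (Fam T)
  | 0 => {F0}
  | n + 1 => ⋃ F ∈ DerN P F0 n, {F' | Succ P F F'}

theorem derN_ind {Φ : Fam T → Prop} (h0 : Φ F0) (h : ∀ F F', Φ F → Succ P F F' → Φ F') :
    ∀ n, ∀ F ∈ DerN P F0 n, Φ F
  | 0, _, hF => (mem_singleton_iff.1 hF) ▸ h0
  | n + 1, _, hF => by
    obtain ⟨F1, h1, h2⟩ := mem_iUnion₂.1 hF
    exact h _ _ (derN_ind h0 h n _ h1) h2

theorem derN_mono (e : P ⊆ P') : ∀ n, DerN P F0 n ⊆ DerN P' F0 n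
  | 0 => Subset.rfl
  | n + 1 => fun _ hF => by
    obtain ⟨F1, h1, h2⟩ := mem_iUnion₂.1 hF
    exact mem_iUnion₂.2 ⟨F1, derN_mono e n h1, Fam.Succ.mono h2 e⟩

theorem derN_countable (hP : P.Countable) (h0 : F0.sup.Countable) :
    ∀ n, (DerN P F0 n).Countable
  | 0 => countable_singleton _
  | n + 1 => (derN_countable hP h0 n).biUnion fun F hF => succ_countable hP
      (derN_ind (Φ := fun F => F.sup.Countable) h0 (fun _ _ h1 h2 => h2.sup_count h1) n F hF)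

theorem succ_stage {Cs : ℕ → Set T.ι} (hm : Monotone Cs) (h : Succ (⋃ p, Cs p) F F') :
    ∃ p, Succ (Cs p) F F' := by
  rcases h with h | h | ⟨d, hd, ρ, s, h | h | ⟨k, π, h, e⟩⟩
  · exact ⟨0, Or.inl h⟩
  · exact ⟨0, Or.inr (Or.inl h)⟩
  · exact ⟨0, Or.inr (Or.inr ⟨d, hd, ρ, s, Or.inl h⟩)⟩
  · exact ⟨0, Or.inr (Or.inr ⟨d, hd, ρ, s, Or.inr (Or.inl h)⟩)⟩
  · have h1 : ∀ a : π, ∃ p, a.1 ∈ Cs p := fun a => mem_iUnion.1 (h a.2)
    choose f hf using h1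
    obtain ⟨p, hp⟩ := Finite.exists_le f
    exact ⟨p, Or.inr (Or.inr ⟨d, hd, ρ, s, Or.inr (Or.inr
      ⟨k, π, fun a ha => hm (hp ⟨a, ha⟩) (hf ⟨a, ha⟩), e⟩)⟩)⟩

/-- the family the descent starts with -/
def start (C0 : Set T.ι) (Z : T.X → L → Prop) : Fam T where
  S := Empty
  fin := inferInstance
  I := L
  cnt := inferInstance
  w e := {e}
  U e x := {_p | Z x e}
  sup := C0
  mu := Empty.elim
  M := 1

end

/-- Theorem D. `HL C` is the list of the families derived with nodes from `C`. -/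
theorem thmD (T : Tpl) (α : T.ι) (hα : T.isK α) (C0 : Set T.ι) (h0 : C0.Countable)
    (h0' : T.Clo C0) (hα0 : α ∈ C0) (Z : T.X → L → Prop) (hZ : ∀ e, MD C0 fun x => Z x e)
    (hZ' : ∀ x e, Z x e → ∃ i, x α i = e) :
    ∃ HL : Set T.ι → Set (T.X → L → Prop),
      (∀ C : Set T.ι, C.Countable → (HL C).Countable) ∧
      (∀ C, T.Clo C → C0 ⊆ C → ∀ H ∈ HL C, ∀ e, MD (C ∩ Iio α) fun x => H x e) ∧
      ∀ Cs : ℕ → Set T.ι, Monotone Cs → (∀ p, (Cs p).Countable) → (∀ p, T.Clo (Cs p)) →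
        C0 ⊆ Cs 0 → ∀ (A : T.X → L → Prop) (R0 R : T.X → Prop) (k : ℕ),
        (∀ e, MD (Iio α) fun x => A x e) → MD (Iio α) R0 → Measurable R → (∃ᶠ x in T.μ, R x) →
        (∀ᶠ x in T.μ, R x → R0 x ∧ {e | Z x e}.Infinite ∧ ∀ e, Z x e → k ≤ nb e → A x e) →
        ∃ (p0 : ℕ) (R' : T.X → Prop), MD (Iio α) R' ∧ (∃ᶠ x in T.μ, R' x) ∧
          (∀ᶠ x in T.μ, R' x → R0 x) ∧
          ∀ R'' : T.X → Prop, MD (Iio α) R'' → (∃ᶠ x in T.μ, R'' x) →
            (∀ᶠ x in T.μ, R'' x → R' x) →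
            ∃ (Γ : Type) (_ : Finite Γ) (g0 : Γ) (y : Γ → T.X) (H : T.X → L → Prop) (J : Set L),
              (∀ g, R'' (y g)) ∧ (∀ g p, ∀ n ∈ Cs p, n < α → y g n = y g0 n) ∧
              (∀ p, p0 ≤ p → H ∈ HL (Cs p)) ∧ J ∈ KF gen ∧ KPos gen {e | H (y g0) e} ∧
              ∀ z ∈ J, ∀ z' ∈ J, H (y g0) z → H (y g0) z' → ∃ g, A (y g) z ∧ A (y g) z' := by
  classical
  refine ⟨fun C => {H | ∃ n, ∃ F ∈ DerN C (start C0 Z) n, ∃ ρ s p, H = F.Hl α ρ s p},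
    fun C hC => ?_, ?_, fun Cs hm _ hcl h00 A R0 R k hA hR0 hR hpos hsub => ?_⟩
  · refine (countable_iUnion fun n => (derN_countable (F0 := start C0 Z) hC h0 n).biUnion
      fun F _ => countable_range fun a : List L × Finset L × Kl F.S =>
        F.Hl α a.1 a.2.1 a.2.2).mono ?_
    rintro _ ⟨n, F, hF, ρ, s, p, rfl⟩
    exact mem_iUnion.2 ⟨n, mem_iUnion₂.2 ⟨F, hF, (ρ, s, p), rfl⟩⟩
  · rintro C hC h1 _ ⟨n, F, hF, ρ, s, p, rfl⟩ e
    exact (mt_ps _ _ p).mono (inter_subset_inter_left _ (derN_ind (Φ := fun F => F.sup ⊆ C) h1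
      (fun _ _ h2 h3 => h3.sup_sub hC h2) n F hF))
  have X : Ctx (⋃ p, Cs p) α A R0 := ⟨clo_iUnion hcl, hα, hA, hR0⟩
  have hE : IsEmpty (start C0 Z).S := inferInstanceAs (IsEmpty Empty)
  have ok : (start C0 Z).OK α := ⟨⟨h0, h0'⟩, hα0, fun e _ => hZ e,
    fun e => Eventually.of_forall fun x p hp => ⟨fun s => hE.elim s, fun k hk =>
      ⟨(k, p.2), hp, rfl, hk, fun s => hE.elim s⟩⟩,
    fun e p => Eventually.of_forall fun x hp => ⟨(Finset.card_singleton e).le, fun j hj =>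
      (Finset.mem_singleton.1 hj) ▸ hZ' x e hp⟩⟩
  have hu : {e | nb e < k}.Finite := (finite_lt_nat k).preimage nb_inj.injOn
  have H : FailP (⋃ p, Cs p) α A R0 (start C0 Z) univ Empty.elim R hu.toFinset := by
    refine ⟨ok, h00.trans (subset_iUnion Cs 0), subset_univ _, fun s => hE.elim s,
      fun s => hE.elim s, MD.of_meas hR, hpos, hsub.mono fun x hx h => (hx h).1, ?_, fun e he => ?_⟩
    · filter_upwards [hsub, al_triv (C := ⋃ p, Cs p) (cc := Empty.elim) (mu := (start C0 Z).mu)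
        ((mt_inf ok.mt).mono (subset_univ _))] with x h1 h2 h3
      refine h2 ⟨(0, Empty.elim), fun u => ?_⟩
      obtain ⟨e, h4, h5⟩ := (h1 h3).2.1.exists_notMem_finset u
      exact ⟨e, Finset.disjoint_singleton_left.2 h5, h4⟩
    · filter_upwards [hsub, al_sub_ev (C := ⋃ p, Cs p) (cc := Empty.elim) (mu := (start C0 Z).mu)
        (U := (start C0 Z).U e) (hZ e).univ' fun p => Eventually.of_forall fun _ h => h]
        with x h1 h2 h3 h4 h5
      refine h4 e (Finset.mem_singleton_self e) ((h1 h3).2.2 e (h2 h5) (not_lt.1 fun h6 => ?_))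
      exact Finset.disjoint_singleton_left.1 he (hu.mem_toFinset.2 h6)
  obtain ⟨F, ⟨p0, n, hF⟩, R', h1, h2, h3, h4⟩ := descent X
    (fun F => ∃ p n, F ∈ DerN (Cs p) (start C0 Z) n) (by
      rintro F F' ⟨p, n, hF⟩ hs
      obtain ⟨p', hs⟩ := succ_stage hm hs
      exact ⟨max p p', n + 1, mem_iUnion₂.2 ⟨F, derN_mono (hm (le_max_left _ _)) n hF,
        hs.mono (hm (le_max_right _ _))⟩⟩) ⟨0, 0, rfl⟩ ⟨_, _, _, H⟩
  refine ⟨p0, R', h1, h2, h3, fun R'' h5 h6 h7 => ?_⟩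
  obtain ⟨Γ, hΓ, g0, y, ρ, s, p, J, h8, h9, h10, h11, h12⟩ := h4 R'' h5 h6 h7
  exact ⟨Γ, hΓ, g0, y, F.Hl α ρ s p, J, h8, fun g q a ha _ => h9 g a (mem_iUnion.2 ⟨q, ha⟩),
    fun q hq => ⟨n, F, derN_mono (hm hq) n hF, ρ, s, p, rfl⟩, h10, h11, h12⟩

end Pool.Agent.MP_e30343_lc.SO

end

-- part MP_e30343_lc.SO.No3N
section

/-! Section 6, the case where T1 fails. -/

open Filter Set

namespace Pool.Agent.MP_e30343_lc.SO.N3

universe u

theorem ccc_inf {Ω : Type} [MeasurableSpace Ω] (l : Filter Ω) [CCC l] (s : Set Ω) :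
    CCC (l ⊓ 𝓟 s) := ⟨fun A hA => by
  obtain ⟨C, h1, h2, h3⟩ := CCC.sup (l := l) A hA
  exact ⟨C, h1, h2, fun P hP => (h3 P hP).filter_mono inf_le_left⟩⟩

variable {T : Tpl} {R0 : T.X → Prop}

/-- the properties of the node `α` -/
structure Nd (B : BG.{u} (T.μ ⊓ 𝓟 {x | R0 x})) (ev : L →* B.G) (α : T.ι) : Prop where
  isK : T.isK α
  r0 : MD (Iio α) R0
  ker : ∀ w, MD (Iio α) (B.nul (ev w))
  sel : ∀ A : ℕ → T.X → L → Prop, (∀ n w, MD (Iio α) fun x => A n x w) →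
    (∀ U n, ∀ᶠ x in T.μ ⊓ 𝓟 {x | R0 x}, ∃ w, (∀ j ≤ n, A j x w) ∧ B.mem (ev w) U x) →
    ∃ (y : T.X → ℕ → L) (g : B.G), (∀ l w, MD (Iio α) fun x => y x l = w) ∧
      (Nl B (fun _ => True) fun x l => g⁻¹ * ev (y x l)) ∧
      ∀ n, ∀ᶠ x in T.μ ⊓ 𝓟 {x | R0 x}, ∀ᶠ l in atTop, A n x (y x l)
  sep : ∀ (y : ℕ → T.X → ℕ → L) (g : ℕ → B.G), (∀ p l w, MD (Iio α) fun x => y p x l = w) →
    (∀ p, Nl B (fun _ => True) fun x l => (g p)⁻¹ * ev (y p x l)) →
    (∀ p, ∀ᶠ x in T.μ ⊓ 𝓟 {x | R0 x}, ∀ᶠ l in atTop, ∃ t, ev (y p x l) = B.a0 t) →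
    ∃ U V : ℕ → B.O, (∀ j w, MD (Iio α) (B.mem (ev w) (U j))) ∧
      (∀ j w, MD (Iio α) (B.mem (ev w) (V j))) ∧
      (∀ j a b c d, ∀ᶠ x in T.μ ⊓ 𝓟 {x | R0 x}, B.mem a (V j) x → B.mem b (V j) x →
        B.mem c (V j) x → B.mem d (V j) x → B.mem (a * b * c⁻¹ * d⁻¹) (U j) x) ∧
      ∀ᶠ x in T.μ ⊓ 𝓟 {x | R0 x}, ∃ j, ∃ᶠ p in atTop, ∀ᶠ l in atTop,
        ¬ B.mem (ev (y p x l)) (U j) x

theorem exists_nd (hT : T.Refl) (h1 : Measurable R0) (B : BG.{u} (T.μ ⊓ 𝓟 {x | R0 x}))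
    (h : NT1 B) (ev : L →* B.G) : ∃ α, Nd B ev α := by
  have := ccc_inf T.μ {x | R0 x}
  obtain ⟨α, hα, H⟩ := refl_ops hT (J := Option Bool) (κ := ℕ × ℕ × L) fun j f h =>
    match j with
    | none => h (0, 0, 1) = R0 ∧ ∀ w, h (1, 0, w) = B.nul (ev w)
    | some false => ∃ (y : T.X → ℕ → L) (g : B.G), (∀ l w, h (0, l, w) = fun x => y x l = w) ∧
        (Nl B (fun _ => True) fun x l => g⁻¹ * ev (y x l)) ∧
        ∀ n, ∀ᶠ x in T.μ ⊓ 𝓟 {x | R0 x}, ∀ᶠ l in atTop, f (n, 0, y x l) x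
    | some true => ∃ U V : ℕ → B.O, (∀ j w, h (j, 0, w) = B.mem (ev w) (U j)) ∧
        (∀ j w, h (j, 1, w) = B.mem (ev w) (V j)) ∧
        (∀ j a b c d, ∀ᶠ x in T.μ ⊓ 𝓟 {x | R0 x}, B.mem a (V j) x → B.mem b (V j) x →
          B.mem c (V j) x → B.mem d (V j) x → B.mem (a * b * c⁻¹ * d⁻¹) (U j) x) ∧
        ∀ᶠ x in T.μ ⊓ 𝓟 {x | R0 x}, ∃ j, ∃ᶠ p in atTop, ∀ᶠ l in atTop,
          ∀ w, f (p, l, w) x → ¬ B.mem (ev w) (U j) x
  obtain ⟨f, hf, e1, e2⟩ := H none (fun _ _ => True) (fun _ => MD.const _)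
    ⟨fun k => if k.1 = 0 then R0 else B.nul (ev k.2.2), fun k => by
      dsimp only
      split_ifs
      · exact h1
      · exact B.nul_meas _, by simp, by simp⟩
  refine ⟨α, hα, e1 ▸ hf _, fun w => e2 w ▸ hf _, fun A hA hacc => ?_, fun y g hy hg ha => ?_⟩
  · obtain ⟨y, g, hy, hg, hAy⟩ := selstar h ev A (fun n w => (hA n w).1) hacc
    obtain ⟨f, hf, y', g', e, h3⟩ := H (some false) (fun k x => A k.1 x k.2.2) (fun k => hA _ _)
      ⟨fun k x => y x k.2.1 = k.2.2, fun k => (hy _).2 _, y, g, fun _ _ => rfl, hg, hAy⟩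
    exact ⟨y', g', fun l w => e l w ▸ hf _, h3⟩
  · obtain ⟨U, hU⟩ := o3b_sep ev y (fun p l => Mx.of_cnt fun w => (hy p l w).1) g hg ha
    choose V hV using fun j => exists_four (U j)
    obtain ⟨f, hf, U', V', e1, e2, h3, h4⟩ := H (some true) (fun k x => y k.1 x k.2.1 = k.2.2)
      (fun k => hy _ _ _) ⟨fun k => B.mem (ev k.2.2) (if k.2.1 = 0 then U k.1 else V k.1),
        fun k => B.mem_meas _ _, U, V, by simp, by simp, hV, by simpa only [forall_eq', eventually_atTop] using hU⟩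
    exact ⟨U', V', fun j w => e1 j w ▸ hf _, fun j w => e2 j w ▸ hf _, h3, by simpa only [eventually_atTop, forall_eq'] using h4⟩

variable {B : BG.{u} (T.μ ⊓ 𝓟 {x | R0 x})} {ev : L →* B.G} {α : T.ι}

theorem Nd.seal' (H : Nd B ev α) (hc : ∀ c, Nl B (fun _ => True) fun _ n => ev (gen c n))
    (h0 : ∀ n, ev (gen 0 n) = B.c0 n) (U : B.O) : ∀ᶠ x in T.μ ⊓ 𝓟 {x | R0 x},
      ∃ w ∈ {w | (∃ i, x α i = w) ∧ ¬ B.nul (ev w) x}, B.mem (ev w) U x := by
  by_contra hcon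
  rw [not_eventually, frequently_inf_principal] at hcon
  obtain ⟨V, hV⟩ := B.tri U
  have hm : Measurable fun x : T.X => x ∈ {x | R0 x} ∧
      ¬ ∃ w ∈ {w | (∃ i, x α i = w) ∧ ¬ B.nul (ev w) x}, B.mem (ev w) U x :=
    H.r0.1.and (Measurable.exists fun w => ((Measurable.exists fun i =>
      (MD.letter (mem_univ α) i (· = w)).1).and (B.nul_meas _).not).and (B.mem_meas _ _)).not
  obtain ⟨C1, -, hC1, h1⟩ := (MD.of_meas hm).count
  obtain ⟨C2, -, hC2, h2⟩ := md_supp fun w => MD.of_meas (B.mem_meas (ev w) V)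
  obtain ⟨Ty, _, len, nx, Fc, F⟩ := exists_fc T α H.isK (C1 ∪ C2) (hC1.union hC2)
  refine sealing F (U0 := fun x w => B.mem (ev w) U x) (U1 := fun x w => B.mem (ev w) V x)
    (K := fun x w => B.nul (ev w) x) (R0 := R0)
    (fun w => (h2 w).mono (subset_union_right.trans subset_union_right))
    (h1.mono (subset_union_left.trans subset_union_right)) H.ker hcon (fun x hx => hx.1)
    (eventually_inf_principal.1 (ker_null h0)) ?_ (fun x hx i hi => ?_) fun N hN hn => ?_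
  · have : ∀ᶠ x in T.μ ⊓ 𝓟 {x | R0 x}, ∀ u v, B.mem (ev u) V x → B.mem (ev v) V x →
        B.mem (ev (u * v)) U x := by
      filter_upwards [B.mem_one V, eventually_countable_forall.2 fun u =>
        eventually_countable_forall.2 fun v => hV (ev u) 1 (ev v)] with x a b u v c d
      simpa using b u v c a d
    exact (eventually_inf_principal.1 this).mono fun x hx h => hx h.1
  · by_contra h
    exact hx.2 ⟨_, ⟨⟨i, rfl⟩, h⟩, hi⟩
  · obtain ⟨c, a1, a2, a3⟩ := nullseq hc H.sel N hN hn V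
    exact ⟨c, a1, fun n => eventually_inf_principal.1 (a2 n), eventually_inf_principal.1 a3⟩

/-- one step of the chain -/
theorem Nd.step (H : Nd B ev α) {c1 : ℕ → ℕ} {c2 : ℕ → ℕ → ℕ}
    (ha : ∀ i j k, ev (gen 0 i * gen (c1 i) j * gen (c2 i j) k) = B.a0 (i, j, k))
    {HL : Set (T.X → L → Prop)} (h1 : HL.Countable)
    (h2 : ∀ P ∈ HL, ∀ e, MD (Iio α) fun x => P x e) :
    ∃ (y : T.X → ℕ → L) (g : B.G) (S : Set T.ι) (Ψ : T.X → Prop), S ⊆ Iio α ∧ S.Countable ∧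
      (∀ l w, MD S fun x => y x l = w) ∧ (Nl B (fun _ => True) fun x l => g⁻¹ * ev (y x l)) ∧
      (∀ᶠ x in T.μ ⊓ 𝓟 {x | R0 x}, ∀ᶠ l in atTop, ∃ t, ev (y x l) = B.a0 t) ∧
      MD (Iio α) Ψ ∧ (∀ᶠ x in T.μ ⊓ 𝓟 {x | R0 x}, Ψ x) ∧
      ∀ x, Ψ x → ∀ P ∈ HL, ∀ E, ∀ᶠ l in atTop, WFam gen E {e | P x e} {1} →
        ∃ S, WFam gen E {e | P x e} S ∧ 1 ∈ S ∧ y x l ∈ S := by
  obtain ⟨P, hP⟩ := (h1.insert fun _ _ => False).exists_eq_range (insert_nonempty _ _)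
  have h3 : ∀ n e, MD (Iio α) fun x => P n x e := fun n e => by
    have : P n ∈ insert (fun _ _ => False) HL := hP ▸ mem_range_self n
    rcases this with h' | h'
    · rw [h']; exact MD.const _
    · exact h2 _ h' e
  choose Wm Ψ hWm hΨm hΨ hW1 hW2 using fun n => wfam_old (T := T) (P n) (h3 n)
  obtain ⟨e, he⟩ := exists_surjective_nat (ℕ × Finset L)
  have hA : ∀ (k : ℕ × Finset L) w, MD (Iio α) fun x =>
      Wm k.1 x k.2 {1} → ∃ S, Wm k.1 x k.2 S ∧ 1 ∈ S ∧ w ∈ S := fun k w =>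
    (hWm _ _ _).imp (MD.ex fun S => (hWm _ _ _).and (MD.const _))
  obtain ⟨y, g, hy, hg, hAy⟩ := H.sel (fun n x w => (∃ t, ev w = B.a0 t) ∧
      (Wm (e n).1 x (e n).2 {1} → ∃ S, Wm (e n).1 x (e n).2 S ∧ 1 ∈ S ∧ w ∈ S))
    (fun n w => (MD.const _).and (hA _ w)) fun U n => by
      filter_upwards [tr_leaves U, (eventually_countable_forall.2 hΨ).filter_mono inf_le_left]
        with x a b
      have hcl : ∀ j, ClosedFam gen {S | Wm (e j).1 x (e j).2 S} := fun j => by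
        have e' : {S | Wm (e j).1 x (e j).2 S} = {S | WFam gen (e j).2 {w | P (e j).1 x w} S} :=
          Set.ext fun S => ⟨hW2 _ x (b _) _ S, hW1 _ x _ S⟩
        exact e' ▸ WFam.closed _ _
      have h4 := (eventually_all_finite (finite_Iic n)).2 fun j _ => cf_acc (hcl j) c1 c2
      obtain ⟨i, a1, b1⟩ := (a.and h4).exists
      obtain ⟨j, a2, b2⟩ := (a1.and ((eventually_all_finite (finite_Iic n)).2 b1)).exists
      obtain ⟨k, a3, b3⟩ := (a2.and ((eventually_all_finite (finite_Iic n)).2 b2)).exists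
      exact ⟨_, fun m hm => ⟨⟨_, ha i j k⟩, b3 m hm⟩, by rwa [ha]⟩
  obtain ⟨S, hS1, hS2, hS3⟩ := md_supp (κ := ℕ × L) (P := fun k x => y x k.1 = k.2)
    fun k => hy _ _
  refine ⟨y, g, S, fun x => (∀ n, Ψ n x) ∧ ∀ k : ℕ × Finset L, ∀ᶠ l in atTop,
      Wm k.1 x k.2 {1} → ∃ S, Wm k.1 x k.2 S ∧ 1 ∈ S ∧ y x l ∈ S, hS1, hS2,
    fun l w => hS3 (l, w), hg, (hAy 0).mono fun x hx => hx.mono fun l hl => hl.1,
    (MD.all hΨm).and (MD.all fun k => MD.ev fun l => MD.sub (hA k) (hy l)), ?_, ?_⟩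
  · filter_upwards [eventually_countable_forall.2 hAy,
      (eventually_countable_forall.2 hΨ).filter_mono inf_le_left] with x a b
    refine ⟨b, fun k => ?_⟩
    obtain ⟨n, rfl⟩ := he k
    exact (a n).mono fun l hl => hl.2
  · rintro x ⟨a, b⟩ P' hP' E
    obtain ⟨n, rfl⟩ : P' ∈ range P := hP ▸ mem_insert_of_mem _ hP'
    filter_upwards [b (n, E)] with l hl hW
    obtain ⟨S, c1, c2⟩ := hl (hW1 n x E _ hW)
    exact ⟨S, hW2 n x (a n) E S c1, c2⟩

theorem no3_nt1 (hT : T.Refl) (h1 : Measurable R0) (h2 : ∃ᶠ x in T.μ, R0 x)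
    (B : BG.{u} (T.μ ⊓ 𝓟 {x | R0 x})) (h : NT1 B) : False := by
  have : (T.μ ⊓ 𝓟 {x | R0 x}).NeBot := frequently_iff_neBot.1 h2
  obtain ⟨ev, c1, c2, hc, h0, hb, ha⟩ := exists_ev B
  have ha' : ∀ i j k, ev (gen 0 i * gen (c1 i) j * gen (c2 i j) k) = B.a0 (i, j, k) := by
    intro i j k
    simp [h0, hb, ha]
  obtain ⟨α, H⟩ := exists_nd hT h1 B h ev
  obtain ⟨z, g0, hz, hzg, hzD, hzi⟩ := tri_seq ev
    (D := fun x => {w | (∃ i, x α i = w) ∧ ¬ B.nul (ev w) x})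
    (fun w => (Measurable.exists fun i => (MD.letter (mem_univ α) i (· = w)).1).and
      (B.nul_meas _).not) (H.seal' hc h0) (.of_forall fun x w hw => hw.2)
  obtain ⟨C, -, hC, hCz⟩ := md_supp (κ := ℕ × L) (P := fun k x => z x k.1 = k.2)
    fun k => MD.of_meas ((hz _).2 _)
  have hsub : insert α C ⊆ T.clo (insert α C) := Tpl.subset_clo _
  obtain ⟨HL, hL1, hL2, hD⟩ := thmD T α H.isK (T.clo (insert α C)) (Tpl.clo_count (hC.insert α))
    (Tpl.clo_clo _) (hsub (mem_insert _ _)) (fun x e => (∃ n, z x n = e) ∧ ∃ i, x α i = e)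
    (fun e => (MD.ex fun n => (hCz (n, e)).mono ((subset_insert _ _).trans hsub)).and
      (MD.ex fun i => MD.letter (hsub (mem_insert _ _)) i (· = e))) fun x e he => he.2
  let 𝒞 := {D : Set T.ι // D.Countable ∧ T.Clo D ∧ T.clo (insert α C) ⊆ D}
  choose y g S Ψ hS1 hS2 hy hg hya hΨm hΨ hΨ' using fun D : 𝒞 => H.step ha' (hL1 D.1 D.2.1)
    fun P hP e => (hL2 D.1 D.2.2.1 D.2.2.2 P hP e).mono inter_subset_right
  let nx : 𝒞 → 𝒞 := fun D => ⟨T.clo (D.1 ∪ S D), Tpl.clo_count (D.2.1.union (hS2 D)),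
    Tpl.clo_clo _, D.2.2.2.trans (subset_union_left.trans (Tpl.subset_clo _))⟩
  let D : ℕ → 𝒞 := fun p => nx^[p] ⟨_, Tpl.clo_count (hC.insert α), Tpl.clo_clo _, Subset.rfl⟩
  have hDs : ∀ p, D (p + 1) = nx (D p) := fun p => Function.iterate_succ_apply' _ _ _
  have hmono : Monotone fun p => (D p).1 := monotone_nat_of_le_succ fun p => by
    rw [hDs]; exact subset_union_left.trans (Tpl.subset_clo _)
  have hSD : ∀ p, S (D p) ⊆ (D (p + 1)).1 := fun p => by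
    rw [hDs]; exact subset_union_right.trans (Tpl.subset_clo _)
  have hyO : ∀ p l w, MD (Iio α) fun x => y (D p) x l = w := fun p l w => (hy _ l w).mono (hS1 _)
  obtain ⟨U, V, hU, hV, h4, hbad⟩ := H.sep (fun p => y (D p)) (fun p => g (D p)) hyO
    (fun p => hg _) fun p => hya _
  have hbm : ∀ j p, MD (Iio α) fun x => ∀ᶠ l in atTop, ¬ B.mem (ev (y (D p) x l)) (U j) x :=
    fun j p => MD.ev fun l => (MD.sub (φ := fun w x => B.mem (ev w) (U j) x) (hU j) (hyO p l)).not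
  have h5 : ∃ᶠ x in T.μ ⊓ 𝓟 {x | R0 x}, ∃ q : ℕ × ℕ × L,
      (∃ᶠ p in atTop, ∀ᶠ l in atTop, ¬ B.mem (ev (y (D p) x l)) (U q.1) x) ∧
      (∀ k, ∃ n, k ≤ nb (z x n)) ∧ (∀ n, ∃ i, x α i = z x n) ∧
      ∀ n, q.2.1 ≤ nb (z x n) → B.mem (ev (z x n * q.2.2⁻¹)) (V q.1) x := by
    refine (hzi.and_eventually (hzD.and (hbad.and (eventually_countable_forall.2 fun j =>
      nl_cauchy hzg (fun l => (hz l).map ev) (V j))))).mono ?_
    rintro x ⟨a, b, ⟨j, c⟩, d⟩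
    obtain ⟨k, hk⟩ := d j trivial
    refine ⟨(j, (Finset.range k).sup (fun n => nb (z x n)) + 1, z x k), c, fun k' => ?_,
      fun n => (b n).1, fun n hn => ?_⟩
    · by_contra hcon
      push Not at hcon
      refine a (((finite_Iio k').preimage nb_inj.injOn).subset ?_)
      rintro _ ⟨n, rfl⟩
      exact hcon n
    · have hkn : k ≤ n := by
        by_contra hlt
        have := Finset.le_sup (f := fun n => nb (z x n)) (Finset.mem_range.2 (not_le.1 hlt))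
        simp only at hn this
        omega
      simpa only [map_mul, map_inv] using (hk n k hkn le_rfl).2
  obtain ⟨⟨j, k, z0⟩, h5⟩ := fr_ex h5
  rw [frequently_inf_principal] at h5
  obtain ⟨p0, R', hR'm, hR'p, hR'0, hfin⟩ := hD (fun p => (D p).1) hmono (fun p => (D p).2.1)
    (fun p => (D p).2.2.1) (D 0).2.2.2 (fun x e => B.mem (ev (e * z0⁻¹)) (V j) x)
    (fun x => R0 x ∧ ∃ᶠ p in atTop, ∀ᶠ l in atTop, ¬ B.mem (ev (y (D p) x l)) (U j) x) _ k
    (fun e => hV j _) (H.r0.and (MD.fr (hbm j)))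
    (h1.and ((MD.fr (hbm j)).1.and ((Measurable.forall fun k => Measurable.exists fun n =>
      (hz n).meas (φ := fun w _ => k ≤ nb w) fun _ => measurable_const).and
      ((Measurable.forall fun n => (hz n).meas (φ := fun w x => ∃ i, x α i = w) fun w =>
        Measurable.exists fun i => (MD.letter (mem_univ α) i (· = w)).1).and
      (Measurable.forall fun n => (hz n).meas
        (φ := fun w x => k ≤ nb w → B.mem (ev (w * z0⁻¹)) (V j) x)
        fun w => measurable_const.imp (B.mem_meas _ _)))))) h5 (.of_forall (by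
      rintro x ⟨a, b, c, d, e⟩
      refine ⟨⟨a, b⟩, fun hf => ?_, ?_⟩
      · obtain ⟨k', hk'⟩ := (hf.image nb).bddAbove
        obtain ⟨n, hn⟩ := c (k' + 1)
        have := hk' (mem_image_of_mem nb (show z x n ∈ _ from ⟨⟨n, rfl⟩, d n⟩))
        omega
      · rintro _ ⟨⟨n, rfl⟩, -⟩ hn
        exact e n hn))
  have h6 : ∃ᶠ x in T.μ, ∃ p, p0 ≤ p ∧ R' x ∧
      ∀ᶠ l in atTop, ¬ B.mem (ev (y (D p) x l)) (U j) x := by
    refine (hR'p.and_eventually hR'0).mono fun x hx => ?_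
    obtain ⟨p, a, b⟩ := ((hx.2 hx.1).2.and_eventually (eventually_ge_atTop p0)).exists
    exact ⟨p, b, hx.1, a⟩
  obtain ⟨p, h6⟩ := fr_ex h6
  let Θ : T.X → Prop := fun x => Ψ (D p) x ∧ B.mem (ev 1) (V j) x ∧
    (∀ u, B.mem (ev u) (V j) x → ∀ a c, ∀ᶠ n in atTop,
      B.mem (ev ((route gen a c n)⁻¹ * u)) (V j) x) ∧
    ∀ a b c d, B.mem (ev a) (V j) x → B.mem (ev b) (V j) x → B.mem (ev c) (V j) x →
      B.mem (ev d) (V j) x → B.mem (ev (a * b * c⁻¹ * d⁻¹)) (U j) x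
  have hΘm : MD (Iio α) Θ := (hΨm _).and ((hV j _).and ((MD.all fun u => (hV j u).imp
    (MD.all fun a => MD.all fun c => MD.ev fun n => hV j _)).and (MD.all fun a => MD.all fun b =>
      MD.all fun c => MD.all fun d => (hV j a).imp ((hV j b).imp ((hV j c).imp
        ((hV j d).imp (hU j _)))))))
  have hΘ : ∀ᶠ x in T.μ ⊓ 𝓟 {x | R0 x}, Θ x := by
    filter_upwards [hΨ (D p), B.mem_one (V j), tr_left hc (V j),
      eventually_countable_forall.2 fun a => eventually_countable_forall.2 fun b =>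
        eventually_countable_forall.2 fun c => eventually_countable_forall.2 fun d =>
          h4 j (ev a) (ev b) (ev c) (ev d)] with x a b c d
    exact ⟨a, by simpa using b, c, by simpa only [map_mul, map_inv] using d⟩
  obtain ⟨Γ, _, γ0, yy, P, J, a1, a2, a3, a4, a5, a6⟩ := hfin (fun x => (p0 ≤ p ∧ R' x ∧
      ∀ᶠ l in atTop, ¬ B.mem (ev (y (D p) x l)) (U j) x) ∧ Θ x)
    (((MD.const _).and (hR'm.and (hbm j p))).and hΘm)
    ((h6.and_eventually (hR'0.and (eventually_inf_principal.1 hΘ))).mono fun x hx =>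
      ⟨hx.1, hx.2.2 (hx.2.1 hx.1.2.1).1⟩) (.of_forall fun x hx => hx.1.2.1)
  refine crux a5 a4 (fun γ w => B.mem (ev w) (U j) (yy γ)) (fun γ w => B.mem (ev w) (V j) (yy γ)) z0
    (fun γ => (a1 γ).2.2.1) (fun γ => (a1 γ).2.2.2.1) (fun γ => (a1 γ).2.2.2.2) a6
    (y (D p) (yy γ0)) (hΨ' _ _ (a1 γ0).2.1 P (a3 p (a1 γ0).1.1)) fun γ => ?_
  filter_upwards [(a1 γ).1.2.2] with l hl
  rwa [((hy (D p) l _).2 (yy γ) (yy γ0) fun n hn => a2 γ (p + 1) n (hSD p hn) (hS1 _ hn)).2 rfl]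
    at hl

end Pool.Agent.MP_e30343_lc.SO.N3

end

-- part MP_e30343_lc.SO.No3
section

/-! Section 6: no group of sequential order 3. -/

open Filter Set

namespace Pool.Agent.MP_e30343_lc.SO

theorem no3 (T : Tpl) (hT : T.Refl) (R0 : T.X → Prop) (h1 : Measurable R0) (h2 : ∃ᶠ x in T.μ, R0 x)
    (G : BG.{1} (T.μ ⊓ 𝓟 {x | R0 x})) : False := by
  refine N3.no3_nt1 hT h1 h2 G fun cols hc R hR hRp => ?_
  by_contra hcon
  refine no3_t1 T hT R0 h1 G cols hc R hR hRp fun R' i n g a b c d e => ?_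
  by_contra h
  refine hcon ⟨R', i, n, g, a, ?_, fun l => N3.Mx.of_meas (b l), fun l => N3.Mx.of_meas (c l), d, e⟩
  exact (not_eventually.1 h).mono fun x hx =>
    ⟨(Classical.not_imp.1 hx).1, not_not.1 (Classical.not_imp.1 hx).2⟩

end Pool.Agent.MP_e30343_lc.SO

end
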