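import Pool.Agent.MP_e30343_lc.SO.BG
import Pool.Agent.MP_e30343_lc.SO.MDl

attribute [-instance] MonTypeEquivalenceMon.monMonoid DivisionCommMonoid.toDivisionMonoid
  instDistribOfSemiring NonUnitalRingHomClass.toMulHomClass MulZeroClass.toMul
  NonUnitalAlgSemiHomClass.toMulHomClass SemigroupWithZero.toSemigroup
  NonUnitalRing.toNonUnitalNonAssocRing Fintype.decidableExistsFintype
  NonAssocSemiring.toNonUnitalNonAssocSemiring AddMonoidWithOne.toOne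
  NonUnitalSemiring.toNonUnitalNonAssocSemiring GroupWithZero.toDivisionMonoid
  NonUnitalNormedCommRing.toNonUnitalCommRing LieAdmissibleRing.toNonUnitalNonAssocRing
  NonUnitalNonAssocCommSemiring.toNonUnitalNonAssocSemiring
  NonUnitalSeminormedCommRing.toNonUnitalCommRing NonAssocRing.toNonUnitalNonAssocRing
  Semifield.toDivisionSemiring CommSemiring.toSemiring DivisionRing.toDivInvMonoid
  NonAssocCommRing.toNonUnitalNonAssocCommRing MonoidWithZero.toMulZeroOneClass instCoeTCOfCoe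
  Fintype.decidableForallFintype Ring.toSemiring

-- part MP_e30343_lc.SO.No3TB
section

/-! Calculus of convergence in a Boolean valued group. -/

open Filter Set

namespace Pool.Agent.MP_e30343_lc.SO.T1

universe u

variable {X : Type}

/-- measurable selection from a countable type -/
theorem msel [MeasurableSpace X] {α : Type} [Countable α] [Nonempty α] (φ : X → α → Prop)
    (h : ∀ a, Measurable fun x => φ x a) :
    ∃ f : X → α, (∀ a, Measurable fun x => f x = a) ∧ ∀ x, (∃ a, φ x a) → φ x (f x) := by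
  classical
  obtain ⟨e, he⟩ := exists_surjective_nat α
  have hex : ∀ x, ∃ n : ℕ, (φ x (e n) ∨ ¬ ∃ m, φ x (e m)) := by
    intro x
    by_cases hx : ∃ m, φ x (e m)
    · obtain ⟨m, hm⟩ := hx
      exact ⟨m, Or.inl hm⟩
    · exact ⟨0, Or.inr hx⟩
  have hm : Measurable fun x => Nat.find (hex x) := by
    refine measurable_find hex fun k => ?_
    refine measurableSet_setOfPred.2 ?_
    exact (h _).or (Measurable.exists fun m => h _).not
  refine ⟨fun x => e (Nat.find (hex x)), fun a => ?_, fun x hx => ?_⟩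
  · exact (measurable_from_top (f := fun n : ℕ => e n = a)).comp hm
  · rcases Nat.find_spec (hex x) with h1 | h1
    · exact h1
    · obtain ⟨a, ha⟩ := hx
      obtain ⟨m, rfl⟩ := he a
      exact absurd ⟨m, ha⟩ h1

theorem meas_fr [MeasurableSpace X] {P : ℕ → X → Prop} (h : ∀ n, Measurable (P n)) :
    Measurable fun x => ∃ᶠ n in atTop, P n x := by
  simp only [frequently_atTop]
  exact Measurable.forall fun a => Measurable.exists fun b => measurable_const.and (h b)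

/-- countable range -/
def CR {α G : Type*} (q : X → α → G) : Prop := ∃ S : Set G, S.Countable ∧ ∀ x n, q x n ∈ S

section CR
variable {α β G : Type*}

theorem CR.of_ct {κ : Type*} [Countable κ] (e : κ → G) (w : X → α → κ) :
    CR fun x n => e (w x n) := ⟨range e, countable_range e, fun _ _ => mem_range_self _⟩

theorem CR.const (g : G) : CR fun (_ : X) (_ : α) => g := ⟨{g}, countable_singleton g, fun _ _ => rfl⟩

theorem CR.seq [Countable α] (g : α → G) : CR fun (_ : X) n => g n := CR.of_ct g fun _ n => n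

theorem CR.comp {q : X → α → G} (h : CR q) (φ : X → β → α) : CR fun x n => q x (φ x n) :=
  let ⟨S, h1, h2⟩ := h; ⟨S, h1, fun _ _ => h2 _ _⟩

theorem CR.mul [Mul G] {q q' : X → α → G} (h : CR q) (h' : CR q') :
    CR fun x n => q x n * q' x n :=
  let ⟨S, h1, h2⟩ := h; let ⟨S', h1', h2'⟩ := h'
  ⟨image2 (· * ·) S S', h1.image2 h1' _, fun x n => mem_image2_of_mem (h2 x n) (h2' x n)⟩

theorem CR.inv [Inv G] {q : X → α → G} (h : CR q) : CR fun x n => (q x n)⁻¹ :=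
  let ⟨S, h1, h2⟩ := h; ⟨(·⁻¹) '' S, h1.image _, fun x n => mem_image_of_mem _ (h2 x n)⟩

variable {ν : Filter X} [CountableInterFilter ν]

theorem CR.ae {q : X → α → G} (h : CR q) {p : G → X → Prop} (hp : ∀ g, ∀ᶠ x in ν, p g x) :
    ∀ᶠ x in ν, ∀ n, p (q x n) x :=
  let ⟨_, h1, h2⟩ := h
  ((eventually_countable_ball h1).2 fun g _ => hp g).mono fun x hx n => hx _ (h2 x n)

theorem CR.ae2 {q : X → α → G} {q' : X → β → G} (h : CR q) (h' : CR q') {p : G → G → X → Prop}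
    (hp : ∀ g g', ∀ᶠ x in ν, p g g' x) : ∀ᶠ x in ν, ∀ n m, p (q x n) (q' x m) x :=
  h.ae (p := fun g x => ∀ m, p g (q' x m) x) fun g => h'.ae (hp g)

end CR

variable [MeasurableSpace X] {ν : Filter X}

variable (B : BG.{u} ν)

/-- `q` tends to `1` on `R` -/
def Nl (R : X → Prop) (q : X → ℕ → B.G) : Prop := NlR ν B.mem R q

variable {B} {R R' : X → Prop} {q q' q'' : X → ℕ → B.G}

theorem Nl.mono (h : Nl B R q) (hR : ∀ᶠ x in ν, R' x → R x) : Nl B R' q := fun U => by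
  filter_upwards [h U, hR] with x h1 h2 h3 using h1 (h2 h3)

theorem Nl.of_true (h : Nl B (fun _ => True) q) (R : X → Prop) : Nl B R q :=
  h.mono (Eventually.of_forall fun _ _ => trivial)

theorem Nl.comp (h : Nl B R q) {φ : X → ℕ → ℕ}
    (hφ : ∀ᶠ x in ν, R x → Tendsto (φ x) atTop atTop) : Nl B R fun x n => q x (φ x n) :=
  fun U => by
    filter_upwards [h U, hφ] with x h1 h2 h3 using (h2 h3).eventually (h1 h3)

theorem Nl.congr_eq (h : Nl B R q) (he : ∀ᶠ x in ν, R x → ∀ᶠ n in atTop, q x n = q' x n) :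
    Nl B R q' := fun U => by
  filter_upwards [h U, he] with x h1 h2 h3
  filter_upwards [h1 h3, h2 h3] with n h4 h5 using h5 ▸ h4

theorem Nl.of_eq (h : Nl B R q) (he : ∀ x n, q x n = q' x n) : Nl B R q' :=
  h.congr_eq (Eventually.of_forall fun x _ => Eventually.of_forall (he x))

theorem nl_one (R : X → Prop) : Nl B R fun _ _ => 1 := fun U =>
  (B.mem_one U).mono fun _ hx _ => Eventually.of_forall fun _ => hx

theorem nul_inv (g : B.G) : ∀ᶠ x in ν, B.nul g x → B.nul g⁻¹ x := by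
  filter_upwards [B.nul_one, B.nul_div 1 g] with x h1 h2 h3
  simpa using h2 h1 h3

theorem nul_mul (g h : B.G) : ∀ᶠ x in ν, B.nul g x → B.nul h x → B.nul (g * h) x := by
  filter_upwards [nul_inv h, B.nul_div g h⁻¹] with x h1 h2 h3 h4
  simpa using h2 h3 (h1 h4)

theorem mem_of_nul (g : B.G) (U : B.O) : ∀ᶠ x in ν, B.nul g x → B.mem g U x := by
  filter_upwards [B.mem_one U, B.mem_nul 1 g U] with x h1 h2 h3
  exact h2 (by simpa using h3) h1

variable [CountableInterFilter ν]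

theorem Nl.cover {κ : Type} [Countable κ] {P : κ → X → Prop} (h : ∀ k, Nl B (P k) q)
    (hR : ∀ᶠ x in ν, R x → ∃ k, P k x) : Nl B R q := fun U => by
  filter_upwards [eventually_countable_forall.2 fun k => h k U, hR] with x h1 h2 h3
  obtain ⟨k, hk⟩ := h2 h3
  exact h1 k hk

/-- a family of null sequences, one of which is chosen at each point -/
theorem Nl.pick {κ : Type} [Countable κ] {p : κ → X → ℕ → B.G} (h : ∀ k, Nl B R (p k))
    (f : X → κ) : Nl B R fun x n => p (f x) x n := fun U => by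
  filter_upwards [eventually_countable_forall.2 fun k => h k U] with x h1 h3 using h1 _ h3

theorem Nl.tri (h : Nl B R q) (h' : Nl B R q') (h'' : Nl B R q'') (c : CR q) (c' : CR q')
    (c'' : CR q'') : Nl B R fun x n => q x n * (q' x n)⁻¹ * q'' x n := fun U => by
  obtain ⟨V, hV⟩ := B.tri U
  filter_upwards [h V, h' V, h'' V, c.ae (p := fun g x => ∀ n m, B.mem g V x →
    B.mem (q' x n) V x → B.mem (q'' x m) V x → B.mem (g * (q' x n)⁻¹ * q'' x m) U x)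
    fun g => c'.ae2 c'' (hV g)] with x h1 h2 h3 h4 h5
  filter_upwards [h1 h5, h2 h5, h3 h5] with n a b d using h4 n n n a b d

theorem Nl.mul (h : Nl B R q) (h' : Nl B R q') (c : CR q) (c' : CR q') :
    Nl B R fun x n => q x n * q' x n :=
  (h.tri (nl_one R) h' c (CR.const _) c').of_eq fun _ _ => by simp

theorem Nl.inv (h : Nl B R q) (c : CR q) : Nl B R fun x n => (q x n)⁻¹ :=
  ((nl_one R).tri h (nl_one R) (CR.const _) c (CR.const _)).of_eq fun _ _ => by simp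

theorem Nl.conj (h : Nl B R q) (c : CR q) {l : X → B.G} (cl : CR fun x (_ : Unit) => l x) :
    Nl B R fun x n => l x * q x n * (l x)⁻¹ := fun U => by
  choose V hV using B.conj U
  filter_upwards [cl.ae (p := fun g x => (R x → ∀ᶠ n in atTop, B.mem (q x n) (V g) x) ∧
    ∀ n, B.mem (q x n) (V g) x → B.mem (g * q x n * g⁻¹) U x)
    fun g => (h (V g)).and (c.ae (hV g))] with x h1 h2
  exact ((h1 ()).1 h2).mono fun n hn => (h1 ()).2 n hn

theorem Nl.congr (h : Nl B R q) (c : CR q) (c' : CR q')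
    (he : ∀ᶠ x in ν, R x → ∀ᶠ n in atTop, B.nul ((q x n)⁻¹ * q' x n) x) : Nl B R q' := fun U => by
  filter_upwards [h U, he, c.ae2 c' fun g g' => B.mem_nul g g' U] with x h1 h2 h3 h4
  filter_upwards [h1 h4, h2 h4] with n a b using h3 n n b a

theorem nl_of_nul (c : CR q) (he : ∀ᶠ x in ν, R x → ∀ᶠ n in atTop, B.nul (q x n) x) :
    Nl B R q := (nl_one R).congr (CR.const _) c (by simpa only [inv_one, one_mul, eventually_atTop] using he)

/-- Hausdorff: a value taken infinitely often by a null sequence is `1` -/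
theorem Nl.nul_of_freq (h : Nl B R q) {l : X → B.G} (cl : CR fun x (_ : Unit) => l x) :
    ∀ᶠ x in ν, R x → (∃ᶠ n in atTop, q x n = l x) → B.nul (l x) x := by
  choose U hU using B.haus
  filter_upwards [cl.ae (p := fun g x => (R x → ∀ᶠ n in atTop, B.mem (q x n) (U g) x) ∧
    (B.mem g (U g) x → B.nul g x)) fun g => (h (U g)).and (hU g)] with x h1 h2 h3
  obtain ⟨n, hn1, hn2⟩ := (h3.and_eventually ((h1 ()).1 h2)).exists
  exact (h1 ()).2 (hn1 ▸ hn2)

/-- a sequence converging to a point of an open set is eventually in the set -/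
theorem Nl.mem (c : CR q) {l : X → B.G} (cl : CR fun x (_ : Unit) => l x)
    (h : Nl B R fun x n => (l x)⁻¹ * q x n) (U : B.O) :
    ∀ᶠ x in ν, R x → B.mem (l x) U x → ∀ᶠ n in atTop, B.mem (q x n) U x := by
  choose V hV using B.opn U
  have c' : CR fun x n => (l x)⁻¹ * q x n := (cl.comp fun _ _ => ()).inv.mul c
  filter_upwards [cl.ae (p := fun g x => (R x → ∀ᶠ n in atTop, B.mem ((l x)⁻¹ * q x n) (V g) x) ∧
    ∀ n, B.mem g U x → B.mem ((l x)⁻¹ * q x n) (V g) x → B.mem (g * ((l x)⁻¹ * q x n)) U x)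
    fun g => (h (V g)).and (c'.ae (hV g))] with x h1 h2 h3
  filter_upwards [(h1 ()).1 h2] with n hn
  simpa using (h1 ()).2 n h3 hn

/-- if `l⁻¹ q → 1` and `p → 1` then `l⁻¹ (p⁻¹ q) → 1` -/
theorem Nl.strip (cq : CR q) (cp : CR q') {l : X → B.G} (cl : CR fun x (_ : Unit) => l x)
    (h : Nl B R fun x n => (l x)⁻¹ * q x n) (hp : Nl B R q') :
    Nl B R fun x n => (l x)⁻¹ * ((q' x n)⁻¹ * q x n) := by
  have cl' : CR fun x (_ : ℕ) => l x := cl.comp fun _ _ => ()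
  have h1 := ((hp.inv cp).conj cp.inv cl.inv).mul h ((cl'.inv.mul cp.inv).mul cl'.inv.inv)
    (cl'.inv.mul cq)
  exact h1.of_eq fun _ _ => by group

/-- limits are unique -/
theorem Nl.unique (cq : CR q) {l l' : X → B.G} (cl : CR fun x (_ : Unit) => l x)
    (cl' : CR fun x (_ : Unit) => l' x) (h : Nl B R fun x n => (l x)⁻¹ * q x n)
    (h' : Nl B R fun x n => (l' x)⁻¹ * q x n) : ∀ᶠ x in ν, R x → B.nul ((l x)⁻¹ * l' x) x := by
  have c1 : CR fun x n => (l x)⁻¹ * q x n := (cl.comp fun _ _ => ()).inv.mul cq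
  have c2 : CR fun x n => (l' x)⁻¹ * q x n := (cl'.comp fun _ _ => ()).inv.mul cq
  have h1 := (h.mul (h'.inv c2) c1 c2.inv).nul_of_freq (l := fun x => (l x)⁻¹ * l' x)
    (cl.inv.mul cl')
  filter_upwards [h1] with x hx hR
  exact hx hR (Frequently.of_forall fun n => by group)

/-- a sequence in `D` with a limit has infinite range somewhere, or its limit is in `D` -/
theorem lift_lim {κ : Type} [Countable κ] [Nonempty κ] (e : κ → B.G) {z : X → ℕ → κ}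
    (hz : ∀ n w, Measurable fun x => z x n = w) {l : B.G}
    (h : Nl B R fun x n => l⁻¹ * e (z x n)) (hfin : ∀ᶠ x in ν, R x → (range (z x)).Finite) :
    ∃ w : X → κ, (∀ a, Measurable fun x => w x = a) ∧
      ∀ᶠ x in ν, R x → (∃ n, z x n = w x) ∧ B.nul (l⁻¹ * e (w x)) x := by
  obtain ⟨w, hw1, hw2⟩ := msel (fun x a => ∃ᶠ n in atTop, z x n = a)
    fun a => meas_fr fun n => hz n a
  refine ⟨w, hw1, ?_⟩
  filter_upwards [hfin, h.nul_of_freq (l := fun x => l⁻¹ * e (w x))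
    ((CR.const _).mul (CR.of_ct e fun x _ => w x))] with x h1 h2 h3
  have : ∃ a, ∃ᶠ n in atTop, z x n = a := by
    by_contra hc
    push Not at hc
    have := ((eventually_all_finite (h1 h3)).2 fun a _ => hc a).exists
    obtain ⟨n, hn⟩ := this
    exact hn _ (mem_range_self n) rfl
  exact ⟨(hw2 x this).exists, h2 h3 ((hw2 x this).mono fun n hn => by rw [hn])⟩

omit [CountableInterFilter ν] in
/-- (O3a) for a countable index type -/
theorem o3a' {κ : Type} [Countable κ] [Nonempty κ] (e : κ → B.G) (D : X → κ → Prop)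
    (hD : ∀ w, Measurable fun x => D x w) (hR : Measurable R)
    (hcl : ∀ U, ∀ᶠ x in ν, R x → ∃ w, D x w ∧ B.mem (e w) U x) :
    ∃ (a : X → ℕ → ℕ → ℕ → κ) (b : ℕ → ℕ → B.G) (c : ℕ → B.G),
      (∀ i j k w, Measurable fun x => a x i j k = w) ∧
      (∀ᶠ x in ν, R x → ∀ i j k, D x (a x i j k)) ∧
      Nl B R (fun _ i => c i) ∧ (∀ i, Nl B R fun _ j => (c i)⁻¹ * b i j) ∧
      ∀ i j, Nl B R fun x k => (b i j)⁻¹ * e (a x i j k) := by
  obtain ⟨s, hs⟩ := exists_surjective_nat κ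
  obtain ⟨a, b, c, h1, h2, h3, h4, h5⟩ := B.o3a (fun n => e (s n)) (fun x n => D x (s n)) R
    (fun n => hD _) hR fun U => (hcl U).mono fun x hx h => by
      obtain ⟨w, hw⟩ := hx h
      obtain ⟨n, rfl⟩ := hs w
      exact ⟨n, hw⟩
  exact ⟨fun x i j k => s (a x i j k), b, c, fun i j k w =>
    (measurable_from_top (f := fun n : ℕ => s n = w)).comp (h1 i j k), h2, h3, h4, h5⟩

/-- (Tri) -/
theorem tri_seq {κ : Type} [Countable κ] [Nonempty κ] (e : κ → B.G) (D : X → κ → Prop)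
    (hD : ∀ w, Measurable fun x => D x w) (hR : Measurable R) (hpos : ∃ᶠ x in ν, R x)
    (hcl : ∀ U, ∀ᶠ x in ν, R x → ∃ w, D x w ∧ B.mem (e w) U x)
    (hne : ∀ᶠ x in ν, R x → ∀ w, D x w → ¬ B.nul (e w) x) :
    ∃ (R' : X → Prop) (z : X → ℕ → κ) (l : B.G), Measurable R' ∧
      (∀ n w, Measurable fun x => z x n = w) ∧ (∃ᶠ x in ν, R' x) ∧ (∀ x, R' x → R x) ∧
      (∀ᶠ x in ν, R' x → (∀ n, D x (z x n)) ∧ (range (z x)).Infinite) ∧
      Nl B R' fun x n => l⁻¹ * e (z x n) := by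
  by_contra hcon
  have step : ∀ (z : X → ℕ → κ) (l : B.G), (∀ n w, Measurable fun x => z x n = w) →
      (∀ᶠ x in ν, R x → ∀ n, D x (z x n)) → (Nl B R fun x n => l⁻¹ * e (z x n)) →
      ∃ w : X → κ, (∀ a, Measurable fun x => w x = a) ∧
        ∀ᶠ x in ν, R x → D x (w x) ∧ B.nul (l⁻¹ * e (w x)) x := by
    intro z l hz hzD hl
    have hm : Measurable fun x => (range (z x)).Infinite := by
      have : (fun x => (range (z x)).Infinite) =
          fun x => ¬ ∃ s : Finset κ, ∀ n, ∃ a, a ∈ s ∧ z x n = a := by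
        funext x
        refine propext (not_congr ⟨fun hf => ⟨hf.toFinset, fun n => ⟨_, by simp, rfl⟩⟩, ?_⟩)
        rintro ⟨s, hs⟩
        refine s.finite_toSet.subset ?_
        rintro _ ⟨n, rfl⟩
        obtain ⟨a, ha, h⟩ := hs n
        exact h ▸ ha
      rw [this]
      exact (Measurable.exists fun s => Measurable.forall fun n => Measurable.exists fun a =>
        measurable_const.and (hz n a)).not
    have hfin : ∀ᶠ x in ν, R x → (range (z x)).Finite := by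
      by_contra hc
      refine hcon ⟨fun x => R x ∧ (range (z x)).Infinite, z, l, hR.and hm, hz, ?_,
        fun x hx => hx.1, hzD.mono fun x hx h => ⟨hx h.1, h.2⟩,
        hl.mono (Eventually.of_forall fun x hx => hx.1)⟩
      exact (not_eventually.1 hc).mono fun x hx => Classical.not_imp.1 hx
    obtain ⟨w, hw1, hw2⟩ := lift_lim e hz hl hfin
    refine ⟨w, hw1, ?_⟩
    filter_upwards [hw2, hzD] with x h1 h2 h3
    obtain ⟨⟨n, hn⟩, h4⟩ := h1 h3
    exact ⟨hn ▸ h2 h3 n, h4⟩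
  obtain ⟨a, b, c, h1, h2, h3, h4, h5⟩ := o3a' e D hD hR hcl
  choose w hw1 hw2 using fun i j => step (fun x k => a x i j k) (b i j) (h1 i j)
    (h2.mono fun x hx h k => hx h i j k) (h5 i j)
  choose w' hw1' hw2' using fun i => step (fun x j => w i j x) (c i) (hw1 i)
    ((eventually_countable_forall.2 (hw2 i)).mono fun x hx h j => (hx j h).1)
    ((h4 i).congr (CR.seq _) ((CR.const _).mul (CR.of_ct e _))
      ((eventually_countable_forall.2 (hw2 i)).mono fun x hx h => Eventually.of_forall fun j => by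
        simpa only [mul_inv_rev, inv_inv, mul_assoc, mul_inv_cancel_left] using (hx j h).2))
  obtain ⟨w'', -, hw2''⟩ := step (fun x i => w' i x) 1 hw1'
    ((eventually_countable_forall.2 hw2').mono fun x hx h i => (hx i h).1)
    (h3.congr (CR.seq _) ((CR.const _).mul (CR.of_ct e _))
      ((eventually_countable_forall.2 hw2').mono fun x hx h => Eventually.of_forall fun i => by
        simpa only [inv_one, one_mul] using (hx i h).2))
  obtain ⟨x, hx, h6, h7⟩ := (hpos.and_eventually (hw2''.and hne)).exists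
  exact h7 hx _ (h6 hx).1 (by simpa using (h6 hx).2)

end Pool.Agent.MP_e30343_lc.SO.T1

end

-- part MP_e30343_lc.SO.No3TA
section

/-! Adversary tree for case T1: pure group theory plus measurable selection. -/

open Filter Set

namespace Pool.Agent.MP_e30343_lc.SO.T1

section MF
variable {ι : Type} {B : Set ι} {α β γ : Type}

/-- functions into a countable type whose level sets depend on `B` -/
def MF (B : Set ι) (f : (ι → ℕ → L) → α) : Prop := ∀ a, MD B fun x => f x = a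

theorem MF.const (a : α) : MF B fun _ => a := fun _ => MD.const _

theorem MF.pred [Countable α] {f : (ι → ℕ → L) → α} (hf : MF B f) (p : α → Prop) :
    MD B fun x => p (f x) := MD.sub (φ := fun a _ => p a) (fun _ => MD.const _) hf

theorem MF.map [Countable α] {f : (ι → ℕ → L) → α} (hf : MF B f) (F : α → β) :
    MF B fun x => F (f x) := fun b => hf.pred fun a => F a = b

theorem MF.pair {f : (ι → ℕ → L) → α} {g : (ι → ℕ → L) → β} (hf : MF B f) (hg : MF B g) :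
    MF B fun x => (f x, g x) := fun p => by
  simpa [Prod.ext_iff] using (hf p.1).and (hg p.2)

theorem MF.map2 [Countable α] [Countable β] {f : (ι → ℕ → L) → α} {g : (ι → ℕ → L) → β}
    (hf : MF B f) (hg : MF B g) (F : α → β → γ) : MF B fun x => F (f x) (g x) :=
  (hf.pair hg).map fun p => F p.1 p.2

theorem MF.sub [Countable α] {f : (ι → ℕ → L) → α} {F : α → (ι → ℕ → L) → β} (hf : MF B f)
    (hF : ∀ a, MF B (F a)) : MF B fun x => F (f x) x :=
  fun b => MD.sub (φ := fun a x => F a x = b) (fun a => hF a b) hf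

theorem MF.meas [Countable α] [MeasurableSpace α] {f : (ι → ℕ → L) → α} (hf : MF B f) :
    Measurable f :=
  measurable_to_countable' fun a => measurableSet_setOfPred.2 (hf a).1

end MF

variable {Q : Type*} [Group Q]

/-- hypotheses on the virtual neighbourhoods `P0 P1 P2` and on the set `N` of non-trivial words -/
structure AdvHyp (c : ℕ → ℕ → Q) (g : ℕ → Q) (P0 P1 P2 : ℕ → Set Q) (N : Set Q) : Prop where
  l1 : ∀ j u v w, u ∈ P1 j → v ∈ P1 j → w ∈ P1 j → u * v⁻¹ * w ∈ P0 j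
  l2 : ∀ j u v w, u ∈ P2 j → v ∈ P2 j → w ∈ P2 j → u * v⁻¹ * w ∈ P1 j
  far : ∀ j, ∀ᶠ k in atTop, ∀ n, c k n ∉ P0 j
  gN : ∀ i, g i ∈ N
  NN : ∀ v ∈ N, ∀ k, ∀ᶠ n in atTop, v * c k n ∈ N ∧ v * (c k n)⁻¹ ∈ N

private noncomputable abbrev UU : Ultrafilter ℕ := hyperfilter ℕ

private theorem uu_le : (UU : Filter ℕ) ≤ atTop := Nat.hyperfilter_le_atTop

private theorem uu_not {p : ℕ → Prop} (h : ¬ ∀ᶠ n in (UU : Filter ℕ), ¬ p n) :
    ∀ᶠ n in (UU : Filter ℕ), p n := by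
  rcases UU.eventually_or.1 (Eventually.of_forall fun n => em (p n)) with h1 | h1
  · exact h1
  · exact absurd h1 h

private theorem uu_neg {p : ℕ → Prop} (h : ¬ ∀ᶠ n in (UU : Filter ℕ), p n) :
    ∀ᶠ n in (UU : Filter ℕ), ¬ p n := Ultrafilter.eventually_not.2 h

/-- three-term trick, first order of quantifiers, with a left factor `p` -/
private theorem tri1 {a : ℕ → Q} {c : ℕ → ℕ → Q} {P P' : Set Q} (p : Q)
    (hl : ∀ u v w, u ∈ P → v ∈ P → w ∈ P → u * v⁻¹ * w ∈ P')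
    (h : ∀ᶠ n in (UU : Filter ℕ), ∀ᶠ k in (UU : Filter ℕ), ∀ᶠ n' in (UU : Filter ℕ),
      ∀ᶠ y in (UU : Filter ℕ), p * a n * (a n')⁻¹ * c k y ∈ P) :
    ∀ᶠ k in (UU : Filter ℕ), ∀ᶠ y in (UU : Filter ℕ), p * c k y ∈ P' := by
  obtain ⟨n3, h3⟩ := h.exists
  filter_upwards [h3] with k' hk'
  obtain ⟨n1, h1, h31⟩ := (h.and hk').exists
  obtain ⟨k, hk1, hk3⟩ := (h1.and h3).exists
  obtain ⟨n2, h21, h23⟩ := (hk1.and hk3).exists
  obtain ⟨y, hy1, hy3⟩ := (h21.and h23).exists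
  filter_upwards [h31] with y' hy'
  have := hl _ _ _ hy1 hy3 hy'
  convert this using 1
  group

/-- three-term trick, second order of quantifiers -/
private theorem tri2 {a : ℕ → Q} {c : ℕ → ℕ → Q} {P P' : Set Q}
    (hl : ∀ u v w, u ∈ P → v ∈ P → w ∈ P → u * v⁻¹ * w ∈ P')
    (h : ∀ᶠ n in (UU : Filter ℕ), ∀ᶠ n' in (UU : Filter ℕ), ∀ᶠ k in (UU : Filter ℕ),
      ∀ᶠ y in (UU : Filter ℕ), a n * (a n')⁻¹ * c k y ∈ P) :
    ∀ᶠ k in (UU : Filter ℕ), ∀ᶠ y in (UU : Filter ℕ), c k y ∈ P' := by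
  obtain ⟨n3, h3⟩ := h.exists
  obtain ⟨n1, h1, h31⟩ := (h.and h3).exists
  obtain ⟨n2, h21, h23⟩ := (h1.and h3).exists
  obtain ⟨k, hk1, hk3⟩ := (h21.and h23).exists
  obtain ⟨y, hy1, hy3⟩ := (hk1.and hk3).exists
  filter_upwards [h31] with k' hk'
  filter_upwards [hk'] with y' hy'
  have := hl _ _ _ hy1 hy3 hy'
  convert this using 1
  group

omit [Group Q] in
private theorem far_contra {c : ℕ → ℕ → Q} {P : Set Q} (hf : ∀ᶠ k in atTop, ∀ n, c k n ∉ P)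
    (h : ∀ᶠ k in (UU : Filter ℕ), ∀ᶠ y in (UU : Filter ℕ), c k y ∈ P) : False := by
  obtain ⟨k, h1, h2⟩ := (h.and (uu_le hf)).exists
  obtain ⟨y, hy⟩ := h1.exists
  exact h2 y hy

section Pt
variable {c : ℕ → ℕ → Q} {g : ℕ → Q} {P0 P1 P2 : ℕ → Set Q} {N : Set Q}

private theorem advA (H : AdvHyp c g P0 P1 P2 N) (i j : ℕ) :
    ∀ᶠ n in (UU : Filter ℕ), ∀ᶠ k in (UU : Filter ℕ), ∀ᶠ n' in (UU : Filter ℕ),
      ∀ᶠ y in (UU : Filter ℕ), c i n * (c i n')⁻¹ * c k y ∉ P1 j := by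
  by_contra hcon
  have h1 : ∀ᶠ n in (UU : Filter ℕ), ∀ᶠ k in (UU : Filter ℕ), ∀ᶠ n' in (UU : Filter ℕ),
      ∀ᶠ y in (UU : Filter ℕ), 1 * c i n * (c i n')⁻¹ * c k y ∈ P1 j := by
    filter_upwards [uu_neg hcon] with n hn
    filter_upwards [uu_neg hn] with k hk
    filter_upwards [uu_neg hk] with n' hn'
    filter_upwards [uu_not hn'] with y hy
    simpa using hy
  have h2 := tri1 1 (H.l1 j) h1
  simp only [one_mul] at h2
  exact far_contra (H.far j) h2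

private theorem advB (H : AdvHyp c g P0 P1 P2 N) (i j : ℕ) :
    ∀ᶠ n in (UU : Filter ℕ), ∀ᶠ k in (UU : Filter ℕ), ∀ᶠ n' in (UU : Filter ℕ),
      ∀ᶠ y in (UU : Filter ℕ), ∀ᶠ k' in (UU : Filter ℕ), ∀ᶠ y' in (UU : Filter ℕ),
      ∀ᶠ z in (UU : Filter ℕ), c i n * (c i n')⁻¹ * c k y * (c k y')⁻¹ * c k' z ∉ P2 j := by
  by_contra hcon
  have h1 : ∀ᶠ n in (UU : Filter ℕ), ∀ᶠ n' in (UU : Filter ℕ), ∀ᶠ k' in (UU : Filter ℕ),
      ∀ᶠ z in (UU : Filter ℕ), c i n * (c i n')⁻¹ * c k' z ∈ P1 j := by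
    filter_upwards [uu_neg hcon] with n hn
    obtain ⟨k, hk⟩ := (uu_neg hn).exists
    filter_upwards [uu_neg hk] with n' hn'
    refine tri1 (a := c k) (c i n * (c i n')⁻¹) (H.l2 j) ?_
    filter_upwards [uu_neg hn'] with y hy
    filter_upwards [uu_neg hy] with k' hk'
    filter_upwards [uu_neg hk'] with y' hy'
    exact uu_not hy'
  exact far_contra (H.far j) (tri2 (H.l1 j) h1)

end Pt

/-- the winning conditions, level 4 -/
def AdvW4 (c : ℕ → ℕ → Q) (g : ℕ → Q) (P1 P2 : ℕ → Set Q) (N : Set Q)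
    (i n k n' y k' y' z : ℕ) : Prop :=
  (∀ j ≤ i, c i n * (c i n')⁻¹ * c k y * (c k y')⁻¹ * c k' z ∉ P2 j) ∧
  (∀ j ≤ n, c k y * (c k y')⁻¹ * c k' z ∉ P1 j) ∧
  g i * c i n * ((c i n')⁻¹ * c k y) * ((c k y')⁻¹ * c k' z) ∈ N

def AdvW3 (c : ℕ → ℕ → Q) (g : ℕ → Q) (P1 P2 : ℕ → Set Q) (N : Set Q)
    (i n k n' y k' : ℕ) : Prop :=
  (∀ j ≤ i, c i n * (c i n')⁻¹ * c k y ∉ P1 j) ∧
  g i * c i n * ((c i n')⁻¹ * c k y) ∈ N ∧ n' ≤ k' ∧
  ∀ t, ∃ q : ℕ × ℕ, t ≤ q.1 ∧ t ≤ q.2 ∧ AdvW4 c g P1 P2 N i n k n' y k' q.1 q.2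

def AdvW2 (c : ℕ → ℕ → Q) (g : ℕ → Q) (P1 P2 : ℕ → Set Q) (N : Set Q) (i n k : ℕ) : Prop :=
  g i * c i n ∈ N ∧ n ≤ k ∧
  ∀ t, ∃ q : ℕ × ℕ × ℕ, t ≤ q.1 ∧ t ≤ q.2.1 ∧ AdvW3 c g P1 P2 N i n k q.1 q.2.1 q.2.2

private theorem ge_uu (t : ℕ) : ∀ᶠ n in (UU : Filter ℕ), t ≤ n := uu_le (eventually_ge_atTop t)

private theorem all_le {p : ℕ → ℕ → Prop} (i : ℕ) (h : ∀ j, ∀ᶠ n in (UU : Filter ℕ), p j n) :
    ∀ᶠ n in (UU : Filter ℕ), ∀ j ≤ i, p j n :=
  (Filter.eventually_all_finite (Set.finite_Iic i)).2 fun j _ => h j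

private theorem all_le' {p : ℕ → ℕ → Prop} {i : ℕ} (h : ∀ j ≤ i, ∀ᶠ n in (UU : Filter ℕ), p j n) :
    ∀ᶠ n in (UU : Filter ℕ), ∀ j ≤ i, p j n :=
  (Filter.eventually_all_finite (Set.finite_Iic i)).2 fun j hj => h j hj

theorem adv_win {c : ℕ → ℕ → Q} {g : ℕ → Q} {P0 P1 P2 : ℕ → Set Q} {N : Set Q}
    (H : AdvHyp c g P0 P1 P2 N) (i t : ℕ) :
    ∃ q : ℕ × ℕ, t ≤ q.1 ∧ AdvW2 c g P1 P2 N i q.1 q.2 := by
  obtain ⟨n, hnt, hnA, hnB, hnN⟩ := ((ge_uu t).and ((all_le i (advA H i)).and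
    ((all_le i (advB H i)).and (uu_le (H.NN _ (H.gN i) i))))).exists
  obtain ⟨k, hkn, hkA, hkB⟩ := ((ge_uu n).and ((all_le' hnA).and (all_le' hnB))).exists
  refine ⟨(n, k), hnt, hnN.1, hkn, fun t3 => ?_⟩
  obtain ⟨n', hn't, hn'A, hn'B, hn'N⟩ := ((ge_uu t3).and ((all_le' hkA).and
    ((all_le' hkB).and (uu_le (H.NN _ hnN.1 i))))).exists
  obtain ⟨y, hyt, hyA, hyB, hyC, hyN⟩ := ((ge_uu t3).and ((all_le' hn'A).and
    ((all_le' hn'B).and ((all_le n (advA H k)).and (uu_le (H.NN _ hn'N.2 k)))))).exists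
  obtain ⟨k', hk'n, hk'B, hk'C⟩ := ((ge_uu n').and ((all_le' hyB).and (all_le' hyC))).exists
  refine ⟨(n', y, k'), hn't, hyt, hyA, by simpa only [mul_assoc] using hyN.1, hk'n, fun t4 => ?_⟩
  obtain ⟨y', hy't, hy'B, hy'C, hy'N⟩ := ((ge_uu t4).and ((all_le' hk'B).and
    ((all_le' hk'C).and (uu_le (H.NN _ hyN.1 k))))).exists
  obtain ⟨z, hzt, hzB, hzC, hzN⟩ := ((ge_uu t4).and ((all_le' hy'B).and
    ((all_le' hy'C).and (uu_le (H.NN _ hy'N.2 k'))))).exists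
  exact ⟨(y', z), hy't, hzt, hzB, hzC, by simpa only [mul_assoc] using hzN.1⟩

/-- index data of the adversary tree: `a` (index of x), `k2`, `b1 b2` (indices of x', y), `k3`,
`d1 d2` (indices of y', z) -/
structure AdvT where
  a : ℕ → ℕ → ℕ
  k2 : ℕ → ℕ → ℕ
  b1 : ℕ → ℕ → ℕ → ℕ
  b2 : ℕ → ℕ → ℕ → ℕ
  k3 : ℕ → ℕ → ℕ → ℕ
  d1 : ℕ → ℕ → ℕ → ℕ → ℕ
  d2 : ℕ → ℕ → ℕ → ℕ → ℕ

namespace AdvT
variable (T : AdvT) (c : ℕ → ℕ → Q) (g : ℕ → Q)
/-- the five letters of a branch -/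
def xx (i n : ℕ) : Q := c i (T.a i n)
def xx' (i n m : ℕ) : Q := c i (T.b1 i n m)
def yy (i n m : ℕ) : Q := c (T.k2 i n) (T.b2 i n m)
def yy' (i n m l : ℕ) : Q := c (T.k2 i n) (T.d1 i n m l)
def zz (i n m l : ℕ) : Q := c (T.k3 i n m) (T.d2 i n m l)
/-- labels of levels 2, 3, 4 (level 1 is `g i`) -/
def L2 (i n : ℕ) : Q := g i * T.xx c i n
def L3 (i n m : ℕ) : Q := T.L2 c g i n * ((T.xx' c i n m)⁻¹ * T.yy c i n m)
def L4 (i n m l : ℕ) : Q := T.L3 c g i n m * ((T.yy' c i n m l)⁻¹ * T.zz c i n m l)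

/-- growth of the indices (holds at every point) -/
structure Grow : Prop where
  a : ∀ i n, n ≤ T.a i n
  k2 : ∀ i n, n ≤ T.k2 i n
  b1 : ∀ i n m, n ≤ T.b1 i n m ∧ m ≤ T.b1 i n m
  b2 : ∀ i n m, m ≤ T.b2 i n m
  k3 : ∀ i n m, m ≤ T.k3 i n m
  d1 : ∀ i n m l, m ≤ T.d1 i n m l ∧ l ≤ T.d1 i n m l
  d2 : ∀ i n m l, l ≤ T.d2 i n m l

/-- the avoidance properties -/
structure Win (P1 P2 : ℕ → Set Q) (N : Set Q) : Prop where
  wa : ∀ i n m, ∀ j ≤ i, T.xx c i n * (T.xx' c i n m)⁻¹ * T.yy c i n m ∉ P1 j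
  wb : ∀ i n m l, ∀ j ≤ i, T.xx c i n * (T.xx' c i n m)⁻¹ * T.yy c i n m * (T.yy' c i n m l)⁻¹ *
    T.zz c i n m l ∉ P2 j
  wc : ∀ i n m l, ∀ j ≤ n, T.yy c i n m * (T.yy' c i n m l)⁻¹ * T.zz c i n m l ∉ P1 j
  n2 : ∀ i n, T.L2 c g i n ∈ N
  n3 : ∀ i n m, T.L3 c g i n m ∈ N
  n4 : ∀ i n m l, T.L4 c g i n m l ∈ N

end AdvT

/-- measurability of the index data -/
structure AdvMeas {ι : Type} (B : Set ι) (T : (ι → ℕ → L) → AdvT) : Prop where
  a : ∀ i n, MF B fun x => (T x).a i n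
  k2 : ∀ i n, MF B fun x => (T x).k2 i n
  b1 : ∀ i n m, MF B fun x => (T x).b1 i n m
  b2 : ∀ i n m, MF B fun x => (T x).b2 i n m
  k3 : ∀ i n m, MF B fun x => (T x).k3 i n m
  d1 : ∀ i n m l, MF B fun x => (T x).d1 i n m l
  d2 : ∀ i n m l, MF B fun x => (T x).d2 i n m l

/-- The adversary tree, chosen measurably. -/
theorem adv_tree {ι : Type} {B : Set ι} (c : ℕ → ℕ → Q) (g : ℕ → Q)
    (P0 P1 P2 : (ι → ℕ → L) → ℕ → Set Q) (N : (ι → ℕ → L) → Set Q)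
    (h1 : ∀ j w, MD B fun x => w ∈ P1 x j) (h2 : ∀ j w, MD B fun x => w ∈ P2 x j)
    (hN : ∀ w, MD B fun x => w ∈ N x) :
    ∃ T : (ι → ℕ → L) → AdvT, AdvMeas B T ∧ ∀ x, AdvHyp c g (P0 x) (P1 x) (P2 x) (N x) →
      (T x).Grow ∧ (T x).Win c g (P1 x) (P2 x) (N x) := by
  have m4 : ∀ i n k n' y k' y' z,
      MD B fun x => AdvW4 c g (P1 x) (P2 x) (N x) i n k n' y k' y' z := by
    intro i n k n' y k' y' z
    exact (MD.all fun j => (MD.const _).imp (h2 _ _).not).and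
      ((MD.all fun j => (MD.const _).imp (h1 _ _).not).and (hN _))
  have m3 : ∀ i n k n' y k',
      MD B fun x => AdvW3 c g (P1 x) (P2 x) (N x) i n k n' y k' := by
    intro i n k n' y k'
    exact (MD.all fun j => (MD.const _).imp (h1 _ _).not).and ((hN _).and
      ((MD.const _).and (MD.all fun t => MD.ex fun q =>
        (MD.const _).and ((MD.const _).and (m4 _ _ _ _ _ _ _ _)))))
  have m2 : ∀ i n k, MD B fun x => AdvW2 c g (P1 x) (P2 x) (N x) i n k := by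
    intro i n k
    exact (hN _).and ((MD.const _).and (MD.all fun t => MD.ex fun q =>
        (MD.const _).and ((MD.const _).and (m3 _ _ _ _ _ _))))
  choose f2 f2m f2s using fun i t : ℕ => MD.sel
    (φ := fun (q : ℕ × ℕ) x => t ≤ q.1 ∧ AdvW2 c g (P1 x) (P2 x) (N x) i q.1 q.2)
    (fun q => (MD.const _).and (m2 _ _ _))
  choose f3 f3m f3s using fun i n m : ℕ => MD.sel
    (φ := fun (q : ℕ × ℕ × ℕ) x => max n m ≤ q.1 ∧ max n m ≤ q.2.1 ∧
      AdvW3 c g (P1 x) (P2 x) (N x) i (f2 i n x).1 (f2 i n x).2 q.1 q.2.1 q.2.2)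
    (fun q => (MD.const _).and ((MD.const _).and
      (MD.sub (φ := fun (p : ℕ × ℕ) x =>
        AdvW3 c g (P1 x) (P2 x) (N x) i p.1 p.2 q.1 q.2.1 q.2.2) (fun _ => m3 _ _ _ _ _ _)
        (f2m i n))))
  choose f4 f4m f4s using fun i n m l : ℕ => MD.sel
    (φ := fun (q : ℕ × ℕ) x => max m l ≤ q.1 ∧ max m l ≤ q.2 ∧
      AdvW4 c g (P1 x) (P2 x) (N x) i (f2 i n x).1 (f2 i n x).2 (f3 i n m x).1 (f3 i n m x).2.1
        (f3 i n m x).2.2 q.1 q.2)
    (fun q => (MD.const _).and ((MD.const _).and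
      (MD.sub (φ := fun (p : ℕ × ℕ) x =>
        AdvW4 c g (P1 x) (P2 x) (N x) i p.1 p.2 (f3 i n m x).1 (f3 i n m x).2.1
          (f3 i n m x).2.2 q.1 q.2)
        (fun p => MD.sub (φ := fun (r : ℕ × ℕ × ℕ) x =>
          AdvW4 c g (P1 x) (P2 x) (N x) i p.1 p.2 r.1 r.2.1 r.2.2 q.1 q.2)
          (fun _ => m4 _ _ _ _ _ _ _ _) (f3m i n m))
        (f2m i n))))
  refine ⟨fun x => ⟨fun i n => (f2 i n x).1, fun i n => (f2 i n x).2,
    fun i n m => (f3 i n m x).1, fun i n m => (f3 i n m x).2.1, fun i n m => (f3 i n m x).2.2,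
    fun i n m l => (f4 i n m l x).1, fun i n m l => (f4 i n m l x).2⟩,
    ⟨fun i n => MF.map (f2m i n) Prod.fst, fun i n => MF.map (f2m i n) Prod.snd,
     fun i n m => MF.map (f3m i n m) Prod.fst,
     fun i n m => MF.map (f3m i n m) fun r => r.2.1,
     fun i n m => MF.map (f3m i n m) fun r => r.2.2,
     fun i n m l => MF.map (f4m i n m l) Prod.fst,
     fun i n m l => MF.map (f4m i n m l) Prod.snd⟩, fun x H => ?_⟩
  have s2 := fun i n => f2s i n x (adv_win H i n)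
  have s3 := fun i n m => f3s i n m x ((s2 i n).2.2.2 (max n m))
  have s4 := fun i n m l => f4s i n m l x ((s3 i n m).2.2.2.2.2 (max m l))
  refine ⟨⟨fun i n => (s2 i n).1, fun i n => (s2 i n).1.trans (s2 i n).2.2.1,
    fun i n m => max_le_iff.1 (s3 i n m).1, fun i n m => (max_le_iff.1 (s3 i n m).2.1).2,
    fun i n m => (max_le_iff.1 (s3 i n m).1).2.trans (s3 i n m).2.2.2.2.1,
    fun i n m l => max_le_iff.1 (s4 i n m l).1, fun i n m l => (max_le_iff.1 (s4 i n m l).2.1).2⟩,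
    ⟨fun i n m => (s3 i n m).2.2.1, fun i n m l => (s4 i n m l).2.2.1,
     fun i n m l j hj => (s4 i n m l).2.2.2.1 j (hj.trans (s2 i n).1),
     fun i n => (s2 i n).2.1, fun i n m => (s3 i n m).2.2.2.1, fun i n m l => (s4 i n m l).2.2.2.2⟩⟩

end Pool.Agent.MP_e30343_lc.SO.T1

end

-- part MP_e30343_lc.SO.No3TC
section

/-! Virtual traces: a branch of patterns that are not excluded by a type. -/

open Filter Set

namespace Pool.Agent.MP_e30343_lc.SO.T1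

variable {ι : Type} {B : Set ι} {ν : Filter (ι → ℕ → L)}

/-- abstract forcing operator of one type -/
structure Frc (ν : Filter (ι → ℕ → L)) (B : Set ι)
    (F : ((ι → ℕ → L) → Prop) → (ι → ℕ → L) → Prop) : Prop where
  md : ∀ θ, MD B (F θ)
  mono : ∀ θ θ', (∀ᶠ x in ν, θ x → θ' x) → ∀ᶠ x in ν, F θ x → F θ' x
  and : ∀ θ θ', ∀ᶠ x in ν, F θ x → F θ' x → F (fun y => θ y ∧ θ' y) x
  bot : ∀ᶠ x in ν, ¬ F (fun _ => False) x
  top : ∀ᶠ x in ν, F (fun _ => True) x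

/-- `y` follows the pattern `σ` (listed backwards) -/
def okP (t : ℕ → (ι → ℕ → L) → Prop) : List Bool → (ι → ℕ → L) → Prop
  | [], _ => True
  | b :: σ, y => okP t σ y ∧ (t σ.length y ↔ b = true)

open Classical in
/-- the greedy branch -/
noncomputable def brP (F : ((ι → ℕ → L) → Prop) → (ι → ℕ → L) → Prop)
    (t : ℕ → (ι → ℕ → L) → Prop) : ℕ → (ι → ℕ → L) → List Bool
  | 0, _ => []
  | n + 1, x => decide (¬ F (fun y => ¬ okP t (true :: brP F t n x) y) x) :: brP F t n x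

variable {F : ((ι → ℕ → L) → Prop) → (ι → ℕ → L) → Prop} {t : ℕ → (ι → ℕ → L) → Prop}

theorem brP_len (n : ℕ) (x : ι → ℕ → L) : (brP F t n x).length = n := by
  induction n with
  | zero => rfl
  | succ n ih => simp [brP, ih]

/-- the bits of the branch -/
def bitP (F : ((ι → ℕ → L) → Prop) → (ι → ℕ → L) → Prop) (t : ℕ → (ι → ℕ → L) → Prop) (n : ℕ)
    (x : ι → ℕ → L) : Prop := ¬ F (fun y => ¬ okP t (true :: brP F t n x) y) x

theorem okP_brP (n : ℕ) (x y : ι → ℕ → L) :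
    okP t (brP F t n x) y ↔ ∀ m < n, (t m y ↔ bitP F t m x) := by
  induction n with
  | zero => simp [brP, okP]
  | succ n ih =>
    rw [Nat.forall_lt_succ_right, ← ih, brP, okP, brP_len, @decide_eq_true_eq _ (_)]
    rfl

theorem brP_md (h : Frc ν B F) (n : ℕ) : MF B (brP F t n) := by
  classical
  induction n with
  | zero => exact MF.const _
  | succ n ih =>
    have h1 : MD B fun x => ¬ F (fun y => ¬ okP t (true :: brP F t n x) y) x :=
      MD.sub (φ := fun σ x => ¬ F (fun y => ¬ okP t (true :: σ) y) x) (fun _ => (h.md _).not) ih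
    have h2 : MF B fun x => decide (¬ F (fun y => ¬ okP t (true :: brP F t n x) y) x) := by
      intro b
      cases b
      · simpa using h1.not
      · simpa using h1
    exact h2.map2 ih List.cons

theorem bitP_md (h : Frc ν B F) (n : ℕ) : MD B (bitP F t n) :=
  MD.sub (φ := fun σ x => ¬ F (fun y => ¬ okP t (true :: σ) y) x) (fun _ => (h.md _).not)
    (brP_md h n)

variable [CountableInterFilter ν]

theorem brP_cons (h : Frc ν B F) : ∀ᶠ x in ν, ∀ n, ¬ F (fun y => ¬ okP t (brP F t n x) y) x := by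
  have h1 : ∀ σ : List Bool, ∀ᶠ x in ν, F (fun y => ¬ okP t (true :: σ) y) x →
      F (fun y => ¬ okP t (false :: σ) y) x → F (fun y => ¬ okP t σ y) x := by
    intro σ
    filter_upwards [h.and (fun y => ¬ okP t (true :: σ) y) (fun y => ¬ okP t (false :: σ) y),
      h.mono (fun y => ¬ okP t (true :: σ) y ∧ ¬ okP t (false :: σ) y) (fun y => ¬ okP t σ y)
        (Eventually.of_forall fun y hy hc => by
          by_cases e : t σ.length y
          · exact hy.1 ⟨hc, by simp [e]⟩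
          · exact hy.2 ⟨hc, by simp [e]⟩)] with x a b c d using b (a c d)
  filter_upwards [eventually_countable_forall.2 h1, h.bot,
    h.mono (fun y => ¬ okP t [] y) (fun _ => False)
      (Eventually.of_forall fun y hy => hy trivial)] with x h2 h3 h4 n
  induction n with
  | zero => exact fun hc => h3 (h4 hc)
  | succ n ih =>
    by_cases e : F (fun y => ¬ okP t (true :: brP F t n x) y) x
    · simp only [brP, e, not_true, decide_false]
      exact fun hc => ih (h2 _ e hc)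
    · simp only [brP, e, not_false_eq_true, decide_true]

/-- a property of finitely many traces that is forced holds for the bits -/
theorem bit_of_frc (h : Frc ν B F) (θ : (ι → ℕ → L) → Prop) (n : ℕ) (φ : (Fin n → Prop) → Prop)
    (hθ : ∀ᶠ y in ν, θ y → φ fun m => t m y) :
    ∀ᶠ x in ν, F θ x → φ fun m => bitP F t m x := by
  have h1 : ∀ σ : List Bool, ∀ᶠ x in ν, (∀ y, okP t σ y → ¬ φ fun m => t m y) → F θ x →
      F (fun y => ¬ okP t σ y) x := by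
    intro σ
    by_cases e : ∀ y, okP t σ y → ¬ φ fun m => t m y
    · exact (h.mono θ _ (hθ.mono fun y hy h2 h3 => e y h3 (hy h2))).mono fun x hx _ => hx
    · exact Eventually.of_forall fun x hx => absurd hx e
  filter_upwards [eventually_countable_forall.2 h1, brP_cons (t := t) h] with x h2 h3 h4
  by_contra hc
  refine h3 n (h2 _ (fun y hy hφ => hc ?_) h4)
  have : (fun m : Fin n => t m y) = fun m : Fin n => bitP F t m x :=
    funext fun m => propext ((okP_brP n x y).1 hy m m.2)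
  rwa [this] at hφ

/-- virtual traces for a countable family `t` -/
theorem exists_bits (h : Frc ν B F) {I : Type} [Countable I] [Nonempty I]
    (t : I → (ι → ℕ → L) → Prop) : ∃ b : I → (ι → ℕ → L) → Prop, (∀ i, MD B (b i)) ∧
      (∀ θ i, (∀ᶠ y in ν, θ y → t i y) → ∀ᶠ x in ν, F θ x → b i x) ∧
      (∀ θ i, (∀ᶠ y in ν, θ y → ¬ t i y) → ∀ᶠ x in ν, F θ x → ¬ b i x) ∧
      ∀ i j k l, (∀ᶠ y in ν, t i y → t j y → t k y → t l y) →
        ∀ᶠ x in ν, b i x → b j x → b k x → b l x := by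
  obtain ⟨e, he⟩ := exists_surjective_nat I
  choose d hd using he
  refine ⟨fun i => bitP F (fun n => t (e n)) (d i), fun i => bitP_md h _, fun θ i hθ => ?_,
    fun θ i hθ => ?_, fun i j k l hl => ?_⟩
  · exact bit_of_frc h θ (d i + 1) (fun v => v ⟨d i, by omega⟩) (by simpa [hd] using hθ)
  · exact bit_of_frc h θ (d i + 1) (fun v => ¬ v ⟨d i, by omega⟩) (by simpa [hd] using hθ)
  · have := bit_of_frc (t := fun n => t (e n)) h (fun _ => True) (d i + d j + d k + d l + 1)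
      (fun v => v ⟨d i, by omega⟩ → v ⟨d j, by omega⟩ → v ⟨d k, by omega⟩ → v ⟨d l, by omega⟩)
      (by simpa [hd] using hl)
    filter_upwards [this, h.top] with x h1 h2 using h1 h2

/-- selection of a subsequence together with further data -/
theorem subq {α : Type} [Countable α] [Nonempty α] (ψ : (ι → ℕ → L) → ℕ → ℕ → α → Prop)
    (hψ : ∀ t k p, MD B fun x => ψ x t k p) :
    ∃ (κ : (ι → ℕ → L) → ℕ → ℕ) (p : (ι → ℕ → L) → ℕ → α), (∀ t, MF B fun x => p x t) ∧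
      ∀ x, (∀ t, ∃ k, t ≤ k ∧ ∃ p, ψ x t k p) →
        Tendsto (κ x) atTop atTop ∧ ∀ t, ψ x t (κ x t) (p x t) := by
  choose f hf1 hf2 using fun t => MD.sel (B := B)
    (φ := fun (q : ℕ × α) x => t ≤ q.1 ∧ ψ x t q.1 q.2) fun q => (MD.const _).and (hψ t _ _)
  refine ⟨fun x t => (f t x).1, fun x t => (f t x).2, fun t => MF.map (hf1 t) Prod.snd,
    fun x hx => ?_⟩
  have : ∀ t, t ≤ (f t x).1 ∧ ψ x t (f t x).1 (f t x).2 := fun t =>
    hf2 t x (let ⟨k, h1, p, h2⟩ := hx t; ⟨(k, p), h1, h2⟩)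
  exact ⟨tendsto_atTop_mono (fun t => (this t).1) tendsto_id, fun t => (this t).2⟩

/-- pigeonhole along a sequence -/
theorem pig {α : Type} {A : ℕ → α → Prop} (f : α → ℕ) (h : ∃ᶠ k in atTop, ∃ p, A k p) :
    (∀ t, ∃ k, t ≤ k ∧ ∃ p, A k p ∧ t ≤ f p) ∨ ∃ v, ∃ᶠ k in atTop, ∃ p, A k p ∧ f p = v := by
  by_contra hc
  rw [not_or] at hc
  obtain ⟨h1, h2⟩ := hc
  push Not at h1 h2
  obtain ⟨t, ht⟩ := h1
  obtain ⟨k, ⟨p, hp⟩, hk, hv⟩ := (h.and_eventually ((eventually_ge_atTop t).and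
    ((eventually_all_finite (finite_Iio t)).2 fun v _ => h2 v))).exists
  exact hv (f p) (ht k hk p hp) p hp rfl

end Pool.Agent.MP_e30343_lc.SO.T1

end

-- part MP_e30343_lc.SO.No3TD
section

/-! Limits of old sequences of labels are labels one level up at most. -/

open Filter Set

namespace Pool.Agent.MP_e30343_lc.SO.T1

universe u

/-- the label of the node of level `lev` with coordinates `p` -/
noncomputable def lab (T : AdvT) (lev : ℕ) (p : ℕ × ℕ × ℕ × ℕ) : L :=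
  if lev = 4 then T.L4 gen (gen 0) p.1 p.2.1 p.2.2.1 p.2.2.2
  else if lev = 3 then T.L3 gen (gen 0) p.1 p.2.1 p.2.2.1
  else if lev = 2 then T.L2 gen (gen 0) p.1 p.2.1 else gen 0 p.1

theorem lab4 (T : AdvT) (p) : lab T 4 p = T.L4 gen (gen 0) p.1 p.2.1 p.2.2.1 p.2.2.2 := by simp [lab]
theorem lab3 (T : AdvT) (p) : lab T 3 p = T.L3 gen (gen 0) p.1 p.2.1 p.2.2.1 := by simp [lab]
theorem lab2 (T : AdvT) (p) : lab T 2 p = T.L2 gen (gen 0) p.1 p.2.1 := by simp [lab]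
theorem lab1 (T : AdvT) (p) : lab T 1 p = gen 0 p.1 := by simp [lab]

/-- labels of level at least `lam` -/
def Lab (T : AdvT) (i0 lam : ℕ) (w : L) : Prop :=
  ∃ lev, lam ≤ lev ∧ lev ≤ 4 ∧ ∃ p : ℕ × ℕ × ℕ × ℕ, i0 ≤ p.1 ∧ lab T lev p = w

variable {ι : Type} {B : Set ι} {ν : Filter (ι → ℕ → L)}

section Meas
variable {T : (ι → ℕ → L) → AdvT} (h : AdvMeas B T)
include h

theorem AdvMeas.xx (i n) : MF B fun x => (T x).xx gen i n := (h.a i n).map (gen i)
theorem AdvMeas.xx' (i n m) : MF B fun x => (T x).xx' gen i n m := (h.b1 i n m).map (gen i)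
theorem AdvMeas.yy (i n m) : MF B fun x => (T x).yy gen i n m := (h.k2 i n).map2 (h.b2 i n m) gen
theorem AdvMeas.yy' (i n m l) : MF B fun x => (T x).yy' gen i n m l :=
  (h.k2 i n).map2 (h.d1 i n m l) gen
theorem AdvMeas.zz (i n m l) : MF B fun x => (T x).zz gen i n m l :=
  (h.k3 i n m).map2 (h.d2 i n m l) gen
theorem AdvMeas.L2 (i n) : MF B fun x => (T x).L2 gen (gen 0) i n :=
  (h.xx i n).map fun u => gen 0 i * u
theorem AdvMeas.L3 (i n m) : MF B fun x => (T x).L3 gen (gen 0) i n m :=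
  (h.L2 i n).map2 ((h.xx' i n m).map2 (h.yy i n m) fun u v => u⁻¹ * v) (· * ·)
theorem AdvMeas.L4 (i n m l) : MF B fun x => (T x).L4 gen (gen 0) i n m l :=
  (h.L3 i n m).map2 ((h.yy' i n m l).map2 (h.zz i n m l) fun u v => u⁻¹ * v) (· * ·)

theorem AdvMeas.lab (lev p) : MF B fun x => lab (T x) lev p := by
  unfold T1.lab
  split_ifs
  · exact h.L4 _ _ _ _
  · exact h.L3 _ _ _
  · exact h.L2 _ _
  · exact MF.const _

theorem AdvMeas.Lab (i0 lam w) : MD B fun x => Lab (T x) i0 lam w :=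
  MD.ex fun lev => (MD.const _).and ((MD.const _).and (MD.ex fun p =>
    (MD.const _).and (h.lab lev p w)))

end Meas

/-- the data of case T1 after all choices -/
structure Ctx (B : Set ι) (G : BG.{u} ν) (d : ℕ → ℕ → G.G) (R : (ι → ℕ → L) → Prop)
    (T : (ι → ℕ → L) → AdvT) (P1 P2 : (ι → ℕ → L) → ℕ → Set L) (N : (ι → ℕ → L) → Set L)
    (U1 U2 U3 : G.O) (i0 : ℕ) : Prop where
  mR : Measurable R
  col : ∀ k, Nl G R fun _ n => d k n
  trans : ∀ (R' : (ι → ℕ → L) → Prop) (κ m : (ι → ℕ → L) → ℕ → ℕ) (l : G.G), Measurable R' →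
    (∀ t, Measurable fun x => κ x t) → (∀ t, Measurable fun x => m x t) →
    (∀ᶠ x in ν, R' x → Tendsto (κ x) atTop atTop) →
    (Nl G R' fun x t => l⁻¹ * d (κ x t) (m x t)) → ∀ᶠ x in ν, R x → ¬ R' x
  mT : AdvMeas B T
  gw : ∀ᶠ x in ν, R x → (T x).Grow ∧ (T x).Win gen (gen 0) (P1 x) (P2 x) (N x)
  f1 : ∀ w : (ι → ℕ → L) → ℕ → L, (∀ t, MF B fun x => w x t) → ∀ᶠ x in ν, R x →
    (∀ᶠ t in atTop, G.mem (evL d (w x t)) U1 x) → ∃ j, ∀ᶠ t in atTop, w x t ∈ P1 x j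
  f2 : ∀ w : (ι → ℕ → L) → ℕ → L, (∀ t, MF B fun x => w x t) → ∀ᶠ x in ν, R x →
    (∀ᶠ t in atTop, G.mem (evL d (w x t)) U2 x) → ∃ j, ∀ᶠ t in atTop, w x t ∈ P2 x j
  u32 : ∀ g h k, ∀ᶠ x in ν, G.mem g U3 x → G.mem h U3 x → G.mem k U3 x → G.mem (g * h⁻¹ * k) U2 x
  u21 : ∀ g h k, ∀ᶠ x in ν, G.mem g U2 x → G.mem h U2 x → G.mem k U2 x → G.mem (g * h⁻¹ * k) U1 x
  g3 : ∀ᶠ x in ν, R x → ∀ i, i0 ≤ i → G.mem (d 0 i) U3 x

variable [CountableInterFilter ν] {G : BG.{u} ν} {d : ℕ → ℕ → G.G} {R : (ι → ℕ → L) → Prop}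
  {T : (ι → ℕ → L) → AdvT} {P1 P2 : (ι → ℕ → L) → ℕ → Set L} {N : (ι → ℕ → L) → Set L}
  {U1 U2 U3 : G.O} {i0 : ℕ}

omit [CountableInterFilter ν] in
theorem cr_ev {α : Type} (w : (ι → ℕ → L) → α → L) : CR fun x n => evL d (w x n) :=
  CR.of_ct (evL d) w

/-- letters with indices tending to infinity in a fixed column are null -/
theorem nl_gen {R' : (ι → ℕ → L) → Prop} (hc : ∀ k, Nl G R fun _ n => d k n)
    (hR : ∀ᶠ x in ν, R' x → R x) (k : (ι → ℕ → L) → ℕ) {φ : (ι → ℕ → L) → ℕ → ℕ}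
    (hφ : ∀ᶠ x in ν, R' x → ∀ t, t ≤ φ x t) : Nl G R' fun x t => evL d (gen (k x) (φ x t)) :=
  (((Nl.pick hc k).mono hR).comp (hφ.mono fun _ hx h =>
    tendsto_atTop_mono (hx h) tendsto_id)).of_eq fun _ _ => (evL_gen _ _ _).symm

namespace Ctx
variable (C : Ctx B G d R T P1 P2 N U1 U2 U3 i0)
include C

/-- transversals with a limit that depends on the point -/
theorem trans' {R' : (ι → ℕ → L) → Prop} (hR' : Measurable R') {κ m : (ι → ℕ → L) → ℕ → ℕ}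
    (hκ : ∀ t, MF B fun x => κ x t) (hm : ∀ t, MF B fun x => m x t) {w : (ι → ℕ → L) → L}
    (hw : MF B w) {l : G.G} (ht : ∀ᶠ x in ν, R' x → ∀ t, t ≤ κ x t)
    (h : Nl G R' fun x t => ((evL d (w x))⁻¹ * l)⁻¹ * evL d (gen (κ x t) (m x t))) :
    ∀ᶠ x in ν, R x → ¬ R' x := by
  have : ∀ w0 : L, ∀ᶠ x in ν, R x → ¬ (R' x ∧ w x = w0) := fun w0 =>
    C.trans _ κ m ((evL d w0)⁻¹ * l) (hR'.and (hw w0).1) (fun t => (hκ t).meas)
      (fun t => (hm t).meas) (ht.mono fun _ hx h => tendsto_atTop_mono (hx h.1) tendsto_id)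
      ((h.mono (Eventually.of_forall fun x hx => hx.1)).congr_eq
        (Eventually.of_forall fun x hx => Eventually.of_forall fun t => by
          rw [hx.2, evL_gen]))
  filter_upwards [eventually_countable_forall.2 this] with x hx h1 h2 using hx _ h1 ⟨h2, rfl⟩

omit [CountableInterFilter ν] in
theorem m32 (g : G.G) : ∀ᶠ x in ν, G.mem g U3 x → G.mem g U2 x := by
  filter_upwards [C.u32 g 1 1, G.mem_one U3] with x h1 h2 h3
  simpa using h1 h3 h2 h2

omit [CountableInterFilter ν] in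
theorem m21 (g : G.G) : ∀ᶠ x in ν, G.mem g U2 x → G.mem g U1 x := by
  filter_upwards [C.u21 g 1 1, G.mem_one U2] with x h1 h2 h3
  simpa using h1 h3 h2 h2

variable {l : G.G} {R' : (ι → ℕ → L) → Prop} {p : (ι → ℕ → L) → ℕ → ℕ × ℕ × ℕ × ℕ}

theorem dis20 (hm : Measurable R') (hR : ∀ᶠ x in ν, R' x → R x)
    (hp : ∀ t, MF B fun x => p x t) (hc : ∀ x, R' x → ∀ t, t ≤ (p x t).1)
    (h : Nl G R' fun x t => l⁻¹ * evL d (lab (T x) 2 (p x t))) : ∀ᶠ x in ν, ¬ R' x := by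
  have h1 := Nl.strip (cr_ev _) (cr_ev _) (l := fun _ => l) (CR.const _) h
    (nl_gen C.col hR (fun _ => 0) (Eventually.of_forall hc))
  have h2 := C.trans' hm (κ := fun x t => (p x t).1)
    (m := fun x t => (T x).a (p x t).1 (p x t).2.1) (fun t => (hp t).map _)
    (fun t => (hp t).sub (F := fun q x => (T x).a q.1 q.2.1) fun q => C.mT.a _ _)
    (MF.const 1) (l := l) (Eventually.of_forall hc) (h1.of_eq fun x t => by
      simp only [lab2, AdvT.L2, AdvT.xx, map_mul, inv_mul_cancel_left, map_one, inv_one, one_mul])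
  filter_upwards [h2, hR] with x a b c using a (b c) c

theorem dis30 (hR : ∀ᶠ x in ν, R' x → R x ∧ G.mem l U3 x)
    (hp : ∀ t, MF B fun x => p x t) (hc : ∀ x, R' x → ∀ t, t ≤ (p x t).1)
    (h : Nl G R' fun x t => l⁻¹ * evL d (lab (T x) 3 (p x t))) : ∀ᶠ x in ν, ¬ R' x := by
  have h1 := Nl.strip (cr_ev _) (cr_ev _) (l := fun _ => l) (CR.const _) h
    (nl_gen C.col (hR.mono fun _ hx h => (hx h).1) (fun _ => 0) (Eventually.of_forall hc))
  let w : (ι → ℕ → L) → ℕ × ℕ × ℕ × ℕ → L := fun x q => (T x).xx gen q.1 q.2.1 *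
    ((T x).xx' gen q.1 q.2.1 q.2.2.1)⁻¹ * (T x).yy gen q.1 q.2.1 q.2.2.1
  have hw : ∀ q, MF B fun x => w x q := fun q =>
    ((C.mT.xx _ _).map2 (C.mT.xx' _ _ _) fun u v => u * v⁻¹).map2 (C.mT.yy _ _ _) (· * ·)
  have h2 := Nl.mem (cr_ev (d := d) fun x t => w x (p x t)) (l := fun _ => l) (CR.const _)
    (h1.of_eq fun x t => by simp only [lab3, AdvT.L3, AdvT.L2, mul_assoc, map_mul, map_inv, inv_mul_cancel_left, w]) U1
  filter_upwards [h2, hR, C.m32 l, C.m21 l, C.gw, C.f1 (fun x t => w x (p x t))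
    fun t => (hp t).sub (F := fun q x => w x q) hw] with x a b e1 e2 e3 e4 c
  obtain ⟨j, hj⟩ := e4 (b c).1 (a c (e2 (e1 (b c).2)))
  obtain ⟨t, ht1, ht2⟩ := (hj.and (eventually_ge_atTop j)).exists
  exact (e3 (b c).1).2.wa _ _ _ j (ht2.trans (hc x c t)) ht1

theorem dis40 (hR : ∀ᶠ x in ν, R' x → R x ∧ G.mem l U3 x)
    (hp : ∀ t, MF B fun x => p x t) (hc : ∀ x, R' x → ∀ t, t ≤ (p x t).1)
    (h : Nl G R' fun x t => l⁻¹ * evL d (lab (T x) 4 (p x t))) : ∀ᶠ x in ν, ¬ R' x := by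
  have h1 := Nl.strip (cr_ev _) (cr_ev _) (l := fun _ => l) (CR.const _) h
    (nl_gen C.col (hR.mono fun _ hx h => (hx h).1) (fun _ => 0) (Eventually.of_forall hc))
  let w : (ι → ℕ → L) → ℕ × ℕ × ℕ × ℕ → L := fun x q => (T x).xx gen q.1 q.2.1 *
    ((T x).xx' gen q.1 q.2.1 q.2.2.1)⁻¹ * (T x).yy gen q.1 q.2.1 q.2.2.1 *
    ((T x).yy' gen q.1 q.2.1 q.2.2.1 q.2.2.2)⁻¹ * (T x).zz gen q.1 q.2.1 q.2.2.1 q.2.2.2
  have hw : ∀ q, MF B fun x => w x q := fun q =>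
    ((((C.mT.xx _ _).map2 (C.mT.xx' _ _ _) fun u v => u * v⁻¹).map2 (C.mT.yy _ _ _)
      (· * ·)).map2 (C.mT.yy' _ _ _ _) fun u v => u * v⁻¹).map2 (C.mT.zz _ _ _ _) (· * ·)
  have h2 := Nl.mem (cr_ev (d := d) fun x t => w x (p x t)) (l := fun _ => l) (CR.const _)
    (h1.of_eq fun x t => by simp only [lab4, AdvT.L4, AdvT.L3, AdvT.L2, mul_assoc, map_mul, map_inv, inv_mul_cancel_left, w]) U2
  filter_upwards [h2, hR, C.m32 l, C.gw, C.f2 (fun x t => w x (p x t))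
    fun t => (hp t).sub (F := fun q x => w x q) hw] with x a b e1 e3 e4 c
  obtain ⟨j, hj⟩ := e4 (b c).1 (a c (e1 (b c).2))
  obtain ⟨t, ht1, ht2⟩ := (hj.and (eventually_ge_atTop j)).exists
  exact (e3 (b c).1).2.wb _ _ _ _ j (ht2.trans (hc x c t)) ht1

/-- the first two letters below a fixed node of level 1 are null -/
theorem nl_xx {i : ℕ} (hR : ∀ᶠ x in ν, R' x → R x)
    (hc : ∀ x, R' x → ∀ t, (p x t).1 = i ∧ t ≤ (p x t).2.1) :
    Nl G R' fun x t => evL d (gen i ((T x).a i (p x t).2.1)) *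
      (evL d (gen i ((T x).b1 i (p x t).2.1 (p x t).2.2.1)))⁻¹ := by
  refine (nl_gen C.col hR (fun _ => i) ?_).mul ((nl_gen C.col hR (fun _ => i) ?_).inv (cr_ev _))
    (cr_ev _) (cr_ev _).inv
  · filter_upwards [hR, C.gw] with x a b c t using (hc x c t).2.trans ((b (a c)).1.a _ _)
  · filter_upwards [hR, C.gw] with x a b c t using (hc x c t).2.trans ((b (a c)).1.b1 _ _ _).1

theorem dis31 {i : ℕ} (hm : Measurable R') (hR : ∀ᶠ x in ν, R' x → R x)
    (hp : ∀ t, MF B fun x => p x t) (hc : ∀ x, R' x → ∀ t, (p x t).1 = i ∧ t ≤ (p x t).2.1)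
    (h : Nl G R' fun x t => l⁻¹ * evL d (lab (T x) 3 (p x t))) : ∀ᶠ x in ν, ¬ R' x := by
  have h1 := Nl.strip (q := fun x t => (evL d (gen 0 i))⁻¹ * evL d (lab (T x) 3 (p x t)))
    ((CR.const _).mul (cr_ev _)) ((cr_ev _).mul (cr_ev _).inv)
    (l := fun _ => (evL d (gen 0 i))⁻¹ * l) (CR.const _) (h.of_eq fun x t => by group)
    (C.nl_xx hR hc)
  have h2 := C.trans' hm (κ := fun x t => (T x).k2 i (p x t).2.1)
    (m := fun x t => (T x).b2 i (p x t).2.1 (p x t).2.2.1)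
    (fun t => (hp t).sub (F := fun q x => (T x).k2 i q.2.1) fun q => C.mT.k2 _ _)
    (fun t => (hp t).sub (F := fun q x => (T x).b2 i q.2.1 q.2.2.1) fun q => C.mT.b2 _ _ _)
    (MF.const (gen 0 i)) (l := l)
    (by filter_upwards [hR, C.gw] with x a b c t using (hc x c t).2.trans ((b (a c)).1.k2 _ _))
    (h1.congr_eq (Eventually.of_forall fun x c => Eventually.of_forall fun t => by
      simp only [mul_inv_rev, inv_inv, lab3, AdvT.L3, AdvT.L2, (hc x c t).1, AdvT.xx, AdvT.xx', AdvT.yy, mul_assoc, map_mul, map_inv, inv_mul_cancel_left, mul_inv_cancel_left]))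
  filter_upwards [h2, hR] with x a b c using a (b c) c

theorem dis41 {i : ℕ} (hi : i0 ≤ i) (hR : ∀ᶠ x in ν, R' x → R x ∧ G.mem l U3 x)
    (hp : ∀ t, MF B fun x => p x t) (hc : ∀ x, R' x → ∀ t, (p x t).1 = i ∧ t ≤ (p x t).2.1)
    (h : Nl G R' fun x t => l⁻¹ * evL d (lab (T x) 4 (p x t))) : ∀ᶠ x in ν, ¬ R' x := by
  have h1 := Nl.strip (q := fun x t => (evL d (gen 0 i))⁻¹ * evL d (lab (T x) 4 (p x t)))
    ((CR.const _).mul (cr_ev _)) ((cr_ev _).mul (cr_ev _).inv)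
    (l := fun _ => (evL d (gen 0 i))⁻¹ * l) (CR.const _) (h.of_eq fun x t => by group)
    (C.nl_xx (hR.mono fun _ hx h => (hx h).1) hc)
  let w : (ι → ℕ → L) → ℕ × ℕ × ℕ × ℕ → L := fun x q => (T x).yy gen i q.2.1 q.2.2.1 *
    ((T x).yy' gen i q.2.1 q.2.2.1 q.2.2.2)⁻¹ * (T x).zz gen i q.2.1 q.2.2.1 q.2.2.2
  have hw : ∀ q, MF B fun x => w x q := fun q =>
    ((C.mT.yy _ _ _).map2 (C.mT.yy' _ _ _ _) fun u v => u * v⁻¹).map2 (C.mT.zz _ _ _ _) (· * ·)
  have h2 := Nl.mem (cr_ev (d := d) fun x t => w x (p x t)) (l := fun _ => (evL d (gen 0 i))⁻¹ * l)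
    (CR.const _) (h1.congr_eq (Eventually.of_forall fun x c => Eventually.of_forall fun t => by
      simp only [mul_inv_rev, inv_inv, lab4, AdvT.L4, AdvT.L3, AdvT.L2, (hc x c t).1, AdvT.xx, AdvT.xx', mul_assoc, map_mul, map_inv, inv_mul_cancel_left, mul_inv_cancel_left, w])) U1
  filter_upwards [h2, hR, C.u32 1 (d 0 i) l, G.mem_one U3, C.g3, C.m21 (1 * (d 0 i)⁻¹ * l), C.gw,
    C.f1 (fun x t => w x (p x t)) fun t => (hp t).sub (F := fun q x => w x q) hw]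
    with x a b e0 e1 e1' e2 e3 e4 c
  obtain ⟨j, hj⟩ := e4 (b c).1 (a c (by
    simpa only [evL_gen, one_mul] using e2 (e0 e1 (e1' (b c).1 i hi) (b c).2)))
  obtain ⟨t, ht1, ht2⟩ := (hj.and (eventually_ge_atTop j)).exists
  exact (e3 (b c).1).2.wc _ _ _ _ j (ht2.trans (hc x c t).2) ht1

theorem dis42 {i n : ℕ} (hm : Measurable R') (hR : ∀ᶠ x in ν, R' x → R x)
    (hp : ∀ t, MF B fun x => p x t)
    (hc : ∀ x, R' x → ∀ t, (p x t).1 = i ∧ (p x t).2.1 = n ∧ t ≤ (p x t).2.2.1)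
    (h : Nl G R' fun x t => l⁻¹ * evL d (lab (T x) 4 (p x t))) : ∀ᶠ x in ν, ¬ R' x := by
  have n1 : Nl G R' fun x t => evL d (gen i ((T x).b1 i n (p x t).2.2.1)) :=
    nl_gen C.col hR (fun _ => i) (by
      filter_upwards [hR, C.gw] with x a b c t using
        (hc x c t).2.2.trans ((b (a c)).1.b1 _ _ _).2)
  have n2 : Nl G R' fun x t => evL d (gen ((T x).k2 i n) ((T x).b2 i n (p x t).2.2.1)) :=
    nl_gen C.col hR (fun x => (T x).k2 i n) (by
      filter_upwards [hR, C.gw] with x a b c t using (hc x c t).2.2.trans ((b (a c)).1.b2 _ _ _))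
  have n3 : Nl G R' fun x t =>
      evL d (gen ((T x).k2 i n) ((T x).d1 i n (p x t).2.2.1 (p x t).2.2.2)) :=
    nl_gen C.col hR (fun x => (T x).k2 i n) (by
      filter_upwards [hR, C.gw] with x a b c t using
        (hc x c t).2.2.trans ((b (a c)).1.d1 _ _ _ _).1)
  have h1 := Nl.strip
    (q := fun x t => (evL d ((T x).L2 gen (gen 0) i n))⁻¹ * evL d (lab (T x) 4 (p x t)))
    ((cr_ev fun x _ => (T x).L2 gen (gen 0) i n).inv.mul (cr_ev _))
    (((cr_ev _).inv.mul (cr_ev _)).mul (cr_ev _).inv)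
    (l := fun x => (evL d ((T x).L2 gen (gen 0) i n))⁻¹ * l)
    ((cr_ev fun x _ => (T x).L2 gen (gen 0) i n).inv.mul (CR.const _))
    (h.of_eq fun x t => by group)
    (((n1.inv (cr_ev _)).mul n2 (cr_ev _).inv (cr_ev _)).mul (n3.inv (cr_ev _))
      ((cr_ev _).inv.mul (cr_ev _)) (cr_ev _).inv)
  have h2 := C.trans' hm (κ := fun x t => (T x).k3 i n (p x t).2.2.1)
    (m := fun x t => (T x).d2 i n (p x t).2.2.1 (p x t).2.2.2)
    (fun t => (hp t).sub (F := fun q x => (T x).k3 i n q.2.2.1) fun q => C.mT.k3 _ _ _)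
    (fun t => (hp t).sub (F := fun q x => (T x).d2 i n q.2.2.1 q.2.2.2) fun q => C.mT.d2 _ _ _ _)
    (C.mT.L2 i n) (l := l)
    (by filter_upwards [hR, C.gw] with x a b c t using (hc x c t).2.2.trans ((b (a c)).1.k3 _ _ _))
    (h1.congr_eq (Eventually.of_forall fun x c => Eventually.of_forall fun t => by
      simp only [mul_inv_rev, inv_inv, mul_assoc, lab4, AdvT.L4, AdvT.L3, (hc x c t).1, (hc x c t).2.1, AdvT.xx', AdvT.yy, AdvT.yy', AdvT.zz, map_mul, map_inv, inv_mul_cancel_left, mul_inv_cancel_left]))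
  filter_upwards [h2, hR] with x a b c using a (b c) c

theorem hon2 {i : ℕ} (hR : ∀ᶠ x in ν, R' x → R x)
    (hc : ∀ x, R' x → ∀ t, (p x t).1 = i ∧ t ≤ (p x t).2.1) :
    Nl G R' fun x t => (evL d (gen 0 i))⁻¹ * evL d (lab (T x) 2 (p x t)) :=
  (nl_gen C.col hR (fun _ => i) (φ := fun x t => (T x).a i (p x t).2.1) (by
    filter_upwards [hR, C.gw] with x a b c t using (hc x c t).2.trans ((b (a c)).1.a _ _))).congr_eq
    (Eventually.of_forall fun x c => Eventually.of_forall fun t => by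
      simp [lab2, AdvT.L2, AdvT.xx, (hc x c t).1])

theorem hon3 {i n : ℕ} (hR : ∀ᶠ x in ν, R' x → R x)
    (hc : ∀ x, R' x → ∀ t, (p x t).1 = i ∧ (p x t).2.1 = n ∧ t ≤ (p x t).2.2.1) :
    Nl G R' fun x t => (evL d ((T x).L2 gen (gen 0) i n))⁻¹ * evL d (lab (T x) 3 (p x t)) := by
  have n1 : Nl G R' fun x t => evL d (gen i ((T x).b1 i n (p x t).2.2.1)) :=
    nl_gen C.col hR (fun _ => i) (by
      filter_upwards [hR, C.gw] with x a b c t using
        (hc x c t).2.2.trans ((b (a c)).1.b1 _ _ _).2)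
  have n2 : Nl G R' fun x t => evL d (gen ((T x).k2 i n) ((T x).b2 i n (p x t).2.2.1)) :=
    nl_gen C.col hR (fun x => (T x).k2 i n) (by
      filter_upwards [hR, C.gw] with x a b c t using (hc x c t).2.2.trans ((b (a c)).1.b2 _ _ _))
  exact ((n1.inv (cr_ev _)).mul n2 (cr_ev _).inv (cr_ev _)).congr_eq
    (Eventually.of_forall fun x c => Eventually.of_forall fun t => by
      simp only [lab3, AdvT.L3, (hc x c t).1, (hc x c t).2.1, AdvT.xx', AdvT.yy, map_mul, map_inv, inv_mul_cancel_left])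

theorem hon4 {i n m : ℕ} (hR : ∀ᶠ x in ν, R' x → R x) (hc : ∀ x, R' x → ∀ t,
      (p x t).1 = i ∧ (p x t).2.1 = n ∧ (p x t).2.2.1 = m ∧ t ≤ (p x t).2.2.2) :
    Nl G R' fun x t => (evL d ((T x).L3 gen (gen 0) i n m))⁻¹ * evL d (lab (T x) 4 (p x t)) := by
  have n1 : Nl G R' fun x t => evL d (gen ((T x).k2 i n) ((T x).d1 i n m (p x t).2.2.2)) :=
    nl_gen C.col hR (fun x => (T x).k2 i n) (by
      filter_upwards [hR, C.gw] with x a b c t using
        (hc x c t).2.2.2.trans ((b (a c)).1.d1 _ _ _ _).2)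
  have n2 : Nl G R' fun x t => evL d (gen ((T x).k3 i n m) ((T x).d2 i n m (p x t).2.2.2)) :=
    nl_gen C.col hR (fun x => (T x).k3 i n m) (by
      filter_upwards [hR, C.gw] with x a b c t using
        (hc x c t).2.2.2.trans ((b (a c)).1.d2 _ _ _ _))
  exact ((n1.inv (cr_ev _)).mul n2 (cr_ev _).inv (cr_ev _)).congr_eq
    (Eventually.of_forall fun x c => Eventually.of_forall fun t => by
      simp only [lab4, AdvT.L4, (hc x c t).1, (hc x c t).2.1, (hc x c t).2.2.1, AdvT.yy', AdvT.zz, map_mul, map_inv, inv_mul_cancel_left])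

/-- infinitely many terms of `z` are labels of level `lev` of nodes satisfying `cond` -/
def Hs (T : (ι → ℕ → L) → AdvT) (z : (ι → ℕ → L) → ℕ → L) (lev : ℕ)
    (cond : ℕ → ℕ × ℕ × ℕ × ℕ → Prop) (x : ι → ℕ → L) : Prop :=
  ∀ t, ∃ k, t ≤ k ∧ ∃ p, z x k = lab (T x) lev p ∧ cond t p

variable {z : (ι → ℕ → L) → ℕ → L}

omit [CountableInterFilter ν] in
theorem hs_md (hz : ∀ k, MF B fun x => z x k) (lev : ℕ) (cond : ℕ → ℕ × ℕ × ℕ × ℕ → Prop) :
    MD B (Hs T z lev cond) :=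
  MD.all fun _ => MD.ex fun k => (MD.const _).and (MD.ex fun p =>
    (((hz k).pair (C.mT.lab lev p)).pred fun q => q.1 = q.2).and (MD.const _))

omit [CountableInterFilter ν] in
theorem hs_ext (hz : ∀ k, MF B fun x => z x k) (lev : ℕ) (cond : ℕ → ℕ × ℕ × ℕ × ℕ → Prop)
    (h : Nl G R' fun x k => l⁻¹ * evL d (z x k)) :
    ∃ p : (ι → ℕ → L) → ℕ → ℕ × ℕ × ℕ × ℕ, (∀ t, MF B fun x => p x t) ∧
      (∀ x, R' x ∧ Hs T z lev cond x → ∀ t, cond t (p x t)) ∧
      Nl G (fun x => R' x ∧ Hs T z lev cond x) fun x t => l⁻¹ * evL d (lab (T x) lev (p x t)) := by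
  obtain ⟨κ, p, h1, h2⟩ := subq (B := B) (fun x t k p => z x k = lab (T x) lev p ∧ cond t p)
    fun t k p => (((hz k).pair (C.mT.lab lev p)).pred fun q => q.1 = q.2).and (MD.const _)
  refine ⟨p, h1, fun x hx t => ((h2 x hx.2).2 t).2, ?_⟩
  exact ((h.mono (Eventually.of_forall fun x hx => hx.1)).comp
    (Eventually.of_forall fun x hx => (h2 x hx.2).1)).congr_eq
    (Eventually.of_forall fun x hx => Eventually.of_forall fun t => by rw [((h2 x hx.2).2 t).1])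

/-- limits in `U3` of old sequences of labels are labels one level up at most -/
theorem step {lam : ℕ} (hlam : 1 ≤ lam) (hz : ∀ k, MF B fun x => z x k)
    (hL : ∀ᶠ x in ν, R x → ∀ k, Lab (T x) i0 (lam + 1) (z x k))
    (h : Nl G (fun x => R x ∧ G.mem l U3 x) fun x k => l⁻¹ * evL d (z x k)) :
    ∃ w : (ι → ℕ → L) → L, MF B w ∧ (∀ᶠ x in ν, R x → Lab (T x) i0 lam (w x)) ∧
      ∀ᶠ x in ν, R x → G.mem l U3 x → G.nul (l⁻¹ * evL d (w x)) x := by
  have hm : Measurable fun x => R x ∧ G.mem l U3 x := C.mR.and (G.mem_meas _ _)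
  have s1 : ∀ {H : (ι → ℕ → L) → Prop}, ∀ᶠ x in ν, (R x ∧ G.mem l U3 x) ∧ H x → R x :=
    Eventually.of_forall fun _ hx => hx.1.1
  have s2 : ∀ {H : (ι → ℕ → L) → Prop}, ∀ᶠ x in ν, (R x ∧ G.mem l U3 x) ∧ H x →
      R x ∧ G.mem l U3 x := Eventually.of_forall fun _ hx => hx.1
  let c2 : ℕ → ℕ → ℕ × ℕ × ℕ × ℕ → Prop := fun i t p => p.1 = i ∧ t ≤ p.2.1
  let c3 : ℕ → ℕ → ℕ → ℕ × ℕ × ℕ × ℕ → Prop := fun i n t p => p.1 = i ∧ p.2.1 = n ∧ t ≤ p.2.2.1
  let c4 : ℕ → ℕ → ℕ → ℕ → ℕ × ℕ × ℕ × ℕ → Prop := fun i n m t p =>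
    p.1 = i ∧ p.2.1 = n ∧ p.2.2.1 = m ∧ t ≤ p.2.2.2
  let Cd : L → (ι → ℕ → L) → Prop := fun w x => (∃ᶠ k in atTop, z x k = w) ∨
    (∃ i, Hs T z 2 (c2 i) x ∧ gen 0 i = w) ∨
    (∃ i n, Hs T z 3 (c3 i n) x ∧ (T x).L2 gen (gen 0) i n = w) ∨
    ∃ i n m, Hs T z 4 (c4 i n m) x ∧ (T x).L3 gen (gen 0) i n m = w
  have hCd : ∀ w, MD B (Cd w) := fun w => (MD.fr fun k => hz k w).or
    ((MD.ex fun i => (C.hs_md hz _ _).and (MD.const _)).or
    ((MD.ex fun i => MD.ex fun n => (C.hs_md hz _ _).and (C.mT.L2 i n w)).or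
    (MD.ex fun i => MD.ex fun n => MD.ex fun m => (C.hs_md hz _ _).and (C.mT.L3 i n m w))))
  have hA : ∀ w, ∀ᶠ x in ν, R x → G.mem l U3 x → Cd w x → G.nul (l⁻¹ * evL d w) x := by
    intro w
    have a1 := h.nul_of_freq (l := fun _ => l⁻¹ * evL d w) (CR.const _)
    have a2 : ∀ i, ∀ᶠ x in ν, (R x ∧ G.mem l U3 x) ∧ Hs T z 2 (c2 i) x →
        G.nul (l⁻¹ * evL d (gen 0 i)) x := fun i => by
      obtain ⟨p, -, h2, h3⟩ := C.hs_ext hz 2 (c2 i) h
      exact Nl.unique (cr_ev _) (CR.const _) (CR.const _) h3 (C.hon2 s1 h2)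
    have a3 : ∀ i n, ∀ᶠ x in ν, (R x ∧ G.mem l U3 x) ∧ Hs T z 3 (c3 i n) x →
        G.nul (l⁻¹ * evL d ((T x).L2 gen (gen 0) i n)) x := fun i n => by
      obtain ⟨p, -, h2, h3⟩ := C.hs_ext hz 3 (c3 i n) h
      exact Nl.unique (cr_ev _) (CR.const _) (cr_ev _) h3 (C.hon3 s1 h2)
    have a4 : ∀ i n m, ∀ᶠ x in ν, (R x ∧ G.mem l U3 x) ∧ Hs T z 4 (c4 i n m) x →
        G.nul (l⁻¹ * evL d ((T x).L3 gen (gen 0) i n m)) x := fun i n m => by
      obtain ⟨p, -, h2, h3⟩ := C.hs_ext hz 4 (c4 i n m) h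
      exact Nl.unique (cr_ev _) (CR.const _) (cr_ev _) h3 (C.hon4 s1 h2)
    filter_upwards [a1, eventually_countable_forall.2 a2,
      eventually_countable_forall.2 fun i => eventually_countable_forall.2 (a3 i),
      eventually_countable_forall.2 fun i => eventually_countable_forall.2 fun n =>
        eventually_countable_forall.2 (a4 i n)] with x b1 b2 b3 b4 r u hc
    rcases hc with hc | ⟨i, hc, rfl⟩ | ⟨i, n, hc, rfl⟩ | ⟨i, n, m, hc, rfl⟩
    · exact b1 ⟨r, u⟩ (hc.mono fun k hk => by rw [hk])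
    · exact b2 i ⟨⟨r, u⟩, hc⟩
    · exact b3 i n ⟨⟨r, u⟩, hc⟩
    · exact b4 i n m ⟨⟨r, u⟩, hc⟩
  have d20 : ∀ᶠ x in ν, ¬ ((R x ∧ G.mem l U3 x) ∧ Hs T z 2 (fun t p => t ≤ p.1) x) := by
    obtain ⟨p, h1, h2, h3⟩ := C.hs_ext hz 2 (fun t p => t ≤ p.1) h
    exact C.dis20 (hm.and (C.hs_md hz _ _).1) s1 h1 h2 h3
  have d30 : ∀ᶠ x in ν, ¬ ((R x ∧ G.mem l U3 x) ∧ Hs T z 3 (fun t p => t ≤ p.1) x) := by
    obtain ⟨p, h1, h2, h3⟩ := C.hs_ext hz 3 (fun t p => t ≤ p.1) h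
    exact C.dis30 s2 h1 h2 h3
  have d40 : ∀ᶠ x in ν, ¬ ((R x ∧ G.mem l U3 x) ∧ Hs T z 4 (fun t p => t ≤ p.1) x) := by
    obtain ⟨p, h1, h2, h3⟩ := C.hs_ext hz 4 (fun t p => t ≤ p.1) h
    exact C.dis40 s2 h1 h2 h3
  have d31 : ∀ i, ∀ᶠ x in ν, ¬ ((R x ∧ G.mem l U3 x) ∧ Hs T z 3 (c2 i) x) := fun i => by
    obtain ⟨p, h1, h2, h3⟩ := C.hs_ext hz 3 (c2 i) h
    exact C.dis31 (hm.and (C.hs_md hz _ _).1) s1 h1 h2 h3
  have d41 : ∀ i, ∀ᶠ x in ν, i0 ≤ i → ¬ ((R x ∧ G.mem l U3 x) ∧ Hs T z 4 (c2 i) x) := fun i => by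
    by_cases hi : i0 ≤ i
    · obtain ⟨p, h1, h2, h3⟩ := C.hs_ext hz 4 (c2 i) h
      exact (C.dis41 hi s2 h1 h2 h3).mono fun x hx _ => hx
    · exact Eventually.of_forall fun x hx => absurd hx hi
  have d42 : ∀ i n, ∀ᶠ x in ν, ¬ ((R x ∧ G.mem l U3 x) ∧ Hs T z 4 (c3 i n) x) := fun i n => by
    obtain ⟨p, h1, h2, h3⟩ := C.hs_ext hz 4 (c3 i n) h
    exact C.dis42 (hm.and (C.hs_md hz _ _).1) s1 h1 h2 h3
  have hB : ∀ᶠ x in ν, R x → G.mem l U3 x → ∃ w, Lab (T x) i0 lam w ∧ Cd w x := by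
    filter_upwards [hL, d20, d30, d40, eventually_countable_forall.2 d31,
      eventually_countable_forall.2 d41,
      eventually_countable_forall.2 fun i => eventually_countable_forall.2 (d42 i)]
      with x e0 e20 e30 e40 e31 e41 e42 r u
    have f0 : ∃ᶠ k in atTop, ∃ q : ℕ × ℕ × ℕ × ℕ × ℕ, (lam + 1 ≤ q.1 ∧ q.1 ≤ 4) ∧ i0 ≤ q.2.1 ∧
        z x k = lab (T x) q.1 q.2 := Frequently.of_forall fun k => by
      obtain ⟨lev, h1, h2, p, h3, h4⟩ := e0 r k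
      exact ⟨(lev, p), ⟨h1, h2⟩, h3, h4.symm⟩
    rcases pig (fun q => q.1) f0 with f1 | ⟨lev, f1⟩
    · obtain ⟨k, -, q, h1, h2⟩ := f1 5
      omega
    obtain ⟨k0, q0, ⟨⟨g1, g2⟩, -⟩, g3⟩ := f1.exists
    rw [g3] at g1 g2
    have f2 : ∃ᶠ k in atTop, ∃ p : ℕ × ℕ × ℕ × ℕ, i0 ≤ p.1 ∧ z x k = lab (T x) lev p :=
      f1.mono fun k ⟨q, h1, h2⟩ => ⟨q.2, h1.2.1, h2 ▸ h1.2.2⟩
    have hlev : lev = 2 ∨ lev = 3 ∨ lev = 4 := by omega
    rcases pig (fun p => p.1) f2 with f3 | ⟨i, f3⟩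
    · have : Hs T z lev (fun t p => t ≤ p.1) x := fun t =>
        let ⟨k, h1, p, h2, h3⟩ := f3 t; ⟨k, h1, p, h2.2, h3⟩
      rcases hlev with rfl | rfl | rfl
      · exact absurd ⟨⟨r, u⟩, this⟩ e20
      · exact absurd ⟨⟨r, u⟩, this⟩ e30
      · exact absurd ⟨⟨r, u⟩, this⟩ e40
    have hi : i0 ≤ i := let ⟨_, _, h1, h2⟩ := f3.exists; h2 ▸ h1.1
    rcases pig (fun p => p.2.1) f3 with f4 | ⟨n, f4⟩
    · have : Hs T z lev (c2 i) x := fun t =>
        let ⟨k, h1, p, h2, h3⟩ := f4 t; ⟨k, h1, p, h2.1.2, h2.2, h3⟩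
      rcases hlev with rfl | rfl | rfl
      · exact ⟨_, ⟨1, by omega, by omega, (i, 0, 0, 0), hi, lab1 _ _⟩,
          Or.inr (Or.inl ⟨i, this, rfl⟩)⟩
      · exact absurd ⟨⟨r, u⟩, this⟩ (e31 i)
      · exact absurd ⟨⟨r, u⟩, this⟩ (e41 i hi)
    rcases hlev with rfl | hlev
    · refine ⟨_, ⟨2, by omega, by omega, (i, n, 0, 0), hi, lab2 _ _⟩, Or.inl (f4.mono ?_)⟩
      rintro k ⟨p, ⟨⟨-, h1⟩, rfl⟩, rfl⟩
      rw [h1, lab2]
    rcases pig (fun p => p.2.2.1) f4 with f5 | ⟨m, f5⟩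
    · have : Hs T z lev (c3 i n) x := fun t =>
        let ⟨k, h1, p, h2, h3⟩ := f5 t; ⟨k, h1, p, h2.1.1.2, h2.1.2, h2.2, h3⟩
      rcases hlev with rfl | rfl
      · exact ⟨_, ⟨2, by omega, by omega, (i, n, 0, 0), hi, lab2 _ _⟩,
          Or.inr (Or.inr (Or.inl ⟨i, n, this, rfl⟩))⟩
      · exact absurd ⟨⟨r, u⟩, this⟩ (e42 i n)
    rcases hlev with rfl | rfl
    · refine ⟨_, ⟨3, by omega, by omega, (i, n, m, 0), hi, lab3 _ _⟩, Or.inl (f5.mono ?_)⟩
      rintro k ⟨p, ⟨⟨⟨-, h1⟩, rfl⟩, rfl⟩, rfl⟩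
      rw [h1, lab3]
    rcases pig (fun p => p.2.2.2) f5 with f6 | ⟨l', f6⟩
    · have : Hs T z 4 (c4 i n m) x := fun t =>
        let ⟨k, h1, p, h2, h3⟩ := f6 t; ⟨k, h1, p, h2.1.1.1.2, h2.1.1.2, h2.1.2, h2.2, h3⟩
      exact ⟨_, ⟨3, by omega, by omega, (i, n, m, 0), hi, lab3 _ _⟩,
        Or.inr (Or.inr (Or.inr ⟨i, n, m, this, rfl⟩))⟩
    · refine ⟨_, ⟨4, by omega, by omega, (i, n, m, l'), hi, lab4 _ _⟩, Or.inl (f6.mono ?_)⟩
      rintro k ⟨p, ⟨⟨⟨⟨-, h1⟩, rfl⟩, rfl⟩, rfl⟩, rfl⟩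
      rw [h1, lab4]
  obtain ⟨w, hw1, hw2⟩ := MD.sel (B := B) (φ := fun w x => Lab (T x) i0 lam w ∧
    ((∃ w', Lab (T x) i0 lam w' ∧ Cd w' x) → Cd w x)) fun w => (C.mT.Lab _ _ w).and
      ((MD.ex fun w' => (C.mT.Lab _ _ w').and (hCd w')).imp (hCd w))
  have hex : ∀ᶠ x in ν, R x → Lab (T x) i0 lam (w x) ∧
      ((∃ w', Lab (T x) i0 lam w' ∧ Cd w' x) → Cd (w x) x) := by
    filter_upwards [hL] with x e0 r
    refine hw2 x ?_
    by_cases e : ∃ w', Lab (T x) i0 lam w' ∧ Cd w' x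
    · obtain ⟨w', h1, h2⟩ := e
      exact ⟨w', h1, fun _ => h2⟩
    · obtain ⟨lev, h1, h2⟩ := e0 r 0
      exact ⟨_, ⟨lev, by omega, h2⟩, fun h3 => absurd h3 e⟩
  refine ⟨w, hw1, hex.mono fun x hx r => (hx r).1, ?_⟩
  filter_upwards [hex, hB, eventually_countable_forall.2 hA] with x e1 e2 e3 r u
  exact e3 _ r u ((e1 r).2 (e2 r u))

/-- an old tree of height 3 on the leaves is impossible -/
theorem no_tree (hg : ∀ᶠ x in ν, R x → ∀ i, gen 0 i ∈ N x)
    (hN : ∀ᶠ x in ν, ∀ w ∈ N x, ¬ G.nul (evL d w) x) {a : (ι → ℕ → L) → ℕ → ℕ → ℕ → L}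
    {b : ℕ → ℕ → G.G} {c : ℕ → G.G} (ha : ∀ i j k, MF B fun x => a x i j k)
    (hL : ∀ᶠ x in ν, R x → ∀ i j k, Lab (T x) i0 4 (a x i j k)) (hc : Nl G R fun _ i => c i)
    (hb : ∀ i, Nl G R fun _ j => (c i)⁻¹ * b i j)
    (hab : ∀ i j, Nl G R fun x k => (b i j)⁻¹ * evL d (a x i j k)) : ∀ᶠ x in ν, ¬ R x := by
  have s1 : ∀ {H : (ι → ℕ → L) → Prop}, ∀ᶠ x in ν, R x ∧ H x → R x :=
    Eventually.of_forall fun _ hx => hx.1
  have up : ∀ (l : G.G) (q : ℕ → G.G) (w : ℕ → (ι → ℕ → L) → L), (Nl G R fun _ j => l⁻¹ * q j) →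
      (∀ j, ∀ᶠ x in ν, R x → G.mem (q j) U3 x → G.nul ((q j)⁻¹ * evL d (w j x)) x) →
      Nl G (fun x => R x ∧ G.mem l U3 x) fun x j => l⁻¹ * evL d (w j x) := by
    intro l q w h1 h2
    refine (h1.mono s1).congr (CR.seq _) ((CR.const _).mul (cr_ev _)) ?_
    filter_upwards [Nl.mem (CR.seq q) (l := fun _ => l) (CR.const _) h1 U3,
      eventually_countable_forall.2 h2] with x e1 e2 r
    filter_upwards [e1 r.1 r.2] with j hj
    simpa only [mul_inv_rev, inv_inv, mul_assoc, mul_inv_cancel_left] using e2 j r.1 hj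
  choose w3 m3 l3 n3 using fun i j => C.step (lam := 3) (z := fun x k => a x i j k) (by omega)
    (ha i j) (hL.mono fun x hx r k => hx r i j k) ((hab i j).mono s1)
  choose w2 m2 l2 n2 using fun i => C.step (lam := 2) (z := fun x j => w3 i j x) (by omega)
    (m3 i) ((eventually_countable_forall.2 (l3 i)).mono fun x hx r j => hx j r)
    (up (c i) (b i) (w3 i) (hb i) (n3 i))
  obtain ⟨w1, -, l1, n1⟩ := C.step (lam := 1) (z := fun x i => w2 i x) le_rfl m2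
    ((eventually_countable_forall.2 l2).mono fun x hx r j => hx j r)
    (up 1 c w2 (hc.of_eq fun _ _ => by simp) n2)
  filter_upwards [l1, n1, G.mem_one U3, hg, hN, C.gw] with x e1 e2 e3 e4 e5 e6 r
  refine e5 (w1 x) ?_ (by simpa using e2 r e3)
  obtain ⟨lev, -, -, p, -, hp⟩ := e1 r
  rw [← hp, lab]
  split_ifs
  · exact (e6 r).2.n4 _ _ _ _
  · exact (e6 r).2.n3 _ _ _
  · exact (e6 r).2.n2 _ _
  · exact e4 r _

end Ctx

end Pool.Agent.MP_e30343_lc.SO.T1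

end
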