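import Pool.Agent.MP_e30343_lc.Mg.SO_Not3Num

/-! The group of names of elements of a Boolean valued topological group. -/

open Pool.Agent.Lib.Forcing

namespace Pool.Agent.MP_e30343_lc.SO

variable {B : Type} [CompleteBooleanAlgebra B]

/-- Names forced to be a Hausdorff topological group. -/
structure TGN (B : Type) [CompleteBooleanAlgebra B] where
  G : Nm B
  m : Nm B
  e : Nm B
  T : Nm B
  tg : ∀ U : Ult B, TG U.E (U.cl G) (U.cl m) (U.cl T)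
  idt : ∀ U : Ult B, Idt U.E (U.cl G) (U.cl m) (U.cl e)
  inv : ∀ (U : Ult B) x, U.E x (U.cl G) → ∃ y, U.E y (U.cl G) ∧ Mu U.E (U.cl m) y x (U.cl e)

namespace TGN

variable (Γ : TGN B)

/-- The group in the quotient model. -/
def GU (U : Ult B) : Type 1 := {a : U.M // U.E a (U.cl Γ.G)}

variable {Γ}

noncomputable instance (U : Ult B) : Mul (Γ.GU U) :=
  ⟨fun a b => ⟨_, (Γ.tg U).1.2.1 _ _ _ a.2 b.2 ((Γ.tg U).1.1 _ _ a.2 b.2).choose_spec.1⟩⟩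

noncomputable instance (U : Ult B) : One (Γ.GU U) := ⟨⟨_, (Γ.idt U).1⟩⟩

noncomputable instance (U : Ult B) : Inv (Γ.GU U) :=
  ⟨fun a => ⟨_, (Γ.inv U _ a.2).choose_spec.1⟩⟩

theorem mu_mul {U : Ult B} (a b : Γ.GU U) : Mu U.E (U.cl Γ.m) a.1 b.1 (a * b).1 :=
  ((Γ.tg U).1.1 _ _ a.2 b.2).choose_spec.1

theorem mu_iff {U : Ult B} (a b : Γ.GU U) (z : U.M) :
    Mu U.E (U.cl Γ.m) a.1 b.1 z ↔ z = (a * b).1 :=
  ⟨fun h => ((Γ.tg U).1.1 _ _ a.2 b.2).unique h (mu_mul a b), fun h => h ▸ mu_mul a b⟩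

noncomputable instance (U : Ult B) : Group (Γ.GU U) :=
  Group.ofLeftAxioms
    (fun a b c => Subtype.ext ((mu_iff a (b * c) _).1
      ((Γ.tg U).1.2.2.1 _ _ _ _ _ _ a.2 b.2 c.2 (mu_mul a b) (mu_mul (a * b) c) (mu_mul b c))))
    (fun a => Subtype.ext ((mu_iff 1 a _).1 ((Γ.idt U).2 _ a.2).1).symm)
    (fun a => Subtype.ext ((mu_iff a⁻¹ a _).1 (Γ.inv U _ a.2).choose_spec.2).symm)

theorem mu_e {U : Ult B} (a b : Γ.GU U) : Mu U.E (U.cl Γ.m) b.1 a.1 (U.cl Γ.e) ↔ b = a⁻¹ := by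
  rw [mu_iff, eq_inv_iff_mul_eq_one]
  exact ⟨fun h => Subtype.ext h.symm, fun h => by rw [h]; rfl⟩

/-- Sections given by a name. -/
class Nd (f : ∀ U, Γ.GU U) : Prop where
  ex : ∃ x : Nm B, ∀ U, (f U).1 = U.cl x

/-- A name of the section. -/
noncomputable def nm (f : ∀ U, Γ.GU U) [h : Nd f] : Nm B := h.ex.choose

theorem nm_eq (f : ∀ U, Γ.GU U) [h : Nd f] (U : Ult B) : (f U).1 = U.cl (nm f) :=
  h.ex.choose_spec U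

instance : Nd (fun U => (1 : Γ.GU U)) := ⟨Γ.e, fun _ => rfl⟩

instance nd_mul (f g : ∀ U, Γ.GU U) [Nd f] [Nd g] : Nd (fun U => f U * g U) := by
  obtain ⟨z, hz⟩ := exists_witness fun U z => Mu U.E (U.cl Γ.m) (U.cl (nm f)) (U.cl (nm g)) z
  refine ⟨z, fun U => ?_⟩
  have := hz U
  simp only [← nm_eq, mu_iff] at this
  exact (this ⟨_, rfl⟩).symm

instance nd_inv (f : ∀ U, Γ.GU U) [Nd f] : Nd (fun U => (f U)⁻¹) := by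
  obtain ⟨z, hz⟩ := exists_witness fun U z =>
    U.E z (U.cl Γ.G) ∧ Mu U.E (U.cl Γ.m) z (U.cl (nm f)) (U.cl Γ.e)
  refine ⟨z, fun U => ?_⟩
  have := hz U
  simp only [← nm_eq] at this
  obtain ⟨h1, h2⟩ := this ⟨_, (f U)⁻¹.2, (mu_e _ _).2 rfl⟩
  rw [← (mu_e (f U) ⟨_, h1⟩).1 h2]

variable (Γ) in
/-- The group of named sections. -/
def N : Subgroup (∀ U, Γ.GU U) where
  carrier := {f | Nd f}
  mul_mem' := fun h1 h2 => @nd_mul _ _ _ _ _ h1 h2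
  one_mem' := inferInstanceAs (Nd fun _ => 1)
  inv_mem' := fun h => @nd_inv _ _ _ _ h

instance (g : Γ.N) : Nd g.1 := g.2

instance (g : Γ.N) : Nd (fun U => g.1 U) := g.2

instance rep_el (f : ∀ U, Γ.GU U) [Nd f] (V : Nm B) : Rep (fun U => U.E (f U).1 (U.cl V)) :=
  Rep.congr (P := fun U => U.E (U.cl (nm f)) (U.cl V)) fun U => by rw [nm_eq]

instance rep_eq (f g : ∀ U, Γ.GU U) [Nd f] [Nd g] : Rep (fun U => f U = g U) :=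
  Rep.congr (P := fun U => U.cl (nm f) = U.cl (nm g)) fun U => by
    rw [← nm_eq, ← nm_eq]; exact Subtype.ext_iff.symm

instance rep_val (f : ∀ U, Γ.GU U) [Nd f] (x : Nm B) : Rep (fun U => U.cl x = (f U).1) :=
  Rep.congr (P := fun U => U.cl x = U.cl (nm f)) fun U => by rw [nm_eq]

theorem exists_fix (x : Nm B) : ∃ g : Γ.N, ∀ U : Ult B, U.E (U.cl x) (U.cl Γ.G) →
    (g.1 U).1 = U.cl x := by
  obtain ⟨z, hz⟩ := exists_witness fun U z =>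
    U.E z (U.cl Γ.G) ∧ (U.E (U.cl x) (U.cl Γ.G) → z = U.cl x)
  have := fun U : Ult B => hz U (by
    by_cases h : U.E (U.cl x) (U.cl Γ.G)
    · exact ⟨_, h, fun _ => rfl⟩
    · exact ⟨_, (1 : Γ.GU U).2, fun h' => (h h').elim⟩)
  exact ⟨⟨fun U => ⟨_, (this U).1⟩, z, fun _ => rfl⟩, fun U => (this U).2⟩

theorem rep_aux (Q : ∀ U, Γ.GU U → Prop) [∀ g : Γ.N, Rep (fun U => Q U (g.1 U))] (x : Nm B) :
    Rep (fun U => ∃ h : U.E (U.cl x) (U.cl Γ.G), Q U ⟨_, h⟩) := by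
  obtain ⟨g, hg⟩ := exists_fix (Γ := Γ) x
  refine Rep.congr (P := fun U => U.E (U.cl x) (U.cl Γ.G) ∧ Q U (g.1 U)) fun U => ?_
  exact ⟨fun ⟨h, hq⟩ => ⟨h, (Subtype.ext (hg U h) : g.1 U = ⟨_, h⟩) ▸ hq⟩,
    fun ⟨h, hq⟩ => ⟨h, (Subtype.ext (hg U h) : g.1 U = ⟨_, h⟩).symm ▸ hq⟩⟩

theorem exists_G (Q : ∀ U, Γ.GU U → Prop) [∀ g : Γ.N, Rep (fun U => Q U (g.1 U))] :
    ∃ g : Γ.N, ∀ U, (∃ a, Q U a) → Q U (g.1 U) := by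
  have := rep_aux Q
  obtain ⟨x, hx⟩ := exists_witness fun U z => ∃ h : U.E z (U.cl Γ.G), Q U ⟨_, h⟩
  obtain ⟨g, hg⟩ := exists_fix (Γ := Γ) x
  refine ⟨g, fun U ⟨a, ha⟩ => ?_⟩
  obtain ⟨h, hq⟩ := hx U ⟨a.1, a.2, ha⟩
  exact (Subtype.ext (hg U h) : g.1 U = ⟨_, h⟩).symm ▸ hq

instance rep_exG (Q : ∀ U, Γ.GU U → Prop) [∀ g : Γ.N, Rep (fun U => Q U (g.1 U))] :
    Rep (fun U => ∃ a, Q U a) := by
  obtain ⟨g, hg⟩ := exists_G Q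
  exact Rep.congr (P := fun U => Q U (g.1 U)) fun U => ⟨fun h => ⟨_, h⟩, hg U⟩

instance rep_allG (Q : ∀ U, Γ.GU U → Prop) [∀ g : Γ.N, Rep (fun U => Q U (g.1 U))] :
    Rep (fun U => ∀ a, Q U a) :=
  Rep.congr (P := fun U => ¬ ∃ a, ¬ Q U a) fun U => by simp

variable (Γ) in
/-- `V` is an open neighbourhood of `a`. -/
def Nb (U : Ult B) (a : Γ.GU U) (V : U.M) : Prop := U.E V (U.cl Γ.T) ∧ U.E a.1 V

instance rep_nb (f : ∀ U, Γ.GU U) [Nd f] (V : Nm B) : Rep (fun U => Γ.Nb U (f U) (U.cl V)) := by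
  unfold Nb; infer_instance

variable (Γ) in
/-- Names of open sets. -/
def O : Type 1 := {V : Nm B // ∀ U : Ult B, U.E (U.cl V) (U.cl Γ.T)}

theorem exists_O (Q : ∀ U : Ult B, U.M → Prop) [∀ x, Rep (fun U => Q U (U.cl x))] :
    ∃ V : Γ.O, ∀ U : Ult B, (∃ W, U.E W (U.cl Γ.T) ∧ Q U W) → Q U (U.cl V.1) := by
  obtain ⟨V, hV⟩ := exists_witness fun U z =>
    U.E z (U.cl Γ.T) ∧ ((∃ W, U.E W (U.cl Γ.T) ∧ Q U W) → Q U z)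
  have := fun U : Ult B => hV U (by
    by_cases h : ∃ W, U.E W (U.cl Γ.T) ∧ Q U W
    · exact h.imp fun W h => ⟨h.1, fun _ => h.2⟩
    · exact ⟨_, (Γ.tg U).2.1.2.1, fun h' => (h h').elim⟩)
  exact ⟨⟨V, fun U => (this U).1⟩, fun U => (this U).2⟩

/-- A represented set of elements that is a neighbourhood of each of its points is open. -/
theorem exists_opn (Q : ∀ U, Γ.GU U → Prop) [∀ g : Γ.N, Rep (fun U => Q U (g.1 U))]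
    (h : ∀ U a, Q U a → ∃ X, Γ.Nb U a X ∧ ∀ c : Γ.GU U, U.E c.1 X → Q U c) :
    ∃ V : Γ.O, ∀ (U : Ult B) (a : Γ.GU U), U.E a.1 (U.cl V.1) ↔ Q U a := by
  obtain ⟨F, hF⟩ := exists_sub Γ.T fun U X => ∀ c : Γ.GU U, U.E c.1 X → Q U c
  obtain ⟨V, hV⟩ := exists_O (Γ := Γ) fun U W => ∀ z, U.E z W ↔ ∃ X, U.E X (U.cl F) ∧ U.E z X
  refine ⟨V, fun U a => ?_⟩
  rw [hV U ((Γ.tg U).2.1.2.2.2 _ fun X hX => ((hF U X).1 hX).1)]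
  exact ⟨fun ⟨X, h1, h2⟩ => ((hF U X).1 h1).2 a h2,
    fun ha => (h U a ha).imp fun X hX => ⟨(hF U X).2 ⟨hX.1.1, hX.2⟩, hX.1.2⟩⟩

section Pointwise

variable {U : Ult B}

theorem nb_inter {a : Γ.GU U} {V W : U.M} (h : Γ.Nb U a V) (h' : Γ.Nb U a W) :
    ∃ X, Γ.Nb U a X ∧ ∀ z, U.E z X → U.E z V ∧ U.E z W := by
  obtain ⟨X, h1, h2⟩ := (Γ.tg U).2.1.2.2.1 V W h.1 h'.1
  exact ⟨X, ⟨h1, (h2 _).2 ⟨h.2, h'.2⟩⟩, fun z => (h2 z).1⟩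

theorem nb_mul {a b : Γ.GU U} {W : U.M} (h : Γ.Nb U (a * b) W) : ∃ X Y, Γ.Nb U a X ∧ Γ.Nb U b Y ∧
    ∀ c d : Γ.GU U, U.E c.1 X → U.E d.1 Y → U.E (c * d).1 W := by
  obtain ⟨X, Y, h1, h2, h3, h4, h5⟩ := (Γ.tg U).2.2.2.1 _ _ _ W a.2 b.2 (mu_mul a b) h.1 h.2
  exact ⟨X, Y, ⟨h1, h3⟩, ⟨h2, h4⟩, fun c d hc hd => h5 _ _ _ hc hd (mu_mul c d)⟩

theorem nb_inv {a : Γ.GU U} {W : U.M} (h : Γ.Nb U a⁻¹ W) : ∃ X, Γ.Nb U a X ∧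
    ∀ c : Γ.GU U, U.E c.1 X → U.E (c⁻¹).1 W := by
  obtain ⟨X, h1, h2, h3⟩ := (Γ.tg U).2.2.2.2 _ _ _ W (Γ.idt U) a.2 a⁻¹.2
    ((mu_e _ _).2 (inv_inv a).symm) h.1 h.2
  exact ⟨X, ⟨h1, h2⟩, fun c hc => h3 _ _ hc c⁻¹.2 ((mu_e _ _).2 (inv_inv c).symm)⟩

theorem nb_trans (g g' : Γ.GU U) {a : Γ.GU U} {W : U.M} (h : Γ.Nb U (g * a * g') W) :
    ∃ X, Γ.Nb U a X ∧ ∀ c : Γ.GU U, U.E c.1 X → U.E (g * c * g').1 W := by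
  obtain ⟨X, Y, h1, h2, h3⟩ := nb_mul h
  obtain ⟨X', Y', h4, h5, h6⟩ := nb_mul h1
  exact ⟨Y', h5, fun c hc => h3 _ _ (h6 _ _ h4.2 hc) h2.2⟩

theorem nb_tri {W : U.M} (h : Γ.Nb U 1 W) : ∃ X, Γ.Nb U 1 X ∧
    ∀ a b c : Γ.GU U, U.E a.1 X → U.E b.1 X → U.E c.1 X → U.E (a * b⁻¹ * c).1 W := by
  obtain ⟨X, Y, h1, h2, h3⟩ := nb_mul (a := 1 * 1⁻¹) (b := 1) (by simpa using h)
  obtain ⟨X1, X2, h4, h5, h6⟩ := nb_mul h1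
  obtain ⟨X3, h7, h8⟩ := nb_inv h5
  obtain ⟨Z, h9, h10⟩ := nb_inter h2 h4
  obtain ⟨Z', h11, h12⟩ := nb_inter h9 h7
  exact ⟨Z', h11, fun a b c ha hb hc => h3 _ _ (h6 _ _ (h10 _ (h12 _ ha).1).2 (h8 _ (h12 _ hb).2))
    (h10 _ (h12 _ hc).1).1⟩

theorem nb_haus (g : Γ.GU U) : ∃ X, Γ.Nb U 1 X ∧ (U.E g.1 X → g = 1) := by
  by_cases h : g = 1
  · exact ⟨_, ⟨(Γ.tg U).2.1.2.1, (1 : Γ.GU U).2⟩, fun _ => h⟩
  · obtain ⟨V, W, -, h2, h3, h4, h5⟩ := (Γ.tg U).2.2.1 _ _ g.2 (1 : Γ.GU U).2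
      fun e => h (Subtype.ext e)
    exact ⟨W, ⟨h2, h4⟩, fun e => (h5 _ ⟨h3, e⟩).elim⟩

end Pointwise

/-- The name of a sequence of named sections. -/
noncomputable def sq (g : ℕ → Γ.N) : Nm B := sqN fun n => nm (g n).1

theorem lim_intro (H : Ult B → Prop) [Rep H] (A : Nm B) (g : ℕ → Γ.N)
    (h : ∀ U n, H U → U.E ((g n).1 U).1 (U.cl A)) (U : Ult B) (hU : H U) (z : Γ.GU U)
    (hz : Cvg U.E (U.cl Γ.T) U.om (U.cl (sq g)) z.1) :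
    Lim U.E (U.cl Γ.G) (U.cl Γ.T) U.om (U.cl A) z.1 :=
  ⟨z.2, _, fn_sqN U _ fun x y hxy => sq_elim _ (fun U _ y => H U → U.E y (U.cl A))
    (fun V n hV => nm_eq (g n).1 V ▸ h V n hV) U x y hxy hU, hz⟩

theorem lim_elim (A : Nm B) (z : Γ.N) : ∃ g : ℕ → Γ.N, ∀ U : Ult B,
    Sub U.E (U.cl A) (U.cl Γ.G) → Lim U.E (U.cl Γ.G) (U.cl Γ.T) U.om (U.cl A) (z.1 U).1 →
    (∀ n, U.E ((g n).1 U).1 (U.cl A)) ∧ Cvg U.E (U.cl Γ.T) U.om (U.cl (sq g)) (z.1 U).1 := by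
  simp only [nm_eq z.1]
  obtain ⟨s, hs⟩ := exists_witness fun U s => Fn U.E U.om (fun _ y => U.E y (U.cl A)) s ∧
    Cvg U.E (U.cl Γ.T) U.om s (U.cl (nm z.1))
  obtain ⟨q, hq⟩ := exists_sqN s
  choose g hg using fun n => exists_fix (Γ := Γ) (q n)
  have key : ∀ U : Ult B, Lim U.E (U.cl Γ.G) (U.cl Γ.T) U.om (U.cl A) (U.cl (nm z.1)) →
      (∀ n, U.E (U.cl (q n)) (U.cl A)) ∧
        Cvg U.E (U.cl Γ.T) U.om (U.cl (sqN q)) (U.cl (nm z.1)) := by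
    intro U h
    obtain ⟨h1, h2⟩ := hs U h.2
    have e := hq U _ h1
    rw [e] at h1 h2
    exact ⟨fun n => h1.2.2 _ _ ((ap_sqN U q n _).2 rfl), h2⟩
  refine ⟨g, fun U h1 h2 => ⟨fun n => ?_, fun V a b => ?_⟩⟩
  · rw [hg n U (h1 _ ((key U h2).1 n))]
    exact (key U h2).1 n
  · obtain ⟨n, h3, h4⟩ := (key U h2).2 V a b
    refine ⟨n, h3, fun k y h5 h6 h7 => h4 k y h5 h6 ?_⟩
    refine sq_elim _ (fun U k y => Sub U.E (U.cl A) (U.cl Γ.G) →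
      Lim U.E (U.cl Γ.G) (U.cl Γ.T) U.om (U.cl A) (U.cl (nm z.1)) →
      Ap U.E (U.cl (sqN q)) k y) (fun W i a b => ?_) U k y h7 h1 h2
    rw [ap_sqN, ← nm_eq, hg i W (a _ ((key W b).1 i))]

end TGN

end Pool.Agent.MP_e30343_lc.SO
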