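import Pool.Agent.Lib.Forcing.Func
import Pool.Agent.MP_e30343_lc.SO.Base

-- part MP_e30343_lc.SO.IAlg
section

/-!
Measurable predicates modulo a countably complete filter with essential suprema form a complete
Boolean algebra; transfer between forcing statements and eventual statements; names for reals.
-/

open Filter Set Pool.Agent.Lib.Forcing

namespace Pool.Agent.MP_e30343_lc.SO

variable {Ω : Type} [MeasurableSpace Ω]

/-- Equality modulo `l` of measurable predicates. -/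
def iSetoid (l : Filter Ω) : Setoid {P : Ω → Prop // Measurable P} where
  r s t := ∀ᶠ w in l, (s.1 w ↔ t.1 w)
  iseqv := ⟨fun _ => .of_forall fun _ => Iff.rfl, fun h => h.mono fun _ h => h.symm,
    fun h1 h2 => (h1.and h2).mono fun _ h => h.1.trans h.2⟩

/-- The quotient algebra. -/
def IAlg (l : Filter Ω) : Type := Quotient (iSetoid l)

namespace IAlg

variable {l : Filter Ω}

/-- The class of a measurable predicate. -/
def mk (s : Ω → Prop) (hs : Measurable s) : IAlg l := Quotient.mk (iSetoid l) ⟨s, hs⟩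

theorem ind {p : IAlg l → Prop} (h : ∀ s hs, p (mk s hs)) (a : IAlg l) : p a :=
  Quotient.ind (fun s => h s.1 s.2) a

instance : LE (IAlg l) := ⟨Quotient.lift₂ (fun s t => ∀ᶠ w in l, s.1 w → t.1 w) (by
  intro s t s' t' h1 h2
  refine propext ⟨fun h => ?_, fun h => ?_⟩ <;>
  · filter_upwards [h, h1, h2] with w a b c
    tauto)⟩

instance : Max (IAlg l) := ⟨Quotient.map₂ (fun s t => ⟨fun w => s.1 w ∨ t.1 w, s.2.or t.2⟩) (by
  intro s t h1 s' t' h2
  filter_upwards [h1, h2] with w a b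
  simp only [a, b])⟩

instance : Min (IAlg l) := ⟨Quotient.map₂ (fun s t => ⟨fun w => s.1 w ∧ t.1 w, s.2.and t.2⟩) (by
  intro s t h1 s' t' h2
  filter_upwards [h1, h2] with w a b
  simp only [a, b])⟩

instance : Compl (IAlg l) := ⟨Quotient.map (fun s => ⟨fun w => ¬ s.1 w, s.2.not⟩) (by
  intro s t h1
  filter_upwards [h1] with w a
  simp only [a])⟩

instance : BooleanAlgebra (IAlg l) where
  le_refl := ind fun _ _ => Eventually.of_forall fun _ => id
  le_trans := ind fun _ _ => ind fun _ _ => ind fun _ _ h1 h2 =>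
    (Eventually.and h1 h2).mono fun _ h x => h.2 (h.1 x)
  le_antisymm := ind fun _ _ => ind fun _ _ h1 h2 =>
    Quotient.sound ((Eventually.and h1 h2).mono fun _ h => ⟨h.1, h.2⟩)
  sup := max
  inf := min
  le_sup_left := ind fun _ _ => ind fun _ _ => Eventually.of_forall fun _ => Or.inl
  le_sup_right := ind fun _ _ => ind fun _ _ => Eventually.of_forall fun _ => Or.inr
  sup_le := ind fun _ _ => ind fun _ _ => ind fun _ _ h1 h2 =>
    (Eventually.and h1 h2).mono fun _ h x => x.elim h.1 h.2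
  inf_le_left := ind fun _ _ => ind fun _ _ => Eventually.of_forall fun _ => And.left
  inf_le_right := ind fun _ _ => ind fun _ _ => Eventually.of_forall fun _ => And.right
  le_inf := ind fun _ _ => ind fun _ _ => ind fun _ _ h1 h2 =>
    (Eventually.and h1 h2).mono fun _ h x => ⟨h.1 x, h.2 x⟩
  le_sup_inf := ind fun _ _ => ind fun _ _ => ind fun _ _ => Eventually.of_forall fun _ h => by
    dsimp only at h ⊢
    tauto
  top := mk (fun _ => True) measurable_const
  bot := mk (fun _ => False) measurable_const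
  inf_compl_le_bot := ind fun _ _ => Eventually.of_forall fun _ h => h.2 h.1
  top_le_sup_compl := ind fun _ _ => Eventually.of_forall fun _ _ => em _
  le_top := ind fun _ _ => Eventually.of_forall fun _ _ => trivial
  bot_le := ind fun _ _ => Eventually.of_forall fun _ h => h.elim

variable [CountableInterFilter l]

theorem isLUB_ex {ι : Type} [Countable ι] (s : ι → Ω → Prop) (hs : ∀ i, Measurable (s i)) :
    IsLUB (range fun i => (mk (s i) (hs i) : IAlg l)) (mk (fun w => ∃ i, s i w) (.exists hs)) := by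
  constructor
  · rintro _ ⟨i, rfl⟩
    exact Eventually.of_forall fun w h => ⟨i, h⟩
  · refine ind fun t ht h => ?_
    have : ∀ i, ∀ᶠ w in l, s i w → t w := fun i => h ⟨i, rfl⟩
    filter_upwards [eventually_countable_forall.2 this] with w hw ⟨i, hi⟩ using hw i hi

theorem exists_isLUB [CCC l] (S : Set (IAlg l)) : ∃ a, IsLUB S a := by
  obtain ⟨C, h1, h2, h3⟩ := CCC.sup (l := l) {s | ∃ hs, mk s hs ∈ S} fun _ h => h.1
  have := h2.to_subtype
  have hm : Measurable fun w => ∃ Q : C, Q.1 w := .exists fun Q => (h1 Q.2).1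
  refine ⟨mk _ hm, ind fun s hs h => ?_, ind fun t ht h => ?_⟩
  · exact (h3 s ⟨hs, h⟩).mono fun w hw a => (hw a).elim fun Q hQ => ⟨⟨Q, hQ.1⟩, hQ.2⟩
  · have : ∀ Q : C, ∀ᶠ w in l, Q.1 w → t w := fun Q => h (h1 Q.2).2
    filter_upwards [eventually_countable_forall.2 this] with w hw ⟨i, hi⟩ using hw i hi

noncomputable instance [CCC l] : SupSet (IAlg l) := ⟨fun S => (exists_isLUB S).choose⟩

noncomputable instance [CCC l] : CompleteBooleanAlgebra (IAlg l) where
  __ := (inferInstance : BooleanAlgebra (IAlg l))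
  __ := completeLatticeOfSup (IAlg l) fun S => (exists_isLUB S).choose_spec

end IAlg

variable {l : Filter Ω}

open Classical in
/-- The Boolean value of a measurable predicate. -/
noncomputable def cls (Q : Ω → Prop) : IAlg l := if h : Measurable Q then IAlg.mk _ h else ⊥

theorem cls_eq {Q : Ω → Prop} (h : Measurable Q) : (cls Q : IAlg l) = IAlg.mk _ h := dif_pos h

theorem exists_cls (c : IAlg l) : ∃ Q : Ω → Prop, Measurable Q ∧ c = cls Q :=
  IAlg.ind (p := fun c => ∃ Q : Ω → Prop, Measurable Q ∧ c = cls Q)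
    (fun s hs => ⟨s, hs, (cls_eq hs).symm⟩) c

theorem cls_le {Q R : Ω → Prop} (hQ : Measurable Q) (hR : Measurable R) :
    (cls Q : IAlg l) ≤ cls R ↔ ∀ᶠ w in l, Q w → R w := by
  rw [cls_eq hQ, cls_eq hR]
  exact Iff.rfl

theorem cls_mono {Q R : Ω → Prop} (hQ : Measurable Q) (hR : Measurable R)
    (h : ∀ᶠ w in l, Q w → R w) : (cls Q : IAlg l) ≤ cls R := (cls_le hQ hR).2 h

variable [CountableInterFilter l] [CCC l]

/-- A positive measurable predicate lies in some ultrafilter. -/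
theorem exists_ult {Q : Ω → Prop} (hQ : Measurable Q) (h : ∃ᶠ w in l, Q w) :
    ∃ U : Ult (IAlg l), U.P (cls Q) := by
  refine Ult.exists_mem fun e => h ?_
  have : (cls Q : IAlg l) ≤ ⊥ := e.le
  rw [cls_eq hQ] at this
  exact this

theorem freq_of_ult {Q : Ω → Prop} (hQ : Measurable Q) {U : Ult (IAlg l)} (hU : U.P (cls Q)) :
    ∃ᶠ w in l, Q w := fun h => by
  refine U.bot (U.mono ?_ hU)
  rw [cls_eq hQ]
  exact h

/-- Transfer: the Boolean value of `P` is the class of the measurable predicate `Q`. -/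
class Tr (P : Ult (IAlg l) → Prop) (Q : outParam (Ω → Prop)) : Prop where
  meas : Measurable Q
  iff : ∀ U, P U ↔ U.P (cls Q)

namespace Tr

theorem rep (P : Ult (IAlg l) → Prop) {Q : Ω → Prop} [h : Tr P Q] : Rep P :=
  ⟨_, fun U => (h.iff U).symm⟩

theorem of_rep (P : Ult (IAlg l) → Prop) [Rep P] : ∃ Q, Tr P Q := by
  obtain ⟨Q, h1, h2⟩ := exists_cls (bv P)
  exact ⟨Q, h1, fun U => by rw [← h2, bv_iff]⟩

theorem congr {P P' : Ult (IAlg l) → Prop} {Q Q' : Ω → Prop} (h : Tr P Q) (e : ∀ U, P U ↔ P' U)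
    (e' : ∀ w, Q w ↔ Q' w) : Tr P' Q' := by
  obtain rfl : P = P' := funext fun U => propext (e U)
  obtain rfl : Q = Q' := funext fun U => propext (e' U)
  exact h

theorem cls' {Q : Ω → Prop} (h : Measurable Q) :
    Tr (fun U : Ult (IAlg l) => U.P (cls Q)) Q := ⟨h, fun _ => Iff.rfl⟩

theorem imp_of_ae {P P' : Ult (IAlg l) → Prop} {Q Q' : Ω → Prop} (h : Tr P Q) (h' : Tr P' Q')
    (e : ∀ᶠ w in l, Q w → Q' w) (U : Ult (IAlg l)) (hU : P U) : P' U :=
  (h'.iff U).2 (U.mono (cls_mono h.meas h'.meas e) ((h.iff U).1 hU))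

theorem ae_of_imp {P P' : Ult (IAlg l) → Prop} {Q Q' : Ω → Prop} (h : Tr P Q) (h' : Tr P' Q')
    (e : ∀ U, P U → P' U) : ∀ᶠ w in l, Q w → Q' w :=
  (cls_le h.meas h'.meas).1 (Ult.le_of fun U hU => (h'.iff U).1 (e U ((h.iff U).2 hU)))

instance (priority := low) const (p : Prop) : Tr (fun _ : Ult (IAlg l) => p) (fun _ => p) := by
  refine ⟨measurable_const, fun U => ?_⟩
  rw [cls_eq measurable_const]
  by_cases h : p
  · simp only [h, true_iff]
    exact U.top
  · simp only [h, false_iff]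
    exact U.bot

theorem ae {P : Ult (IAlg l) → Prop} {Q : Ω → Prop} (h : Tr P Q) (e : ∀ U, P U) : ∀ᶠ w in l, Q w :=
  ((const True).ae_of_imp h fun U _ => e U).mono fun _ h => h trivial

theorem of_ae {P : Ult (IAlg l) → Prop} {Q : Ω → Prop} (h : Tr P Q) (e : ∀ᶠ w in l, Q w)
    (U : Ult (IAlg l)) : P U := (const True).imp_of_ae h (e.mono fun _ h _ => h) U trivial

theorem freq {P : Ult (IAlg l) → Prop} {Q : Ω → Prop} (h : Tr P Q) :
    (∃ᶠ w in l, Q w) ↔ ∃ U, P U :=
  ⟨fun e => (exists_ult h.meas e).imp fun U => (h.iff U).2,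
    fun ⟨U, e⟩ => freq_of_ult h.meas ((h.iff U).1 e)⟩

instance not (P : Ult (IAlg l) → Prop) (Q : Ω → Prop) [h : Tr P Q] :
    Tr (fun U => ¬ P U) (fun w => ¬ Q w) :=
  ⟨h.meas.not, fun U => by
    rw [h.iff, ← U.compl, cls_eq h.meas, cls_eq (Q := fun w => ¬ Q w) h.meas.not]; rfl⟩

instance and (P P' : Ult (IAlg l) → Prop) (Q Q' : Ω → Prop) [h : Tr P Q] [h' : Tr P' Q'] :
    Tr (fun U => P U ∧ P' U) (fun w => Q w ∧ Q' w) :=
  ⟨h.meas.and h'.meas, fun U => by
    rw [h.iff, h'.iff, ← U.inf, cls_eq h.meas, cls_eq h'.meas,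
      cls_eq (Q := fun w => Q w ∧ Q' w) (h.meas.and h'.meas)]; rfl⟩

instance imp (P P' : Ult (IAlg l) → Prop) (Q Q' : Ω → Prop) [h : Tr P Q] [h' : Tr P' Q'] :
    Tr (fun U => P U → P' U) (fun w => Q w → Q' w) :=
  (inferInstance : Tr (fun U => ¬ (P U ∧ ¬ P' U)) _).congr (fun _ => by tauto) (fun _ => by tauto)

instance or (P P' : Ult (IAlg l) → Prop) (Q Q' : Ω → Prop) [h : Tr P Q] [h' : Tr P' Q'] :
    Tr (fun U => P U ∨ P' U) (fun w => Q w ∨ Q' w) :=
  (inferInstance : Tr (fun U => ¬ P U → P' U) _).congr (fun _ => by tauto) (fun _ => by tauto)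

instance iff' (P P' : Ult (IAlg l) → Prop) (Q Q' : Ω → Prop) [h : Tr P Q] [h' : Tr P' Q'] :
    Tr (fun U => P U ↔ P' U) (fun w => Q w ↔ Q' w) :=
  (inferInstance : Tr (fun U => (P U → P' U) ∧ (P' U → P U)) _).congr (fun _ => by tauto)
    (fun _ => by tauto)

theorem iSup' {ι : Type} [Countable ι] (Q : ι → Ω → Prop) (h : ∀ i, Measurable (Q i)) :
    (cls fun w => ∃ i, Q i w : IAlg l) = ⨆ i, cls (Q i) := by
  have := (IAlg.isLUB_ex (l := l) _ h).iSup_eq
  simp only [cls_eq (h _), this, cls_eq (Measurable.exists h)]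

instance ex_om (P : ∀ U : Ult (IAlg l), U.M → Prop) [∀ x, Rep (fun U => P U (U.cl x))]
    (Q : ℕ → Ω → Prop) [h : ∀ n, Tr (fun U => P U (U.num n)) (Q n)] :
    Tr (fun U => ∃ a, U.E a U.om ∧ P U a) (fun w => ∃ n, Q n w) := by
  refine ⟨.exists fun n => (h n).meas, fun U => ?_⟩
  rw [iSup' Q fun n => (h n).meas]
  constructor
  · rintro ⟨a, ha, hP⟩
    exact om_elim (fun U a => P U a → U.P (⨆ i, cls (Q i)))
      (fun V n hP => V.mono (le_iSup _ n) (((h n).iff V).1 hP)) U a ha hP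
  · exact sup_elim _ (fun U => ∃ a, U.E a U.om ∧ P U a)
      (fun V n hV => ⟨_, V.num_mem_om n, ((h n).iff V).2 hV⟩) U

instance all_om (P : ∀ U : Ult (IAlg l), U.M → Prop) [∀ x, Rep (fun U => P U (U.cl x))]
    (Q : ℕ → Ω → Prop) [h : ∀ n, Tr (fun U => P U (U.num n)) (Q n)] :
    Tr (fun U => ∀ a, U.E a U.om → P U a) (fun w => ∀ n, Q n w) :=
  (inferInstance : Tr (fun U : Ult (IAlg l) => ¬ ∃ a, U.E a U.om ∧ ¬ P U a) _).congr
    (fun _ => by simp) (fun _ => by simp)

instance mem_num (a b : ℕ) :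
    Tr (fun U : Ult (IAlg l) => U.E (U.num a) (U.num b)) (fun _ => a < b) :=
  (const (a < b)).congr (fun U => U.num_mem_num.symm) fun _ => Iff.rfl

instance mem_om (a : ℕ) : Tr (fun U : Ult (IAlg l) => U.E (U.num a) U.om) (fun _ => True) :=
  (const True).congr (fun U => (iff_true_intro (U.num_mem_om a)).symm) fun _ => Iff.rfl

instance suc_num (a b : ℕ) :
    Tr (fun U : Ult (IAlg l) => Suc U.E (U.num a) (U.num b)) (fun _ => b = a + 1) :=
  (const _).congr (fun U => by rw [U.suc_iff, U.num_inj]) fun _ => Iff.rfl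

instance emp_num (a : ℕ) :
    Tr (fun U : Ult (IAlg l) => Emp U.E (U.num a)) (fun _ => a = 0) :=
  (const _).congr (fun U => by rw [U.emp_iff, U.num_inj]) fun _ => Iff.rfl

end Tr

/-- A countable conjunction is forced by a represented predicate that forces each part. -/
theorem cls_all {ι : Type} [Countable ι] (Q : ι → Ω → Prop) (hQ : ∀ i, Measurable (Q i))
    (P : Ult (IAlg l) → Prop) [Rep P] (h : ∀ U i, P U → U.P (cls (Q i))) (U : Ult (IAlg l))
    (hU : P U) : U.P (cls fun w => ∀ i, Q i w) := by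
  obtain ⟨R, hR⟩ := Tr.of_rep P
  refine hR.imp_of_ae (Tr.cls' (.forall hQ)) ?_ U hU
  have := fun i => hR.ae_of_imp (Tr.cls' (hQ i)) fun U => h U i
  filter_upwards [eventually_countable_forall.2 this] with w hw hR i using hw i hR

/-- Finitely many measurable predicates are decided by `U` as at the points of a set in `U`. -/
theorem cls_of_atom {ι : Type} [Finite ι] (T : ι → Ω → Prop) (hT : ∀ i, Measurable (T i))
    (U : Ult (IAlg l)) {Q : Ω → Prop} (hQ : Measurable Q)
    (h : ∀ w, (∀ i, T i w ↔ U.P (cls (T i))) → Q w) : U.P (cls Q) := by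
  classical
  have := Fintype.ofFinite ι
  have key : ∀ s : Finset ι, Measurable (fun w => ∀ i ∈ s, (T i w ↔ U.P (cls (T i)))) ∧
      U.P (cls fun w => ∀ i ∈ s, (T i w ↔ U.P (cls (T i)))) := by
    intro s
    induction s using Finset.induction_on with
    | empty => simpa using ((Tr.const (l := l) True).iff U).1 trivial
    | insert a s _ ih =>
      simp only [Finset.forall_mem_insert]
      by_cases ha : U.P (cls (T a))
      · simp only [ha, iff_true]
        have := @Tr.and _ _ l _ _ _ _ _ _ (Tr.cls' (hT a)) (Tr.cls' ih.1)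
        exact ⟨this.meas, (this.iff U).1 ⟨ha, ih.2⟩⟩
      · simp only [ha, iff_false]
        have := @Tr.and _ _ l _ _ _ _ _ _ (@Tr.not _ _ l _ _ _ _ (Tr.cls' (hT a))) (Tr.cls' ih.1)
        exact ⟨this.meas, (this.iff U).1 ⟨ha, ih.2⟩⟩
  refine U.mono (cls_mono (key Finset.univ).1 hQ (.of_forall fun w hw => h w fun i => ?_))
    (key Finset.univ).2
  exact hw i (Finset.mem_univ i)

/-- Deciding the value of a measurable map into a countable set. -/
theorem decide_elim {α : Type} [Countable α] (φ : Ω → α) (hφ : ∀ a, Measurable fun w => φ w = a)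
    (P : Ult (IAlg l) → Prop) [Rep P] (h : ∀ U a, U.P (cls fun w => φ w = a) → P U)
    (U : Ult (IAlg l)) : P U := by
  refine sup_elim _ P h U ?_
  rw [← Tr.iSup' (l := l) (fun a w => φ w = a) hφ]
  simpa using ((Tr.const (l := l) True).iff U).1 trivial

end Pool.Agent.MP_e30343_lc.SO

end

-- part MP_e30343_lc.SO.Not3Nms
section

/-! Mixing of names along measurable partitions, names of sequences, names of subsets. -/

open Filter Set Pool.Agent.Lib.Forcing

namespace Pool.Agent.MP_e30343_lc.SO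

section General

variable {B : Type} [CompleteBooleanAlgebra B]

/-- The name of the sequence `n ↦ q n`. -/
def sqN (q : ℕ → Nm B) : Nm B := grN numN q fun _ => ⊤

theorem ap_sqN (U : Ult B) (q : ℕ → Nm B) (n : ℕ) (y : U.M) :
    Ap U.E (U.cl (sqN q)) (U.num n) y ↔ y = U.cl (q n) := by
  refine ⟨fun h => ?_, fun h => h ▸ U.ap_grN numN q _ n U.top⟩
  refine ap_elim numN q _ (fun U a b => a = U.num n → b = U.cl (q n)) (fun V i _ e => ?_) U _ _ h rfl
  rw [V.num_inj.1 e]

theorem fn_sqN (U : Ult B) (q : ℕ → Nm B) {R : U.M → U.M → Prop}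
    (h : ∀ x y, Ap U.E (U.cl (sqN q)) x y → R x y) : Fn U.E U.om R (U.cl (sqN q)) :=
  ⟨grN_dom _ _ _ _ (fun V k _ => V.num_mem_om k) U,
    om_elim (fun U x => ∃! y, Ap U.E (U.cl (sqN q)) x y)
      (fun V k => ⟨_, (ap_sqN V q k _).2 rfl, fun y hy => (ap_sqN V q k y).1 hy⟩) U, h⟩

/-- A represented property of all terms holds along the sequence. -/
theorem sq_elim (q : ℕ → Nm B) (P : ∀ U : Ult B, U.M → U.M → Prop)
    [∀ x y, Rep (fun U => P U (U.cl x) (U.cl y))] (h : ∀ U n, P U (U.num n) (U.cl (q n)))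
    (U : Ult B) (a b : U.M) (hab : Ap U.E (U.cl (sqN q)) a b) : P U a b :=
  ap_elim numN q _ P (fun V i _ => h V i) U a b hab

/-- Every name of a function on `ω` is the name of a sequence of names. -/
theorem exists_sqN (s : Nm B) : ∃ q : ℕ → Nm B, ∀ (U : Ult B) (R : U.M → U.M → Prop),
    Fn U.E U.om R (U.cl s) → U.cl s = U.cl (sqN q) := by
  choose q hq using fun n => exists_witness (fun U y => Ap U.E (U.cl s) (U.num n) y)
  have key : ∀ (U : Ult B) a, U.E a U.om → Fn U.E U.om (fun _ _ => True) (U.cl s) → ∀ y,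
      (Ap U.E (U.cl s) a y ↔ Ap U.E (U.cl (sqN q)) a y) := by
    refine om_elim (fun U a => Fn U.E U.om (fun _ _ => True) (U.cl s) → ∀ y,
      (Ap U.E (U.cl s) a y ↔ Ap U.E (U.cl (sqN q)) a y)) fun V n h y => ?_
    have := hq n V (h.2.1 _ (V.num_mem_om n)).exists
    rw [ap_sqN]
    exact ⟨fun e => h.unique V.zfc e this, fun e => e ▸ this⟩
  refine ⟨q, fun U R h => ?_⟩
  have h0 : Fn U.E U.om (fun _ _ => True) (U.cl s) := h.mono fun _ _ _ _ => trivial
  have h1 := fn_sqN U q (R := fun _ _ => True) fun _ _ _ => trivial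
  exact h0.ext U.zfc h1 fun x y => ⟨fun e => (key U x (h0.dom U.zfc e) h0 y).1 e,
    fun e => (key U x (h1.dom U.zfc e) h0 y).2 e⟩

/-- Separation, with the name as the witness. -/
theorem exists_sub (x : Nm B) (Q : ∀ U : Ult B, U.M → Prop) [∀ z, Rep (fun U => Q U (U.cl z))] :
    ∃ y : Nm B, ∀ (U : Ult B) a, U.E a (U.cl y) ↔ U.E a (U.cl x) ∧ Q U a :=
  (exists_sep x Q).elim fun _ h => ⟨_, h⟩

end General

variable {Ω : Type} [MeasurableSpace Ω] {l : Filter Ω} [CountableInterFilter l] [CCC l]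

theorem exists_mix {α : Type} (φ : Ω → α) (hφ : ∀ a, Measurable fun w => φ w = a)
    (x : α → Nm (IAlg l)) :
    ∃ m : Nm (IAlg l), ∀ (U : Ult (IAlg l)) a, U.P (cls fun w => φ w = a) → U.cl m = U.cl (x a) := by
  refine ⟨Nm.mix x fun a => cls fun w => φ w = a, fun U a h => (U.cl_eq.2 (U.mono
    (Nm.le_eqv_mix x _ (fun a b hab => ?_) a) h)).symm⟩
  refine le_bot_iff.1 (Ult.le_of fun V hV => ?_)
  rw [V.inf] at hV
  exact (hab ((@Tr.and _ _ l _ _ _ _ _ _ (Tr.cls' (hφ a)) (Tr.cls' (hφ b))).imp_of_ae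
    (Tr.const (a = b)) (.of_forall fun _ h => h.1.symm.trans h.2) V hV)).elim

/-- Countable existential quantifiers over a listed name. -/
theorem Tr.ex_mem {ι : Type} [Countable ι] (x : ι → Nm (IAlg l)) (D : ι → Ω → Prop)
    (hD : ∀ i, Measurable (D i)) (P : ∀ U : Ult (IAlg l), U.M → Prop)
    [∀ x, Rep (fun U => P U (U.cl x))] (Q : ι → Ω → Prop)
    (h : ∀ i, Tr (fun U => P U (U.cl (x i))) (Q i)) :
    Tr (fun U => ∃ a, U.E a (U.cl ⟨ι, x, fun i => cls (D i)⟩) ∧ P U a)
      (fun w => ∃ i, D i w ∧ Q i w) := by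
  have t := fun i => @Tr.and _ _ l _ _ _ _ _ _ (Tr.cls' (hD i)) (h i)
  refine ⟨.exists fun i => (t i).meas, fun U => ?_⟩
  rw [Tr.iSup' _ fun i => (t i).meas]
  constructor
  · rintro ⟨a, ha, hP⟩
    exact mem_elim ⟨ι, x, fun i => cls (D i)⟩
      (fun U a => P U a → U.P (⨆ i, cls fun w => D i w ∧ Q i w))
      (fun V i hi hP => V.mono (le_iSup _ i) (((t i).iff V).1 ⟨hi, hP⟩)) U a ha hP
  · exact sup_elim _ (fun U => ∃ a, U.E a (U.cl ⟨ι, x, fun i => cls (D i)⟩) ∧ P U a)
      (fun V i hV => ⟨_, V.E_intro ⟨ι, x, fun i => cls (D i)⟩ i (((t i).iff V).2 hV).1,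
        (((t i).iff V).2 hV).2⟩) U

end Pool.Agent.MP_e30343_lc.SO

end
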