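import Pool.Agent.MP_e30343_lc.Mg.SO_Not3Nms
import Pool.Agent.MP_e30343_lc.SO.Stmt

open Pool.Agent.Lib.Forcing

namespace Pool.Agent.MP_e30343_lc.SO

variable {B : Type} [CompleteBooleanAlgebra B]

instance rep_sub (x y : Nm B) : Rep (fun U : Ult B => Sub U.E (U.cl x) (U.cl y)) := by
  unfold Sub; infer_instance

instance rep_mu (m x y z : Nm B) :
    Rep (fun U : Ult B => Mu U.E (U.cl m) (U.cl x) (U.cl y) (U.cl z)) := by
  unfold Mu; infer_instance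

instance rep_cvg (T w s x : Nm B) :
    Rep (fun U : Ult B => Cvg U.E (U.cl T) (U.cl w) (U.cl s) (U.cl x)) := by
  unfold Cvg; infer_instance

instance rep_lim (G T w A x : Nm B) :
    Rep (fun U : Ult B => Lim U.E (U.cl G) (U.cl T) (U.cl w) (U.cl A) (U.cl x)) := by
  unfold Lim; infer_instance

instance rep_cl (G T A x : Nm B) :
    Rep (fun U : Ult B => Cl U.E (U.cl G) (U.cl T) (U.cl A) (U.cl x)) := by
  unfold Cl; infer_instance

/-- `C k = [C 0]_k`. -/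
def Chain (U : Ult B) (G T : U.M) (C : ℕ → U.M) : Prop :=
  ∀ k x, U.E x (C (k + 1)) ↔ Lim U.E G T U.om (C k) x

theorem exists_chain (U : Ult B) (G T A : U.M) : ∃ C, C 0 = A ∧ Chain U G T C := by
  have : ∀ A, ∃ A', ∀ x, U.E x A' ↔ Lim U.E G T U.om A x := by
    intro A
    obtain ⟨G, rfl⟩ := U.cl_surj G
    obtain ⟨T, rfl⟩ := U.cl_surj T
    obtain ⟨A, rfl⟩ := U.cl_surj A
    obtain ⟨y, hy⟩ := exists_sub G fun U x => Lim U.E (U.cl G) (U.cl T) U.om (U.cl A) x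
    exact ⟨_, fun x => (hy U x).trans ⟨fun h => h.2, fun h => ⟨h.1, h⟩⟩⟩
  choose F hF using this
  exact ⟨fun k => F^[k] A, rfl, fun k x => by simp only [Function.iterate_succ_apply', hF]⟩

theorem suc_num' (U : Ult B) {c : U.M} {k : ℕ} (h : Suc U.E c (U.num k)) :
    ∃ j, k = j + 1 ∧ c = U.num j := by
  obtain ⟨j, -, rfl⟩ := (U.E_num k c).1 ((h c).2 (Or.inr rfl))
  exact ⟨j, U.num_inj.1 ((U.suc_iff j _).1 h), rfl⟩

theorem it_num (U : Ult B) {G T : U.M} {C : ℕ → U.M} (hC : Chain U G T C) (n : ℕ) (Y : U.M) :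
    It U.E G T U.om (C 0) (U.num n) Y ↔ Y = C n := by
  constructor
  · rintro ⟨f, a', h1, h2, h3, h4, h5, -⟩
    obtain rfl := (U.suc_iff n a').1 h1
    have key : ∀ k ≤ n, ∀ X, Ap U.E f (U.num k) X → X = C k := by
      intro k
      induction k with
      | zero => exact fun _ X hX => h4 _ X hX U.emp_empN
      | succ k ih =>
        intro hk X hX
        obtain ⟨D, hD, -⟩ := h2.2.1 (U.num k) (U.num_mem_num.2 (by omega))
        have := h5 _ _ _ _ (U.suc_num k) hD hX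
        rw [ih (by omega) D hD] at this
        exact U.ext' _ _ fun z => (this z).trans (hC k z).symm
    exact key n le_rfl Y h3
  · rintro rfl
    choose c hc using fun k => U.cl_surj (C k)
    have key : ∀ a b, Ap U.E (U.cl (grN (fun k : Fin (n + 1) => numN k) (fun k => c k)
        fun _ => ⊤)) a b ↔ ∃ k ≤ n, a = U.num k ∧ b = C k := by
      intro a b
      simp only [U.ap_grN_fin, U.top, true_and, ← hc]
      exact ⟨fun ⟨k, h⟩ => ⟨k, Nat.lt_succ_iff.1 k.2, h⟩,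
        fun ⟨k, hk, h⟩ => ⟨⟨k, Nat.lt_succ_iff.2 hk⟩, h⟩⟩
    refine ⟨_, _, U.suc_num n, ⟨grN_dom _ _ _ _ (fun V k _ => V.num_mem_num.2 k.2) U,
      fun x hx => ?_, fun _ _ _ => trivial⟩, (key _ _).2 ⟨n, le_rfl, rfl, rfl⟩,
      fun b X hX e => ?_, fun b d X X' h1 h2 h3 => ?_, fun d X hX h1 h2 => ?_⟩
    · obtain ⟨k, hk, rfl⟩ := (U.E_num _ x).1 hx
      refine ⟨_, (key _ _).2 ⟨k, by omega, rfl, rfl⟩, fun y hy => ?_⟩
      obtain ⟨j, -, e, rfl⟩ := (key _ _).1 hy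
      rw [U.num_inj.1 e]
    · obtain ⟨k, -, rfl, rfl⟩ := (key _ _).1 hX
      rw [U.num_inj.1 ((U.emp_iff _).1 e)]
    · obtain ⟨k, -, rfl, rfl⟩ := (key _ _).1 h3
      obtain ⟨j, rfl, rfl⟩ := suc_num' U h1
      obtain ⟨i, -, e, rfl⟩ := (key _ _).1 h2
      rw [← U.num_inj.1 e]
      exact hC j
    · obtain ⟨k, -, rfl, rfl⟩ := (key _ _).1 hX
      cases k with
      | zero => exact (h1 U.emp_empN).elim
      | succ k => exact (h2 ⟨_, U.suc_num k⟩).elim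

theorem cls_num (U : Ult B) (G T : U.M) (n : ℕ) : Cls U.E G T U.om (U.num n) ↔
    ∀ C, Sub U.E (C 0) G → Chain U G T C → ∀ x, U.E x (C n) ↔ Cl U.E G T (C 0) x := by
  constructor
  · intro h C h0 hC
    obtain ⟨Y, h1, h2⟩ := h _ h0
    rwa [(it_num U hC n Y).1 h1] at h2
  · intro h A h0
    obtain ⟨C, rfl, hC⟩ := exists_chain U G T A
    exact ⟨_, (it_num U hC n _).2 rfl, h C h0 hC⟩

theorem num_num (U : Ult B) (n : ℕ) : Num U.E n (U.num n) := by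
  induction n with
  | zero => exact U.emp_empN
  | succ n ih => exact ⟨_, ih, U.suc_num n⟩

theorem od_num (U : Ult B) (n : ℕ) : Od U.E (U.num n) := by
  refine ⟨fun x y hx hy => ?_, fun x y hx hy => ?_⟩
  · obtain ⟨k, hk, rfl⟩ := (U.E_num n x).1 hx
    obtain ⟨j, hj, rfl⟩ := (U.E_num k y).1 hy
    exact U.num_mem_num.2 (hj.trans hk)
  · obtain ⟨k, -, rfl⟩ := (U.E_num n x).1 hx
    obtain ⟨j, -, rfl⟩ := (U.E_num n y).1 hy
    simpa using lt_trichotomy k j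

theorem mid_num (U : Ult B) {n : ℕ} (h : 2 ≤ n) : Mid U.E U.om (U.num n) := by
  refine ⟨od_num U n, ⟨_, num_num U 1, U.num_mem_num.2 h⟩, U.cl (seqN fun k : Fin n => k),
    fun x hx => ?_, fun x x' y y' h1 h2 => ?_⟩
  · obtain ⟨k, hk, rfl⟩ := (U.E_num n x).1 hx
    exact ⟨_, U.num_mem_om k, (U.ap_seqN _ _ _).2 ⟨⟨k, hk⟩, rfl, rfl⟩⟩
  · obtain ⟨k, rfl, rfl⟩ := (U.ap_seqN _ _ _).1 h1
    obtain ⟨j, rfl, rfl⟩ := (U.ap_seqN _ _ _).1 h2
    rfl

end Pool.Agent.MP_e30343_lc.SO
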