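import Pool.Agent.MP_e30343_lc.Mg.SO_Not3G
import Pool.Agent.MP_e30343_lc.SO.BG
import Pool.Agent.MP_e30343_lc.Mg.SO_In2B
import Pool.Agent.MP_e30343_lc.Mg.SO_Mor
import Pool.Agent.MP_e30343_lc.Mg.SO_Real

-- part MP_e30343_lc.SO.Not3
section

/-! From a group of order 3 in the Boolean valued model to the outside structure. -/

open Filter Set Pool.Agent.Lib.Forcing

namespace Pool.Agent.MP_e30343_lc.SO

variable {Ω : Type} [MeasurableSpace Ω] {l : Filter Ω} [CountableInterFilter l] [CCC l]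

/-- convergence of a sequence of elements on the set `R` -/
def CvR {El Op : Type 1} (l : Filter Ω) (mem : El → Op → Ω → Prop) (s : ℕ → El) (g : El)
    (R : Ω → Prop) : Prop :=
  ∀ U, ∀ᶠ x in l, R x → mem g U x → ∀ᶠ m in atTop, mem (s m) U x

theorem exists_sel (P : ℕ → Ω → Prop) (hP : ∀ n, Measurable (P n)) :
    ∃ f : Ω → ℕ, Measurable f ∧ ∀ x, (∃ n, P n x) → P (f x) x := by
  classical
  have hp : ∀ x, ∃ n, (∃ m, P m x) → P n x := fun x => by
    by_cases h : ∃ m, P m x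
    · exact h.imp fun _ h _ => h
    · exact ⟨0, fun h' => (h h').elim⟩
  exact ⟨fun x => Nat.find (hp x), measurable_find hp fun k =>
    measurableSet_setOfPred.2 ((Measurable.exists hP).imp (hP k)), fun x => Nat.find_spec (hp x)⟩

namespace TGN

variable {Γ : TGN (IAlg l)}

/-- The value of `g = 1`. -/
noncomputable def nul (g : Γ.N) : Ω → Prop := (Tr.of_rep fun U => g.1 U = 1).choose

/-- The value of `g ∈ V`. -/
noncomputable def mm (g : Γ.N) (V : Nm (IAlg l)) : Ω → Prop :=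
  (Tr.of_rep fun U => U.E (g.1 U).1 (U.cl V)).choose

theorem tn (g : Γ.N) : Tr (fun U => g.1 U = 1) (nul g) := (Tr.of_rep _).choose_spec

theorem tm (g : Γ.N) (V : Nm (IAlg l)) : Tr (fun U => U.E (g.1 U).1 (U.cl V)) (mm g V) :=
  (Tr.of_rep _).choose_spec

theorem te (g h : Γ.N) : Tr (fun U => g.1 U = h.1 U) (nul (g * h⁻¹)) :=
  (tn _).congr (fun _ => mul_inv_eq_one) fun _ => Iff.rfl

theorem tev (g : ℕ → Γ.N) (V : Nm (IAlg l)) :
    Tr (fun U => ∃ n, U.E n U.om ∧ ∀ k y, U.E k U.om → U.E n k → Ap U.E (U.cl (sq g)) k y →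
      U.E y (U.cl V)) (fun x => ∀ᶠ m in atTop, mm (g m) V x) := by
  have : ∀ k, Tr (fun U => ∀ y, Ap U.E (U.cl (sq g)) (U.num k) y → U.E y (U.cl V))
      (mm (g k) V) := fun k => (tm (g k) V).congr
    (fun U => by simp only [sq, ap_sqN, ← nm_eq, forall_eq]) fun _ => Iff.rfl
  refine (inferInstance : Tr (fun U => ∃ n, U.E n U.om ∧ ∀ k, U.E k U.om → U.E n k →
    ∀ y, Ap U.E (U.cl (sq g)) k y → U.E y (U.cl V)) _).congr (fun U => exists_congr fun n =>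
      and_congr_right fun _ => forall_congr' fun k => ⟨fun h y a b => h a b y,
        fun h a b y => h y a b⟩) fun x => ?_
  rw [eventually_atTop]
  exact ⟨fun ⟨n, h⟩ => ⟨n + 1, h⟩, fun ⟨n, h⟩ => ⟨n, fun k hk => h k hk.le⟩⟩

theorem cv_iff (g : ℕ → Γ.N) (z : Γ.N) {R : Ω → Prop} (hR : Measurable R) :
    CvR l (fun a (V : Γ.O) => mm a V.1) g z R ↔ ∀ U : Ult (IAlg l), U.P (cls R) →
      Cvg U.E (U.cl Γ.T) U.om (U.cl (sq g)) (z.1 U).1 := by
  have t := fun V => @Tr.imp _ _ l _ _ _ _ _ _ (tm z V) (tev g V)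
  refine ⟨fun h U hU W h1 h2 => ?_, fun h V => (Tr.cls' hR).ae_of_imp (t V.1) fun U hU =>
    h U hU _ (V.2 U)⟩
  obtain ⟨W, rfl⟩ := U.cl_surj W
  obtain ⟨V, hV⟩ := exists_O (Γ := Γ) fun U X => X = U.cl W
  have := (Tr.cls' hR).imp_of_ae (t V.1) (h V) U hU
  rw [hV U ⟨_, h1, rfl⟩] at this
  exact this h2

theorem tex {ι : Type} [Countable ι] (q : ι → Γ.N) (D : ι → Ω → Prop) (hD : ∀ i, Measurable (D i))
    (g : Γ.N) : Tr (fun U => U.E (g.1 U).1 (U.cl ⟨ι, fun i => nm (q i).1, fun i => cls (D i)⟩))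
      (fun x => ∃ i, D i x ∧ nul (g * (q i)⁻¹) x) :=
  (Tr.ex_mem (fun i => nm (q i).1) D hD (fun U a => a = (g.1 U).1) _ fun i =>
    (te g (q i)).congr (fun U => by rw [← nm_eq, eq_comm]; exact Subtype.ext_iff)
      fun _ => Iff.rfl).congr (fun U => by simp) fun _ => Iff.rfl

theorem sub_list {ι : Type} (q : ι → Γ.N) (v : ι → IAlg l) (U : Ult (IAlg l)) :
    Sub U.E (U.cl ⟨ι, fun i => nm (q i).1, v⟩) (U.cl Γ.G) :=
  mem_elim ⟨ι, fun i => nm (q i).1, v⟩ (fun U a => U.E a (U.cl Γ.G))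
    (fun V i _ => nm_eq (q i).1 V ▸ ((q i).1 V).2) U

theorem exists_chainN (A : Nm (IAlg l)) : ∃ C : ℕ → Nm (IAlg l), C 0 = A ∧
    ∀ U : Ult (IAlg l), Chain U (U.cl Γ.G) (U.cl Γ.T) fun k => U.cl (C k) := by
  have : ∀ A, ∃ A', ∀ (U : Ult (IAlg l)) x,
      U.E x (U.cl A') ↔ Lim U.E (U.cl Γ.G) (U.cl Γ.T) U.om (U.cl A) x := by
    intro A
    obtain ⟨y, hy⟩ := exists_sub Γ.G fun U x => Lim U.E (U.cl Γ.G) (U.cl Γ.T) U.om (U.cl A) x
    exact ⟨_, fun U x => (hy U x).trans ⟨fun h => h.2, fun h => ⟨h.1, h⟩⟩⟩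
  choose F hF using this
  exact ⟨fun k => F^[k] A, rfl, fun U k x => by simp only [Function.iterate_succ_apply', hF]⟩

/-- Points of `[A]_3` are roots of trees of height 3. -/
theorem tree {C : ℕ → Nm (IAlg l)}
    (hC : ∀ U : Ult (IAlg l), Chain U (U.cl Γ.G) (U.cl Γ.T) fun k => U.cl (C k))
    (h0 : ∀ U : Ult (IAlg l), Sub U.E (U.cl (C 0)) (U.cl Γ.G)) (g : Γ.N) {R : Ω → Prop}
    (hR : Measurable R) (h : ∀ U : Ult (IAlg l), U.P (cls R) → U.E (g.1 U).1 (U.cl (C 3))) :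
    ∃ (a : ℕ → ℕ → ℕ → Γ.N) (b : ℕ → ℕ → Γ.N) (c : ℕ → Γ.N),
      CvR l (fun a (V : Γ.O) => mm a V.1) c g R ∧
      (∀ i, CvR l (fun a (V : Γ.O) => mm a V.1) (b i) (c i) R) ∧
      (∀ i j, CvR l (fun a (V : Γ.O) => mm a V.1) (a i j) (b i j) R) ∧
      ∀ i j m (U : Ult (IAlg l)), U.P (cls R) → U.E ((a i j m).1 U).1 (U.cl (C 0)) := by
  have key : ∀ k (g : Γ.N), ∃ c : ℕ → Γ.N,
      (∀ U : Ult (IAlg l), U.P (cls R) → U.E (g.1 U).1 (U.cl (C (k + 1)))) →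
      CvR l (fun a (V : Γ.O) => mm a V.1) c g R ∧
        ∀ i (U : Ult (IAlg l)), U.P (cls R) → U.E ((c i).1 U).1 (U.cl (C k)) := by
    intro k g
    obtain ⟨c, hc⟩ := lim_elim (C k) g
    refine ⟨c, fun h => ?_⟩
    have := fun U hU => hc U (by
      cases k with
      | zero => exact h0 U
      | succ k => exact fun x hx => ((hC U k x).1 hx).1) ((hC U k _).1 (h U hU))
    exact ⟨(cv_iff c g hR).2 fun U hU => (this U hU).2, fun i U hU => (this U hU).1 i⟩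
  choose F hF using key
  have h2 := hF 2 g h
  have h1 := fun i => hF 1 _ (h2.2 i)
  have h0 := fun i j => hF 0 _ ((h1 i).2 j)
  exact ⟨_, _, _, h2.1, fun i => (h1 i).1, fun i j => (h0 i j).1, fun i j => (h0 i j).2⟩

theorem mem_succ {U : Ult (IAlg l)} {C : ℕ → U.M} (hC : Chain U (U.cl Γ.G) (U.cl Γ.T) C) (k : ℕ)
    {x : U.M} (h : U.E x (C (k + 1))) : U.E x (C (k + 2)) := by
  obtain ⟨x, rfl⟩ := U.cl_surj x
  have e : ∀ a b, Ap U.E (U.cl (sqN fun _ => x)) a b → b = U.cl x :=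
    sq_elim _ (fun U _ b => b = U.cl x) (fun _ _ => rfl) U
  exact (hC _ _).2 ⟨((hC _ _).1 h).1, _, fn_sqN U (fun _ => x) fun a b hab => e a b hab ▸ h,
    fun V _ hV => ⟨_, U.num_mem_om 0, fun a b _ _ hab => e a b hab ▸ hV⟩⟩

variable (Γ) in
/-- Names of open neighbourhoods of the identity. -/
def O1 : Type 1 := {V : Γ.O // ∀ U : Ult (IAlg l), U.E (1 : Γ.GU U).1 (U.cl V.1)}

theorem exists_O1 (H : Ult (IAlg l) → Prop) [Rep H] (Q : ∀ U : Ult (IAlg l), U.M → Prop)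
    [∀ x, Rep (fun U => Q U (U.cl x))] (h : ∀ U, H U → ∃ W, Γ.Nb U 1 W ∧ Q U W) :
    ∃ V : Γ.O1, ∀ U, H U → Q U (U.cl V.1.1) := by
  obtain ⟨V, hV⟩ := exists_O (Γ := Γ) fun U X => U.E (1 : Γ.GU U).1 X ∧ (H U → Q U X)
  have := fun U => hV U (by
    by_cases e : H U
    · exact (h U e).imp fun W hW => ⟨hW.1.1, hW.1.2, fun _ => hW.2⟩
    · exact ⟨_, (Γ.tg U).2.1.2.1, (1 : Γ.GU U).2, fun e' => (e e').elim⟩)
  exact ⟨⟨V, fun U => (this U).1⟩, fun U => (this U).2⟩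

theorem nl_iff {ι : Type} [Countable ι] {s : ℕ → Γ.N} {z : Γ.N} {q : ι → Γ.N} {y : Ω → ℕ → ι}
    {R : Ω → Prop} (h : ∀ᶠ x in l, R x → ∀ k, nul (s k * (q (y x k))⁻¹) x) :
    CvR l (fun a (V : Γ.O) => mm a V.1) s z R ↔
      NlR l (fun a (V : Γ.O1) => mm a V.1.1) R fun x k => z⁻¹ * q (y x k) := by
  refine ⟨fun H V => ?_, fun H W => ?_⟩
  · obtain ⟨X, hX⟩ := exists_opn (Γ := Γ) (fun U a => U.E ((z.1 U)⁻¹ * a * 1).1 (U.cl V.1.1))
      fun U a ha => nb_trans _ _ ⟨V.1.2 U, ha⟩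
    have h1 := (tm z X.1).ae fun U => (hX U _).2 (by simpa only [inv_mul_cancel, mul_one] using V.2 U)
    have h2 := fun p : ℕ × ι => (te (s p.1) (q p.2)).ae_of_imp (@Tr.imp _ _ l _ _ _ _ _ _
      (tm (s p.1) X.1) (tm (z⁻¹ * q p.2) V.1.1)) fun U a b => by
        have := (hX U _).1 b
        rw [mul_one, a] at this
        exact this
    filter_upwards [H X, h, h1, eventually_countable_forall.2 h2] with x a b c d hx
    exact (a hx c).mono fun k hk => d (k, y x k) (b hx k) hk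
  · obtain ⟨V, hV⟩ := exists_O1 (Γ := Γ) (fun U => U.E (z.1 U).1 (U.cl W.1))
      (fun U X => ∀ a : Γ.GU U, U.E a.1 X → U.E (z.1 U * a * 1).1 (U.cl W.1))
      fun U hU => nb_trans _ _ ⟨W.2 U, by simpa only [mul_one] using hU⟩
    have h2 := fun p : ℕ × ι => (te (s p.1) (q p.2)).ae_of_imp (@Tr.imp _ _ l _ _ _ _ _ _
      (tm z W.1) (@Tr.imp _ _ l _ _ _ _ _ _ (tm (z⁻¹ * q p.2) V.1.1) (tm (s p.1) W.1)))
      fun U a b c => by
        have := hV U b ((z.1 U)⁻¹ * (q p.2).1 U) c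
        rwa [mul_one, mul_inv_cancel_left, ← a] at this
    filter_upwards [H V, h, eventually_countable_forall.2 h2] with x a b d hx c
    exact (a hx).mono fun k hk => d (k, y x k) (b hx k) c hk

theorem nl_iff' {s : ℕ → Γ.N} {z : Γ.N} {R : Ω → Prop} :
    CvR l (fun a (V : Γ.O) => mm a V.1) s z R ↔
      NlR l (fun a (V : Γ.O1) => mm a V.1.1) R fun _ k => z⁻¹ * s k :=
  nl_iff (q := s) (y := fun _ k => k) ((eventually_countable_forall.2 fun k =>
    (te (s k) (s k)).ae fun _ => rfl).mono fun _ h _ => h)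

theorem mix_el {ι : Type} [Countable ι] (φ : Ω → ι) (hm : ∀ n, Measurable fun x => φ x = n)
    (s : ι → Γ.N) : ∃ g : Γ.N, ∀ n (U : Ult (IAlg l)), U.P (cls fun x => φ x = n) →
      g.1 U = (s n).1 U := by
  obtain ⟨X, hX⟩ := exists_mix φ hm fun n => nm (s n).1
  obtain ⟨g, hg⟩ := exists_fix (Γ := Γ) X
  refine ⟨g, fun n U h => Subtype.ext ?_⟩
  have e := (hX U n h).trans (nm_eq (s n).1 U).symm
  rw [hg U (e ▸ ((s n).1 U).2), e]

theorem o3b (h3 : ∀ U : Ult (IAlg l), Cls U.E (U.cl Γ.G) (U.cl Γ.T) U.om (U.num 3))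
    (h2 : ∀ U : Ult (IAlg l), ¬ Cls U.E (U.cl Γ.G) (U.cl Γ.T) U.om (U.num 2)) :
    ∃ (C : ℕ → Nm (IAlg l)) (g : Γ.N),
      (∀ U : Ult (IAlg l), Chain U (U.cl Γ.G) (U.cl Γ.T) fun k => U.cl (C k)) ∧
      (∀ U : Ult (IAlg l), Sub U.E (U.cl (C 0)) (U.cl Γ.G)) ∧
      ∀ U : Ult (IAlg l), U.E (g.1 U).1 (U.cl (C 3)) ∧ ¬ U.E (g.1 U).1 (U.cl (C 2)) := by
  obtain ⟨A, hA⟩ := exists_witness fun U A => Sub U.E A (U.cl Γ.G) ∧ ∃ x,
    Cl U.E (U.cl Γ.G) (U.cl Γ.T) A x ∧ ∀ A', (∀ y, U.E y A' ↔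
      Lim U.E (U.cl Γ.G) (U.cl Γ.T) U.om A y) → ¬ Lim U.E (U.cl Γ.G) (U.cl Γ.T) U.om A' x
  replace hA := fun U : Ult (IAlg l) => hA U (by
    have := mt (cls_num U _ _ 2).2 (h2 U)
    push Not at this
    obtain ⟨C, a, b, x, hx⟩ := this
    have e := (cls_num U _ _ 3).1 (h3 U) C a b x
    rcases hx with hx | hx
    · exact (hx.2 (e.1 (mem_succ b 1 hx.1))).elim
    · refine ⟨_, a, x, hx.2, fun A' h1 h2 => hx.1 ((b 1 x).2 ?_)⟩
      rwa [← U.ext' _ _ fun y => (h1 y).trans (b 0 y).symm])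
  obtain ⟨C, rfl, hC⟩ := exists_chainN (Γ := Γ) A
  obtain ⟨g, hg⟩ := exists_G (Γ := Γ) fun U x => U.E x.1 (U.cl (C 3)) ∧ ¬ U.E x.1 (U.cl (C 2))
  refine ⟨C, g, hC, fun U => (hA U).1, fun U => hg U ?_⟩
  obtain ⟨a, x, h1, h2⟩ := hA U
  exact ⟨⟨x, h1.1⟩, ((cls_num U _ _ 3).1 (h3 U) _ a (hC U) x).2 h1,
    fun h => h2 _ (hC U 0) ((hC U 1 x).1 h)⟩

/-- The outside structure. -/
theorem bg (h3 : ∀ U : Ult (IAlg l), Cls U.E (U.cl Γ.G) (U.cl Γ.T) U.om (U.num 3))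
    (h2 : ∀ U : Ult (IAlg l), ¬ Cls U.E (U.cl Γ.G) (U.cl Γ.T) U.om (U.num 2)) :
    Nonempty (BG.{1} l) := by
  obtain ⟨C, g, hC, h0, hg⟩ := o3b h3 h2
  obtain ⟨a, b, c, h4, h5, h6, h7⟩ := tree hC h0 g (R := fun _ => True)
    measurable_const fun U _ => (hg U).1
  exact ⟨{
  G := Γ.N
  O := Γ.O1
  nul := nul
  mem g V := mm g V.1.1
  nul_meas g := (tn g).meas
  mem_meas g V := (tm g V.1.1).meas
  U0 := ⟨⟨Γ.G, fun U => (Γ.tg U).2.1.2.1⟩, fun U => (1 : Γ.GU U).2⟩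
  nul_one := (tn 1).ae fun _ => rfl
  nul_div g h := (tn g).ae_of_imp (@Tr.imp _ _ l _ _ _ _ _ _ (tn h) (te g h)) fun U a b =>
    a.trans b.symm
  nul_conj g h := (tn g).ae_of_imp (tn _) fun U a =>
    show h.1 U * g.1 U * (h.1 U)⁻¹ = 1 by rw [a, mul_one, mul_inv_cancel]
  mem_nul g h V := (tn _).ae_of_imp (@Tr.imp _ _ l _ _ _ _ _ _ (tm g V.1.1) (tm h V.1.1))
    fun U a b => (inv_mul_eq_one.1 a : g.1 U = h.1 U) ▸ b
  mem_one V := (tm 1 V.1.1).ae V.2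
  inter V W := by
    obtain ⟨X, hX⟩ := exists_O1 (Γ := Γ) (fun _ => True)
      (fun U X => ∀ z, U.E z X → U.E z (U.cl V.1.1) ∧ U.E z (U.cl W.1.1))
      fun U _ => nb_inter ⟨V.1.2 U, V.2 U⟩ ⟨W.1.2 U, W.2 U⟩
    exact ⟨X, fun g => (tm g X.1.1).ae_of_imp
      (@Tr.and _ _ l _ _ _ _ _ _ (tm g V.1.1) (tm g W.1.1)) fun U => hX U trivial _⟩
  tri V := by
    obtain ⟨X, hX⟩ := exists_O1 (Γ := Γ) (fun _ => True) (fun U X => ∀ a b c : Γ.GU U,
      U.E a.1 X → U.E b.1 X → U.E c.1 X → U.E (a * b⁻¹ * c).1 (U.cl V.1.1))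
      fun U _ => nb_tri ⟨V.1.2 U, V.2 U⟩
    exact ⟨X, fun g h k => (tm g X.1.1).ae_of_imp (@Tr.imp _ _ l _ _ _ _ _ _ (tm h X.1.1)
      (@Tr.imp _ _ l _ _ _ _ _ _ (tm k X.1.1) (tm (g * h⁻¹ * k) V.1.1)))
      fun U => hX U trivial _ _ _⟩
  conj V g := by
    obtain ⟨X, hX⟩ := exists_O1 (Γ := Γ) (fun _ => True) (fun U X => ∀ a : Γ.GU U,
      U.E a.1 X → U.E (g.1 U * a * (g.1 U)⁻¹).1 (U.cl V.1.1))
      fun U _ => nb_trans _ _ ⟨V.1.2 U, by simpa only [mul_one, mul_inv_cancel] using V.2 U⟩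
    exact ⟨X, fun h => (tm h X.1.1).ae_of_imp (tm (g * h * g⁻¹) V.1.1) fun U => hX U trivial _⟩
  opn V g := by
    obtain ⟨X, hX⟩ := exists_O1 (Γ := Γ) (fun U => U.E (g.1 U).1 (U.cl V.1.1))
      (fun U X => ∀ a : Γ.GU U, U.E a.1 X → U.E (g.1 U * a * 1).1 (U.cl V.1.1))
      fun U hU => nb_trans _ _ ⟨V.1.2 U, by simpa only [mul_one] using hU⟩
    exact ⟨X, fun h => (tm g V.1.1).ae_of_imp (@Tr.imp _ _ l _ _ _ _ _ _ (tm h X.1.1)
      (tm (g * h) V.1.1)) fun U a b => by simpa only [Subgroup.coe_mul, Pi.mul_apply, mul_one] using hX U a _ b⟩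
  haus g := by
    obtain ⟨X, hX⟩ := exists_O1 (Γ := Γ) (fun _ => True)
      (fun U X => U.E (g.1 U).1 X → g.1 U = 1) fun U _ => nb_haus _
    exact ⟨X, (tm g X.1.1).ae_of_imp (tn g) fun U => hX U trivial⟩
  mix φ s hφ := by
    have hm : ∀ n, Measurable fun x => φ x = n := fun n =>
      measurableSet_setOfPred.1 (hφ (measurableSet_singleton n))
    obtain ⟨g, hg⟩ := mix_el φ hm s
    have := fun n => (Tr.cls' (l := l) (hm n)).ae_of_imp (tn ((s n)⁻¹ * g)) fun U h =>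
      inv_mul_eq_one.2 (hg n U h).symm
    exact ⟨g, (eventually_countable_forall.2 this).mono fun x h => h _ rfl⟩
  o3a q D R hD hR h := by
    obtain ⟨C, e, hC⟩ := exists_chainN (Γ := Γ) ⟨ℕ, fun i => nm (q i).1, fun i => cls (D · i)⟩
    have h0 : ∀ U : Ult (IAlg l), Sub U.E (U.cl (C 0)) (U.cl Γ.G) := e ▸ sub_list q _
    obtain ⟨a, b, c, h4, h5, h6, h7⟩ := tree hC h0 1 hR fun U hU => by
      refine ((cls_num U _ _ 3).1 (h3 U) _ (h0 U) (hC U) _).2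
        ⟨(1 : Γ.GU U).2, fun W h1 h2 => ?_⟩
      obtain ⟨W, rfl⟩ := U.cl_surj W
      obtain ⟨V, hV⟩ := exists_O1 (Γ := Γ) (fun U => Γ.Nb U 1 (U.cl W)) (fun U X => X = U.cl W)
        fun U h => ⟨_, h, rfl⟩
      have := (Tr.cls' hR).imp_of_ae
        (Tr.ex_mem (fun i => nm (q i).1) (fun i x => D x i) hD (fun U a => U.E a (U.cl V.1.1)) _
          fun i => (tm (q i) V.1.1).congr (fun U => by rw [nm_eq]) fun _ => Iff.rfl) (h V) U hU
      rw [hV U ⟨h1, h2⟩] at this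
      exact this.imp fun y hy => ⟨hy.2, e ▸ hy.1⟩
    choose f f1 f2 using fun i j m => exists_sel
      (fun n x => D x n ∧ nul (a i j m * (q n)⁻¹) x) fun n => (hD n).and (tn _).meas
    have h8 : ∀ᶠ x in l, ∀ i j m, R x → D x (f i j m x) ∧ nul (a i j m * (q (f i j m x))⁻¹) x := by
      simp only [eventually_countable_forall]
      exact fun i j m => ((Tr.cls' hR).ae_of_imp (tex q (fun i x => D x i) hD (a i j m))
        fun U hU => e ▸ h7 i j m U hU).mono fun x hx a => f2 i j m x (hx a)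
    exact ⟨fun x i j m => f i j m x, b, c, f1, h8.mono fun x h a i j m => (h i j m a).1,
      by simpa only [inv_one, one_mul] using nl_iff'.1 h4, fun i => nl_iff'.1 (h5 i),
      fun i j => (nl_iff (h8.mono fun x h a m => (h i j m a).2)).1 (h6 i j)⟩
  a0 t := g⁻¹ * a t.1 t.2.1 t.2.2
  b0 i j := g⁻¹ * b i j
  c0 i := g⁻¹ * c i
  c0_nl := nl_iff'.1 h4
  b0_nl i := by simpa only [mul_inv_rev, inv_inv, mul_assoc, mul_inv_cancel_left] using nl_iff'.1 (h5 i)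
  a0_nl i j := by simpa only [mul_inv_rev, inv_inv, mul_assoc, mul_inv_cancel_left] using nl_iff'.1 (h6 i j)
  no2 R y z hR hy h9 h10 := by
    have hm : ∀ p m t, Measurable fun x => y x p m = t := fun p m t =>
      measurableSet_setOfPred.1 (hy p m (measurableSet_singleton t))
    choose s hs using fun p m => mix_el (fun x => y x p m) (hm p m) fun t => a t.1 t.2.1 t.2.2
    refine (@Tr.not _ _ l _ _ _ _ (Tr.cls' hR)).ae fun U hU => (hg U).2 ((hC U 1 _).2 ?_)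
    refine lim_intro (fun U => U.P (cls R)) _ (fun p => g * z p) (fun V p hV => (hC V 0 _).2 ?_)
      U hU _ ((cv_iff _ g hR).1 (nl_iff'.2 (by simpa only [inv_mul_cancel_left] using h9)) U hU)
    refine lim_intro (fun _ => True) _ (s p) (fun W m _ => ?_) V trivial _
      ((cv_iff _ _ hR).1 ((nl_iff (q := fun t : ℕ × ℕ × ℕ => a t.1 t.2.1 t.2.2)
        (y := fun x m => y x p m) ?_).2 (by simpa only [mul_inv_rev, mul_assoc] using h10 p)) V hV)
    · exact decide_elim _ (hm p m) (fun W => W.E ((s p m).1 W).1 (W.cl (C 0)))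
        (fun W t h => hs p m t W h ▸ h7 _ _ _ W (((Tr.const True).iff W).1 trivial)) W
    · have := fun mt : ℕ × ℕ × ℕ × ℕ => (Tr.cls' (l := l) (hm p mt.1 mt.2)).ae_of_imp
        (te (s p mt.1) _) (hs p mt.1 mt.2)
      exact (eventually_countable_forall.2 this).mono fun x h _ m => h (m, _) rfl }⟩

end TGN

instance rep_idt {B : Type} [CompleteBooleanAlgebra B] (G m e : Nm B) :
    Rep (fun U : Ult B => Idt U.E (U.cl G) (U.cl m) (U.cl e)) := by
  unfold Idt; infer_instance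

set_option synthInstance.maxSize 2000 in
instance rep_tg {B : Type} [CompleteBooleanAlgebra B] (G m T : Nm B) :
    Rep (fun U : Ult B => TG U.E (U.cl G) (U.cl m) (U.cl T)) := by
  unfold TG Grp Top; infer_instance

set_option synthInstance.maxSize 2000 in
instance rep_cls {B : Type} [CompleteBooleanAlgebra B] (G T w a : Nm B) :
    Rep (fun U : Ult B => Cls U.E (U.cl G) (U.cl T) (U.cl w) (U.cl a)) := by
  unfold Cls It; infer_instance

theorem not3 (h : ∀ U : Ult (IAlg l), InS U.E U.om (U.num 3)) :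
    Nonempty (BG.{1} l) := by
  obtain ⟨G, hG⟩ := exists_witness fun U : Ult (IAlg l) => fun G => ∃ m T, TG U.E G m T ∧
    Cls U.E G T U.om (U.num 3) ∧ ¬ Cls U.E G T U.om (U.num 2)
  replace hG := fun U => hG U ((h U).2.imp fun G ⟨m, T, h1, _, h2⟩ =>
    ⟨m, T, h1, h2.2.1, h2.2.2 _ (U.num_mem_num.2 (by omega))⟩)
  obtain ⟨m, hm⟩ := exists_witness fun U : Ult (IAlg l) => fun m => ∃ T, TG U.E (U.cl G) m T ∧
    Cls U.E (U.cl G) T U.om (U.num 3) ∧ ¬ Cls U.E (U.cl G) T U.om (U.num 2)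
  obtain ⟨T, hT⟩ := exists_witness fun U : Ult (IAlg l) => fun T => TG U.E (U.cl G) (U.cl m) T ∧
    Cls U.E (U.cl G) T U.om (U.num 3) ∧ ¬ Cls U.E (U.cl G) T U.om (U.num 2)
  replace hT := fun U => hT U (hm U (hG U))
  obtain ⟨e, he⟩ := exists_witness fun U : Ult (IAlg l) => fun e => Idt U.E (U.cl G) (U.cl m) e ∧
    ∀ x, U.E x (U.cl G) → ∃ y, U.E y (U.cl G) ∧ Mu U.E (U.cl m) x y e ∧ Mu U.E (U.cl m) y x e
  replace he := fun U => he U (hT U).1.1.2.2.2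
  exact TGN.bg (Γ := ⟨G, m, e, T, fun U => (hT U).1, fun U => (he U).1,
    fun U x hx => ((he U).2 x hx).imp fun _ h => ⟨h.1, h.2.2⟩⟩) (fun U => (hT U).2.1)
    fun U => (hT U).2.2

end Pool.Agent.MP_e30343_lc.SO

end

-- part MP_e30343_lc.SO.In2A
section

/-! Subgroups of `2 ^ J` with the product topology in the Boolean valued model. -/

open Filter Set Pool.Agent.Lib.Forcing

namespace Pool.Agent.MP_e30343_lc.SO

theorem exists_ix (B : Type) [CompleteBooleanAlgebra B] (J : Type) :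
    ∃ ix : J → Nm B, ∀ (U : Ult B) a b, U.cl (ix a) = U.cl (ix b) → a = b := by
  let r : J → J → Prop := WellOrderingRel
  let ix : J → Nm B := (IsWellFounded.wf (r := r)).fix
    fun a ih => ⟨{b // r b a}, fun b => ih b.1 b.2, fun _ => ⊤⟩
  have key : ∀ (U : Ult B) a b, r a b → U.cl (ix a) ≠ U.cl (ix b) := by
    intro U a b h e
    have h1 : U.E (U.cl (ix a)) (U.cl (ix b)) := by
      have : ix b = ⟨{c // r c b}, fun c => ix c.1, fun _ => ⊤⟩ := WellFounded.fix_eq _ _ b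
      rw [this]
      exact U.E_intro ⟨{c // r c b}, fun c => ix c.1, fun _ => ⊤⟩ ⟨a, h⟩ U.top
    obtain ⟨y, h2, h3⟩ := U.found (U.cl (upN (ix a) (ix a))) ⟨_, (U.E_upN _ _ _).2 (Or.inl rfl)⟩
    rw [U.E_upN, or_self] at h2
    exact h3 _ (by rw [h2]; exact e ▸ h1) ((U.E_upN _ _ _).2 (Or.inl rfl))
  refine ⟨ix, fun U a b e => ?_⟩
  rcases trichotomous_of r a b with h | h | h
  · exact (key U a b h e).elim
  · exact h
  · exact (key U b a h e.symm).elim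

variable {Ω : Type} [MeasurableSpace Ω]

/-- A family of measurable subsets of `J` closed under symmetric difference and mixing. -/
structure SFam (Ω : Type) [MeasurableSpace Ω] (J : Type) where
  P : (J → Ω → Prop) → Prop
  meas : ∀ e, P e → ∀ j, Measurable (e j)
  zero : P fun _ _ => False
  add : ∀ e e', P e → P e' → P fun j x => ¬ (e j x ↔ e' j x)
  mix : ∀ f : Ω → ℕ, Measurable f → ∀ e : ℕ → J → Ω → Prop, (∀ n, P (e n)) →
    P fun j x => e (f x) j x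

variable (l : Filter Ω) [CountableInterFilter l] [CCC l] {J : Type}

/-- names of the coordinates -/
noncomputable def ix (j : J) : Nm (IAlg l) := (exists_ix (IAlg l) J).choose j

/-- the name of a subset of `J` -/
noncomputable def sN (e : J → Ω → Prop) : Nm (IAlg l) := ⟨J, ix l, fun j => cls (e j)⟩

variable {l}

theorem tr_sN {e : J → Ω → Prop} (j : J) (h : Measurable (e j)) :
    Tr (fun U => U.E (U.cl (ix l j)) (U.cl (sN l e))) (e j) :=
  ⟨h, fun U => ⟨fun a => mem_elim (sN l e) (fun U z => z = U.cl (ix l j) → U.P (cls (e j)))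
    (fun V i hi e' => (exists_ix (IAlg l) J).choose_spec V i j e' ▸ hi) U _ a rfl,
    U.E_intro (sN l e) j⟩⟩

theorem sN_elim (e : J → Ω → Prop) (Q : ∀ U : Ult (IAlg l), U.M → Prop)
    [∀ x, Rep (fun U => Q U (U.cl x))] (h : ∀ U (j : J), Q U (U.cl (ix l j)))
    (U : Ult (IAlg l)) (a : U.M)
    (ha : U.E a (U.cl (sN l e))) : Q U a := mem_elim (sN l e) Q (fun V j _ => h V j) U a ha

theorem sN_ext (H : Ult (IAlg l) → Prop) [Rep H] (e e' : J → Ω → Prop)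
    (h : ∀ U (j : J), H U →
      (U.E (U.cl (ix l j)) (U.cl (sN l e)) ↔ U.E (U.cl (ix l j)) (U.cl (sN l e'))))
    (U : Ult (IAlg l)) (hU : H U) : U.cl (sN l e) = U.cl (sN l e') :=
  U.ext' _ _ fun z => ⟨fun a => sN_elim e (fun U z => H U → U.E z (U.cl (sN l e)) →
      U.E z (U.cl (sN l e'))) (fun V j b => (h V j b).1) U z a hU a,
    fun a => sN_elim e' (fun U z => H U → U.E z (U.cl (sN l e')) →
      U.E z (U.cl (sN l e))) (fun V j b => (h V j b).2) U z a hU a⟩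

/-- `x` and `y` agree on the finite set `s` -/
def Ag (U : Ult (IAlg l)) (s : Finset J) (x y : U.M) : Prop :=
  ∀ j ∈ s, (U.E (U.cl (ix l j)) x ↔ U.E (U.cl (ix l j)) y)

theorem ag_iff (U : Ult (IAlg l)) (s : Finset J) (x y : U.M) : Ag U s x y ↔
    ∀ j, U.E j (U.cl ⟨s, fun i => ix l i.1, fun _ => ⊤⟩) → (U.E j x ↔ U.E j y) := by
  have : Finite (⟨s, fun i => ix l i.1, fun _ => ⊤⟩ : Nm (IAlg l)).ι := inferInstanceAs (Finite s)
  simp only [U.E_fin, U.top, true_and, Ag]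
  exact ⟨fun h _ ⟨i, e⟩ => e ▸ h i.1 i.2, fun h j hj => h _ ⟨⟨j, hj⟩, rfl⟩⟩

instance rep_ag (s : Finset J) (x y : Nm (IAlg l)) : Rep (fun U => Ag U s (U.cl x) (U.cl y)) :=
  Rep.congr fun U => (ag_iff U s _ _).symm

theorem tr_ag (s : Finset J) {e e' : J → Ω → Prop} (h : ∀ j, Measurable (e j))
    (h' : ∀ j, Measurable (e' j)) : Tr (fun U => Ag U s (U.cl (sN l e)) (U.cl (sN l e')))
      (fun x => ∀ j ∈ s, (e j x ↔ e' j x)) := by
  classical
  induction s using Finset.induction_on with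
  | empty => exact (Tr.const True).congr (by simp [Ag]) (by simp)
  | insert a s _ ih =>
    exact (@Tr.and _ _ l _ _ _ _ _ _ (@Tr.iff' _ _ l _ _ _ _ _ _ (tr_sN a (h a)) (tr_sN a (h' a)))
      ih).congr (by simp only [Ag, Finset.mem_insert, forall_eq_or_imp, implies_true]) (by simp only [Finset.mem_insert, forall_eq_or_imp, implies_true])

namespace SFam

variable (F : SFam Ω J)

/-- elements -/
abbrev El : Type := {e // F.P e}

variable (l) in
/-- the name of the group -/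
noncomputable def GN : Nm (IAlg l) := ⟨F.El, fun e => sN l e.1, fun _ => ⊤⟩

variable (l) in
/-- the name of the group law -/
noncomputable def mN : Nm (IAlg l) := grN (fun p : F.El × F.El => opN (sN l p.1.1) (sN l p.2.1))
  (fun p => sN l fun j x => ¬ (p.1.1 j x ↔ p.2.1 j x)) fun _ => ⊤

theorem mem_G (U : Ult (IAlg l)) {e : J → Ω → Prop} (h : F.P e) :
    U.E (U.cl (sN l e)) (U.cl (F.GN l)) := U.E_intro (F.GN l) ⟨e, h⟩ U.top

theorem G_elim (Q : ∀ U : Ult (IAlg l), U.M → Prop) [∀ x, Rep (fun U => Q U (U.cl x))]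
    (h : ∀ U e, F.P e → Q U (U.cl (sN l e))) (U : Ult (IAlg l)) (a : U.M)
    (ha : U.E a (U.cl (F.GN l))) : Q U a := mem_elim (F.GN l) Q (fun V e _ => h V e.1 e.2) U a ha

theorem exists_el (x : Nm (IAlg l)) : ∃ e, F.P e ∧ ∀ U : Ult (IAlg l),
    U.E (U.cl x) (U.cl (F.GN l)) → U.cl x = U.cl (sN l e) := by
  choose Q hQ using fun e : F.El => Tr.of_rep (l := l) fun U => U.cl x = U.cl (sN l e.1)
  obtain ⟨C, h1, h2, h3⟩ := CCC.sup (l := l) (range Q) (by rintro _ ⟨e, rfl⟩; exact (hQ e).meas)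
  obtain ⟨c, hc⟩ := (h2.insert (Q ⟨_, F.zero⟩)).exists_eq_range (insert_nonempty _ _)
  choose e he using fun n : ℕ => show c n ∈ range Q from
    insert_subset (mem_range_self _) h1 (hc ▸ mem_range_self n)
  obtain ⟨f, f1, f2⟩ := exists_sel (fun n => Q (e n)) fun n => (hQ _).meas
  have hP := F.mix f f1 (fun n => (e n).1) fun n => (e n).2
  have hm : ∀ n, Measurable fun w => f w = n := fun n =>
    measurableSet_setOfPred.1 (f1 (measurableSet_singleton n))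
  refine ⟨_, hP, fun U h => F.G_elim
    (fun U z => U.cl x = z → z = U.cl (sN l fun j x => (e (f x)).1 j x))
    (fun V d hd => decide_elim f hm (fun U => U.cl x = U.cl (sN l d) →
      U.cl (sN l d) = U.cl (sN l fun j x => (e (f x)).1 j x)) (fun W n hn a => ?_) V) U _ h rfl⟩
  have := (@Tr.and _ _ l _ _ _ _ _ _ (Tr.cls' (hm n)) (hQ ⟨d, hd⟩)).imp_of_ae (hQ (e n))
    ((h3 _ ⟨⟨d, hd⟩, rfl⟩).mono fun w hw b => b.1 ▸ f2 w (by
      obtain ⟨q, h4, h5⟩ := hw b.2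
      obtain ⟨k, rfl⟩ : q ∈ range c := hc ▸ mem_insert_of_mem _ h4
      exact ⟨k, (he k).symm ▸ h5⟩)) W ⟨hn, a⟩
  rw [← a, this]
  refine sN_ext (fun U => U.P (cls fun w => f w = n)) _ _ (fun U j => ?_) W hn
  exact (Tr.cls' (hm n)).imp_of_ae (@Tr.iff' _ _ l _ _ _ _ _ _ (tr_sN j (F.meas _ (e n).2 j))
    (tr_sN j (F.meas _ hP j))) (.of_forall fun w hw => by rw [hw]) U

theorem add_mem {e e' : J → Ω → Prop} (h : F.P e) (h' : F.P e') (U : Ult (IAlg l)) (z : U.M) :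
    U.E z (U.cl (sN l fun j x => ¬ (e j x ↔ e' j x))) ↔
      ¬ (U.E z (U.cl (sN l e)) ↔ U.E z (U.cl (sN l e'))) := by
  have key := fun d => sN_elim d (fun U z => U.E z (U.cl (sN l fun j x => ¬ (e j x ↔ e' j x))) ↔
      ¬ (U.E z (U.cl (sN l e)) ↔ U.E z (U.cl (sN l e')))) (fun V j =>
    (@Tr.iff' _ _ l _ _ _ _ _ _ (tr_sN j (F.meas _ (F.add _ _ h h') j)) (@Tr.not _ _ l _ _ _ _
      (@Tr.iff' _ _ l _ _ _ _ _ _ (tr_sN j (F.meas _ h j)) (tr_sN j (F.meas _ h' j))))).of_ae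
        (.of_forall fun _ => Iff.rfl) V) U z
  have h1 := key e
  have h2 := key e'
  have h3 := key fun j x => ¬ (e j x ↔ e' j x)
  tauto

theorem mu_iff (U : Ult (IAlg l)) (x y z : U.M) : Mu U.E (U.cl (F.mN l)) x y z ↔
    U.E x (U.cl (F.GN l)) ∧ U.E y (U.cl (F.GN l)) ∧ U.E z (U.cl (F.GN l)) ∧
      ∀ j, U.E j z ↔ ¬ (U.E j x ↔ U.E j y) := by
  constructor
  · rintro ⟨p, h1, h2⟩
    refine ap_elim _ _ _ (fun U p z => ∀ x y, Pr U.E x y p → U.E x (U.cl (F.GN l)) ∧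
      U.E y (U.cl (F.GN l)) ∧ U.E z (U.cl (F.GN l)) ∧ ∀ j, U.E j z ↔ ¬ (U.E j x ↔ U.E j y))
      (fun V d _ x y h => ?_) U p z h2 x y h1
    obtain ⟨rfl, rfl⟩ := pr_inj V.zfc h (V.pr_opN _ _)
    exact ⟨F.mem_G V d.1.2, F.mem_G V d.2.2, F.mem_G V (F.add _ _ d.1.2 d.2.2),
      F.add_mem d.1.2 d.2.2 V⟩
  · rintro ⟨h1, h2, -, h3⟩
    obtain ⟨x, rfl⟩ := U.cl_surj x
    obtain ⟨y, rfl⟩ := U.cl_surj y
    obtain ⟨e, he, h4⟩ := F.exists_el x
    obtain ⟨d, hd, h5⟩ := F.exists_el y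
    rw [h4 U h1, h5 U h2] at h3 ⊢
    rw [U.ext' _ _ fun j => (h3 j).trans (F.add_mem he hd U j).symm]
    exact ⟨_, U.pr_opN _ _, U.ap_grN _ _ _ ((⟨e, he⟩, ⟨d, hd⟩) : F.El × F.El) U.top⟩

theorem exists_mu (U : Ult (IAlg l)) {x y : U.M} (h1 : U.E x (U.cl (F.GN l)))
    (h2 : U.E y (U.cl (F.GN l))) : ∃ z, Mu U.E (U.cl (F.mN l)) x y z := by
  obtain ⟨x, rfl⟩ := U.cl_surj x
  obtain ⟨y, rfl⟩ := U.cl_surj y
  obtain ⟨e, he, h4⟩ := F.exists_el x
  obtain ⟨d, hd, h5⟩ := F.exists_el y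
  rw [h4 U h1, h5 U h2]
  exact ⟨_, _, U.pr_opN _ _, U.ap_grN _ _ _ ((⟨e, he⟩, ⟨d, hd⟩) : F.El × F.El) U.top⟩

theorem emp_zero (U : Ult (IAlg l)) (z : U.M) : ¬ U.E z (U.cl (sN l fun (_ : J) _ => False)) :=
  mem_elim (sN l fun (_ : J) _ => False) (fun _ _ => False)
    (fun V _ h => ((Tr.const False).iff V).2 h) U z

theorem grp (U : Ult (IAlg l)) : Grp U.E (U.cl (F.GN l)) (U.cl (F.mN l)) := by
  refine ⟨fun x y h1 h2 => existsUnique_of_exists_of_unique (F.exists_mu U h1 h2) fun a b ha hb =>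
    U.ext' _ _ fun j => (((F.mu_iff ..).1 ha).2.2.2 j).trans (((F.mu_iff ..).1 hb).2.2.2 j).symm,
    fun x y z _ _ h => ((F.mu_iff ..).1 h).2.2.1, fun x y z a b c hx _ _ h1 h2 h3 => ?_,
    _, ⟨F.mem_G U F.zero, fun x hx => ?_⟩, fun x hx => ⟨x, hx, ?_⟩⟩
  · rw [mu_iff] at h1 h2 h3 ⊢
    refine ⟨hx, h3.2.2.1, h2.2.2.1, fun j => ?_⟩
    rw [h2.2.2.2, h1.2.2.2, h3.2.2.2]
    tauto
  · simp [mu_iff, hx, F.mem_G U F.zero, emp_zero]
  · simp [mu_iff, hx, F.mem_G U F.zero, emp_zero]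

variable (l) in
/-- the name of the set of finite sets of coordinates -/
noncomputable def finN (J : Type) : Nm (IAlg l) :=
  ⟨Finset J, fun s => ⟨s, fun i => ix l i.1, fun _ => ⊤⟩, fun _ => ⊤⟩

/-- `W` is a neighbourhood of `x` -/
def Nbh (U : Ult (IAlg l)) (x W : U.M) : Prop := ∃ f, U.E f (U.cl (finN l J)) ∧
  ∀ y, U.E y (U.cl (F.GN l)) → (∀ j, U.E j f → (U.E j y ↔ U.E j x)) → U.E y W

instance rep_nbh (x W : Nm (IAlg l)) : Rep (fun U => F.Nbh U (U.cl x) (U.cl W)) := by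
  unfold Nbh; infer_instance

theorem nbh_intro {U : Ult (IAlg l)} {x W : U.M} (s : Finset J)
    (h : ∀ y, U.E y (U.cl (F.GN l)) → Ag U s y x → U.E y W) : F.Nbh U x W :=
  ⟨_, U.E_intro (finN l J) s U.top, fun y a b => h y a ((ag_iff ..).2 b)⟩

theorem nbh_elim (Q : ∀ U : Ult (IAlg l), U.M → U.M → Prop)
    [∀ x y, Rep (fun U => Q U (U.cl x) (U.cl y))]
    (h : ∀ (U : Ult (IAlg l)) (s : Finset J) x W,
      (∀ y, U.E y (U.cl (F.GN l)) → Ag U s y x → U.E y W) → Q U x W)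
    (U : Ult (IAlg l)) {x W : U.M} (hx : F.Nbh U x W) : Q U x W := by
  obtain ⟨f, h1, h2⟩ := hx
  exact mem_elim (finN l J) (fun U f => ∀ x W, (∀ y, U.E y (U.cl (F.GN l)) →
    (∀ j, U.E j f → (U.E j y ↔ U.E j x)) → U.E y W) → Q U x W)
    (fun V s _ x W a => h V s x W fun y b c => a y b ((ag_iff ..).1 c)) U f h1 x W h2

theorem exists_T : ∃ T : Nm (IAlg l), ∀ (U : Ult (IAlg l)) W, U.E W (U.cl T) ↔
    Sub U.E W (U.cl (F.GN l)) ∧ ∀ x, U.E x W → F.Nbh U x W := by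
  obtain ⟨p, hp⟩ := exists_power (F.GN l)
  obtain ⟨T, hT⟩ := exists_sub p fun U W => ∀ x, U.E x W → F.Nbh U x W
  exact ⟨T, fun U W => by rw [hT, hp]; rfl⟩

variable (l) in
/-- the name of the topology -/
noncomputable def TN : Nm (IAlg l) := (F.exists_T (l := l)).choose

theorem mem_T (U : Ult (IAlg l)) (W : U.M) : U.E W (U.cl (F.TN l)) ↔
    Sub U.E W (U.cl (F.GN l)) ∧ ∀ x, U.E x W → F.Nbh U x W := F.exists_T.choose_spec U W

theorem exists_bas (U : Ult (IAlg l)) (s : Finset J) (x : U.M) : ∃ W, U.E W (U.cl (F.TN l)) ∧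
    ∀ y, U.E y W ↔ U.E y (U.cl (F.GN l)) ∧ Ag U s y x := by
  obtain ⟨x, rfl⟩ := U.cl_surj x
  obtain ⟨W, hW⟩ := exists_sub (F.GN l) fun U y => Ag U s y (U.cl x)
  exact ⟨_, (F.mem_T U _).2 ⟨fun y a => ((hW U y).1 a).1, fun y a => F.nbh_intro s fun z b c =>
    (hW U z).2 ⟨b, fun j hj => (c j hj).trans (((hW U y).1 a).2 j hj)⟩⟩, hW U⟩

theorem top (U : Ult (IAlg l)) : Top U.E (U.cl (F.GN l)) (U.cl (F.TN l)) := by
  classical
  refine ⟨fun W h => ((F.mem_T U W).1 h).1, (F.mem_T U _).2 ⟨fun _ h => h,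
    fun x _ => F.nbh_intro ∅ fun _ h _ => h⟩, fun A A' h1 h2 => ?_, fun A h => ?_⟩
  · obtain ⟨A, rfl⟩ := U.cl_surj A
    obtain ⟨A', rfl⟩ := U.cl_surj A'
    obtain ⟨W, hW⟩ := exists_sub A fun U y => U.E y (U.cl A')
    rw [mem_T] at h1 h2
    refine ⟨_, (F.mem_T U _).2 ⟨fun y a => h1.1 y ((hW U y).1 a).1, fun y a => ?_⟩, hW U⟩
    refine F.nbh_elim (fun U x X => X = U.cl A → F.Nbh U x (U.cl A') → F.Nbh U x (U.cl W))
      (fun V s x X b e c => ?_) U (h1.2 y ((hW U y).1 a).1) rfl (h2.2 y ((hW U y).1 a).2)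
    subst e
    refine F.nbh_elim (fun U x X => X = U.cl A' → (∀ y, U.E y (U.cl (F.GN l)) → Ag U s y x →
      U.E y (U.cl A)) → F.Nbh U x (U.cl W)) (fun Z t x X c e b => ?_) V c rfl b
    subst e
    exact F.nbh_intro (s ∪ t) fun y d e => (hW Z y).2
      ⟨b y d fun j hj => e j (by simp [hj]), c y d fun j hj => e j (by simp [hj])⟩
  · obtain ⟨W, hW⟩ := U.zfc.union A
    refine ⟨W, (F.mem_T U _).2 ⟨fun y a => ?_, fun y a => ?_⟩, hW⟩ <;>
      obtain ⟨X, b, c⟩ := (hW y).1 a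
    · exact ((F.mem_T U X).1 (h X b)).1 y c
    · exact (((F.mem_T U X).1 (h X b)).2 y c).imp fun f d =>
        ⟨d.1, fun z e e' => (hW z).2 ⟨X, b, d.2 z e e'⟩⟩

set_option synthInstance.maxSize 1000 in
theorem tg (U : Ult (IAlg l)) : TG U.E (U.cl (F.GN l)) (U.cl (F.mN l)) (U.cl (F.TN l)) := by
  refine ⟨F.grp U, F.top U, fun x y h1 h2 h3 => ?_, fun x y z W h1 h2 h3 h4 h5 => ?_,
    fun e x y W h0 h1 h2 h3 h4 h5 => ?_⟩
  · obtain ⟨z, hz⟩ : ∃ z, ¬ (U.E z x ↔ U.E z y) := not_forall.1 fun h => h3 (U.ext' _ _ h)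
    have key : ∀ (U : Ult (IAlg l)) a, U.E a (U.cl (F.GN l)) → ∀ z, U.E z a → ∀ x y,
        U.E x (U.cl (F.GN l)) → U.E y (U.cl (F.GN l)) → ¬ (U.E z x ↔ U.E z y) → ∃ A A',
        U.E A (U.cl (F.TN l)) ∧ U.E A' (U.cl (F.TN l)) ∧ U.E x A ∧ U.E y A' ∧
          ∀ z, ¬ (U.E z A ∧ U.E z A') := by
      refine F.G_elim _ fun V e _ => sN_elim e (fun U z => ∀ x y,
        U.E x (U.cl (F.GN l)) → U.E y (U.cl (F.GN l)) → ¬ (U.E z x ↔ U.E z y) → ∃ A A',
        U.E A (U.cl (F.TN l)) ∧ U.E A' (U.cl (F.TN l)) ∧ U.E x A ∧ U.E y A' ∧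
          ∀ z, ¬ (U.E z A ∧ U.E z A')) (fun Z j x y a b c => ?_) V
      obtain ⟨A, d, e⟩ := F.exists_bas Z {j} x
      obtain ⟨A', d', e'⟩ := F.exists_bas Z {j} y
      exact ⟨A, A', d, d', (e x).2 ⟨a, fun _ _ => Iff.rfl⟩, (e' y).2 ⟨b, fun _ _ => Iff.rfl⟩,
        fun z h => c ((((e z).1 h.1).2 j (by simp)).symm.trans (((e' z).1 h.2).2 j (by simp)))⟩
    by_cases h : U.E z x
    · exact key U x h1 z h x y h1 h2 hz
    · exact key U y h2 z (by tauto) x y h1 h2 hz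
  · refine F.nbh_elim (fun U z W => ∀ x y, Mu U.E (U.cl (F.mN l)) x y z → ∃ A A',
      U.E A (U.cl (F.TN l)) ∧ U.E A' (U.cl (F.TN l)) ∧ U.E x A ∧ U.E y A' ∧ ∀ x' y' z',
        U.E x' A → U.E y' A' → Mu U.E (U.cl (F.mN l)) x' y' z' → U.E z' W)
      (fun V s z W a x y b => ?_) U (((F.mem_T U W).1 h4).2 z h5) x y h3
    obtain ⟨A, d, e⟩ := F.exists_bas V s x
    obtain ⟨A', d', e'⟩ := F.exists_bas V s y
    rw [mu_iff] at b
    refine ⟨A, A', d, d', (e x).2 ⟨b.1, fun _ _ => Iff.rfl⟩, (e' y).2 ⟨b.2.1, fun _ _ => Iff.rfl⟩,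
      fun x' y' z' c1 c2 c3 => ?_⟩
    rw [mu_iff] at c3
    exact a z' c3.2.2.1 fun j hj => by
      rw [c3.2.2.2, b.2.2.2, ((e _).1 c1).2 j hj, ((e' _).1 c2).2 j hj]
  · have key : ∀ x y, Mu U.E (U.cl (F.mN l)) x y e → y = x := fun x y h => U.ext' _ _ fun j => by
      have h6 := ((F.mu_iff ..).1 h).2.2.2 j
      have h7 := ((F.mu_iff ..).1 (h0.2 e h0.1).1).2.2.2 j
      tauto
    exact ⟨W, h4, key x y h3 ▸ h5, fun x' y' a _ b => key x' y' b ▸ a⟩

end SFam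

theorem zm_iff : ∀ a b : ZMod 2, (a = 1 ↔ b = 1) ↔ a = b := by decide

theorem zm_add : ∀ a b : ZMod 2, ¬ (a = 1 ↔ b = 1) ↔ a + b = 1 := by decide

theorem OG.ng {J : Type} {S : AddSubgroup (J → Ω → ZMod 2)} (h : OG l S) : Nonempty (NG l S) := by
  let F : SFam Ω J := ⟨fun e => ∃ g : S, e = fun j x => g.1 j x = 1,
    by rintro _ ⟨g, rfl⟩ j; exact h.meas g j 1, ⟨0, by ext j x; simp only [ZeroMemClass.coe_zero, Pi.zero_apply, zero_ne_one]⟩,
    by rintro _ _ ⟨g, rfl⟩ ⟨g', rfl⟩; exact ⟨g + g', by ext j x; exact zm_add _ _⟩, by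
      intro f hf e he
      choose g hg using he
      obtain ⟨k, hk⟩ := h.mix f g fun n =>
        measurableSet_setOfPred.1 (hf (measurableSet_singleton n))
      exact ⟨k, by ext j x; rw [hk, hg]⟩⟩
  let nm : S → Nm (IAlg l) := fun g => sN l fun j x => g.1 j x = 1
  have hG : ∀ (U : Ult (IAlg l)) g, U.E (U.cl (nm g)) (U.cl (F.GN l)) := fun U g => F.mem_G U ⟨g, rfl⟩
  choose nb hnb using fun (g : S) (s : Finset J) =>
    exists_sub (F.GN l) fun U y => Ag U s y (U.cl (nm g))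
  have ag : ∀ (s : Finset J) (g k : S), Tr (fun U => Ag U s (U.cl (nm g)) (U.cl (nm k)))
      fun x => ∀ j ∈ s, g.1 j x = k.1 j x := fun s g k =>
    (tr_ag s (fun j => h.meas g j 1) fun j => h.meas k j 1).congr (fun _ => Iff.rfl)
      fun _ => by simp only [zm_iff]
  refine ⟨⟨F.GN l, F.mN l, F.TN l, nm, nb, F.tg, hG, fun x => ?_, fun g k => ?_, fun U g s => ?_,
    fun g k s => (ag s k g).congr (fun U => by simp only [hnb, hG, true_and]) fun _ => Iff.rfl,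
    fun P _ W g hP U h1 h2 => ?_⟩⟩
  · obtain ⟨_, ⟨g, rfl⟩, hg⟩ := F.exists_el x
    exact ⟨g, hg⟩
  · obtain ⟨C, h1, h2⟩ := h.cdet g k
    have := h1.to_subtype
    have t : ∀ j, Tr (fun U : Ult (IAlg l) => U.E (U.cl (ix l j)) (U.cl (nm g)) ↔
        U.E (U.cl (ix l j)) (U.cl (nm k))) fun x => g.1 j x = k.1 j x := fun j =>
      (ag {j} g k).congr (by simp [Ag]) (by simp)
    have hm : Measurable fun x => ∀ j : C, g.1 j x = k.1 j x := .forall fun j => (t j).meas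
    refine Tr.congr (Q := fun x => ∀ j : C, g.1 j x = k.1 j x) ⟨hm, fun U => ⟨?_, ?_⟩⟩
      (fun _ => Iff.rfl) fun x => ⟨fun a => h2 x fun j hj => a ⟨j, hj⟩, fun a j => a j⟩
    · exact cls_all _ (fun j : C => (t j).meas) (fun U => U.cl (nm g) = U.cl (nm k))
        (fun V j e => ((t j).iff V).1 (by rw [e])) U
    · exact sN_ext (fun U => U.P (cls fun x => ∀ j : C, g.1 j x = k.1 j x)) _ _ (fun V j =>
        (Tr.cls' hm).imp_of_ae (t j) (.of_forall fun x a => h2 x (fun j hj => a ⟨j, hj⟩) j) V) U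
  · exact (F.mem_T U _).2 ⟨fun y a => ((hnb g s U y).1 a).1, fun y a => F.nbh_intro s fun z b c =>
      (hnb g s U z).2 ⟨b, fun j hj => (c j hj).trans (((hnb g s U y).1 a).2 j hj)⟩⟩
  · refine F.nbh_elim (fun U x X => x = U.cl (nm g) → X = U.cl W → P U)
      (fun V s x X a e e' => hP V s fun y b => ?_) U (((F.mem_T U _).1 h1).2 _ h2) rfl rfl
    subst e e'
    exact a y ((hnb g s V y).1 b).1 ((hnb g s V y).1 b).2

end Pool.Agent.MP_e30343_lc.SO

end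

-- part MP_e30343_lc.SO.In2
section

/-! A group of sequential order 2 in the Boolean valued model. -/

open Filter Set Pool.Agent.Lib.Forcing

namespace Pool.Agent.MP_e30343_lc.SO

section General

variable {B : Type} [CompleteBooleanAlgebra B] {U : Ult B} {G T A x : U.M}

theorem lim_cl (h : Lim U.E G T U.om A x) : Cl U.E G T A x := by
  obtain ⟨h1, s, h2, h3⟩ := h
  refine ⟨h1, fun V a b => ?_⟩
  obtain ⟨n, h4, h5⟩ := h3 V a b
  obtain ⟨k, h6, h7⟩ := U.om_om.1.2 n h4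
  obtain ⟨y, hy, -⟩ := h2.2.1 k h7
  exact ⟨y, h5 k y h7 ((h6 n).2 (Or.inr rfl)) hy, h2.2.2 k y hy⟩

theorem lim_self (h : U.E x A) (h' : U.E x G) : Lim U.E G T U.om A x := by
  obtain ⟨x, rfl⟩ := U.cl_surj x
  have e : ∀ a b, Ap U.E (U.cl (sqN fun _ => x)) a b → b = U.cl x :=
    sq_elim _ (fun U _ b => b = U.cl x) (fun _ _ => rfl) U
  exact ⟨h', _, fn_sqN U (fun _ => x) fun a b hab => e a b hab ▸ h,
    fun V _ hV => ⟨_, U.num_mem_om 0, fun a b _ _ hab => e a b hab ▸ hV⟩⟩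

theorem cl_trans {A' : U.M} (h : ∀ y, U.E y A' → Cl U.E G T A y) (h' : Cl U.E G T A' x) :
    Cl U.E G T A x :=
  ⟨h'.1, fun V a b => (h'.2 V a b).elim fun y hy => (h y hy.2).2 V a hy.1⟩

end General

variable {Ω : Type} [MeasurableSpace Ω] {l : Filter Ω} [CountableInterFilter l] [CCC l]

theorem tr_ev (q : ℕ → Nm (IAlg l)) (V : Nm (IAlg l)) (Q : ℕ → Ω → Prop)
    (h : ∀ k, Tr (fun U : Ult (IAlg l) => U.E (U.cl (q k)) (U.cl V)) (Q k)) :
    Tr (fun U : Ult (IAlg l) => ∃ n, U.E n U.om ∧ ∀ k y, U.E k U.om → U.E n k →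
      Ap U.E (U.cl (sqN q)) k y → U.E y (U.cl V)) (fun x => ∀ᶠ m in atTop, Q m x) := by
  have : ∀ k, Tr (fun U : Ult (IAlg l) => ∀ y, Ap U.E (U.cl (sqN q)) (U.num k) y → U.E y (U.cl V))
      (Q k) := fun k => (h k).congr (fun U => by simp only [ap_sqN, forall_eq]) fun _ => Iff.rfl
  refine (inferInstance : Tr (fun U : Ult (IAlg l) => ∃ n, U.E n U.om ∧ ∀ k, U.E k U.om → U.E n k →
    ∀ y, Ap U.E (U.cl (sqN q)) k y → U.E y (U.cl V)) _).congr (fun U => exists_congr fun n =>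
      and_congr_right fun _ => forall_congr' fun k => ⟨fun h y a b => h a b y,
        fun h a b y => h y a b⟩) fun x => ?_
  rw [eventually_atTop]
  exact ⟨fun ⟨n, h⟩ => ⟨n + 1, h⟩, fun ⟨n, h⟩ => ⟨n, fun k hk => h k hk.le⟩⟩

namespace NG

variable {J : Type} {S : AddSubgroup (J → Ω → ZMod 2)} (Γ : NG l S)

theorem self_nb (g : S) (F : Finset J) (U : Ult (IAlg l)) :
    U.E (U.cl (Γ.nm g)) (U.cl (Γ.nb g F)) :=
  (Γ.mnb g g F).of_ae (.of_forall fun _ _ _ => rfl) U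

theorem lim_intro (A : Nm (IAlg l)) (a : ℕ → S) (g : S) {R : Ω → Prop} (hR : Measurable R)
    (h1 : ∀ m (U : Ult (IAlg l)), U.P (cls R) → U.E (U.cl (Γ.nm (a m))) (U.cl A))
    (h2 : ∀ j, ∀ᶠ x in l, R x → ∀ᶠ m in atTop, (a m).1 j x = g.1 j x) (U : Ult (IAlg l))
    (hU : U.P (cls R)) : Lim U.E (U.cl Γ.G) (U.cl Γ.T) U.om (U.cl A) (U.cl (Γ.nm g)) := by
  refine ⟨Γ.mem U g, _, fn_sqN U (fun m => Γ.nm (a m)) fun x y hxy =>
    sq_elim _ (fun U _ y => U.P (cls R) → U.E y (U.cl A)) (fun V n => h1 n V) U x y hxy hU,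
    fun W b c => ?_⟩
  obtain ⟨W, rfl⟩ := U.cl_surj W
  refine Γ.base (fun U => U.P (cls R) → ∃ n, U.E n U.om ∧ ∀ k y, U.E k U.om → U.E n k →
    Ap U.E (U.cl (sqN fun m => Γ.nm (a m))) k y → U.E y (U.cl W)) W g (fun V F hF hV => ?_) U b c hU
  have := (Tr.cls' hR).imp_of_ae (tr_ev _ _ _ fun k => Γ.mnb g (a k) F) (by
    filter_upwards [(eventually_all_finset F).2 fun j _ => h2 j] with x hx hR
    exact (eventually_all_finset F).2 fun j hj => hx j hj hR) V hV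
  exact this.imp fun n hn => ⟨hn.1, fun k y a b c => hF y (hn.2 k y a b c)⟩

theorem lim_elim (A : Nm (IAlg l)) (g : S) {R : Ω → Prop} (hR : Measurable R)
    (h : ∀ U : Ult (IAlg l), U.P (cls R) → Sub U.E (U.cl A) (U.cl Γ.G) ∧
      Lim U.E (U.cl Γ.G) (U.cl Γ.T) U.om (U.cl A) (U.cl (Γ.nm g))) :
    ∃ a : ℕ → S, (∀ m (U : Ult (IAlg l)), U.P (cls R) → U.E (U.cl (Γ.nm (a m))) (U.cl A)) ∧
      ∀ j, ∀ᶠ x in l, R x → ∀ᶠ m in atTop, (a m).1 j x = g.1 j x := by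
  obtain ⟨s, hs⟩ := exists_witness fun U s => Fn U.E U.om (fun _ y => U.E y (U.cl A)) s ∧
    Cvg U.E (U.cl Γ.T) U.om s (U.cl (Γ.nm g))
  obtain ⟨q, hq⟩ := exists_sqN s
  choose a ha using fun n => Γ.full (q n)
  have key : ∀ U : Ult (IAlg l), U.P (cls R) → (∀ n, U.E (U.cl (q n)) (U.cl A)) ∧
      Cvg U.E (U.cl Γ.T) U.om (U.cl (sqN q)) (U.cl (Γ.nm g)) := by
    intro U hU
    obtain ⟨h1, h2⟩ := hs U (h U hU).2.2
    have e := hq U _ h1
    rw [e] at h1 h2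
    exact ⟨fun n => h1.2.2 _ _ ((ap_sqN U q n _).2 rfl), h2⟩
  have e : ∀ n (U : Ult (IAlg l)), U.P (cls R) → U.cl (q n) = U.cl (Γ.nm (a n)) :=
    fun n U hU => ha n U ((h U hU).1 _ ((key U hU).1 n))
  refine ⟨a, fun m U hU => e m U hU ▸ (key U hU).1 m, fun j => ?_⟩
  choose Q hQ using fun k => Tr.of_rep fun U : Ult (IAlg l) => U.E (U.cl (q k)) (U.cl (Γ.nb g {j}))
  have t1 := (Tr.cls' hR).ae_of_imp (tr_ev q _ Q hQ) fun U hU =>
    (key U hU).2 _ (Γ.opn U g {j}) (Γ.self_nb g {j} U)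
  have t2 := fun k => (Tr.cls' hR).ae_of_imp (@Tr.imp _ _ l _ _ _ _ _ _ (hQ k)
    (Γ.mnb g (a k) {j})) fun U hU h => e k U hU ▸ h
  filter_upwards [t1, eventually_countable_forall.2 t2] with x h1 h2 hx
  exact (h1 hx).mono fun m hm => h2 m hx hm j (Finset.mem_singleton_self j)

theorem cls_two (h : OG l S) (U : Ult (IAlg l)) :
    Cls U.E (U.cl Γ.G) (U.cl Γ.T) U.om (U.num 2) := by
  refine (cls_num U _ _ 2).2 fun C h0 hC z => ⟨fun hz => ?_, fun hz => ?_⟩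
  · exact cl_trans (fun y hy => lim_cl ((hC 0 y).1 hy)) (lim_cl ((hC 1 z).1 hz))
  obtain ⟨z, rfl⟩ := U.cl_surj z
  obtain ⟨g, hg⟩ := Γ.full z
  have ez := hg U hz.1
  rw [ez] at hz ⊢
  obtain ⟨A, hA⟩ := U.cl_surj (C 0)
  rw [hA] at h0 hz
  obtain ⟨A1, hA1⟩ := exists_sub Γ.G fun U x => Lim U.E (U.cl Γ.G) (U.cl Γ.T) U.om (U.cl A) x
  have e1 : C 1 = U.cl A1 := U.ext' _ _ fun y => by
    rw [hC 0 y, hA1, hA]
    exact ⟨fun h => ⟨h.1, h⟩, fun h => h.2⟩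
  obtain ⟨R, hR⟩ := Tr.of_rep fun U : Ult (IAlg l) => Sub U.E (U.cl A) (U.cl Γ.G) ∧
    Cl U.E (U.cl Γ.G) (U.cl Γ.T) (U.cl A) (U.cl (Γ.nm g))
  choose Q hQ using fun a : S => Tr.of_rep fun U : Ult (IAlg l) => U.E (U.cl (Γ.nm a)) (U.cl A)
  obtain ⟨a, b, h1, h2, h3⟩ := h.two Q R g (fun a => (hQ a).meas) hR.meas
    (fun a b => (Γ.eq a b).ae_of_imp (@Tr.imp _ _ l _ _ _ _ _ _ (hQ a) (hQ b))
      fun V e h => e ▸ h) fun F => by
    obtain ⟨y, hy⟩ := exists_witness fun U y => U.E y (U.cl (Γ.nb g F)) ∧ U.E y (U.cl A)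
    obtain ⟨a, ha⟩ := Γ.full y
    refine ⟨a, hR.ae_of_imp (@Tr.and _ _ l _ _ _ _ _ _ (hQ a) (Γ.mnb g a F)) fun V hV => ?_⟩
    have := hy V (hV.2.2 _ (Γ.opn V g F) (Γ.self_nb g F V))
    rw [ha V (hV.1 _ this.2)] at this
    exact this.symm
  rw [hC 1, e1]
  refine Γ.lim_intro A1 b g hR.meas (fun p V hV => (hA1 V _).2 ⟨Γ.mem V _, ?_⟩) h3 U
    ((hR.iff U).1 ⟨h0, hz⟩)
  exact Γ.lim_intro A (a p) (b p) hR.meas
    (fun m W hW => (Tr.cls' hR.meas).imp_of_ae (hQ _) (h1 p m) W hW) (h2 p) V hV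

theorem exists_bad (h : OG l S) (U : Ult (IAlg l)) : ∃ A x, Sub U.E A (U.cl Γ.G) ∧
    Cl U.E (U.cl Γ.G) (U.cl Γ.T) A x ∧ ¬ Lim U.E (U.cl Γ.G) (U.cl Γ.T) U.om A x := by
  classical
  obtain ⟨e, h1, h2⟩ := h.one
  let A : Nm (IAlg l) := ⟨ℕ, fun z => Γ.nm (e z), fun _ => cls fun _ => True⟩
  have hA : ∀ U : Ult (IAlg l), Sub U.E (U.cl A) (U.cl Γ.G) := fun U =>
    mem_elim A (fun U a => U.E a (U.cl Γ.G)) (fun V i _ => Γ.mem V _) U
  refine ⟨U.cl A, U.cl (Γ.nm 0), hA U, ⟨Γ.mem U 0, fun W a b => ?_⟩, fun hL => ?_⟩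
  · obtain ⟨W, rfl⟩ := U.cl_surj W
    refine Γ.base (fun U => ∃ y, U.E y (U.cl W) ∧ U.E y (U.cl A)) W 0 (fun V F hF => ?_) U a b
    have := (Tr.ex_mem (fun z => Γ.nm (e z)) (fun _ _ => True) (fun _ => measurable_const)
      (fun U a => U.E a (U.cl (Γ.nb 0 F))) _ fun z => Γ.mnb 0 (e z) F).of_ae
      ((h1 F).mono fun x hx => hx.imp fun z hz => ⟨trivial, hz⟩) V
    exact this.imp fun y hy => ⟨hF y hy.2, hy.1⟩
  obtain ⟨R, hR⟩ := Tr.of_rep fun U : Ult (IAlg l) =>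
    Lim U.E (U.cl Γ.G) (U.cl Γ.T) U.om (U.cl A) (U.cl (Γ.nm 0))
  obtain ⟨a, h3, h4⟩ := Γ.lim_elim A 0 hR.meas fun V hV => ⟨hA V, (hR.iff V).2 hV⟩
  have h5 : ∀ n, ∀ᶠ x in l, R x → ∃ z, ∀ j, (e z).1 j x = (a n).1 j x := fun n =>
    ((Tr.cls' hR.meas).ae_of_imp (Tr.ex_mem (fun z => Γ.nm (e z)) (fun _ _ => True)
      (fun _ => measurable_const) (fun U y => y = U.cl (Γ.nm (a n))) _ fun z => Γ.eq (e z) (a n))
      fun V hV => ⟨_, h3 n V hV, rfl⟩).mono fun x hx hR => (hx hR).imp fun z hz => hz.2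
  have hm : ∀ n z, Measurable fun x => R x → (∃ z, ∀ j, (e z).1 j x = (a n).1 j x) →
      ∀ j, (e z).1 j x = (a n).1 j x := fun n z =>
    hR.meas.imp ((Measurable.exists fun z => (Γ.eq (e z) (a n)).meas).imp (Γ.eq (e z) (a n)).meas)
  have hex : ∀ n x, ∃ z, R x → (∃ z, ∀ j, (e z).1 j x = (a n).1 j x) →
      ∀ j, (e z).1 j x = (a n).1 j x := fun n x => by
    by_cases hx : ∃ z, ∀ j, (e z).1 j x = (a n).1 j x
    · exact hx.imp fun z hz _ _ => hz
    · exact ⟨0, fun _ h => (hx h).elim⟩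
  have h6 := h2 (fun n x => Nat.find (hex n x)) R (fun n z => by
    simp only [Nat.find_eq_iff]
    exact (hm n z).and (.forall fun k => measurable_const.imp (hm n k).not)) hR.meas fun j => by
    filter_upwards [h4 j, eventually_countable_forall.2 h5] with x h7 h8 hx
    exact (h7 hx).mono fun n hn => (Nat.find_spec (hex n x) hx (h8 n hx) j).trans hn
  exact (@Tr.not _ _ l _ _ _ _ hR).of_ae h6 U hL

include Γ in
theorem in2 (h : OG l S) (U : Ult (IAlg l)) : InS U.E U.om (U.num 2) := by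
  refine ⟨mid_num U le_rfl, _, _, _, Γ.tg U, fun A hA h1 x hx => ?_, od_num U 2, Γ.cls_two h U,
    fun b hb hc => ?_⟩
  · exact ((cls_num U _ _ 2).1 (Γ.cls_two h U) (fun _ => A) hA (fun _ y => (h1 y).symm) x).2 hx
  · obtain ⟨A, x, h1, h2, h3⟩ := Γ.exists_bad h U
    obtain ⟨k, hk, rfl⟩ := (U.E_num 2 b).1 hb
    obtain ⟨C, rfl, hC⟩ := exists_chain U (U.cl Γ.G) (U.cl Γ.T) A
    have := ((cls_num U _ _ k).1 hc C h1 hC x).2 h2
    interval_cases k
    · exact h3 (lim_self this h2.1)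
    · exact h3 ((hC 0 x).1 this)

end NG

theorem in2 {Ω : Type} [MeasurableSpace Ω] {l : Filter Ω} [CountableInterFilter l] [CCC l]
    {I : Type} {φ : I → Ω → V → ZMod 2} (h : Chr l I φ) (U : Ult (IAlg l)) :
    InS U.E U.om (U.num 2) := by
  obtain ⟨S, hS⟩ := h.og
  obtain ⟨Γ⟩ := hS.ng
  exact Γ.in2 hS U

end Pool.Agent.MP_e30343_lc.SO

end

-- part MP_e30343_lc.SO.ThmDTree
section

/-! Pruned trees of classes of objects and operations that preserve them. -/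

open Filter Set

namespace Pool.Agent.MP_e30343_lc.SO

/-- a depth together with one class of objects per slot -/
abbrev Kl (S : Type) := ℕ × (S → Obj)

/-- the classes have the stated depth and the stated size -/
def Okc {S : Type} (mu : S → ℕ) (p : Kl S) : Prop :=
  ∀ s, tr p.1 (p.2 s) = p.2 s ∧ (p.2 s).2.card ≤ mu s

/-- `q` refines `p` -/
def Ref {S : Type} (p q : Kl S) : Prop := p.1 ≤ q.1 ∧ ∀ s, tr p.1 (q.2 s) = p.2 s

/-- pruned sets of classes -/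
def Pr {S : Type} (mu : S → ℕ) (T : Set (Kl S)) : Prop :=
  ∀ p ∈ T, Okc mu p ∧ ∀ k, p.1 ≤ k → ∃ q ∈ T, q.1 = k ∧ Ref p q

theorem Ref.trans {S : Type} {p q r : Kl S} (h1 : Ref p q) (h2 : Ref q r) : Ref p r :=
  ⟨h1.1.trans h2.1, fun s => by rw [← h1.2 s, ← h2.2 s, tr_tr h1.1]⟩

theorem Okc.ref {S : Type} {mu : S → ℕ} {p : Kl S} (h : Okc mu p) : Ref p p :=
  ⟨le_rfl, fun s => (h s).1⟩

theorem finite_depth {S : Type} [Finite S] (k : ℕ) :
    {q : Kl S | q.1 = k ∧ ∀ s, tr k (q.2 s) = q.2 s}.Finite := by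
  have h : (Set.pi univ fun _ : S => {b : Obj | tr k b = b}).Finite :=
    Set.Finite.pi fun _ => finite_tr k
  refine (h.image fun b => ((k, b) : Kl S)).subset ?_
  rintro ⟨k', b⟩ ⟨rfl, hb⟩
  exact ⟨b, fun s _ => hb s, rfl⟩

/-- the finitely many refinements of a given depth -/
def Nx {S : Type} (p : Kl S) (k : ℕ) : Set (Kl S) :=
  {q | (q.1 = k ∧ ∀ s, tr k (q.2 s) = q.2 s) ∧ Ref p q}

theorem finite_Nx {S : Type} [Finite S] (p : Kl S) (k : ℕ) : (Nx p k).Finite :=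
  (finite_depth k).subset fun _ h => h.1

theorem Pr.nx {S : Type} {mu : S → ℕ} {T : Set (Kl S)} (h : Pr mu T) {p : Kl S} (hp : p ∈ T)
    {k : ℕ} (hk : p.1 ≤ k) : ∃ q ∈ Nx p k, q ∈ T := by
  obtain ⟨q, hq, e, hr⟩ := (h p hp).2 k hk
  exact ⟨q, ⟨⟨e, fun s => e ▸ ((h q hq).1 s).1⟩, hr⟩, hq⟩

theorem pr_of_nx {S : Type} {mu : S → ℕ} {T : Set (Kl S)} (h1 : ∀ p ∈ T, Okc mu p)
    (h2 : ∀ p ∈ T, ∀ k, p.1 ≤ k → ∃ q ∈ Nx p k, q ∈ T) : Pr mu T := fun p hp =>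
  ⟨h1 p hp, fun k hk => by
    obtain ⟨q, hq, hT⟩ := h2 p hp k hk
    exact ⟨q, hT, hq.1.1, hq.2⟩⟩

theorem pr_empty {S : Type} (mu : S → ℕ) : Pr mu (∅ : Set (Kl S)) := fun _ h => h.elim

/-- unions -/
theorem pr_exists {S : Type} {mu : S → ℕ} {I : Sort*} {T : I → Set (Kl S)}
    (h : ∀ i, Pr mu (T i)) : Pr mu {p | ∃ i, p ∈ T i} := by
  rintro p ⟨i, hi⟩
  refine ⟨(h i p hi).1, fun k hk => ?_⟩
  obtain ⟨q, hq, e⟩ := (h i p hi).2 k hk
  exact ⟨q, ⟨i, hq⟩, e⟩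

/-- a side condition that does not depend on the class -/
theorem pr_and {S : Type} {mu : S → ℕ} {T : Set (Kl S)} (c : Prop) (h : c → Pr mu T) :
    Pr mu {p | c ∧ p ∈ T} := by
  rintro p ⟨hc, hp⟩
  refine ⟨(h hc p hp).1, fun k hk => ?_⟩
  obtain ⟨q, hq, e⟩ := (h hc p hp).2 k hk
  exact ⟨q, ⟨hc, hq⟩, e⟩

/-- the part above a class -/
theorem pr_above {S : Type} {mu : S → ℕ} {T : Set (Kl S)} (h : Pr mu T) (p0 : Kl S) :
    Pr mu {p | Ref p0 p ∧ p ∈ T} := by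
  rintro p ⟨hc, hp⟩
  refine ⟨(h p hp).1, fun k hk => ?_⟩
  obtain ⟨q, hq, e, hr⟩ := (h p hp).2 k hk
  exact ⟨q, ⟨hc.trans hr, hq⟩, e, hr⟩

/-- pigeonhole along the finite subsets of a type -/
theorem pigeon {A B : Type*} {N : Set B} (hN : N.Finite) {P : Finset A → B → Prop}
    (anti : ∀ u u' b, u ⊆ u' → P u' b → P u b) (h : ∀ u, ∃ b ∈ N, P u b) :
    ∃ b ∈ N, ∀ u, P u b := by
  classical
  by_contra hc
  have h1 : ∀ b, ∃ u, b ∈ N → ¬ P u b := fun b => by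
    by_cases hb : b ∈ N
    · have : ¬ ∀ u, P u b := fun h' => hc ⟨b, hb, h'⟩
      obtain ⟨u, hu⟩ := not_forall.1 this
      exact ⟨u, fun _ => hu⟩
    · exact ⟨∅, fun h' => absurd h' hb⟩
  choose f hf using h1
  obtain ⟨b, hb, hP⟩ := h (hN.toFinset.biUnion f)
  exact hf b hb (anti _ _ b (Finset.subset_biUnion_of_mem f (hN.mem_toFinset.2 hb)) hP)

/-- decreasing intersections -/
theorem pr_forall {S : Type} [Finite S] {mu : S → ℕ} {A : Type*} {T : Finset A → Set (Kl S)}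
    (anti : ∀ u u', u ⊆ u' → T u' ⊆ T u) (h : ∀ u, Pr mu (T u)) :
    Pr mu {p | ∀ u, p ∈ T u} :=
  pr_of_nx (fun p hp => (h ∅ p (hp ∅)).1) fun p hp k hk =>
    pigeon (finite_Nx p k) (P := fun u q => q ∈ T u) (fun u u' _ hu hq => anti u u' hu hq)
      fun u => (h u).nx (hp u) hk

theorem frequently_finite {A B : Type*} {l : Filter A} {N : Set B} (hN : N.Finite)
    {P : A → B → Prop} (h : ∃ᶠ a in l, ∃ b ∈ N, P a b) : ∃ b ∈ N, ∃ᶠ a in l, P a b := by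
  by_contra hc
  have h1 : ∀ b ∈ N, ∀ᶠ a in l, ¬ P a b := fun b hb =>
    not_frequently.1 fun h' => hc ⟨b, hb, h'⟩
  refine h ?_
  filter_upwards [(eventually_all_finite hN).2 h1] with a ha
  rintro ⟨b, hb, hP⟩
  exact ha b hb hP

/-- positively many -/
theorem pr_frequently {S : Type} [Finite S] {mu : S → ℕ} {A : Type*} (l : Filter A)
    {T : A → Set (Kl S)} (h : ∀ a, Pr mu (T a)) : Pr mu {p | ∃ᶠ a in l, p ∈ T a} :=
  pr_of_nx (fun p hp => by obtain ⟨a, ha⟩ := Frequently.exists hp; exact (h a p ha).1)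
    fun p hp k hk => frequently_finite (finite_Nx p k) (P := fun a q => q ∈ T a)
      (Frequently.mono hp fun a ha => (h a).nx ha hk)

/-- products: one member of a tree for each index, all of the same depth -/
theorem pr_prod {S Λ : Type} {mu : S → ℕ} {T : Λ → Set (Kl S)} (h : ∀ r, Pr mu (T r)) :
    Pr (fun a : Λ × S => mu a.2)
      {p : Kl (Λ × S) | ∀ r, ((p.1, fun s => p.2 (r, s)) : Kl S) ∈ T r} := by
  intro p hp
  refine ⟨fun a => (h a.1 _ (hp a.1)).1 a.2, fun k hk => ?_⟩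
  choose q hq e hr using fun r => (h r _ (hp r)).2 k hk
  refine ⟨(k, fun a => (q a.1).2 a.2), fun r => ?_, rfl, hk, fun a => (hr a.1).2 a.2⟩
  have := hq r
  rwa [show q r = (k, (q r).2) from Prod.ext (e r) rfl] at this

/-- a new slot that follows a fixed object -/
theorem pr_slot {S : Type} {mu : S → ℕ} {T : Set (Kl S)} (h : Pr mu T) (o : Obj) (m : ℕ)
    (ho : o.2.card ≤ m) :
    Pr (fun a : Option S => a.elim m mu)
      {p : Kl (Option S) | p.2 none = tr p.1 o ∧ ((p.1, fun s => p.2 (some s)) : Kl S) ∈ T} := by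
  rintro p ⟨h0, hp⟩
  refine ⟨fun a => ?_, fun k hk => ?_⟩
  · rcases a with _ | s
    · rw [h0]
      exact ⟨tr_tr le_rfl o, (tr_card _ _).trans ho⟩
    · exact (h _ hp).1 s
  obtain ⟨q, hq, e, hr⟩ := (h _ hp).2 k hk
  refine ⟨(k, fun a => a.elim (tr k o) q.2), ⟨rfl, ?_⟩, rfl, hk, fun a => ?_⟩
  · rwa [show q = (k, q.2) from Prod.ext e rfl] at hq
  · rcases a with _ | s
    · rw [h0]; exact tr_tr hk o
    · exact hr.2 s

/-! ### additive operators on events -/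

/-- `Φ` is almost everywhere monotone and finitely additive on the class `M` of events -/
structure AddOp {X : Type*} (l : Filter X) (M : (X → Prop) → Prop)
    (Φ : (X → Prop) → X → Prop) : Prop where
  mono : ∀ θ θ', M θ → M θ' → (∀ᶠ x in l, θ x → θ' x) → ∀ᶠ x in l, Φ θ x → Φ θ' x
  add : ∀ θ θ', M θ → M θ' → ∀ᶠ x in l, Φ (fun y => θ y ∨ θ' y) x → Φ θ x ∨ Φ θ' x
  bot : ∀ᶠ x in l, ¬ Φ (fun _ => False) x
  mbot : M fun _ => False
  mor : ∀ θ θ', M θ → M θ' → M fun y => θ y ∨ θ' y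

theorem AddOp.null {X : Type*} {l : Filter X} {M : (X → Prop) → Prop}
    {Φ : (X → Prop) → X → Prop} (h : AddOp l M Φ) {θ : X → Prop} (hθ : M θ)
    (h0 : ∀ᶠ x in l, ¬ θ x) : ∀ᶠ x in l, ¬ Φ θ x := by
  filter_upwards [h.mono θ _ hθ h.mbot h0, h.bot] with x h1 h2 h3
  exact h2 (h1 h3)

theorem AddOp.fin {X B : Type*} {l : Filter X} {M : (X → Prop) → Prop}
    {Φ : (X → Prop) → X → Prop} (h : AddOp l M Φ) {θ : B → X → Prop} (hθ : ∀ b, M (θ b))
    {N : Set B} (hN : N.Finite) :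
    M (fun y => ∃ b ∈ N, θ b y) ∧
      ∀ᶠ x in l, Φ (fun y => ∃ b ∈ N, θ b y) x → ∃ b ∈ N, Φ (θ b) x := by
  induction N, hN using Set.Finite.induction_on with
  | empty =>
    have e : (fun y => ∃ b ∈ (∅ : Set B), θ b y) = fun _ => False := by simp only [mem_empty_iff_false, false_and, exists_false]
    rw [e]
    exact ⟨h.mbot, h.bot.mono fun x hx h' => absurd h' hx⟩
  | @insert a s _ _ ih =>
    have e : (fun y => ∃ b ∈ insert a s, θ b y) = fun y => θ a y ∨ ∃ b ∈ s, θ b y := by simp only [mem_insert_iff, exists_eq_or_imp]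
    rw [e]
    refine ⟨h.mor _ _ (hθ a) ih.1, ?_⟩
    filter_upwards [h.add _ _ (hθ a) ih.1, ih.2] with x h1 h2 h3
    rcases h1 h3 with h4 | h4
    · exact ⟨a, mem_insert _ _, h4⟩
    · obtain ⟨b, hb, h5⟩ := h2 h4
      exact ⟨b, mem_insert_of_mem _ hb, h5⟩

theorem AddOp.pr {X : Type*} {l : Filter X} [CountableInterFilter l] {M : (X → Prop) → Prop}
    {Φ : (X → Prop) → X → Prop} (h : AddOp l M Φ) {S : Type} [Finite S] {mu : S → ℕ}
    {T : X → Set (Kl S)} (hT : ∀ p, M fun y => p ∈ T y) (hp : ∀ᶠ y in l, Pr mu (T y)) :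
    ∀ᶠ x in l, Pr mu {p | Φ (fun y => p ∈ T y) x} := by
  have h1 : ∀ p : Kl S, ∀ᶠ x in l, Φ (fun y => p ∈ T y) x → Okc mu p := fun p => by
    by_cases ho : Okc mu p
    · exact Eventually.of_forall fun _ _ => ho
    · refine (h.null (hT p) (hp.mono fun y hy hm => ho (hy p hm).1)).mono fun x hx h' => ?_
      exact absurd h' hx
  have h2 : ∀ (p : Kl S) (k : ℕ), ∀ᶠ x in l, p.1 ≤ k → Φ (fun y => p ∈ T y) x →
      ∃ q ∈ Nx p k, Φ (fun y => q ∈ T y) x := fun p k => by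
    by_cases hk : p.1 ≤ k
    · have h3 := h.fin (θ := fun q y => q ∈ T y) hT (finite_Nx p k)
      filter_upwards [h.mono _ _ (hT p) h3.1 (hp.mono fun y hy hm => hy.nx hm hk), h3.2]
        with x h4 h5 _ h6
      exact h5 (h4 h6)
    · exact Eventually.of_forall fun _ h' => absurd h' hk
  filter_upwards [eventually_countable_forall.2 h1,
    eventually_countable_forall.2 fun p => eventually_countable_forall.2 (h2 p)] with x h3 h4
  exact pr_of_nx h3 fun p hp k hk => h4 p k hk hp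

/-! ### the common part of boundedly small finite sets -/

/-- If positively many `e` carry a finite set `f e` of size at most `M`, then either these sets
avoid every finite set for positively many `e`, or some nonempty `s` is the common part. -/
theorem common_part {A B : Type*} [DecidableEq B] (l : Filter A) (P : A → Prop) (f : A → Finset B)
    (M : ℕ) (hM : ∀ e, P e → (f e).card ≤ M) :
    (∀ j, ∀ᶠ e in l, P e → j ∉ f e) ∨
      ∃ s : Finset B, s.Nonempty ∧ ∀ u : Finset B, ∃ᶠ e in l, P e ∧ s ⊆ f e ∧ Disjoint (f e \ s) u := by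
  have key : ∀ n, ∀ s : Finset B, M ≤ s.card + n → (∃ᶠ e in l, P e ∧ s ⊆ f e) →
      ∃ s' : Finset B, s ⊆ s' ∧ ∀ u : Finset B,
        ∃ᶠ e in l, P e ∧ s' ⊆ f e ∧ Disjoint (f e \ s') u := by
    intro n
    induction n with
    | zero =>
      intro s hs h
      refine ⟨s, Finset.Subset.refl _, fun u => h.mono fun e he => ⟨he.1, he.2, ?_⟩⟩
      have : s = f e := Finset.eq_of_subset_of_card_le he.2 ((hM e he.1).trans hs)
      simp [this]
    | succ n ih =>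
      intro s hs h
      by_cases hc : ∀ u : Finset B, ∃ᶠ e in l, P e ∧ s ⊆ f e ∧ Disjoint (f e \ s) u
      · exact ⟨s, Finset.Subset.refl _, hc⟩
      obtain ⟨u, hu⟩ := not_forall.1 hc
      have h1 : ∃ᶠ e in l, ∃ j ∈ (u : Set B), j ∉ s ∧ P e ∧ insert j s ⊆ f e := by
        refine (h.and_eventually (not_frequently.1 hu)).mono fun e ⟨he, hd⟩ => ?_
        obtain ⟨j, hj, hju⟩ := Finset.not_disjoint_iff.1 fun h' => hd ⟨he.1, he.2, h'⟩
        rw [Finset.mem_sdiff] at hj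
        exact ⟨j, hju, hj.2, he.1, Finset.insert_subset hj.1 he.2⟩
      obtain ⟨j, -, hj⟩ := frequently_finite u.finite_toSet h1
      have hjs : j ∉ s := hj.exists.choose_spec.1
      obtain ⟨s', hs', h'⟩ := ih (insert j s) (by rw [Finset.card_insert_of_notMem hjs]; omega)
        (hj.mono fun e he => he.2)
      exact ⟨s', (Finset.subset_insert _ _).trans hs', h'⟩
  by_cases hc : ∀ j, ∀ᶠ e in l, P e → j ∉ f e
  · exact Or.inl hc
  obtain ⟨j, hj⟩ := not_forall.1 hc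
  obtain ⟨s', hs', h'⟩ := key M {j} (by omega) ((not_eventually.1 hj).mono fun e he => by
    push Not at he
    exact ⟨he.1, Finset.singleton_subset_iff.2 he.2⟩)
  exact Or.inr ⟨s', ⟨j, hs' (Finset.mem_singleton_self j)⟩, h'⟩

end Pool.Agent.MP_e30343_lc.SO

end

-- part MP_e30343_lc.SO.Fav
section

/-! Favouring (for section 5). -/

open Filter Set

namespace Pool.Agent.MP_e30343_lc.SO

theorem Br.mono71 {τ : List L} {S S' : List L → Set L} {y : ℕ → L} (h : Br τ S y)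
    (e : ∀ σ, S σ ⊆ S' σ) : Br τ S' y := ⟨h.1, fun i hi => e _ (h.2 i hi)⟩

theorem pre_len71 (y : ℕ → L) (i : ℕ) : (pre y i).length = i := List.length_ofFn

theorem pre_succ71 (y : ℕ → L) (i : ℕ) : pre y (i + 1) = pre y i ++ [y i] := by
  simp only [pre, List.ofFn_succ_last, Fin.val_castSucc, Fin.val_last]

theorem pre_prefix71 (y : ℕ → L) {i j : ℕ} (h : i ≤ j) : pre y i <+: pre y j := by
  induction j, h using Nat.le_induction with
  | base => exact List.prefix_rfl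
  | succ j _ ih => rw [pre_succ71]; exact ih.trans (List.prefix_append _ _)

/-- propagation along a branch -/
theorem Br.ind71 {ρ : List L} {S : List L → Set L} {y : ℕ → L} (h : Br ρ S y) {φ : List L → Prop}
    (h0 : φ ρ) (h1 : ∀ σ, φ σ → ∀ e ∈ S σ, φ (σ ++ [e])) {i : ℕ} (hi : ρ.length ≤ i) :
    φ (pre y i) := by
  induction i, hi using Nat.le_induction with
  | base => rwa [h.1]
  | succ j hj ih => rw [pre_succ71]; exact h1 _ ih _ (h.2 j hj)

namespace Tpl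

variable {T : Tpl} {C : Set T.ι} {d : T.ι} {ρ : List L} {θ θ' R : T.X → Prop}

/-- defining property of `Fav` -/
def FavP (C : Set T.ι) (d : T.ι) (ρ : List L) (θ F : T.X → Prop) : Prop :=
  MD (C ∩ Iio d) F ∧
  (∃ S, T.VS C d S ∧ ∀ᶠ x in T.μ, ¬ F x → Br ρ (S x) (x d) → ¬ θ x) ∧
  ∀ R S, MD (C ∩ Iio d) R → T.VS C d S → (∀ᶠ x in T.μ, R x → Br ρ (S x) (x d) → ¬ θ x) →
    ∀ᶠ x in T.μ, R x → ¬ F x

/-- the stem `ρ` at `d` favours `θ` -/
noncomputable def Fav (C : Set T.ι) (d : T.ι) (ρ : List L) (θ : T.X → Prop) : T.X → Prop :=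
  Classical.epsilon (FavP C d ρ θ)

theorem fav_spec (C : Set T.ι) (d : T.ι) (ρ : List L) (θ : T.X → Prop) :
    FavP C d ρ θ (Fav C d ρ θ) := by
  refine Classical.epsilon_spec (p := FavP C d ρ θ) ?_
  obtain ⟨R, h1, h2⟩ := ess_sup T.μ (B := C ∩ Iio d) {R | MD (C ∩ Iio d) R ∧
    ∃ S, T.VS C d S ∧ ∀ᶠ x in T.μ, R x → Br ρ (S x) (x d) → ¬ θ x} fun _ h => h.1
  have h3 : ∀ k, MD (C ∩ Iio d) (R k) ∧
      ∃ S, T.VS C d S ∧ ∀ᶠ x in T.μ, R k x → Br ρ (S x) (x d) → ¬ θ x := fun k =>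
    (h1 k).elim id fun e => by
      rw [e]
      exact ⟨MD.const _, _, vs_univ C d, Eventually.of_forall fun _ h => h.elim⟩
  choose hR S hS hS' using h3
  obtain ⟨f, hf, hf'⟩ := MD.sel hR
  refine ⟨fun x => ¬ ∃ k, R k x, (MD.ex hR).not,
    ⟨_, vs_mix hS (fun x _ => f x) fun _ k => hf k, ?_⟩, fun R' S' a b c => ?_⟩
  · filter_upwards [eventually_countable_forall.2 hS'] with x hx h
    exact hx (f x) (hf' x (not_not.1 h))
  · filter_upwards [h2 R' ⟨a, S', b, c⟩] with x hx h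
    exact not_not.2 (hx h)

theorem fav_md : MD (C ∩ Iio d) (Fav C d ρ θ) := (fav_spec C d ρ θ).1

theorem fav_mono (hR : MD (C ∩ Iio d) R) (h : ∀ᶠ x in T.μ, R x → θ x → θ' x) :
    ∀ᶠ x in T.μ, R x → Fav C d ρ θ x → Fav C d ρ θ' x := by
  obtain ⟨S, hS, hS'⟩ := (fav_spec C d ρ θ').2.1
  have := (fav_spec C d ρ θ).2.2 (fun x => R x ∧ ¬ Fav C d ρ θ' x) S (hR.and fav_md.not) hS (by
    filter_upwards [h, hS'] with x h1 h2 h3 h4 h5
    exact h2 h3.2 h4 (h1 h3.1 h5))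
  filter_upwards [this] with x hx h1 h2
  by_contra h3
  exact hx ⟨h1, h3⟩ h2

theorem fav_sub (hR : MD (C ∩ Iio d) R) (h : ∀ᶠ x in T.μ, θ x → R x) :
    ∀ᶠ x in T.μ, Fav C d ρ θ x → R x := by
  have := (fav_spec C d ρ θ).2.2 (fun x => ¬ R x) _ hR.not (vs_univ C d) (by
    filter_upwards [h] with x h1 h2 _ h3
    exact h2 (h1 h3))
  filter_upwards [this] with x hx h1
  by_contra h3
  exact hx h3 h1

theorem fav_fin {κ : Type} [Finite κ] (θ : κ → T.X → Prop) :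
    ∀ᶠ x in T.μ, Fav C d ρ (fun x => ∃ k, θ k x) x → ∃ k, Fav C d ρ (θ k) x := by
  choose S hS hS' using fun k => (fav_spec C d ρ (θ k)).2.1
  have := (fav_spec C d ρ fun x => ∃ k, θ k x).2.2 (fun x => ¬ ∃ k, Fav C d ρ (θ k) x) _
    (MD.ex fun _ => fav_md).not (vs_diag hS (fun _ => univ) fun _ => finite_univ) (by
      filter_upwards [eventually_all.2 hS'] with x h1 h2 h3 ⟨k, h4⟩
      exact h1 k (fun h => h2 ⟨k, h⟩) (h3.mono71 fun _ _ he => he k trivial) h4)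
  filter_upwards [this] with x hx h1
  by_contra h3
  exact hx h3 h1

theorem fav3 (C : Set T.ι) (d : T.ι) (θ : T.X → Prop) :
    ∀ᶠ x in T.μ, θ x → ∀ᶠ i in atTop, Fav C d (pre (x d) i) θ x := by
  choose S hS hS' using fun ρ => (fav_spec C d ρ θ).2.1
  have hv := vs_diag hS (fun τ => {ρ | ρ <+: τ}) fun τ =>
    (List.finite_toSet τ.inits).subset fun ρ h => (List.mem_inits _ _).2 h
  filter_upwards [generic (hv.mono (subset_univ _)), eventually_countable_forall.2 hS'] with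
    x h1 h2 h3
  obtain ⟨i0, hi⟩ := eventually_atTop.1 h1
  filter_upwards [eventually_ge_atTop i0] with i hi'
  by_contra h4
  refine h2 _ h4 ⟨by rw [pre_len71], fun j hj => ?_⟩ h3
  rw [pre_len71] at hj
  exact hi j (hi'.trans hj) _ (pre_prefix71 _ hj)

theorem fav4 (C : Set T.ι) (d : T.ι) (ρ : List L) (θ : T.X → Prop) :
    ∀ᶠ x in T.μ, (∃ᶠ e in T.FF ((C ∩ Iio d) \ T.supp d) d x ρ.length, Fav C d (ρ ++ [e]) θ x) →
      Fav C d ρ θ x := by
  obtain ⟨S, hS, hS'⟩ := (fav_spec C d ρ θ).2.1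
  have h1 : ∀ e, ∀ᶠ x in T.μ, (¬ Fav C d ρ θ x ∧ e ∈ S x ρ) → ¬ Fav C d (ρ ++ [e]) θ x := fun e =>
    (fav_spec C d (ρ ++ [e]) θ).2.2 _ S (fav_md.not.and (hS.1 ρ e)) hS (by
      filter_upwards [hS'] with x h2 h3 h4
      exact h2 h3.1 (((InT.refl ρ _).snoc h3.2).br h4))
  obtain ⟨P, -, hP, hP'⟩ := hS.2
  filter_upwards [eventually_countable_forall.2 h1] with x hx h2
  by_contra h3
  obtain ⟨e, he, he'⟩ := (h2.and_eventually (FF_anti hP d x _ (hP' x ρ))).exists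
  exact hx e ⟨h3, he'⟩ he

theorem mem_res71 (p : T.Cond) (c : Set T.ι) (n : T.ι) : n ∈ (p.res c).dom ↔ n ∈ p.dom ∧ n ∈ c := by
  simp [Cond.res]

theorem fav2_self (hC : T.Clo C) (hC' : C.Countable) (hd : d ∈ C) (hC'' : C ⊆ Iic d) (hθ : MD C θ)
    {K : T.X → Prop} (hK : MD (Iio d) K) (h : ∃ᶠ x in T.μ, K x)
    (e : ∀ᶠ x in T.μ, K x → Fav C d ρ θ x) {S : T.Suc} (hS : T.VS univ d S) :
    ∃ᶠ x in T.μ, K x ∧ Br ρ (S x) (x d) ∧ θ x := by
  obtain ⟨P, hP, hP1, hP2⟩ := hS.2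
  have hsd : T.supp d ⊆ C ∩ Iio d := fun m hm => ⟨hC d hd hm, T.supp_lt d m hm⟩
  have hc0 : ((C ∩ Iio d) \ T.supp d).Countable := hC'.mono fun _ h => h.1.1
  let Θ : List L → T.X → Prop := fun σ => Proj (C ∩ Iio d) fun x => K x ∧ InT ρ (S x) σ
  have hΘ : ∀ σ, MD (C ∩ Iio d) (Θ σ) := fun σ => (proj_spec _ _).1
  have hΘ' : ∀ σ, ∀ᶠ x in T.μ, K x ∧ InT ρ (S x) σ → Θ σ x := fun σ => (proj_spec _ _).2.1
  choose Pm hm1 hm2 hm3 using fun σ : List L => pos_meas T.μ hc0 sdiff_subset hsd σ.length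
    (fun x e => ¬ Θ (σ ++ [e]) x) fun e => (hΘ _).not
  let S' : T.Suc := fun x σ => {e | Pm σ x ∨ Θ (σ ++ [e]) x}
  have hS' : T.VS C d S' := ⟨fun σ e => (hm1 σ).or (hΘ _), _, hc0, subset_rfl, fun x σ => by
    by_cases h1 : Pm σ x
    · exact univ_mem' fun _ => Or.inl h1
    · exact mem_of_superset (not_frequently.1 fun h2 => h1 (hm2 σ x h2))
        fun _ h2 => Or.inr (not_not.1 h2)⟩
  have key : ∀ σ, ∀ᶠ x in T.μ, Θ σ x → ¬ Pm σ x := fun σ => by
    refine proj_sub (hm1 σ).not ?_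
    filter_upwards [hm3 σ, eventually_countable_forall.2 hΘ', pt hC hC' (hC d hd) hP
      (fun m hm => ⟨(hP1 hm).1.2, (hP1 hm).2⟩) σ.length (fun x e => ¬ Θ (σ ++ [e]) x)
      fun e => (hΘ _).not] with x h1 h2 h3 h4 h5
    obtain ⟨a, ha, ha'⟩ := ((h3 (h1 h5)).and_eventually (hP2 x σ)).exists
    exact ha (h2 _ ⟨h4.1, h4.2.snoc ha'⟩)
  have hpos : ∃ᶠ x in T.μ, Θ ρ x ∧ Br ρ (S' x) (x d) ∧ θ x := by
    by_contra h0
    have h1 := (fav_spec C d ρ θ).2.2 (Θ ρ) S' (hΘ ρ) hS' (by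
      filter_upwards [not_frequently.1 h0] with x h1 h2 h3 h4
      exact h1 ⟨h2, h3, h4⟩)
    obtain ⟨x, hx, h2, h3, h4⟩ := (h.and_eventually (e.and (h1.and (hΘ' ρ)))).exists
    exact h3 (h4 ⟨hx, InT.refl _ _⟩) (h2 hx)
  obtain ⟨q, hq, hl, hq'⟩ := bp_long hC (((hΘ ρ).mono inter_subset_left).and
    (((md_br hS' hd ρ).mono inter_subset_left).and hθ)) hpos {d} (by simpa using hd) ρ.length
  obtain ⟨hdq, hl⟩ := hl d (Finset.mem_singleton_self d)
  have h1 : ∃ᶠ x in T.μ, Sem (q.res (Iio d)) x ∧ Θ (q.st d) x := by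
    refine ((pos (hq.mono (subset_univ _))).and_eventually
      (hq'.and (eventually_countable_forall.2 key))).mono fun x ⟨a, b, c⟩ =>
        ⟨((sem_split q _ x).1 a).1, ?_⟩
    rw [← (a d hdq).1]
    exact (b a).2.1.ind71 (φ := fun σ => Θ σ x) (b a).1
      (fun σ hσ _ he => he.resolve_left (c σ hσ)) hl
  have hmd := md_sem (hq.res_lower (isLowerSet_Iio d))
  have hv : Val univ (one d (q.st d) fun x τ => S x τ ∩ q.S d x τ) := ⟨subset_univ _, fun n hn => by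
    rw [Finset.mem_singleton.1 hn]
    exact hS.inter ((hq.2 d hdq).mono (subset_univ _))⟩
  have h2 := amalg (isLowerSet_Iio d) ((hmd.mono inter_subset_right).and
    (hK.and ((md_inT hS ρ (q.st d)).mono inter_subset_right))) (proj_pos hmd h1) hv
    (Eventually.of_forall fun x _ n hn => by
      have h3 := (mem_res71 _ _ _).1 hn
      exact absurd (Finset.mem_singleton.1 h3.1 ▸ h3.2) (lt_irrefl d))
  refine (h2.and_eventually hq').mono fun x ⟨⟨⟨a, b, c⟩, f⟩, g⟩ => ?_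
  have f' := sem_one.1 f
  refine ⟨b, c.br (f'.mono71 fun _ => inter_subset_left), (g fun n hn => ?_).2.2⟩
  rcases (mem_Iic.1 (hC'' (hq.1 hn))).lt_or_eq with h3 | rfl
  · exact a n ((mem_res71 _ _ _).2 ⟨hn, h3⟩)
  · exact f'.mono71 fun _ => inter_subset_right

theorem FF_congr71 {P : Set T.ι} {x y : T.X} (h1 : ∀ n ∈ T.supp d, x n = y n)
    (h2 : ∀ n ∈ P, x n = y n) (i : ℕ) : T.FF P d x i = T.FF P d y i := by
  unfold FF
  split_ifs
  · rfl
  · refine iInf_congr fun π => iInf_congr fun hπ => iInf_congr fun k => ?_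
    congr 1
    ext a
    refine and_congr ((T.dm_md d i _).2 x y h1) (and_congr_right fun _ => ?_)
    exact forall₂_congr fun b hb => by rw [h2 b (hπ hb)]

/-- valid trees over the image come from valid trees -/
theorem vs_pull71 {T' : Tpl} (M : Mor T C T') (hC : T.Clo C) (hd : d ∈ C) (hu : M.Unt d)
    {S' : T'.Suc} (h : T'.VS (M.h '' C) (M.h d) S') :
    ∃ S, T.VS C d S ∧ ∀ x, S' x = S (M.pull x) := by
  classical
  have im : M.h '' C ∩ Iio (M.h d) ⊆ M.h '' (C ∩ Iio d) := by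
    rintro _ ⟨⟨n, hn, rfl⟩, h1⟩
    exact ⟨n, ⟨hn, (M.mono.lt_iff_lt hn hd).1 h1⟩, rfl⟩
  choose Q hQ hQ' using fun τ e => M.md_push inter_subset_left ((h.1 τ e).mono im)
  obtain ⟨P, hP, hP1, hP2⟩ := h.2
  have e1 : ∀ x, S' x = fun τ => {e | Q τ e (M.pull x)} := fun x =>
    funext fun τ => Set.ext fun e => hQ' τ e x
  have hP3 : M.h '' (C ∩ M.h ⁻¹' P) = P := by
    refine subset_antisymm (by rintro _ ⟨n, hn, rfl⟩; exact hn.2) fun m hm => ?_
    obtain ⟨n, hn, rfl⟩ := (hP1 hm).1.1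
    exact ⟨n, ⟨hn, hm⟩, rfl⟩
  refine ⟨fun y τ => {e | Q τ e y}, ⟨hQ, C ∩ M.h ⁻¹' P, ?_, fun n hn => ?_, fun y τ => ?_⟩, e1⟩
  · exact countable_of_injective_of_countable_image (M.mono.injOn.mono inter_subset_left)
      (hP3.symm ▸ hP)
  · refine ⟨⟨hn.1, (M.mono.lt_iff_lt hn.1 hd).1 (hP1 hn.2).1.2⟩, fun h1 => (hP1 hn.2).2 ?_⟩
    rw [M.supp d hd]
    exact ⟨n, h1, rfl⟩
  · obtain ⟨x, hx⟩ : ∃ x : T'.X, ∀ n ∈ C, M.pull x n = y n := by
      refine ⟨fun m j => if h : ∃ n ∈ C, M.h n = m then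
        twL (M.tw h.choose j).symm (y h.choose j) else default, fun n hn => funext fun j => ?_⟩
      have h1 : ∃ n' ∈ C, M.h n' = M.h n := ⟨n, hn, rfl⟩
      have h2 : h1.choose = n := M.mono.injOn h1.choose_spec.1 hn h1.choose_spec.2
      simp only [Mor.pull, dif_pos h1, h2, twL, LinearEquiv.apply_symm_apply]
    have h1 : {e | Q τ e y} = S' x τ := Set.ext fun e =>
      ((hQ τ e).2 _ _ fun n hn => (hx n hn.1).symm).trans (hQ' τ e x).symm
    rw [← FF_congr71 (fun n hn => hx n (hC d hd hn)) (fun n hn => hx n hn.1),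
      M.FF_pull hC hd inter_subset_left, hP3, hu]
    exact mem_of_superset (hP2 x τ) fun e he => (h1.symm ▸ he : e ∈ {e | Q τ e y})

theorem fav2 {T' : Tpl} {c : Set T.ι} (M : Mor T c T') (hc : C ⊆ c) (hu : M.Unt d)
    (hC : T.Clo C) (hC' : C.Countable) (hd : d ∈ C) (hC'' : C ⊆ Iic d) (hθ : MD C θ)
    {K : T'.X → Prop} (hK : MD (Iio (M.h d)) K) (h : ∃ᶠ x in T'.μ, K x)
    (e : ∀ᶠ x in T'.μ, K x → Fav C d ρ θ (M.pull x)) {S : T'.Suc} (hS : T'.VS univ (M.h d) S) :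
    ∃ᶠ x in T'.μ, K x ∧ Br ρ (S x) (x (M.h d)) ∧ θ (M.pull x) := by
  let N := M.res hc
  refine fav2_self (C := N.h '' C) (N.clo_image subset_rfl hC) (hC'.image _) ⟨d, hd, rfl⟩ ?_
    (N.md_pull hθ) hK h ?_ hS
  · rintro _ ⟨n, hn, rfl⟩
    exact N.mono.monotoneOn hn hd (hC'' hn)
  obtain ⟨S', hS', h1⟩ := (fav_spec (N.h '' C) (N.h d) ρ fun x => θ (N.pull x)).2.1
  obtain ⟨S0, hS0, e0⟩ := vs_pull71 N hC hd hu hS'
  have im : N.h '' C ∩ Iio (N.h d) ⊆ N.h '' (C ∩ Iio d) := by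
    rintro _ ⟨⟨n, hn, rfl⟩, h1⟩
    exact ⟨n, ⟨hn, (N.mono.lt_iff_lt hn hd).1 h1⟩, rfl⟩
  obtain ⟨R, hR, hR'⟩ := N.md_push inter_subset_left
    ((fav_md (ρ := ρ) (θ := fun x => θ (N.pull x))).not.mono im)
  have h2 : ∀ᶠ y in T.μ, R y → Br ρ (S0 y) (y d) → ¬ θ y := by
    refine (N.ae_iff hC ((hR.mono inter_subset_left).imp
      (((md_br hS0 hd ρ).mono inter_subset_left).imp hθ.not))).1 ?_
    filter_upwards [h1] with x hx a b
    refine hx ((hR' x).2 a) ?_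
    rwa [e0, ← Mor.Unt.pull (M := N) hu x]
  have h3 := (N.ae_iff hC ((hR.imp fav_md.not).mono inter_subset_left)).2
    ((fav_spec C d ρ θ).2.2 R S0 hR hS0 h2)
  filter_upwards [h3, e] with x a b c
  by_contra h4
  exact a ((hR' x).1 h4) (b c)

end Tpl

end Pool.Agent.MP_e30343_lc.SO

end

-- part MP_e30343_lc.SO.Ext
section

/-! Extension of finitely many copies. -/

open Filter Set

namespace Pool.Agent.MP_e30343_lc.SO

open Tpl

variable {T : Tpl} {c c' C D : Set T.ι} {Γ : Type}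

/-- restriction to a lower level -/
def Ext.res (E : Ext T c C Γ) (e : c' ⊆ c) : Ext T c' C Γ where
  T' := E.T'
  M g := (E.M g).res e
  agree g g' n hn := E.agree g g' n ⟨hn.1, e hn.2⟩

theorem Ext.pull_eq (E : Ext T c C Γ) (g g' : Γ) (x : E.T'.X) {n : T.ι} (hn : n ∈ C ∩ c) :
    (E.M g).pull x n = (E.M g').pull x n := by
  obtain ⟨h1, h2⟩ := E.agree g g' n hn
  funext j
  simp only [Mor.pull, h1, h2]

theorem Ext.md_iff (E : Ext T c C Γ) (g g' : Γ) (x : E.T'.X) {P : T.X → Prop} (h : MD (C ∩ c) P) :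
    P ((E.M g).pull x) ↔ P ((E.M g').pull x) := h.2 _ _ fun _ hn => E.pull_eq g g' x hn

/-- `E'` extends `E` by fresh untwisted nodes on top, shared exactly over `C` -/
structure Over (E : Ext T c C Γ) (E' : Ext T univ C Γ) (J : Mor E.T' univ E'.T') : Prop where
  unt : ∀ m, J.Unt m
  low : IsLowerSet (range J.h)
  old : ∀ g, ∀ n ∈ c, (E'.M g).h n = J.h ((E.M g).h n) ∧ (E'.M g).tw n = (E.M g).tw n
  new : ∀ g n, n ∉ c → (E'.M g).Unt n ∧ (E'.M g).h n ∉ range J.h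
  inj : ∀ g g' n n', n ∉ c → n' ∉ c → (E'.M g).h n = (E'.M g').h n' → n = n' ∧ (g = g' ∨ n ∈ C)
  crs : ∀ g g' n n', n < n' → n' ∉ c → (E'.M g).h n < (E'.M g').h n'

namespace ExtB

variable (E : Ext T c C Γ) (g0 : Γ)

/-- the nodes of the extension -/
abbrev I : Type := E.T'.ι ⊕ₗ (T.ι ×ₗ Γ)

/-- old nodes -/
def inl (m : E.T'.ι) : I E := toLex (Sum.inl m)

/-- new nodes -/
def inr (n : T.ι) (g : Γ) : I E := toLex (Sum.inr (toLex (n, g)))

theorem cases (a : I E) : (∃ m, a = inl E m) ∨ ∃ n g, a = inr E n g := by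
  rcases a with m | ⟨n, g⟩
  · exact Or.inl ⟨m, rfl⟩
  · exact Or.inr ⟨n, g, rfl⟩

theorem inl_lt_inl [LinearOrder Γ] {m m' : E.T'.ι} (h : m < m') : inl E m < inl E m' :=
  Sum.Lex.inl_lt_inl_iff.2 h

theorem inl_lt_inr [LinearOrder Γ] (m : E.T'.ι) (n : T.ι) (g : Γ) : inl E m < inr E n g :=
  Sum.Lex.inl_lt_inr _ _

theorem inr_lt_inr [LinearOrder Γ] {n n' : T.ι} (h : n < n') (g g' : Γ) :
    inr E n g < inr E n' g' :=
  Sum.Lex.inr_lt_inr_iff.2 (Prod.Lex.toLex_lt_toLex.2 (Or.inl h))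

theorem inr_inj {n n' : T.ι} {g g' : Γ} (h : inr E n g = inr E n' g') : n = n' ∧ g = g' := by
  simpa [inr] using h

open Classical in
/-- the map on nodes -/
noncomputable def hh (g : Γ) (n : T.ι) : I E :=
  if n ∈ c then inl E ((E.M g).h n) else inr E n (if n ∈ C then g0 else g)

open Classical in
/-- the twists -/
noncomputable def tt (g : Γ) (n : T.ι) : ℕ → Aut :=
  if n ∈ c then (E.M g).tw n else fun _ => LinearEquiv.refl _ _

/-- the pull back of points -/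
noncomputable def pl (g : Γ) (x : I E → ℕ → L) : T.X :=
  fun m j => twL (tt E g m j) (x (hh E g0 g m) j)

theorem hh_old (g : Γ) {n : T.ι} (h : n ∈ c) : hh E g0 g n = inl E ((E.M g).h n) := if_pos h

open Classical in
theorem hh_new (g : Γ) {n : T.ι} (h : n ∉ c) :
    hh E g0 g n = inr E n (if n ∈ C then g0 else g) := if_neg h

theorem tt_old (g : Γ) {n : T.ι} (h : n ∈ c) : tt E g n = (E.M g).tw n := if_pos h

theorem tt_new (g : Γ) {n : T.ι} (h : n ∉ c) : tt E g n = fun _ => LinearEquiv.refl _ _ := if_neg h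

theorem agree (g g' : Γ) {n : T.ι} (h : n ∈ C) :
    hh E g0 g n = hh E g0 g' n ∧ tt E g n = tt E g' n := by
  by_cases hn : n ∈ c
  · obtain ⟨h1, h2⟩ := E.agree g g' n ⟨h, hn⟩
    rw [hh_old E g0 g hn, hh_old E g0 g' hn, tt_old E g hn, tt_old E g' hn, h1, h2]
    exact ⟨rfl, rfl⟩
  · rw [hh_new E g0 g hn, hh_new E g0 g' hn, tt_new E g hn, tt_new E g' hn, if_pos h, if_pos h]
    exact ⟨rfl, rfl⟩

theorem hh_lt [LinearOrder Γ] (g : Γ) {n n' : T.ι} (h : n < n') (k : Γ) :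
    hh E g0 g n < inr E n' k := by
  by_cases hn : n ∈ c
  · rw [hh_old E g0 g hn]; exact inl_lt_inr _ _ _ _
  · rw [hh_new E g0 g hn]; exact inr_lt_inr _ h _ _

/-- kinds -/
def kd (a : I E) : Prop := Sum.elim E.T'.isK (fun p : T.ι ×ₗ Γ => T.isK (ofLex p).1) (ofLex a)

/-- supports -/
def sp (a : I E) : Set (I E) :=
  Sum.elim (fun m => inl E '' E.T'.supp m)
    (fun p : T.ι ×ₗ Γ => hh E g0 (ofLex p).2 '' T.supp (ofLex p).1) (ofLex a)

/-- domains -/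
def dd (a : I E) (x : I E → ℕ → L) : ℕ → Obj → Prop :=
  Sum.elim (fun m => E.T'.dm m fun m' => x (inl E m'))
    (fun p : T.ι ×ₗ Γ => T.dm (ofLex p).1 (pl E g0 (ofLex p).2 x)) (ofLex a)

theorem sp_inl (m : E.T'.ι) : sp E g0 (inl E m) = inl E '' E.T'.supp m := rfl

theorem sp_inr (n : T.ι) (g : Γ) : sp E g0 (inr E n g) = hh E g0 g '' T.supp n := rfl

theorem sp_hh (hc : IsLowerSet c) (hC : T.Clo C) (g : Γ) (n : T.ι) :
    sp E g0 (hh E g0 g n) = hh E g0 g '' T.supp n := by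
  by_cases hn : n ∈ c
  · rw [hh_old E g0 g hn, sp_inl, (E.M g).supp n hn, image_image]
    exact image_congr fun m hm => (hh_old E g0 g (hc (T.supp_lt n m hm).le hn)).symm
  · rw [hh_new E g0 g hn, sp_inr]
    split_ifs with h
    · exact image_congr fun m hm => (agree E g0 g0 g (hC n h hm)).1
    · rfl

theorem dd_hh (hc : IsLowerSet c) (hC : T.Clo C) (g : Γ) (n : T.ι) (x : I E → ℕ → L) (i : ℕ)
    (o : Obj) : dd E g0 (hh E g0 g n) x i o ↔ T.dm n (pl E g0 g x) i o := by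
  by_cases hn : n ∈ c
  · rw [hh_old E g0 g hn]
    refine ((E.M g).dm n hn (fun m' => x (inl E m')) i o).trans ((T.dm_md n i o).2 _ _ fun m hm => ?_)
    have hm' : m ∈ c := hc (T.supp_lt n m hm).le hn
    funext j
    simp only [pl, hh_old E g0 g hm', tt_old E g hm']
  · rw [hh_new E g0 g hn]
    split_ifs with h
    · refine (T.dm_md n i o).2 (pl E g0 g0 x) _ fun m hm => ?_
      obtain ⟨h1, h2⟩ := agree E g0 g0 g (hC n h hm)
      funext j
      simp only [pl, h1, h2]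
    · exact Iff.rfl

theorem meas_pl (g : Γ) : Measurable (pl E g0 g) := by
  refine measurable_pi_lambda _ fun m => measurable_pi_lambda _ fun j => ?_
  exact (Measurable.of_discrete (f := twL (tt E g m j))).comp
    ((measurable_pi_apply j).comp (measurable_pi_apply (hh E g0 g m)))

/-- the extended template -/
noncomputable def tpl [LinearOrder Γ] [WellFoundedLT Γ] (hc : IsLowerSet c) (hC : T.Clo C) : Tpl where
  ι := I E
  lo := inferInstance
  wf := ⟨Sum.lex_wf (wellFounded_lt (α := E.T'.ι)) (wellFounded_lt (α := T.ι ×ₗ Γ))⟩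
  ne := ⟨inl E (Classical.arbitrary _)⟩
  isK := kd E
  supp := sp E g0
  supp_c a := by
    rcases cases E a with ⟨m, rfl⟩ | ⟨n, g, rfl⟩
    · exact (E.T'.supp_c m).image _
    · exact (T.supp_c n).image _
  supp_lt a b hb := by
    rcases cases E a with ⟨m, rfl⟩ | ⟨n, g, rfl⟩
    · obtain ⟨m', h, rfl⟩ := hb
      exact inl_lt_inl E (E.T'.supp_lt m m' h)
    · obtain ⟨n', h, rfl⟩ := hb
      exact hh_lt E g0 g (T.supp_lt n n' h) g
  supp_cl a b hb := by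
    rcases cases E a with ⟨m, rfl⟩ | ⟨n, g, rfl⟩
    · obtain ⟨m', h, rfl⟩ := hb
      exact image_mono (E.T'.supp_cl m m' h)
    · obtain ⟨n', h, rfl⟩ := hb
      rw [sp_hh E g0 hc hC, sp_inr]
      exact image_mono (T.supp_cl n n' h)
  dm := dd E g0
  dm_md a i o := by
    rcases cases E a with ⟨m, rfl⟩ | ⟨n, g, rfl⟩
    · refine ⟨(E.T'.dm_md m i o).1.comp (measurable_pi_lambda _ fun m' => measurable_pi_apply _),
        fun x y h => (E.T'.dm_md m i o).2 _ _ fun m' hm' => h _ ⟨m', hm', rfl⟩⟩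
    · refine ⟨(T.dm_md n i o).1.comp (meas_pl E g0 g),
        fun x y h => (T.dm_md n i o).2 (pl E g0 g x) (pl E g0 g y) fun m hm => ?_⟩
      funext j
      simp only [pl, h (hh E g0 g m) ⟨m, hm, rfl⟩]
  dm_card a x i o h := by
    rcases cases E a with ⟨m, rfl⟩ | ⟨n, g, rfl⟩
    · exact E.T'.dm_card m _ i o h
    · exact T.dm_card n _ i o h
  dm_far a x i k := by
    rcases cases E a with ⟨m, rfl⟩ | ⟨n, g, rfl⟩
    · exact E.T'.dm_far m _ i k
    · exact T.dm_far n _ i k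

variable [LinearOrder Γ] [WellFoundedLT Γ] (hc : IsLowerSet c) (hC : T.Clo C)

/-- the extended morphisms -/
noncomputable def mor (g : Γ) : Mor T univ (tpl E g0 hc hC) where
  h := hh E g0 g
  tw := tt E g
  mono := by
    intro a _ b _ h
    show hh E g0 g a < hh E g0 g b
    by_cases hb : b ∈ c
    · have ha : a ∈ c := hc h.le hb
      rw [hh_old E g0 g ha, hh_old E g0 g hb]
      exact inl_lt_inl E ((E.M g).mono ha hb h)
    · rw [hh_new E g0 g hb]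
      exact hh_lt E g0 g h _
  isK n _ := by
    show kd E (hh E g0 g n) ↔ _
    by_cases hn : n ∈ c
    · rw [hh_old E g0 g hn]; exact (E.M g).isK n hn
    · rw [hh_new E g0 g hn]; exact Iff.rfl
  supp n _ := sp_hh E g0 hc hC g n
  dm n _ x i o := dd_hh E g0 hc hC g n x i o
  twK n _ h i := by
    by_cases hn : n ∈ c
    · rw [tt_old E g hn]; exact (E.M g).twK n hn h i
    · rw [tt_new E g hn]
  twE n _ := by
    by_cases hn : n ∈ c
    · rw [tt_old E g hn]; exact (E.M g).twE n hn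
    · rw [tt_new E g hn]; exact ⟨0, 0, fun _ _ => ⟨rfl, fun _ _ _ => Iff.rfl⟩⟩

/-- the extended family -/
noncomputable def ext : Ext T univ C Γ where
  T' := tpl E g0 hc hC
  M := mor E g0 hc hC
  agree g g' _ hn := agree E g0 g g' hn.1

/-- the inclusion of the old template -/
noncomputable def inc : Mor E.T' univ (tpl E g0 hc hC) where
  h := inl E
  tw _ _ := LinearEquiv.refl _ _
  mono := fun _ _ _ _ h => inl_lt_inl E h
  isK _ _ := Iff.rfl
  supp _ _ := rfl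
  dm _ _ _ _ _ := Iff.rfl
  twK _ _ _ _ := rfl
  twE _ _ := ⟨0, 0, fun _ _ => ⟨rfl, fun _ _ _ => Iff.rfl⟩⟩

theorem is_over : Over E (ext E g0 hc hC) (inc E g0 hc hC) where
  unt _ _ := rfl
  low := by
    rintro a b h ⟨m, rfl⟩
    rcases cases E b with ⟨m', rfl⟩ | ⟨n, g, rfl⟩
    · exact ⟨m', rfl⟩
    · exact absurd (inl_lt_inr E m n g) (not_lt.2 h)
  old g n hn := ⟨hh_old E g0 g hn, tt_old E g hn⟩
  new g n hn := by
    refine ⟨fun i => congrFun (tt_new E g hn) i, ?_⟩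
    rintro ⟨m, hm⟩
    have h : inl E m = hh E g0 g n := hm
    rw [hh_new E g0 g hn] at h
    exact (inl_lt_inr E m n _).ne h
  inj g g' n n' hn hn' h := by
    have h' : hh E g0 g n = hh E g0 g' n' := h
    rw [hh_new E g0 g hn, hh_new E g0 g' hn'] at h'
    obtain ⟨rfl, h2⟩ := inr_inj E h'
    refine ⟨rfl, ?_⟩
    by_cases hC' : n ∈ C
    · exact Or.inr hC'
    · rw [if_neg hC', if_neg hC'] at h2
      exact Or.inl h2
  crs g g' n n' h hn' := by
    show hh E g0 g n < hh E g0 g' n'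
    rw [hh_new E g0 g' hn']
    exact hh_lt E g0 g h _

end ExtB

/-- EXT -/
theorem ext_lemma [Finite Γ] [Nonempty Γ] (hc : IsLowerSet c) (hC : T.Clo C) (E : Ext T c C Γ) :
    ∃ (E' : Ext T univ C Γ) (J : Mor E.T' univ E'.T'), Over E E' J := by
  obtain ⟨_, _⟩ := exists_wellFoundedLT Γ
  exact ⟨_, _, ExtB.is_over E (Classical.arbitrary Γ) hc hC⟩

namespace Over

variable {E : Ext T c C Γ} {E' : Ext T univ C Γ} {J : Mor E.T' univ E'.T'}

theorem pull (O : Over E E' J) (g : Γ) (x : E'.T'.X) {n : T.ι} (hn : n ∈ c) :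
    (E'.M g).pull x n = (E.M g).pull (J.pull x) n := by
  obtain ⟨h1, h2⟩ := O.old g n hn
  funext j
  show twL ((E'.M g).tw n j) (x ((E'.M g).h n) j) = twL ((E.M g).tw n j) (J.pull x ((E.M g).h n) j)
  rw [h1, h2, (O.unt _).pull]

theorem md_iff (O : Over E E' J) (g : Γ) (x : E'.T'.X) {P : T.X → Prop} (h : MD c P) :
    P ((E'.M g).pull x) ↔ P ((E.M g).pull (J.pull x)) := h.2 _ _ fun _ hn => O.pull g x hn

theorem lt (O : Over E E' J) (g : Γ) {n : T.ι} (hn : n ∉ c) (m : E.T'.ι) :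
    J.h m < (E'.M g).h n :=
  not_le.1 fun h => (O.new g n hn).2 (O.low h ⟨m, rfl⟩)

open Classical in
/-- the meet of the copies of the tails -/
theorem tails [Finite Γ] (O : Over E E' J) (r : Γ → T.Cond) (hr : ∀ g, Val univ (r g))
    (e1 : ∀ g g' n, n ∈ C → n ∉ c → n ∈ (r g).dom → n ∈ (r g').dom → (r g).st n = (r g').st n) :
    ∃ p, Val univ p ∧ (∀ m, m ∈ p.dom ↔ ∃ g, ∃ n ∈ (r g).dom, n ∉ c ∧ (E'.M g).h n = m) ∧
      (∀ g, ∀ n ∈ (r g).dom, n ∉ c → p.st ((E'.M g).h n) = (r g).st n) ∧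
      ∀ x, Sem p x ↔ ∀ g, Sem ((r g).res cᶜ) ((E'.M g).pull x) := by
  have hd : ∀ g n, n ∈ ((r g).res cᶜ).dom ↔ n ∈ (r g).dom ∧ n ∉ c := fun g n => by
    simp [Cond.res]
  have hst : ∀ g, ∀ n ∈ ((r g).res cᶜ).dom,
      ((E'.M g).push ((r g).res cᶜ)).st ((E'.M g).h n) = (r g).st n := fun g n hn =>
    (E'.M g).push_st_eq (subset_univ _) hn fun i _ => (O.new g n ((hd g n).1 hn).2).1 i
  obtain ⟨p, h1, h2, h3, h4⟩ := meet (B := univ) (fun g => (E'.M g).push ((r g).res cᶜ))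
    (fun g => ((E'.M g).push_val (clo_lower isLowerSet_univ) Subset.rfl ((hr g).res cᶜ)).mono
      (subset_univ _)) (by
      intro g g' m hm hm'
      obtain ⟨n, hn, rfl⟩ := ((E'.M g).mem_push_dom _ _).1 hm
      obtain ⟨n', hn', e⟩ := ((E'.M g').mem_push_dom _ _).1 hm'
      obtain ⟨rfl, h⟩ := O.inj g' g n' n ((hd _ _).1 hn').2 ((hd _ _).1 hn).2 e
      rw [hst g _ hn, ← e, hst g' _ hn']
      rcases h with rfl | h
      · rfl
      · exact e1 g g' _ h ((hd _ _).1 hn).2 ((hd _ _).1 hn).1 ((hd _ _).1 hn').1)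
  refine ⟨p, h1, fun m => (h2 m).trans (exists_congr fun g => ?_), fun g n hn hn' => ?_,
    fun x => (h4 x).trans (forall_congr' fun g => (E'.M g).push_sem (subset_univ _) x)⟩
  · rw [Mor.mem_push_dom]
    exact exists_congr fun n => by rw [hd, and_assoc]
  · have hn2 := (hd g n).2 ⟨hn, hn'⟩
    rw [(h3 g _ (((E'.M g).mem_push_dom _ _).2 ⟨n, hn2, rfl⟩)).1, hst g n hn2]

theorem md_low (J : Mor E.T' univ E'.T') {K : E.T'.X → Prop} (hK : Measurable K) :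
    MD (range J.h) fun x => K (J.pull x) := by
  simpa only [image_univ] using J.md_pull (MD.of_meas hK)

/-- the lower part and the tail together -/
theorem glue (O : Over E E' J) (hc : IsLowerSet c) {K : E.T'.X → Prop} (g : Γ) {r : T.Cond}
    (hr : Val univ r) (e2 : ∀ᶠ x in E.T'.μ, K x → Sem (r.res c) ((E.M g).pull x)) :
    ∀ᶠ x in E'.T'.μ, K (J.pull x) → Sem (r.res cᶜ) ((E'.M g).pull x) → Sem r ((E'.M g).pull x) := by
  filter_upwards [J.tendsto_univ.eventually e2] with x hx h1 h2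
  refine (sem_split r c _).2 ⟨(O.md_iff g x ?_).2 (hx h1), h2⟩
  exact (md_sem (hr.res_lower hc)).mono inter_subset_right

/-- amalgamation of copies of tails over a positive set -/
theorem cond [Finite Γ] (O : Over E E' J) (hc : IsLowerSet c) {K : E.T'.X → Prop}
    (hK : Measurable K) (h : ∃ᶠ x in E.T'.μ, K x) (r : Γ → T.Cond) (hr : ∀ g, Val univ (r g))
    (e1 : ∀ g g' n, n ∈ C → n ∉ c → n ∈ (r g).dom → n ∈ (r g').dom → (r g).st n = (r g').st n)
    (e2 : ∀ g, ∀ᶠ x in E.T'.μ, K x → Sem ((r g).res c) ((E.M g).pull x)) :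
    ∃ q, Val univ q ∧
      (∀ g, ∀ n ∈ (r g).dom, n ∉ c → (E'.M g).h n ∈ q.dom ∧ q.st ((E'.M g).h n) = (r g).st n) ∧
      ∀ᶠ x in E'.T'.μ, Sem q x → K (J.pull x) ∧ ∀ g, Sem (r g) ((E'.M g).pull x) := by
  classical
  obtain ⟨p, h1, h2, h3, h4⟩ := O.tails r hr e1
  obtain ⟨q, k1, k2, k3⟩ := amalg_cond O.low (md_low J hK)
    ((J.freq_iff (clo_lower isLowerSet_univ) (MD.of_meas hK)).2 h) h1
    (Eventually.of_forall fun x _ m hm => by
      have hm' : m ∈ p.dom ∧ m ∈ range J.h := by simpa only [mem_range, Cond.res, Finset.mem_filter] using hm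
      obtain ⟨g, n, _, hn, rfl⟩ := (h2 m).1 hm'.1
      exact absurd hm'.2 (O.new g n hn).2)
  refine ⟨q, k1, fun g n hn hn' => ?_, ?_⟩
  · obtain ⟨a, b⟩ := k2 _ ((h2 _).2 ⟨g, n, hn, hn', rfl⟩) (O.new g n hn').2
    exact ⟨a, b.trans (h3 g n hn hn')⟩
  · filter_upwards [k3, eventually_all.2 fun g => O.glue hc g (hr g) (e2 g)] with x a b hx
    exact ⟨(a hx).1, fun g => b g (a hx).1 ((h4 x).1 (a hx).2 g)⟩

/-- the same together with a set that lives on a closed part `D` of `C` -/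
theorem cq [Finite Γ] (O : Over E E' J) (hc : IsLowerSet c) (hD : T.Clo D) (hDC : D ⊆ C)
    {θ : T.X → Prop} (hθ : MD D θ) {K : E.T'.X → Prop} (hK : Measurable K)
    (h : ∃ᶠ x in E.T'.μ, K x) (g0 : Γ)
    (e0 : ∀ᶠ x in E.T'.μ, K x → Proj (D ∩ c) θ ((E.M g0).pull x))
    {r : T.Cond} (hr : Val univ r) (hr' : ∀ n ∈ r.dom, n ∉ c → n ∉ D)
    (e2 : ∀ g, ∀ᶠ x in E.T'.μ, K x → Sem (r.res c) ((E.M g).pull x)) :
    ∃ᶠ x in E'.T'.μ, K (J.pull x) ∧ θ ((E'.M g0).pull x) ∧ ∀ g, Sem r ((E'.M g).pull x) := by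
  classical
  have hU : T.Clo univ := clo_lower isLowerSet_univ
  obtain ⟨p, h1, h2, -, h4⟩ := O.tails (fun _ => r) (fun _ => hr) (fun _ _ _ _ _ _ _ => rfl)
  have hI : (E'.M g0).h '' D ∩ range J.h = (E'.M g0).h '' (D ∩ c) := by
    ext m
    constructor
    · rintro ⟨⟨n, hn, rfl⟩, hm⟩
      exact ⟨n, ⟨hn, by_contra fun h' => (O.new g0 n h').2 hm⟩, rfl⟩
    · rintro ⟨n, hn, rfl⟩
      exact ⟨⟨n, hn.1, rfl⟩, _, (O.old g0 n hn.2).1.symm⟩
  have key := Tpl.cq O.low ((E'.M g0).clo_image (subset_univ _) hD) ((E'.M g0).md_pull hθ)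
    (md_low J hK) ((J.freq_iff (clo_lower isLowerSet_univ) (MD.of_meas hK)).2 h) (by
      rw [hI]
      filter_upwards [J.tendsto_univ.eventually e0,
        (E'.M g0).proj_pull hU (subset_univ (D ∩ c)) (hθ.mono (subset_univ _))] with x a b hx
      exact b.2 ((O.md_iff g0 x ((proj_spec (D ∩ c) θ).1.mono inter_subset_right)).2 (a hx))) h1 (by
      intro m hm _
      obtain ⟨g, n, hn, hn', rfl⟩ := (h2 m).1 hm
      rintro ⟨n', hD', e⟩
      by_cases h' : n' ∈ c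
      · exact (O.new g n hn').2 ⟨_, (O.old g0 n' h').1.symm.trans e⟩
      · obtain ⟨rfl, -⟩ := O.inj g0 g n' n h' hn' e
        exact hr' _ hn hn' hD')
    (Eventually.of_forall fun x _ m hm => by
      have hm' : m ∈ p.dom ∧ m ∈ range J.h := by simpa only [mem_range, Cond.res, Finset.mem_filter] using hm
      obtain ⟨g, n, _, hn, rfl⟩ := (h2 m).1 hm'.1
      exact absurd hm'.2 (O.new g n hn).2)
  refine (key.and_eventually (eventually_all.2 fun g => O.glue hc g hr (e2 g))).mono ?_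
  rintro x ⟨⟨a, b, d⟩, f⟩
  exact ⟨a, b, fun g => f g a ((h4 x).1 d g)⟩

end Over

end Pool.Agent.MP_e30343_lc.SO

end

-- part MP_e30343_lc.SO.BC
section

/-! The basic copy lemma. -/

open Filter Set

namespace Pool.Agent.MP_e30343_lc.SO

open Tpl

/-- the conclusion of the basic copy lemma -/
structure BCP {T : Tpl} {C : Set T.ι} (q : T.Cond) (Pi : Finset T.ι) (D N m n : ℕ) {Γ : Type}
    (E : Ext T univ C Γ) (q' : E.T'.Cond) (GG : Set (Set Γ)) : Prop where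
  val : Val univ q'
  up : IsUpperSet GG
  lk : Linked n GG
  sem : ∀ x, Sem q' x → ∀ g, Sem q ((E.M g).pull x)
  unt : ∀ g, ∀ a ∈ C, (E.M g).Unt a
  st : ∀ g, ∀ a ∈ C, a ∈ q.dom → (E.M g).h a ∈ q'.dom ∧ q'.st ((E.M g).h a) = q.st a
  hi : ∀ (x : E.T'.X) (κ : Type) [Fintype κ], Fintype.card κ ≤ N → ∀ o : κ → Obj,
    (∀ j, (o j).2.card ≤ m) →
    {g | ∀ a ∈ Pi, ∀ j, T.gd a (cutHi (q.st a).length ((E.M g).pull x a)) D (o j)} ∈ GG

/-- a smaller base -/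
def Ext.base {T : Tpl} {c C C' : Set T.ι} {Γ : Type} (E : Ext T c C' Γ) (e : C ⊆ C') :
    Ext T c C Γ where
  T' := E.T'
  M := E.M
  agree g g' n hn := E.agree g g' n ⟨e hn.1, hn.2⟩

theorem bc_twL_z (g : Aut) : twL g L.z = L.z := by
  simp [twL, L.z]

theorem Mor.bc_inj {T T' : Tpl} (M : Mor T univ T') : Function.Injective M.h :=
  fun _ _ h => M.mono.injOn trivial trivial h

/-- copies of `Iic a` twisted at `a` -/
noncomputable def twExt (T : Tpl) (C : Set T.ι) (a : T.ι) (haC : a ∉ C) (ha : ¬ T.isK a)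
    {Γ : Type} (u : Γ → Aut) (D0 : ℕ) (hu : ∀ g, Pres (u g) D0) (k : ℕ) : Ext T (Iic a) C Γ where
  T' := T
  M g := Mor.twist T (Iic a) a ha
    (fun n hn h => absurd (lt_of_lt_of_le (T.supp_lt n a h) hn) (lt_irrefl _)) (u g) D0 (hu g) k
  agree g g' n hn := by
    refine ⟨rfl, funext fun i => ?_⟩
    have : n ≠ a := fun e => haC (e ▸ hn.1)
    simp [Mor.twist, this]

theorem twExt_tw {T : Tpl} {C : Set T.ι} {a : T.ι} {haC : a ∉ C} {ha : ¬ T.isK a}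
    {Γ : Type} {u : Γ → Aut} {D0 : ℕ} {hu : ∀ g, Pres (u g) D0} {k : ℕ} (g : Γ) (n : T.ι) (i : ℕ) :
    ((twExt T C a haC ha u D0 hu k).M g).tw n i =
      if n = a ∧ k ≤ i then u g else LinearEquiv.refl _ _ := by
  simp only [twExt, Mor.twist]

/-- one twisting step at a node of kind Y -/
theorem bc_step (T : Tpl) (C : Set T.ι) (hC : T.Clo C) (q : T.Cond) (hq : Val univ q)
    (a : T.ι) (ha1 : a ∈ q.dom) (haC : a ∉ C) (ha : ¬ T.isK a) (D N m n : ℕ) :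
    ∃ (Γ : Type) (_ : Fintype Γ) (E : Ext T univ C Γ) (q' : E.T'.Cond) (GG : Set (Set Γ)),
      BCP q {a} D N m n E q' GG := by
  classical
  obtain ⟨Γ, iΓ, u, D0, GG, hu, hup, hlk, hgl⟩ := gl_linked D N m n
  have := hlk.nonempty
  obtain ⟨E, J, O⟩ := ext_lemma (isLowerSet_Iic a) hC (twExt T C a haC ha u D0 hu (q.st a).length)
  have hold : ∀ g, ∀ b ∈ Iic a, (E.M g).h b = J.h b := fun g b hb => (O.old g b hb).1
  have htw : ∀ g b i, ¬ (b = a ∧ (q.st a).length ≤ i) → (E.M g).tw b i = LinearEquiv.refl _ _ := by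
    intro g b i hi
    by_cases hb : b ∈ Iic a
    · rw [(O.old g b hb).2, twExt_tw, if_neg hi]
    · exact (O.new g b hb).1 i
  have hst : ∀ g, ∀ b ∈ q.dom, ((E.M g).push q).st ((E.M g).h b) = q.st b := fun g b hb =>
    (E.M g).push_st_eq (subset_univ _) hb fun i hi => htw g b i fun h => by
      obtain ⟨rfl, h⟩ := h
      omega
  have hinj : ∀ g g' b b', (E.M g).h b = (E.M g').h b' → b = b' := by
    intro g g' b b' e
    by_cases hb : b ∈ Iic a <;> by_cases hb' : b' ∈ Iic a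
    · rw [hold g b hb, hold g' b' hb'] at e
      exact J.bc_inj e
    · exact ((O.new g' b' hb').2 ⟨b, by rw [← e, hold g b hb]⟩).elim
    · exact ((O.new g b hb).2 ⟨b', by rw [e, hold g' b' hb']⟩).elim
    · exact (O.inj g g' b b' hb hb' e).1
  obtain ⟨q', hv, hdom, hst', hsem⟩ := meet (B := univ) (fun g => (E.M g).push q)
    (fun g => ((E.M g).push_val (clo_lower isLowerSet_univ) subset_rfl hq).mono (subset_univ _))
    fun g g' b h h' => by
      obtain ⟨c, hc, rfl⟩ := ((E.M g).mem_push_dom q b).1 h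
      obtain ⟨c', hc', e⟩ := ((E.M g').mem_push_dom q _).1 h'
      have e' := hinj _ _ _ _ e
      subst e'
      rw [hst g _ hc, ← e, hst g' _ hc]
  refine ⟨Γ, iΓ, E, q', GG, hv, hup, hlk, fun x hx g => ?_, fun g b hb i => ?_, fun g b _ hb => ?_,
    fun x κ _ hκ o ho => ?_⟩
  · exact ((E.M g).push_sem (subset_univ _) x).1 ((hsem x).1 hx g)
  · exact htw g b i fun h => haC (h.1 ▸ hb)
  · have hm : (E.M g).h b ∈ ((E.M g).push q).dom := ((E.M g).mem_push_dom q _).2 ⟨b, hb, rfl⟩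
    exact ⟨(hdom _).2 ⟨g, hm⟩, ((hst' g _ hm).1).trans (hst g b hb)⟩
  · refine hup ?_ (hgl (cutHi (q.st a).length (x (J.h a))) κ hκ o ho)
    intro g hg b hb j
    rw [Finset.mem_singleton.1 hb]
    refine Or.inr ?_
    have : cutHi (q.st a).length ((E.M g).pull x a) =
        fun i => twL (u g) (cutHi (q.st a).length (x (J.h a)) i) := by
      funext i
      unfold cutHi
      split_ifs with hi
      · exact (bc_twL_z _).symm
      · show twL ((E.M g).tw a i) (x ((E.M g).h a) i) = _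
        rw [hold g a le_rfl, (O.old g a le_rfl).2, twExt_tw, if_pos ⟨rfl, by omega⟩]
    rw [this]
    exact hg j

/-- BC -/
theorem bc_lemma (T : Tpl) (C : Set T.ι) (hC : T.Clo C) (q : T.Cond) (hq : Val univ q)
    (Pi : Finset T.ι) (h1 : Pi ⊆ q.dom) (h2 : ∀ a ∈ Pi, a ∉ C) (D N m n : ℕ) :
    ∃ (Γ : Type) (_ : Fintype Γ) (E : Ext T univ C Γ) (q' : E.T'.Cond) (GG : Set (Set Γ)),
      BCP q Pi D N m n E q' GG := by
  classical
  induction Pi using Finset.induction_on_min generalizing C with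
  | empty =>
    refine ⟨Unit, inferInstance, ⟨T, fun _ => Mor.id T univ, fun _ _ _ _ => ⟨rfl, rfl⟩⟩, q,
      {G | () ∈ G}, hq, fun G G' e h => e h, fun κ _ _ G hG => ⟨(), hG⟩, fun x hx _ => hx,
      fun _ _ _ _ => rfl, fun _ _ _ h => ⟨h, rfl⟩, fun x κ _ _ o _ => ?_⟩
    intro a ha
    simp at ha
  | insert a s hs ih =>
    have haq : a ∈ q.dom := h1 (Finset.mem_insert_self _ _)
    have haC : a ∉ C := h2 a (Finset.mem_insert_self _ _)
    obtain ⟨Γ1, i1, E1, q1, GG1, B1⟩ := ih (C ∪ Iic a) (hC.union (clo_lower (isLowerSet_Iic a)))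
      (fun b hb => h1 (Finset.mem_insert_of_mem hb)) fun b hb h =>
        h.elim (h2 b (Finset.mem_insert_of_mem hb)) (not_le.2 (hs b hb))
    by_cases ha : T.isK a
    · refine ⟨Γ1, i1, E1.base subset_union_left, q1, GG1, B1.val, B1.up, B1.lk, B1.sem,
        fun g b hb => B1.unt g b (Or.inl hb), fun g b hb => B1.st g b (Or.inl hb),
        fun x κ _ hκ o ho => B1.up ?_ (B1.hi x κ hκ o ho)⟩
      intro g hg b hb j
      rcases Finset.mem_insert.1 hb with rfl | hb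
      · exact Or.inl ha
      · exact hg b hb j
    obtain ⟨g0⟩ := B1.lk.nonempty
    have hag : ∀ g, ∀ b ∈ C ∪ Iic a, (E1.M g).h b = (E1.M g0).h b := fun g b hb =>
      (E1.agree g g0 b ⟨hb, trivial⟩).1
    have ha' : a ∈ C ∪ Iic a := Or.inr le_rfl
    obtain ⟨Γ2, i2, E2, q2, GG2, B2⟩ := bc_step E1.T' ((E1.M g0).h '' C)
      ((E1.M g0).clo_image (subset_univ _) hC) q1 B1.val ((E1.M g0).h a) (B1.st g0 a ha' haq).1
      (fun ⟨b, hb, e⟩ => haC ((E1.M g0).bc_inj e ▸ hb))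
      (fun h => ha (((E1.M g0).isK a trivial).1 h)) D N m n
    have hmem : ∀ g, ∀ b ∈ C, (E1.M g).h b ∈ (E1.M g0).h '' C := fun g b hb =>
      ⟨b, hb, (hag g b (Or.inl hb)).symm⟩
    refine ⟨Γ2 × Γ1, inferInstance, ⟨E2.T', fun g => (E1.M g.2).comp (E2.M g.1), ?_⟩, q2,
      Fub GG2 GG1, B2.val, Fub.upper B2.up B1.up, Fub.linked B2.lk B1.lk,
      fun x hx g => B1.sem _ (B2.sem x hx g.1) g.2, fun g b hb i => ?_, fun g b hb hb' => ?_,
      fun x κ _ hκ o ho => B2.up ?_ (B2.hi x κ hκ o ho)⟩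
    · intro g g' b hb
      have e1 := E1.agree g.2 g'.2 b ⟨Or.inl hb.1, trivial⟩
      have e2 := E2.agree g.1 g'.1 _ ⟨hmem g'.2 b hb.1, trivial⟩
      refine ⟨?_, funext fun i => ?_⟩
      · show (E2.M g.1).h ((E1.M g.2).h b) = (E2.M g'.1).h ((E1.M g'.2).h b)
        rw [e1.1, e2.1]
      · show ((E2.M g.1).tw ((E1.M g.2).h b) i).trans ((E1.M g.2).tw b i) =
          ((E2.M g'.1).tw ((E1.M g'.2).h b) i).trans ((E1.M g'.2).tw b i)
        rw [e1.1, e1.2, e2.2]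
    · show ((E2.M g.1).tw ((E1.M g.2).h b) i).trans ((E1.M g.2).tw b i) = _
      rw [B2.unt g.1 _ (hmem g.2 b hb) i, B1.unt g.2 b (Or.inl hb) i]
      rfl
    · have s1 := B1.st g.2 b (Or.inl hb) hb'
      have s2 := B2.st g.1 _ (hmem g.2 b hb) s1.1
      exact ⟨s2.1, s2.2.trans s1.2⟩
    · intro g2 hg2
      refine B1.up ?_ (B1.hi ((E2.M g2).pull x) κ hκ o ho)
      intro g1 hg1 b hb j
      rcases Finset.mem_insert.1 hb with rfl | hb
      · have h3 := hg2 _ (Finset.mem_singleton_self _) j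
        rw [(B1.st g0 b ha' haq).2] at h3
        refine Or.inr ?_
        show good (cutHi _ ((E1.M g1).pull ((E2.M g2).pull x) b)) D (o j)
        rw [(B1.unt g1 b ha').pull, hag g1 b ha']
        exact h3.resolve_left fun h => ha (((E1.M g0).isK b trivial).1 h)
      · exact hg1 b hb j

end Pool.Agent.MP_e30343_lc.SO

end

-- part MP_e30343_lc.SO.ThmDSys
section

/-! Section 4: systems of copies and aligned trees, definitions and first properties. -/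

open Filter Set

namespace Pool.Agent.MP_e30343_lc.SO

open Tpl

theorem freq_ex' {X : Type*} {I : Sort*} {l : Filter X} [CountableInterFilter l] [Countable I]
    {R : X → Prop} {P : I → X → Prop} (h : ∃ᶠ x in l, R x) (h' : ∀ᶠ x in l, R x → ∃ i, P i x) :
    ∃ i, ∃ᶠ x in l, R x ∧ P i x :=
  freq_ex ((h.and_eventually h').mono fun _ hx => (hx.2 hx.1).imp fun _ hi => ⟨hx.1, hi⟩)

theorem ev_of_not_freq {X : Type*} {l : Filter X} {P Q : X → Prop}
    (h : ¬ ∃ᶠ x in l, P x ∧ ¬ Q x) : ∀ᶠ x in l, P x → Q x :=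
  (not_frequently.1 h).mono fun _ hx hp => by_contra fun hq => hx ⟨hp, hq⟩

theorem MD.univ' {ι : Type} {B : Set ι} {P : (ι → ℕ → L) → Prop} (h : MD B P) : MD univ P :=
  h.mono (subset_univ _)

theorem Linked.one {Γ : Type} {n : ℕ} {GG : Set (Set Γ)} (h : Linked n GG) (hn : 1 ≤ n)
    {A : Set Γ} (hA : A ∈ GG) : ∃ g, g ∈ A := by
  obtain ⟨g, hg⟩ := h Unit (by simpa using hn) (fun _ => A) fun _ => hA
  exact ⟨g, hg ()⟩

theorem Linked.two {Γ : Type} {n : ℕ} {GG : Set (Set Γ)} (h : Linked n GG) (hn : 2 ≤ n)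
    {A B : Set Γ} (hA : A ∈ GG) (hB : B ∈ GG) : ∃ g, g ∈ A ∧ g ∈ B := by
  obtain ⟨g, hg⟩ := h Bool (by simpa using hn) (fun b => bif b then A else B)
    fun b => by cases b <;> assumption
  exact ⟨g, hg true, hg false⟩

/-- constraints: for each slot a finite set of nodes and a level -/
abbrev Cc (T : Tpl) (S : Type) : Type := S → Finset T.ι × ℕ

variable {T : Tpl} {S S' : Type}

/-- all nodes of the constraints lie in `B` -/
def CcIn (cc : Cc T S) (B : Set T.ι) : Prop := ∀ s, ∀ a ∈ (cc s).1, a ∈ B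

open Classical in
/-- the constraints kept on the rows in `R` only -/
noncomputable def ccRows {Λ : Type} (cc : Cc T S) (R : Set Λ) : Cc T (Λ × S) :=
  fun a => if a.1 ∈ R then cc a.2 else (∅, 0)

/-- the diagonal class -/
def diag (Λ : Type) (p : Kl S) : Kl (Λ × S) := (p.1, fun a => p.2 a.2)

/-- all constraints are met -/
def GoodC (cc : Cc T S) (x : T.X) (o : S → Obj) : Prop :=
  ∀ s, T.GoodP (cc s).1 (cc s).2 x (o s)

/-- measurable trees -/
def MT (B : Set T.ι) (U : T.X → Set (Kl S)) : Prop := ∀ p, MD B fun x => p ∈ U x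

/-- countable closed sets of nodes -/
def CC (B : Set T.ι) : Prop := B.Countable ∧ T.Clo B

/-- countable closed sets with largest node `d` -/
def TopN (B : Set T.ι) (d : T.ι) : Prop := CC B ∧ d ∈ B ∧ B ⊆ Iic d

theorem MT.mono {B B' : Set T.ι} {U : T.X → Set (Kl S)} (h : MT B U) (e : B ⊆ B') : MT B' U :=
  fun p => (h p).mono e

theorem CcIn.mono {cc : Cc T S} {B B' : Set T.ι} (h : CcIn cc B) (e : B ⊆ B') : CcIn cc B' :=
  fun s a ha => e (h s a ha)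

theorem md_goodC [Countable S] {cc : Cc T S} {B : Set T.ι} (h : CcIn cc B) (o : S → Obj) :
    MD B fun x => GoodC cc x o := MD.all fun s => md_goodP (h s) _ _

theorem goodC_congr {cc : Cc T S} {B : Set T.ι} (h : CcIn cc B) {x y : T.X}
    (e : ∀ n ∈ B, x n = y n) (o : S → Obj) : GoodC cc x o ↔ GoodC cc y o :=
  forall_congr' fun s => (md_goodP (h s) _ _).2 x y e

/-- members of a class -/
def Mem (mu : S → ℕ) (p : Kl S) (o : S → Obj) : Prop :=
  ∀ s, tr p.1 (o s) = p.2 s ∧ (o s).2.card ≤ mu s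

theorem Mem.ref {mu : S → ℕ} {p q : Kl S} {o : S → Obj} (h : Mem mu q o) (e : Ref p q) :
    Mem mu p o := fun s => ⟨by rw [← e.2 s, ← (h s).1, tr_tr e.1], (h s).2⟩

theorem Okc.mem {mu : S → ℕ} {p : Kl S} (h : Okc mu p) : Mem mu p p.2 := h

/-- the data of a system -/
structure SysP {C : Set T.ι} {Γ : Type} (E : Ext T univ C Γ) (K : E.T'.X → Prop)
    (GG : Set (Set Γ)) (cc : Cc T S) (mu : S → ℕ) (n : ℕ) (R : T.X → Prop) (p : Kl S) : Prop where
  meas : Measurable K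
  pos : ∃ᶠ x in E.T'.μ, K x
  up : IsUpperSet GG
  lk : Linked n GG
  sub : ∀ᶠ x in E.T'.μ, K x → ∀ g, R ((E.M g).pull x)
  copy : ∀ᶠ x in E.T'.μ, K x → ∀ o, Mem mu p o → {g | GoodC cc ((E.M g).pull x) o} ∈ GG

/-- there is a system for `R` and the class `p` -/
def HS (C : Set T.ι) (cc : Cc T S) (mu : S → ℕ) (n : ℕ) (R : T.X → Prop) (p : Kl S) : Prop :=
  Okc mu p ∧ ∃ (Γ : Type) (_ : Finite Γ) (E : Ext T univ C Γ) (K : E.T'.X → Prop)
    (GG : Set (Set Γ)), SysP E K GG cc mu n R p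

/-- every positive part of `R` has systems -/
def AlOn (C : Set T.ι) (cc : Cc T S) (mu : S → ℕ) (U : T.X → Set (Kl S)) (R : T.X → Prop) : Prop :=
  ∀ R', MD univ R' → (∀ x, R' x → R x) → (∃ᶠ x in T.μ, R' x) → ∀ n, ∃ p,
    HS C cc mu n (fun x => R' x ∧ p ∈ U x) p

/-- the aligned set of a tree -/
noncomputable def Al (C : Set T.ι) (cc : Cc T S) (mu : S → ℕ) (U : T.X → Set (Kl S)) (x : T.X) :
    Prop :=
  ∃ k, (ess_sup T.μ (B := univ) {R | MD univ R ∧ AlOn C cc mu U R} fun _ h => h.1).choose k x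

variable {C : Set T.ι} {cc : Cc T S} {mu : S → ℕ} {n n' : ℕ} {R R' : T.X → Prop} {p : Kl S}
  {U : T.X → Set (Kl S)}

theorem ev_pull {Γ : Type} [Finite Γ] (E : Ext T univ C Γ) {P : T.X → Prop} (h : ∀ᶠ x in T.μ, P x) :
    ∀ᶠ x in E.T'.μ, ∀ g, P ((E.M g).pull x) :=
  eventually_all.2 fun g => (E.M g).tendsto_univ.eventually h

theorem Ext.md_iff' {Γ : Type} (E : Ext T univ C Γ) (g g' : Γ) (x : E.T'.X) {P : T.X → Prop}
    (h : MD C P) : P ((E.M g).pull x) ↔ P ((E.M g').pull x) :=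
  E.md_iff g g' x (by rwa [inter_univ])

theorem Mor.meas_pullD {T' : Tpl} {B B0 : Set T.ι} (M : Mor T B T') {P : T.X → Prop}
    (h : MD B0 P) : Measurable fun x => P (M.pull x) := (M.md_pull h).1

theorem HS.mono (hn : n' ≤ n) (h : ∀ᶠ x in T.μ, R x → R' x) (H : HS C cc mu n R p) :
    HS C cc mu n' R' p := by
  obtain ⟨ho, Γ, _, E, K, GG, H⟩ := H
  refine ⟨ho, Γ, inferInstance, E, K, GG, H.meas, H.pos, H.up, H.lk.mono hn, ?_, H.copy⟩
  filter_upwards [H.sub, ev_pull E h] with x h1 h2 h3 g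
  exact h2 g (h1 h3 g)

theorem HS.mono' (h : ∀ x, R x → R' x) (H : HS C cc mu n R p) : HS C cc mu n R' p :=
  H.mono le_rfl (Eventually.of_forall h)

theorem HS.pos (H : HS C cc mu n R p) : ∃ᶠ x in T.μ, R x := by
  obtain ⟨-, Γ, _, E, K, GG, H⟩ := H
  obtain ⟨g⟩ := H.lk.nonempty
  exact (E.M g).tendsto_univ.frequently ((H.pos.and_eventually H.sub).mono fun x hx => hx.2 hx.1 g)

theorem al_md (C : Set T.ι) (cc : Cc T S) (mu : S → ℕ) (U : T.X → Set (Kl S)) :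
    MD univ (Al C cc mu U) := by
  refine MD.ex fun k => ?_
  rcases (ess_sup T.μ (B := univ) {R | MD univ R ∧ AlOn C cc mu U R}
    fun _ h => h.1).choose_spec.1 k with h | h
  · exact h.1
  · rw [h]; exact MD.const _

theorem al_hs (n : ℕ) (hR : MD univ R) (h : ∃ᶠ x in T.μ, R x ∧ Al C cc mu U x) :
    ∃ p, HS C cc mu n (fun x => R x ∧ p ∈ U x) p := by
  obtain ⟨k, hk⟩ := freq_ex (h.mono fun x hx => hx.2.imp fun k hk => And.intro hx.1 hk)
  rcases (ess_sup T.μ (B := univ) {R | MD univ R ∧ AlOn C cc mu U R}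
    fun _ h => h.1).choose_spec.1 k with h1 | h1
  · obtain ⟨p, hp⟩ := h1.2 _ (hR.and h1.1) (fun x hx => hx.2) hk n
    exact ⟨p, hp.mono' fun x hx => ⟨hx.1.1, hx.2⟩⟩
  · rw [h1] at hk
    obtain ⟨x, hx⟩ := hk.exists
    exact hx.2.elim

theorem hs_al (hR : MD univ R) (h : AlOn C cc mu U R) : ∀ᶠ x in T.μ, R x → Al C cc mu U x :=
  (ess_sup T.μ (B := univ) {R | MD univ R ∧ AlOn C cc mu U R}
    fun _ h => h.1).choose_spec.2 R ⟨hR, h⟩

/-- the complement of the aligned set is covered by countably many sets without systems -/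
theorem al_block (C : Set T.ι) (cc : Cc T S) (mu : S → ℕ) (U : T.X → Set (Kl S)) :
    ∃ (B : ℕ → T.X → Prop) (m : ℕ → ℕ), (∀ k, MD univ (B k)) ∧
      (∀ k p, ¬ HS C cc mu (m k) (fun x => B k x ∧ p ∈ U x) p) ∧
      ∀ᶠ x in T.μ, Al C cc mu U x ∨ ∃ k, B k x := by
  obtain ⟨B, h1, h2⟩ := ess_sup T.μ (B := univ)
    {R | MD univ R ∧ ∃ m, ∀ p, ¬ HS C cc mu m (fun x => R x ∧ p ∈ U x) p} fun _ h => h.1
  have h3 : ∀ k, MD univ (B k) ∧ ∃ m, ∀ p, ¬ HS C cc mu m (fun x => B k x ∧ p ∈ U x) p := fun k => by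
    rcases h1 k with h | h
    · exact h
    · rw [h]
      exact ⟨MD.const _, 0, fun p hp => hp.pos.exists.elim fun x hx => hx.1⟩
  choose h4 m hm using h3
  refine ⟨B, m, h4, hm, ?_⟩
  have := hs_al (C := C) (cc := cc) (mu := mu) (U := U) (MD.ex h4).not fun R' h5 h6 h7 n => by
    by_contra hc
    obtain ⟨x, hx, h8⟩ :=
      (h7.and_eventually (h2 R' ⟨h5, n, fun p hp => hc ⟨p, hp⟩⟩)).exists
    exact h6 x hx (h8 hx)
  exact this.mono fun x hx => (em (∃ k, B k x)).symm.imp_left hx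

theorem HS.map {cc' : Cc T S'} {mu' : S' → ℕ} (j : S' → S) (hj : Function.Injective j)
    (hc : ∀ s, (cc' s).1 ⊆ (cc (j s)).1 ∧ (cc' s).2 ≤ (cc (j s)).2) (hm : ∀ s, mu' s = mu (j s))
    (H : HS C cc mu n R p) : HS C cc' mu' n R (p.1, fun s => p.2 (j s)) := by
  obtain ⟨ho, Γ, _, E, K, GG, H⟩ := H
  refine ⟨fun s => hm s ▸ ho (j s), Γ, inferInstance, E, K, GG, H.meas, H.pos, H.up, H.lk, H.sub,
    H.copy.mono fun x hx hK o hmem => ?_⟩
  refine H.up (fun g hg s => ?_) (hx hK (Function.extend j o p.2) fun s => ?_)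
  · have := hg (j s)
    rw [hj.extend_apply] at this
    exact this.mono (hc s).1 (hc s).2
  · by_cases h : ∃ s', j s' = s
    · obtain ⟨s', rfl⟩ := h
      rw [hj.extend_apply, ← hm]
      exact hmem s'
    · rw [Function.extend_apply' _ _ _ h]
      exact ho s

theorem HS.real (s : S) (o : Obj) (h1 : o.2.card ≤ mu s) (h2 : p.2 s = tr p.1 o)
    (H : HS C cc mu 1 R p) : ∃ᶠ x in T.μ, R x ∧ T.GoodP (cc s).1 (cc s).2 x o := by
  classical
  obtain ⟨ho, Γ, _, E, K, GG, H⟩ := H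
  have h3 : Mem mu p (Function.update p.2 s o) := fun s' => by
    by_cases h : s' = s
    · subst h
      rw [Function.update_self]
      exact ⟨h2.symm, h1⟩
    · rw [Function.update_of_ne h]
      exact ho s'
  obtain ⟨g, hg⟩ := freq_ex (P := fun g x => R ((E.M g).pull x) ∧
      T.GoodP (cc s).1 (cc s).2 ((E.M g).pull x) o)
    (((H.pos.and_eventually H.sub).and_eventually H.copy).mono fun x hx => by
      obtain ⟨g, hg⟩ := H.lk.one le_rfl (hx.2 hx.1.1 _ h3)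
      have := hg s
      rw [Function.update_self] at this
      exact ⟨g, hx.1.2 hx.1.1 g, this⟩)
  exact (E.M g).tendsto_univ.frequently hg

theorem hs_triv [IsEmpty S] (n : ℕ) (p : Kl S) (hR : MD univ R) (h : ∃ᶠ x in T.μ, R x) :
    HS C cc mu n R p := by
  refine ⟨fun s => isEmptyElim s, Unit, inferInstance,
    ⟨T, fun _ => Mor.id T univ, fun _ _ _ _ => ⟨rfl, rfl⟩⟩, R, {univ}, hR.1, h, ?_, ?_,
    Eventually.of_forall fun x hx _ => hx, Eventually.of_forall fun x _ o _ => ?_⟩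
  · intro A B hAB hA
    rw [mem_singleton_iff] at hA ⊢
    exact eq_univ_of_univ_subset (hA ▸ hAB)
  · intro κ _ _ G hG
    exact ⟨(), fun i => by rw [mem_singleton_iff.1 (hG i)]; trivial⟩
  · exact eq_univ_of_forall fun _ s => isEmptyElim s

/-! ### composition of extensions -/

theorem Mor.injD {T' : Tpl} (M : Mor T univ T') : Function.Injective M.h :=
  fun _ _ h => M.mono.injOn trivial trivial h

/-- the common image of `C` -/
def Ext.baseD {Γ : Type} (E : Ext T univ C Γ) : Set E.T'.ι := {m | ∃ g, ∃ a ∈ C, (E.M g).h a = m}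

theorem Ext.base_clo {Γ : Type} (E : Ext T univ C Γ) (hC : T.Clo C) : E.T'.Clo E.baseD := by
  rintro _ ⟨g, a, ha, rfl⟩ m hm
  rw [(E.M g).supp a trivial] at hm
  obtain ⟨b, hb, rfl⟩ := hm
  exact ⟨g, b, hC a ha hb, rfl⟩

theorem Ext.not_base {Γ : Type} (E : Ext T univ C Γ) (g : Γ) {a : T.ι} (ha : a ∉ C) :
    (E.M g).h a ∉ E.baseD := by
  rintro ⟨g', b, hb, e⟩
  rw [(E.agree g' g b ⟨hb, trivial⟩).1] at e
  exact ha ((E.M g).injD e ▸ hb)

/-- copies of copies, along any index map -/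
noncomputable def Ext.comp {Γ Δ Θ : Type} (E : Ext T univ C Γ) (E2 : Ext E.T' univ E.baseD Δ)
    (f : Θ → Δ × Γ) : Ext T univ C Θ where
  T' := E2.T'
  M t := (E.M (f t).2).comp (E2.M (f t).1)
  agree t t' a ha := by
    have h1 := E.agree (f t).2 (f t').2 a ha
    have h2 := E2.agree (f t).1 (f t').1 ((E.M (f t).2).h a) ⟨⟨_, a, ha.1, rfl⟩, trivial⟩
    refine ⟨?_, funext fun i => ?_⟩
    · change (E2.M (f t).1).h ((E.M (f t).2).h a) = (E2.M (f t').1).h ((E.M (f t').2).h a)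
      rw [h2.1, h1.1]
    · change ((E2.M (f t).1).tw ((E.M (f t).2).h a) i).trans ((E.M (f t).2).tw a i) =
        ((E2.M (f t').1).tw ((E.M (f t').2).h a) i).trans ((E.M (f t').2).tw a i)
      rw [h2.2, h1.2, h1.1]

theorem pre_tw (g : ℕ → Aut) (y : ℕ → L) (i : ℕ) :
    pre (fun j => twL (g j) (y j)) i = twW g (pre y i) := by
  refine List.ext_getElem (by simp [pre, twW]) fun j h1 h2 => ?_
  simp [pre, twW]

/-- the outcome of the basic copy lemma over an extension -/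
structure Step {Γ Δ : Type} (E : Ext T univ C Γ) (E2 : Ext E.T' univ E.baseD Δ) (q' : E2.T'.Cond)
    (GG : Set (Set Δ)) (σ : Γ → T.ι → List L) (Pi : Finset T.ι) (D N m n : ℕ) : Prop where
  val : Val univ q'
  up : IsUpperSet GG
  lk : Linked n GG
  st : ∀ x, Sem q' x → ∀ d g, ∀ a ∈ Pi,
    pre ((E.M g).pull ((E2.M d).pull x) a) (σ g a).length = σ g a
  hi : ∀ x, Sem q' x → ∀ (κ : Type) [Fintype κ], Fintype.card κ ≤ N → ∀ o : κ → Obj,
    (∀ j, (o j).2.card ≤ m) → {d | ∀ g, ∀ a ∈ Pi, ∀ j, ∀ D' ≤ D,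
      T.gd a ((E.M g).pull ((E2.M d).pull x) a) D' (o j) ↔ T.gd a (ofL (σ g a)) D' (o j)} ∈ GG

theorem step_cond {Γ : Type} [Finite Γ] (E : Ext T univ C Γ) (hC : T.Clo C) (q : E.T'.Cond)
    (hq : Val univ q) (Pi : Finset T.ι) (h1 : ∀ a ∈ Pi, a ∉ C)
    (h2 : ∀ g, ∀ a ∈ Pi, (E.M g).h a ∈ q.dom ∧ ∃ D0,
      (∀ i, (q.st ((E.M g).h a)).length ≤ i →
        (E.M g).tw a i = (E.M g).tw a (q.st ((E.M g).h a)).length) ∧
      Pres ((E.M g).tw a (q.st ((E.M g).h a)).length) D0) (D N m n : ℕ) :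
    ∃ (Δ : Type) (_ : Finite Δ) (E2 : Ext E.T' univ E.baseD Δ) (q' : E2.T'.Cond) (GG : Set (Set Δ))
      (σ : Γ → T.ι → List L), Step E E2 q' GG σ Pi D N m n ∧
      (∀ g a, (σ g a).length = (q.st ((E.M g).h a)).length) ∧
      ∀ x, Sem q' x → ∀ d, Sem q ((E2.M d).pull x) := by
  classical
  have := Fintype.ofFinite Γ
  choose! h3 D0 h4 h5 using h2
  obtain ⟨Δ, _, E2, q', GG, H⟩ := bc_lemma E.T' E.baseD (E.base_clo hC) q hq
    ((Finset.univ ×ˢ Pi).image fun b : Γ × T.ι => (E.M b.1).h b.2)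
    (fun m hm => by
      obtain ⟨b, hb, rfl⟩ := Finset.mem_image.1 hm
      exact h3 _ _ (Finset.mem_product.1 hb).2)
    (fun m hm => by
      obtain ⟨b, hb, rfl⟩ := Finset.mem_image.1 hm
      exact E.not_base _ (h1 _ (Finset.mem_product.1 hb).2))
    (max D ((Finset.univ ×ˢ Pi).sup fun b : Γ × T.ι => D0 b.1 b.2)) N m n
  have hl : ∀ g a, (twW ((E.M g).tw a) (q.st ((E.M g).h a))).length =
      (q.st ((E.M g).h a)).length := fun g a => by simp [twW]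
  have hst : ∀ x, Sem q' x → ∀ d g, ∀ a ∈ Pi, pre ((E.M g).pull ((E2.M d).pull x) a)
      (q.st ((E.M g).h a)).length = twW ((E.M g).tw a) (q.st ((E.M g).h a)) := by
    intro x hx d g a ha
    have := (H.sem x hx d _ (h3 g a ha)).1
    rw [← congrArg (twW ((E.M g).tw a)) this]
    exact pre_tw _ _ _
  refine ⟨Δ, inferInstance, E2, q', GG, fun g a => twW ((E.M g).tw a) (q.st ((E.M g).h a)),
    ⟨H.val, H.up, H.lk, fun x hx d g a ha => ?_, fun x hx κ _ hκ o ho => ?_⟩, hl, H.sem⟩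
  · rw [hl]; exact hst x hx d g a ha
  refine H.up (fun d hd g a ha j D' hD' => ?_) (H.hi x κ hκ o ho)
  have hb : (g, a) ∈ Finset.univ ×ˢ Pi := Finset.mem_product.2 ⟨Finset.mem_univ _, ha⟩
  by_cases hK : T.isK a
  · exact ⟨fun _ => Or.inl hK, fun _ => Or.inl hK⟩
  have h6 := (hd _ (Finset.mem_image_of_mem _ hb) j).resolve_left
    fun h => hK (((E.M g).isK a trivial).1 h)
  have h7 := (good_cutHi_tw (h4 g a ha) (h5 g a ha)
    ((Finset.le_sup (f := fun b : Γ × T.ι => D0 b.1 b.2) hb).trans (le_max_right _ _)) (o j)).2 h6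
  have h8 := good_split (h7.mono (hD'.trans (le_max_left _ _)))
  rw [← hst x hx d g a ha]
  exact or_congr_right h8

theorem step_pos {Γ : Type} [Finite Γ] (E : Ext T univ C Γ) (hC : T.Clo C) {K : E.T'.X → Prop}
    (hK : Measurable K) (hK' : ∃ᶠ x in E.T'.μ, K x) (Pi : Finset T.ι) (h1 : ∀ a ∈ Pi, a ∉ C)
    (D N m n n0 : ℕ) :
    ∃ (Δ : Type) (_ : Finite Δ) (E2 : Ext E.T' univ E.baseD Δ) (q' : E2.T'.Cond) (GG : Set (Set Δ))
      (σ : Γ → T.ι → List L) (k : ℕ), Step E E2 q' GG σ Pi D N m n ∧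
      (∀ g, ∀ a ∈ Pi, n0 ≤ (σ g a).length ∧ bnd (σ g a) ≤ k) ∧
      ∀ᶠ x in E2.T'.μ, Sem q' x → ∀ d, K ((E2.M d).pull x) := by
  classical
  have := Fintype.ofFinite Γ
  choose i0 D0 h2 using fun g a => (E.M g).twE a trivial
  obtain ⟨q, hq, h3, h4⟩ := bp_long (fun _ _ => subset_univ _) (MD.of_meas hK) hK'
    ((Finset.univ ×ˢ Pi).image fun b : Γ × T.ι => (E.M b.1).h b.2) (subset_univ _)
    (max n0 ((Finset.univ ×ˢ Pi).sup fun b : Γ × T.ι => i0 b.1 b.2))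
  have h5 : ∀ g, ∀ a ∈ Pi, (E.M g).h a ∈ q.dom ∧ n0 ≤ (q.st ((E.M g).h a)).length ∧
      i0 g a ≤ (q.st ((E.M g).h a)).length := fun g a ha => by
    have hb : (g, a) ∈ Finset.univ ×ˢ Pi := Finset.mem_product.2 ⟨Finset.mem_univ _, ha⟩
    have := h3 _ (Finset.mem_image_of_mem _ hb)
    exact ⟨this.1, (le_max_left _ _).trans this.2,
      ((Finset.le_sup (f := fun b : Γ × T.ι => i0 b.1 b.2) hb).trans (le_max_right _ _)).trans this.2⟩
  obtain ⟨Δ, _, E2, q', GG, σ, H, h6, h7⟩ := step_cond E hC q hq Pi h1 (fun g a ha => by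
    have h := h5 g a ha
    refine ⟨h.1, D0 g a, fun i hi => ?_, ?_⟩
    · rw [(h2 g a i (h.2.2.trans hi)).1, (h2 g a _ h.2.2).1]
    · rw [(h2 g a _ h.2.2).1]; exact (h2 g a _ h.2.2).2) D N m n
  refine ⟨Δ, inferInstance, E2, q', GG, σ,
    (Finset.univ ×ˢ Pi).sup fun b : Γ × T.ι => bnd (σ b.1 b.2), H, fun g a ha => ⟨?_, ?_⟩, ?_⟩
  · rw [h6]; exact (h5 g a ha).2.1
  · exact Finset.le_sup (f := fun b : Γ × T.ι => bnd (σ b.1 b.2))
      (show (g, a) ∈ _ from Finset.mem_product.2 ⟨Finset.mem_univ _, ha⟩)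
  · filter_upwards [ev_pull E2 h4] with x hx hs d
    exact hx d (h7 x hs d)

theorem gd_ofL_tr {a : T.ι} {τ : List L} {k D : ℕ} (h : bnd τ ≤ k) {o o' : Obj}
    (e : tr k o = tr k o') : T.gd a (ofL τ) D o ↔ T.gd a (ofL τ) D o' :=
  or_congr_right (by rw [good_ofL_tr h, e, ← good_ofL_tr h])

end Pool.Agent.MP_e30343_lc.SO

end
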